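import Pool.Agent.Lib.MP_973905_nt.K1.Stmts

/-! Contour shift for Gaussian means. -/

namespace Pool.Agent.Lib.MP_973905_nt
namespace K1

open MeasureTheory ProbabilityTheory Complex Filter Topology Set

namespace Shift

/-- shifting a vertical line of integration -/
lemma vshift {h : ℂ → ℂ} {α β σ₁ σ₂ : ℝ} (h1 : α < σ₁) (h2 : σ₁ < β) (h3 : α < σ₂) (h4 : σ₂ < β)
    (hd : DifferentiableOn ℂ h {s : ℂ | α < s.re ∧ s.re < β}) {B : ℝ → ℝ} (hB : Integrable B)
    (hB1 : Tendsto B atTop (𝓝 0)) (hB2 : Tendsto B atBot (𝓝 0))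
    (hb : ∀ x ∈ uIcc σ₁ σ₂, ∀ t : ℝ, ‖h (x + t * I)‖ ≤ B t) :
    ∫ t : ℝ, h (σ₁ + t * I) = ∫ t : ℝ, h (σ₂ + t * I) := by
  have hsub : ∀ x ∈ uIcc σ₁ σ₂, α < x ∧ x < β := by
    intro x hx
    rw [mem_uIcc] at hx
    rcases hx with hx | hx
    · exact ⟨by linarith [hx.1], by linarith [hx.2]⟩
    · exact ⟨by linarith [hx.1], by linarith [hx.2]⟩
  have hcont : ∀ x : ℝ, α < x → x < β → Continuous fun t : ℝ => h (x + t * I) := by
    intro x hx1 hx2
    apply hd.continuousOn.comp_continuous (by fun_prop)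
    intro t
    simpa using ⟨hx1, hx2⟩
  have hint : ∀ x ∈ uIcc σ₁ σ₂, Integrable fun t : ℝ => h (x + t * I) := by
    intro x hx
    exact hB.mono' (hcont x (hsub x hx).1 (hsub x hx).2).aestronglyMeasurable
      (Eventually.of_forall fun t => hb x hx t)
  have hi1 := hint σ₁ left_mem_uIcc
  have hi2 := hint σ₂ right_mem_uIcc
  have hrect : ∀ R : ℝ, (∫ x in σ₁..σ₂, h (x + (-R : ℝ) * I)) - (∫ x in σ₁..σ₂, h (x + R * I)) +
      I • (∫ y in (-R)..R, h (σ₂ + y * I)) - I • (∫ y in (-R)..R, h (σ₁ + y * I)) = 0 := by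
    intro R
    have := Complex.integral_boundary_rect_eq_zero_of_differentiableOn h
      ((σ₁ : ℂ) + ((-R : ℝ) : ℂ) * I) ((σ₂ : ℂ) + (R : ℂ) * I) ?_
    · simpa using this
    · apply hd.mono
      intro s hs
      rw [mem_reProdIm] at hs
      have h5 := hs.1
      simp only [add_re, ofReal_re, mul_re, I_re, mul_zero, ofReal_im, I_im, mul_one, sub_self,
        add_zero] at h5
      exact hsub _ h5
  have t1 : Tendsto (fun R : ℝ => ∫ y in (-R)..R, h (σ₂ + y * I)) atTop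
      (𝓝 (∫ t : ℝ, h (σ₂ + t * I))) :=
    intervalIntegral_tendsto_integral hi2 tendsto_neg_atTop_atBot tendsto_id
  have t2 : Tendsto (fun R : ℝ => ∫ y in (-R)..R, h (σ₁ + y * I)) atTop
      (𝓝 (∫ t : ℝ, h (σ₁ + t * I))) :=
    intervalIntegral_tendsto_integral hi1 tendsto_neg_atTop_atBot tendsto_id
  have t3 : Tendsto (fun R : ℝ => ∫ x in σ₁..σ₂, h (x + R * I)) atTop (𝓝 0) := by
    refine squeeze_zero_norm (a := fun R => B R * |σ₂ - σ₁|) (fun R => ?_) ?_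
    · exact intervalIntegral.norm_integral_le_of_norm_le_const
        fun x hx => hb x (uIoc_subset_uIcc hx) R
    · simpa using hB1.mul_const |σ₂ - σ₁|
  have t4 : Tendsto (fun R : ℝ => ∫ x in σ₁..σ₂, h (x + (-R : ℝ) * I)) atTop (𝓝 0) := by
    refine squeeze_zero_norm (a := fun R => B (-R) * |σ₂ - σ₁|) (fun R => ?_) ?_
    · exact intervalIntegral.norm_integral_le_of_norm_le_const
        fun x hx => hb x (uIoc_subset_uIcc hx) (-R)
    · simpa using (hB2.comp tendsto_neg_atTop_atBot).mul_const |σ₂ - σ₁|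
  have t5 := ((t4.sub t3).add (t1.const_smul I)).sub (t2.const_smul I)
  have t6 : Tendsto (fun R : ℝ => (∫ x in σ₁..σ₂, h (x + (-R : ℝ) * I)) -
      (∫ x in σ₁..σ₂, h (x + R * I)) + I • (∫ y in (-R)..R, h (σ₂ + y * I)) -
      I • (∫ y in (-R)..R, h (σ₁ + y * I))) atTop (𝓝 0) := by
    simp only [hrect]
    exact tendsto_const_nhds
  have t7 := tendsto_nhds_unique t5 t6
  simp only [sub_zero, zero_add, smul_eq_mul] at t7
  have t8 : I * ((∫ t : ℝ, h (σ₂ + t * I)) - ∫ t : ℝ, h (σ₁ + t * I)) = 0 := by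
    linear_combination t7
  rcases mul_eq_zero.mp t8 with h0 | h0
  · exact absurd h0 I_ne_zero
  · exact (sub_eq_zero.mp h0).symm

lemma tendsto_gauss {K b τ : ℝ} (hb : 0 < b) :
    Tendsto (fun t : ℝ => K * Real.exp (-b * (t - τ) ^ 2)) atTop (𝓝 0) ∧
    Tendsto (fun t : ℝ => K * Real.exp (-b * (t - τ) ^ 2)) atBot (𝓝 0) := by
  have h1 : Tendsto (fun x : ℝ => K * Real.exp (-b * x ^ 2)) atTop (𝓝 0) := by
    have h : Tendsto (fun x : ℝ => -b * x ^ 2) atTop atBot :=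
      (tendsto_pow_atTop two_ne_zero).const_mul_atTop_of_neg (by linarith)
    simpa using (Real.tendsto_exp_atBot.comp h).const_mul K
  have h2 : Tendsto (fun x : ℝ => K * Real.exp (-b * x ^ 2)) atBot (𝓝 0) := by
    have h := h1.comp tendsto_neg_atBot_atTop
    refine h.congr fun x => ?_
    simp
  constructor
  · exact h1.comp (tendsto_atTop_add_const_right _ (-τ) tendsto_id)
  · exact h2.comp (tendsto_atBot_add_const_right _ (-τ) tendsto_id)

lemma poly_gauss {m : ℕ} {v τ t : ℝ} (hv : 0 < v) :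
    (1 + |t|) ^ m * Real.exp (-(t - τ) ^ 2 / (4 * v)) ≤
      m.factorial * Real.exp (1 + |τ| + 2 * v) * Real.exp (-(1 / (8 * v)) * (t - τ) ^ 2) := by
  have h1 := Real.pow_div_factorial_le_exp (1 + |t|) (by positivity) m
  rw [div_le_iff₀ (by positivity)] at h1
  have h2 : |t| ≤ |τ| + |t - τ| := by
    have := abs_add_le τ (t - τ)
    simpa using this
  have h3 : |t - τ| ≤ (t - τ) ^ 2 / (8 * v) + 2 * v := by
    have h5 : 0 ≤ (|t - τ| - 4 * v) ^ 2 := sq_nonneg _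
    have h6 : (t - τ) ^ 2 / (8 * v) + 2 * v - |t - τ| = (|t - τ| - 4 * v) ^ 2 / (8 * v) := by
      rw [← sq_abs (t - τ)]
      field_simp
      ring
    have h7 : 0 ≤ (|t - τ| - 4 * v) ^ 2 / (8 * v) := by positivity
    linarith
  calc (1 + |t|) ^ m * Real.exp (-(t - τ) ^ 2 / (4 * v))
      ≤ (Real.exp (1 + |t|) * m.factorial) * Real.exp (-(t - τ) ^ 2 / (4 * v)) := by gcongr
    _ = m.factorial * Real.exp ((1 + |t|) + -(t - τ) ^ 2 / (4 * v)) := by
        rw [Real.exp_add (1 + |t|)]; ring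
    _ ≤ m.factorial * Real.exp ((1 + |τ| + 2 * v) + -(1 / (8 * v)) * (t - τ) ^ 2) := by
        have e : -(t - τ) ^ 2 / (4 * v) = -(1 / (8 * v)) * (t - τ) ^ 2 - (t - τ) ^ 2 / (8 * v) := by
          field_simp
          ring
        have e2 : (1 + |t|) + -(t - τ) ^ 2 / (4 * v) ≤
            (1 + |τ| + 2 * v) + -(1 / (8 * v)) * (t - τ) ^ 2 := by
          rw [e]
          linarith
        exact mul_le_mul_of_nonneg_left (Real.exp_le_exp.mpr e2) (by positivity)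
    _ = _ := by rw [Real.exp_add]; ring

end Shift

theorem stShift : StShift := by
  intro f α β σ₁ σ₂ τ κ v hv h1 h2 h3 h4 hd hκ hκv hg
  obtain ⟨C, m, hC⟩ := hg
  have hv' : (0 : ℝ) < v := by positivity
  have hvc : (v : ℂ) ≠ 0 := by exact_mod_cast hv'.ne'
  rw [integral_gaussianReal_eq_integral_smul hv, integral_gaussianReal_eq_integral_smul hv]
  set h : ℂ → ℂ := fun s => f s * cexp ((s - σ₁ - τ * I) ^ 2 / (2 * v)) with hh
  have hdh : DifferentiableOn ℂ h {s : ℂ | α < s.re ∧ s.re < β} := by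
    apply hd.mul
    apply Differentiable.differentiableOn
    fun_prop
  have hexp : ∀ x t : ℝ, cexp ((((x : ℂ) + t * I) - σ₁ - τ * I) ^ 2 / (2 * v)) =
      ((Real.exp (((x - σ₁) ^ 2 - (t - τ) ^ 2) / (2 * v)) : ℝ) : ℂ) *
        cexp (((x - σ₁) * (t - τ) / v : ℝ) * I) := by
    intro x t
    rw [ofReal_exp, ← Complex.exp_add]
    congr 1
    have hI : I ^ 2 = -1 := I_sq
    push_cast
    field_simp
    linear_combination ((t - τ) ^ 2 : ℂ) * hI
  have hnorm : ∀ x t : ℝ, ‖cexp ((((x : ℂ) + t * I) - σ₁ - τ * I) ^ 2 / (2 * v))‖ =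
      Real.exp (((x - σ₁) ^ 2 - (t - τ) ^ 2) / (2 * v)) := by
    intro x t
    rw [hexp, norm_mul, norm_exp_ofReal_mul_I, mul_one, norm_real, Real.norm_eq_abs,
      abs_of_pos (Real.exp_pos _)]
  set K : ℝ := |C| * Real.exp ((σ₂ - σ₁) ^ 2 / (2 * v)) *
    (m.factorial * Real.exp (1 + |τ| + 2 * v)) with hK
  have hb : ∀ x ∈ uIcc σ₁ σ₂, ∀ t : ℝ, ‖h (x + t * I)‖ ≤
      K * Real.exp (-(1 / (8 * (v : ℝ))) * (t - τ) ^ 2) := by
    intro x hx t
    have hx' : α < x ∧ x < β ∧ |x - σ₁| ≤ |σ₂ - σ₁| := by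
      have h5 := abs_sub_left_of_mem_uIcc hx
      rw [mem_uIcc] at hx
      rcases hx with hx | hx
      · exact ⟨by linarith [hx.1], by linarith [hx.2], h5⟩
      · exact ⟨by linarith [hx.1], by linarith [hx.2], h5⟩
    have h5 : ‖f (x + t * I)‖ ≤ |C| * (1 + |t|) ^ m * Real.exp (κ * (t - τ) ^ 2) := by
      have := hC (x + t * I) (by simpa using hx'.1) (by simpa using hx'.2.1)
      have e : (x + t * I : ℂ).im = t := by simp
      rw [e] at this
      refine this.trans ?_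
      gcongr
      exact le_abs_self C
    have h6 : (x - σ₁) ^ 2 ≤ (σ₂ - σ₁) ^ 2 := sq_le_sq.mpr hx'.2.2
    rw [hh]
    simp only
    rw [norm_mul, hnorm]
    calc ‖f (x + t * I)‖ * Real.exp (((x - σ₁) ^ 2 - (t - τ) ^ 2) / (2 * v))
        ≤ (|C| * (1 + |t|) ^ m * Real.exp (κ * (t - τ) ^ 2)) *
          Real.exp (((σ₂ - σ₁) ^ 2 - (t - τ) ^ 2) / (2 * v)) := by gcongr
      _ = |C| * (1 + |t|) ^ m * Real.exp ((σ₂ - σ₁) ^ 2 / (2 * v)) *
          Real.exp (κ * (t - τ) ^ 2 - (t - τ) ^ 2 / (2 * v)) := by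
          rw [sub_div, sub_eq_add_neg ((σ₂ - σ₁) ^ 2 / (2 * (v : ℝ))), Real.exp_add,
            sub_eq_add_neg (κ * (t - τ) ^ 2), Real.exp_add]
          ring
      _ ≤ |C| * (1 + |t|) ^ m * Real.exp ((σ₂ - σ₁) ^ 2 / (2 * v)) *
          Real.exp (-(t - τ) ^ 2 / (4 * v)) := by
          gcongr
          have h7 : κ ≤ 1 / (4 * v) := by
            rw [le_div_iff₀ (by positivity)]
            linarith
          have h8 : κ * (t - τ) ^ 2 ≤ 1 / (4 * v) * (t - τ) ^ 2 := by gcongr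
          have h9 : (t - τ) ^ 2 / (2 * v) = 1 / (4 * v) * (t - τ) ^ 2 + (t - τ) ^ 2 / (4 * v) := by
            field_simp
            ring
          rw [h9, neg_div]
          linarith
      _ = |C| * Real.exp ((σ₂ - σ₁) ^ 2 / (2 * v)) *
          ((1 + |t|) ^ m * Real.exp (-(t - τ) ^ 2 / (4 * v))) := by ring
      _ ≤ |C| * Real.exp ((σ₂ - σ₁) ^ 2 / (2 * v)) *
          (m.factorial * Real.exp (1 + |τ| + 2 * v) *
            Real.exp (-(1 / (8 * (v : ℝ))) * (t - τ) ^ 2)) := by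
          exact mul_le_mul_of_nonneg_left (Shift.poly_gauss hv') (by positivity)
      _ = _ := by rw [hK]; ring
  have hbpos : 0 < 1 / (8 * (v : ℝ)) := by positivity
  have hint : Integrable fun t : ℝ => K * Real.exp (-(1 / (8 * (v : ℝ))) * (t - τ) ^ 2) :=
    ((integrable_exp_neg_mul_sq hbpos).comp_sub_right τ).const_mul K
  obtain ⟨ht1, ht2⟩ := Shift.tendsto_gauss (K := K) (τ := τ) hbpos
  have key := Shift.vshift h1 h2 h3 h4 hdh hint ht1 ht2 hb
  have e1 : ∀ t : ℝ, gaussianPDFReal τ v t • f (σ₁ + t * I) =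
      (((√(2 * Real.pi * v))⁻¹ : ℝ) : ℂ) * h (σ₁ + t * I) := by
    intro t
    rw [hh]
    simp only
    rw [hexp, gaussianPDFReal]
    simp only [sub_self, zero_mul, zero_div, ofReal_zero, Complex.exp_zero, mul_one, real_smul]
    push_cast
    rw [show ((0 : ℂ) ^ 2 - (t - τ) ^ 2) / (2 * v) = -(t - τ) ^ 2 / (2 * v) by ring]
    ring
  have e2 : ∀ t : ℝ, gaussianPDFReal τ v t • (f (σ₂ + t * I) *
        cexp (((σ₂ - σ₁) * (t - τ) / v : ℝ) * I)) =
      ((Real.exp ((σ₂ - σ₁) ^ 2 / (2 * v)) : ℂ))⁻¹ *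
        ((((√(2 * Real.pi * v))⁻¹ : ℝ) : ℂ) * h (σ₂ + t * I)) := by
    intro t
    rw [hh]
    simp only
    rw [hexp, gaussianPDFReal]
    rw [sub_div ((σ₂ - σ₁) ^ 2), sub_eq_add_neg ((σ₂ - σ₁) ^ 2 / (2 * (v : ℝ))), Real.exp_add]
    simp only [real_smul]
    have hne : (Real.exp ((σ₂ - σ₁) ^ 2 / (2 * v)) : ℂ) ≠ 0 := by
      exact_mod_cast (Real.exp_pos _).ne'
    rw [neg_div]
    push_cast at hne ⊢
    field_simp
  simp only [e1, e2]
  rw [integral_const_mul, integral_const_mul, integral_const_mul, key]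
  have hne : (Real.exp ((σ₂ - σ₁) ^ 2 / (2 * v)) : ℂ) ≠ 0 := by
    exact_mod_cast (Real.exp_pos _).ne'
  rw [← mul_assoc, mul_inv_cancel₀ hne, one_mul]

end K1
end Pool.Agent.Lib.MP_973905_nt
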