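import Pool.Agent.Lib.MP_973905_nt.K1.Stmts

/-! Module (22): the lower bound of the moment on `[0, T]`. -/

namespace Pool.Agent.Lib.MP_973905_nt
namespace K1

open MeasureTheory ProbabilityTheory Complex Filter Topology

namespace Lower

/-! ### three function Hoelder -/

lemma young3 {a b c f g h A B C : ℝ} (ha : 0 ≤ a) (hb : 0 ≤ b) (hc : 0 ≤ c) (habc : a + b + c = 1)
    (hf : 0 ≤ f) (hg : 0 ≤ g) (hh : 0 ≤ h) (hA : 0 < A) (hB : 0 < B) (hC : 0 < C) :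
    f ^ a * g ^ b * h ^ c ≤ A ^ a * B ^ b * C ^ c * (a * (f / A) + b * (g / B) + c * (h / C)) := by
  have h1 := Real.geom_mean_le_arith_mean3_weighted ha hb hc
    (div_nonneg hf hA.le) (div_nonneg hg hB.le) (div_nonneg hh hC.le) habc
  rw [Real.div_rpow hf hA.le, Real.div_rpow hg hB.le, Real.div_rpow hh hC.le] at h1
  have hA' : 0 < A ^ a := Real.rpow_pos_of_pos hA _
  have hB' : 0 < B ^ b := Real.rpow_pos_of_pos hB _
  have hC' : 0 < C ^ c := Real.rpow_pos_of_pos hC _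
  calc f ^ a * g ^ b * h ^ c = A ^ a * B ^ b * C ^ c *
        (f ^ a / A ^ a * (g ^ b / B ^ b) * (h ^ c / C ^ c)) := by
        field_simp
    _ ≤ _ := by gcongr

lemma holder3_integrable {α : Type*} {mα : MeasurableSpace α} {μ : Measure α} {f g h : α → ℝ}
    (hf : Integrable f μ) (hg : Integrable g μ) (hh : Integrable h μ)
    (hf0 : ∀ x, 0 ≤ f x) (hg0 : ∀ x, 0 ≤ g x) (hh0 : ∀ x, 0 ≤ h x)
    {a b c : ℝ} (ha : 0 ≤ a) (hb : 0 ≤ b) (hc : 0 ≤ c) (habc : a + b + c = 1) :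
    Integrable (fun x => f x ^ a * g x ^ b * h x ^ c) μ := by
  refine (((hf.const_mul a).add (hg.const_mul b)).add (hh.const_mul c)).mono' ?_ ?_
  · exact ((hf.aestronglyMeasurable.aemeasurable.pow_const a).aestronglyMeasurable.mul
      (hg.aestronglyMeasurable.aemeasurable.pow_const b).aestronglyMeasurable).mul
      (hh.aestronglyMeasurable.aemeasurable.pow_const c).aestronglyMeasurable
  · refine Filter.Eventually.of_forall fun x => ?_
    rw [Real.norm_eq_abs, abs_of_nonneg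
      (mul_nonneg (mul_nonneg (Real.rpow_nonneg (hf0 x) _) (Real.rpow_nonneg (hg0 x) _))
        (Real.rpow_nonneg (hh0 x) _))]
    have := young3 ha hb hc habc (hf0 x) (hg0 x) (hh0 x) one_pos one_pos one_pos
    simpa using this

lemma holder3 {α : Type*} {mα : MeasurableSpace α} {μ : Measure α} {f g h : α → ℝ}
    (hf : Integrable f μ) (hg : Integrable g μ) (hh : Integrable h μ)
    (hf0 : ∀ x, 0 ≤ f x) (hg0 : ∀ x, 0 ≤ g x) (hh0 : ∀ x, 0 ≤ h x)
    {a b c A B C : ℝ} (ha : 0 ≤ a) (hb : 0 ≤ b) (hc : 0 ≤ c) (habc : a + b + c = 1)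
    (hA : 0 < A) (hB : 0 < B) (hC : 0 < C) (hfA : ∫ x, f x ∂μ ≤ A)
    (hgB : ∫ x, g x ∂μ ≤ B) (hhC : ∫ x, h x ∂μ ≤ C) :
    ∫ x, f x ^ a * g x ^ b * h x ^ c ∂μ ≤ A ^ a * B ^ b * C ^ c := by
  have hA' : 0 < A ^ a := Real.rpow_pos_of_pos hA _
  have hB' : 0 < B ^ b := Real.rpow_pos_of_pos hB _
  have hC' : 0 < C ^ c := Real.rpow_pos_of_pos hC _
  have hi1 : Integrable (fun x => a * (f x / A) + b * (g x / B)) μ :=
    ((hf.div_const A).const_mul a).add ((hg.div_const B).const_mul b)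
  have hi : Integrable (fun x => A ^ a * B ^ b * C ^ c *
      (a * (f x / A) + b * (g x / B) + c * (h x / C))) μ :=
    (hi1.add ((hh.div_const C).const_mul c)).const_mul _
  calc ∫ x, f x ^ a * g x ^ b * h x ^ c ∂μ
      ≤ ∫ x, A ^ a * B ^ b * C ^ c * (a * (f x / A) + b * (g x / B) + c * (h x / C)) ∂μ := by
        apply integral_mono_of_nonneg
        · exact Filter.Eventually.of_forall fun x =>
            mul_nonneg (mul_nonneg (Real.rpow_nonneg (hf0 x) _) (Real.rpow_nonneg (hg0 x) _))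
              (Real.rpow_nonneg (hh0 x) _)
        · exact hi
        · exact Filter.Eventually.of_forall fun x =>
            young3 ha hb hc habc (hf0 x) (hg0 x) (hh0 x) hA hB hC
    _ = A ^ a * B ^ b * C ^ c * (a * ((∫ x, f x ∂μ) / A) + b * ((∫ x, g x ∂μ) / B) +
          c * ((∫ x, h x ∂μ) / C)) := by
        rw [integral_const_mul, integral_add hi1 ((hh.div_const C).const_mul c),
          integral_add ((hf.div_const A).const_mul a) ((hg.div_const B).const_mul b),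
          integral_const_mul, integral_const_mul, integral_const_mul,
          integral_div, integral_div, integral_div]
    _ ≤ A ^ a * B ^ b * C ^ c * (a * 1 + b * 1 + c * 1) := by
        have h1 : (∫ x, f x ∂μ) / A ≤ 1 := (div_le_one hA).mpr hfA
        have h2 : (∫ x, g x ∂μ) / B ≤ 1 := (div_le_one hB).mpr hgB
        have h3 : (∫ x, h x ∂μ) / C ≤ 1 := (div_le_one hC).mpr hhC
        gcongr
    _ = _ := by
        rw [mul_one, mul_one, mul_one, habc, mul_one]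

/-! ### the mean over `[0, T]` as a measure -/

noncomputable def AV (T : ℝ) : Measure ℝ := (ENNReal.ofReal T)⁻¹ • volume.restrict (Set.Ioc 0 T)

lemma integral_AV {E : Type*} [NormedAddCommGroup E] [NormedSpace ℝ E] {T : ℝ} (hT : 0 < T)
    (F : ℝ → E) : ∫ t, F t ∂(AV T) = T⁻¹ • ∫ t in (0 : ℝ)..T, F t := by
  rw [AV, integral_smul_measure, intervalIntegral.integral_of_le hT.le, ENNReal.toReal_inv,
    ENNReal.toReal_ofReal hT.le]

lemma integrable_AV {E : Type*} [NormedAddCommGroup E] {T : ℝ} (hT : 0 < T)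
    {F : ℝ → E} (hF : Continuous F) : Integrable F (AV T) := by
  have h1 : IntegrableOn F (Set.Ioc 0 T) volume := hF.integrableOn_Ioc
  refine Integrable.smul_measure h1 ?_
  rw [ENNReal.inv_ne_top]
  simpa using hT

lemma convc_aux {T : ℝ} (hT : 0 < T) (F : ℝ → ℂ) :
    ∫ t, F t ∂(AV T) = (T : ℂ)⁻¹ * ∫ t in (0 : ℝ)..T, F t := by
  rw [integral_AV hT, Complex.real_smul, ofReal_inv]

/-! ### the critical line -/

lemma pt_zero (T t : ℝ) : pt 0 T t = 1 / 2 + t * I := by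
  simp [pt]

lemma dp_half {N B : ℝ} {G : (ℕ → ℂ) → ℂ} (h : DP N B G) :
    Continuous (fun t : ℝ => G (fs (1 / 2 + t * I))) ∧ ∀ t : ℝ, ‖G (fs (1 / 2 + t * I))‖ ≤ B := by
  have h1 := Asm.dp_line h (c := 0) (T := 2) (by norm_num)
  simp only [pt_zero] at h1
  exact h1

lemma continuous_zeta_half : Continuous fun t : ℝ => riemannZeta (1 / 2 + t * I) := by
  have := continuous_zeta_line (σ := 1 / 2) (by norm_num)
  push_cast at this
  exact this

lemma zeta_poly_half : ∃ C : ℝ, 0 < C ∧ ∀ t : ℝ,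
    ‖riemannZeta (1 / 2 + t * I)‖ ≤ C * (1 + |t|) ^ 2 := by
  obtain ⟨C, hC, h⟩ := zeta_poly
  refine ⟨C, hC, fun t => ?_⟩
  have := h (1 / 2) t le_rfl (by norm_num)
  push_cast at this
  exact this

lemma FF_half' (t : ℝ) : ‖FF (1 / 2 + t * I)‖ = 1 := by
  have := FF_half t
  push_cast at this
  exact this

lemma continuous_FF_half : Continuous fun t : ℝ => FF (1 / 2 + t * I) := by
  refine continuous_iff_continuousAt.mpr fun t => ?_
  have h2 : ContinuousAt (fun t : ℝ => (1 / 2 : ℂ) + t * I) t := by fun_prop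
  have h1 : 0 < ((1 / 2 : ℂ) + t * I).re := by simp
  exact ContinuousAt.comp (f := fun t : ℝ => (1 / 2 : ℂ) + t * I) (g := FF)
    (FF_diff h1).continuousAt h2

lemma conj_zeta_half (t : ℝ) : (starRingEnd ℂ) (riemannZeta (1 / 2 + t * I)) =
    FF (1 / 2 + t * I) * riemannZeta (1 / 2 + t * I) := by
  have h2 : ∀ n : ℕ, (1 / 2 + t * I : ℂ) ≠ -n := by
    intro n h
    have := congrArg Complex.re h
    simp at this
    have h3 : (0 : ℝ) ≤ n := Nat.cast_nonneg n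
    linarith
  have h3 : (1 / 2 + t * I : ℂ) ≠ 1 := by
    intro h
    have := congrArg Complex.re h
    norm_num at this
  have h4 := riemannZeta_one_sub h2 h3
  have h5 : (1 - (1 / 2 + t * I) : ℂ) = (starRingEnd ℂ) (1 / 2 + t * I) := by
    have := one_sub_half t
    push_cast at this
    exact this
  rw [h5, riemannZeta_conj] at h4
  rw [h4, FF]


/-- the ratio bound on the good set -/
lemma ratio1 (l : ℕ) {k K : ℝ} (hk0 : 0 ≤ k) (hk1 : k ≤ 1) (hK : 1 ≤ K) (hl : 10 * K ≤ l) {z : ℂ}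
    (hz : ‖z‖ ≤ K) :
    ‖Ntr l (k - 1) z‖ ≤ (1 + 4 * Real.exp (-K)) * ‖Ntr l (-1) z‖ ^ (1 - k) := by
  have ha : |k - 1| ≤ 1 := by rw [abs_le]; constructor <;> linarith
  have hb : |(-1 : ℝ)| ≤ 1 := by norm_num
  obtain ⟨a1, a2⟩ := Ntr_ratio l ha hK hl hz
  obtain ⟨b1, b2⟩ := Ntr_ratio l hb hK hl hz
  set x := Real.exp (-K) with hx
  have hx0 : 0 < x := Real.exp_pos _
  have hx1 : x ≤ 1 / 2 := by
    have h1 : x ≤ Real.exp (-1) := Real.exp_le_exp.mpr (by linarith)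
    have h2 : Real.exp (-1) ≤ 1 / 2 := by
      rw [Real.exp_neg]
      have := Real.add_one_le_exp (1 : ℝ)
      rw [inv_le_comm₀ (Real.exp_pos _) (by norm_num)]
      linarith
    linarith
  have hE : 0 < Real.exp ((k - 1) * z.re) := Real.exp_pos _
  have h1 : (1 - x) * Real.exp ((k - 1) * z.re) ≤ ‖Ntr l (-1) z‖ ^ (1 - k) := by
    have h2 : (1 - x) ≤ (1 - x) ^ (1 - k) := by
      have := Real.rpow_le_rpow_of_exponent_ge (x := 1 - x) (by linarith) (by linarith)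
        (show 1 - k ≤ 1 by linarith)
      rwa [Real.rpow_one] at this
    calc (1 - x) * Real.exp ((k - 1) * z.re) ≤ (1 - x) ^ (1 - k) * Real.exp ((k - 1) * z.re) := by
          gcongr
      _ = ((1 - x) * Real.exp (-1 * z.re)) ^ (1 - k) := by
          rw [Real.mul_rpow (by linarith) (Real.exp_pos _).le, ← Real.exp_mul]
          congr 2; ring
      _ ≤ _ := by
          apply Real.rpow_le_rpow _ b1 (by linarith)
          exact mul_nonneg (by linarith) (Real.exp_pos _).le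
  have h3 : (1 + x) ≤ (1 + 4 * x) * (1 - x) := by nlinarith
  calc ‖Ntr l (k - 1) z‖ ≤ (1 + x) * Real.exp ((k - 1) * z.re) := a2
    _ ≤ ((1 + 4 * x) * (1 - x)) * Real.exp ((k - 1) * z.re) := by gcongr
    _ = (1 + 4 * x) * ((1 - x) * Real.exp ((k - 1) * z.re)) := by ring
    _ ≤ _ := by gcongr

/-- the pointwise inequality on the good set -/
lemma good_pt {z d n m k u e : ℝ} (hz : 0 ≤ z) (hd : 0 ≤ d) (hn : 0 ≤ n) (hm : 0 ≤ m)
    (hk : 3 / 4 ≤ k) (hk1 : k ≤ 1) (hu : u = (1 - k) / (2 * k)) (he : 0 ≤ e)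
    (h : n ≤ (1 + e) * m ^ (1 - k)) :
    z * d * n ^ 2 ≤ (1 + e) ^ 2 * ((z ^ (2 * k)) ^ (1 / (2 * k)) * (d ^ 2 * n ^ 2) ^ (1 / 2 - 2 * u) *
      (d ^ 4 * n ^ 2 * m ^ 2) ^ u) := by
  have hk0 : 0 < k := by linarith
  have hu0 : 0 ≤ u := by rw [hu]; apply div_nonneg <;> linarith
  have hu1 : u ≤ 1 / 4 := by
    rw [hu, div_le_iff₀ (by linarith)]; linarith
  have huk : 1 + 2 * u = 1 / k := by rw [hu]; field_simp; ring
  have huk2 : (1 - k) * (1 + 2 * u) = 2 * u := by rw [huk, hu]; field_simp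
  have e1 : (z ^ (2 * k)) ^ (1 / (2 * k)) = z := by
    rw [← Real.rpow_mul hz, show 2 * k * (1 / (2 * k)) = 1 by field_simp, Real.rpow_one]
  have e2 : (d ^ 2 * n ^ 2) ^ (1 / 2 - 2 * u) = d ^ (1 - 4 * u) * n ^ (1 - 4 * u) := by
    rw [Real.mul_rpow (by positivity) (by positivity), ← Real.rpow_natCast d, ← Real.rpow_natCast n,
      ← Real.rpow_mul hd, ← Real.rpow_mul hn]
    congr 2 <;> push_cast <;> ring
  have e3 : (d ^ 4 * n ^ 2 * m ^ 2) ^ u = d ^ (4 * u) * n ^ (2 * u) * m ^ (2 * u) := by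
    rw [Real.mul_rpow (by positivity) (by positivity), Real.mul_rpow (by positivity) (by positivity),
      ← Real.rpow_natCast d, ← Real.rpow_natCast n, ← Real.rpow_natCast m,
      ← Real.rpow_mul hd, ← Real.rpow_mul hn, ← Real.rpow_mul hm]
    push_cast
    rfl
  have e4 : d ^ (1 - 4 * u) * d ^ (4 * u) = d := by
    rw [← Real.rpow_add_of_nonneg hd (by linarith) (by linarith),
      show 1 - 4 * u + 4 * u = 1 by ring, Real.rpow_one]
  have e5 : n ^ (1 - 4 * u) * n ^ (2 * u) = n ^ (1 - 2 * u) := by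
    rw [← Real.rpow_add_of_nonneg hn (by linarith) (by linarith)]
    congr 1; ring
  have e6 : n ^ 2 = n ^ (1 - 2 * u) * n ^ (1 + 2 * u) := by
    rw [← Real.rpow_add_of_nonneg hn (by linarith) (by linarith),
      show 1 - 2 * u + (1 + 2 * u) = ((2 : ℕ) : ℝ) by push_cast; ring, Real.rpow_natCast]
  have h1 : n ^ (1 + 2 * u) ≤ (1 + e) ^ 2 * m ^ (2 * u) := by
    calc n ^ (1 + 2 * u) ≤ ((1 + e) * m ^ (1 - k)) ^ (1 + 2 * u) :=
          Real.rpow_le_rpow hn h (by linarith)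
      _ = (1 + e) ^ (1 + 2 * u) * m ^ (2 * u) := by
          rw [Real.mul_rpow (by linarith) (Real.rpow_nonneg hm _), ← Real.rpow_mul hm, huk2]
      _ ≤ (1 + e) ^ (2 : ℝ) * m ^ (2 * u) := by
          gcongr
          · linarith
          · linarith
      _ = _ := by rw [Real.rpow_two]
  rw [e1, e2, e3]
  have h2 : 0 ≤ n ^ (1 - 2 * u) := Real.rpow_nonneg hn _
  calc z * d * n ^ 2 = z * d * (n ^ (1 - 2 * u) * n ^ (1 + 2 * u)) := by rw [e6]
    _ ≤ z * d * (n ^ (1 - 2 * u) * ((1 + e) ^ 2 * m ^ (2 * u))) := by gcongr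
    _ = (1 + e) ^ 2 * (z * d * (n ^ (1 - 2 * u)) * m ^ (2 * u)) := by ring
    _ = (1 + e) ^ 2 * (z * (d ^ (1 - 4 * u) * d ^ (4 * u)) * (n ^ (1 - 4 * u) * n ^ (2 * u)) *
          m ^ (2 * u)) := by rw [e4, e5]
    _ = _ := by ring

/-- the abstract lower bound -/
theorem core {T : ℝ} (hT : 0 < T) {z χ S N N1 : ℝ → ℂ} {Q : ℕ → ℝ → ℝ} {R : Finset ℕ} {q : ℕ → ℝ}
    (cz : Continuous z) (cχ : Continuous χ) (cS : Continuous S) (cN : Continuous N)
    (cN1 : Continuous N1) (cQ : ∀ v, Continuous (Q v)) (hχ : ∀ t, ‖χ t‖ = 1)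
    (hz : ∀ t, (starRingEnd ℂ) (z t) = χ t * z t) (hQ0 : ∀ v t, 0 ≤ Q v t)
    {k η e C₅ Λ : ℝ} (hk : 3 / 4 ≤ k) (hk1 : k ≤ 1) (hη0 : 0 < η) (hη : η ≤ 1 / 200) (he : 0 ≤ e)
    (hee : (1 + e) ^ 2 ≤ 1 + η) (hΛ : 0 < Λ) (hC : 0 < C₅) (hC5 : C₅ ^ ((1 - k) / (2 * k)) ≤ 1 + η)
    (hgood : ∀ t, ‖N t‖ ≤ (1 + e) * ‖N1 t‖ ^ (1 - k) ∨ ∃ v ∈ R, 1 ≤ Q v t)
    (H1 : (1 - 7 * η) * Λ ≤ 2 * (∫ t, z t * (starRingEnd ℂ) (S t) * (N t * (starRingEnd ℂ) (N t))
      ∂(AV T)).re)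
    (H2 : ∫ t, ‖S t‖ ^ 2 * ‖N t‖ ^ 2 ∂(AV T) ≤ (1 / 2 + η) * Λ)
    (H3 : ‖∫ t, χ t * (S t) ^ 2 * (N t * (starRingEnd ℂ) (N t)) ∂(AV T)‖ ≤ η * Λ)
    (H4 : 16 * ∫ t, ‖S t‖ ^ 4 * ‖N t‖ ^ 2 * ‖N1 t‖ ^ 2 ∂(AV T) ≤ C₅ * Λ)
    (hq : ∀ v ∈ R, 0 < q v)
    (H5 : ∀ v ∈ R, ∫ t, ‖z t‖ ^ 2 * (‖N t‖ * Q v t) ^ 2 ∂(AV T) ≤ (q v) ^ 2 * Λ)
    (hqs : ∑ v ∈ R, q v ≤ η / 2) :
    (1 - 100 * η) * Λ ≤ ∫ t, ‖z t‖ ^ (2 * k) ∂(AV T) := by
  by_contra hcon
  push Not at hcon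
  set u := (1 - k) / (2 * k) with hu
  have hk0 : 0 < k := by linarith
  have hu0 : 0 ≤ u := by rw [hu]; apply div_nonneg <;> linarith
  have hu1 : u ≤ 1 / 4 := by
    rw [hu, div_le_iff₀ (by linarith)]; linarith
  -- the mollified function
  set D : ℝ → ℂ := fun t => S t + (starRingEnd ℂ) (χ t) * (starRingEnd ℂ) (S t) with hD
  have cD : Continuous D := cS.add ((continuous_conj.comp cχ).mul (continuous_conj.comp cS))
  have hχ2 : ∀ t, χ t * (starRingEnd ℂ) (χ t) = 1 := by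
    intro t; rw [mul_conj, normSq_eq_norm_sq, hχ]; simp
  have hDn : ∀ t, ‖D t‖ ≤ 2 * ‖S t‖ := by
    intro t
    refine (norm_add_le _ _).trans ?_
    rw [norm_mul, RCLike.norm_conj, RCLike.norm_conj, hχ]
    linarith
  have hDsq : ∀ t, ‖D t‖ ^ 2 = 2 * ‖S t‖ ^ 2 + 2 * (χ t * (S t) ^ 2).re := by
    intro t
    have h1 : ((‖D t‖ ^ 2 : ℝ) : ℂ) = D t * (starRingEnd ℂ) (D t) := by
      rw [mul_conj, normSq_eq_norm_sq]
    have h2 : D t * (starRingEnd ℂ) (D t) = 2 * (S t * (starRingEnd ℂ) (S t)) +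
        (χ t * (S t) ^ 2 + (starRingEnd ℂ) (χ t * (S t) ^ 2)) := by
      simp only [hD, map_add, map_mul, conj_conj, map_pow]
      linear_combination (S t * (starRingEnd ℂ) (S t)) * hχ2 t
    have h3 := congrArg Complex.re (h1.trans h2)
    rw [ofReal_re, mul_conj, add_conj, normSq_eq_norm_sq] at h3
    rw [h3]
    simp
    rw [← ofReal_pow, ofReal_re]
  have hDz : ∀ t, 2 * (z t * (starRingEnd ℂ) (S t)).re ≤ ‖z t‖ * ‖D t‖ := by
    intro t
    have h1 : z t * (starRingEnd ℂ) (D t) = z t * (starRingEnd ℂ) (S t) +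
        (starRingEnd ℂ) (z t * (starRingEnd ℂ) (S t)) := by
      simp only [hD, map_add, map_mul, conj_conj]
      rw [hz t]; ring
    have h2 : (z t * (starRingEnd ℂ) (D t)).re = 2 * (z t * (starRingEnd ℂ) (S t)).re := by
      rw [h1, add_conj]; simp
    rw [← h2]
    refine (re_le_norm _).trans ?_
    rw [norm_mul, RCLike.norm_conj]
  -- functions
  set X : ℝ → ℝ := fun t => ‖z t‖ ^ (2 * k) with hX
  set W : ℝ → ℝ := fun t => ‖D t‖ ^ 2 * ‖N t‖ ^ 2 with hW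
  set U : ℝ → ℝ := fun t => ‖D t‖ ^ 4 * ‖N t‖ ^ 2 * ‖N1 t‖ ^ 2 with hU
  have cX : Continuous X := cz.norm.rpow_const fun _ => Or.inr (by linarith)
  have cW : Continuous W := (cD.norm.pow 2).mul (cN.norm.pow 2)
  have cU : Continuous U := ((cD.norm.pow 4).mul (cN.norm.pow 2)).mul (cN1.norm.pow 2)
  have hX0 : ∀ t, 0 ≤ X t := fun t => Real.rpow_nonneg (norm_nonneg _) _
  have hW0 : ∀ t, 0 ≤ W t := fun t => by simp only [hW]; positivity
  have hU0 : ∀ t, 0 ≤ U t := fun t => by simp only [hU]; positivity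
  have hWE : ∫ t, W t ∂(AV T) ≤ (1 + 4 * η) * Λ := by
    have e1 : ∀ t, W t = 2 * (‖S t‖ ^ 2 * ‖N t‖ ^ 2) +
        2 * (χ t * (S t) ^ 2 * (N t * (starRingEnd ℂ) (N t))).re := by
      intro t
      simp only [hW]
      rw [hDsq, mul_conj, normSq_eq_norm_sq, re_mul_ofReal]
      ring
    have i1 : Integrable (fun t => 2 * (‖S t‖ ^ 2 * ‖N t‖ ^ 2)) (AV T) :=
      integrable_AV hT (by fun_prop)
    have c2 : Continuous (fun t => χ t * (S t) ^ 2 * (N t * (starRingEnd ℂ) (N t))) :=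
      (cχ.mul (cS.pow 2)).mul (cN.mul (continuous_conj.comp cN))
    have i2 : Integrable (fun t => χ t * (S t) ^ 2 * (N t * (starRingEnd ℂ) (N t))) (AV T) :=
      integrable_AV hT c2
    have i3 : Integrable (fun t => 2 * (χ t * (S t) ^ 2 * (N t * (starRingEnd ℂ) (N t))).re) (AV T) :=
      integrable_AV hT (continuous_const.mul (continuous_re.comp c2))
    have e2 : ∫ t, (χ t * (S t) ^ 2 * (N t * (starRingEnd ℂ) (N t))).re ∂(AV T) =
        (∫ t, χ t * (S t) ^ 2 * (N t * (starRingEnd ℂ) (N t)) ∂(AV T)).re := integral_re i2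
    rw [integral_congr_ae (Filter.Eventually.of_forall e1), integral_add i1 i3, integral_const_mul,
      integral_const_mul, e2]
    have h3 := (re_le_norm (∫ t, χ t * (S t) ^ 2 * (N t * (starRingEnd ℂ) (N t)) ∂(AV T))).trans H3
    linarith
  have hUE : ∫ t, U t ∂(AV T) ≤ C₅ * Λ := by
    refine le_trans ?_ H4
    rw [← integral_const_mul]
    have i4 : Integrable (fun t => 16 * (‖S t‖ ^ 4 * ‖N t‖ ^ 2 * ‖N1 t‖ ^ 2)) (AV T) :=
      integrable_AV hT (by fun_prop)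
    refine integral_mono (integrable_AV hT cU) i4 ?_
    intro t
    simp only [hU]
    have h1 : ‖D t‖ ^ 4 ≤ 16 * ‖S t‖ ^ 4 := by
      calc ‖D t‖ ^ 4 ≤ (2 * ‖S t‖) ^ 4 := pow_le_pow_left₀ (norm_nonneg _) (hDn t) 4
        _ = _ := by ring
    calc ‖D t‖ ^ 4 * ‖N t‖ ^ 2 * ‖N1 t‖ ^ 2 ≤ (16 * ‖S t‖ ^ 4) * ‖N t‖ ^ 2 * ‖N1 t‖ ^ 2 := by gcongr
      _ = _ := by ring
  -- the bad functions
  set av : ℕ → ℝ → ℝ := fun v t => ‖z t‖ ^ 2 * (‖N t‖ * Q v t) ^ 2 with hav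
  have cav : ∀ v, Continuous (av v) := fun v => (cz.norm.pow 2).mul ((cN.norm.mul (cQ v)).pow 2)
  have hav0 : ∀ v t, 0 ≤ av v t := fun v t => by simp only [hav]; positivity
  set f1 : ℝ → ℝ := fun t => X t ^ (1 / (2 * k)) * W t ^ (1 / 2 - 2 * u) * U t ^ u with hf1
  set fv : ℕ → ℝ → ℝ := fun v t => (av v t) ^ (1 / 2 : ℝ) * (W t) ^ (1 - 1 / 2 : ℝ) with hfv
  have ha0 : 0 ≤ 1 / (2 * k) := by positivity
  have hb0 : 0 ≤ 1 / 2 - 2 * u := by linarith
  have habc : 1 / (2 * k) + (1 / 2 - 2 * u) + u = 1 := by rw [hu]; field_simp; ring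
  have iX := integrable_AV hT cX
  have iW := integrable_AV hT cW
  have iU := integrable_AV hT cU
  have iav : ∀ v, Integrable (av v) (AV T) := fun v => integrable_AV hT (cav v)
  have hf1i : Integrable f1 (AV T) :=
    holder3_integrable iX iW iU hX0 hW0 hU0 ha0 hb0 hu0 habc
  have hfvi : ∀ v, Integrable (fv v) (AV T) := fun v =>
    holder2_integrable (iav v) iW (hav0 v) hW0 (by norm_num) (by norm_num)
  have hpt : ∀ t, ‖z t‖ * ‖D t‖ * ‖N t‖ ^ 2 ≤ (1 + η) * f1 t + ∑ v ∈ R, fv v t := by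
    intro t
    have hfv0 : ∀ v, 0 ≤ fv v t := fun v =>
      mul_nonneg (Real.rpow_nonneg (hav0 v t) _) (Real.rpow_nonneg (hW0 t) _)
    have hf10 : 0 ≤ f1 t :=
      mul_nonneg (mul_nonneg (Real.rpow_nonneg (hX0 t) _) (Real.rpow_nonneg (hW0 t) _))
        (Real.rpow_nonneg (hU0 t) _)
    rcases hgood t with h | ⟨v, hv, h1⟩
    · have h2 := good_pt (norm_nonneg (z t)) (norm_nonneg (D t)) (norm_nonneg (N t))
        (norm_nonneg (N1 t)) hk hk1 hu he h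
      have h3 : 0 ≤ ∑ v ∈ R, fv v t := Finset.sum_nonneg fun v _ => hfv0 v
      have h4 : (1 + e) ^ 2 * f1 t ≤ (1 + η) * f1 t := by gcongr
      have h5 : ‖z t‖ * ‖D t‖ * ‖N t‖ ^ 2 ≤ (1 + e) ^ 2 * f1 t := h2
      linarith
    · have e3 : fv v t = (‖z t‖ * (‖N t‖ * Q v t)) * (‖D t‖ * ‖N t‖) := by
        simp only [hfv, hav, hW]
        rw [show (1 - 1 / 2 : ℝ) = 1 / 2 by norm_num, ← Real.sqrt_eq_rpow, ← Real.sqrt_eq_rpow,
          ← mul_pow, ← mul_pow, Real.sqrt_sq (mul_nonneg (norm_nonneg _)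
            (mul_nonneg (norm_nonneg _) (hQ0 v t))), Real.sqrt_sq (by positivity)]
      have h2 : ‖z t‖ * ‖D t‖ * ‖N t‖ ^ 2 ≤ fv v t := by
        rw [e3]
        have h3 : ‖N t‖ ≤ ‖N t‖ * Q v t := le_mul_of_one_le_right (norm_nonneg _) h1
        calc ‖z t‖ * ‖D t‖ * ‖N t‖ ^ 2 = (‖z t‖ * ‖N t‖) * (‖D t‖ * ‖N t‖) := by ring
          _ ≤ _ := by gcongr
      have h3 : fv v t ≤ ∑ v ∈ R, fv v t :=
        Finset.single_le_sum (f := fun v => fv v t) (fun v _ => hfv0 v) hv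
      have h4 : 0 ≤ (1 + η) * f1 t := by positivity
      linarith
  -- integrate
  have hmain : (1 - 7 * η) * Λ ≤ (1 + η) * ∫ t, f1 t ∂(AV T) + ∑ v ∈ R, ∫ t, fv v t ∂(AV T) := by
    have c1 : Continuous (fun t => z t * (starRingEnd ℂ) (S t) * (N t * (starRingEnd ℂ) (N t))) :=
      (cz.mul (continuous_conj.comp cS)).mul (cN.mul (continuous_conj.comp cN))
    have i1 := integrable_AV hT c1
    have e1 : (∫ t, z t * (starRingEnd ℂ) (S t) * (N t * (starRingEnd ℂ) (N t)) ∂(AV T)).re =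
        ∫ t, (z t * (starRingEnd ℂ) (S t) * (N t * (starRingEnd ℂ) (N t))).re ∂(AV T) :=
      (integral_re i1).symm
    refine H1.trans ?_
    rw [e1, ← integral_const_mul, ← integral_finsetSum _ fun v _ => hfvi v, ← integral_const_mul,
      ← integral_add (hf1i.const_mul _) (integrable_finsetSum _ fun v _ => hfvi v)]
    have i5 : Integrable (fun t => 2 * (z t * (starRingEnd ℂ) (S t) *
        (N t * (starRingEnd ℂ) (N t))).re) (AV T) :=
      integrable_AV hT (continuous_const.mul (continuous_re.comp c1))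
    refine integral_mono i5
      ((hf1i.const_mul _).add (integrable_finsetSum _ fun v _ => hfvi v)) ?_
    intro t
    refine le_trans ?_ (hpt t)
    simp only
    rw [mul_conj (N t), normSq_eq_norm_sq, re_mul_ofReal, ← mul_assoc]
    exact mul_le_mul_of_nonneg_right (hDz t) (by positivity)
  have hA : 0 < (1 - 100 * η) * Λ := mul_pos (by linarith) hΛ
  have hB : 0 < (1 + 4 * η) * Λ := by positivity
  have hC' : 0 < C₅ * Λ := by positivity
  have hf1E : ∫ t, f1 t ∂(AV T) ≤ (1 - 50 * η) * (1 + 2 * η) * (1 + η) * Λ := by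
    refine (holder3 iX iW iU hX0 hW0 hU0 ha0 hb0 hu0 habc hA hB hC' hcon.le hWE hUE).trans ?_
    rw [Real.mul_rpow (by linarith) hΛ.le, Real.mul_rpow (by linarith) hΛ.le,
      Real.mul_rpow hC.le hΛ.le]
    have eΛ : Λ ^ (1 / (2 * k)) * Λ ^ (1 / 2 - 2 * u) * Λ ^ u = Λ := by
      rw [← Real.rpow_add hΛ, ← Real.rpow_add hΛ, habc, Real.rpow_one]
    have h1 : (1 - 100 * η) ^ (1 / (2 * k)) ≤ 1 - 50 * η := by
      rcases eq_or_lt_of_le (show 0 ≤ 1 - 100 * η by linarith) with h0 | h0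
      · rw [← h0, Real.zero_rpow (by positivity)]; linarith
      calc (1 - 100 * η) ^ (1 / (2 * k)) ≤ (1 - 100 * η) ^ (1 / 2 : ℝ) := by
            apply Real.rpow_le_rpow_of_exponent_ge h0 (by linarith)
            rw [div_le_div_iff₀ (by norm_num) (by positivity)]; linarith
        _ = √(1 - 100 * η) := (Real.sqrt_eq_rpow _).symm
        _ ≤ 1 - 50 * η := by
            apply Real.sqrt_le_iff.2
            refine ⟨by linarith, ?_⟩
            nlinarith [sq_nonneg η]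
    have h2 : (1 + 4 * η) ^ (1 / 2 - 2 * u) ≤ 1 + 2 * η := by
      calc (1 + 4 * η) ^ (1 / 2 - 2 * u) ≤ (1 + 4 * η) ^ (1 / 2 : ℝ) := by
            apply Real.rpow_le_rpow_of_exponent_le (by linarith)
            linarith
        _ = √(1 + 4 * η) := (Real.sqrt_eq_rpow _).symm
        _ ≤ 1 + 2 * η := by
            apply Real.sqrt_le_iff.2
            refine ⟨by linarith, ?_⟩
            nlinarith [sq_nonneg η]
    have p1 : 0 ≤ (1 - 100 * η) ^ (1 / (2 * k)) := Real.rpow_nonneg (by linarith) _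
    have p2 : 0 ≤ (1 + 4 * η) ^ (1 / 2 - 2 * u) := Real.rpow_nonneg (by linarith) _
    have p3 : 0 ≤ C₅ ^ u := Real.rpow_nonneg hC.le _
    calc (1 - 100 * η) ^ (1 / (2 * k)) * Λ ^ (1 / (2 * k)) *
          ((1 + 4 * η) ^ (1 / 2 - 2 * u) * Λ ^ (1 / 2 - 2 * u)) * (C₅ ^ u * Λ ^ u)
        = (1 - 100 * η) ^ (1 / (2 * k)) * (1 + 4 * η) ^ (1 / 2 - 2 * u) * C₅ ^ u *
            (Λ ^ (1 / (2 * k)) * Λ ^ (1 / 2 - 2 * u) * Λ ^ u) := by ring
      _ = (1 - 100 * η) ^ (1 / (2 * k)) * (1 + 4 * η) ^ (1 / 2 - 2 * u) * C₅ ^ u * Λ := by rw [eΛ]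
      _ ≤ (1 - 50 * η) * (1 + 2 * η) * (1 + η) * Λ := by
          have g0 : 0 ≤ 1 - 50 * η := by linarith
          gcongr
  have hfvE : ∀ v ∈ R, ∫ t, fv v t ∂(AV T) ≤ 2 * q v * Λ := by
    intro v hv
    have hqv := hq v hv
    have h2 := holder2 (iav v) iW (hav0 v) hW0 (a := 1 / 2) (by norm_num)
      (by norm_num) (by positivity : 0 < (q v) ^ 2 * Λ) hB (H5 v hv) hWE
    refine h2.trans ?_
    rw [show (1 - 1 / 2 : ℝ) = 1 / 2 by norm_num, ← Real.mul_rpow (by positivity) hB.le,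
      ← Real.sqrt_eq_rpow]
    apply Real.sqrt_le_iff.2
    refine ⟨by positivity, ?_⟩
    have h3 : (1 + 4 * η) ≤ 4 := by linarith
    calc (q v) ^ 2 * Λ * ((1 + 4 * η) * Λ) = (1 + 4 * η) * ((q v) ^ 2 * Λ ^ 2) := by ring
      _ ≤ 4 * ((q v) ^ 2 * Λ ^ 2) := by gcongr
      _ = _ := by ring
  have hsumv : ∑ v ∈ R, ∫ t, fv v t ∂(AV T) ≤ η * Λ := by
    refine (Finset.sum_le_sum hfvE).trans ?_
    rw [← Finset.sum_mul, ← Finset.mul_sum]
    gcongr
    linarith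
  have h6 : (1 + η) * ∫ t, f1 t ∂(AV T) ≤
      (1 + η) * ((1 - 50 * η) * (1 + 2 * η) * (1 + η) * Λ) := by gcongr
  have h7 : (1 + η) * ((1 - 50 * η) * (1 + 2 * η) * (1 + η)) ≤ 1 - 40 * η := by
    have g1 : (1 + η) * (1 + η) ≤ 1 + 3 * η := by nlinarith
    have g2 : (1 + 3 * η) * (1 + 2 * η) ≤ 1 + 6 * η := by nlinarith
    have g3 : (1 + 6 * η) * (1 - 50 * η) ≤ 1 - 40 * η := by nlinarith [sq_nonneg η]
    have g0 : 0 ≤ 1 - 50 * η := by linarith
    calc (1 + η) * ((1 - 50 * η) * (1 + 2 * η) * (1 + η))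
        = ((1 + η) * (1 + η)) * (1 + 2 * η) * (1 - 50 * η) := by ring
      _ ≤ (1 + 3 * η) * (1 + 2 * η) * (1 - 50 * η) := by gcongr
      _ ≤ (1 + 6 * η) * (1 - 50 * η) := by gcongr
      _ ≤ _ := g3
  have h8 : (1 + η) * ((1 - 50 * η) * (1 + 2 * η) * (1 + η) * Λ) ≤ (1 - 40 * η) * Λ := by
    calc (1 + η) * ((1 - 50 * η) * (1 + 2 * η) * (1 + η) * Λ)
        = (1 + η) * ((1 - 50 * η) * (1 + 2 * η) * (1 + η)) * Λ := by ring
      _ ≤ _ := by gcongr
  have h9 : (1 - 7 * η) * Λ ≤ (1 - 40 * η) * Λ + η * Λ := by linarith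
  have h10 : 0 < η * Λ := by positivity
  linarith


/-! ### the cutoff -/

lemma Pb_nonneg (δ x : ℝ) : 0 ≤ Pb δ x :=
  mul_nonneg (Real.smoothTransition.nonneg _) (Real.smoothTransition.nonneg _)

lemma Pb_le_one (δ x : ℝ) : Pb δ x ≤ 1 :=
  mul_le_one₀ (Real.smoothTransition.le_one _) (Real.smoothTransition.nonneg _)
    (Real.smoothTransition.le_one _)

lemma Pb_one {δ x : ℝ} (hδ : 0 < δ) (h1 : -1 ≤ x) (h2 : x ≤ 1 / 2 - 2 * δ) : Pb δ x = 1 := by
  rw [Pb, Real.smoothTransition.one_of_one_le, Real.smoothTransition.one_of_one_le (by linarith),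
    mul_one]
  rw [le_div_iff₀ hδ]; linarith

lemma Pb_zero {δ x : ℝ} (hδ : 0 < δ) (h : 1 / 2 - δ ≤ x) : Pb δ x = 0 := by
  rw [Pb, Real.smoothTransition.zero_of_nonpos, zero_mul]
  apply div_nonpos_of_nonpos_of_nonneg _ hδ.le
  linarith

lemma dp_SH {δ T : ℝ} (hδ : 0 < δ) (hT : 1 < T) : DP (T ^ (1 / 2 - δ)) T (SH δ T) := by
  have hT0 : 0 < T := by linarith
  have hL : 0 < Real.log T := Real.log_pos hT
  have h1 : ∀ n ∈ Finset.Icc 1 ⌊T⌋₊, DP (T ^ (1 / 2 - δ)) 1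
      (fun f => (Pb δ (Real.log n / Real.log T) : ℂ) * f n) := by
    intro n hn
    rw [Finset.mem_Icc] at hn
    by_cases h : (n : ℝ) ≤ T ^ (1 / 2 - δ)
    · refine (dp_single (Pb δ (Real.log n / Real.log T) : ℂ) n hn.1 h).mono le_rfl ?_
      rw [norm_real, Real.norm_eq_abs, abs_of_nonneg (Pb_nonneg _ _)]
      exact Pb_le_one _ _
    · push Not at h
      have h2 : Pb δ (Real.log n / Real.log T) = 0 := by
        apply Pb_zero hδ
        rw [le_div_iff₀ hL, ← Real.log_rpow hT0]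
        exact Real.log_le_log (Real.rpow_pos_of_pos hT0 _) h.le
      rw [h2]
      simpa using dp_zero (N := T ^ (1 / 2 - δ)) zero_le_one
  have h2 := dp_sum (Finset.Icc 1 ⌊T⌋₊) (M := fun _ => 1) h1
  refine h2.mono le_rfl ?_
  simp only [Finset.sum_const, Nat.card_Icc, add_tsub_cancel_right, nsmul_eq_mul, mul_one]
  exact Nat.floor_le hT0.le

lemma sum_Pb_lower {δ T : ℝ} (hδ : 0 < δ) (hδ2 : δ ≤ 1 / 8) (hT : 1 < T) :
    (1 / 2 - 2 * δ) * Real.log T ≤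
      ∑ n ∈ Finset.Icc 1 ⌊T⌋₊, Pb δ (Real.log n / Real.log T) / n := by
  have hT0 : 0 < T := by linarith
  have hL : 0 < Real.log T := Real.log_pos hT
  set y : ℝ := T ^ (1 / 2 - 2 * δ) with hy
  have hy0 : 0 < y := Real.rpow_pos_of_pos hT0 _
  have hyT : y ≤ T := by
    calc y ≤ T ^ (1 : ℝ) := Real.rpow_le_rpow_of_exponent_le hT.le (by linarith)
      _ = T := Real.rpow_one T
  have h1 : (1 / 2 - 2 * δ) * Real.log T = Real.log y := by rw [hy, Real.log_rpow hT0]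
  have h2 := log_le_harmonic_floor y hy0.le
  rw [h1]
  refine h2.trans ?_
  rw [harmonic_eq_sum_Icc]
  push_cast
  have h3 : Finset.Icc 1 ⌊y⌋₊ ⊆ Finset.Icc 1 ⌊T⌋₊ :=
    Finset.Icc_subset_Icc le_rfl (Nat.floor_le_floor hyT)
  refine le_trans ?_ (Finset.sum_le_sum_of_subset_of_nonneg h3 fun n _ _ =>
    div_nonneg (Pb_nonneg _ _) (Nat.cast_nonneg _))
  apply Finset.sum_le_sum
  intro n hn
  rw [Finset.mem_Icc] at hn
  have hn1 : (1 : ℝ) ≤ n := by exact_mod_cast hn.1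
  have hny : (n : ℝ) ≤ y := (Nat.le_floor_iff hy0.le).mp hn.2
  rw [Pb_one hδ, one_div]
  · have : 0 ≤ Real.log n / Real.log T := div_nonneg (Real.log_nonneg hn1) hL.le
    linarith
  · rw [div_le_iff₀ hL, h1]
    exact Real.log_le_log (by linarith) hny

lemma sum_Pb_upper {δ T : ℝ} (hδ : 0 < δ) (hδ2 : δ ≤ 1 / 8) (hT : 1 < T)
    (h : 1 ≤ δ * Real.log T) :
    ∑ n ∈ Finset.Icc 1 ⌊T⌋₊, Pb δ (Real.log n / Real.log T) / n ≤ 1 / 2 * Real.log T := by
  have hT0 : 0 < T := by linarith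
  have hL : 0 < Real.log T := Real.log_pos hT
  set y : ℝ := T ^ (1 / 2 - δ) with hy
  have hy1 : 1 ≤ y := Real.one_le_rpow hT.le (by linarith)
  have hyT : y ≤ T := by
    calc y ≤ T ^ (1 : ℝ) := Real.rpow_le_rpow_of_exponent_le hT.le (by linarith)
      _ = T := Real.rpow_one T
  have h1 : (1 / 2 - δ) * Real.log T = Real.log y := by rw [hy, Real.log_rpow hT0]
  have h2 := harmonic_floor_le_one_add_log y hy1
  rw [harmonic_eq_sum_Icc] at h2
  push_cast at h2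
  have h3 : Finset.Icc 1 ⌊y⌋₊ ⊆ Finset.Icc 1 ⌊T⌋₊ :=
    Finset.Icc_subset_Icc le_rfl (Nat.floor_le_floor hyT)
  have h4 : ∑ n ∈ Finset.Icc 1 ⌊T⌋₊, Pb δ (Real.log n / Real.log T) / n =
      ∑ n ∈ Finset.Icc 1 ⌊y⌋₊, Pb δ (Real.log n / Real.log T) / n := by
    symm
    apply Finset.sum_subset h3
    intro n hn hn'
    rw [Finset.mem_Icc] at hn hn'
    have hny : y < n := by
      by_contra hcon
      push Not at hcon
      exact hn' ⟨hn.1, (Nat.le_floor_iff (by linarith)).mpr hcon⟩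
    rw [Pb_zero hδ, zero_div]
    rw [le_div_iff₀ hL, h1]
    exact Real.log_le_log (by linarith) hny.le
  rw [h4]
  calc ∑ n ∈ Finset.Icc 1 ⌊y⌋₊, Pb δ (Real.log n / Real.log T) / n
      ≤ ∑ n ∈ Finset.Icc 1 ⌊y⌋₊, (n : ℝ)⁻¹ := by
        apply Finset.sum_le_sum
        intro n _
        rw [div_eq_mul_inv]
        exact mul_le_of_le_one_left (by positivity) (Pb_le_one _ _)
    _ ≤ 1 + Real.log y := h2
    _ ≤ _ := by rw [← h1]; linarith

lemma sum_Pb_sq_upper {δ T : ℝ} (hδ : 0 < δ) (hδ2 : δ ≤ 1 / 8) (hT : 1 < T)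
    (h : 1 ≤ δ * Real.log T) :
    ∑ n ∈ Finset.Icc 1 ⌊T⌋₊, Pb δ (Real.log n / Real.log T) ^ 2 / n ≤ 1 / 2 * Real.log T := by
  refine le_trans (Finset.sum_le_sum fun n _ => ?_) (sum_Pb_upper hδ hδ2 hT h)
  have h1 := Pb_nonneg δ (Real.log n / Real.log T)
  have h2 := Pb_le_one δ (Real.log n / Real.log T)
  gcongr
  nlinarith

lemma pow_mul_log {T k : ℝ} (hT : 1 < T) :
    (Real.log T) ^ (k ^ 2 - 1) * Real.log T = (Real.log T) ^ (k ^ 2) := by
  have hL : 0 < Real.log T := Real.log_pos hT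
  rw [Real.rpow_sub_one hL.ne']
  field_simp

lemma one_le_LL {T k : ℝ} (hT : 3 ≤ T) : 1 ≤ (Real.log T) ^ (k ^ 2) := by
  apply Real.one_le_rpow _ (sq_nonneg k)
  rw [Real.le_log_iff_exp_le (by linarith)]
  linarith [Real.exp_one_lt_d9]

/-! ### elementary eventual bounds -/

lemma ev_exp (a : ℝ) (ha : 0 < a) : ∀ᶠ T : ℝ in atTop,
    T ^ 4 * Real.exp (-(T ^ (1 / 10 : ℝ) / 2)) ≤ a := by
  have h1 : Tendsto (fun T : ℝ => T ^ (1 / 10 : ℝ)) atTop atTop :=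
    tendsto_rpow_atTop (by norm_num)
  have h2 : ∀ᶠ u : ℝ in atTop, u ^ 40 ≤ a * Real.exp (1 / 2 * u) := by
    have := (isLittleO_pow_exp_pos_mul_atTop 40 (show (0 : ℝ) < 1 / 2 by norm_num)).def ha
    filter_upwards [this, eventually_ge_atTop 0] with u hu hu0
    rw [Real.norm_eq_abs, Real.norm_eq_abs, abs_of_nonneg (by positivity),
      abs_of_pos (Real.exp_pos _)] at hu
    exact hu
  filter_upwards [h1.eventually h2, eventually_ge_atTop 0] with T hT hT0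
  have e1 : T ^ 4 = (T ^ (1 / 10 : ℝ)) ^ 40 := by
    rw [← Real.rpow_natCast, ← Real.rpow_natCast, ← Real.rpow_mul hT0]
    congr 1; norm_num
  rw [e1]
  calc (T ^ (1 / 10 : ℝ)) ^ 40 * Real.exp (-(T ^ (1 / 10 : ℝ) / 2))
      ≤ (a * Real.exp (1 / 2 * T ^ (1 / 10 : ℝ))) * Real.exp (-(T ^ (1 / 10 : ℝ) / 2)) := by gcongr
    _ = a * (Real.exp (1 / 2 * T ^ (1 / 10 : ℝ)) * Real.exp (-(T ^ (1 / 10 : ℝ) / 2))) := by ring
    _ = a := by
        rw [← Real.exp_add, show 1 / 2 * T ^ (1 / 10 : ℝ) + -(T ^ (1 / 10 : ℝ) / 2) = 0 by ring,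
          Real.exp_zero, mul_one]

lemma ev_neg_pow {κ : ℝ} (hκ : 0 < κ) {a : ℝ} (ha : 0 < a) : ∀ᶠ T : ℝ in atTop,
    T ^ (-κ) ≤ a / Real.log T := by
  have h1 := (isLittleO_log_rpow_atTop hκ).def ha
  filter_upwards [h1, eventually_gt_atTop 1] with T hT hT1
  have hL : 0 < Real.log T := Real.log_pos hT1
  have hTk : 0 < T ^ κ := Real.rpow_pos_of_pos (by linarith) _
  rw [Real.norm_eq_abs, Real.norm_eq_abs, abs_of_pos hL, abs_of_pos hTk] at hT
  rw [Real.rpow_neg (by linarith), le_div_iff₀ hL, inv_mul_le_iff₀ hTk, mul_comm]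
  exact hT

lemma ev_div_log (a b : ℝ) (hb : 0 < b) : ∀ᶠ T : ℝ in atTop, a / Real.log T ≤ b := by
  filter_upwards [Real.tendsto_log_atTop.eventually_ge_atTop (|a| / b + 1)] with T hT
  have h0 : 0 ≤ |a| / b := by positivity
  have hL : 0 < Real.log T := by linarith
  rw [div_le_iff₀ hL]
  calc a ≤ |a| := le_abs_self a
    _ = b * (|a| / b) := by field_simp
    _ ≤ _ := by gcongr; linarith

lemma ev_JJ (a b : ℝ) (ha : 0 < a) (hb : 0 < b) : ∀ᶠ T : ℝ in atTop,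
    ((JJ T : ℝ) + 1) ^ 2 * (a / Real.log T) ≤ b := by
  filter_upwards [Len.eventually_small (4 * a / b), Real.tendsto_log_atTop.eventually_gt_atTop 0,
    (Real.tendsto_log_atTop.comp (Real.tendsto_log_atTop.comp
      Real.tendsto_log_atTop)).eventually_ge_atTop 0] with T h1 hL h2
  simp only [Function.comp] at h2
  set x := Real.log (Real.log (Real.log T)) with hx
  have hJ : (JJ T : ℝ) ≤ 4 * x := Nat.floor_le (by positivity)
  have hJ0 : (0 : ℝ) ≤ JJ T := Nat.cast_nonneg _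
  have h3 : 4 * x + 1 ≤ 4 * Real.exp (3 / 4 * (4 * x)) := by
    have := Real.add_one_le_exp (3 / 4 * (4 * x))
    linarith
  have h4 : ((JJ T : ℝ) + 1) ^ 2 ≤ 4 * ((4 * x + 1) * Real.exp (3 / 4 * (4 * x))) := by
    calc ((JJ T : ℝ) + 1) ^ 2 ≤ (4 * x + 1) ^ 2 := by gcongr
      _ = (4 * x + 1) * (4 * x + 1) := by ring
      _ ≤ (4 * x + 1) * (4 * Real.exp (3 / 4 * (4 * x))) := by gcongr
      _ = _ := by ring
  rw [← mul_div_assoc, div_le_iff₀ hL]
  calc ((JJ T : ℝ) + 1) ^ 2 * a ≤ 4 * ((4 * x + 1) * Real.exp (3 / 4 * (4 * x))) * a := by gcongr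
    _ = b * (4 * a / b * ((4 * x + 1) * Real.exp (3 / 4 * (4 * x)))) := by field_simp
    _ ≤ b * Real.log T := by gcongr

lemma ev_M (C a : ℝ) (ha : 0 < a) : ∀ᶠ M : ℕ in atTop,
    Real.exp (C * M - 1 / 4 * Real.exp (3 / 4 * M)) ≤ a := by
  have h1 : Tendsto (fun x : ℝ => C * x - 1 / 4 * Real.exp (3 / 4 * x)) atTop atBot := by
    have h2 : ∀ᶠ x : ℝ in atTop, C * x - 1 / 4 * Real.exp (3 / 4 * x) ≤ -x := by
      have := (isLittleO_pow_exp_pos_mul_atTop 1 (show (0 : ℝ) < 3 / 4 by norm_num)).def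
        (c := (4 * (|C| + 1))⁻¹) (by positivity)
      filter_upwards [this, eventually_ge_atTop 0] with x hx hx0
      rw [Real.norm_eq_abs, Real.norm_eq_abs, abs_of_nonneg (by positivity),
        abs_of_pos (Real.exp_pos _), pow_one] at hx
      have h3 : 4 * (|C| + 1) * x ≤ Real.exp (3 / 4 * x) := by
        have h4 := mul_le_mul_of_nonneg_left hx (show 0 ≤ 4 * (|C| + 1) by positivity)
        rwa [← mul_assoc, mul_inv_cancel₀ (by positivity), one_mul] at h4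
      have h5 : C * x ≤ |C| * x := mul_le_mul_of_nonneg_right (le_abs_self C) hx0
      linarith
    exact tendsto_atBot_mono' _ h2 tendsto_neg_atTop_atBot
  have h2 := (Real.tendsto_exp_atBot.comp h1).comp tendsto_natCast_atTop_atTop
  filter_upwards [h2.eventually (eventually_lt_nhds ha)] with M hM
  exact hM.le


/-- the bad factors -/
noncomputable def Qb (T : ℝ) (M : ℕ) (v : ℕ) (f : ℕ → ℂ) : ℝ :=
  ‖(Pj M (Sj T M (JJ T) v) f / (KK M (JJ T) v : ℂ)) ^ (rr M (JJ T) v)‖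

lemma norm_NN_bad {T : ℝ} {M v : ℕ} {α : ℝ} (hv : v ∈ Finset.range (JJ T + 1)) (f : ℕ → ℂ) :
    ‖AA T M (JJ T) α (Finset.range (JJ T + 1)) {v} f‖ = ‖NN T M α f‖ * Qb T M v f := by
  rw [NN, Asm.norm_AA T M (JJ T) α (Finset.Subset.refl _) (Finset.singleton_subset_iff.2 hv),
    Asm.norm_AA T M (JJ T) α (Finset.Subset.refl _) (Finset.empty_subset _),
    Finset.prod_singleton, Finset.prod_empty, mul_one, Qb]

lemma cont_fs_half {n : ℕ} (hn : n ≠ 0) : Continuous fun t : ℝ => fs (1 / 2 + t * I) n := by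
  have := Asm.continuous_fs_pt 0 2 hn
  simp only [pt_zero] at this
  exact this

lemma cont_Qb {T : ℝ} (hT : 1 < T) (M v : ℕ) : Continuous fun t : ℝ => Qb T M v (fs (1 / 2 + t * I)) := by
  unfold Qb
  refine (Continuous.pow ?_ _).norm
  refine Continuous.div_const ?_ _
  unfold Pj QQ
  refine continuous_finsetSum _ fun p hp => continuous_finsetSum _ fun a _ => ?_
  exact ((cont_fs_half (prime_Sj hT hp).ne_zero).pow _).div_const _

lemma good_or_bad {T k e : ℝ} {M : ℕ} (hk0 : 0 ≤ k) (hk1 : k ≤ 1)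
    (hs : 8 * ∑ j ∈ Finset.range (JJ T + 1), Real.exp (-KK M (JJ T) j) ≤ e) (he : e ≤ 1)
    (f : ℕ → ℂ) : ‖NN T M (k - 1) f‖ ≤ (1 + e) * ‖NN T M (-1) f‖ ^ (1 - k) ∨
      ∃ v ∈ Finset.range (JJ T + 1), 1 ≤ Qb T M v f := by
  by_cases hgood : ∀ j ∈ Finset.range (JJ T + 1), ‖Pj M (Sj T M (JJ T) j) f‖ ≤ KK M (JJ T) j
  · left
    have e2 : ∀ α : ℝ, ‖NN T M α f‖ = ∏ j ∈ Finset.range (JJ T + 1),
        ‖Ntr (ll M (JJ T) j) α (Pj M (Sj T M (JJ T) j) f)‖ := by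
      intro α
      rw [NN, Asm.norm_AA T M (JJ T) α (Finset.Subset.refl _) (Finset.empty_subset _),
        Finset.prod_empty, mul_one]
    rw [e2, e2, ← Real.finsetProd_rpow _ _ (fun j _ => norm_nonneg _)]
    have h0 : ∀ j, 0 ≤ 4 * Real.exp (-KK M (JJ T) j) := fun j => by positivity
    have h1 : ∏ j ∈ Finset.range (JJ T + 1), (1 + 4 * Real.exp (-KK M (JJ T) j)) ≤ 1 + e := by
      refine (Asm.prod_one_add_le h0 ?_).trans ?_
      · rw [← Finset.mul_sum]; linarith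
      · rw [← Finset.mul_sum]; linarith
    calc ∏ j ∈ Finset.range (JJ T + 1), ‖Ntr (ll M (JJ T) j) (k - 1) (Pj M (Sj T M (JJ T) j) f)‖
        ≤ ∏ j ∈ Finset.range (JJ T + 1), ((1 + 4 * Real.exp (-KK M (JJ T) j)) *
          ‖Ntr (ll M (JJ T) j) (-1) (Pj M (Sj T M (JJ T) j) f)‖ ^ (1 - k)) := by
          refine Finset.prod_le_prod (fun j _ => norm_nonneg _) fun j hj => ?_
          have hjJ : j ≤ JJ T := by
            have := Finset.mem_range.1 hj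
            omega
          exact ratio1 (ll M (JJ T) j) hk0 hk1 (Len.KK_ge_one hjJ) (Nat.le_ceil _) (hgood j hj)
      _ = (∏ j ∈ Finset.range (JJ T + 1), (1 + 4 * Real.exp (-KK M (JJ T) j))) *
          ∏ j ∈ Finset.range (JJ T + 1),
            ‖Ntr (ll M (JJ T) j) (-1) (Pj M (Sj T M (JJ T) j) f)‖ ^ (1 - k) :=
          Finset.prod_mul_distrib
      _ ≤ _ := by
          apply mul_le_mul_of_nonneg_right h1
          exact Finset.prod_nonneg fun j _ => Real.rpow_nonneg (norm_nonneg _) _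
  · right
    push Not at hgood
    obtain ⟨v, hv, hPv⟩ := hgood
    have hvJ : v ≤ JJ T := by
      have := Finset.mem_range.1 hv
      omega
    exact ⟨v, hv, one_le_bad (rr M (JJ T) v) (Len.KK_ge_one hvJ) hPv.le⟩

/-- Gaussian means of `|SH|² |N|²`. -/
lemma eg_SN {η T k : ℝ} {M : ℕ} (hη0 : 0 < η) (hη : η ≤ 1 / 200) (hT3 : 3 ≤ T)
    (hN : DP (T ^ (1 / 4 : ℝ)) (T ^ (1 / 4 : ℝ)) (NN T M (k - 1)))
    (shs : |ER (SB T M (JJ T)) (fun f => ‖SH η T (tw (1 / 2) f)‖ ^ 2 * ‖NN T M (k - 1) (tw (1 / 2) f)‖ ^ 2) -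
      (Real.log T) ^ (k ^ 2 - 1) *
        ∑ n ∈ Finset.Icc 1 ⌊T⌋₊, Pb η (Real.log n / Real.log T) ^ 2 / n| ≤
      η / 4 * (Real.log T) ^ (k ^ 2))
    (n1 : 1 ≤ η * Real.log T) (n2 : T ^ 4 * Real.exp (-(T ^ (1 / 10 : ℝ) / 2)) ≤ η / 4) (τ : ℝ) :
    EG T τ (fun t => ‖SH η T (fs (1 / 2 + t * I))‖ ^ 2 * ‖NN T M (k - 1) (fs (1 / 2 + t * I))‖ ^ 2) ≤
      (1 / 2 + η / 2) * (Real.log T) ^ (k ^ 2) := by
  have hT1 : 1 < T := by linarith
  have hT0 : 0 < T := by linarith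
  have hL : 0 < Real.log T := Real.log_pos hT1
  have hS := dp_SH (δ := η) hη0 hT1
  have hSN := (hS.mul hN).twist (w := 1 / 2) (by norm_num)
  have hU : ∀ n : ℕ, 1 ≤ n → (n : ℝ) ≤ T ^ (9 / 10 : ℝ) →
      n ∈ Nat.factoredNumbers (UU (SB T M (JJ T))) := by
    intro n h1 h2
    refine mem_factored hT1 M (JJ T) h1 (h2.trans ?_)
    calc T ^ (9 / 10 : ℝ) ≤ T ^ (1 : ℝ) := Real.rpow_le_rpow_of_exponent_le hT1.le (by norm_num)
      _ = T := Real.rpow_one T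
  have hlen : T ^ (1 / 2 - η) * T ^ (1 / 4 : ℝ) ≤ T ^ (9 / 10 : ℝ) := by
    rw [← Real.rpow_add hT0]
    exact Real.rpow_le_rpow_of_exponent_le hT1.le (by linarith)
  have h1 := transfer_sq hU hSN hlen T τ
  have e1 : ∀ t : ℝ, ‖(fun f => SH η T f * NN T M (k - 1) f) (tw (1 / 2) (fs (t * I)))‖ ^ 2 =
      ‖SH η T (fs (1 / 2 + t * I))‖ ^ 2 * ‖NN T M (k - 1) (fs (1 / 2 + t * I))‖ ^ 2 := by
    intro t
    simp only
    rw [← hS.fs_add, ← hN.fs_add, norm_mul, mul_pow]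
  have e2 : ∀ f : ℕ → ℂ, ‖(fun f => SH η T f * NN T M (k - 1) f) (tw (1 / 2) f)‖ ^ 2 =
      ‖SH η T (tw (1 / 2) f)‖ ^ 2 * ‖NN T M (k - 1) (tw (1 / 2) f)‖ ^ 2 := by
    intro f
    simp only
    rw [norm_mul, mul_pow]
  simp only [e1, e2] at h1
  have e3 : (VV T : ℝ) / (2 * (T ^ (9 / 10 : ℝ)) ^ 2) = T ^ (1 / 10 : ℝ) / 2 := by
    rw [VV_coe hT0.le, ← Real.rpow_natCast (T ^ (9 / 10 : ℝ)), ← Real.rpow_mul hT0.le]
    have : T ^ (19 / 10 : ℝ) = T ^ (1 / 10 : ℝ) * T ^ (9 / 10 * ((2 : ℕ) : ℝ)) := by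
      rw [← Real.rpow_add hT0]; norm_num
    rw [this]
    have h0 : 0 < T ^ (9 / 10 * ((2 : ℕ) : ℝ)) := Real.rpow_pos_of_pos hT0 _
    field_simp
  rw [e3] at h1
  have h4 : (T * T ^ (1 / 4 : ℝ)) ^ 2 ≤ T ^ 4 := by
    have : T ^ (1 / 4 : ℝ) ≤ T := by
      calc T ^ (1 / 4 : ℝ) ≤ T ^ (1 : ℝ) := Real.rpow_le_rpow_of_exponent_le hT1.le (by norm_num)
        _ = T := Real.rpow_one T
    calc (T * T ^ (1 / 4 : ℝ)) ^ 2 ≤ (T * T) ^ 2 := by gcongr
      _ = T ^ 4 := by ring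
  have h5 : (T * T ^ (1 / 4 : ℝ)) ^ 2 * Real.exp (-(T ^ (1 / 10 : ℝ) / 2)) ≤ η / 4 :=
    le_trans (by gcongr) n2
  have h6 := sum_Pb_sq_upper hη0 (by linarith) hT1 n1
  have h7 : (Real.log T) ^ (k ^ 2 - 1) *
      ∑ n ∈ Finset.Icc 1 ⌊T⌋₊, Pb η (Real.log n / Real.log T) ^ 2 / n ≤
      1 / 2 * (Real.log T) ^ (k ^ 2) := by
    calc (Real.log T) ^ (k ^ 2 - 1) *
        ∑ n ∈ Finset.Icc 1 ⌊T⌋₊, Pb η (Real.log n / Real.log T) ^ 2 / n
        ≤ (Real.log T) ^ (k ^ 2 - 1) * (1 / 2 * Real.log T) := by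
          have : 0 ≤ (Real.log T) ^ (k ^ 2 - 1) := Real.rpow_nonneg hL.le _
          gcongr
      _ = 1 / 2 * ((Real.log T) ^ (k ^ 2 - 1) * Real.log T) := by ring
      _ = _ := by rw [pow_mul_log hT1]
  have h8 := (abs_le.1 (h1.trans h5)).2
  have h9 := (abs_le.1 shs).2
  have h10 : η / 4 * 1 ≤ η / 4 * (Real.log T) ^ (k ^ 2) := by
    have := one_le_LL (k := k) hT3
    gcongr
  linarith

theorem fixed {η T k Cc κ κ₂ C₄ C₅ Ca Cu Cz : ℝ} {M : ℕ} (hη0 : 0 < η) (hη : η ≤ 1 / 200)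
    (hT3 : 3 ≤ T) (hk : 3 / 4 ≤ k) (hk1 : k ≤ 1) (hM4 : 4 ≤ M) (hCc : 0 < Cc) (hκ : 0 < κ)
    (hCa : 0 < Ca) (hCu : 0 < Cu)
    (hN : ∀ α : ℝ, |α| ≤ 1 → ∀ g h : Finset ℕ,
      DP (T ^ (1 / 4 : ℝ)) (T ^ (1 / 4 : ℝ)) (AA T M (JJ T) α g h))
    (crude : ∀ τ : ℝ, |τ| ≤ 2 * T → ∀ g h : Finset ℕ, g ∪ h = Finset.range (JJ T + 1) →
      EG T τ (fun t => ‖riemannZeta (1 / 2 + t * I)‖ ^ 2 *
        ‖AA T M (JJ T) (k - 1) g h (fs (1 / 2 + t * I))‖ ^ 2) ≤
        Real.exp (Cc * M) * (Real.log T) ^ (k ^ 2) * ∏ j ∈ h, ss M (JJ T) j + T ^ (-κ))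
    (shz : ‖ER (SB T M (JJ T)) (fun f => ZZ (PS 0 T) (tw (1 / 2) f) *
        (starRingEnd ℂ) (SH η T (tw (1 / 2) f)) *
        (NN T M (k - 1) (tw (1 / 2) f) * (starRingEnd ℂ) (NN T M (k - 1) (tw (1 / 2) f)))) -
      (((Real.log T) ^ (k ^ 2 - 1) *
        ∑ n ∈ Finset.Icc 1 ⌊T⌋₊, Pb η (Real.log n / Real.log T) / n : ℝ) : ℂ)‖ ≤
      η * (Real.log T) ^ (k ^ 2))
    (shs : |ER (SB T M (JJ T)) (fun f => ‖SH η T (tw (1 / 2) f)‖ ^ 2 *
        ‖NN T M (k - 1) (tw (1 / 2) f)‖ ^ 2) -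
      (Real.log T) ^ (k ^ 2 - 1) *
        ∑ n ∈ Finset.Icc 1 ⌊T⌋₊, Pb η (Real.log n / Real.log T) ^ 2 / n| ≤
      η / 4 * (Real.log T) ^ (k ^ 2))
    (cross : ∀ τ : ℝ, T / Real.log T ≤ |τ| → |τ| ≤ 3 / 2 * T →
      ‖EG T τ (fun t => FF (1 / 2 + t * I) * (SH η T (fs (1 / 2 + t * I))) ^ 2 *
      (NN T M (k - 1) (fs (1 / 2 + t * I)) *
        (starRingEnd ℂ) (NN T M (k - 1) (fs (1 / 2 + t * I)))))‖ ≤ T ^ (-κ₂))
    (fourth : T⁻¹ * ∫ t in (0 : ℝ)..T, ‖SH η T (fs (1 / 2 + t * I))‖ ^ 4 *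
      ‖NN T M (k - 1) (fs (1 / 2 + t * I))‖ ^ 2 * ‖NN T M (-1) (fs (1 / 2 + t * I))‖ ^ 2 ≤
      C₄ * (Real.log T) ^ (k ^ 2))
    (tz : ∀ τ : ℝ, T / Real.log T ≤ |τ| →
      |τ| ≤ 3 / 2 * T → ∀ (M : ℕ) (G H : (ℕ → ℂ) → ℂ), DP (T ^ (9 / 10 : ℝ)) (T ^ 3) G →
      DP (T ^ (9 / 10 : ℝ)) (T ^ 3) H →
      ‖EG T τ (fun t => riemannZeta (1 / 2 + t * I) *
          (G (fs (t * I)) * (starRingEnd ℂ) (H (fs (t * I))))) -
        ER (SB T M (JJ T)) (fun f => ZZ (PS 0 T) (tw (1 / 2) f) * (G f * (starRingEnd ℂ) (H f)))‖ ≤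
        T ^ (-2 : ℝ))
    (avg : ∀ F : ℝ → ℂ, Continuous F →
      (∀ t, ‖F t‖ ≤ T ^ 4 * (1 + |t|) ^ 4) → ∀ (D : ℂ) (E B : ℝ), 0 ≤ E → 1 ≤ B →
      (∀ τ : ℝ, T / Real.log T ≤ |τ| → |τ| ≤ 3 / 2 * T → ‖EG T τ F - D‖ ≤ E) →
      (∀ τ : ℝ, |τ| ≤ 3 / 2 * T → EG T τ (fun t => ‖F t‖) ≤ B) →
      ‖(T : ℂ)⁻¹ * (∫ t in (0 : ℝ)..T, F t) - D‖ ≤ E + Ca * (‖D‖ + B) / Real.log T)
    (avgu : ∀ F : ℝ → ℝ, Continuous F →
      (∀ t, 0 ≤ F t) → (∀ t, F t ≤ T ^ 4 * (1 + |t|) ^ 4) → ∀ D B : ℝ, 0 ≤ D → 1 ≤ B →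
      (∀ τ : ℝ, T / Real.log T ≤ |τ| → |τ| ≤ 3 / 2 * T → EG T τ F ≤ D) →
      (∀ τ : ℝ, |τ| ≤ 3 / 2 * T → EG T τ F ≤ B) →
      T⁻¹ * (∫ t in (0 : ℝ)..T, F t) ≤ D + Cu * (D + B) / Real.log T)
    (n1 : 1 ≤ η * Real.log T) (n2 : T ^ 4 * Real.exp (-(T ^ (1 / 10 : ℝ) / 2)) ≤ η / 4)
    (n3 : Ca * (Real.exp (Cc * M) + 4) / Real.log T ≤ η / 8)
    (n4 : Cu * (Real.exp (Cc * M) + 4) / Real.log T ≤ η / 8)
    (n5 : T ^ (-2 : ℝ) ≤ η / 8) (n6 : T ^ (-κ₂) ≤ η / 2)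
    (n7 : ((JJ T : ℝ) + 1) ^ 2 * (T ^ (-κ) + 2 * (Cu * (Real.exp (Cc * M) + 4) / Real.log T)) ≤
      (η / 4) ^ 2)
    (n8 : Real.exp (Cc * M - 1 / 4 * Real.exp (3 / 4 * M)) ≤ η / 64)
    (hzb : ∀ t : ℝ, ‖riemannZeta (1 / 2 + t * I)‖ ≤ Cz * (1 + |t|) ^ 2) (hCz1 : 1 ≤ Cz)
    (n9 : Cz ^ 2 ≤ T) (hC5 : 0 < C₅) (hC45 : 16 * C₄ ≤ C₅)
    (n10 : C₅ ^ ((1 - k) / (2 * k)) ≤ 1 + η) :
    (1 - 100 * η) * (Real.log T) ^ (k ^ 2) ≤
      T⁻¹ * ∫ t in (0 : ℝ)..T, ‖riemannZeta (1 / 2 + t * I)‖ ^ (2 * k) := by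
  have hT1 : 1 < T := by linarith
  have hT0 : 0 < T := by linarith
  have hL : 0 < Real.log T := Real.log_pos hT1
  have hM4' : (4 : ℝ) ≤ M := by exact_mod_cast hM4
  set Λ := (Real.log T) ^ (k ^ 2) with hΛd
  have hΛ1 : 1 ≤ Λ := one_le_LL hT3
  have hΛ0 : 0 < Λ := by linarith
  have hα : |k - 1| ≤ 1 := by rw [abs_le]; constructor <;> linarith
  have hα1 : |(-1 : ℝ)| ≤ 1 := by norm_num
  set R := Finset.range (JJ T + 1) with hR
  have hNk : DP (T ^ (1 / 4 : ℝ)) (T ^ (1 / 4 : ℝ)) (NN T M (k - 1)) := hN (k - 1) hα _ _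
  have hN1 : DP (T ^ (1 / 4 : ℝ)) (T ^ (1 / 4 : ℝ)) (NN T M (-1)) := hN (-1) hα1 _ _
  have hS := dp_SH (δ := η) hη0 hT1
  obtain ⟨cN, bN⟩ := dp_half hNk
  obtain ⟨cN1, bN1⟩ := dp_half hN1
  obtain ⟨cS, bS⟩ := dp_half hS
  have cz := continuous_zeta_half
  have cχ := continuous_FF_half
  have hTk1 : T ^ (-κ) ≤ 1 := Real.rpow_le_one_of_one_le_of_nonpos hT1.le (by linarith)
  have hTk0 : 0 < T ^ (-κ) := Real.rpow_pos_of_pos hT0 _
  have hT14 : (T ^ (1 / 4 : ℝ)) ^ 2 ≤ T := by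
    rw [← Real.rpow_natCast, ← Real.rpow_mul hT0.le]
    calc T ^ (1 / 4 * ((2 : ℕ) : ℝ)) ≤ T ^ (1 : ℝ) :=
          Real.rpow_le_rpow_of_exponent_le hT1.le (by norm_num)
      _ = T := Real.rpow_one T
  set X := Real.exp (Cc * M) with hX
  have hX1 : 1 ≤ X := Real.one_le_exp (by positivity)
  set B := (X + 3) * Λ with hB
  have hB1 : 1 ≤ B := by
    have : 1 * 1 ≤ (X + 3) * Λ := mul_le_mul (by linarith) hΛ1 zero_le_one (by linarith)
    linarith
  have eB : B = X * Λ + 3 * Λ := by rw [hB]; ring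
  -- polynomial growth
  have pol : ∀ t : ℝ, 1 ≤ (1 + |t|) ^ 2 := fun t => one_le_pow₀ (by linarith [abs_nonneg t])
  have hCzT : Cz ≤ T := by nlinarith
  have hnN2 : ∀ t : ℝ, ‖NN T M (k - 1) (fs (1 / 2 + t * I))‖ ^ 2 ≤ T := fun t =>
    le_trans (pow_le_pow_left₀ (norm_nonneg _) (bN t) 2) hT14
  -- mean values of |SH|^2|N|^2 and |zeta|^2|N|^2
  have m1 := eg_SN hη0 hη hT3 hNk shs n1 n2
  have m1' : ∀ τ, EG T τ (fun t => ‖SH η T (fs (1 / 2 + t * I))‖ ^ 2 *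
      ‖NN T M (k - 1) (fs (1 / 2 + t * I))‖ ^ 2) ≤ Λ := by
    intro τ
    refine (m1 τ).trans ?_
    have : (1 / 2 + η / 2) ≤ 1 := by linarith
    calc (1 / 2 + η / 2) * Λ ≤ 1 * Λ := by gcongr
      _ = Λ := one_mul _
  have m2 : ∀ τ : ℝ, |τ| ≤ 2 * T → EG T τ (fun t => ‖riemannZeta (1 / 2 + t * I)‖ ^ 2 *
      ‖NN T M (k - 1) (fs (1 / 2 + t * I))‖ ^ 2) ≤ X * Λ + Λ := by
    intro τ hτ
    refine (crude τ hτ R ∅ (Finset.union_empty _)).trans ?_
    rw [Finset.prod_empty, mul_one]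
    linarith
  have iSN : ∀ τ, Integrable (fun t : ℝ => ‖SH η T (fs (1 / 2 + t * I))‖ ^ 2 *
      ‖NN T M (k - 1) (fs (1 / 2 + t * I))‖ ^ 2) (gaussianReal τ (VV T)) := by
    intro τ
    refine Integrable.of_bound ((cS.norm.pow 2).mul (cN.norm.pow 2)).aestronglyMeasurable (T ^ 2 * T)
      (Filter.Eventually.of_forall fun t => ?_)
    rw [Real.norm_eq_abs, abs_of_nonneg (by positivity)]
    exact mul_le_mul (pow_le_pow_left₀ (norm_nonneg _) (bS t) 2) (hnN2 t) (by positivity)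
      (by positivity)
  have izN : ∀ τ, Integrable (fun t : ℝ => ‖riemannZeta (1 / 2 + t * I)‖ ^ 2 *
      ‖NN T M (k - 1) (fs (1 / 2 + t * I))‖ ^ 2) (gaussianReal τ (VV T)) := by
    intro τ
    refine integrable_of_poly τ (VV T) ((cz.norm.pow 2).mul (cN.norm.pow 2)).aestronglyMeasurable
      (C := Cz ^ 2 * T) (m := 4) fun t => ?_
    rw [Real.norm_eq_abs, abs_of_nonneg (by positivity)]
    calc ‖riemannZeta (1 / 2 + t * I)‖ ^ 2 * ‖NN T M (k - 1) (fs (1 / 2 + t * I))‖ ^ 2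
        ≤ (Cz * (1 + |t|) ^ 2) ^ 2 * T := by
          have := hzb t
          have := hnN2 t
          gcongr
      _ = _ := by ring
  -- H1
  have c1 : Continuous (fun t : ℝ => riemannZeta (1 / 2 + t * I) *
      (starRingEnd ℂ) (SH η T (fs (1 / 2 + t * I))) * (NN T M (k - 1) (fs (1 / 2 + t * I)) *
        (starRingEnd ℂ) (NN T M (k - 1) (fs (1 / 2 + t * I))))) :=
    (cz.mul (continuous_conj.comp cS)).mul (cN.mul (continuous_conj.comp cN))
  have H1 : (1 - 7 * η) * Λ ≤ 2 * (∫ t : ℝ, riemannZeta (1 / 2 + t * I) *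
      (starRingEnd ℂ) (SH η T (fs (1 / 2 + t * I))) * (NN T M (k - 1) (fs (1 / 2 + t * I)) *
        (starRingEnd ℂ) (NN T M (k - 1) (fs (1 / 2 + t * I)))) ∂(AV T)).re := by
    set D : ℝ := (Real.log T) ^ (k ^ 2 - 1) *
        ∑ n ∈ Finset.Icc 1 ⌊T⌋₊, Pb η (Real.log n / Real.log T) / n with hD
    have hpl : 0 ≤ (Real.log T) ^ (k ^ 2 - 1) := Real.rpow_nonneg hL.le _
    have hD1 : (1 / 2 - 2 * η) * Λ ≤ D := by
      calc (1 / 2 - 2 * η) * Λ = (Real.log T) ^ (k ^ 2 - 1) * ((1 / 2 - 2 * η) * Real.log T) := by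
            rw [hΛd, ← pow_mul_log hT1]; ring
        _ ≤ D := by
            rw [hD]
            exact mul_le_mul_of_nonneg_left (sum_Pb_lower hη0 (by linarith) hT1) hpl
    have hD2 : D ≤ 1 / 2 * Λ := by
      calc D ≤ (Real.log T) ^ (k ^ 2 - 1) * (1 / 2 * Real.log T) := by
            rw [hD]
            exact mul_le_mul_of_nonneg_left (sum_Pb_upper hη0 (by linarith) hT1 n1) hpl
        _ = 1 / 2 * Λ := by rw [hΛd, ← pow_mul_log hT1]; ring
    have hD0 : 0 ≤ D := le_trans (mul_nonneg (by linarith) hΛ0.le) hD1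
    have g1 := avg _ c1 (fun t => by
      rw [norm_mul, norm_mul, norm_mul, RCLike.norm_conj, RCLike.norm_conj]
      calc ‖riemannZeta (1 / 2 + t * I)‖ * ‖SH η T (fs (1 / 2 + t * I))‖ *
            (‖NN T M (k - 1) (fs (1 / 2 + t * I))‖ * ‖NN T M (k - 1) (fs (1 / 2 + t * I))‖)
          ≤ (Cz * (1 + |t|) ^ 2) * T * T := by
            have := hzb t
            have := bS t
            have h3 := hnN2 t
            rw [sq] at h3
            gcongr
        _ ≤ (T * (1 + |t|) ^ 2) * T * T := by gcongr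
        _ = T ^ 3 * (1 + |t|) ^ 2 := by ring
        _ ≤ T ^ 4 * (1 + |t|) ^ 4 := by
            gcongr
            · exact hT1.le
            · norm_num
            · linarith [abs_nonneg t]
            · norm_num) (D : ℂ) (η * Λ + T ^ (-2 : ℝ)) B
      (by positivity) hB1 (fun τ hτ1 hτ2 => ?_) (fun τ hτ => ?_)
    · rw [convc_aux hT0]
      have g2 : Ca * (‖(D : ℂ)‖ + B) / Real.log T ≤ η / 8 * Λ := by
        have g3 : ‖(D : ℂ)‖ + B ≤ (X + 4) * Λ := by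
          rw [norm_real, Real.norm_eq_abs, abs_of_nonneg hD0]; linarith
        calc Ca * (‖(D : ℂ)‖ + B) / Real.log T ≤ Ca * ((X + 4) * Λ) / Real.log T := by gcongr
          _ = Ca * (X + 4) / Real.log T * Λ := by ring
          _ ≤ _ := by gcongr
      have g4 : ‖(T : ℂ)⁻¹ * (∫ t in (0 : ℝ)..T, riemannZeta (1 / 2 + t * I) *
        (starRingEnd ℂ) (SH η T (fs (1 / 2 + t * I))) * (NN T M (k - 1) (fs (1 / 2 + t * I)) *
        (starRingEnd ℂ) (NN T M (k - 1) (fs (1 / 2 + t * I))))) - D‖ ≤ 5 / 4 * η * Λ := by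
        refine g1.trans ?_
        have : η / 8 * 1 ≤ η / 8 * Λ := by gcongr
        linarith
      have g5 := (abs_re_le_norm _).trans g4
      rw [sub_re, ofReal_re] at g5
      have g6 := (abs_le.1 g5).1
      have : 0 < η * Λ := by positivity
      nlinarith
    · -- Gaussian means
      have dG : DP (T ^ (9 / 10 : ℝ)) (T ^ 3) (fun f => NN T M (k - 1) (tw (1 / 2) f)) := by
        refine (hNk.twist (w := 1 / 2) (by norm_num)).mono ?_ ?_
        · exact Real.rpow_le_rpow_of_exponent_le hT1.le (by norm_num)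
        · rw [← Real.rpow_natCast]
          exact Real.rpow_le_rpow_of_exponent_le hT1.le (by norm_num)
      have dH : DP (T ^ (9 / 10 : ℝ)) (T ^ 3)
          (fun f => SH η T (tw (1 / 2) f) * NN T M (k - 1) (tw (1 / 2) f)) := by
        refine ((hS.mul hNk).twist (w := 1 / 2) (by norm_num)).mono ?_ ?_
        · rw [← Real.rpow_add hT0]
          exact Real.rpow_le_rpow_of_exponent_le hT1.le (by linarith)
        · calc T * T ^ (1 / 4 : ℝ) ≤ T * T ^ (2 : ℝ) := by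
                gcongr
                · exact hT1.le
                · norm_num
            _ = T ^ 3 := by rw [Real.rpow_two]; ring
      have h1 := tz τ hτ1 hτ2 M _ _ dG dH
      have e1 : (fun t : ℝ => riemannZeta (1 / 2 + t * I) *
          (NN T M (k - 1) (tw (1 / 2) (fs (t * I))) *
          (starRingEnd ℂ) (SH η T (tw (1 / 2) (fs (t * I))) *
            NN T M (k - 1) (tw (1 / 2) (fs (t * I)))))) =
          fun t : ℝ => riemannZeta (1 / 2 + t * I) *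
      (starRingEnd ℂ) (SH η T (fs (1 / 2 + t * I))) * (NN T M (k - 1) (fs (1 / 2 + t * I)) *
        (starRingEnd ℂ) (NN T M (k - 1) (fs (1 / 2 + t * I)))) := by
        ext t
        rw [← hS.fs_add, ← hNk.fs_add, map_mul]
        ring
      have e2 : (fun f : ℕ → ℂ => ZZ (PS 0 T) (tw (1 / 2) f) * (NN T M (k - 1) (tw (1 / 2) f) *
          (starRingEnd ℂ) (SH η T (tw (1 / 2) f) * NN T M (k - 1) (tw (1 / 2) f)))) =
          fun f => ZZ (PS 0 T) (tw (1 / 2) f) * (starRingEnd ℂ) (SH η T (tw (1 / 2) f)) *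
        (NN T M (k - 1) (tw (1 / 2) f) * (starRingEnd ℂ) (NN T M (k - 1) (tw (1 / 2) f))) := by
        ext f
        rw [map_mul]
        ring
      rw [e1, e2] at h1
      exact (norm_sub_le_norm_sub_add_norm_sub _ _ _).trans
        ((add_le_add h1 shz).trans (le_of_eq (by ring)))
    · -- absolute values
      have hτ2 : |τ| ≤ 2 * T := by linarith
      have h1 : EG T τ (fun t : ℝ => ‖riemannZeta (1 / 2 + t * I) *
          (starRingEnd ℂ) (SH η T (fs (1 / 2 + t * I))) * (NN T M (k - 1) (fs (1 / 2 + t * I)) *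
          (starRingEnd ℂ) (NN T M (k - 1) (fs (1 / 2 + t * I))))‖) ≤
          EG T τ (fun t => ‖riemannZeta (1 / 2 + t * I)‖ ^ 2 *
            ‖NN T M (k - 1) (fs (1 / 2 + t * I))‖ ^ 2 + ‖SH η T (fs (1 / 2 + t * I))‖ ^ 2 *
            ‖NN T M (k - 1) (fs (1 / 2 + t * I))‖ ^ 2) := by
        apply integral_mono_of_nonneg (Filter.Eventually.of_forall fun t => norm_nonneg _)
          ((izN τ).add (iSN τ))
        refine Filter.Eventually.of_forall fun t => ?_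
        simp only [Pi.add_apply, norm_mul, RCLike.norm_conj]
        have := two_mul_le_add_sq (‖riemannZeta (1 / 2 + t * I)‖) (‖SH η T (fs (1 / 2 + t * I))‖)
        have h3 : 0 ≤ ‖riemannZeta (1 / 2 + t * I)‖ * ‖SH η T (fs (1 / 2 + t * I))‖ := by positivity
        have h4 : 0 ≤ ‖NN T M (k - 1) (fs (1 / 2 + t * I))‖ ^ 2 := by positivity
        nlinarith
      refine h1.trans ?_
      rw [EG, integral_add (izN τ) (iSN τ)]
      have h2 := m2 τ hτ2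
      have h3 := m1' τ
      simp only [EG] at h2 h3
      linarith
  -- H2
  have H2 : ∫ t : ℝ, ‖SH η T (fs (1 / 2 + t * I))‖ ^ 2 * ‖NN T M (k - 1) (fs (1 / 2 + t * I))‖ ^ 2
      ∂(AV T) ≤ (1 / 2 + η) * Λ := by
    rw [integral_AV hT0, smul_eq_mul]
    have g1 := avgu (fun t : ℝ => ‖SH η T (fs (1 / 2 + t * I))‖ ^ 2 *
      ‖NN T M (k - 1) (fs (1 / 2 + t * I))‖ ^ 2) ((cS.norm.pow 2).mul (cN.norm.pow 2))
      (fun t => by positivity) (fun t => by
        calc ‖SH η T (fs (1 / 2 + t * I))‖ ^ 2 * ‖NN T M (k - 1) (fs (1 / 2 + t * I))‖ ^ 2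
            ≤ T ^ 2 * T := mul_le_mul (pow_le_pow_left₀ (norm_nonneg _) (bS t) 2) (hnN2 t)
              (by positivity) (by positivity)
          _ = T ^ 3 * 1 := by ring
          _ ≤ T ^ 4 * (1 + |t|) ^ 4 := by
              gcongr
              · exact hT1.le
              · norm_num
              · exact one_le_pow₀ (by linarith [abs_nonneg t]))
      ((1 / 2 + η / 2) * Λ) B (by positivity) hB1 (fun τ _ _ => m1 τ)
      (fun τ _ => (m1' τ).trans (by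
        have : 0 < X * Λ := by positivity
        linarith))
    refine g1.trans ?_
    have g3 : (1 / 2 + η / 2) * Λ + B ≤ (X + 4) * Λ := by
      have : (1 / 2 + η / 2) * Λ ≤ 1 * Λ := by
        gcongr; linarith
      linarith
    have g2 : Cu * ((1 / 2 + η / 2) * Λ + B) / Real.log T ≤ η / 8 * Λ := by
      calc Cu * ((1 / 2 + η / 2) * Λ + B) / Real.log T ≤ Cu * ((X + 4) * Λ) / Real.log T := by gcongr
        _ = Cu * (X + 4) / Real.log T * Λ := by ring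
        _ ≤ _ := by gcongr
    have : 0 < η * Λ := by positivity
    linarith
  -- H3
  have c3 : Continuous (fun t : ℝ => FF (1 / 2 + t * I) * (SH η T (fs (1 / 2 + t * I))) ^ 2 *
      (NN T M (k - 1) (fs (1 / 2 + t * I)) *
        (starRingEnd ℂ) (NN T M (k - 1) (fs (1 / 2 + t * I))))) :=
    (cχ.mul (cS.pow 2)).mul (cN.mul (continuous_conj.comp cN))
  have H3 : ‖∫ t : ℝ, FF (1 / 2 + t * I) * (SH η T (fs (1 / 2 + t * I))) ^ 2 *
      (NN T M (k - 1) (fs (1 / 2 + t * I)) *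
        (starRingEnd ℂ) (NN T M (k - 1) (fs (1 / 2 + t * I)))) ∂(AV T)‖ ≤ η * Λ := by
    have e3 : ∀ t : ℝ, ‖FF (1 / 2 + t * I) * (SH η T (fs (1 / 2 + t * I))) ^ 2 *
      (NN T M (k - 1) (fs (1 / 2 + t * I)) *
        (starRingEnd ℂ) (NN T M (k - 1) (fs (1 / 2 + t * I))))‖ =
        ‖SH η T (fs (1 / 2 + t * I))‖ ^ 2 * ‖NN T M (k - 1) (fs (1 / 2 + t * I))‖ ^ 2 := by
      intro t
      rw [norm_mul, norm_mul, norm_mul, RCLike.norm_conj, norm_pow, FF_half']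
      ring
    have g1 := avg _ c3 (fun t => by
        rw [e3]
        calc ‖SH η T (fs (1 / 2 + t * I))‖ ^ 2 * ‖NN T M (k - 1) (fs (1 / 2 + t * I))‖ ^ 2
            ≤ T ^ 2 * T := mul_le_mul (pow_le_pow_left₀ (norm_nonneg _) (bS t) 2) (hnN2 t)
              (by positivity) (by positivity)
          _ = T ^ 3 * 1 := by ring
          _ ≤ T ^ 4 * (1 + |t|) ^ 4 := by
              gcongr
              · exact hT1.le
              · norm_num
              · exact one_le_pow₀ (by linarith [abs_nonneg t])) 0 (T ^ (-κ₂)) B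
      (Real.rpow_nonneg hT0.le _) hB1 (fun τ hτ1 hτ2 => by
        rw [sub_zero]; exact cross τ hτ1 hτ2)
      (fun τ _ => by
        simp only [e3]
        refine (m1' τ).trans ?_
        have : 0 < X * Λ := by positivity
        linarith)
    rw [convc_aux hT0]
    rw [sub_zero, norm_zero, zero_add] at g1
    refine g1.trans ?_
    have g2 : Ca * B / Real.log T ≤ η / 8 * Λ := by
      calc Ca * B / Real.log T ≤ Ca * ((X + 4) * Λ) / Real.log T := by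
            gcongr; linarith
        _ = Ca * (X + 4) / Real.log T * Λ := by ring
        _ ≤ _ := by gcongr
    have : η / 2 * 1 ≤ η / 2 * Λ := by gcongr
    have : 0 < η * Λ := by positivity
    linarith
  -- H4
  have H4 : 16 * ∫ t : ℝ, ‖SH η T (fs (1 / 2 + t * I))‖ ^ 4 *
      ‖NN T M (k - 1) (fs (1 / 2 + t * I))‖ ^ 2 * ‖NN T M (-1) (fs (1 / 2 + t * I))‖ ^ 2 ∂(AV T) ≤
      C₅ * Λ := by
    rw [integral_AV hT0, smul_eq_mul]
    calc _ ≤ 16 * (C₄ * Λ) := by gcongr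
      _ = (16 * C₄) * Λ := by ring
      _ ≤ _ := by gcongr
  -- H5
  set W := T ^ (-κ) + 2 * (Cu * (X + 4) / Real.log T) with hW
  have hW0 : 0 < W := by positivity
  set q : ℕ → ℝ := fun v => X * Real.exp (-(1 / 4 * KK M (JJ T) v)) + √W with hq
  have hss : ∀ v, ss M (JJ T) v = Real.exp (-(1 / 4 * KK M (JJ T) v)) ^ 2 := by
    intro v
    rw [ss, ← Real.exp_nat_mul]; congr 1; push_cast; ring
  have hss0 : ∀ v, 0 < ss M (JJ T) v := fun v => Real.exp_pos _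
  have hss1 : ∀ v, ss M (JJ T) v ≤ 1 := by
    intro v
    rw [ss, Real.exp_le_one_iff]
    have : 0 < KK M (JJ T) v := Real.exp_pos _
    linarith
  have H5 : ∀ v ∈ R, ∫ t : ℝ, ‖riemannZeta (1 / 2 + t * I)‖ ^ 2 *
      (‖NN T M (k - 1) (fs (1 / 2 + t * I))‖ * Qb T M v (fs (1 / 2 + t * I))) ^ 2 ∂(AV T) ≤
      (q v) ^ 2 * Λ := by
    intro v hv
    obtain ⟨cA, bA⟩ := dp_half (hN (k - 1) hα R {v})
    have hA2 : ∀ t : ℝ, ‖AA T M (JJ T) (k - 1) R {v} (fs (1 / 2 + t * I))‖ ^ 2 ≤ T := fun t =>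
      le_trans (pow_le_pow_left₀ (norm_nonneg _) (bA t) 2) hT14
    have e5 : ∀ t : ℝ, ‖NN T M (k - 1) (fs (1 / 2 + t * I))‖ * Qb T M v (fs (1 / 2 + t * I)) =
        ‖AA T M (JJ T) (k - 1) R {v} (fs (1 / 2 + t * I))‖ := fun t => (norm_NN_bad hv _).symm
    simp only [e5]
    rw [integral_AV hT0, smul_eq_mul]
    have hc : ∀ τ : ℝ, |τ| ≤ 2 * T → EG T τ (fun t => ‖riemannZeta (1 / 2 + t * I)‖ ^ 2 *
        ‖AA T M (JJ T) (k - 1) R {v} (fs (1 / 2 + t * I))‖ ^ 2) ≤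
        X * Λ * ss M (JJ T) v + T ^ (-κ) := by
      intro τ hτ
      have := crude τ hτ R {v} (by
        rw [Finset.union_eq_left]; exact Finset.singleton_subset_iff.2 hv)
      rwa [Finset.prod_singleton] at this
    have hDv0 : 0 ≤ X * Λ * ss M (JJ T) v + T ^ (-κ) := by
      have := hss0 v
      positivity
    have hDvB : X * Λ * ss M (JJ T) v + T ^ (-κ) ≤ X * Λ + Λ := by
      have h1 : X * Λ * ss M (JJ T) v ≤ X * Λ * 1 := by
        have := hss1 v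
        gcongr
      linarith
    have g1 := avgu (fun t : ℝ => ‖riemannZeta (1 / 2 + t * I)‖ ^ 2 *
        ‖AA T M (JJ T) (k - 1) R {v} (fs (1 / 2 + t * I))‖ ^ 2)
      ((cz.norm.pow 2).mul (cA.norm.pow 2)) (fun t => by positivity) (fun t => by
        calc ‖riemannZeta (1 / 2 + t * I)‖ ^ 2 *
            ‖AA T M (JJ T) (k - 1) R {v} (fs (1 / 2 + t * I))‖ ^ 2
            ≤ (Cz * (1 + |t|) ^ 2) ^ 2 * T := by
              have := hzb t
              have := hA2 t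
              gcongr
          _ = Cz ^ 2 * T * (1 + |t|) ^ 4 := by ring
          _ ≤ T * T * (1 + |t|) ^ 4 := by gcongr
          _ = T ^ 2 * (1 + |t|) ^ 4 := by ring
          _ ≤ T ^ 4 * (1 + |t|) ^ 4 := by
              gcongr
              · exact hT1.le
              · norm_num)
      (X * Λ * ss M (JJ T) v + T ^ (-κ)) B hDv0 hB1 (fun τ _ hτ => hc τ (by linarith))
      (fun τ hτ => (hc τ (by linarith)).trans (by linarith))
    refine g1.trans ?_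
    have g2 : Cu * (X * Λ * ss M (JJ T) v + T ^ (-κ) + B) / Real.log T ≤
        2 * (Cu * (X + 4) / Real.log T) * Λ := by
      calc Cu * (X * Λ * ss M (JJ T) v + T ^ (-κ) + B) / Real.log T
          ≤ Cu * (2 * ((X + 4) * Λ)) / Real.log T := by
            gcongr
            have : 0 < X * Λ := by positivity
            linarith
        _ = _ := by ring
    have g3 : T ^ (-κ) ≤ T ^ (-κ) * Λ := le_mul_of_one_le_right hTk0.le hΛ1
    have g4 : X * ss M (JJ T) v + W ≤ (q v) ^ 2 := by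
      rw [hss v]
      set x := Real.exp (-(1 / 4 * KK M (JJ T) v)) with hx
      have hx0 : 0 < x := Real.exp_pos _
      have h1 : (q v) ^ 2 = X ^ 2 * x ^ 2 + 2 * (X * x * √W) + W := by
        simp only [hq]
        rw [← hx]
        have := Real.sq_sqrt hW0.le
        linear_combination this
      have h2 : X * x ^ 2 ≤ X ^ 2 * x ^ 2 := by
        have : X ≤ X ^ 2 := le_self_pow₀ hX1 (by norm_num)
        gcongr
      have h3 : 0 ≤ X * x * √W := by positivity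
      linarith
    calc X * Λ * ss M (JJ T) v + T ^ (-κ) +
          Cu * (X * Λ * ss M (JJ T) v + T ^ (-κ) + B) / Real.log T
        ≤ X * Λ * ss M (JJ T) v + T ^ (-κ) * Λ + 2 * (Cu * (X + 4) / Real.log T) * Λ := by linarith
      _ = (X * ss M (JJ T) v + W) * Λ := by rw [hW]; ring
      _ ≤ _ := by gcongr
  -- sums over the blocks
  set E := Real.exp (3 / 4 * (M : ℝ)) with hEd
  have hE4 : 4 ≤ E := by
    have := Real.add_one_le_exp (3 / 4 * (M : ℝ))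
    linarith
  have s1 : ∑ j ∈ R, Real.exp (-KK M (JJ T) j) ≤ 2 * Real.exp (-E) := by
    have h1 := sum_exp_KK (M := M) (J := JJ T) (a := 1) (by rw [one_mul]; linarith) one_pos
    simp only [one_mul] at h1
    exact h1
  have s3 : ∑ j ∈ R, Real.exp (-(1 / 4 * KK M (JJ T) j)) ≤ 2 * Real.exp (-(1 / 4 * E)) :=
    sum_exp_KK (M := M) (J := JJ T) (a := 1 / 4) (by linarith) (by norm_num)
  set w := Real.exp (Cc * M - 1 / 4 * E) with hwd
  have hw0 : 0 < w := Real.exp_pos _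
  have w1 : Real.exp (-E) ≤ w := by
    rw [hwd]; apply Real.exp_le_exp.2
    have : 0 < Cc * M := by positivity
    linarith
  have w3 : X * Real.exp (-(1 / 4 * E)) = w := by
    rw [hX, ← Real.exp_add, hwd, sub_eq_add_neg]
  have hqs : ∑ v ∈ R, q v ≤ η / 2 := by
    simp only [hq]
    rw [Finset.sum_add_distrib, ← Finset.mul_sum, Finset.sum_const, nsmul_eq_mul, hR,
      Finset.card_range]
    have h1 : X * ∑ j ∈ Finset.range (JJ T + 1), Real.exp (-(1 / 4 * KK M (JJ T) j)) ≤ 2 * w := by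
      calc X * ∑ j ∈ Finset.range (JJ T + 1), Real.exp (-(1 / 4 * KK M (JJ T) j))
          ≤ X * (2 * Real.exp (-(1 / 4 * E))) := by gcongr
        _ = 2 * (X * Real.exp (-(1 / 4 * E))) := by ring
        _ = 2 * w := by rw [w3]
    have h2 : ((JJ T + 1 : ℕ) : ℝ) * √W ≤ η / 4 := by
      apply le_of_sq_le_sq _ (by positivity)
      rw [mul_pow, Real.sq_sqrt hW0.le]
      push_cast
      exact n7
    linarith
  have key := core (T := T) hT0 (z := fun t => riemannZeta (1 / 2 + t * I))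
    (χ := fun t => FF (1 / 2 + t * I)) (S := fun t => SH η T (fs (1 / 2 + t * I)))
    (N := fun t => NN T M (k - 1) (fs (1 / 2 + t * I)))
    (N1 := fun t => NN T M (-1) (fs (1 / 2 + t * I)))
    (Q := fun v t => Qb T M v (fs (1 / 2 + t * I))) (R := R) (q := q)
    cz cχ cS cN cN1 (fun v => cont_Qb hT1 M v) FF_half' conj_zeta_half (fun v t => norm_nonneg _)
    (k := k) (η := η) (e := 16 * w) (C₅ := C₅) (Λ := Λ) hk hk1 hη0 hη (by positivity)
    (by nlinarith) hΛ0 hC5 n10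
    (fun t => good_or_bad (by linarith) hk1 (by linarith) (by linarith) _)
    H1 H2 H3 H4 (fun v _ => by positivity) H5 hqs
  rw [integral_AV hT0, smul_eq_mul] at key
  exact key


lemma exists_kc {C η : ℝ} (hC : 1 ≤ C) (hη : 0 < η) : ∃ kc : ℝ, 3 / 4 ≤ kc ∧ kc < 1 ∧
    ∀ k, kc ≤ k → k ≤ 1 → C ^ ((1 - k) / (2 * k)) ≤ 1 + η := by
  have hlC : 0 ≤ Real.log C := Real.log_nonneg hC
  have hlη : 0 < Real.log (1 + η) := Real.log_pos (by linarith)
  set x₀ := Real.log (1 + η) / (Real.log C + 1) with hx₀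
  have hx0 : 0 < x₀ := by positivity
  refine ⟨max (3 / 4) (1 - x₀), le_max_left _ _, max_lt (by norm_num) (by linarith),
    fun k hk hk1 => ?_⟩
  have hk34 : 3 / 4 ≤ k := (le_max_left _ _).trans hk
  have hkx : 1 - x₀ ≤ k := (le_max_right _ _).trans hk
  have h1 : (1 - k) / (2 * k) ≤ x₀ := by
    calc (1 - k) / (2 * k) ≤ 1 - k := by
          apply div_le_self (by linarith) (by linarith)
      _ ≤ x₀ := by linarith
  have h2 : x₀ * Real.log C ≤ Real.log (1 + η) := by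
    calc x₀ * Real.log C ≤ x₀ * (Real.log C + 1) := by
          gcongr; linarith
      _ = Real.log (1 + η) := by rw [hx₀]; field_simp
  calc C ^ ((1 - k) / (2 * k)) ≤ C ^ x₀ := Real.rpow_le_rpow_of_exponent_le hC h1
    _ = Real.exp (x₀ * Real.log C) := by
        rw [Real.rpow_def_of_pos (by linarith), mul_comm]
    _ ≤ Real.exp (Real.log (1 + η)) := Real.exp_le_exp.2 h2
    _ = 1 + η := Real.exp_log (by linarith)

end Lower

open Lower in
theorem stLower (h13 : StShort) (h14 : StCrude) (h17a : StSHZeta) (h17b : StSHSq) (h18 : StCross)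
    (h19 : StFourth) (h20 : StTransferZeta) (h21 : StAvg) (h21' : StAvgUp) : StLower := by
  intro ε hε
  set η : ℝ := min ε (1 / 2) / 100 with hηd
  have hη0 : 0 < η := by
    have : 0 < min ε (1 / 2) := lt_min hε (by norm_num)
    positivity
  have hη1 : η ≤ 1 / 200 := by
    have := min_le_right ε (1 / 2)
    rw [hηd]; linarith
  have hηε : 100 * η ≤ ε := by
    have := min_le_left ε (1 / 2)
    rw [hηd]; linarith
  obtain ⟨θ₀, κ₂, Tc, hθ₀, hκ₂, hTc, hcross⟩ := h18 η hη0 (by linarith)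
  have hθ : 0 < min θ₀ (1 / 4) := lt_min hθ₀ (by norm_num)
  obtain ⟨Ma, hMa⟩ := h13 (min θ₀ (1 / 4)) hθ
  obtain ⟨Cc, κ, hCc, hκ, Mb, hMb⟩ := h14
  obtain ⟨Md, hMd⟩ := h17a η η hη0 (by linarith) hη0
  obtain ⟨Me, hMe⟩ := h17b η (η / 4) hη0 (by linarith) (by positivity)
  obtain ⟨Mf, hMf⟩ := h19 η hη0 (by linarith)
  obtain ⟨M, ⟨⟨⟨⟨⟨⟨m1, m2⟩, m3⟩, m4⟩, m5⟩, m6⟩, m7⟩⟩ :=
    (((((((eventually_ge_atTop Ma).and (eventually_ge_atTop Mb)).and (eventually_ge_atTop Md)).and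
      (eventually_ge_atTop Me)).and (eventually_ge_atTop Mf)).and (eventually_ge_atTop 4)).and
      (ev_M Cc (η / 64) (by positivity))).exists
  obtain ⟨T1, -, short⟩ := hMa M m1
  obtain ⟨T2, -, crude⟩ := hMb M m2
  obtain ⟨ka, -, hka1, T3, -, shz⟩ := hMd M m3
  obtain ⟨kb, -, hkb1, T4, -, shs⟩ := hMe M m4
  obtain ⟨C4, T5, hC4, -, fourth⟩ := hMf M m5
  obtain ⟨T6, -, tz⟩ := h20
  obtain ⟨Ca, T7, hCa, -, avg⟩ := h21
  obtain ⟨Cu, T8, hCu, -, avgu⟩ := h21'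
  obtain ⟨Cz, hCz, hzb⟩ := zeta_poly_half
  obtain ⟨kc, hkc, hkc1, hC5⟩ := exists_kc (C := 16 * C4 + 1) (η := η) (by linarith) hη0
  have hTn2 : ∀ᶠ T : ℝ in atTop, T ^ (-2 : ℝ) ≤ η / 8 :=
    (tendsto_rpow_neg_atTop (show (0 : ℝ) < 2 by norm_num)).eventually
      (eventually_le_nhds (show (0 : ℝ) < η / 8 by positivity))
  have hTn6 : ∀ᶠ T : ℝ in atTop, T ^ (-κ₂) ≤ η / 2 :=
    (tendsto_rpow_neg_atTop hκ₂).eventually
      (eventually_le_nhds (show (0 : ℝ) < η / 2 by positivity))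
  set X := Real.exp (Cc * M) with hX
  have hX0 : 0 < X := Real.exp_pos _
  have hev : ∀ᶠ T : ℝ in atTop, ∀ k : ℝ, max (max ka kb) kc ≤ k → k ≤ 1 →
      (1 - ε) * (Real.log T) ^ (k ^ 2) ≤
        T⁻¹ * ∫ t in (0 : ℝ)..T, ‖riemannZeta (1 / 2 + t * I)‖ ^ (2 * k) := by
    filter_upwards [eventually_ge_atTop T1, eventually_ge_atTop T2, eventually_ge_atTop T3,
      eventually_ge_atTop T4, eventually_ge_atTop T5, eventually_ge_atTop T6, eventually_ge_atTop T7,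
      eventually_ge_atTop T8, eventually_ge_atTop Tc, eventually_ge_atTop 3,
      eventually_ge_atTop ((max Cz 1) ^ 2), ev_exp (η / 4) (by positivity), hTn2, hTn6,
      Real.tendsto_log_atTop.eventually_ge_atTop (1 / η),
      ev_div_log (Ca * (X + 4)) (η / 8) (by positivity),
      ev_div_log (Cu * (X + 4)) (η / 8) (by positivity), ev_neg_pow hκ one_pos,
      ev_JJ (1 + 2 * (Cu * (X + 4))) ((η / 4) ^ 2) (by positivity) (by positivity)]
      with T t1 t2 t3 t4 t5 t6 t7 t8 tc t33 tz9 n2 n5 n6 n1 n3 n4 n7a n7b k hk hk1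
    have hka : ka ≤ k := (le_max_left _ _).trans ((le_max_left _ _).trans hk)
    have hkb : kb ≤ k := (le_max_right _ _).trans ((le_max_left _ _).trans hk)
    have hkc' : kc ≤ k := (le_max_right _ _).trans hk
    have hk34 : 3 / 4 ≤ k := hkc.trans hkc'
    have hT1 : 1 < T := by linarith
    have hT0 : 0 < T := by linarith
    have hL : 0 < Real.log T := Real.log_pos hT1
    have hα : |k - 1| ≤ 1 := by rw [abs_le]; constructor <;> linarith
    have hN : ∀ α : ℝ, |α| ≤ 1 → ∀ g h : Finset ℕ,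
        DP (T ^ (min θ₀ (1 / 4))) (T ^ (min θ₀ (1 / 4))) (AA T M (JJ T) α g h) := short T t1
    have hN4 : ∀ α : ℝ, |α| ≤ 1 → ∀ g h : Finset ℕ,
        DP (T ^ (1 / 4 : ℝ)) (T ^ (1 / 4 : ℝ)) (AA T M (JJ T) α g h) := by
      intro α hα g h
      have h1 : T ^ (min θ₀ (1 / 4)) ≤ T ^ (1 / 4 : ℝ) :=
        Real.rpow_le_rpow_of_exponent_le hT1.le (min_le_right _ _)
      exact (hN α hα g h).mono h1 h1
    have hNθ : DP (T ^ θ₀) (T ^ θ₀) (NN T M (k - 1)) := by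
      have h1 : T ^ (min θ₀ (1 / 4)) ≤ T ^ θ₀ :=
        Real.rpow_le_rpow_of_exponent_le hT1.le (min_le_left _ _)
      exact (hN (k - 1) hα _ _).mono h1 h1
    have n1' : 1 ≤ η * Real.log T := by
      rw [div_le_iff₀ hη0] at n1
      linarith
    have n7 : ((JJ T : ℝ) + 1) ^ 2 * (T ^ (-κ) + 2 * (Cu * (X + 4) / Real.log T)) ≤
        (η / 4) ^ 2 := by
      refine le_trans ?_ n7b
      have h1 : T ^ (-κ) + 2 * (Cu * (X + 4) / Real.log T) ≤
          (1 + 2 * (Cu * (X + 4))) / Real.log T := by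
        have e1 : (1 + 2 * (Cu * (X + 4))) / Real.log T =
            1 / Real.log T + 2 * (Cu * (X + 4) / Real.log T) := by ring
        rw [e1]
        linarith
      gcongr
    have key := fixed (η := η) (T := T) (k := k) (Cc := Cc) (κ := κ) (κ₂ := κ₂) (C₄ := C4)
      (C₅ := 16 * C4 + 1) (Ca := Ca) (Cu := Cu) (Cz := max Cz 1) (M := M) hη0 hη1 t33 hk34 hk1 m6
      hCc hκ hCa hCu hN4 (fun τ hτ g h hgh => (crude T t2 τ hτ k (by linarith) hk1 g h hgh).1)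
      (shz T t3 k hka hk1) (shs T t4 k hkb hk1)
      (fun τ hτ1 hτ2 => hcross T tc τ hτ1 hτ2 _ hNθ) (fourth T t5 k (by linarith) hk1)
      (fun τ hτ1 hτ2 => tz T t6 τ hτ1 hτ2) (avg T t7) (avgu T t8) n1' n2 n3 n4 n5 n6 n7 m7
      (fun t => (hzb t).trans (by
        have := le_max_left Cz 1
        gcongr)) (le_max_right _ _) tz9 (by positivity) (by linarith) (hC5 k hkc' hk1)
    refine le_trans ?_ key
    have : 0 ≤ (Real.log T) ^ (k ^ 2) := Real.rpow_nonneg hL.le _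
    apply mul_le_mul_of_nonneg_right _ this
    linarith
  obtain ⟨T0, hT0⟩ := eventually_atTop.mp hev
  refine ⟨max (max ka kb) kc, ?_, max_lt (max_lt hka1 hkb1) hkc1, max T0 3, le_max_right _ _,
    fun T hT k hk hk1 => hT0 T ((le_max_left _ _).trans hT) k hk hk1⟩
  have : kc ≤ max (max ka kb) kc := le_max_right _ _
  linarith

end K1
end Pool.Agent.Lib.MP_973905_nt
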