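import Pool.Agent.Lib.MP_973905_nt.K1.Stmts

/-! Module (1): the pair of functional equation factors. -/

namespace Pool.Agent.Lib.MP_973905_nt
namespace K1
namespace FFpair

open Complex Filter Topology Finset

/-! ### Real sums -/

lemma sum_inv_le {T : ℝ} (hT : 1 ≤ T) (n : ℕ) :
    ∑ m ∈ range (n + 1), 1 / (((m : ℝ) + 1 / 2) ^ 2 + T ^ 2) ≤ 2 / T := by
  have h1 : ∀ m : ℕ, 1 / (((m : ℝ) + 1 / 2) ^ 2 + T ^ 2) ≤ 2 / ((m : ℝ) + T) - 2 / ((m : ℝ) + 1 + T) := by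
    intro m
    have hm : (0 : ℝ) ≤ m := Nat.cast_nonneg m
    have e : 2 / ((m : ℝ) + T) - 2 / ((m : ℝ) + 1 + T) = 2 / (((m : ℝ) + T) * ((m : ℝ) + 1 + T)) := by
      have h1 : (m : ℝ) + T ≠ 0 := by positivity
      have h2 : (m : ℝ) + 1 + T ≠ 0 := by positivity
      field_simp
      ring
    rw [e, div_le_div_iff₀ (by positivity) (by positivity)]
    nlinarith [sq_nonneg ((m : ℝ) + 1 / 2 - T)]
  calc ∑ m ∈ range (n + 1), 1 / (((m : ℝ) + 1 / 2) ^ 2 + T ^ 2)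
      ≤ ∑ m ∈ range (n + 1), (2 / ((m : ℝ) + T) - 2 / ((m : ℝ) + 1 + T)) :=
        sum_le_sum fun m _ => h1 m
    _ = 2 / (((0 : ℕ) : ℝ) + T) - 2 / (((n + 1 : ℕ) : ℝ) + T) := by
        have := Finset.sum_range_sub' (fun m : ℕ => 2 / ((m : ℝ) + T)) (n + 1)
        rw [← this]
        refine sum_congr rfl fun m _ => ?_
        push_cast
        rfl
    _ ≤ 2 / T := by
        have : 0 ≤ 2 / (((n + 1 : ℕ) : ℝ) + T) := by positivity
        rw [Nat.cast_zero, zero_add]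
        linarith

lemma step_le {T : ℝ} (hT : 1 ≤ T) (m : ℕ) :
    |(2 * (m : ℝ) + 1) / (((m : ℝ) + 1 / 2) ^ 2 + T ^ 2) -
      (Real.log (((m + 1 : ℕ) : ℝ) ^ 2 + T ^ 2) - Real.log ((m : ℝ) ^ 2 + T ^ 2))| ≤
      32 * (1 / (((m : ℝ) + 1 / 2) ^ 2 + T ^ 2)) := by
  have hm : (0 : ℝ) ≤ m := Nat.cast_nonneg m
  set A : ℝ := (m : ℝ) ^ 2 + T ^ 2 with hA
  have hA1 : 1 ≤ A := by nlinarith [sq_nonneg (m : ℝ)]
  have hA0 : 0 < A := by linarith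
  set B : ℝ := ((m : ℝ) + 1 / 2) ^ 2 + T ^ 2 with hB
  have hBA : B = A + m + 1 / 4 := by rw [hA, hB]; ring
  have hB0 : 0 < B := by linarith
  have hB2 : B ≤ 2 * A := by
    rw [hBA]; nlinarith [sq_nonneg ((m : ℝ) - 1 / 2)]
  set w : ℝ := (2 * (m : ℝ) + 1) / A with hw
  have hw0 : 0 ≤ w := by positivity
  have e1 : Real.log (((m + 1 : ℕ) : ℝ) ^ 2 + T ^ 2) - Real.log A = Real.log (1 + w) := by
    rw [← Real.log_div (by positivity) hA0.ne']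
    congr 1
    rw [hw, eq_comm, ← sub_eq_zero]
    push_cast
    field_simp
    rw [hA]; ring
  rw [e1]
  have h1 : Real.log (1 + w) ≤ w := by
    have := Real.log_le_sub_one_of_pos (show 0 < 1 + w by linarith)
    linarith
  have h2 := Real.le_log_one_add_of_nonneg hw0
  have h3 : w - w ^ 2 / 2 ≤ 2 * w / (w + 2) := by
    rw [le_div_iff₀ (by linarith)]
    nlinarith [mul_nonneg hw0 hw0, mul_nonneg (mul_nonneg hw0 hw0) hw0]
  have h4 : w ^ 2 ≤ 8 / A := by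
    rw [hw, div_pow, div_le_div_iff₀ (by positivity) hA0]
    have : (2 * (m : ℝ) + 1) ^ 2 ≤ 8 * A := by
      rw [hA]
      nlinarith [sq_nonneg ((m : ℝ) - 1 / 2)]
    nlinarith
  have h5 : (2 * (m : ℝ) + 1) / B ≤ w := by
    rw [hw]
    have : A ≤ B := by rw [hBA]; linarith
    gcongr
  have h6 : w - (2 * (m : ℝ) + 1) / B ≤ 8 / A := by
    have : w - (2 * (m : ℝ) + 1) / B = (2 * (m : ℝ) + 1) * (m + 1 / 4) / (A * B) := by
      rw [hw]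
      field_simp
      rw [hBA]; ring
    rw [this, div_le_div_iff₀ (by positivity) hA0]
    have h7 : (2 * (m : ℝ) + 1) * (m + 1 / 4) ≤ 8 * B := by
      rw [hB]; nlinarith
    nlinarith
  have h8 : 1 / A ≤ 2 * (1 / B) := by
    rw [mul_one_div, div_le_div_iff₀ hA0 hB0]
    linarith
  have h9 : 8 / A ≤ 16 * (1 / B) := by
    have : 8 / A = 8 * (1 / A) := by ring
    rw [this]; linarith
  rw [abs_le]
  constructor
  · linarith
  · linarith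

lemma sum_log {T : ℝ} (hT : 1 ≤ T) (n : ℕ) :
    |∑ m ∈ range (n + 1), (2 * (m : ℝ) + 1) / (((m : ℝ) + 1 / 2) ^ 2 + T ^ 2) -
      (Real.log (((n + 1 : ℕ) : ℝ) ^ 2 + T ^ 2) - Real.log (T ^ 2))| ≤ 64 / T := by
  have e : Real.log (((n + 1 : ℕ) : ℝ) ^ 2 + T ^ 2) - Real.log (T ^ 2) =
      ∑ m ∈ range (n + 1), (Real.log (((m + 1 : ℕ) : ℝ) ^ 2 + T ^ 2) -
        Real.log ((m : ℝ) ^ 2 + T ^ 2)) := by
    have := Finset.sum_range_sub (fun m : ℕ => Real.log ((m : ℝ) ^ 2 + T ^ 2)) (n + 1)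
    rw [this]
    simp
  rw [e, ← sum_sub_distrib]
  calc |∑ m ∈ range (n + 1), ((2 * (m : ℝ) + 1) / (((m : ℝ) + 1 / 2) ^ 2 + T ^ 2) -
        (Real.log (((m + 1 : ℕ) : ℝ) ^ 2 + T ^ 2) - Real.log ((m : ℝ) ^ 2 + T ^ 2)))|
      ≤ ∑ m ∈ range (n + 1), |(2 * (m : ℝ) + 1) / (((m : ℝ) + 1 / 2) ^ 2 + T ^ 2) -
        (Real.log (((m + 1 : ℕ) : ℝ) ^ 2 + T ^ 2) - Real.log ((m : ℝ) ^ 2 + T ^ 2))| :=
        abs_sum_le_sum_abs _ _
    _ ≤ ∑ m ∈ range (n + 1), 32 * (1 / (((m : ℝ) + 1 / 2) ^ 2 + T ^ 2)) :=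
        sum_le_sum fun m _ => step_le hT m
    _ = 32 * ∑ m ∈ range (n + 1), 1 / (((m : ℝ) + 1 / 2) ^ 2 + T ^ 2) := by rw [mul_sum]
    _ ≤ 32 * (2 / T) := by gcongr; exact sum_inv_le hT n
    _ = 64 / T := by ring

/-! ### The factors -/

/-- The relative perturbation of the `m`-th factor. -/
noncomputable def zz (b : ℂ) (T : ℝ) (m : ℕ) : ℂ :=
  (2 * b * (m + 1 / 2) + b ^ 2) / ((((m : ℝ) + 1 / 2) ^ 2 + T ^ 2 : ℝ) : ℂ)

lemma zz_norm {b : ℂ} {T : ℝ} (hT : 1 ≤ T) (m : ℕ) :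
    ‖zz b T m‖ ≤ (2 * ‖b‖ * (m + 1 / 2) + ‖b‖ ^ 2) / (((m : ℝ) + 1 / 2) ^ 2 + T ^ 2) := by
  have hm : (0 : ℝ) ≤ m := Nat.cast_nonneg m
  have hpos : 0 < ((m : ℝ) + 1 / 2) ^ 2 + T ^ 2 := by positivity
  rw [zz, norm_div, norm_real, Real.norm_eq_abs, abs_of_pos hpos]
  gcongr
  refine (norm_add_le _ _).trans ?_
  rw [norm_mul, norm_mul, norm_pow]
  have h1 : ‖(2 : ℂ)‖ = 2 := by simp
  have h2 : ‖((m : ℂ) + 1 / 2)‖ = m + 1 / 2 := by
    have : ((m : ℂ) + 1 / 2) = (((m : ℝ) + 1 / 2 : ℝ) : ℂ) := by push_cast; rfl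
    rw [this, norm_real, Real.norm_eq_abs, abs_of_nonneg (by positivity)]
  rw [h1, h2]

lemma zz_small {b : ℂ} {T : ℝ} (hT : 4 * (1 + ‖b‖) ^ 2 ≤ T) (m : ℕ) : ‖zz b T m‖ ≤ 1 / 2 := by
  have hb := norm_nonneg b
  have hT1 : 4 ≤ T := by nlinarith
  refine (zz_norm (by linarith) m).trans ?_
  have hm : (0 : ℝ) ≤ m := Nat.cast_nonneg m
  rw [div_le_iff₀ (by positivity)]
  have h1 : 2 * ‖b‖ * (m + 1 / 2) ≤ (((m : ℝ) + 1 / 2) ^ 2 + T ^ 2) / 4 := by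
    have h2 : 4 * ‖b‖ ≤ T := by nlinarith
    nlinarith [sq_nonneg ((m : ℝ) + 1 / 2 - T), mul_nonneg hb (show (0 : ℝ) ≤ m + 1 / 2 by positivity)]
  have h2 : ‖b‖ ^ 2 ≤ T ^ 2 / 4 := by
    have : 2 * ‖b‖ ≤ T := by nlinarith
    nlinarith
  nlinarith [sq_nonneg ((m : ℝ) + 1 / 2)]

lemma zz_sq {b : ℂ} {T : ℝ} (hT : 4 * (1 + ‖b‖) ^ 2 ≤ T) (m : ℕ) :
    ‖zz b T m‖ ^ 2 ≤ 10 * ‖b‖ ^ 2 * (1 / (((m : ℝ) + 1 / 2) ^ 2 + T ^ 2)) := by
  have hb := norm_nonneg b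
  have hT1 : 4 ≤ T := by nlinarith
  have hm : (0 : ℝ) ≤ m := Nat.cast_nonneg m
  set a : ℝ := ((m : ℝ) + 1 / 2) ^ 2 + T ^ 2 with ha
  have ha0 : 0 < a := by positivity
  have h1 := zz_norm (b := b) (T := T) (by linarith) m
  rw [← ha] at h1
  have h2 : ‖zz b T m‖ ^ 2 ≤ ((2 * ‖b‖ * (m + 1 / 2) + ‖b‖ ^ 2) / a) ^ 2 :=
    pow_le_pow_left₀ (norm_nonneg _) h1 2
  refine h2.trans ?_
  rw [div_pow, mul_one_div, div_le_div_iff₀ (by positivity) ha0]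
  have h3 : (2 * ‖b‖ * (m + 1 / 2) + ‖b‖ ^ 2) ^ 2 ≤ 10 * ‖b‖ ^ 2 * a := by
    have h4 : (2 * ((m : ℝ) + 1 / 2) + ‖b‖) ^ 2 ≤ 10 * a := by
      have h5 : ‖b‖ ≤ T := by nlinarith
      have h6 : ‖b‖ ^ 2 ≤ T ^ 2 := by nlinarith
      rw [ha]
      nlinarith [sq_nonneg (2 * ((m : ℝ) + 1 / 2) - ‖b‖), sq_nonneg ((m : ℝ) + 1 / 2)]
    calc (2 * ‖b‖ * (m + 1 / 2) + ‖b‖ ^ 2) ^ 2 = ‖b‖ ^ 2 * (2 * ((m : ℝ) + 1 / 2) + ‖b‖) ^ 2 := by ring
      _ ≤ ‖b‖ ^ 2 * (10 * a) := by gcongr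
      _ = _ := by ring
  calc (2 * ‖b‖ * (m + 1 / 2) + ‖b‖ ^ 2) ^ 2 * a ≤ (10 * ‖b‖ ^ 2 * a) * a := by gcongr
    _ = 10 * ‖b‖ ^ 2 * a ^ 2 := by ring

/-- the exponent -/
noncomputable def EE (b : ℂ) (T : ℝ) (n : ℕ) : ℂ :=
  2 * b * (Real.log n - Real.log T : ℝ) - ∑ m ∈ range (n + 1), log (1 + zz b T m)

lemma EE_bound {b : ℂ} {T : ℝ} (hT : 4 * (1 + ‖b‖) ^ 2 ≤ T) (n : ℕ) :
    ‖EE b T n‖ ≤ 90 * (1 + ‖b‖) ^ 2 / T +
      ‖b‖ * |2 * Real.log n - Real.log (((n + 1 : ℕ) : ℝ) ^ 2 + T ^ 2)| := by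
  have hb := norm_nonneg b
  have hT1 : 4 ≤ T := by nlinarith
  have hT0 : 0 < T := by linarith
  have h1 : ‖∑ m ∈ range (n + 1), (log (1 + zz b T m) - zz b T m)‖ ≤ 20 * ‖b‖ ^ 2 / T := by
    calc ‖∑ m ∈ range (n + 1), (log (1 + zz b T m) - zz b T m)‖
        ≤ ∑ m ∈ range (n + 1), ‖log (1 + zz b T m) - zz b T m‖ := norm_sum_le _ _
      _ ≤ ∑ m ∈ range (n + 1), 10 * ‖b‖ ^ 2 * (1 / (((m : ℝ) + 1 / 2) ^ 2 + T ^ 2)) := by
          refine sum_le_sum fun m _ => ?_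
          have hs := zz_small hT m
          have h2 := norm_log_one_add_sub_self_le (z := zz b T m) (by linarith)
          refine h2.trans ((?_ : _ ≤ ‖zz b T m‖ ^ 2).trans (zz_sq hT m))
          have h3 : (1 - ‖zz b T m‖)⁻¹ ≤ 2 := by
            rw [inv_le_comm₀ (by linarith) (by norm_num)]
            linarith
          have h4 : 0 ≤ ‖zz b T m‖ ^ 2 := by positivity
          nlinarith
      _ = 10 * ‖b‖ ^ 2 * ∑ m ∈ range (n + 1), 1 / (((m : ℝ) + 1 / 2) ^ 2 + T ^ 2) := by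
          rw [mul_sum]
      _ ≤ 10 * ‖b‖ ^ 2 * (2 / T) := by gcongr; exact sum_inv_le (by linarith) n
      _ = 20 * ‖b‖ ^ 2 / T := by ring
  have h2 : ∑ m ∈ range (n + 1), zz b T m =
      b * ((∑ m ∈ range (n + 1), (2 * (m : ℝ) + 1) / (((m : ℝ) + 1 / 2) ^ 2 + T ^ 2) : ℝ) : ℂ) +
      b ^ 2 * ((∑ m ∈ range (n + 1), 1 / (((m : ℝ) + 1 / 2) ^ 2 + T ^ 2) : ℝ) : ℂ) := by
    rw [ofReal_sum, ofReal_sum, mul_sum, mul_sum, ← sum_add_distrib]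
    refine sum_congr rfl fun m _ => ?_
    rw [zz]
    push_cast
    ring
  set S1 := ∑ m ∈ range (n + 1), (2 * (m : ℝ) + 1) / (((m : ℝ) + 1 / 2) ^ 2 + T ^ 2) with hS1
  set S2 := ∑ m ∈ range (n + 1), 1 / (((m : ℝ) + 1 / 2) ^ 2 + T ^ 2) with hS2
  have h3 : EE b T n = -(∑ m ∈ range (n + 1), (log (1 + zz b T m) - zz b T m)) +
      (b * ((2 * Real.log n - 2 * Real.log T - S1 : ℝ) : ℂ) - b ^ 2 * (S2 : ℂ)) := by
    rw [EE, sum_sub_distrib, h2]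
    push_cast
    ring
  have hS2' : |S2| ≤ 2 / T := by
    rw [abs_of_nonneg (sum_nonneg fun m _ => by positivity)]
    exact sum_inv_le (by linarith) n
  have hS1' := sum_log (T := T) (by linarith) n
  rw [← hS1] at hS1'
  have hlog : Real.log (T ^ 2) = 2 * Real.log T := by rw [Real.log_pow]; push_cast; ring
  rw [hlog] at hS1'
  have h4 : |2 * Real.log n - 2 * Real.log T - S1| ≤ 64 / T +
      |2 * Real.log n - Real.log (((n + 1 : ℕ) : ℝ) ^ 2 + T ^ 2)| := by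
    have e : 2 * Real.log n - 2 * Real.log T - S1 =
        -(S1 - (Real.log (((n + 1 : ℕ) : ℝ) ^ 2 + T ^ 2) - 2 * Real.log T)) +
        (2 * Real.log n - Real.log (((n + 1 : ℕ) : ℝ) ^ 2 + T ^ 2)) := by ring
    rw [e]
    refine (abs_add_le _ _).trans ?_
    rw [abs_neg]
    gcongr
  rw [h3]
  calc ‖-(∑ m ∈ range (n + 1), (log (1 + zz b T m) - zz b T m)) +
      (b * ((2 * Real.log n - 2 * Real.log T - S1 : ℝ) : ℂ) - b ^ 2 * (S2 : ℂ))‖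
      ≤ ‖∑ m ∈ range (n + 1), (log (1 + zz b T m) - zz b T m)‖ +
        (‖b‖ * |2 * Real.log n - 2 * Real.log T - S1| + ‖b‖ ^ 2 * |S2|) := by
        refine (norm_add_le _ _).trans ?_
        rw [norm_neg]
        gcongr
        refine (norm_sub_le _ _).trans ?_
        rw [norm_mul, norm_mul, norm_pow, norm_real, norm_real, Real.norm_eq_abs, Real.norm_eq_abs]
    _ ≤ 20 * ‖b‖ ^ 2 / T + (‖b‖ * (64 / T +
      |2 * Real.log n - Real.log (((n + 1 : ℕ) : ℝ) ^ 2 + T ^ 2)|) + ‖b‖ ^ 2 * (2 / T)) := by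
        gcongr
    _ = (22 * ‖b‖ ^ 2 + 64 * ‖b‖) / T +
      ‖b‖ * |2 * Real.log n - Real.log (((n + 1 : ℕ) : ℝ) ^ 2 + T ^ 2)| := by ring
    _ ≤ _ := by
        gcongr
        nlinarith

lemma tend_log (T : ℝ) : Tendsto (fun n : ℕ => 2 * Real.log n -
    Real.log (((n + 1 : ℕ) : ℝ) ^ 2 + T ^ 2)) atTop (𝓝 0) := by
  have h1 : Tendsto (fun n : ℕ => (1 + 1 / (n : ℝ)) ^ 2 + T ^ 2 * (1 / (n : ℝ)) ^ 2) atTop (𝓝 1) := by
    have h0 : Tendsto (fun n : ℕ => 1 / (n : ℝ)) atTop (𝓝 0) := tendsto_one_div_atTop_nhds_zero_nat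
    have h2 := ((h0.const_add 1).pow 2).add ((h0.pow 2).const_mul (T ^ 2))
    simpa using h2
  have h2 := (Real.continuousAt_log one_ne_zero).tendsto.comp h1
  rw [Real.log_one] at h2
  have h3 := h2.neg
  rw [neg_zero] at h3
  refine h3.congr' ?_
  filter_upwards [eventually_ge_atTop 1] with n hn
  have hn0 : (0 : ℝ) < n := by exact_mod_cast hn
  have e : (1 + 1 / (n : ℝ)) ^ 2 + T ^ 2 * (1 / (n : ℝ)) ^ 2 =
      ((((n + 1 : ℕ) : ℝ) ^ 2 + T ^ 2)) / (n : ℝ) ^ 2 := by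
    push_cast
    field_simp
  simp only [Function.comp_apply]
  rw [e, Real.log_div (by positivity) (by positivity), Real.log_pow]
  push_cast
  ring

lemma GammaSeq_pair (b : ℂ) (t : ℝ) {n : ℕ} (hn : 1 ≤ n) :
    GammaSeq (1 / 2 + b + t * I) n * GammaSeq (1 / 2 + b - t * I) n =
      (n : ℂ) ^ (1 + 2 * b) * (n.factorial : ℂ) ^ 2 /
        ∏ m ∈ range (n + 1), (((m : ℂ) + 1 / 2 + b) ^ 2 + (t : ℂ) ^ 2) := by
  have hn0 : (n : ℂ) ≠ 0 := by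
    have : n ≠ 0 := by omega
    exact_mod_cast this
  have h1 : (n : ℂ) ^ (1 + 2 * b) = (n : ℂ) ^ (1 / 2 + b + t * I) * (n : ℂ) ^ (1 / 2 + b - t * I) := by
    rw [← cpow_add _ _ hn0]
    congr 1
    ring
  have h2 : ∏ m ∈ range (n + 1), (((m : ℂ) + 1 / 2 + b) ^ 2 + (t : ℂ) ^ 2) =
      (∏ m ∈ range (n + 1), (1 / 2 + b + t * I + m)) *
      (∏ m ∈ range (n + 1), (1 / 2 + b - t * I + m)) := by
    rw [← prod_mul_distrib]
    refine prod_congr rfl fun m _ => ?_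
    have : (t : ℂ) ^ 2 = -(t * I) ^ 2 := by rw [mul_pow, I_sq]; ring
    rw [this]
    ring
  unfold GammaSeq
  rw [h1, h2, div_mul_div_comm]
  congr 1
  ring

lemma ratio_eq {b : ℂ} {t : ℝ} (ht : 4 * (1 + ‖b‖) ^ 2 ≤ |t|) {n : ℕ} (hn : 1 ≤ n) :
    GammaSeq (1 / 2 + b + t * I) n * GammaSeq (1 / 2 + b - t * I) n /
      (GammaSeq (1 / 2 + t * I) n * GammaSeq (1 / 2 - t * I) n) =
      ((|t| : ℝ) : ℂ) ^ (2 * b) * exp (EE b |t| n) := by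
  have hb := norm_nonneg b
  have hT1 : 4 ≤ |t| := by nlinarith
  have hT0 : 0 < |t| := by linarith
  have hn0' : (0 : ℝ) < n := by exact_mod_cast hn
  have hn0 : (n : ℂ) ≠ 0 := by exact_mod_cast hn0'.ne'
  have h0 := GammaSeq_pair 0 t hn
  simp only [add_zero, mul_zero] at h0
  rw [GammaSeq_pair b t hn, h0]
  have ha : ∀ m : ℕ, (((m : ℂ) + 1 / 2) ^ 2 + (t : ℂ) ^ 2) ≠ 0 := by
    intro m
    have : (((m : ℂ) + 1 / 2) ^ 2 + (t : ℂ) ^ 2) = ((((m : ℝ) + 1 / 2) ^ 2 + t ^ 2 : ℝ) : ℂ) := by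
      push_cast; ring
    rw [this]
    have h1 : (0 : ℝ) < ((m : ℝ) + 1 / 2) ^ 2 + t ^ 2 := by positivity
    exact_mod_cast h1.ne'
  have hfac : ∀ m : ℕ, (((m : ℂ) + 1 / 2 + b) ^ 2 + (t : ℂ) ^ 2) =
      (((m : ℂ) + 1 / 2) ^ 2 + (t : ℂ) ^ 2) * exp (log (1 + zz b |t| m)) := by
    intro m
    have h1 : 1 + zz b |t| m ≠ 0 := by
      intro h
      have h2 : zz b |t| m = -1 := by linear_combination h
      have h3 := zz_small ht m
      rw [h2, norm_neg, norm_one] at h3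
      norm_num at h3
    rw [exp_log h1, zz]
    have h2 : (((((m : ℝ) + 1 / 2) ^ 2 + |t| ^ 2 : ℝ)) : ℂ) = ((m : ℂ) + 1 / 2) ^ 2 + (t : ℂ) ^ 2 := by
      rw [sq_abs]; push_cast; ring
    rw [h2, mul_add, mul_one, mul_div_cancel₀ _ (ha m)]
    ring
  have hprod : ∏ m ∈ range (n + 1), (((m : ℂ) + 1 / 2 + b) ^ 2 + (t : ℂ) ^ 2) =
      (∏ m ∈ range (n + 1), (((m : ℂ) + 1 / 2) ^ 2 + (t : ℂ) ^ 2)) *
        exp (∑ m ∈ range (n + 1), log (1 + zz b |t| m)) := by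
    rw [exp_sum, ← prod_mul_distrib]
    exact prod_congr rfl fun m _ => hfac m
  have hP0 : (∏ m ∈ range (n + 1), (((m : ℂ) + 1 / 2) ^ 2 + (t : ℂ) ^ 2)) ≠ 0 :=
    prod_ne_zero_iff.2 fun m _ => ha m
  have hf0 : (n.factorial : ℂ) ≠ 0 := by exact_mod_cast n.factorial_ne_zero
  have e1 : (n : ℂ) ^ (1 + 2 * b) = (n : ℂ) * exp (2 * b * (Real.log n : ℝ)) := by
    rw [cpow_add _ _ hn0, cpow_one, cpow_def_of_ne_zero hn0]
    congr 2
    rw [natCast_log]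
    ring
  have e2 : ((|t| : ℝ) : ℂ) ^ (2 * b) = exp (2 * b * (Real.log |t| : ℝ)) := by
    rw [cpow_def_of_ne_zero (by exact_mod_cast hT0.ne'), ← ofReal_log hT0.le]
    congr 1
    ring
  have e3 : EE b |t| n = 2 * b * (Real.log n : ℝ) - 2 * b * (Real.log |t| : ℝ) -
      ∑ m ∈ range (n + 1), log (1 + zz b |t| m) := by
    rw [EE]
    push_cast
    ring
  rw [hprod, e1, e2, e3, exp_sub, exp_sub, cpow_one]
  have hx1 := exp_ne_zero (2 * b * (Real.log |t| : ℝ))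
  have hx2 := exp_ne_zero (∑ m ∈ range (n + 1), log (1 + zz b |t| m))
  generalize (∏ m ∈ range (n + 1), (((m : ℂ) + 1 / 2) ^ 2 + (t : ℂ) ^ 2)) = P at hP0 ⊢
  generalize exp (2 * b * (Real.log |t| : ℝ)) = X at hx1 ⊢
  generalize exp (∑ m ∈ range (n + 1), log (1 + zz b |t| m)) = Y at hx2 ⊢
  field_simp

lemma cosh_pi (t : ℝ) : Gamma (1 / 2 + t * I) * Gamma (1 / 2 - t * I) =
    Real.pi / ((Real.cosh (Real.pi * t) : ℝ) : ℂ) := by
  have h := Complex.Gamma_mul_Gamma_one_sub (1 / 2 + t * I)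
  have h1 : (1 - (1 / 2 + t * I) : ℂ) = 1 / 2 - t * I := by ring
  have h2 : sin (Real.pi * (1 / 2 + t * I)) = ((Real.cosh (Real.pi * t) : ℝ) : ℂ) := by
    rw [show (Real.pi * (1 / 2 + t * I) : ℂ) = Real.pi / 2 + ((Real.pi * t : ℝ) : ℂ) * I by
      push_cast; ring]
    rw [add_comm, Complex.sin_add_pi_div_two, Complex.cos_mul_I, ofReal_cosh]
  rw [h1, h2] at h
  exact h

/-- The ratio of gamma factors. -/
lemma gamma_ratio {b : ℂ} {t : ℝ} (ht : 4 * (1 + ‖b‖) ^ 2 ≤ |t|) (ht2 : 91 * (1 + ‖b‖) ^ 2 ≤ |t|) :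
    ‖Gamma (1 / 2 + b + t * I) * Gamma (1 / 2 + b - t * I) *
      (((Real.cosh (Real.pi * t) : ℝ) : ℂ) / Real.pi) - ((|t| : ℝ) : ℂ) ^ (2 * b)‖ ≤
      182 * (1 + ‖b‖) ^ 2 / |t| * |t| ^ (2 * b.re) := by
  have hb := norm_nonneg b
  have hT1 : 4 ≤ |t| := by nlinarith
  have hT0 : 0 < |t| := by linarith
  have hcosh : (0 : ℝ) < Real.cosh (Real.pi * t) := Real.cosh_pos _
  have hpi : (Real.pi : ℂ) ≠ 0 := by exact_mod_cast Real.pi_ne_zero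
  have hcosh' : ((Real.cosh (Real.pi * t) : ℝ) : ℂ) ≠ 0 := by exact_mod_cast hcosh.ne'
  have hlim : Tendsto (fun n : ℕ => GammaSeq (1 / 2 + b + t * I) n * GammaSeq (1 / 2 + b - t * I) n /
      (GammaSeq (1 / 2 + t * I) n * GammaSeq (1 / 2 - t * I) n)) atTop
      (𝓝 (Gamma (1 / 2 + b + t * I) * Gamma (1 / 2 + b - t * I) *
      (((Real.cosh (Real.pi * t) : ℝ) : ℂ) / Real.pi))) := by
    have h1 := (GammaSeq_tendsto_Gamma (1 / 2 + b + t * I)).mul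
      (GammaSeq_tendsto_Gamma (1 / 2 + b - t * I))
    have h2 := (GammaSeq_tendsto_Gamma (1 / 2 + t * I)).mul
      (GammaSeq_tendsto_Gamma (1 / 2 - t * I))
    rw [cosh_pi] at h2
    have h3 := h1.div h2 (by
      rw [Ne, div_eq_zero_iff]
      push Not
      exact ⟨hpi, hcosh'⟩)
    have e : Gamma (1 / 2 + b + t * I) * Gamma (1 / 2 + b - t * I) *
        (((Real.cosh (Real.pi * t) : ℝ) : ℂ) / Real.pi) = Gamma (1 / 2 + b + t * I) *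
        Gamma (1 / 2 + b - t * I) / (Real.pi / ((Real.cosh (Real.pi * t) : ℝ) : ℂ)) := by
      rw [div_div_eq_mul_div, mul_div_assoc]
    rw [e]
    exact h3
  have hev : ∀ᶠ n : ℕ in atTop, ‖GammaSeq (1 / 2 + b + t * I) n * GammaSeq (1 / 2 + b - t * I) n /
      (GammaSeq (1 / 2 + t * I) n * GammaSeq (1 / 2 - t * I) n) - ((|t| : ℝ) : ℂ) ^ (2 * b)‖ ≤
      182 * (1 + ‖b‖) ^ 2 / |t| * |t| ^ (2 * b.re) := by
    have hsm : 0 < (1 + ‖b‖) ^ 2 / |t| := by positivity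
    have h1 := ((tend_log |t|).abs.const_mul ‖b‖)
    rw [abs_zero, mul_zero] at h1
    filter_upwards [eventually_ge_atTop 1, h1.eventually_le_const hsm] with n hn hn2
    rw [ratio_eq ht hn]
    have h2 := EE_bound ht n
    have h3 : ‖EE b |t| n‖ ≤ 91 * (1 + ‖b‖) ^ 2 / |t| := by
      refine h2.trans ?_
      have : 91 * (1 + ‖b‖) ^ 2 / |t| = 90 * (1 + ‖b‖) ^ 2 / |t| + (1 + ‖b‖) ^ 2 / |t| := by ring
      rw [this]
      gcongr
    have h4 : ‖EE b |t| n‖ ≤ 1 := by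
      refine h3.trans ?_
      rw [div_le_one hT0]
      exact ht2
    have h5 : ((|t| : ℝ) : ℂ) ^ (2 * b) * exp (EE b |t| n) - ((|t| : ℝ) : ℂ) ^ (2 * b) =
        ((|t| : ℝ) : ℂ) ^ (2 * b) * (exp (EE b |t| n) - 1) := by ring
    rw [h5, norm_mul, norm_cpow_eq_rpow_re_of_pos hT0]
    have h6 : (2 * b).re = 2 * b.re := by simp
    rw [h6]
    have h7 := norm_exp_sub_one_le h4
    have h8 : 0 < |t| ^ (2 * b.re) := Real.rpow_pos_of_pos hT0 _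
    calc |t| ^ (2 * b.re) * ‖exp (EE b |t| n) - 1‖ ≤ |t| ^ (2 * b.re) *
        (2 * (91 * (1 + ‖b‖) ^ 2 / |t|)) := by
          gcongr
          linarith
      _ = _ := by ring
  exact le_of_tendsto (hlim.sub_const _).norm hev

lemma FF_pair_eq (b : ℂ) (t : ℝ) :
    FF (1 / 2 + b + t * I) * FF (1 / 2 + b - t * I) =
      (2 * Real.pi : ℂ) ^ (-(2 * b)) * (Gamma (1 / 2 + b + t * I) * Gamma (1 / 2 + b - t * I) *
      (((Real.cosh (Real.pi * t) : ℝ) : ℂ) / Real.pi)) *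
      (1 - sin (Real.pi * b) / ((Real.cosh (Real.pi * t) : ℝ) : ℂ)) := by
  have hcosh : (0 : ℝ) < Real.cosh (Real.pi * t) := Real.cosh_pos _
  have hpi : (Real.pi : ℂ) ≠ 0 := by exact_mod_cast Real.pi_ne_zero
  have hcosh' : ((Real.cosh (Real.pi * t) : ℝ) : ℂ) ≠ 0 := by exact_mod_cast hcosh.ne'
  have h1 : (2 * Real.pi : ℂ) ^ (-(1 / 2 + b + t * I)) * (2 * Real.pi : ℂ) ^ (-(1 / 2 + b - t * I)) =
      (2 * Real.pi : ℂ) ^ (-(2 * b)) * (2 * Real.pi : ℂ)⁻¹ := by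
    rw [← cpow_add _ _ two_pi_ne, ← cpow_neg_one, ← cpow_add _ _ two_pi_ne]
    congr 1
    ring
  have h2 : 2 * (cos (Real.pi * (1 / 2 + b + t * I) / 2) * cos (Real.pi * (1 / 2 + b - t * I) / 2)) =
      ((Real.cosh (Real.pi * t) : ℝ) : ℂ) - sin (Real.pi * b) := by
    set x : ℂ := Real.pi * (1 / 2 + b + t * I) / 2 with hx
    set y : ℂ := Real.pi * (1 / 2 + b - t * I) / 2 with hy
    have e1 : cos (x + y) + cos (x - y) = 2 * (cos x * cos y) := by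
      rw [Complex.cos_add, Complex.cos_sub]; ring
    rw [← e1]
    have e2 : x + y = Real.pi * b + Real.pi / 2 := by rw [hx, hy]; ring
    have e3 : x - y = ((Real.pi * t : ℝ) : ℂ) * I := by rw [hx, hy]; push_cast; ring
    rw [e2, e3, Complex.cos_add_pi_div_two, Complex.cos_mul_I, ofReal_cosh]
    ring
  unfold FF
  calc 2 * (2 * Real.pi : ℂ) ^ (-(1 / 2 + b + t * I)) * Gamma (1 / 2 + b + t * I) *
        cos (Real.pi * (1 / 2 + b + t * I) / 2) *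
        (2 * (2 * Real.pi : ℂ) ^ (-(1 / 2 + b - t * I)) * Gamma (1 / 2 + b - t * I) *
        cos (Real.pi * (1 / 2 + b - t * I) / 2))
      = 2 * ((2 * Real.pi : ℂ) ^ (-(1 / 2 + b + t * I)) *
          (2 * Real.pi : ℂ) ^ (-(1 / 2 + b - t * I))) *
        (Gamma (1 / 2 + b + t * I) * Gamma (1 / 2 + b - t * I)) *
        (2 * (cos (Real.pi * (1 / 2 + b + t * I) / 2) * cos (Real.pi * (1 / 2 + b - t * I) / 2))) := by
        ring
    _ = _ := by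
        rw [h1, h2]
        field_simp

end FFpair

open FFpair Complex in
theorem stFFpair : StFFpair := by
  refine ⟨1000, by norm_num, fun b t hbre ht => ?_⟩
  have hb := norm_nonneg b
  have hT1 : 1000 ≤ |t| := by nlinarith
  have hT0 : 0 < |t| := by linarith
  have h4 : 4 * (1 + ‖b‖) ^ 2 ≤ |t| := by nlinarith [sq_nonneg (1 + ‖b‖)]
  have h91 : 91 * (1 + ‖b‖) ^ 2 ≤ |t| := by nlinarith [sq_nonneg (1 + ‖b‖)]
  have hR := gamma_ratio h4 h91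
  set R : ℂ := Gamma (1 / 2 + b + t * I) * Gamma (1 / 2 + b - t * I) *
      (((Real.cosh (Real.pi * t) : ℝ) : ℂ) / Real.pi) with hRdef
  set q : ℂ := sin (Real.pi * b) / ((Real.cosh (Real.pi * t) : ℝ) : ℂ) with hq
  have hqn : ‖q‖ ≤ 1 / |t| := by
    have hc1 : Real.exp (Real.pi * |t|) / 2 ≤ Real.cosh (Real.pi * t) := by
      rw [← Real.cosh_abs (Real.pi * t), abs_mul, abs_of_pos Real.pi_pos, Real.cosh_eq]
      have := (Real.exp_pos (-(Real.pi * |t|))).le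
      linarith
    have hs1 : ‖sin (Real.pi * b)‖ ≤ Real.exp (Real.pi * ‖b‖) := by
      have e : sin (Real.pi * b) = -cos (Real.pi * b + Real.pi / 2) := by
        rw [Complex.cos_add_pi_div_two]; ring
      rw [e, norm_neg]
      refine (norm_cos_le _).trans (Real.exp_le_exp.2 ?_)
      have : (Real.pi * b + Real.pi / 2 : ℂ).im = Real.pi * b.im := by
        have e2 : (Real.pi / 2 : ℂ) = ((Real.pi / 2 : ℝ) : ℂ) := by push_cast; rfl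
        rw [add_im, im_ofReal_mul, e2, ofReal_im, add_zero]
      rw [this, abs_mul, abs_of_pos Real.pi_pos]
      gcongr
      exact Complex.abs_im_le_norm b
    have hcosh : (0 : ℝ) < Real.cosh (Real.pi * t) := Real.cosh_pos _
    rw [hq, norm_div, norm_real, Real.norm_eq_abs, abs_of_pos hcosh, div_le_div_iff₀ hcosh hT0,
      one_mul]
    refine le_trans ?_ hc1
    have hb2 : ‖b‖ ≤ |t| / 2 := by nlinarith
    have h5 : 2 * |t| ≤ Real.exp (Real.pi * (|t| / 2)) := by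
      have h6 := Real.quadratic_le_exp_of_nonneg (x := Real.pi * (|t| / 2)) (by positivity)
      have h7 : |t| ≤ Real.pi * (|t| / 2) := by
        have := Real.pi_gt_three
        nlinarith
      nlinarith
    have h6 : Real.exp (Real.pi * ‖b‖) ≤ Real.exp (Real.pi * (|t| / 2)) := by gcongr
    have h7 : Real.exp (Real.pi * |t|) = Real.exp (Real.pi * (|t| / 2)) *
        Real.exp (Real.pi * (|t| / 2)) := by
      rw [← Real.exp_add]; congr 1; ring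
    rw [h7]
    have h8 := Real.exp_pos (Real.pi * (|t| / 2))
    have h9 : ‖sin (Real.pi * b)‖ * |t| ≤ Real.exp (Real.pi * (|t| / 2)) * |t| := by
      gcongr
      exact hs1.trans h6
    nlinarith
  have hX : ‖(2 * Real.pi : ℂ) ^ (-(2 * b))‖ = (2 * Real.pi) ^ (-(2 * b.re)) := by
    have := norm_two_pi_cpow (2 * b)
    simpa using this
  have hdiv : ((|t| / (2 * Real.pi) : ℝ) : ℂ) ^ (2 * b) =
      (2 * Real.pi : ℂ) ^ (-(2 * b)) * ((|t| : ℝ) : ℂ) ^ (2 * b) := by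
    have h2pi : (0 : ℝ) < 2 * Real.pi := by positivity
    rw [div_eq_mul_inv, ofReal_mul, mul_cpow_ofReal_nonneg hT0.le (inv_nonneg.2 h2pi.le), ofReal_inv,
      inv_cpow _ _ (by
        rw [arg_ofReal_of_nonneg h2pi.le]
        exact Real.pi_ne_zero.symm), ← cpow_neg]
    push_cast
    ring
  have hdiv2 : (|t| / (2 * Real.pi)) ^ (2 * b.re) = (2 * Real.pi) ^ (-(2 * b.re)) * |t| ^ (2 * b.re) := by
    have h2pi : (0 : ℝ) < 2 * Real.pi := by positivity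
    rw [Real.div_rpow hT0.le h2pi.le, Real.rpow_neg h2pi.le, div_eq_mul_inv]
    ring
  rw [FF_pair_eq, ← hRdef, ← hq, hdiv, hdiv2]
  set X : ℂ := (2 * Real.pi : ℂ) ^ (-(2 * b)) with hXdef
  set Y : ℂ := ((|t| : ℝ) : ℂ) ^ (2 * b) with hY
  have hYn : ‖Y‖ = |t| ^ (2 * b.re) := by
    rw [hY, norm_cpow_eq_rpow_re_of_pos hT0]
    simp
  have e1 : X * R * (1 - q) - X * Y = X * ((R - Y) * (1 - q) - Y * q) := by ring
  rw [e1, norm_mul, hX]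
  have hq1 : ‖q‖ ≤ 1 := hqn.trans (by rw [div_le_one hT0]; linarith)
  have hW : 0 < |t| ^ (2 * b.re) := Real.rpow_pos_of_pos hT0 _
  have hZ : 0 < (2 * Real.pi) ^ (-(2 * b.re)) := Real.rpow_pos_of_pos (by positivity) _
  have h6 : ‖(R - Y) * (1 - q) - Y * q‖ ≤ 1000 * (1 + ‖b‖) ^ 2 / |t| * |t| ^ (2 * b.re) := by
    have h7 : ‖1 - q‖ ≤ 2 := by
      refine (norm_sub_le _ _).trans ?_
      rw [norm_one]
      linarith
    have h8 : (1 : ℝ) ≤ (1 + ‖b‖) ^ 2 := by nlinarith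
    calc ‖(R - Y) * (1 - q) - Y * q‖ ≤ ‖R - Y‖ * ‖1 - q‖ + ‖Y‖ * ‖q‖ := by
          refine (norm_sub_le _ _).trans ?_
          rw [norm_mul, norm_mul]
      _ ≤ (182 * (1 + ‖b‖) ^ 2 / |t| * |t| ^ (2 * b.re)) * 2 + |t| ^ (2 * b.re) * (1 / |t|) := by
          rw [hYn]
          gcongr
      _ = (364 * (1 + ‖b‖) ^ 2 + 1) / |t| * |t| ^ (2 * b.re) := by ring
      _ ≤ 1000 * (1 + ‖b‖) ^ 2 / |t| * |t| ^ (2 * b.re) := by
          gcongr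
          linarith
  calc (2 * Real.pi) ^ (-(2 * b.re)) * ‖(R - Y) * (1 - q) - Y * q‖
      ≤ (2 * Real.pi) ^ (-(2 * b.re)) * (1000 * (1 + ‖b‖) ^ 2 / |t| * |t| ^ (2 * b.re)) := by
        gcongr
    _ = _ := by ring

end K1
end Pool.Agent.Lib.MP_973905_nt
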