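import Pool.Agent.Lib.MP_973905_nt.K1.Stmts

/-! Module (5): the finite formula for the arithmetic factor. -/

namespace Pool.Agent.Lib.MP_973905_nt
namespace K1

open MeasureTheory ProbabilityTheory Complex Filter Topology

namespace FinM

lemma ER_congr {m : ℕ} {Sb : Fin m → Finset ℕ} {E : Type*} [NormedAddCommGroup E] [NormedSpace ℝ E]
    {F G : (ℕ → ℂ) → E} (h : ∀ ω, F (XX Sb ω) = G (XX Sb ω)) : ER Sb F = ER Sb G := by
  simp only [ER_eq]
  exact integral_congr_ae (Filter.Eventually.of_forall h)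

lemma ER_conj {m : ℕ} {Sb : Fin m → Finset ℕ} (F : (ℕ → ℂ) → ℂ) :
    ER Sb (fun f => (starRingEnd ℂ) (F f)) = (starRingEnd ℂ) (ER Sb F) := by
  simp only [ER_eq]
  exact integral_conj

/-- The Euler product paired with one frequency. -/
lemma ER_ZZ_pair {m : ℕ} {Sb : Fin m → Finset ℕ} (hB : Blk Sb) {w : ℂ} (hw : 0 < w.re) {u v : ℕ}
    (hu : u ∈ Nat.factoredNumbers (UU Sb)) (hv : v ∈ Nat.factoredNumbers (UU Sb)) :
    ER Sb (fun f => ZZ (UU Sb) (tw w f) * (f u * (starRingEnd ℂ) (f v))) =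
      if u ∣ v then ((v / u : ℕ) : ℂ) ^ (-w) else 0 := by
  have hu0 : u ≠ 0 := Nat.ne_zero_of_mem_factoredNumbers hu
  have hv0 : v ≠ 0 := Nat.ne_zero_of_mem_factoredNumbers hv
  rw [ER_ZZ hB hw ((bc_apply u).mul (bc_apply v).conj)]
  have h1 : ∀ n : Nat.factoredNumbers (UU Sb), ((n : ℕ) : ℂ) ^ (-w) *
      ER Sb (fun f => f n * (f u * (starRingEnd ℂ) (f v))) =
        if (n : ℕ) * u = v then ((n : ℕ) : ℂ) ^ (-w) else 0 := by
    intro n
    have hn0 : (n : ℕ) ≠ 0 := Nat.ne_zero_of_mem_factoredNumbers n.2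
    have e1 : ER Sb (fun f => f n * (f u * (starRingEnd ℂ) (f v))) =
        ER Sb (fun f => f (n * u) * (starRingEnd ℂ) (f v)) := by
      refine ER_congr fun ω => ?_
      rw [(cmul_XX Sb ω).2 _ _ hn0 hu0]; ring
    rw [e1, ER_pair (Nat.mul_mem_factoredNumbers n.2 hu) hv]
    split_ifs <;> simp
  simp only [h1]
  by_cases hd : u ∣ v
  · rw [if_pos hd]
    obtain ⟨d, rfl⟩ := hd
    have hd0 : d ≠ 0 := fun h => hv0 (by simp [h])
    have hdm : d ∈ Nat.factoredNumbers (UU Sb) := by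
      rw [Nat.mem_factoredNumbers_iff_primeFactors_subset] at hv ⊢
      exact ⟨hd0, (Nat.primeFactors_mono (Dvd.intro_left u rfl) hv0).trans hv.2⟩
    rw [tsum_eq_single (⟨d, hdm⟩ : Nat.factoredNumbers (UU Sb))]
    · rw [if_pos (by simp [mul_comm])]
      rw [Nat.mul_div_cancel_left _ (Nat.pos_of_ne_zero hu0)]
    · intro n hn
      rw [if_neg]
      intro h
      apply hn
      apply Subtype.ext
      have : u * (n : ℕ) = u * d := by rw [mul_comm, h]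
      exact Nat.eq_of_mul_eq_mul_left (Nat.pos_of_ne_zero hu0) this
  · rw [if_neg hd]
    convert tsum_zero with n
    rw [if_neg]
    intro h
    exact hd (Dvd.intro_left _ h)

/-- Two shifted Euler products paired with one frequency. -/
lemma ER_ZZ_ZZ {m : ℕ} {Sb : Fin m → Finset ℕ} (hB : Blk Sb) {w₁ w₂ : ℂ} (hw₁ : 0 < w₁.re)
    (hw₂ : 0 < w₂.re) {u v : ℕ}
    (hu : u ∈ Nat.factoredNumbers (UU Sb)) (hv : v ∈ Nat.factoredNumbers (UU Sb)) :
    ER Sb (fun f => ZZ (UU Sb) (tw w₁ f) * (starRingEnd ℂ) (ZZ (UU Sb) (tw ((starRingEnd ℂ) w₂) f)) *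
      (f u * (starRingEnd ℂ) (f v))) * ∏ p ∈ UU Sb, (1 - (p : ℂ) ^ (-(w₁ + w₂))) =
      ((v / u.gcd v : ℕ) : ℂ) ^ (-w₁) * ((u / u.gcd v : ℕ) : ℂ) ^ (-w₂) := by
  have hu0 : u ≠ 0 := Nat.ne_zero_of_mem_factoredNumbers hu
  have hv0 : v ≠ 0 := Nat.ne_zero_of_mem_factoredNumbers hv
  have hw₂' : 0 < ((starRingEnd ℂ) w₂).re := by simpa using hw₂
  have hprime : ∀ p ∈ UU Sb, p.Prime := fun p hp => prime_of_mem_UU hB hp
  set g := u.gcd v with hg
  have hgpos : 0 < g := Nat.gcd_pos_of_pos_left _ (Nat.pos_of_ne_zero hu0)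
  obtain ⟨u', hu'⟩ : g ∣ u := Nat.gcd_dvd_left u v
  obtain ⟨v', hv'⟩ : g ∣ v := Nat.gcd_dvd_right u v
  have hcop : Nat.Coprime u' v' := by
    have := Nat.coprime_div_gcd_div_gcd (m := u) (n := v) hgpos
    rw [← hg] at this
    have e1 : u / g = u' := by rw [hu']; exact Nat.mul_div_cancel_left _ hgpos
    have e2 : v / g = v' := by rw [hv']; exact Nat.mul_div_cancel_left _ hgpos
    rwa [e1, e2] at this
  have e1 : u / g = u' := by
    conv_lhs => rw [hu']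
    exact Nat.mul_div_cancel_left _ hgpos
  have e2 : v / g = v' := by
    conv_lhs => rw [hv']
    exact Nat.mul_div_cancel_left _ hgpos
  have hu'0 : u' ≠ 0 := fun h => hu0 (by rw [hu', h, mul_zero])
  have hv'0 : v' ≠ 0 := fun h => hv0 (by rw [hv', h, mul_zero])
  have hv'm : v' ∈ Nat.factoredNumbers (UU Sb) := by
    rw [Nat.mem_factoredNumbers_iff_primeFactors_subset] at hv ⊢
    exact ⟨hv'0, (Nat.primeFactors_mono (Dvd.intro_left g hv'.symm) hv0).trans hv.2⟩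
  rw [e1, e2]
  -- step 1
  have hBC : BC Sb (fun f => (starRingEnd ℂ) (ZZ (UU Sb) (tw ((starRingEnd ℂ) w₂) f)) *
      (f u * (starRingEnd ℂ) (f v))) :=
    (bc_ZZ hprime hw₂').conj.mul ((bc_apply u).mul (bc_apply v).conj)
  have s1 : ER Sb (fun f => ZZ (UU Sb) (tw w₁ f) *
      (starRingEnd ℂ) (ZZ (UU Sb) (tw ((starRingEnd ℂ) w₂) f)) * (f u * (starRingEnd ℂ) (f v))) =
      ∑' n : Nat.factoredNumbers (UU Sb), ((n : ℕ) : ℂ) ^ (-w₁) *
        (if v' ∣ (n : ℕ) then ((((n : ℕ) / v') * u' : ℕ) : ℂ) ^ (-w₂) else 0) := by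
    have e3 : ER Sb (fun f => ZZ (UU Sb) (tw w₁ f) *
        (starRingEnd ℂ) (ZZ (UU Sb) (tw ((starRingEnd ℂ) w₂) f)) *
          (f u * (starRingEnd ℂ) (f v))) = ER Sb (fun f => ZZ (UU Sb) (tw w₁ f) *
        ((starRingEnd ℂ) (ZZ (UU Sb) (tw ((starRingEnd ℂ) w₂) f)) *
          (f u * (starRingEnd ℂ) (f v)))) := ER_congr fun ω => by ring
    rw [e3, ER_ZZ hB hw₁ hBC]
    refine tsum_congr fun n => ?_
    have hn0 : (n : ℕ) ≠ 0 := Nat.ne_zero_of_mem_factoredNumbers n.2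
    congr 1
    have e4 : ER Sb (fun f => f n * ((starRingEnd ℂ) (ZZ (UU Sb) (tw ((starRingEnd ℂ) w₂) f)) *
        (f u * (starRingEnd ℂ) (f v)))) =
        (starRingEnd ℂ) (ER Sb (fun f => ZZ (UU Sb) (tw ((starRingEnd ℂ) w₂) f) *
          (f v * (starRingEnd ℂ) (f (n * u))))) := by
      rw [← ER_conj]
      refine ER_congr fun ω => ?_
      rw [(cmul_XX Sb ω).2 _ _ hn0 hu0]
      simp only [map_mul, conj_conj]
      ring
    rw [e4, ER_ZZ_pair hB hw₂' hv (Nat.mul_mem_factoredNumbers n.2 hu)]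
    have hiff : v ∣ (n : ℕ) * u ↔ v' ∣ (n : ℕ) := by
      rw [hv', hu', show (n : ℕ) * (g * u') = g * (n * u') by ring,
        Nat.mul_dvd_mul_iff_left hgpos]
      exact (Nat.Coprime.symm hcop).dvd_mul_right
    by_cases hd : v' ∣ (n : ℕ)
    · rw [if_pos (hiff.mpr hd), if_pos hd]
      obtain ⟨r, hr⟩ := hd
      have e5 : (n : ℕ) * u / v = (n : ℕ) / v' * u' := by
        rw [hr, Nat.mul_div_cancel_left _ (Nat.pos_of_ne_zero hv'0)]
        have : v' * r * u = v * (r * u') := by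
          conv_lhs => rw [hu']
          conv_rhs => rw [hv']
          ring
        rw [this, Nat.mul_div_cancel_left _ (Nat.pos_of_ne_zero hv0)]
      rw [e5, ← map_neg, ← Complex.conj_natCast, ← cpow_conj, conj_conj, Complex.conj_natCast]
      rw [natCast_arg]
      exact Real.pi_ne_zero.symm
    · rw [if_neg (fun h => hd (hiff.mp h)), if_neg hd, map_zero]
  -- step 2
  have hre : 0 < (w₁ + w₂).re := by rw [add_re]; linarith
  have hlt : ∀ p : ℕ, p.Prime → ‖fs (w₁ + w₂) p‖ < 1 := by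
    intro p hp
    rw [norm_fs _ hp.ne_zero]
    apply Real.rpow_lt_one_of_one_lt_of_neg
    · exact_mod_cast hp.one_lt
    · linarith
  have s2 : ∑' n : Nat.factoredNumbers (UU Sb), ((n : ℕ) : ℂ) ^ (-w₁) *
        (if v' ∣ (n : ℕ) then ((((n : ℕ) / v') * u' : ℕ) : ℂ) ^ (-w₂) else 0) =
      (v' : ℂ) ^ (-w₁) * (u' : ℂ) ^ (-w₂) * ZZ (UU Sb) (fs (w₁ + w₂)) := by
    let e : Nat.factoredNumbers (UU Sb) → Nat.factoredNumbers (UU Sb) :=
      fun r => ⟨v' * r, Nat.mul_mem_factoredNumbers hv'm r.2⟩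
    have he : Function.Injective e := by
      intro a b hab
      have := congrArg Subtype.val hab
      exact Subtype.ext (Nat.eq_of_mul_eq_mul_left (Nat.pos_of_ne_zero hv'0) this)
    rw [← he.tsum_eq]
    · rw [← (ZZ_hasSum hprime (cmul_fs (w₁ + w₂)) hlt).2.tsum_eq, ← tsum_mul_left]
      refine tsum_congr fun r => ?_
      have hr0 : (r : ℕ) ≠ 0 := Nat.ne_zero_of_mem_factoredNumbers r.2
      have hrC : ((r : ℕ) : ℂ) ≠ 0 := by exact_mod_cast hr0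
      show ((v' * (r : ℕ) : ℕ) : ℂ) ^ (-w₁) * (if v' ∣ v' * (r : ℕ) then
        (((v' * (r : ℕ)) / v' * u' : ℕ) : ℂ) ^ (-w₂) else 0) = _
      rw [if_pos (Dvd.intro _ rfl), Nat.mul_div_cancel_left _ (Nat.pos_of_ne_zero hv'0), fs,
        show -(w₁ + w₂) = -w₁ + -w₂ by ring, cpow_add _ _ hrC]
      push_cast
      rw [natCast_mul_natCast_cpow, natCast_mul_natCast_cpow]
      ring
    · intro n hn
      rw [Function.mem_support] at hn
      have hd : v' ∣ (n : ℕ) := by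
        by_contra h
        rw [if_neg h, mul_zero] at hn
        exact hn rfl
      obtain ⟨r, hr⟩ := hd
      have hn0 : (n : ℕ) ≠ 0 := Nat.ne_zero_of_mem_factoredNumbers n.2
      have hr0 : r ≠ 0 := fun h => hn0 (by rw [hr, h, mul_zero])
      have hrm : r ∈ Nat.factoredNumbers (UU Sb) := by
        have hn2 := n.2
        rw [Nat.mem_factoredNumbers_iff_primeFactors_subset] at hn2 ⊢
        exact ⟨hr0, (Nat.primeFactors_mono (Dvd.intro_left v' hr.symm) hn0).trans hn2.2⟩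
      exact ⟨⟨r, hrm⟩, Subtype.ext hr.symm⟩
  rw [s1, s2, mul_assoc]
  have s3 : ZZ (UU Sb) (fs (w₁ + w₂)) * ∏ p ∈ UU Sb, (1 - (p : ℂ) ^ (-(w₁ + w₂))) = 1 := by
    rw [ZZ, ← Finset.prod_mul_distrib]
    refine Finset.prod_eq_one fun p hp => ?_
    have h1 : (1 - fs (w₁ + w₂) p) ≠ 0 := by
      intro h
      have := hlt p (hprime p hp)
      rw [← sub_eq_zero.mp h] at this
      simp at this
    exact inv_mul_cancel₀ h1
  rw [s3, mul_one]

lemma formula {T N : ℝ} (hT : 1 < T) (hN : N ≤ T) (c : ℕ → ℂ) (G : (ℕ → ℂ) → ℂ)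
    (hG : ∀ f, CMul f → G f = ∑ n ∈ Finset.Icc 1 ⌊N⌋₊, c n * f n) (M : ℕ) (a₁ a₂ : ℂ)
    (ha₁ : -(1 / 2) < a₁.re) (ha₂ : -(1 / 2) < a₂.re) : RA T M G a₁ a₂ =
        ∑ m ∈ Finset.Icc 1 ⌊N⌋₊, ∑ n ∈ Finset.Icc 1 ⌊N⌋₊, c m * (starRingEnd ℂ) (c n) *
          (m : ℂ) ^ (-(1 / 2 : ℂ)) * (n : ℂ) ^ (-(1 / 2 : ℂ)) *
          ((n / m.gcd n : ℕ) : ℂ) ^ (-(1 / 2 + a₁)) * ((m / m.gcd n : ℕ) : ℂ) ^ (-(1 / 2 + a₂)) := by
  have hT0 : 0 < T := by linarith
  have hB := blk_SB hT M (JJ T)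
  have hw₁ : 0 < (1 / 2 + a₁ : ℂ).re := by rw [add_re]; norm_num; linarith
  have hw₂ : 0 < (1 / 2 + a₂ : ℂ).re := by rw [add_re]; norm_num; linarith
  have hw₂' : 0 < ((starRingEnd ℂ) (1 / 2 + a₂ : ℂ)).re := by rw [conj_re]; exact hw₂
  have hprime : ∀ p ∈ UU (SB T M (JJ T)), p.Prime := fun p hp => prime_of_mem_UU hB hp
  have hmemf : ∀ n ∈ Finset.Icc 1 ⌊N⌋₊, n ∈ Nat.factoredNumbers (UU (SB T M (JJ T))) := by
    intro n hn
    rw [Finset.mem_Icc] at hn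
    refine mem_factored hT M (JJ T) hn.1 ?_
    have : (n : ℝ) ≤ N := by
      by_contra hc
      push Not at hc
      have := (Nat.floor_lt' (by omega)).mpr hc
      omega
    exact this.trans hN
  have e1 : 1 / 2 + (starRingEnd ℂ) a₂ = (starRingEnd ℂ) (1 / 2 + a₂) := by
    rw [map_add, map_div₀, map_one, map_ofNat]
  have hreal : ∀ n : ℕ, (starRingEnd ℂ) ((n : ℂ) ^ (-(1 / 2 : ℂ))) = (n : ℂ) ^ (-(1 / 2 : ℂ)) := by
    intro n
    have h : ((n : ℂ) ^ (-(1 / 2 : ℂ))) = (((n : ℝ) ^ (-(1 / 2) : ℝ) : ℝ) : ℂ) := by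
      rw [ofReal_cpow (Nat.cast_nonneg n)]
      push_cast; rfl
    rw [h, conj_ofReal]
  rw [RA, RZ, e1, ← UU_SB hT M (JJ T)]
  set U := UU (SB T M (JJ T)) with hU
  have hbc : ∀ m n : ℕ, BC (SB T M (JJ T)) (fun f => ZZ U (tw (1 / 2 + a₁) f) *
      (starRingEnd ℂ) (ZZ U (tw ((starRingEnd ℂ) (1 / 2 + a₂)) f)) *
        (f m * (starRingEnd ℂ) (f n))) := fun m n =>
    ((bc_ZZ hprime hw₁).mul (bc_ZZ hprime hw₂').conj).mul ((bc_apply m).mul (bc_apply n).conj)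
  have e2 : ER (SB T M (JJ T)) (fun f => ZZ U (tw (1 / 2 + a₁) f) *
      (starRingEnd ℂ) (ZZ U (tw ((starRingEnd ℂ) (1 / 2 + a₂)) f)) *
      (G (tw (1 / 2) f) * (starRingEnd ℂ) (G (tw (1 / 2) f)))) =
      ER (SB T M (JJ T)) (fun f => ∑ m ∈ Finset.Icc 1 ⌊N⌋₊, ∑ n ∈ Finset.Icc 1 ⌊N⌋₊,
        (c m * (starRingEnd ℂ) (c n) * (m : ℂ) ^ (-(1 / 2 : ℂ)) * (n : ℂ) ^ (-(1 / 2 : ℂ))) *
        (ZZ U (tw (1 / 2 + a₁) f) *
      (starRingEnd ℂ) (ZZ U (tw ((starRingEnd ℂ) (1 / 2 + a₂)) f)) *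
        (f m * (starRingEnd ℂ) (f n)))) := by
    refine ER_congr fun ω => ?_
    rw [hG _ (cmul_tw (cmul_XX _ ω) _), map_sum, Finset.sum_mul_sum, Finset.mul_sum]
    refine Finset.sum_congr rfl fun m _ => ?_
    rw [Finset.mul_sum]
    refine Finset.sum_congr rfl fun n _ => ?_
    simp only [tw, map_mul, hreal]
    ring
  rw [e2, ER_sum _ fun m _ => bc_sum _ fun n _ => (hbc m n).const_mul _, Finset.sum_mul]
  refine Finset.sum_congr rfl fun m hm => ?_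
  rw [ER_sum _ fun n _ => (hbc m n).const_mul _, Finset.sum_mul]
  refine Finset.sum_congr rfl fun n hn => ?_
  have e3 : (1 + a₁ + a₂ : ℂ) = (1 / 2 + a₁) + (1 / 2 + a₂) := by ring
  rw [ER_const_mul, mul_assoc, e3, ER_ZZ_ZZ hB hw₁ hw₂ (hmemf m hm) (hmemf n hn)]
  ring

end FinM

theorem stFin : StFin := by
  intro T hT N B G hN hG
  have hT0 : 0 < T := by linarith
  obtain ⟨k, c0, n0, h1, h2, h3⟩ := hG
  refine ⟨fun l => ∑ i with n0 i = l, c0 i, ?_, ?_, ?_⟩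
  · have hmem : ∀ i ∈ (Finset.univ : Finset (Fin k)), n0 i ∈ Finset.Icc 1 ⌊N⌋₊ := by
      intro i _
      rw [Finset.mem_Icc]
      exact ⟨(h1 i).1, Nat.le_floor (h1 i).2⟩
    refine le_trans ?_ h2
    rw [← Finset.sum_fiberwise_of_maps_to hmem]
    exact Finset.sum_le_sum fun l _ => norm_sum_le _ _
  · intro f hf
    rw [h3 f hf]
    have hmem : ∀ i ∈ (Finset.univ : Finset (Fin k)), n0 i ∈ Finset.Icc 1 ⌊N⌋₊ := by
      intro i _
      rw [Finset.mem_Icc]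
      exact ⟨(h1 i).1, Nat.le_floor (h1 i).2⟩
    rw [← Finset.sum_fiberwise_of_maps_to hmem]
    refine Finset.sum_congr rfl fun l _ => ?_
    rw [Finset.sum_mul]
    refine Finset.sum_congr rfl fun i hi => ?_
    rw [(Finset.mem_filter.mp hi).2]
  · intro M a₁ a₂ ha₁ ha₂
    exact FinM.formula hT hN _ G (by
      intro f hf
      rw [h3 f hf]
      have hmem : ∀ i ∈ (Finset.univ : Finset (Fin k)), n0 i ∈ Finset.Icc 1 ⌊N⌋₊ := by
        intro i _
        rw [Finset.mem_Icc]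
        exact ⟨(h1 i).1, Nat.le_floor (h1 i).2⟩
      rw [← Finset.sum_fiberwise_of_maps_to hmem]
      refine Finset.sum_congr rfl fun l _ => ?_
      rw [Finset.sum_mul]
      refine Finset.sum_congr rfl fun i hi => ?_
      rw [(Finset.mem_filter.mp hi).2]) M a₁ a₂ ha₁ ha₂

end K1
end Pool.Agent.Lib.MP_973905_nt
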