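import Pool.Agent.Lib.MP_973905_nt.K1.Stmts

/-! Module (15): the sharp twisted second moment. -/

namespace Pool.Agent.Lib.MP_973905_nt
namespace K1
namespace Second

open MeasureTheory ProbabilityTheory Complex Filter Topology Metric

/-- `ζ` near its pole -/
lemma zeta_pole : ∃ C δ : ℝ, 0 < C ∧ 0 < δ ∧
    ∀ w : ℂ, w ≠ 0 → ‖w‖ < δ → ‖riemannZeta (1 + w) - 1 / w‖ ≤ C := by
  have h := tendsto_riemannZeta_sub_one_div
  rw [Metric.tendsto_nhdsWithin_nhds] at h
  obtain ⟨δ, hδ, h⟩ := h 1 one_pos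
  refine ⟨1 + ‖(Real.eulerMascheroniConstant : ℂ)‖, δ, by positivity, hδ, fun w hw hwδ => ?_⟩
  have h1 := h (x := 1 + w) (by simpa using hw) (by simpa [dist_eq_norm] using hwδ)
  rw [dist_eq_norm] at h1
  have h2 : (1 + w - 1) = w := by ring
  rw [h2] at h1
  calc ‖riemannZeta (1 + w) - 1 / w‖
      = ‖(riemannZeta (1 + w) - 1 / w - Real.eulerMascheroniConstant) +
          Real.eulerMascheroniConstant‖ := by ring_nf
    _ ≤ _ := by
        refine (norm_add_le _ _).trans ?_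
        linarith

/-- the mean value of the main term over a small circle -/
lemma mean_core {L R0 ε : ℝ} (hL : 0 < L) (F : ℂ → ℂ)
    (hF : ContinuousOn F (sphere 0 (1 / L)))
    (h : ∀ a : ℂ, ‖a‖ = 1 / L → ‖F a - R0 * ((1 - cexp (-(2 * a * L))) / (2 * a))‖ ≤ ε) :
    ‖Real.circleAverage F 0 (1 / L) - R0 * L‖ ≤ ε := by
  have hR : 0 < 1 / L := by positivity
  set q : ℂ → ℂ := fun a => -(cexp (-(2 * a * L))) / 2 with hq
  have hqd : Differentiable ℂ q := by
    rw [hq]; fun_prop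
  set g : ℂ → ℂ := dslope q 0 with hg
  have hgd : Differentiable ℂ g := by
    have h1 := (differentiableOn_dslope (f := q) (c := 0) (s := Set.univ) Filter.univ_mem).2
      hqd.differentiableOn
    exact differentiableOn_univ.1 h1
  have hg0 : g 0 = L := by
    rw [hg, dslope_same]
    have h1 : HasDerivAt q (-(cexp (-(2 * 0 * L)) * (-(2 * L))) / 2) 0 := by
      rw [hq]
      have h2 : HasDerivAt (fun a : ℂ => -(2 * a * L)) (-(2 * L)) 0 := by
        have h3 := ((hasDerivAt_id (0 : ℂ)).const_mul (2 : ℂ)).mul_const (L : ℂ)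
        simpa using h3.fun_neg
      exact (h2.cexp.neg).div_const 2
    rw [h1.deriv]
    simp
  have hga : ∀ a : ℂ, a ≠ 0 → g a = (1 - cexp (-(2 * a * L))) / (2 * a) := by
    intro a ha
    rw [hg, dslope_of_ne _ ha, slope_def_field, hq]
    simp only [mul_zero, zero_mul, neg_zero, Complex.exp_zero, sub_zero]
    field_simp
    ring
  have havg : Real.circleAverage (fun a => (R0 : ℂ) * g a) 0 (1 / L) = R0 * L := by
    rw [DiffContOnCl.circleAverage, hg0]
    exact ((hgd.const_mul (R0 : ℂ)).diffContOnCl)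
  have hI1 : CircleIntegrable F 0 (1 / L) := hF.circleIntegrable hR.le
  have hI2 : CircleIntegrable (fun a => (R0 : ℂ) * g a) 0 (1 / L) :=
    ((hgd.const_mul (R0 : ℂ)).continuous.continuousOn).circleIntegrable hR.le
  rw [← havg, ← Real.circleAverage_fun_sub hI1 hI2, Real.circleAverage_def, norm_smul]
  have hb : ‖∫ θ in (0 : ℝ)..2 * Real.pi, (fun z => F z - (R0 : ℂ) * g z) (circleMap 0 (1 / L) θ)‖ ≤
      ε * |2 * Real.pi - 0| := by
    apply intervalIntegral.norm_integral_le_of_norm_le_const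
    intro θ _
    have h1 : ‖circleMap 0 (1 / L) θ‖ = 1 / L := by
      rw [norm_circleMap_zero, abs_of_pos hR]
    have h2 : circleMap 0 (1 / L) θ ≠ 0 := by
      intro h3
      rw [h3, norm_zero] at h1
      linarith
    simp only [hga _ h2]
    exact h _ h1
  have hpi : 0 < 2 * Real.pi := Real.two_pi_pos
  rw [sub_zero, abs_of_pos hpi] at hb
  rw [norm_inv, Real.norm_of_nonneg hpi.le]
  calc (2 * Real.pi)⁻¹ * _ ≤ (2 * Real.pi)⁻¹ * (ε * (2 * Real.pi)) := by gcongr
    _ = ε := by field_simp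

/-- pointwise estimate on the circle -/
lemma point_core {L R0 C η ε : ℝ} {a Z1 Z2 R1 R2 X X0 : ℂ} (hL : 0 < L) (ha : ‖a‖ = 1 / L)
    (hR0 : 0 ≤ R0) (hη1 : η ≤ 1) (hC : 0 ≤ C) (h1 : ‖Z1 - 1 / (2 * a)‖ ≤ C)
    (h2 : ‖Z2 - 1 / (-(2 * a))‖ ≤ C) (h3 : ‖R1 - R0‖ ≤ η * R0) (h4 : ‖R2 - R0‖ ≤ η * R0)
    (hX : ‖X‖ ≤ 8) (hX0 : ‖X0 - X‖ ≤ ε) :
    ‖Z1 * R1 + X * (Z2 * R2) - R0 * ((1 - X0) / (2 * a))‖ ≤
      R0 * L * (18 * C / L + 9 / 2 * η + ε / 2) := by
  have ha0 : a ≠ 0 := by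
    intro h; rw [h, norm_zero] at ha
    have : 0 < 1 / L := by positivity
    linarith
  have hn : ‖(1 : ℂ) / (2 * a)‖ = L / 2 := by
    rw [norm_div, norm_mul, ha]; simp; field_simp
  have hR1 : ‖R1‖ ≤ 2 * R0 := by
    calc ‖R1‖ = ‖(R1 - R0) + R0‖ := by ring_nf
      _ ≤ ‖R1 - R0‖ + ‖(R0 : ℂ)‖ := norm_add_le _ _
      _ ≤ η * R0 + R0 := by
          rw [Complex.norm_real, Real.norm_of_nonneg hR0]; linarith
      _ ≤ 2 * R0 := by nlinarith
  have hR2 : ‖R2‖ ≤ 2 * R0 := by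
    calc ‖R2‖ = ‖(R2 - R0) + R0‖ := by ring_nf
      _ ≤ ‖R2 - R0‖ + ‖(R0 : ℂ)‖ := norm_add_le _ _
      _ ≤ η * R0 + R0 := by
          rw [Complex.norm_real, Real.norm_of_nonneg hR0]; linarith
      _ ≤ 2 * R0 := by nlinarith
  have e1 : Z1 * R1 + X * (Z2 * R2) - R0 * ((1 - X0) / (2 * a)) =
      ((Z1 - 1 / (2 * a)) * R1 + 1 / (2 * a) * (R1 - R0)) +
        X * ((Z2 - 1 / (-(2 * a))) * R2 - 1 / (2 * a) * (R2 - R0)) +
          (X0 - X) * (1 / (2 * a) * R0) := by
    field_simp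
    ring
  have b1 : ‖(Z1 - 1 / (2 * a)) * R1 + 1 / (2 * a) * (R1 - R0)‖ ≤ C * (2 * R0) + L / 2 * (η * R0) := by
    refine (norm_add_le _ _).trans ?_
    rw [norm_mul, norm_mul, hn]
    gcongr
  have b2 : ‖(Z2 - 1 / (-(2 * a))) * R2 - 1 / (2 * a) * (R2 - R0)‖ ≤
      C * (2 * R0) + L / 2 * (η * R0) := by
    refine (norm_sub_le _ _).trans ?_
    rw [norm_mul, norm_mul, hn]
    gcongr
  have b3 : ‖(X0 - X) * (1 / (2 * a) * R0)‖ ≤ ε * (L / 2 * R0) := by
    rw [norm_mul, norm_mul, hn, Complex.norm_real, Real.norm_of_nonneg hR0]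
    gcongr
  rw [e1]
  have b4 : ‖X * ((Z2 - 1 / (-(2 * a))) * R2 - 1 / (2 * a) * (R2 - R0))‖ ≤
      8 * (C * (2 * R0) + L / 2 * (η * R0)) := by
    rw [norm_mul]
    gcongr
  calc _ ≤ (C * (2 * R0) + L / 2 * (η * R0)) + 8 * (C * (2 * R0) + L / 2 * (η * R0)) +
        ε * (L / 2 * R0) := (norm_add₃_le).trans (add_le_add (add_le_add b1 b4) b3)
    _ = R0 * L * (18 * C / L + 9 / 2 * η + ε / 2) := by
        field_simp
        ring

/-- continuity of the arithmetic factor -/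
lemma RA_cont (hfin : StFin) {T N B : ℝ} (hT : 1 < T) (hN : N ≤ T) {G : (ℕ → ℂ) → ℂ}
    (hG : DP N B G) (M : ℕ) :
    ContinuousOn (fun a : ℂ => RA T M G a a) {a : ℂ | -(1 / 2) < a.re} := by
  obtain ⟨c, -, -, hc⟩ := hfin T hT N B G hN hG
  have h1 : Set.EqOn (fun a : ℂ => RA T M G a a) (fun a : ℂ =>
      ∑ m ∈ Finset.Icc 1 ⌊N⌋₊, ∑ n ∈ Finset.Icc 1 ⌊N⌋₊, c m * (starRingEnd ℂ) (c n) *
          (m : ℂ) ^ (-(1 / 2 : ℂ)) * (n : ℂ) ^ (-(1 / 2 : ℂ)) *
          ((n / m.gcd n : ℕ) : ℂ) ^ (-(1 / 2 + a)) * ((m / m.gcd n : ℕ) : ℂ) ^ (-(1 / 2 + a)))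
      {a : ℂ | -(1 / 2) < a.re} := fun a ha => hc M a a ha ha
  refine ContinuousOn.congr ?_ h1
  apply Continuous.continuousOn
  refine continuous_finsetSum _ fun m hm => continuous_finsetSum _ fun n hn => ?_
  rw [Finset.mem_Icc] at hm hn
  have hg : 0 < m.gcd n := Nat.gcd_pos_of_pos_left n hm.1
  have hn0 : ((n / m.gcd n : ℕ) : ℂ) ≠ 0 := by
    have : 0 < n / m.gcd n := Nat.div_pos (Nat.le_of_dvd hn.1 (Nat.gcd_dvd_right m n)) hg
    exact_mod_cast this.ne'
  have hm0 : ((m / m.gcd n : ℕ) : ℂ) ≠ 0 := by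
    have : 0 < m / m.gcd n := Nat.div_pos (Nat.le_of_dvd hm.1 (Nat.gcd_dvd_left m n)) hg
    exact_mod_cast this.ne'
  have c1 : Continuous (fun a : ℂ => ((n / m.gcd n : ℕ) : ℂ) ^ (-(1 / 2 + a))) :=
    Continuous.const_cpow (by fun_prop) (Or.inl hn0)
  have c2 : Continuous (fun a : ℂ => ((m / m.gcd n : ℕ) : ℂ) ^ (-(1 / 2 + a))) :=
    Continuous.const_cpow (by fun_prop) (Or.inl hm0)
  fun_prop

/-- continuity of the main term on small circles -/
lemma Mn_cont (hfin : StFin) {T N B : ℝ} (hT : 1 < T) (hN : N ≤ T) {G : (ℕ → ℂ) → ℂ}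
    (hG : DP N B G) (M : ℕ) {τ r : ℝ} (hτ : τ ≠ 0) (hr : 0 < r) (hr2 : r < 1 / 2) :
    ContinuousOn (Mn T τ M G) (sphere 0 r) := by
  have hR := RA_cont hfin hT hN hG M
  have hne : ∀ a ∈ sphere (0 : ℂ) r, a ≠ 0 := by
    intro a ha h
    rw [mem_sphere_zero_iff_norm, h, norm_zero] at ha
    linarith
  have hre : ∀ a ∈ sphere (0 : ℂ) r, |a.re| < 1 / 2 := by
    intro a ha
    rw [mem_sphere_zero_iff_norm] at ha
    exact ((abs_re_le_norm a).trans_eq ha).trans_lt hr2
  have c1 : ContinuousOn (fun a : ℂ => RA T M G a a) (sphere 0 r) :=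
    hR.mono fun a ha => by
      have := abs_lt.1 (hre a ha)
      simp only [Set.mem_ofPred_eq]
      linarith [this.1]
  have c2 : ContinuousOn (fun a : ℂ => RA T M G (-a) (-a)) (sphere 0 r) := by
    apply ContinuousOn.comp (g := fun a : ℂ => RA T M G a a) (f := fun a : ℂ => -a) hR
    · fun_prop
    · intro a ha
      have := abs_lt.1 (hre a ha)
      simp only [Set.mem_ofPred_eq, neg_re]
      linarith [this.2]
  have c3 : ContinuousOn (fun a : ℂ => riemannZeta (1 + 2 * a)) (sphere 0 r) := by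
    intro a ha
    have h1 : (1 : ℂ) + 2 * a ≠ 1 := by
      intro h
      apply hne a ha
      have : 2 * a = 0 := by linear_combination h
      simpa using this
    apply ContinuousAt.continuousWithinAt
    exact ContinuousAt.comp (g := riemannZeta) (f := fun a : ℂ => 1 + 2 * a)
      (differentiableAt_riemannZeta h1).continuousAt (by fun_prop)
  have c4 : ContinuousOn (fun a : ℂ => riemannZeta (1 - 2 * a)) (sphere 0 r) := by
    intro a ha
    have h1 : (1 : ℂ) - 2 * a ≠ 1 := by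
      intro h
      apply hne a ha
      have : 2 * a = 0 := by linear_combination -h
      simpa using this
    apply ContinuousAt.continuousWithinAt
    exact ContinuousAt.comp (g := riemannZeta) (f := fun a : ℂ => 1 - 2 * a)
      (differentiableAt_riemannZeta h1).continuousAt (by fun_prop)
  have hb : ((|τ| / (2 * Real.pi) : ℝ) : ℂ) ≠ 0 := by
    have : 0 < |τ| / (2 * Real.pi) := div_pos (abs_pos.2 hτ) Real.two_pi_pos
    exact_mod_cast this.ne'
  have c5 : Continuous (fun a : ℂ => ((|τ| / (2 * Real.pi) : ℝ) : ℂ) ^ (-(2 * a))) :=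
    Continuous.const_cpow (by fun_prop) (Or.inl hb)
  exact (c3.mul c1).add (c5.continuousOn.mul (c4.mul c2))

/-- the shifted moment at `0` -/
lemma FG_zero (T τ : ℝ) (G : (ℕ → ℂ) → ℂ) :
    FG T τ G 0 = ((EG T τ (fun t => ‖riemannZeta (1 / 2 + t * I)‖ ^ 2 *
      ‖G (fs (1 / 2 + t * I))‖ ^ 2) : ℝ) : ℂ) := by
  unfold FG EG
  rw [← integral_complex_ofReal]
  refine integral_congr_ae (Filter.Eventually.of_forall fun t => ?_)
  have h1 : (1 / 2 + 0 - (t : ℂ) * I) = (starRingEnd ℂ) (1 / 2 + t * I) := by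
    apply Complex.ext <;> simp
  simp only
  rw [h1, riemannZeta_conj, add_zero, Complex.mul_conj', Complex.mul_conj']
  push_cast
  ring

end Second

open Second MeasureTheory ProbabilityTheory Complex Filter Topology Metric

theorem stSecond (h5 : StFin) (h9 : StExact) (h12 : StRA) (h13 : StShort) : StSecond := by
  intro η hη
  obtain ⟨C, δ, hC, hδ, hpole⟩ := zeta_pole
  have hη' : 0 < min 1 (η / 30) := by positivity
  obtain ⟨M1, hM1⟩ := h12 (min 1 (η / 30)) hη'
  obtain ⟨M2, hM2⟩ := h13 (1 / 1000) (by norm_num)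
  obtain ⟨T1, hT1, h9⟩ := h9
  refine ⟨max M1 M2, fun M hM => ?_⟩
  obtain ⟨k₁, hk0, hk1, T2, hT2, hRA⟩ := hM1 M ((le_max_left _ _).trans hM)
  obtain ⟨T3, hT3, hDP⟩ := hM2 M ((le_max_right _ _).trans hM)
  have hlog := Real.tendsto_log_atTop
  have hll : Tendsto (fun T : ℝ => Real.log (Real.log T) / Real.log T) atTop (𝓝 0) := by
    have h1 := (Real.isLittleO_log_id_atTop.tendsto_div_nhds_zero).comp hlog
    exact h1
  have hinv : Tendsto (fun T : ℝ => (Real.log T)⁻¹) atTop (𝓝 0) := tendsto_inv_atTop_zero.comp hlog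
  have ev1 : ∀ᶠ T : ℝ in atTop, 18 * C * (Real.log T)⁻¹ < η / 6 := by
    have h1 : Tendsto (fun T : ℝ => 18 * C * (Real.log T)⁻¹) atTop (𝓝 0) := by
      simpa using hinv.const_mul (18 * C)
    exact h1.eventually_lt_const (by positivity)
  have ev2 : ∀ᶠ T : ℝ in atTop,
      32 * (Real.log (Real.log T) / Real.log T + 2 * (Real.log T)⁻¹) < min 1 (η / 6) := by
    have h1 : Tendsto (fun T : ℝ => 32 * (Real.log (Real.log T) / Real.log T +
        2 * (Real.log T)⁻¹)) atTop (𝓝 0) := by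
      simpa using (hll.add (hinv.const_mul 2)).const_mul 32
    exact h1.eventually_lt_const (by positivity)
  have ev3 : ∀ᶠ T : ℝ in atTop, T ^ (-(1 / 1000) : ℝ) < η / 6 :=
    (tendsto_rpow_neg_atTop (by norm_num : (0 : ℝ) < 1 / 1000)).eventually_lt_const (by positivity)
  have ev4 : ∀ᶠ T : ℝ in atTop, 2 * (Real.log T)⁻¹ < min δ (1 / 2) := by
    have h1 : Tendsto (fun T : ℝ => 2 * (Real.log T)⁻¹) atTop (𝓝 0) := by
      simpa using hinv.const_mul 2
    exact h1.eventually_lt_const (by positivity)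
  obtain ⟨T4, hT4⟩ := eventually_atTop.1 (ev1.and (ev2.and (ev3.and ev4)))
  refine ⟨k₁, hk0, hk1, max (max T1 T2) (max T3 T4), ?_, ?_⟩
  · exact hT1.trans ((le_max_left _ _).trans (le_max_left _ _))
  intro T hT k hkk hk τ hτ1 hτ2
  have hTT1 : T1 ≤ T := ((le_max_left _ _).trans (le_max_left _ _)).trans hT
  have hTT2 : T2 ≤ T := ((le_max_right _ _).trans (le_max_left _ _)).trans hT
  have hTT3 : T3 ≤ T := ((le_max_left _ _).trans (le_max_right _ _)).trans hT
  have hTT4 : T4 ≤ T := ((le_max_right _ _).trans (le_max_right _ _)).trans hT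
  obtain ⟨e1, e2, e3, e4⟩ := hT4 T hTT4
  have hT3 : (3 : ℝ) ≤ T := hT1.trans hTT1
  have hT0 : (0 : ℝ) < T := by linarith
  set L := Real.log T with hLdef
  have hL1 : 1 ≤ L := by
    rw [hLdef, Real.le_log_iff_exp_le hT0]
    exact (Real.exp_one_lt_d9.le.trans (by norm_num)).trans hT3
  have hL0 : 0 < L := by linarith
  set R0 := L ^ (k ^ 2 - 1) with hR0
  have hR0p : 0 < R0 := Real.rpow_pos_of_pos hL0 _
  have hR0L : R0 * L = L ^ (k ^ 2) := by
    rw [hR0, ← Real.rpow_add_one hL0.ne']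
    congr 1; ring
  have hLk : 1 ≤ L ^ (k ^ 2) := Real.one_le_rpow hL1 (by positivity)
  have hk0' : 0 < k := hk0.trans_le hkk
  have hG : DP (T ^ (1 / 1000 : ℝ)) (T ^ (1 / 1000 : ℝ)) (NN T M (k - 1)) :=
    hDP T hTT3 (k - 1) (by rw [abs_le]; constructor <;> linarith) _ _
  have hNT : T ^ (1 / 1000 : ℝ) ≤ T := by
    calc T ^ (1 / 1000 : ℝ) ≤ T ^ (1 : ℝ) :=
        Real.rpow_le_rpow_of_exponent_le (by linarith) (by norm_num)
      _ = T := Real.rpow_one T
  have hτpos : 0 < |τ| := lt_of_lt_of_le (by positivity) hτ1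
  have hτ0 : τ ≠ 0 := abs_pos.1 hτpos
  have hex := h9 T hTT1 M τ hτ1 hτ2 (NN T M (k - 1)) hG
  rw [FG_zero] at hex
  -- the quantity `ℓ = log (|τ| / 2π)`
  have hpi3 := Real.pi_gt_three
  have hpi4 : Real.pi < 3.15 := Real.pi_lt_d2
  set ℓ := Real.log (|τ| / (2 * Real.pi)) with hℓ
  have hb0 : 0 < |τ| / (2 * Real.pi) := by positivity
  have hℓ1 : ℓ ≤ L := by
    rw [hℓ, hLdef]
    apply Real.log_le_log hb0
    rw [div_le_iff₀ (by positivity)]
    nlinarith
  have hℓ2 : L - (Real.log L + 2) ≤ ℓ := by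
    have h1 : T / L / (2 * Real.pi) ≤ |τ| / (2 * Real.pi) := by gcongr
    have h2 := Real.log_le_log (by positivity) h1
    rw [Real.log_div (by positivity) (by positivity), Real.log_div (by positivity) (by positivity)] at h2
    have h3 : Real.log (2 * Real.pi) ≤ 2 := by
      rw [Real.log_le_iff_le_exp (by positivity)]
      have h4 : (2.7182818283 : ℝ) < Real.exp 1 := Real.exp_one_gt_d9
      have h5 : Real.exp 2 = Real.exp 1 * Real.exp 1 := by rw [← Real.exp_add]; norm_num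
      rw [h5]
      nlinarith
    linarith
  have hlogL : 0 ≤ Real.log L := Real.log_nonneg hL1
  have hlogL2 : Real.log L ≤ L - 1 := Real.log_le_sub_one_of_pos hL0
  have hDabs : |ℓ - L| ≤ Real.log L + 2 := by
    rw [abs_le]; constructor <;> linarith
  have e2' : 32 * ((Real.log L + 2) / L) < min 1 (η / 6) := by
    have : (Real.log L + 2) / L = Real.log L / L + 2 * L⁻¹ := by field_simp
    rw [this]; exact e2
  have hmain : ‖Real.circleAverage (Mn T τ M (NN T M (k - 1))) 0 (1 / L) - R0 * L‖ ≤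
      R0 * L * (18 * C / L + 9 / 2 * min 1 (η / 30) + 32 * ((Real.log L + 2) / L) / 2) := by
    apply mean_core hL0
    · apply Mn_cont h5 (by linarith) hNT hG M hτ0 (by positivity)
      have := e4.trans_le (min_le_right _ _)
      rw [one_div]
      linarith [inv_pos.2 hL0]
    · intro a ha
      have ha0 : a ≠ 0 := by
        intro h; rw [h, norm_zero] at ha
        have : 0 < 1 / L := by positivity
        linarith
      have ha2 : ‖2 * a‖ < δ := by
        rw [norm_mul, ha]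
        have := e4.trans_le (min_le_left _ _)
        simpa using this
      have har : ‖a‖ ≤ Real.exp (M / 2) / L := by
        rw [ha]
        gcongr
        exact Real.one_le_exp (by positivity)
      have hz1 := hpole (2 * a) (by simpa using ha0) ha2
      have hz2 := hpole (-(2 * a)) (by simpa using ha0) (by rwa [norm_neg])
      rw [← sub_eq_add_neg] at hz2
      have hr1 := hRA T hTT2 k hkk hk a a har har
      have hr2 := hRA T hTT2 k hkk hk (-a) (-a) (by rwa [norm_neg]) (by rwa [norm_neg])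
      have hX : ((|τ| / (2 * Real.pi) : ℝ) : ℂ) ^ (-(2 * a)) = cexp (-(2 * a * ℓ)) := by
        rw [cpow_def_of_ne_zero (by exact_mod_cast hb0.ne'), ← Complex.ofReal_log hb0.le, ← hℓ]
        congr 1; ring
      have hXn : ‖cexp (-(2 * a * ℓ))‖ ≤ 8 := by
        refine (Complex.norm_exp_le_exp_norm _).trans ?_
        have h1 : ‖-(2 * a * (ℓ : ℂ))‖ ≤ 2 := by
          rw [norm_neg, norm_mul, norm_mul, ha, Complex.norm_real, Real.norm_eq_abs]
          have h2 : |ℓ| ≤ L := by rw [abs_le]; constructor <;> linarith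
          have h3 : ‖(2 : ℂ)‖ = 2 := by simp
          rw [h3]
          calc 2 * (1 / L) * |ℓ| ≤ 2 * (1 / L) * L := by gcongr
            _ = 2 := by field_simp
        refine (Real.exp_le_exp.2 h1).trans ?_
        have h4 : Real.exp 1 < 2.7182818286 := Real.exp_one_lt_d9
        have h5 : Real.exp 2 = Real.exp 1 * Real.exp 1 := by rw [← Real.exp_add]; norm_num
        rw [h5]
        have := Real.exp_pos 1
        nlinarith
      have hX0n : ‖cexp (-(2 * a * L))‖ ≤ 8 := by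
        refine (Complex.norm_exp_le_exp_norm _).trans ?_
        have h1 : ‖-(2 * a * (L : ℂ))‖ ≤ 2 := by
          rw [norm_neg, norm_mul, norm_mul, ha, Complex.norm_real, Real.norm_of_nonneg hL0.le]
          have h3 : ‖(2 : ℂ)‖ = 2 := by simp
          rw [h3]
          apply le_of_eq; field_simp
        refine (Real.exp_le_exp.2 h1).trans ?_
        have h4 : Real.exp 1 < 2.7182818286 := Real.exp_one_lt_d9
        have h5 : Real.exp 2 = Real.exp 1 * Real.exp 1 := by rw [← Real.exp_add]; norm_num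
        rw [h5]
        have := Real.exp_pos 1
        nlinarith
      have hXX : ‖cexp (-(2 * a * L)) - cexp (-(2 * a * ℓ))‖ ≤ 32 * ((Real.log L + 2) / L) := by
        have h1 : cexp (-(2 * a * L)) - cexp (-(2 * a * ℓ)) =
            -(cexp (-(2 * a * L)) * (cexp (-(2 * a * ((ℓ - L : ℝ) : ℂ))) - 1)) := by
          rw [mul_sub, ← Complex.exp_add, mul_one, neg_sub]
          congr 2
          push_cast; ring
        have h2 : ‖-(2 * a * ((ℓ - L : ℝ) : ℂ))‖ ≤ 2 * ((Real.log L + 2) / L) := by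
          rw [norm_neg, norm_mul, norm_mul, ha, Complex.norm_real, Real.norm_eq_abs]
          have h3 : ‖(2 : ℂ)‖ = 2 := by simp
          rw [h3]
          calc 2 * (1 / L) * |ℓ - L| ≤ 2 * (1 / L) * (Real.log L + 2) := by gcongr
            _ = 2 * ((Real.log L + 2) / L) := by ring
        have h4 : 2 * ((Real.log L + 2) / L) ≤ 1 := by
          have := e2'.trans_le (min_le_left _ _)
          linarith [show 0 ≤ (Real.log L + 2) / L by positivity]
        have h5 := Complex.norm_exp_sub_one_le (h2.trans h4)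
        rw [h1, norm_neg, norm_mul]
        calc _ ≤ 8 * (2 * (2 * ((Real.log L + 2) / L))) := by
              gcongr
              exact h5.trans (by gcongr)
          _ = _ := by ring
      unfold Mn
      rw [hX]
      exact point_core hL0 ha hR0p.le (min_le_left _ _) hC.le hz1 hz2 hr1 hr2 hXn hXX
  set E := EG T τ (fun t => ‖riemannZeta (1 / 2 + t * I)‖ ^ 2 *
    ‖NN T M (k - 1) (fs (1 / 2 + t * I))‖ ^ 2) with hE
  have hfin : ‖((E - R0 * L : ℝ) : ℂ)‖ ≤ T ^ (-(1 / 1000) : ℝ) +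
      R0 * L * (18 * C / L + 9 / 2 * min 1 (η / 30) + 32 * ((Real.log L + 2) / L) / 2) := by
    calc ‖((E - R0 * L : ℝ) : ℂ)‖ = ‖((E : ℂ) - Real.circleAverage (Mn T τ M (NN T M (k - 1))) 0 (1 / L)) +
          (Real.circleAverage (Mn T τ M (NN T M (k - 1))) 0 (1 / L) - R0 * L)‖ := by
          push_cast; ring_nf
      _ ≤ _ := (norm_add_le _ _).trans (add_le_add hex hmain)
  rw [Complex.norm_real, Real.norm_eq_abs, hR0L] at hfin
  refine hfin.trans ?_
  have f1 : T ^ (-(1 / 1000) : ℝ) ≤ η / 6 * L ^ (k ^ 2) := by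
    nlinarith
  have f2 : 18 * C / L + 9 / 2 * min 1 (η / 30) + 32 * ((Real.log L + 2) / L) / 2 ≤
      η / 6 + 9 / 2 * (η / 30) + η / 12 := by
    have g1 : 18 * C / L ≤ η / 6 := by rw [div_eq_mul_inv]; exact e1.le
    have g2 : min 1 (η / 30) ≤ η / 30 := min_le_right _ _
    have g3 := (e2'.trans_le (min_le_right _ _)).le
    linarith
  have f3 : L ^ (k ^ 2) * (18 * C / L + 9 / 2 * min 1 (η / 30) + 32 * ((Real.log L + 2) / L) / 2) ≤
      L ^ (k ^ 2) * (η / 6 + 9 / 2 * (η / 30) + η / 12) := by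
    gcongr
  nlinarith

end K1
end Pool.Agent.Lib.MP_973905_nt
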