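import Pool.Agent.Lib.MP_973905_nt.K1.Stmts

/-! Module (11): one block with shifts. -/

namespace Pool.Agent.Lib.MP_973905_nt
namespace K1

open MeasureTheory ProbabilityTheory Complex Filter Topology

namespace BlkShift

/-- the function under the average -/
noncomputable def FL (u x : ℝ) (x₁ x₂ : ℂ) (z : ℂ) : ℂ :=
  (1 - x₁ * z)⁻¹ * (1 - x₂ * (starRingEnd ℂ) z)⁻¹ * ((‖1 - x * z‖ ^ (2 * u) : ℝ) : ℂ)

lemma one_sub_ne {w z : ℂ} (hw : ‖w‖ < 1) (hz : ‖z‖ = 1) : 1 - w * z ≠ 0 := by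
  intro h
  have h1 : w * z = 1 := by linear_combination -h
  have h2 : ‖w‖ * ‖z‖ = 1 := by rw [← norm_mul, h1, norm_one]
  rw [hz, mul_one] at h2
  linarith

lemma FL_cont {u x : ℝ} {x₁ x₂ : ℂ} (hx0 : 0 ≤ x) (hx : x < 1) (h1 : ‖x₁‖ < 1)
    (h2 : ‖x₂‖ < 1) : ContinuousOn (FL u x x₁ x₂) (Metric.sphere 0 |(1 : ℝ)|) := by
  have hz : ∀ z ∈ Metric.sphere (0 : ℂ) |(1 : ℝ)|, ‖z‖ = 1 := by
    intro z hz; simpa using hz
  unfold FL
  refine ContinuousOn.mul (ContinuousOn.mul ?_ ?_) ?_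
  · refine ContinuousOn.inv₀ (by fun_prop) fun z hz' => one_sub_ne h1 (hz z hz')
  · refine ContinuousOn.inv₀ ?_ fun z hz' => one_sub_ne h2 (by rw [RCLike.norm_conj]; exact hz z hz')
    exact continuousOn_const.sub (continuousOn_const.mul continuous_conj.continuousOn)
  · refine continuous_ofReal.comp_continuousOn ?_
    refine ContinuousOn.rpow_const (by fun_prop) fun z hz' => Or.inl ?_
    rw [norm_ne_zero_iff]
    exact one_sub_ne (by rw [norm_real, Real.norm_eq_abs, abs_of_nonneg hx0]; exact hx) (hz z hz')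

lemma FL_re {u x : ℝ} {x₁ x₂ : ℂ} (hu0 : 0 ≤ u) (hu1 : u ≤ 1) (hx0 : 0 ≤ x) (hx : x ≤ 7072 / 10000)
    (h1 : ‖x₁ - x‖ ≤ 525 / 10000 * x) (h2 : ‖x₂ - x‖ ≤ 525 / 10000 * x) {z : ℂ} (hz : ‖z‖ = 1) :
    1 / 5 ≤ (FL u x x₁ x₂ z).re := by
  have hn : ∀ y : ℂ, ‖y - x‖ ≤ 525 / 10000 * x → ‖y‖ ≤ 7444 / 10000 := by
    intro y hy
    have h3 : ‖y‖ ≤ ‖y - x‖ + ‖(x : ℂ)‖ := by
      have := norm_add_le (y - x) (x : ℂ); rwa [sub_add_cancel] at this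
    rw [norm_real, Real.norm_eq_abs, abs_of_nonneg hx0] at h3
    nlinarith
  have hx1 := hn x₁ h1
  have hx2 := hn x₂ h2
  have hxn : ‖(x : ℂ)‖ = x := by rw [norm_real, Real.norm_eq_abs, abs_of_nonneg hx0]
  have g1 : ∀ y w : ℂ, ‖y‖ ≤ 7444 / 10000 → ‖w‖ = 1 → 2556 / 10000 ≤ ‖1 - y * w‖ := by
    intro y w hy hw
    have := norm_sub_norm_le (1 : ℂ) (y * w)
    rw [norm_one, norm_mul, hw, mul_one] at this
    linarith
  have hcz : ‖(starRingEnd ℂ) z‖ = 1 := by rw [RCLike.norm_conj]; exact hz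
  have n1 := one_sub_ne (w := x₁) (by linarith) hz
  have n2 := one_sub_ne (w := x₂) (by linarith) hcz
  have n3 := one_sub_ne (w := (x : ℂ)) (by rw [hxn]; linarith) hz
  have n4 := one_sub_ne (w := (x : ℂ)) (by rw [hxn]; linarith) hcz
  -- the two perturbations
  set e₁ : ℂ := (x₁ - x) * z / (1 - x₁ * z) with he1
  set e₂ : ℂ := (x₂ - x) * (starRingEnd ℂ) z / (1 - x₂ * (starRingEnd ℂ) z) with he2
  have b1 : ‖e₁‖ ≤ 1453 / 10000 := by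
    rw [he1, norm_div, norm_mul, hz, mul_one, div_le_iff₀ (norm_pos_iff.mpr n1)]
    have := g1 x₁ z hx1 hz
    nlinarith
  have b2 : ‖e₂‖ ≤ 1453 / 10000 := by
    rw [he2, norm_div, norm_mul, hcz, mul_one, div_le_iff₀ (norm_pos_iff.mpr n2)]
    have := g1 x₂ _ hx2 hcz
    nlinarith
  have i1 : (1 - x₁ * z)⁻¹ = (1 - x * z)⁻¹ * (1 + e₁) := by
    have q : 1 + e₁ = (1 - x * z) * (1 - x₁ * z)⁻¹ := by
      rw [he1, div_eq_mul_inv]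
      have := mul_inv_cancel₀ n1
      linear_combination -this
    rw [q, inv_mul_cancel_left₀ n3]
  have i2 : (1 - x₂ * (starRingEnd ℂ) z)⁻¹ = (1 - x * (starRingEnd ℂ) z)⁻¹ * (1 + e₂) := by
    have q : 1 + e₂ = (1 - x * (starRingEnd ℂ) z) * (1 - x₂ * (starRingEnd ℂ) z)⁻¹ := by
      rw [he2, div_eq_mul_inv]
      have := mul_inv_cancel₀ n2
      linear_combination -this
    rw [q, inv_mul_cancel_left₀ n4]
  have c1 : (starRingEnd ℂ) (1 - x * z) = 1 - x * (starRingEnd ℂ) z := by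
    rw [map_sub, map_mul, map_one, conj_ofReal]
  have c2 : (1 - (x : ℂ) * z)⁻¹ * (1 - (x : ℂ) * (starRingEnd ℂ) z)⁻¹ =
      (((‖1 - (x : ℂ) * z‖ ^ 2)⁻¹ : ℝ) : ℂ) := by
    rw [← c1, ← mul_inv, mul_conj, normSq_eq_norm_sq]
    push_cast; rfl
  set r : ℝ := ‖1 - (x : ℂ) * z‖ with hr
  have hr0 : 0 < r := norm_pos_iff.mpr n3
  have hr1 : r ≤ 17072 / 10000 := by
    have := norm_sub_le (1 : ℂ) (x * z)
    rw [norm_one, norm_mul, hxn, hz, mul_one] at this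
    rw [hr]; linarith
  have e : FL u x x₁ x₂ z = (((r ^ 2)⁻¹ * r ^ (2 * u) : ℝ) : ℂ) * ((1 + e₁) * (1 + e₂)) := by
    rw [FL, i1, i2]
    push_cast
    rw [show ((r : ℂ) ^ 2)⁻¹ = (((r ^ 2)⁻¹ : ℝ) : ℂ) by push_cast; rfl, ← c2]
    ring
  rw [e, re_ofReal_mul]
  have h3 : 1 - 312 / 1000 ≤ ((1 + e₁) * (1 + e₂)).re := by
    have h4 : (1 + e₁) * (1 + e₂) = 1 + (e₁ + e₂ + e₁ * e₂) := by ring
    rw [h4, add_re, one_re]
    have h5 : ‖e₁ + e₂ + e₁ * e₂‖ ≤ 312 / 1000 := by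
      have q1 := norm_add_le (e₁ + e₂) (e₁ * e₂)
      have q2 := norm_add_le e₁ e₂
      rw [norm_mul] at q1
      nlinarith [norm_nonneg e₁, norm_nonneg e₂]
    have h6 := (abs_le.mp ((abs_re_le_norm _).trans h5)).1
    linarith
  have h4 : 3431 / 10000 ≤ (r ^ 2)⁻¹ * r ^ (2 * u) := by
    rcases le_or_gt 1 r with h5 | h5
    · have h6 : 1 ≤ r ^ (2 * u) := Real.one_le_rpow h5 (by positivity)
      have h7 : 3431 / 10000 ≤ (r ^ 2)⁻¹ := by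
        rw [le_inv_comm₀ (by norm_num) (by positivity)]
        nlinarith
      nlinarith
    · have h6 : r ^ (2 : ℝ) ≤ r ^ (2 * u) := Real.rpow_le_rpow_of_exponent_ge hr0 h5.le (by linarith)
      rw [Real.rpow_two] at h6
      have h7 : (r ^ 2)⁻¹ * r ^ 2 = 1 := inv_mul_cancel₀ (by positivity)
      have h8 : (r ^ 2)⁻¹ * r ^ 2 ≤ (r ^ 2)⁻¹ * r ^ (2 * u) :=
        mul_le_mul_of_nonneg_left h6 (by positivity)
      linarith
  nlinarith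

lemma LF_ge {u x : ℝ} {x₁ x₂ : ℂ} (hu0 : 0 ≤ u) (hu1 : u ≤ 1) (hx0 : 0 ≤ x) (hx : x ≤ 7072 / 10000)
    (h1 : ‖x₁ - x‖ ≤ 525 / 10000 * x) (h2 : ‖x₂ - x‖ ≤ 525 / 10000 * x) :
    1 / 5 ≤ ‖LF u x x₁ x₂‖ := by
  have hn : ∀ y : ℂ, ‖y - x‖ ≤ 525 / 10000 * x → ‖y‖ < 1 := by
    intro y hy
    have h3 : ‖y‖ ≤ ‖y - x‖ + ‖(x : ℂ)‖ := by
      have := norm_add_le (y - x) (x : ℂ); rwa [sub_add_cancel] at this
    rw [norm_real, Real.norm_eq_abs, abs_of_nonneg hx0] at h3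
    nlinarith
  have hc : CircleIntegrable (FL u x x₁ x₂) 0 1 := by
    have := FL_cont (u := u) hx0 (by linarith) (hn x₁ h1) (hn x₂ h2)
    exact this.circleIntegrable'
  have hre : (LF u x x₁ x₂).re = Real.circleAverage (fun z => (FL u x x₁ x₂ z).re) 0 1 := by
    rw [LF, Real.circleAverage_def, Real.circleAverage_def]
    rw [Complex.smul_re]
    congr 1
    have := Complex.reCLM.intervalIntegral_comp_comm (μ := volume) (a := 0) (b := 2 * Real.pi) hc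
    simp only [Complex.reCLM_apply] at this
    exact this.symm
  have hmono : Real.circleAverage (fun _ : ℂ => (1 / 5 : ℝ)) 0 1 ≤
      Real.circleAverage (fun z => (FL u x x₁ x₂ z).re) 0 1 := by
    apply Real.circleAverage_mono
    · exact circleIntegrable_const _ _ _
    · have := FL_cont (u := u) hx0 (by linarith) (hn x₁ h1) (hn x₂ h2)
      exact (Complex.continuous_re.comp_continuousOn this).circleIntegrable'
    · intro z hz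
      exact FL_re hu0 hu1 hx0 hx h1 h2 (by simpa using hz)
  rw [Real.circleAverage_const] at hmono
  calc (1 / 5 : ℝ) ≤ (LF u x x₁ x₂).re := by rw [hre]; exact hmono
    _ ≤ _ := re_le_norm _

lemma one_sub_ge_exp {y : ℝ} (h0 : 0 ≤ y) (h1 : y ≤ 1 / 2) : Real.exp (-(2 * y)) ≤ 1 - y := by
  have hp : 0 < 1 - y := by linarith
  rw [← Real.le_log_iff_exp_le hp]
  refine le_trans ?_ (Real.one_sub_inv_le_log_of_pos hp)
  rw [le_sub_iff_add_le, ← le_sub_iff_add_le', inv_le_comm₀ hp (by linarith)]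
  rw [sub_neg_eq_add, inv_le_iff_one_le_mul₀ (by linarith)]
  nlinarith

lemma one_add_ge_exp {y : ℝ} (h0 : -(501 / 1000) ≤ y) :
    Real.exp (y - 3 * y ^ 2) ≤ 1 + y := by
  have hp : 0 < 1 + y := by linarith
  rw [← Real.le_log_iff_exp_le hp]
  refine le_trans ?_ (Real.one_sub_inv_le_log_of_pos hp)
  have h2 : 1 - (1 + y)⁻¹ = y - y ^ 2 * (1 + y)⁻¹ := by
    have := mul_inv_cancel₀ hp.ne'
    linear_combination (y - 1) * this
  rw [h2]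
  have h3 : (1 + y)⁻¹ ≤ 3 := by
    rw [inv_le_comm₀ hp (by norm_num)]; linarith
  nlinarith [sq_nonneg y]

lemma LF_lower (h : StLF) : ∃ B : ℝ, 0 < B ∧ ∀ (u x : ℝ) (x₁ x₂ : ℂ), 0 ≤ u → u ≤ 1 → 0 ≤ x →
    x ≤ 7072 / 10000 → ‖x₁ - x‖ ≤ 525 / 10000 * x → ‖x₂ - x‖ ≤ 525 / 10000 * x →
    Real.exp ((1 - u) ^ 2 * x ^ 2 - B * (x * ‖x₁ - x‖ + x * ‖x₂ - x‖ + x ^ 4)) ≤ ‖LF u x x₁ x₂‖ := by
  obtain ⟨C, hC, h⟩ := h
  refine ⟨20 * (C + 3), by positivity, fun u x x₁ x₂ hu0 hu1 hx0 hx h1 h2 => ?_⟩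
  set ε : ℝ := x * ‖x₁ - x‖ + x * ‖x₂ - x‖ + x ^ 4 with hε
  have hε0 : 0 ≤ ε := by positivity
  have hx4 : x ^ 4 ≤ ε := by
    have : 0 ≤ x * ‖x₁ - x‖ + x * ‖x₂ - x‖ := by positivity
    linarith
  have hxs : x ^ 2 ≤ 501 / 1000 := by nlinarith
  rcases le_or_gt ((C + 3) * ε) (1 / 8) with hcase | hcase
  · have hn : ∀ y : ℂ, ‖y - x‖ ≤ 525 / 10000 * x → ‖y‖ ≤ 10525 / 10000 * x := by
      intro y hy
      have h3 : ‖y‖ ≤ ‖y - x‖ + ‖(x : ℂ)‖ := by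
        have := norm_add_le (y - x) (x : ℂ); rwa [sub_add_cancel] at this
      rw [norm_real, Real.norm_eq_abs, abs_of_nonneg hx0] at h3
      linarith
    have hx1 := hn x₁ h1
    have hx2 := hn x₂ h2
    have h3 := h u x x₁ x₂ hu0 hu1 hx0 (by linarith) (by linarith) (by linarith) (by linarith)
      (by linarith)
    have e3 : C * u * x * (‖x₁ - x‖ + ‖x₂ - x‖ + x ^ 3) ≤ C * ε := by
      have : C * u * x * (‖x₁ - x‖ + ‖x₂ - x‖ + x ^ 3) = u * (C * ε) := by rw [hε]; ring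
      rw [this]
      exact mul_le_of_le_one_left (by positivity) hu1
    set A : ℝ := (u ^ 2 - 2 * u) * x ^ 2 with hA
    have hA1 : A ≤ 0 := by
      have : u ^ 2 - 2 * u ≤ 0 := by nlinarith
      exact mul_nonpos_of_nonpos_of_nonneg this (sq_nonneg x)
    have hA2 : -x ^ 2 ≤ A := by
      rw [hA]; nlinarith [sq_nonneg (1 - u), sq_nonneg x, mul_nonneg (sq_nonneg (1 - u)) (sq_nonneg x)]
    have hA3 : A ^ 2 ≤ ε := by
      have : A ^ 2 ≤ (x ^ 2) ^ 2 := by nlinarith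
      calc A ^ 2 ≤ (x ^ 2) ^ 2 := this
        _ = x ^ 4 := by ring
        _ ≤ ε := hx4
    have h4 : 1 + A - C * ε ≤ ‖(1 - x₁ * x₂) * LF u x x₁ x₂‖ := by
      have h5 := norm_sub_norm_le (((1 + A : ℝ) : ℂ)) ((1 - x₁ * x₂) * LF u x x₁ x₂)
      rw [norm_sub_rev, norm_real, Real.norm_eq_abs, abs_of_nonneg (by linarith)] at h5
      have h6 : ‖(1 - x₁ * x₂) * LF u x x₁ x₂ - ((1 + A : ℝ) : ℂ)‖ ≤ C * ε := h3.trans e3
      linarith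
    have h5 : ‖1 - x₁ * x₂‖ ≤ Real.exp (-x ^ 2 + 2 * ε) := by
      have e5 : 1 - x₁ * x₂ = ((1 - x ^ 2 : ℝ) : ℂ) - (x * (x₂ - x) + x₂ * (x₁ - x)) := by
        push_cast; ring
      have h6 : ‖(x : ℂ) * (x₂ - x) + x₂ * (x₁ - x)‖ ≤ 2 * ε := by
        refine (norm_add_le _ _).trans ?_
        rw [norm_mul, norm_mul, norm_real, Real.norm_eq_abs, abs_of_nonneg hx0]
        have : ‖x₂‖ * ‖x₁ - x‖ ≤ 10525 / 10000 * x * ‖x₁ - x‖ := by gcongr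
        have h7 : 0 ≤ x * ‖x₁ - x‖ := by positivity
        have h8 : 0 ≤ x * ‖x₂ - x‖ := by positivity
        have h9 : 0 ≤ x ^ 4 := by positivity
        rw [hε]
        nlinarith
      have h7 : ‖1 - x₁ * x₂‖ ≤ (1 - x ^ 2) + 2 * ε := by
        rw [e5]
        refine (norm_sub_le _ _).trans ?_
        rw [norm_real, Real.norm_eq_abs, abs_of_nonneg (by linarith)]
        linarith
      have h8 := Real.add_one_le_exp (-x ^ 2 + 2 * ε)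
      linarith
    have h6 : Real.exp (A - 3 * ε) ≤ 1 + A := by
      refine le_trans ?_ (one_add_ge_exp (y := A) (by linarith))
      apply Real.exp_le_exp.mpr
      linarith
    have h7 : Real.exp (-(2 * (3 * (C * ε)))) ≤ 1 - 3 * (C * ε) :=
      one_sub_ge_exp (by positivity) (by nlinarith)
    have h8 : Real.exp (A - 3 * ε) * Real.exp (-(2 * (3 * (C * ε)))) ≤ 1 + A - C * ε := by
      have h9 : 0 ≤ C * ε := by positivity
      calc Real.exp (A - 3 * ε) * Real.exp (-(2 * (3 * (C * ε)))) ≤ (1 + A) * (1 - 3 * (C * ε)) := by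
            gcongr
            linarith
        _ ≤ _ := by nlinarith
    have h9 : Real.exp (A - 3 * ε) * Real.exp (-(2 * (3 * (C * ε)))) ≤
        Real.exp (-x ^ 2 + 2 * ε) * ‖LF u x x₁ x₂‖ := by
      refine h8.trans (h4.trans ?_)
      rw [norm_mul]
      gcongr
    have h10 : Real.exp (x ^ 2 - 2 * ε) * (Real.exp (-x ^ 2 + 2 * ε) * ‖LF u x x₁ x₂‖) =
        ‖LF u x x₁ x₂‖ := by
      rw [← mul_assoc, ← Real.exp_add]; simp
    rw [← h10]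
    refine le_trans ?_ (mul_le_mul_of_nonneg_left h9 (Real.exp_pos _).le)
    rw [← Real.exp_add, ← Real.exp_add]
    apply Real.exp_le_exp.mpr
    have h11 : (1 - u) ^ 2 * x ^ 2 = A + x ^ 2 := by rw [hA]; ring
    have h12 : 0 ≤ C * ε := by positivity
    nlinarith
  · refine le_trans ?_ (LF_ge hu0 hu1 hx0 hx h1 h2)
    have h3 : (1 - u) ^ 2 * x ^ 2 ≤ 501 / 1000 := by
      have : (1 - u) ^ 2 ≤ 1 := by nlinarith
      nlinarith [sq_nonneg x]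
    calc Real.exp ((1 - u) ^ 2 * x ^ 2 - 20 * (C + 3) * ε) ≤ Real.exp (-1 + -(9 / 10)) := by
          apply Real.exp_le_exp.mpr
          have : 20 * (C + 3) * ε = 20 * ((C + 3) * ε) := by ring
          linarith
      _ = Real.exp (-1) * Real.exp (-(9 / 10)) := Real.exp_add _ _
      _ ≤ 1 / 5 := by
          have q1 : Real.exp (-1) ≤ 37 / 100 := by
            have := Real.exp_neg_one_lt_d9; linarith
          have q2 : Real.exp (-(9 / 10)) ≤ 1 / 2 := by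
            rw [Real.exp_neg, inv_le_comm₀ (Real.exp_pos _) (by norm_num)]
            have := Real.quadratic_le_exp_of_nonneg (show (0 : ℝ) ≤ 9 / 10 by norm_num)
            norm_num at this ⊢
            linarith
          nlinarith [Real.exp_pos (-1), Real.exp_pos (-(9 / 10))]

/-- the size of the shifted prime power -/
lemma shift_bd {p : ℕ} (hp : p.Prime) {a : ℂ} (ha : ‖a‖ * Real.log p ≤ 1 / 20) :
    ‖(p : ℂ) ^ (-(1 / 2 + a)) - (((p : ℝ) ^ (-(1 / 2) : ℝ) : ℝ) : ℂ)‖ ≤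
      105 / 100 * (p : ℝ) ^ (-(1 / 2) : ℝ) * (‖a‖ * Real.log p) ∧
    ‖(p : ℂ) ^ (-(1 / 2 + a)) - (((p : ℝ) ^ (-(1 / 2) : ℝ) : ℝ) : ℂ)‖ ≤
      525 / 10000 * (p : ℝ) ^ (-(1 / 2) : ℝ) ∧ (p : ℝ) ^ (-(1 / 2) : ℝ) ≤ 7072 / 10000 := by
  have hp0 : (p : ℂ) ≠ 0 := by exact_mod_cast hp.ne_zero
  have hlog : 0 ≤ Real.log p := Real.log_natCast_nonneg p
  have e : (p : ℂ) ^ (-(1 / 2 + a)) = (((p : ℝ) ^ (-(1 / 2) : ℝ) : ℝ) : ℂ) * cexp (-(a * Real.log p)) := by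
    rw [neg_add, cpow_add _ _ hp0, ofReal_cpow (by positivity)]
    push_cast
    congr 1
    rw [cpow_def_of_ne_zero hp0]
    congr 1; ring
  have hx0 : 0 ≤ (p : ℝ) ^ (-(1 / 2) : ℝ) := by positivity
  have hz : ‖-(a * (Real.log p : ℂ))‖ = ‖a‖ * Real.log p := by
    rw [norm_neg, norm_mul, norm_real, Real.norm_eq_abs, abs_of_nonneg hlog]
  have h0 : 0 ≤ ‖a‖ * Real.log p := by positivity
  have h1 : ‖cexp (-(a * Real.log p)) - 1‖ ≤ 105 / 100 * (‖a‖ * Real.log p) := by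
    refine (norm_exp_sub_one_le' _).trans ?_
    rw [hz]
    have h2 := Real.abs_exp_sub_one_sub_id_le (x := ‖a‖ * Real.log p) (by
      rw [abs_of_nonneg h0]; linarith)
    have h3 := (abs_le.mp h2).2
    nlinarith
  have h2 : ‖(p : ℂ) ^ (-(1 / 2 + a)) - (((p : ℝ) ^ (-(1 / 2) : ℝ) : ℝ) : ℂ)‖ ≤
      105 / 100 * (p : ℝ) ^ (-(1 / 2) : ℝ) * (‖a‖ * Real.log p) := by
    rw [e, show (((p : ℝ) ^ (-(1 / 2) : ℝ) : ℝ) : ℂ) * cexp (-(a * Real.log p)) -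
      (((p : ℝ) ^ (-(1 / 2) : ℝ) : ℝ) : ℂ) = (((p : ℝ) ^ (-(1 / 2) : ℝ) : ℝ) : ℂ) *
        (cexp (-(a * Real.log p)) - 1) by ring, norm_mul, norm_real, Real.norm_eq_abs,
      abs_of_nonneg hx0]
    calc _ ≤ (p : ℝ) ^ (-(1 / 2) : ℝ) * (105 / 100 * (‖a‖ * Real.log p)) := by gcongr
      _ = _ := by ring
  refine ⟨h2, h2.trans ?_, ?_⟩
  · nlinarith
  · have h2 : (2 : ℝ) ≤ p := by exact_mod_cast hp.two_le
    calc (p : ℝ) ^ (-(1 / 2) : ℝ) ≤ (2 : ℝ) ^ (-(1 / 2) : ℝ) :=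
        Real.rpow_le_rpow_of_nonpos (by norm_num) h2 (by norm_num)
    _ ≤ 7072 / 10000 := by
        rw [Real.rpow_neg (by norm_num), inv_le_comm₀ (by positivity) (by norm_num),
          ← Real.sqrt_eq_rpow]
        apply Real.le_sqrt_of_sq_le
        norm_num

/-- the weight `|1 - x f|^{2u}` -/
noncomputable def Wt (u : ℝ) (S : Finset ℕ) (f : ℕ → ℂ) : ℝ :=
  ∏ p ∈ S, ‖1 - tw ((1 / 2 : ℝ) : ℂ) f p‖ ^ (2 * u)

lemma Wt_eq {u : ℝ} {S : Finset ℕ} (f : ℕ → ℂ) :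
    Wt u S f = ‖ZZ S (tw ((1 / 2 : ℝ) : ℂ) f)‖ ^ (2 * (-u)) := by
  rw [Wt, ZZ, norm_prod, ← Real.finsetProd_rpow _ _ fun p _ => norm_nonneg _]
  refine Finset.prod_congr rfl fun p _ => ?_
  rw [norm_inv, Real.inv_rpow (norm_nonneg _), ← Real.rpow_neg (norm_nonneg _)]
  congr 1; ring

lemma Wt_nonneg (u : ℝ) (S : Finset ℕ) (f : ℕ → ℂ) : 0 ≤ Wt u S f :=
  Finset.prod_nonneg fun p _ => Real.rpow_nonneg (norm_nonneg _) _

lemma bs_Wt {u : ℝ} (hu : 0 ≤ u) {S : Finset ℕ} (hS : ∀ p ∈ S, p.Prime) : BS S (Wt u S) := by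
  refine ⟨?_, ∏ p ∈ S, (2 : ℝ) ^ (2 * u), fun ω => ?_⟩
  · refine continuous_finsetProd _ fun p _ => ?_
    refine Continuous.rpow_const ?_ fun _ => Or.inr (by positivity)
    exact (continuous_const.sub (continuous_const.mul (continuous_ext S p))).norm
  · rw [Real.norm_eq_abs, abs_of_nonneg (Wt_nonneg _ _ _)]
    refine Finset.prod_le_prod (fun p _ => Real.rpow_nonneg (norm_nonneg _) _) fun p hp => ?_
    refine Real.rpow_le_rpow (norm_nonneg _) ?_ (by positivity)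
    refine (norm_sub_le _ _).trans ?_
    rw [norm_one, norm_tw_ext S ω _ (hS p hp).ne_zero, ofReal_re]
    have := (prime_rpow_le (hS p hp) (le_refl (1 / 2 : ℝ))).2
    linarith

lemma conj_nat_cpow (p : ℕ) (w : ℂ) : (starRingEnd ℂ) ((p : ℂ) ^ w) = (p : ℂ) ^ ((starRingEnd ℂ) w) := by
  have h := cpow_conj (p : ℂ) w (by
    rw [show (p : ℂ) = ((p : ℝ) : ℂ) by push_cast; rfl, arg_ofReal_of_nonneg (by positivity)]
    exact Real.pi_ne_zero.symm)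
  rw [h, conj_natCast]

lemma conj_ZZ (S : Finset ℕ) (a : ℂ) (f : ℕ → ℂ) :
    (starRingEnd ℂ) (ZZ S (tw (1 / 2 + (starRingEnd ℂ) a) f)) =
      ∏ p ∈ S, (1 - (p : ℂ) ^ (-(1 / 2 + a)) * (starRingEnd ℂ) (f p))⁻¹ := by
  rw [ZZ, map_prod]
  refine Finset.prod_congr rfl fun p _ => ?_
  rw [map_inv₀, map_sub, map_one, tw, map_mul, conj_nat_cpow]
  congr 4
  rw [map_neg, map_add, conj_conj, map_div₀, map_one]
  congr 2
  rw [show (2 : ℂ) = ((2 : ℝ) : ℂ) by push_cast; rfl, conj_ofReal]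

lemma tw_half (f : ℕ → ℂ) (p : ℕ) :
    tw ((1 / 2 : ℝ) : ℂ) f p = (((p : ℝ) ^ (-(1 / 2) : ℝ) : ℝ) : ℂ) * f p := tw_real _ _ _

lemma LP_eq (u : ℝ) (a₁ a₂ : ℂ) (S : Finset ℕ) :
    ES S (fun f => ZZ S (tw (1 / 2 + a₁) f) * (starRingEnd ℂ) (ZZ S (tw (1 / 2 + (starRingEnd ℂ) a₂) f)) *
      ((Wt u S f : ℝ) : ℂ)) = LP u a₁ a₂ S := by
  have h := ES_prod (𝕜 := ℂ) S (fun p z => FL u ((p : ℝ) ^ (-(1 / 2) : ℝ)) ((p : ℂ) ^ (-(1 / 2 + a₁)))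
    ((p : ℂ) ^ (-(1 / 2 + a₂))) z)
  rw [LP]
  refine Eq.trans ?_ h
  congr 1
  ext f
  rw [conj_ZZ, ZZ, Wt, ofReal_prod, ← Finset.prod_mul_distrib, ← Finset.prod_mul_distrib]
  refine Finset.prod_congr rfl fun p _ => ?_
  rw [FL, tw_half]
  rfl

lemma rho_three {S : Finset ℕ} (hS : ∀ p ∈ S, p.Prime) : rho 3 S ≤ 8 := by
  have h := XB.sum_inv_sq hS
  have e : rho 3 S = 4 * ∑ p ∈ S, ((p : ℝ) ^ 2)⁻¹ := by
    rw [rho, Finset.mul_sum]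
    refine Finset.sum_congr rfl fun p _ => ?_
    rw [← Real.rpow_natCast, ← Real.rpow_mul (by positivity), ← Real.rpow_natCast,
      ← Real.rpow_neg (by positivity)]
    congr 2; norm_num
  rw [e]; linarith

lemma inv_form {p : ℕ} : ((p : ℝ) ^ (-(1 / 2) : ℝ)) ^ 2 = 1 / (p : ℝ) := by
  rw [← Real.rpow_natCast, ← Real.rpow_mul (by positivity)]
  norm_num
  rw [Real.rpow_neg_one]

lemma inv_form4 {p : ℕ} : ((p : ℝ) ^ (-(1 / 2) : ℝ)) ^ 4 = ((p : ℝ) ^ 2)⁻¹ := by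
  rw [show (4 : ℕ) = 2 * 2 by norm_num, pow_mul, inv_form]
  simp

lemma yp_bd {p : ℕ} (hp : p.Prime) {a : ℂ} (ha : ‖a‖ * Real.log p ≤ 1 / 20) :
    yp (1 / 2 + a).re (1 / 2) p ≤ 10525 / 10000 * (p : ℝ) ^ (-(1 / 2) : ℝ) ∧
      yp (1 / 2 + a).re (1 / 2) p ≤ 3 / 4 := by
  obtain ⟨h1, h2, h3⟩ := shift_bd hp ha
  have hx0 : 0 ≤ (p : ℝ) ^ (-(1 / 2) : ℝ) := by positivity
  have h4 : ‖(p : ℂ) ^ (-(1 / 2 + a))‖ = (p : ℝ) ^ (-(1 / 2 + a).re) := by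
    rw [norm_natCast_cpow_of_pos hp.pos, neg_re]
  have h5 : ‖(p : ℂ) ^ (-(1 / 2 + a))‖ ≤ 10525 / 10000 * (p : ℝ) ^ (-(1 / 2) : ℝ) := by
    have h3 := norm_add_le ((p : ℂ) ^ (-(1 / 2 + a)) - (((p : ℝ) ^ (-(1 / 2) : ℝ) : ℝ) : ℂ))
      (((p : ℝ) ^ (-(1 / 2) : ℝ) : ℝ) : ℂ)
    rw [sub_add_cancel, norm_real, Real.norm_eq_abs, abs_of_nonneg hx0] at h3
    linarith
  have h6 : yp (1 / 2 + a).re (1 / 2) p ≤ 10525 / 10000 * (p : ℝ) ^ (-(1 / 2) : ℝ) := by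
    apply max_le
    · rw [← h4]; exact h5
    · linarith
  exact ⟨h6, by linarith⟩

lemma sq_moment : ∃ C : ℝ, 0 ≤ C ∧ ∀ (S : Finset ℕ) (k : ℝ) (a : ℂ), (∀ p ∈ S, p.Prime) → 0 ≤ k →
    k ≤ 1 → (∀ p ∈ S, ‖a‖ * Real.log p ≤ 1 / 20) → ‖a‖ * ∑ p ∈ S, Real.log p / p ≤ 1 →
    ES S (fun f => ‖ZZ S (tw (1 / 2 + a) f)‖ ^ 2 * Wt (1 - k) S f) ≤
      Real.exp (C + k ^ 2 * ∑ p ∈ S, 1 / (p : ℝ)) := by
  obtain ⟨C, hC, h⟩ := ES_exp 1
  refine ⟨16 + 4 + 3 * C, by positivity, fun S k a hS hk0 hk1 ha hsum => ?_⟩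
  have hγ : ‖((k - 1 : ℝ) : ℂ)‖ ≤ 1 := by
    rw [norm_real, Real.norm_eq_abs, abs_le]; constructor <;> linarith
  have h1 := h 3 1 S (1 / 2 + a) ((k - 1 : ℝ) : ℂ) (1 / 2) (by norm_num) (by norm_num) hγ hS
    (fun p hp => (yp_bd (hS p hp) (ha p hp)).2)
  have hw : 0 < (1 / 2 + a : ℂ).re → BS S (fun f => ‖(ZZ S (tw (1 / 2 + a) f)) ^ 1 *
      cexp (((k - 1 : ℝ) : ℂ) * Pj 3 S (tw ((1 / 2 : ℝ) : ℂ) f))‖ ^ 2) := fun hw =>
    (((bs_ZZ hS hw).pow 1).mul (((bs_const S _).mul (bs_Pj 3 S S _)).cexp)).norm_sq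
  -- positivity of the abscissa
  rcases S.eq_empty_or_nonempty with hSe | ⟨p₀, hp₀⟩
  · subst hSe
    have e0 : ES ∅ (fun f => ‖ZZ ∅ (tw (1 / 2 + a) f)‖ ^ 2 * Wt (1 - k) ∅ f) = 1 := by
      simp [ES, ZZ, Wt]
    rw [e0]
    apply Real.one_le_exp
    have : 0 ≤ k ^ 2 * ∑ p ∈ (∅ : Finset ℕ), 1 / (p : ℝ) := by simp
    linarith
  have hre : 0 < (1 / 2 + a : ℂ).re := by
    have h2 := ha p₀ hp₀
    have h3 : Real.log 2 ≤ Real.log p₀ :=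
      Real.log_le_log (by norm_num) (by exact_mod_cast (hS p₀ hp₀).two_le)
    have h4 : 0.69 ≤ Real.log 2 := by have := Real.log_two_gt_d9; linarith
    have h5 : ‖a‖ ≤ 1 / 13 := by
      have h0 := norm_nonneg a
      nlinarith
    have h6 := (abs_le.mp ((abs_re_le_norm a).trans h5)).1
    have h7 : (1 / 2 + a : ℂ).re = 1 / 2 + a.re := by simp
    rw [h7]; linarith
  have hBS := hw hre
  have step : ES S (fun f => ‖ZZ S (tw (1 / 2 + a) f)‖ ^ 2 * Wt (1 - k) S f) ≤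
      ES S (fun f => Real.exp 16 * ‖(ZZ S (tw (1 / 2 + a) f)) ^ 1 *
        cexp (((k - 1 : ℝ) : ℂ) * Pj 3 S (tw ((1 / 2 : ℝ) : ℂ) f))‖ ^ 2) := by
    apply ES_mono
    · intro ω; exact mul_nonneg (by positivity) (Wt_nonneg _ _ _)
    · exact hBS.integrable.const_mul _
    · intro ω
      rw [pow_one, norm_mul, mul_pow, mul_left_comm]
      refine mul_le_mul_of_nonneg_left ?_ (by positivity)
      rw [Wt_eq, norm_ZZ_rpow 3 hS le_rfl (norm_ext S ω), norm_exp, ← Real.exp_nat_mul,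
        ← Real.exp_add]
      apply Real.exp_le_exp.mpr
      have h2 := (norm_Rm_le 3 hS le_rfl (norm_ext S ω)).trans (rho_three hS)
      have h3 := (abs_le.mp ((abs_re_le_norm _).trans h2)).1
      have h4 := (abs_le.mp ((abs_re_le_norm _).trans h2)).2
      rw [re_ofReal_mul, Nat.cast_ofNat]
      set P := (Pj 3 S (tw ((1 / 2 : ℝ) : ℂ) (ext S ω))).re
      set R := (Rm 3 S (tw ((1 / 2 : ℝ) : ℂ) (ext S ω))).re
      have h5 : 0 ≤ (1 - k) * (R + 8) := mul_nonneg (by linarith) (by linarith)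
      nlinarith
  refine step.trans ?_
  rw [ES_const_mul]
  refine (mul_le_mul_of_nonneg_left h1 (Real.exp_pos _).le).trans ?_
  rw [← Real.exp_add]
  apply Real.exp_le_exp.mpr
  have hterm : ∀ p ∈ S, ‖((1 : ℕ) : ℂ) * (p : ℂ) ^ (-(1 / 2 + a)) + ((k - 1 : ℝ) : ℂ) *
      ((p : ℝ) ^ (-(1 / 2) : ℝ) : ℝ)‖ ^ 2 + C * (yp (1 / 2 + a).re (1 / 2) p) ^ 4 ≤
      k ^ 2 * (1 / (p : ℝ)) + 4 * (‖a‖ * (Real.log p / p)) + 3 / 2 * C * ((p : ℝ) ^ 2)⁻¹ := by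
    intro p hp
    obtain ⟨b1, b2, b3⟩ := shift_bd (hS p hp) (ha p hp)
    obtain ⟨b4, b5⟩ := yp_bd (hS p hp) (ha p hp)
    set x : ℝ := (p : ℝ) ^ (-(1 / 2) : ℝ) with hx
    have hx0 : 0 ≤ x := by positivity
    set d : ℝ := ‖(p : ℂ) ^ (-(1 / 2 + a)) - (x : ℂ)‖ with hd
    have hd0 : 0 ≤ d := norm_nonneg _
    have e1 : ‖((1 : ℕ) : ℂ) * (p : ℂ) ^ (-(1 / 2 + a)) + ((k - 1 : ℝ) : ℂ) * (x : ℂ)‖ ≤ k * x + d := by
      have : ((1 : ℕ) : ℂ) * (p : ℂ) ^ (-(1 / 2 + a)) + ((k - 1 : ℝ) : ℂ) * (x : ℂ) =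
          ((k * x : ℝ) : ℂ) + ((p : ℂ) ^ (-(1 / 2 + a)) - (x : ℂ)) := by push_cast; ring
      rw [this]
      refine (norm_add_le _ _).trans ?_
      rw [norm_real, Real.norm_eq_abs, abs_of_nonneg (by positivity)]
    have e2 := pow_le_pow_left₀ (norm_nonneg _) e1 2
    have e3 : (k * x + d) ^ 2 ≤ k ^ 2 * x ^ 2 + 3 * (x * d) := by
      have q1 : d ≤ x := by nlinarith
      have q2 : k * x * d ≤ x * d := by
        have : k * (x * d) ≤ 1 * (x * d) := mul_le_mul_of_nonneg_right hk1 (by positivity)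
        linarith
      have q3 : d * d ≤ x * d := mul_le_mul_of_nonneg_right q1 hd0
      nlinarith
    have e4 : 3 * (x * d) ≤ 4 * (‖a‖ * (Real.log p / p)) := by
      have q1 : x * d ≤ x * (105 / 100 * x * (‖a‖ * Real.log p)) := by gcongr
      have q2 : x * (105 / 100 * x * (‖a‖ * Real.log p)) = 105 / 100 * (‖a‖ * (Real.log p / p)) := by
        have : x ^ 2 = 1 / (p : ℝ) := inv_form
        calc x * (105 / 100 * x * (‖a‖ * Real.log p)) = 105 / 100 * (‖a‖ * (Real.log p * x ^ 2)) := by ring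
          _ = _ := by rw [this]; ring
      have q3 : 0 ≤ ‖a‖ * (Real.log p / p) := by
        have := Real.log_natCast_nonneg p
        positivity
      linarith
    have e5 : C * (yp (1 / 2 + a).re (1 / 2) p) ^ 4 ≤ 3 / 2 * C * ((p : ℝ) ^ 2)⁻¹ := by
      have q1 := pow_le_pow_left₀ (yp_nonneg _ _ p) b4 4
      rw [mul_pow, hx, inv_form4] at q1
      have q2 : 0 ≤ ((p : ℝ) ^ 2)⁻¹ := by positivity
      have q3 : (10525 / 10000 : ℝ) ^ 4 ≤ 3 / 2 := by norm_num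
      calc C * (yp (1 / 2 + a).re (1 / 2) p) ^ 4 ≤ C * ((10525 / 10000 : ℝ) ^ 4 * ((p : ℝ) ^ 2)⁻¹) := by
            gcongr
        _ ≤ C * (3 / 2 * ((p : ℝ) ^ 2)⁻¹) := by gcongr
        _ = _ := by ring
    have e6 : x ^ 2 = 1 / (p : ℝ) := inv_form
    rw [← e6]
    linarith
  have hS2 := Finset.sum_le_sum hterm
  have hsplit : ∑ p ∈ S, (k ^ 2 * (1 / (p : ℝ)) + 4 * (‖a‖ * (Real.log p / p)) +
      3 / 2 * C * ((p : ℝ) ^ 2)⁻¹) = k ^ 2 * ∑ p ∈ S, 1 / (p : ℝ) +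
        4 * (‖a‖ * ∑ p ∈ S, Real.log p / p) + 3 / 2 * C * ∑ p ∈ S, ((p : ℝ) ^ 2)⁻¹ := by
    simp only [Finset.sum_add_distrib, Finset.mul_sum]
  rw [hsplit] at hS2
  have hS3 := XB.sum_inv_sq hS
  have hS4 : 3 / 2 * C * ∑ p ∈ S, ((p : ℝ) ^ 2)⁻¹ ≤ 3 * C := by nlinarith
  linarith

lemma LP_lower (h : StLF) : ∃ C : ℝ, 0 ≤ C ∧ ∀ (S : Finset ℕ) (k : ℝ) (a₁ a₂ : ℂ),
    (∀ p ∈ S, p.Prime) → 0 ≤ k → k ≤ 1 →
    (∀ p ∈ S, ‖a₁‖ * Real.log p ≤ 1 / 20 ∧ ‖a₂‖ * Real.log p ≤ 1 / 20) →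
    (‖a₁‖ + ‖a₂‖) * ∑ p ∈ S, Real.log p / p ≤ 1 →
    Real.exp (k ^ 2 * ∑ p ∈ S, 1 / (p : ℝ) - C) ≤ ‖LP (1 - k) a₁ a₂ S‖ := by
  obtain ⟨B, hB, h⟩ := LF_lower h
  refine ⟨B * 4, by positivity, fun S k a₁ a₂ hS hk0 hk1 ha hsum => ?_⟩
  have hterm : ∀ p ∈ S, Real.exp (k ^ 2 * (1 / (p : ℝ)) - B * (2 * ((‖a₁‖ + ‖a₂‖) * (Real.log p / p)) +
      ((p : ℝ) ^ 2)⁻¹)) ≤ ‖LF (1 - k) ((p : ℝ) ^ (-(1 / 2) : ℝ)) ((p : ℂ) ^ (-(1 / 2 + a₁)))
        ((p : ℂ) ^ (-(1 / 2 + a₂)))‖ := by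
    intro p hp
    obtain ⟨b1, b2, b3⟩ := shift_bd (hS p hp) (ha p hp).1
    obtain ⟨c1, c2, c3⟩ := shift_bd (hS p hp) (ha p hp).2
    have h1 := h (1 - k) ((p : ℝ) ^ (-(1 / 2) : ℝ)) ((p : ℂ) ^ (-(1 / 2 + a₁)))
      ((p : ℂ) ^ (-(1 / 2 + a₂))) (by linarith) (by linarith) (by positivity) b3 b2 c2
    refine le_trans (Real.exp_le_exp.mpr ?_) h1
    rw [inv_form, inv_form4]
    have hlog : 0 ≤ Real.log p / p := div_nonneg (Real.log_natCast_nonneg p) (by positivity)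
    have key : ∀ (a : ℂ) (d : ℝ), d ≤ 105 / 100 * (p : ℝ) ^ (-(1 / 2) : ℝ) * (‖a‖ * Real.log p) →
        (p : ℝ) ^ (-(1 / 2) : ℝ) * d ≤ 2 * (‖a‖ * (Real.log p / p)) := by
      intro a d hd
      have q1 : (p : ℝ) ^ (-(1 / 2) : ℝ) * d ≤ (p : ℝ) ^ (-(1 / 2) : ℝ) *
          (105 / 100 * (p : ℝ) ^ (-(1 / 2) : ℝ) * (‖a‖ * Real.log p)) := by gcongr
      have q2 : (p : ℝ) ^ (-(1 / 2) : ℝ) *
          (105 / 100 * (p : ℝ) ^ (-(1 / 2) : ℝ) * (‖a‖ * Real.log p)) =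
          105 / 100 * (‖a‖ * (Real.log p / p)) := by
        calc (p : ℝ) ^ (-(1 / 2) : ℝ) * (105 / 100 * (p : ℝ) ^ (-(1 / 2) : ℝ) * (‖a‖ * Real.log p)) =
            105 / 100 * (‖a‖ * (Real.log p * ((p : ℝ) ^ (-(1 / 2) : ℝ)) ^ 2)) := by ring
          _ = _ := by rw [inv_form]; ring
      have q3 : 0 ≤ ‖a‖ * (Real.log p / p) := by positivity
      linarith
    have k1 := key a₁ _ b1
    have k2 := key a₂ _ c1
    have k3 : (1 - (1 - k)) ^ 2 = k ^ 2 := by ring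
    rw [k3]
    have k4 := mul_le_mul_of_nonneg_left (add_le_add k1 k2) hB.le
    nlinarith
  have hprod : ‖LP (1 - k) a₁ a₂ S‖ = ∏ p ∈ S, ‖LF (1 - k) ((p : ℝ) ^ (-(1 / 2) : ℝ))
      ((p : ℂ) ^ (-(1 / 2 + a₁))) ((p : ℂ) ^ (-(1 / 2 + a₂)))‖ := by
    rw [LP, norm_prod]
  rw [hprod]
  refine le_trans ?_ (Finset.prod_le_prod (fun p _ => (Real.exp_pos _).le) hterm)
  rw [← Real.exp_sum]
  apply Real.exp_le_exp.mpr
  have hsplit : ∑ p ∈ S, (k ^ 2 * (1 / (p : ℝ)) - B * (2 * ((‖a₁‖ + ‖a₂‖) * (Real.log p / p)) +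
      ((p : ℝ) ^ 2)⁻¹)) = k ^ 2 * ∑ p ∈ S, 1 / (p : ℝ) -
        B * (2 * ((‖a₁‖ + ‖a₂‖) * ∑ p ∈ S, Real.log p / p) + ∑ p ∈ S, ((p : ℝ) ^ 2)⁻¹) := by
    rw [Finset.sum_sub_distrib, ← Finset.mul_sum, ← Finset.mul_sum, Finset.sum_add_distrib,
      ← Finset.mul_sum, ← Finset.mul_sum]
  rw [hsplit]
  have h3 := XB.sum_inv_sq hS
  have h4 : B * (2 * ((‖a₁‖ + ‖a₂‖) * ∑ p ∈ S, Real.log p / p) + ∑ p ∈ S, ((p : ℝ) ^ 2)⁻¹) ≤ B * 4 := by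
    gcongr; linarith
  linarith

lemma amgm (a b c : ℝ) (hc : 0 ≤ c) : a * b * c ≤ 1 / 2 * (a ^ 2 * c) + 1 / 2 * (b ^ 2 * c) := by
  nlinarith [mul_nonneg (sq_nonneg (a - b)) hc]

/-- pointwise comparison of the truncated exponentials with the weight -/
lemma pointwise {A l : ℕ} {S : Finset ℕ} {k : ℝ} (hS : ∀ p ∈ S, p.Prime) (hk0 : 0 ≤ k)
    (hk1 : k ≤ 1) {f : ℕ → ℂ} (hf : ∀ n, ‖f n‖ = 1) :
    ‖Ntr l (k - 1) (Pj A S (tw ((1 / 2 : ℝ) : ℂ) f)) *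
      (starRingEnd ℂ) (Ntr l (k - 1) (Pj A S (tw ((1 / 2 : ℝ) : ℂ) f))) - ((Wt (1 - k) S f : ℝ) : ℂ)‖ ≤
      (Real.exp (2 * rho A S) - 1) * Wt (1 - k) S f +
        2 * Real.exp (-l) * Real.exp (2 * ‖Pj A S (tw ((1 / 2 : ℝ) : ℂ) f)‖) ^ 2 := by
  have ha : |k - 1| ≤ 1 := by rw [abs_le]; constructor <;> linarith
  set P := Pj A S (tw ((1 / 2 : ℝ) : ℂ) f) with hP
  set R := Rm A S (tw ((1 / 2 : ℝ) : ℂ) f) with hR
  have hR1 : ‖R‖ ≤ rho A S := norm_Rm_le A hS le_rfl hf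
  have hR2 := (abs_le.mp ((abs_re_le_norm _).trans hR1))
  have hρ := rho_nonneg A S
  have hW : Wt (1 - k) S f = Real.exp (2 * (-(1 - k)) * P.re + 2 * (-(1 - k)) * R.re) := by
    rw [Wt_eq, norm_ZZ_rpow A hS le_rfl hf]
  set E : ℂ := cexp (((k - 1 : ℝ) : ℂ) * P) with hE
  have hEn : ‖E‖ ^ 2 = Real.exp (2 * (k - 1) * P.re) := by
    rw [hE, norm_exp, ← Real.exp_nat_mul, re_ofReal_mul, Nat.cast_ofNat]
    congr 1; ring
  have h1 : |‖E‖ ^ 2 - Wt (1 - k) S f| ≤ (Real.exp (2 * rho A S) - 1) * Wt (1 - k) S f := by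
    have e1 : ‖E‖ ^ 2 = Wt (1 - k) S f * Real.exp (2 * (1 - k) * R.re) := by
      rw [hEn, hW, ← Real.exp_add]; congr 1; ring
    rw [e1, ← mul_sub_one, abs_mul, abs_of_nonneg (Wt_nonneg _ _ _), mul_comm]
    refine mul_le_mul_of_nonneg_right ?_ (Wt_nonneg _ _ _)
    have h3 : |2 * (1 - k) * R.re| ≤ 2 * rho A S := by
      rw [abs_mul, abs_of_nonneg (by linarith : (0:ℝ) ≤ 2 * (1 - k))]
      have := (abs_re_le_norm R).trans hR1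
      have h0 := abs_nonneg R.re
      nlinarith
    have h4 : |Real.exp (2 * (1 - k) * R.re) - 1| ≤ Real.exp |2 * (1 - k) * R.re| - 1 := by
      have := norm_exp_sub_one_le' ((2 * (1 - k) * R.re : ℝ) : ℂ)
      rw [← ofReal_exp, ← ofReal_one, ← ofReal_sub, norm_real, norm_real, Real.norm_eq_abs,
        Real.norm_eq_abs] at this
      exact this
    refine h4.trans ?_
    have := Real.exp_le_exp.mpr h3
    linarith
  have hN := norm_Ntr_le l ha P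
  have hE1 : ‖E‖ ≤ Real.exp ‖P‖ := by
    rw [hE, norm_exp]
    apply Real.exp_le_exp.mpr
    rw [re_ofReal_mul]
    have h5 : |(k - 1) * P.re| ≤ ‖P‖ := by
      rw [abs_mul]
      calc |k - 1| * |P.re| ≤ 1 * ‖P‖ := mul_le_mul ha (abs_re_le_norm P) (abs_nonneg _) zero_le_one
        _ = ‖P‖ := one_mul _
    exact (le_abs_self _).trans h5
  have hT := Ntr_tail l ha P
  have h2 : |‖Ntr l (k - 1) P‖ ^ 2 - ‖E‖ ^ 2| ≤ 2 * Real.exp (-l) * Real.exp (2 * ‖P‖) ^ 2 := by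
    have e1 : ‖Ntr l (k - 1) P‖ ^ 2 - ‖E‖ ^ 2 = (‖Ntr l (k - 1) P‖ - ‖E‖) * (‖Ntr l (k - 1) P‖ + ‖E‖) := by
      ring
    rw [e1, abs_mul]
    have h3 : |‖Ntr l (k - 1) P‖ - ‖E‖| ≤ Real.exp (-l) * Real.exp (3 * ‖P‖) := by
      refine (abs_norm_sub_norm_le _ _).trans ?_
      rw [norm_sub_rev, hE]
      exact hT
    have h4 : |‖Ntr l (k - 1) P‖ + ‖E‖| ≤ 2 * Real.exp ‖P‖ := by
      rw [abs_of_nonneg (by positivity)]; linarith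
    calc |‖Ntr l (k - 1) P‖ - ‖E‖| * |‖Ntr l (k - 1) P‖ + ‖E‖| ≤
          (Real.exp (-l) * Real.exp (3 * ‖P‖)) * (2 * Real.exp ‖P‖) := by gcongr
      _ = 2 * Real.exp (-l) * (Real.exp (3 * ‖P‖) * Real.exp ‖P‖) := by ring
      _ = _ := by
          rw [← Real.exp_add, ← Real.exp_nat_mul, Nat.cast_ofNat]
          congr 2; ring
  have e3 : Ntr l (k - 1) P * (starRingEnd ℂ) (Ntr l (k - 1) P) - ((Wt (1 - k) S f : ℝ) : ℂ) =
      ((‖Ntr l (k - 1) P‖ ^ 2 - Wt (1 - k) S f : ℝ) : ℂ) := by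
    rw [mul_conj, normSq_eq_norm_sq]; push_cast; rfl
  rw [e3, norm_real, Real.norm_eq_abs]
  calc |‖Ntr l (k - 1) P‖ ^ 2 - Wt (1 - k) S f| ≤ |‖E‖ ^ 2 - Wt (1 - k) S f| +
        |‖Ntr l (k - 1) P‖ ^ 2 - ‖E‖ ^ 2| := by
        have := abs_add_le (‖E‖ ^ 2 - Wt (1 - k) S f) (‖Ntr l (k - 1) P‖ ^ 2 - ‖E‖ ^ 2)
        rwa [show ‖E‖ ^ 2 - Wt (1 - k) S f + (‖Ntr l (k - 1) P‖ ^ 2 - ‖E‖ ^ 2) =
          ‖Ntr l (k - 1) P‖ ^ 2 - Wt (1 - k) S f by ring] at this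
    _ ≤ _ := add_le_add h1 h2

lemma re_pos_of {S : Finset ℕ} (hS : ∀ p ∈ S, p.Prime) {a : ℂ} (ha : ∀ p ∈ S, ‖a‖ * Real.log p ≤ 1 / 20)
    (hne : S.Nonempty) : 0 < (1 / 2 + a : ℂ).re := by
  obtain ⟨p₀, hp₀⟩ := hne
  have h2 := ha p₀ hp₀
  have h3 : Real.log 2 ≤ Real.log p₀ :=
    Real.log_le_log (by norm_num) (by exact_mod_cast (hS p₀ hp₀).two_le)
  have h4 : 0.69 ≤ Real.log 2 := by have := Real.log_two_gt_d9; linarith
  have h5 : ‖a‖ ≤ 1 / 13 := by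
    have h0 := norm_nonneg a
    nlinarith
  have h6 := (abs_le.mp ((abs_re_le_norm a).trans h5)).1
  have h7 : (1 / 2 + a : ℂ).re = 1 / 2 + a.re := by simp
  rw [h7]; linarith

end BlkShift

open BlkShift in
theorem stBlockShift (hLF : StLF) : StBlockShift := by
  obtain ⟨C2, hC2, hlow⟩ := LP_lower hLF
  obtain ⟨C3, hC3, hsq⟩ := sq_moment
  obtain ⟨C4, hC4, hexp⟩ := ES_exp_norm (q := 2) (by norm_num)
  set C₁ : ℝ := Real.exp (C3 + C2) + 2 * Real.exp C2 + 2 * C4 + 1 with hC1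
  refine ⟨C₁, by positivity, fun A l S k a₁ a₂ hA hS hk0 hk1 ha hsum hcond => ?_⟩
  have hlog : 0 ≤ ∑ p ∈ S, Real.log p / p :=
    Finset.sum_nonneg fun p _ => div_nonneg (Real.log_natCast_nonneg p) (by positivity)
  have hρ := rho_nonneg A S
  have hinv : 0 ≤ ∑ p ∈ S, 1 / (p : ℝ) := Finset.sum_nonneg fun p _ => by positivity
  have hLP := hlow S k a₁ a₂ hS hk0 hk1 ha hsum
  rcases S.eq_empty_or_nonempty with hSe | hne
  · subst hSe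
    have e0 : ES ∅ (fun f => ZZ ∅ (tw (1 / 2 + a₁) f) *
        (starRingEnd ℂ) (ZZ ∅ (tw (1 / 2 + (starRingEnd ℂ) a₂) f)) *
        (Ntr l (k - 1) (Pj A ∅ (tw (1 / 2) f)) *
          (starRingEnd ℂ) (Ntr l (k - 1) (Pj A ∅ (tw (1 / 2) f))))) = 1 := by
      have : ∀ α : ℝ, Ntr l α 0 = 1 := by
        intro α
        rw [Ntr, Finset.sum_range_succ']
        simp
      simp [ES, ZZ, Pj, this]
    have e1 : LP (1 - k) a₁ a₂ ∅ = 1 := by simp [LP]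
    rw [e0, e1, sub_self, norm_zero]
    have h3 : 0 ≤ Real.exp (3 * rho A ∅) - 1 := by
      have := Real.one_le_exp (show 0 ≤ 3 * rho A ∅ by linarith); linarith
    positivity
  have ha1 : ∀ p ∈ S, ‖a₁‖ * Real.log p ≤ 1 / 20 := fun p hp => (ha p hp).1
  have ha2 : ∀ p ∈ S, ‖(starRingEnd ℂ) a₂‖ * Real.log p ≤ 1 / 20 := fun p hp => by
    rw [RCLike.norm_conj]; exact (ha p hp).2
  have hs1 : ‖a₁‖ * ∑ p ∈ S, Real.log p / p ≤ 1 := by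
    refine le_trans (mul_le_mul_of_nonneg_right ?_ hlog) hsum
    linarith [norm_nonneg a₂]
  have hs2 : ‖(starRingEnd ℂ) a₂‖ * ∑ p ∈ S, Real.log p / p ≤ 1 := by
    rw [RCLike.norm_conj]
    refine le_trans (mul_le_mul_of_nonneg_right ?_ hlog) hsum
    linarith [norm_nonneg a₁]
  have hr1 := re_pos_of hS ha1 hne
  have hr2 := re_pos_of hS ha2 hne
  have q1 := hsq S k a₁ hS hk0 hk1 ha1 hs1
  have q2 := hsq S k _ hS hk0 hk1 ha2 hs2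
  have hypsum : ∀ a : ℂ, (∀ p ∈ S, ‖a‖ * Real.log p ≤ 1 / 20) →
      ∑ p ∈ S, (yp (1 / 2 + a).re (1 / 2) p) ^ 2 ≤ 2 * ∑ p ∈ S, 1 / (p : ℝ) := by
    intro a ha
    rw [Finset.mul_sum]
    refine Finset.sum_le_sum fun p hp => ?_
    have h1 := pow_le_pow_left₀ (yp_nonneg _ _ p) (yp_bd (hS p hp) (ha p hp)).1 2
    rw [mul_pow, inv_form] at h1
    have h2 : 0 ≤ 1 / (p : ℝ) := by positivity
    nlinarith
  have hE : ∀ a : ℂ, (∀ p ∈ S, ‖a‖ * Real.log p ≤ 1 / 20) → 0 < (1 / 2 + a : ℂ).re →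
      ES S (fun f => ‖ZZ S (tw (1 / 2 + a) f)‖ ^ 2 *
        Real.exp (2 * ‖Pj A S (tw ((1 / 2 : ℝ) : ℂ) f)‖) ^ 2) ≤ Real.exp (l / 2) := by
    intro a ha hr
    have h1 := hexp A 1 S (1 / 2 + a) (1 / 2) hA (by norm_num) hr hS
      (fun p hp => (yp_bd (hS p hp) (ha p hp)).2)
    simp only [pow_one] at h1
    refine h1.trans (le_trans ?_ hcond)
    refine mul_le_mul_of_nonneg_left (Real.exp_le_exp.mpr ?_) (by norm_num)
    calc C4 * ∑ p ∈ S, (yp (1 / 2 + a).re (1 / 2) p) ^ 2 ≤ C4 * (2 * ∑ p ∈ S, 1 / (p : ℝ)) := by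
          gcongr; exact hypsum a ha
      _ ≤ C₁ * ∑ p ∈ S, 1 / (p : ℝ) := by
          have : 2 * C4 ≤ C₁ := by
            rw [hC1]; have := Real.exp_pos (C3 + C2); have := Real.exp_pos C2; linarith
          nlinarith
  have hE1 := hE a₁ ha1 hr1
  have hE2 := hE _ ha2 hr2
  -- the difference
  have bZ1 : BS S (fun f => ZZ S (tw (1 / 2 + a₁) f)) := bs_ZZ hS hr1
  have bZ2 : BS S (fun f => ZZ S (tw (1 / 2 + (starRingEnd ℂ) a₂) f)) := bs_ZZ hS hr2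
  have bP : BS S (fun f => Pj A S (tw ((1 / 2 : ℝ) : ℂ) f)) := bs_Pj A S S _
  have bN : BS S (fun f => Ntr l (k - 1) (Pj A S (tw ((1 / 2 : ℝ) : ℂ) f))) := bs_Ntr l _ bP
  have bW : BS S (Wt (1 - k) S) := bs_Wt (by linarith) hS
  have bWc : BS S (fun f => ((Wt (1 - k) S f : ℝ) : ℂ)) := by
    obtain ⟨h1, C, h2⟩ := bW
    exact ⟨continuous_ofReal.comp h1, C, fun ω => by rw [norm_real]; exact h2 ω⟩
  have bE : BS S (fun f => Real.exp (2 * ‖Pj A S (tw ((1 / 2 : ℝ) : ℂ) f)‖)) :=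
    bP.exp_norm 2 (by norm_num)
  have bE2 : BS S (fun f => Real.exp (2 * ‖Pj A S (tw ((1 / 2 : ℝ) : ℂ) f)‖) ^ 2) := by
    simp only [sq]; exact bE.mul_real bE
  have hcast : ∀ f : ℕ → ℂ, Pj A S (tw (1 / 2) f) = Pj A S (tw ((1 / 2 : ℝ) : ℂ) f) := by
    intro f; congr 2; push_cast; rfl
  simp only [hcast]
  set Z₁ : (ℕ → ℂ) → ℂ := fun f => ZZ S (tw (1 / 2 + a₁) f) with hZ1
  set Z₂ : (ℕ → ℂ) → ℂ := fun f => ZZ S (tw (1 / 2 + (starRingEnd ℂ) a₂) f) with hZ2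
  set N : (ℕ → ℂ) → ℂ := fun f => Ntr l (k - 1) (Pj A S (tw ((1 / 2 : ℝ) : ℂ) f)) with hN
  set E2 : (ℕ → ℂ) → ℝ := fun f => Real.exp (2 * ‖Pj A S (tw ((1 / 2 : ℝ) : ℂ) f)‖) ^ 2 with hE2d
  have hF : ∀ f, ZZ S (tw (1 / 2 + a₁) f) * (starRingEnd ℂ) (ZZ S (tw (1 / 2 + (starRingEnd ℂ) a₂) f)) *
      (Ntr l (k - 1) (Pj A S (tw ((1 / 2 : ℝ) : ℂ) f)) *
        (starRingEnd ℂ) (Ntr l (k - 1) (Pj A S (tw ((1 / 2 : ℝ) : ℂ) f)))) =
      Z₁ f * (starRingEnd ℂ) (Z₂ f) * (N f * (starRingEnd ℂ) (N f)) := fun f => rfl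
  have hLPe : LP (1 - k) a₁ a₂ S = ES S (fun f => Z₁ f * (starRingEnd ℂ) (Z₂ f) *
      ((Wt (1 - k) S f : ℝ) : ℂ)) := (LP_eq _ _ _ _).symm
  simp only [hF]
  have bF : BS S (fun f => Z₁ f * (starRingEnd ℂ) (Z₂ f) * (N f * (starRingEnd ℂ) (N f))) :=
    (bZ1.mul bZ2.conj).mul (bN.mul bN.conj)
  have bG : BS S (fun f => Z₁ f * (starRingEnd ℂ) (Z₂ f) * ((Wt (1 - k) S f : ℝ) : ℂ)) :=
    (bZ1.mul bZ2.conj).mul bWc
  set r : ℝ := Real.exp (2 * rho A S) - 1 with hr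
  have hr0 : 0 ≤ r := by
    have := Real.one_le_exp (show 0 ≤ 2 * rho A S by linarith); linarith
  set U : (ℕ → ℂ) → ℝ := fun f => r * (1 / 2 * (‖Z₁ f‖ ^ 2 * Wt (1 - k) S f) +
      1 / 2 * (‖Z₂ f‖ ^ 2 * Wt (1 - k) S f)) + 2 * Real.exp (-l) * (1 / 2 * (‖Z₁ f‖ ^ 2 * E2 f) +
      1 / 2 * (‖Z₂ f‖ ^ 2 * E2 f)) with hU
  have w1 : BS S (fun f => ‖Z₁ f‖ ^ 2 * Wt (1 - k) S f) := bZ1.norm_sq.mul_real bW
  have w2 : BS S (fun f => ‖Z₂ f‖ ^ 2 * Wt (1 - k) S f) := bZ2.norm_sq.mul_real bW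
  have w3 : BS S (fun f => ‖Z₁ f‖ ^ 2 * E2 f) := bZ1.norm_sq.mul_real bE2
  have w4 : BS S (fun f => ‖Z₂ f‖ ^ 2 * E2 f) := bZ2.norm_sq.mul_real bE2
  have hpt : ∀ ω, ‖(Z₁ (ext S ω) * (starRingEnd ℂ) (Z₂ (ext S ω)) *
      (N (ext S ω) * (starRingEnd ℂ) (N (ext S ω)))) - Z₁ (ext S ω) * (starRingEnd ℂ) (Z₂ (ext S ω)) *
        ((Wt (1 - k) S (ext S ω) : ℝ) : ℂ)‖ ≤ U (ext S ω) := by
    intro ω
    have h1 := pointwise (A := A) (l := l) hS hk0 hk1 (norm_ext S ω)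
    rw [← mul_sub, norm_mul, norm_mul, RCLike.norm_conj]
    have h2 : ‖Z₁ (ext S ω)‖ * ‖Z₂ (ext S ω)‖ * ‖N (ext S ω) * (starRingEnd ℂ) (N (ext S ω)) -
        ((Wt (1 - k) S (ext S ω) : ℝ) : ℂ)‖ ≤ ‖Z₁ (ext S ω)‖ * ‖Z₂ (ext S ω)‖ *
          (r * Wt (1 - k) S (ext S ω) + 2 * Real.exp (-l) * E2 (ext S ω)) :=
      mul_le_mul_of_nonneg_left h1 (by positivity)
    refine h2.trans ?_
    have h3 := amgm ‖Z₁ (ext S ω)‖ ‖Z₂ (ext S ω)‖ _ (Wt_nonneg (1 - k) S (ext S ω))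
    have h4 := amgm ‖Z₁ (ext S ω)‖ ‖Z₂ (ext S ω)‖ (E2 (ext S ω)) (by positivity)
    have h5 := mul_le_mul_of_nonneg_left h3 hr0
    have h6 := mul_le_mul_of_nonneg_left h4 (show 0 ≤ 2 * Real.exp (-(l : ℝ)) by positivity)
    simp only [hU]
    calc ‖Z₁ (ext S ω)‖ * ‖Z₂ (ext S ω)‖ *
          (r * Wt (1 - k) S (ext S ω) + 2 * Real.exp (-l) * E2 (ext S ω)) =
        r * (‖Z₁ (ext S ω)‖ * ‖Z₂ (ext S ω)‖ * Wt (1 - k) S (ext S ω)) +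
          2 * Real.exp (-l) * (‖Z₁ (ext S ω)‖ * ‖Z₂ (ext S ω)‖ * E2 (ext S ω)) := by ring
      _ ≤ _ := add_le_add h5 h6
  have hUint : Integrable (fun ω : S → ℝ => U (ext S ω)) (Measure.pi fun _ => mu0) :=
    ((((w1.integrable.const_mul (1 / 2)).add (w2.integrable.const_mul (1 / 2))).const_mul r).add
      (((w3.integrable.const_mul (1 / 2)).add (w4.integrable.const_mul (1 / 2))).const_mul
        (2 * Real.exp (-l))))
  have hUval : ES S U = r * (1 / 2 * ES S (fun f => ‖Z₁ f‖ ^ 2 * Wt (1 - k) S f) +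
      1 / 2 * ES S (fun f => ‖Z₂ f‖ ^ 2 * Wt (1 - k) S f)) + 2 * Real.exp (-l) *
      (1 / 2 * ES S (fun f => ‖Z₁ f‖ ^ 2 * E2 f) + 1 / 2 * ES S (fun f => ‖Z₂ f‖ ^ 2 * E2 f)) := by
    unfold ES
    simp only [hU]
    rw [integral_add, integral_const_mul, integral_const_mul, integral_add, integral_add,
      integral_const_mul, integral_const_mul, integral_const_mul, integral_const_mul]
    · exact w3.integrable.const_mul (1 / 2)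
    · exact w4.integrable.const_mul (1 / 2)
    · exact w1.integrable.const_mul (1 / 2)
    · exact w2.integrable.const_mul (1 / 2)
    · exact ((w1.integrable.const_mul (1 / 2)).add (w2.integrable.const_mul (1 / 2))).const_mul r
    · exact ((w3.integrable.const_mul (1 / 2)).add (w4.integrable.const_mul (1 / 2))).const_mul
        (2 * Real.exp (-l))
  have hdiff : ‖ES S (fun f => Z₁ f * (starRingEnd ℂ) (Z₂ f) * (N f * (starRingEnd ℂ) (N f))) -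
      LP (1 - k) a₁ a₂ S‖ ≤ ES S U := by
    rw [hLPe]
    unfold ES
    rw [← integral_sub bF.integrable bG.integrable]
    refine (norm_integral_le_integral_norm _).trans ?_
    exact integral_mono (bF.integrable.sub bG.integrable).norm hUint hpt
  refine hdiff.trans ?_
  rw [hUval]
  set T₀ : ℝ := ∑ p ∈ S, 1 / (p : ℝ) with hT0
  have g1 : Real.exp (C3 + k ^ 2 * T₀) ≤ Real.exp (C3 + C2) * ‖LP (1 - k) a₁ a₂ S‖ := by
    calc Real.exp (C3 + k ^ 2 * T₀) = Real.exp (C3 + C2) * Real.exp (k ^ 2 * T₀ - C2) := by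
          rw [← Real.exp_add]; congr 1; ring
      _ ≤ _ := by gcongr
  have g2 : 1 ≤ Real.exp C2 * ‖LP (1 - k) a₁ a₂ S‖ := by
    calc (1 : ℝ) = Real.exp C2 * Real.exp (0 - C2) := by rw [← Real.exp_add]; simp
      _ ≤ Real.exp C2 * Real.exp (k ^ 2 * T₀ - C2) := by gcongr; positivity
      _ ≤ _ := by gcongr
  have g3 : r * (1 / 2 * ES S (fun f => ‖Z₁ f‖ ^ 2 * Wt (1 - k) S f) +
      1 / 2 * ES S (fun f => ‖Z₂ f‖ ^ 2 * Wt (1 - k) S f)) ≤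
      r * (Real.exp (C3 + C2) * ‖LP (1 - k) a₁ a₂ S‖) := by
    refine mul_le_mul_of_nonneg_left ?_ hr0
    have := q1.trans g1
    have := q2.trans g1
    linarith
  have g4 : 2 * Real.exp (-l) * (1 / 2 * ES S (fun f => ‖Z₁ f‖ ^ 2 * E2 f) +
      1 / 2 * ES S (fun f => ‖Z₂ f‖ ^ 2 * E2 f)) ≤
      2 * Real.exp (-(l / 2)) * (Real.exp C2 * ‖LP (1 - k) a₁ a₂ S‖) := by
    have e1 : 1 / 2 * ES S (fun f => ‖Z₁ f‖ ^ 2 * E2 f) + 1 / 2 * ES S (fun f => ‖Z₂ f‖ ^ 2 * E2 f) ≤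
        Real.exp (l / 2) := by linarith
    calc 2 * Real.exp (-l) * (1 / 2 * ES S (fun f => ‖Z₁ f‖ ^ 2 * E2 f) +
      1 / 2 * ES S (fun f => ‖Z₂ f‖ ^ 2 * E2 f)) ≤ 2 * Real.exp (-l) * Real.exp (l / 2) := by gcongr
      _ = 2 * (Real.exp (-l) * Real.exp (l / 2)) := by ring
      _ = 2 * Real.exp (-(l / 2)) := by rw [← Real.exp_add]; congr 2; ring
      _ = 2 * Real.exp (-(l / 2)) * 1 := by ring
      _ ≤ _ := by gcongr
  refine (add_le_add g3 g4).trans ?_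
  have hr3 : r ≤ Real.exp (3 * rho A S) - 1 := by
    have := Real.exp_le_exp.mpr (show 2 * rho A S ≤ 3 * rho A S by linarith)
    linarith
  have hx : 0 ≤ ‖LP (1 - k) a₁ a₂ S‖ := norm_nonneg _
  have hp1 := Real.exp_pos (C3 + C2)
  have hp2 := Real.exp_pos C2
  have hp3 := Real.exp_pos (-((l : ℝ) / 2))
  have k1 : r * (Real.exp (C3 + C2) * ‖LP (1 - k) a₁ a₂ S‖) ≤
      C₁ * (Real.exp (3 * rho A S) - 1) * ‖LP (1 - k) a₁ a₂ S‖ := by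
    calc r * (Real.exp (C3 + C2) * ‖LP (1 - k) a₁ a₂ S‖) ≤
          (Real.exp (3 * rho A S) - 1) * (C₁ * ‖LP (1 - k) a₁ a₂ S‖) := by
          gcongr
          · linarith
          · rw [hC1]; linarith
      _ = _ := by ring
  have k2 : 2 * Real.exp (-(l / 2)) * (Real.exp C2 * ‖LP (1 - k) a₁ a₂ S‖) ≤
      C₁ * Real.exp (-(l / 2)) * ‖LP (1 - k) a₁ a₂ S‖ := by
    calc 2 * Real.exp (-(l / 2)) * (Real.exp C2 * ‖LP (1 - k) a₁ a₂ S‖) =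
          (2 * Real.exp C2) * (Real.exp (-(l / 2)) * ‖LP (1 - k) a₁ a₂ S‖) := by ring
      _ ≤ C₁ * (Real.exp (-(l / 2)) * ‖LP (1 - k) a₁ a₂ S‖) := by
          gcongr
          rw [hC1]; linarith
      _ = _ := by ring
  calc _ ≤ C₁ * (Real.exp (3 * rho A S) - 1) * ‖LP (1 - k) a₁ a₂ S‖ +
        C₁ * Real.exp (-(l / 2)) * ‖LP (1 - k) a₁ a₂ S‖ := add_le_add k1 k2
    _ = _ := by ring

end K1
end Pool.Agent.Lib.MP_973905_nt
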