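import Pool.Agent.Lib.MP_973905_nt.K1.Stmts
import Pool.Agent.Lib.MP_973905_nt.Ing

/-! Module (14): crude bounds on the critical line. -/

namespace Pool.Agent.Lib.MP_973905_nt
namespace K1

open MeasureTheory ProbabilityTheory Complex Filter Topology

namespace Crude

open XB

lemma yp_half {p : ℕ} (hp : p.Prime) : yp (1 / 2) (1 / 2) p ≤ 3 / 4 ∧
    yp (1 / 2) (1 / 2) p ^ 2 = 1 / p ∧ yp (1 / 2) (1 / 2) p ^ 4 = ((p : ℝ) ^ 2)⁻¹ := by
  have hp2 : (2 : ℝ) ≤ p := by exact_mod_cast hp.two_le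
  have hp0 : (0 : ℝ) < p := by linarith
  have h2 : yp (1 / 2) (1 / 2) p ^ 2 = 1 / p := by
    rw [yp, max_self, ← Real.rpow_natCast, ← Real.rpow_mul hp0.le, one_div]
    norm_num
    exact Real.rpow_neg_one _
  have h3 : (1 : ℝ) / p ≤ 1 / 2 := by gcongr
  refine ⟨?_, h2, ?_⟩
  · nlinarith [yp_nonneg (1 / 2) (1 / 2) p]
  · rw [show yp (1 / 2) (1 / 2) p ^ 4 = (yp (1 / 2) (1 / 2) p ^ 2) ^ 2 by ring, h2, one_div, inv_pow]

/-- Good blocks without zeta. -/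
lemma good_block0 : ∃ C : ℝ, 0 ≤ C ∧ ∀ (A l : ℕ) (S : Finset ℕ) (α : ℝ), 1 ≤ A → |α| ≤ 1 →
    (∀ p ∈ S, p.Prime) →
    ES S (fun f => ‖Ntr l α (Pj A S (tw ((1 / 2 : ℝ) : ℂ) f))‖ ^ 2) ≤
      Real.exp (∑ p ∈ S, (α ^ 2 * (1 / p) + C * ((p : ℝ) ^ 2)⁻¹)) *
      Real.exp (33 * Real.exp (-l + C * ∑ p ∈ S, (1 : ℝ) / p)) := by
  obtain ⟨C1, hC1, h1⟩ := ES_exp 1
  obtain ⟨C2, hC2, h2⟩ := ES_exp_norm (q := 3) (by norm_num)
  refine ⟨C1 + C2, by positivity, fun A l S α hA hα hS => ?_⟩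
  have hy : ∀ p ∈ S, yp (((1 / 2 : ℝ) : ℂ)).re (1 / 2) p ≤ 3 / 4 := by
    intro p hp
    rw [ofReal_re]
    exact (yp_half (hS p hp)).1
  set η := Real.exp (-(l : ℝ)) with hη
  have hη0 : 0 < η := Real.exp_pos _
  have hη1 : η ≤ 1 := by rw [hη, Real.exp_le_one_iff]; linarith [Nat.cast_nonneg (α := ℝ) l]
  set P : (ℕ → ℂ) → ℂ := fun f => Pj A S (tw ((1 / 2 : ℝ) : ℂ) f) with hP
  have bP : BS S P := bs_Pj A S S _
  set F1 : (ℕ → ℂ) → ℝ := fun f => ‖(ZZ S (tw ((1 / 2 : ℝ) : ℂ) f)) ^ 0 * cexp ((α : ℂ) * P f)‖ ^ 2 with hF1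
  set F2 : (ℕ → ℂ) → ℝ := fun f => ‖(ZZ S (tw ((1 / 2 : ℝ) : ℂ) f)) ^ 0‖ ^ 2 * Real.exp (3 * ‖P f‖) ^ 2 with hF2
  have bZ : BS S (fun f => ZZ S (tw ((1 / 2 : ℝ) : ℂ) f)) := bs_ZZ hS (by rw [ofReal_re]; norm_num)
  have b1 : BS S F1 := ((bZ.pow 0).mul ((bs_const S _).mul bP).cexp).norm_sq
  have b2 : BS S F2 := BS.mulR (bZ.pow 0).norm_sq (BS.expnorm bP (by norm_num))
  have b1' : BS S (fun f => (1 + η) * F1 f) := BS.mulR (bs_const S _) b1
  have b2' : BS S (fun f => (2 * η) * F2 f) := BS.mulR (bs_const S _) b2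
  have g1 := h1 A 0 S ((1 / 2 : ℝ) : ℂ) (α : ℂ) (1 / 2) hA (by norm_num)
    (by rw [norm_real, Real.norm_eq_abs]; exact hα) hS hy
  have g2 := h2 A 0 S ((1 / 2 : ℝ) : ℂ) (1 / 2) hA (by norm_num) (by rw [ofReal_re]; norm_num) hS hy
  have step : ES S (fun f => ‖Ntr l α (P f)‖ ^ 2) ≤
      ES S (fun f => (1 + η) * F1 f + (2 * η) * F2 f) := by
    apply ES_mono
    · intro ω; positivity
    · exact (BS.add b1' b2').integrable
    · intro ω
      set f := ext S ω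
      have ht := Ntr_tail l hα (P f)
      have hn : ‖Ntr l α (P f)‖ ≤ ‖cexp ((α : ℂ) * P f)‖ +
          η * Real.exp (3 * ‖P f‖) := by
        have := norm_sub_norm_le (Ntr l α (P f)) (cexp ((α : ℂ) * P f))
        rw [norm_sub_rev] at this
        linarith
      set a := ‖cexp ((α : ℂ) * P f)‖ with ha
      set s := Real.exp (3 * ‖P f‖) with hs
      have hs0 : 0 < s := Real.exp_pos _
      have ha0 : 0 ≤ a := norm_nonneg _
      have h3 : ‖Ntr l α (P f)‖ ^ 2 ≤ (1 + η) * a ^ 2 + 2 * η * s ^ 2 := by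
        calc ‖Ntr l α (P f)‖ ^ 2 ≤ (a + η * s) ^ 2 :=
              pow_le_pow_left₀ (norm_nonneg _) hn 2
          _ ≤ _ := by
            nlinarith [sq_nonneg (a - s), mul_nonneg hη0.le (sq_nonneg (a - s)),
              mul_nonneg (mul_nonneg hη0.le (sub_nonneg.2 hη1)) (sq_nonneg s)]
      have e1 : F1 f = a ^ 2 := by
        simp only [hF1, pow_zero, one_mul, ha]
      have e2 : F2 f = s ^ 2 := by
        simp only [hF2, pow_zero, norm_one, one_pow, one_mul, hs]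
      rw [e1, e2]
      exact h3
  have e3 : ES S (fun f => (1 + η) * F1 f + (2 * η) * F2 f) =
      (1 + η) * ES S F1 + (2 * η) * ES S F2 := by
    rw [XB.ES_add b1' b2', XB.ES_const_mul, XB.ES_const_mul]
  rw [e3] at step
  refine step.trans ?_
  set Y := ∑ p ∈ S, (1 : ℝ) / p with hY
  have hY0 : 0 ≤ Y := Finset.sum_nonneg fun p _ => by positivity
  set E := ∑ p ∈ S, (α ^ 2 * (1 / p) + (C1 + C2) * ((p : ℝ) ^ 2)⁻¹) with hE
  have hE0 : 0 ≤ E := Finset.sum_nonneg fun p _ => by positivity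
  have g1' : ES S F1 ≤ Real.exp E := by
    refine g1.trans (Real.exp_le_exp.2 ?_)
    rw [hE]
    refine Finset.sum_le_sum fun p hp => ?_
    obtain ⟨y1, y2, y4⟩ := yp_half (hS p hp)
    have hp0 : (0 : ℝ) < p := by exact_mod_cast (hS p hp).pos
    rw [ofReal_re, y4]
    have e : ‖((0 : ℕ) : ℂ) * (p : ℂ) ^ (-(((1 / 2 : ℝ) : ℂ))) + (α : ℂ) *
        (((p : ℝ) ^ (-(1 / 2 : ℝ)) : ℝ) : ℂ)‖ ^ 2 = α ^ 2 * (1 / p) := by
      rw [Nat.cast_zero, zero_mul, zero_add, norm_mul, mul_pow, norm_real, norm_real,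
        Real.norm_eq_abs, Real.norm_eq_abs, sq_abs, sq_abs, ← y2, yp, max_self]
    rw [e]
    gcongr
    linarith
  have g2' : ES S F2 ≤ 16 * Real.exp ((C1 + C2) * Y) := by
    refine g2.trans ?_
    have e : ∑ p ∈ S, yp (((1 / 2 : ℝ) : ℂ)).re (1 / 2) p ^ 2 = Y := by
      rw [hY]
      refine Finset.sum_congr rfl fun p hp => ?_
      rw [ofReal_re]
      exact (yp_half (hS p hp)).2.1
    rw [e]
    gcongr
    linarith
  have hexpE : 1 ≤ Real.exp E := Real.one_le_exp hE0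
  have hexpY : 1 ≤ Real.exp ((C1 + C2) * Y) := Real.one_le_exp (by positivity)
  rw [Real.exp_add, ← hη]
  calc (1 + η) * ES S F1 + 2 * η * ES S F2
      ≤ (1 + η) * Real.exp E + 2 * η * (16 * Real.exp ((C1 + C2) * Y)) := by gcongr
    _ ≤ Real.exp E * (33 * (η * Real.exp ((C1 + C2) * Y)) + 1) := by
        have h5 : η * 1 ≤ η * Real.exp ((C1 + C2) * Y) := by gcongr
        have h6 : η * Real.exp ((C1 + C2) * Y) * 1 ≤ η * Real.exp ((C1 + C2) * Y) * Real.exp E := by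
          gcongr
        nlinarith
    _ ≤ _ := by
        gcongr
        exact Real.add_one_le_exp _

/-- Bad blocks without zeta. -/
lemma bad_block0 : ∃ C : ℝ, 0 ≤ C ∧ ∀ (A r : ℕ) (S : Finset ℕ)
    (G : (ℕ → ℂ) → ℂ), 1 ≤ A → (∀ p ∈ S, p.Prime) →
    (∀ f, ‖G f‖ ≤ (1 / 4) ^ r * Real.exp (2 * ‖Pj A S (tw ((1 / 2 : ℝ) : ℂ) f)‖)) →
    ES S (fun f => ‖G f‖ ^ 2) ≤
      (1 / 16) ^ r * (16 * Real.exp (C * ∑ p ∈ S, (1 : ℝ) / p)) := by
  obtain ⟨C2, hC2, h2⟩ := ES_exp_norm (q := 2) (by norm_num)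
  refine ⟨C2, hC2, fun A r S G hA hS hG => ?_⟩
  have hy : ∀ p ∈ S, yp (((1 / 2 : ℝ) : ℂ)).re (1 / 2) p ≤ 3 / 4 := by
    intro p hp
    rw [ofReal_re]
    exact (yp_half (hS p hp)).1
  have g2 := h2 A 0 S ((1 / 2 : ℝ) : ℂ) (1 / 2) hA (by norm_num) (by rw [ofReal_re]; norm_num) hS hy
  have bZ : BS S (fun f => ZZ S (tw ((1 / 2 : ℝ) : ℂ) f)) := bs_ZZ hS (by rw [ofReal_re]; norm_num)
  have bP : BS S (fun f => Pj A S (tw ((1 / 2 : ℝ) : ℂ) f)) := bs_Pj A S S _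
  have e : ∑ p ∈ S, yp (((1 / 2 : ℝ) : ℂ)).re (1 / 2) p ^ 2 = ∑ p ∈ S, (1 : ℝ) / p := by
    refine Finset.sum_congr rfl fun p hp => ?_
    rw [ofReal_re]
    exact (yp_half (hS p hp)).2.1
  rw [e] at g2
  set F2 : (ℕ → ℂ) → ℝ := fun f => ‖(ZZ S (tw ((1 / 2 : ℝ) : ℂ) f)) ^ 0‖ ^ 2 *
    Real.exp (2 * ‖Pj A S (tw ((1 / 2 : ℝ) : ℂ) f)‖) ^ 2 with hF2
  have b2 : BS S F2 := BS.mulR (bZ.pow 0).norm_sq (BS.expnorm bP (by norm_num))
  have b2' : BS S (fun f => (1 / 16 : ℝ) ^ r * F2 f) := BS.mulR (bs_const S _) b2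
  calc ES S (fun f => ‖G f‖ ^ 2) ≤
      ES S (fun f => (1 / 16 : ℝ) ^ r * F2 f) := by
        apply ES_mono
        · intro ω; positivity
        · exact b2'.integrable
        · intro ω
          have h3 := pow_le_pow_left₀ (norm_nonneg _) (hG (ext S ω)) 2
          have h4 : ((1 / 4 : ℝ) ^ r) ^ 2 = (1 / 16) ^ r := by
            rw [← pow_mul, mul_comm, pow_mul]; norm_num
          rw [mul_pow, h4] at h3
          simp only [hF2, pow_zero, norm_one, one_pow, one_mul]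
          exact h3
    _ = (1 / 16 : ℝ) ^ r * ES S F2 := XB.ES_const_mul _ _
    _ ≤ _ := by gcongr

/-- The second moment factorises. -/
lemma ER_factor0 {T : ℝ} (hT : 1 < T) (M J : ℕ) (α : ℝ) (g h : Finset ℕ) (w₂ : ℂ) :
    ER (SB T M J) (fun f => ‖AA T M J α g h (tw w₂ f)‖ ^ 2) =
    ∏ j ∈ Finset.range (J + 1), ES (Sj T M J j) (fun f => ‖Fc T M J α g h j (tw w₂ f)‖ ^ 2) := by
  have hB := blk_SB hT M J
  set G : ℕ → (ℕ → ℂ) → ℝ := fun j f =>
    (if j < J + 1 then ‖Fc T M J α g h j (tw w₂ f)‖ ^ 2 else 1) with hG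
  have h1 : ∀ f : ℕ → ℂ, ‖AA T M J α g h (tw w₂ f)‖ ^ 2 = ∏ j : Fin (J + 2), G j f := by
    intro f
    have e2 : AA T M J α g h (tw w₂ f) = ∏ j : Fin (J + 2),
        (if (j : ℕ) < J + 1 then Fc T M J α g h j (tw w₂ f) else 1) := by
      rw [← Finset.prod_range (fun j => if j < J + 1 then Fc T M J α g h j (tw w₂ f) else 1),
        Finset.prod_range_succ, if_neg (lt_irrefl _), mul_one, AA]
      refine Finset.prod_congr rfl fun j hj => ?_
      rw [if_pos (Finset.mem_range.1 hj)]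
    rw [e2, norm_prod, ← Finset.prod_pow]
    refine Finset.prod_congr rfl fun j _ => ?_
    simp only [hG]
    split_ifs <;> simp
  have h2 : ER (SB T M J) (fun f => ‖AA T M J α g h (tw w₂ f)‖ ^ 2) =
      ER (SB T M J) (fun f => ∏ j : Fin (J + 2), G j f) := by
    congr 1
    funext f
    exact h1 f
  rw [h2, ER_prod hB (fun j : Fin (J + 2) => G j)]
  · rw [show (∏ j : Fin (J + 2), ES (SB T M J j) (G j)) =
      ∏ j : Fin (J + 2), ES (Sj T M J j) (G j) from rfl,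
      ← Finset.prod_range (fun j => ES (Sj T M J j) (G j)), Finset.prod_range_succ]
    have h3 : ES (Sj T M J (J + 1)) (G (J + 1)) = 1 := by
      simp only [hG, if_neg (lt_irrefl _), ES]
      simp
    rw [h3, mul_one]
    refine Finset.prod_congr rfl fun j hj => ?_
    simp only [hG, if_pos (Finset.mem_range.1 hj)]
  · intro j f f' hff
    have h3 : ∀ w, ∀ p ∈ Sj T M J j, tw w f p = tw w f' p := fun w => tw_congr w hff
    simp only [hG]
    rw [Fc_congr (h3 w₂)]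

/-- Random second moment of our polynomials on the critical line. -/
lemma core0 : ∃ C : ℝ, 0 < C ∧ ∃ M₀ : ℕ, 1 ≤ M₀ ∧ ∀ M : ℕ, M₀ ≤ M →
    ∃ T₀ : ℝ, 3 ≤ T₀ ∧ ∀ T, T₀ ≤ T → ∀ k : ℝ, 0 ≤ k → k ≤ 1 →
    ∀ g h : Finset ℕ, g ∪ h = Finset.range (JJ T + 1) →
    ER (SB T M (JJ T)) (fun f =>
        ‖AA T M (JJ T) k g h (tw ((1 / 2 : ℝ) : ℂ) f)‖ ^ 2) ≤
      Real.exp C * (Real.log T) ^ (k ^ 2) * ∏ j ∈ h, ss M (JJ T) j := by
  obtain ⟨Cg, hCg, good⟩ := good_block0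
  obtain ⟨Cb, hCb, bad⟩ := bad_block0
  obtain ⟨Cs, hCs, hS0⟩ := sum_inv_S0
  obtain ⟨Cr, hCr, hrange⟩ := sum_inv_block
  obtain ⟨C3, hC3, hinv⟩ := sum_inv
  set C := C3 + 2 * Cg + 165 * Real.exp (2 * Cg) with hC
  refine ⟨C, by positivity, ?_⟩
  refine ⟨⌈100 + 80 * Cb⌉₊ + 1, by omega, fun M hM => ?_⟩
  have hMr : 100 + 80 * Cb ≤ M := by
    have h1 := Nat.le_ceil (100 + 80 * Cb)
    have h2 : (⌈100 + 80 * Cb⌉₊ : ℝ) ≤ M := by exact_mod_cast (by omega :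
      ⌈100 + 80 * Cb⌉₊ ≤ M)
    linarith
  have hM1 : 1 ≤ M := by omega
  have hM1' : (1 : ℝ) ≤ M := by exact_mod_cast hM1
  set D := Cr + 10 * (6 + (Cb + Cg) * (1 + Cs)) with hD
  obtain ⟨T₀, hT₀, hev⟩ := eventually_T M 0 D 0
  refine ⟨T₀, hT₀, fun T hT k hk0 hk1 g h hgh => ?_⟩
  obtain ⟨hb1, _, hbet, hK0, _⟩ := hev T hT
  have hT3 : 3 ≤ T := hT₀.trans hT
  have hT1 : 1 < T := by linarith
  have hT0 : 0 < T := by linarith
  have hL : 0 < Real.log T := Real.log_pos hT1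
  set J := JJ T with hJ
  set L := Real.log T with hLdef
  set b := Real.log L with hb
  have hα : |k| ≤ 1 := by rw [abs_le]; constructor <;> linarith
  have hDC : Cr ≤ D := by
    have : 0 ≤ 10 * (6 + (Cb + Cg) * (1 + Cs)) := by positivity
    linarith
  obtain ⟨hj, htop⟩ := hrange T hT3 M J (hDC.trans hbet)
  set Y : ℕ → ℝ := fun j => ∑ p ∈ Sj T M J j, (1 : ℝ) / p with hY
  have hY0 : Y 0 ≤ b + Cs := hS0 T hT3 M J
  have hYj : ∀ j, 1 ≤ j → j ≤ J → Y j ≤ 2 := fun j h1 h2 => hj j h1 h2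
  have hKge : ∀ j, j ≤ J → 10 * (6 + Cb * 4) ≤ KK M J j := by
    intro j hjJ
    have h1 := Real.add_one_le_exp (3 / 4 * ((M : ℝ) + J - j))
    have h2 : (j : ℝ) ≤ J := by exact_mod_cast hjJ
    unfold KK
    linarith
  have hK0' : 10 * (6 + (Cb + Cg) * (b + Cs)) ≤ KK M J 0 := by
    refine le_trans ?_ hK0
    have h1 : 0 ≤ Cb + Cg := by positivity
    have h2 : 10 * (6 + (Cb + Cg) * (b + Cs)) ≤
        10 * (6 + (Cb + Cg) * (1 + Cs)) * (b + 1) := by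
      have h3 : b + Cs ≤ (1 + Cs) * (b + 1) := by nlinarith
      have h4 : (Cb + Cg) * (b + Cs) ≤ (Cb + Cg) * ((1 + Cs) * (b + 1)) := by gcongr
      nlinarith
    have h5 : 10 * (6 + (Cb + Cg) * (1 + Cs)) * (b + 1) ≤ D * (b + 1) := by
      gcongr
      linarith
    exact h2.trans h5
  -- bad blocks
  have hbad : ∀ j, j ≤ J → 6 + Cb * Y j ≤ KK M J j / 10 := by
    intro j hjJ
    rcases Nat.eq_zero_or_pos j with rfl | hpos
    · have h1 : Cb * Y 0 ≤ Cb * (b + Cs) := by gcongr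
      have h2 : 0 ≤ Cg * (b + Cs) := by positivity
      linarith
    · have h1 : Cb * Y j ≤ Cb * 2 := by
        have := hYj j hpos hjJ
        gcongr
      have h2 := hKge j hjJ
      linarith
  have hgood : ∀ j, j ≤ J → Real.exp (-(ll M J j : ℝ) + Cg * Y j) ≤
      Real.exp (2 * Cg) * Real.exp (-KK M J j) := by
    intro j hjJ
    rw [← Real.exp_add]
    apply Real.exp_le_exp.2
    have hKpos := Len.KK_ge_one (M := M) hjJ
    have hl : 10 * KK M J j ≤ ll M J j := Nat.le_ceil _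
    rcases Nat.eq_zero_or_pos j with rfl | hpos
    · have h1 : Cg * Y 0 ≤ Cg * (b + Cs) := by gcongr
      have h2 : 0 ≤ Cb * (b + Cs) := by positivity
      linarith
    · have h1 : Cg * Y j ≤ Cg * 2 := by
        have := hYj j hpos hjJ
        gcongr
      linarith
  have hh : h ⊆ Finset.range (J + 1) := by
    rw [← hgh]; exact Finset.subset_union_right
  -- the exponents
  set F : ℕ → ℝ := fun p => k ^ 2 * (1 / p) + Cg * ((p : ℝ) ^ 2)⁻¹ with hF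
  have hF0 : ∀ p, 0 ≤ F p := by
    intro p
    simp only [hF]
    positivity
  have hsum : ∑ j ∈ Finset.range (J + 1) \ h, ∑ p ∈ Sj T M J j, F p ≤
      k ^ 2 * b + (C3 + 2 * Cg) := by
    have h2 := sum_blocks_le hT1 M J (Finset.sdiff_subset (s := Finset.range (J + 1)) (t := h))
      F hF0
    refine h2.trans ?_
    have hyy1 : 1 ≤ yy T M J (J + 1) := by
      rw [Len.yy_succ (le_refl J)]
      exact Real.one_le_exp (mul_nonneg (bet_pos _ _ _).le hL.le)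
    have hyyT : yy T M J (J + 1) ≤ T := yy_le hT1 M J (by omega)
    have hsub : PS 0 (yy T M J (J + 1)) ⊆ PS 0 T := PS_mono (by linarith) hyyT
    have s1 : ∑ p ∈ PS 0 (yy T M J (J + 1)), (1 : ℝ) / p ≤ b + C3 := by
      have h3 := (abs_le.1 (hinv T (by linarith))).2
      have h4 := Finset.sum_le_sum_of_subset_of_nonneg hsub
        (f := fun p : ℕ => (1 : ℝ) / p) (fun _ _ _ => by positivity)
      linarith
    have s4 : ∑ p ∈ PS 0 (yy T M J (J + 1)), ((p : ℝ) ^ 2)⁻¹ ≤ 2 :=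
      sum_inv_sq fun p hp => prime_PS hp
    have e : ∑ p ∈ PS 0 (yy T M J (J + 1)), F p =
        k ^ 2 * ∑ p ∈ PS 0 (yy T M J (J + 1)), (1 : ℝ) / p +
        Cg * ∑ p ∈ PS 0 (yy T M J (J + 1)), ((p : ℝ) ^ 2)⁻¹ := by
      simp only [hF, Finset.sum_add_distrib, ← Finset.mul_sum]
    rw [e]
    have hk2 : k ^ 2 ≤ 1 := pow_le_one₀ hk0 hk1
    have u1 : k ^ 2 * ∑ p ∈ PS 0 (yy T M J (J + 1)), (1 : ℝ) / p ≤ k ^ 2 * b + C3 := by
      calc _ ≤ k ^ 2 * (b + C3) := by gcongr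
        _ ≤ k ^ 2 * b + 1 * C3 := by
            rw [mul_add]; gcongr
        _ = _ := by ring
    have u5 : Cg * ∑ p ∈ PS 0 (yy T M J (J + 1)), ((p : ℝ) ^ 2)⁻¹ ≤ 2 * Cg := by
      calc _ ≤ Cg * 2 := by gcongr
        _ = _ := by ring
    linarith
  -- assembling
  rw [ER_factor0 hT1]
  set P := ∏ j ∈ h, ss M J j with hP
  have hP0 : 0 ≤ P := Finset.prod_nonneg fun j _ => (Real.exp_pos _).le
  have hprod : ∏ j ∈ Finset.range (J + 1), ES (Sj T M J j) (fun f =>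
      ‖Fc T M J k g h j (tw ((1 / 2 : ℝ) : ℂ) f)‖ ^ 2) ≤
      P * Real.exp (∑ j ∈ Finset.range (J + 1) \ h,
        (∑ p ∈ Sj T M J j, F p + 33 * (Real.exp (2 * Cg) * Real.exp (-KK M J j)))) := by
    rw [← Finset.prod_sdiff hh, mul_comm P, Real.exp_sum]
    have hnn : ∀ j, 0 ≤ ES (Sj T M J j) (fun f =>
      ‖Fc T M J k g h j (tw ((1 / 2 : ℝ) : ℂ) f)‖ ^ 2) :=
      fun j => integral_nonneg fun ω => by positivity
    refine mul_le_mul ?_ ?_ (Finset.prod_nonneg fun j _ => hnn j)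
      (Finset.prod_nonneg fun j _ => (Real.exp_pos _).le)
    · refine Finset.prod_le_prod (fun j _ => hnn j) fun j hj => ?_
      obtain ⟨hj1, hj2⟩ := Finset.mem_sdiff.1 hj
      have hjJ : j ≤ J := by
        have := Finset.mem_range.1 hj1
        omega
      have hjg : j ∈ g := by
        rw [← hgh, Finset.mem_union] at hj1
        tauto
      have h1 := good M (ll M J j) (Sj T M J j) k hM1 hα (fun p hp => prime_Sj hT1 hp)
      have e1 : (fun f : ℕ → ℂ => ‖Fc T M J k g h j (tw ((1 / 2 : ℝ) : ℂ) f)‖ ^ 2) =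
          fun f : ℕ → ℂ => ‖Ntr (ll M J j) k (Pj M (Sj T M J j) (tw ((1 / 2 : ℝ) : ℂ) f))‖ ^ 2 := by
        funext f
        rw [Fc_good hjg hj2]
      rw [e1]
      refine h1.trans ?_
      rw [← Real.exp_add]
      apply Real.exp_le_exp.2
      have h2 := hgood j hjJ
      simp only [hF]
      gcongr
    · refine Finset.prod_le_prod (fun j _ => hnn j) fun j hj => ?_
      have hjJ : j ≤ J := by
        have := Finset.mem_range.1 (hh hj)
        omega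
      have h1 := bad M (rr M J j) (Sj T M J j)
        (fun f => Fc T M J k g h j (tw ((1 / 2 : ℝ) : ℂ) f))
        hM1 (fun p hp => prime_Sj hT1 hp) (fun f => Fc_bad hα hjJ hj _)
      exact h1.trans (bad_num (hbad j hjJ))
  have hsumK : ∑ j ∈ Finset.range (J + 1) \ h, Real.exp (-KK M J j) ≤ 5 :=
    (Finset.sum_le_sum_of_subset_of_nonneg Finset.sdiff_subset
      (fun _ _ _ => (Real.exp_pos _).le)).trans (XB.sum_exp_KK M J)
  have hexp : ∑ j ∈ Finset.range (J + 1) \ h,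
        (∑ p ∈ Sj T M J j, F p + 33 * (Real.exp (2 * Cg) * Real.exp (-KK M J j))) ≤
      k ^ 2 * b + (C3 + 2 * Cg) + 165 * Real.exp (2 * Cg) := by
    rw [Finset.sum_add_distrib]
    have h1 : ∑ j ∈ Finset.range (J + 1) \ h, 33 * (Real.exp (2 * Cg) * Real.exp (-KK M J j)) ≤
        165 * Real.exp (2 * Cg) := by
      rw [← Finset.mul_sum, ← Finset.mul_sum]
      calc 33 * (Real.exp (2 * Cg) * ∑ j ∈ Finset.range (J + 1) \ h, Real.exp (-KK M J j))
          ≤ 33 * (Real.exp (2 * Cg) * 5) := by gcongr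
        _ = _ := by ring
    linarith
  calc _ ≤ P * Real.exp (k ^ 2 * b + (C3 + 2 * Cg) + 165 * Real.exp (2 * Cg)) := by
        refine hprod.trans ?_
        gcongr
    _ = Real.exp C * L ^ (k ^ 2) * P := by
        rw [Real.rpow_def_of_pos hL, ← Real.exp_add, mul_comm P]
        congr 2
        rw [← hb, hC]
        ring

end Crude

open Crude IngM in
theorem stCrude : StCrude := by
  obtain ⟨C₀, hC₀, hX⟩ := xbound
  obtain ⟨c₁, Ct, κt, hc₁, hCt, hκt, htsm⟩ := tsm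
  obtain ⟨M₁, hM₁⟩ := hX c₁ hc₁
  obtain ⟨M₂, hM₂⟩ := dp_AA
  obtain ⟨C4, hC4, M₄, hM₄1, hM₄⟩ := core0
  set κ : ℝ := min κt 1 / 2 with hκ
  have hκ0 : 0 < κ := by have := lt_min hκt one_pos; positivity
  have hκ1 : 2 * κ ≤ κt := by have := min_le_left κt 1; linarith
  have hκ2 : 2 * κ ≤ 1 := by have := min_le_right κt 1; linarith
  set K1 : ℝ := (2 + 98 * Ct) * (1 + c₁) ^ C₀ with hK1
  have hK10 : 0 < K1 := by positivity
  obtain ⟨T₅, hT₅3, hT₅⟩ := htsm 0 le_rfl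
  obtain ⟨T₆, hT₆⟩ := eventually_atTop.mp (small_T (Ct := Ct) (κt := κt) (ε := 1) (κ := κ)
    (c := 0) (c₁ := c₁) hCt hκt one_pos hκ0 hκ1 hκ2)
  refine ⟨C₀ + K1 + C4, κ, by positivity, hκ0, max (max M₁ M₂) M₄, fun M hM => ?_⟩
  have hMM₁ : M₁ ≤ M := (le_max_left _ _).trans ((le_max_left _ _).trans hM)
  have hMM₂ : M₂ ≤ M := (le_max_right _ _).trans ((le_max_left _ _).trans hM)
  have hMM₄ : M₄ ≤ M := (le_max_right _ _).trans hM
  have hM1 : (1 : ℝ) ≤ M := by exact_mod_cast hM₄1.trans hMM₄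
  obtain ⟨T₁, hT₁3, hT₁⟩ := hM₁ M hMM₁ c₁ hc₁.le
  obtain ⟨T₂, hT₂⟩ := hM₂ M hMM₂
  obtain ⟨T₄, hT₄3, hT₄⟩ := hM₄ M hMM₄
  refine ⟨max (max T₁ T₂) (max T₄ (max T₅ T₆)), hT₁3.trans ((le_max_left _ _).trans
    (le_max_left _ _)), fun T hT τ hτ k hk0 hk1 g h hgh => ?_⟩
  have hTT₁ : T₁ ≤ T := (le_max_left _ _).trans ((le_max_left _ _).trans hT)
  have hTT₂ : T₂ ≤ T := (le_max_right _ _).trans ((le_max_left _ _).trans hT)
  have hTT₄ : T₄ ≤ T := (le_max_left _ _).trans ((le_max_right _ _).trans hT)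
  have hTT₅ : T₅ ≤ T :=
    (le_max_left _ _).trans ((le_max_right _ _).trans ((le_max_right _ _).trans hT))
  have hTT₆ : T₆ ≤ T :=
    (le_max_right _ _).trans ((le_max_right _ _).trans ((le_max_right _ _).trans hT))
  obtain ⟨hT3, _, hLc₁, herr, _, _, hTκ⟩ := hT₆ T hTT₆
  have hT1 : 1 < T := by linarith
  have hT0 : 0 < T := by linarith
  have hL : 0 < Real.log T := Real.log_pos hT1
  set J := JJ T with hJ
  have hAA : ∀ g h : Finset ℕ, DP (T ^ (1 / 25 : ℝ)) (T ^ (1 / 20 : ℝ)) (AA T M J (k - 1) g h) :=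
    hT₂ T hTT₂ (k - 1) (by rw [abs_le]; constructor <;> linarith)
  have hBB : ∀ g h : Finset ℕ, DP (T ^ (1 / 25 : ℝ)) (T ^ (1 / 20 : ℝ)) (AA T M J k g h) :=
    hT₂ T hTT₂ k (by rw [abs_le]; constructor <;> linarith)
  have hN25 : 1 ≤ T ^ (1 / 25 : ℝ) := Real.one_le_rpow hT1.le (by norm_num)
  have hN85 : 1 ≤ T ^ (85 / 100 : ℝ) := Real.one_le_rpow hT1.le (by norm_num)
  have hP0 : 0 ≤ ∏ j ∈ h, ss M J j := Finset.prod_nonneg fun j _ => (Real.exp_pos _).le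
  have hLk : 0 ≤ Real.log T ^ (k ^ 2) := Real.rpow_nonneg hL.le _
  have hhalf : ((1 / 2 : ℝ) : ℂ) = 1 / 2 := by push_cast; ring
  set W := Real.exp (C₀ * M) * (1 + c₁) ^ C₀ * Real.log T ^ (k ^ 2) * ∏ j ∈ h, ss M J j with hW
  have hW0 : 0 ≤ W := by positivity
  constructor
  · -- polynomial growth
    have pgζ : PG (fun t => riemannZeta (((1 / 2 : ℝ) : ℂ) + t * I)) :=
      pg_zeta le_rfl (by norm_num)
    have pgS : PG (fun t => SS T (fs (((1 / 2 : ℝ) : ℂ) + t * I))) :=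
      DP.pg (dp_SS hT1) hN85 (by norm_num)
    have pgA : PG (fun t => AA T M J (k - 1) g h (fs (((1 / 2 : ℝ) : ℂ) + t * I))) :=
      DP.pg (hAA g h) hN25 (by norm_num)
    have pgzt : PG (fun t => zt (((1 / 2 : ℝ) : ℂ) + t * I) - kp (((1 / 2 : ℝ) : ℂ) + t * I) *
        SS T (fs (((1 / 2 : ℝ) : ℂ) + t * I))) :=
      (pg_of_nice TSM.nice_zt (σ := 1 / 2) (by norm_num) (by norm_num)).sub
        ((pg_of_nice TSM.nice_kp (σ := 1 / 2) (by norm_num) (by norm_num)).mul pgS)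
    have isq : ∀ {F G : ℝ → ℂ}, PG F → PG G →
        Integrable (fun t => ‖F t‖ ^ 2 * ‖G t‖ ^ 2) (gaussianReal τ (VV T)) := by
      intro F G hF hG
      have := (hF.mul hG).integrable_sq τ (VV T)
      simpa only [norm_mul, mul_pow] using this
    have hXs : ∀ w₁ w₂ : ℝ, 1 / 2 ≤ w₁ → w₁ ≤ 1 / 2 + c₁ / Real.log T →
        |w₂ - 1 / 2| ≤ c₁ / Real.log T →
        EG T τ (fun t => ‖SS T (fs (w₁ + t * I))‖ ^ 2 *
          ‖AA T M J (k - 1) g h (fs (w₂ + t * I))‖ ^ 2) ≤ W + 1 / T := by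
      intro w₁ w₂ hw1 hw2 hw3
      rw [abs_le] at hw3
      have e1 : w₁ = 1 / 2 + (w₁ - 1 / 2) * Real.log T / Real.log T := by field_simp; ring
      have e2 : w₂ = 1 / 2 + (w₂ - 1 / 2) * Real.log T / Real.log T := by field_simp; ring
      have hδ : c₁ / Real.log T ≤ 1 / 4 := by rw [div_le_iff₀ hL]; linarith
      have h3 := tr_SA hT1 herr M J τ (hAA g h) (w₁ := w₁) (w₂ := w₂) (by linarith) (by linarith)
      refine h3.trans ?_
      gcongr
      have h4 := hT₁ T hTT₁ k hk0.le hk1 g h hgh ((w₁ - 1 / 2) * Real.log T)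
        ((w₂ - 1 / 2) * Real.log T) (mul_nonneg (by linarith) hL.le) ?_ ?_ ?_
      · rw [← e1, ← e2] at h4
        exact h4
      · have : w₁ - 1 / 2 ≤ c₁ / Real.log T := by linarith
        calc (w₁ - 1 / 2) * Real.log T ≤ c₁ / Real.log T * Real.log T := by gcongr
          _ = c₁ := by field_simp
      · have : -(c₁ / Real.log T) ≤ w₂ - 1 / 2 := by linarith
        calc -c₁ = -(c₁ / Real.log T) * Real.log T := by field_simp
          _ ≤ _ := by gcongr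
      · have : w₂ - 1 / 2 ≤ c₁ / Real.log T := by linarith
        calc (w₂ - 1 / 2) * Real.log T ≤ c₁ / Real.log T * Real.log T := by gcongr
          _ = c₁ := by field_simp
    have h0 : (1 / 2 + 0 / Real.log T : ℝ) = 1 / 2 := by simp
    have hK := hT₅ T hTT₅ τ hτ (AA T M J (k - 1) g h) (hAA g h) (W + 1 / T) hXs
    rw [h0, mul_zero, neg_zero, Real.exp_zero, mul_one] at hK
    have hS := hXs (1 / 2) (1 / 2) le_rfl (by
      have : 0 ≤ c₁ / Real.log T := by positivity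
      linarith) (by rw [sub_self, abs_zero]; positivity)
    have hmain : EG T τ (fun t => ‖riemannZeta (((1 / 2 : ℝ) : ℂ) + t * I)‖ ^ 2 *
        ‖AA T M J (k - 1) g h (fs (((1 / 2 : ℝ) : ℂ) + t * I))‖ ^ 2) ≤
        2 * EG T τ (fun t => ‖SS T (fs (((1 / 2 : ℝ) : ℂ) + t * I))‖ ^ 2 *
          ‖AA T M J (k - 1) g h (fs (((1 / 2 : ℝ) : ℂ) + t * I))‖ ^ 2) +
        98 * EG T τ (fun t => ‖zt (((1 / 2 : ℝ) : ℂ) + t * I) - kp (((1 / 2 : ℝ) : ℂ) + t * I) *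
          SS T (fs (((1 / 2 : ℝ) : ℂ) + t * I))‖ ^ 2 *
          ‖AA T M J (k - 1) g h (fs (((1 / 2 : ℝ) : ℂ) + t * I))‖ ^ 2) := by
      unfold EG
      rw [← integral_const_mul, ← integral_const_mul,
        ← integral_add ((isq pgS pgA).const_mul 2) ((isq pgzt pgA).const_mul 98)]
      refine integral_mono (isq pgζ pgA)
        (((isq pgS pgA).const_mul 2).add ((isq pgzt pgA).const_mul 98)) fun t => ?_
      simp only
      have h2 := pt_zeta_SS (s := (((1 / 2 : ℝ) : ℂ) + t * I)) (by rw [TSM.line_re])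
        (by rw [TSM.line_re]; norm_num) (SS T (fs (((1 / 2 : ℝ) : ℂ) + t * I)))
      have h3 := pt_split (riemannZeta (((1 / 2 : ℝ) : ℂ) + t * I))
        (SS T (fs (((1 / 2 : ℝ) : ℂ) + t * I)))
        (AA T M J (k - 1) g h (fs (((1 / 2 : ℝ) : ℂ) + t * I))) one_pos
      have h4 := mul_le_mul_of_nonneg_right h2
        (sq_nonneg ‖AA T M J (k - 1) g h (fs (((1 / 2 : ℝ) : ℂ) + t * I))‖)
      linarith
    rw [hhalf] at hmain hK
    have hS' : EG T τ (fun t => ‖SS T (fs ((1 / 2 : ℂ) + t * I))‖ ^ 2 *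
          ‖AA T M J (k - 1) g h (fs ((1 / 2 : ℂ) + t * I))‖ ^ 2) ≤ W + 1 / T := by
      rw [hhalf] at hS
      exact hS
    refine hmain.trans ?_
    have hfin : 2 * (W + 1 / T) + 98 * (Ct * (W + 1 / T + T ^ (-κt))) ≤
        Real.exp ((C₀ + K1 + C4) * M) * Real.log T ^ (k ^ 2) * ∏ j ∈ h, ss M J j + T ^ (-κ) := by
      have h1 : 2 * (W + 1 / T) + 98 * (Ct * (W + 1 / T + T ^ (-κt))) =
          (2 + 98 * Ct) * W + (2 / T + 98 * Ct * (1 / T + T ^ (-κt))) := by ring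
      rw [h1]
      refine add_le_add ?_ hTκ
      have h2 : K1 * Real.exp (C₀ * M) ≤ Real.exp ((C₀ + K1 + C4) * M) := by
        have h3 : K1 ≤ Real.exp (K1 * M) := by
          have h5 := Real.add_one_le_exp (K1 * M)
          nlinarith
        calc K1 * Real.exp (C₀ * M) ≤ Real.exp (K1 * M) * Real.exp (C₀ * M) := by gcongr
          _ = Real.exp ((K1 + C₀) * M) := by rw [← Real.exp_add]; congr 1; ring
          _ ≤ _ := by
              apply Real.exp_le_exp.2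
              have : 0 ≤ C4 * M := by positivity
              linarith
      calc (2 + 98 * Ct) * W = (K1 * Real.exp (C₀ * M)) * Real.log T ^ (k ^ 2) *
            ∏ j ∈ h, ss M J j := by rw [hW, hK1]; ring
        _ ≤ _ := by gcongr
    refine le_trans ?_ hfin
    gcongr
  · have h1 := tr_A hT1 herr M J τ (hBB g h) (w := 1 / 2) (by norm_num)
    have h2 := hT₄ T hTT₄ k hk0.le hk1 g h hgh
    rw [hhalf] at h1 h2
    refine h1.trans ?_
    have h3 : 1 / T ≤ T ^ (-κ) := by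
      rw [one_div, ← Real.rpow_neg_one]
      exact Real.rpow_le_rpow_of_exponent_le (by linarith) (by linarith)
    have h4 : Real.exp C4 ≤ Real.exp ((C₀ + K1 + C4) * M) := by
      apply Real.exp_le_exp.2
      have h5 : C4 ≤ C4 * M := le_mul_of_one_le_right hC4.le hM1
      have h6 : 0 ≤ (C₀ + K1) * M := by positivity
      linarith
    calc _ ≤ Real.exp C4 * Real.log T ^ (k ^ 2) * ∏ j ∈ h, ss M J j + 1 / T := by gcongr
      _ ≤ _ := by gcongr

end K1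
end Pool.Agent.Lib.MP_973905_nt
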