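import Pool.Agent.Lib.MP_973905_nt.K1.Stmts

/-! Module (10): the local factor with shifts. -/

namespace Pool.Agent.Lib.MP_973905_nt
namespace K1

open MeasureTheory ProbabilityTheory Complex Filter Topology

namespace LFaux

open DDaux

/-- conjugation on the unit circle is inversion -/
lemma conj_eq_inv {z : ℂ} (hz : ‖z‖ = 1) : (starRingEnd ℂ) z = z⁻¹ := by
  rw [Complex.inv_def, Complex.normSq_eq_norm_sq, hz]
  simp

/-- the kernel -/
noncomputable def Kr (x₁ x₂ z : ℂ) : ℂ := (1 - x₁ * z)⁻¹ * (1 - x₂ * (starRingEnd ℂ) z)⁻¹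

lemma one_sub_ne {w : ℂ} (hw : ‖w‖ < 1) : 1 - w ≠ 0 := by
  intro h
  have : w = 1 := by linear_combination -h
  rw [this, norm_one] at hw
  exact lt_irrefl _ hw

lemma one_sub_mul_ne {w z : ℂ} (hw : ‖w‖ < 1) (hz : ‖z‖ ≤ 1) : 1 - w * z ≠ 0 := by
  apply one_sub_ne
  rw [norm_mul]
  calc ‖w‖ * ‖z‖ ≤ ‖w‖ * 1 := mul_le_mul_of_nonneg_left hz (norm_nonneg _)
    _ < 1 := by rwa [mul_one]

lemma avg_pow {x₁ x₂ : ℂ} (h₁ : ‖x₁‖ < 1) (h₂ : ‖x₂‖ < 1) (m : ℕ) :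
    Real.circleAverage (fun z => Kr x₁ x₂ z * z ^ m) 0 1 = x₂ ^ m / (1 - x₁ * x₂) := by
  have hd : DiffContOnCl ℂ (fun z : ℂ => (1 - x₁ * z)⁻¹ * z ^ m) (Metric.ball 0 |(1 : ℝ)|) := by
    apply DifferentiableOn.diffContOnCl
    intro z hz
    have hz' : ‖z‖ ≤ 1 := by
      have := Metric.closure_ball_subset_closedBall hz
      simpa using this
    have hne := one_sub_mul_ne h₁ hz'
    apply DifferentiableAt.differentiableWithinAt
    apply DifferentiableAt.mul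
    · exact ((differentiableAt_const _).sub ((differentiableAt_const _).mul differentiableAt_id)).inv
        hne
    · exact differentiableAt_id.pow m
  have h := hd.circleAverage_smul_div (w := x₂) (by simpa using h₂)
  have e : Real.circleAverage (fun z => Kr x₁ x₂ z * z ^ m) 0 1 =
      Real.circleAverage (fun z : ℂ => ((z - 0) / (z - x₂)) • ((1 - x₁ * z)⁻¹ * z ^ m)) 0 1 := by
    apply Real.circleAverage_congr_sphere
    intro z hz
    have hz' : ‖z‖ = 1 := by simpa using hz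
    have hz0 : z ≠ 0 := by
      intro h0
      rw [h0, norm_zero] at hz'
      exact zero_ne_one hz'
    have hne : z - x₂ ≠ 0 := by
      intro h0
      have : z = x₂ := by linear_combination h0
      rw [this] at hz'
      linarith
    have h3 : (1 - x₂ * z⁻¹)⁻¹ = z / (z - x₂) := by
      rw [inv_eq_one_div, eq_div_iff hne, one_div, inv_mul_eq_div, div_eq_iff]
      · field_simp
      · have : 1 - x₂ * z⁻¹ = (z - x₂) / z := by field_simp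
        rw [this]
        exact div_ne_zero hne hz0
    simp only [Kr, smul_eq_mul, sub_zero]
    rw [conj_eq_inv hz', h3]
    ring
  rw [e, h]
  rw [div_eq_mul_inv, mul_comm]

lemma avg_conj_pow {x₁ x₂ : ℂ} (h₁ : ‖x₁‖ < 1) (h₂ : ‖x₂‖ < 1) (m : ℕ) :
    Real.circleAverage (fun z => Kr x₁ x₂ z * ((starRingEnd ℂ) z) ^ m) 0 1 =
      x₁ ^ m / (1 - x₁ * x₂) := by
  have h := avg_pow h₂ h₁ m
  rw [← Real.circleAverage_zero_one_congr_inv] at h
  rw [mul_comm x₁ x₂, ← h]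
  apply Real.circleAverage_congr_sphere
  intro z hz
  have hz' : ‖z‖ = 1 := by simpa using hz
  have hzi : ‖z⁻¹‖ = 1 := by rw [norm_inv, hz', inv_one]
  simp only [Kr]
  rw [conj_eq_inv hz', conj_eq_inv hzi, inv_inv]
  ring

lemma avg_pair {x₁ x₂ : ℂ} (h₁ : ‖x₁‖ < 1) (h₂ : ‖x₂‖ < 1) (j l : ℕ) :
    Real.circleAverage (fun z => Kr x₁ x₂ z * (z ^ j * ((starRingEnd ℂ) z) ^ l)) 0 1 =
      x₂ ^ (j - l) * x₁ ^ (l - j) / (1 - x₁ * x₂) := by
  rcases le_total l j with h | h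
  · obtain ⟨m, rfl⟩ := Nat.exists_eq_add_of_le h
    rw [Nat.add_sub_cancel_left, Nat.sub_eq_zero_of_le h, pow_zero, mul_one, ← avg_pow h₁ h₂ m]
    apply Real.circleAverage_congr_sphere
    intro z hz
    have hz' : ‖z‖ = 1 := by simpa using hz
    have hz0 : z ≠ 0 := by
      intro h0
      rw [h0, norm_zero] at hz'
      exact zero_ne_one hz'
    simp only
    rw [conj_eq_inv hz', pow_add, inv_pow]
    field_simp
  · obtain ⟨m, rfl⟩ := Nat.exists_eq_add_of_le h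
    rw [Nat.add_sub_cancel_left, Nat.sub_eq_zero_of_le h, pow_zero, one_mul,
      ← avg_conj_pow h₁ h₂ m]
    apply Real.circleAverage_congr_sphere
    intro z hz
    have hz' : ‖z‖ = 1 := by simpa using hz
    have hz0 : z ≠ 0 := by
      intro h0
      rw [h0, norm_zero] at hz'
      exact zero_ne_one hz'
    simp only
    rw [conj_eq_inv hz', pow_add, inv_pow, inv_pow]
    field_simp

/-- bound for the coefficients -/
lemma cf_neg_succ {u : ℝ} (hu0 : 0 ≤ u) (hu1 : u ≤ 1) (a : ℕ) : |cf (-u) (a + 1)| ≤ u := by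
  induction a with
  | zero =>
    rw [zero_add, cf_one, abs_neg, abs_of_nonneg hu0]
  | succ a ih =>
    rw [cf_succ, abs_mul]
    have h2 : |(-u + ((a + 1 : ℕ) : ℝ)) / (((a + 1 : ℕ) : ℝ) + 1)| ≤ 1 := by
      have h3 : (0 : ℝ) ≤ (a : ℝ) := Nat.cast_nonneg a
      rw [abs_div, abs_of_nonneg (by push_cast; linarith : (0 : ℝ) ≤ -u + ((a + 1 : ℕ) : ℝ)),
        abs_of_pos (by positivity : (0 : ℝ) < ((a + 1 : ℕ) : ℝ) + 1), div_le_one (by positivity)]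
      linarith
    calc |cf (-u) (a + 1)| * |(-u + ((a + 1 : ℕ) : ℝ)) / (((a + 1 : ℕ) : ℝ) + 1)|
        ≤ |cf (-u) (a + 1)| * 1 := mul_le_mul_of_nonneg_left h2 (abs_nonneg _)
      _ ≤ u := by rw [mul_one]; exact ih

lemma cf_neg_le_one {u : ℝ} (hu0 : 0 ≤ u) (hu1 : u ≤ 1) (a : ℕ) : |cf (-u) a| ≤ 1 := by
  cases a with
  | zero => rw [cf_zero, abs_one]
  | succ a => exact (cf_neg_succ hu0 hu1 a).trans hu1

/-- the terms of the double series -/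
noncomputable def tt (u x : ℝ) (x₁ x₂ : ℂ) (q : ℕ × ℕ) : ℂ :=
  ((cf (-u) q.1 * cf (-u) q.2 * x ^ (q.1 + q.2) : ℝ) : ℂ) *
    (x₂ ^ (q.1 - q.2) * x₁ ^ (q.2 - q.1))

lemma cpow_norm_sq {u x : ℝ} (hx0 : 0 ≤ x) (hx1 : x < 1) {z : ℂ} (hz : ‖z‖ = 1) :
    HasSum (fun q : ℕ × ℕ => ((cf (-u) q.1 * cf (-u) q.2 * x ^ (q.1 + q.2) : ℝ) : ℂ) *
      (z ^ q.1 * ((starRingEnd ℂ) z) ^ q.2)) ((‖1 - x * z‖ ^ (2 * u) : ℝ) : ℂ) := by
  have hw : ‖(x : ℂ) * z‖ < 1 := by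
    rwa [norm_mul, hz, mul_one, norm_real, Real.norm_eq_abs, abs_of_nonneg hx0]
  have h1 : HasSum (fun a : ℕ => (cf (-u) a : ℂ) * ((x : ℂ) * z) ^ a)
      ((1 - (x : ℂ) * z) ^ (u : ℂ)) := by
    have h := hasSum_cpow (-u) hw
    have e1 : 1 / (1 - (x : ℂ) * z) ^ ((-u : ℝ) : ℂ) = (1 - (x : ℂ) * z) ^ (u : ℂ) := by
      push_cast
      rw [Complex.cpow_neg, one_div, inv_inv]
    rwa [e1] at h
  have h2 : HasSum (fun b : ℕ => (cf (-u) b : ℂ) * ((x : ℂ) * (starRingEnd ℂ) z) ^ b)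
      ((starRingEnd ℂ) ((1 - (x : ℂ) * z) ^ (u : ℂ))) := by
    have h5 := h1.map (starRingEnd ℂ) Complex.continuous_conj
    have h6 : ((starRingEnd ℂ) ∘ fun a : ℕ => (cf (-u) a : ℂ) * ((x : ℂ) * z) ^ a) =
        fun b : ℕ => (cf (-u) b : ℂ) * ((x : ℂ) * (starRingEnd ℂ) z) ^ b := by
      funext b
      simp only [Function.comp, map_mul, map_pow, conj_ofReal]
    rw [h6] at h5
    exact h5
  have h3 : Summable fun q : ℕ × ℕ => ((cf (-u) q.1 : ℂ) * ((x : ℂ) * z) ^ q.1) *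
      ((cf (-u) q.2 : ℂ) * ((x : ℂ) * (starRingEnd ℂ) z) ^ q.2) :=
    summable_mul_of_summable_norm (f := fun a : ℕ => (cf (-u) a : ℂ) * ((x : ℂ) * z) ^ a)
      (g := fun b : ℕ => (cf (-u) b : ℂ) * ((x : ℂ) * (starRingEnd ℂ) z) ^ b)
      h1.summable.norm h2.summable.norm
  have h4 := h1.mul h2 h3
  have e3 : (1 - (x : ℂ) * z) ^ (u : ℂ) * (starRingEnd ℂ) ((1 - (x : ℂ) * z) ^ (u : ℂ)) =
      ((‖1 - x * z‖ ^ (2 * u) : ℝ) : ℂ) := by
    rw [Complex.mul_conj, Complex.normSq_eq_norm_sq, norm_cpow_real, ← Real.rpow_natCast,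
      ← Real.rpow_mul (norm_nonneg _)]
    congr 2
    push_cast
    ring
  rw [e3] at h4
  have e4 : (fun q : ℕ × ℕ => ((cf (-u) q.1 * cf (-u) q.2 * x ^ (q.1 + q.2) : ℝ) : ℂ) *
      (z ^ q.1 * ((starRingEnd ℂ) z) ^ q.2)) = fun q : ℕ × ℕ =>
      ((cf (-u) q.1 : ℂ) * ((x : ℂ) * z) ^ q.1) *
      ((cf (-u) q.2 : ℂ) * ((x : ℂ) * (starRingEnd ℂ) z) ^ q.2) := by
    funext q
    push_cast
    rw [mul_pow, mul_pow, pow_add]
    ring
  rw [e4]
  exact h4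

lemma norm_Kr_le {x₁ x₂ z : ℂ} (h₁ : ‖x₁‖ ≤ 3 / 4) (h₂ : ‖x₂‖ ≤ 3 / 4) (hz : ‖z‖ = 1) :
    ‖Kr x₁ x₂ z‖ ≤ 16 := by
  have key : ∀ w : ℂ, ‖w‖ ≤ 3 / 4 → ‖(1 - w)⁻¹‖ ≤ 4 := by
    intro w hw
    have h1 : 1 / 4 ≤ ‖1 - w‖ := by
      have := norm_sub_norm_le (1 : ℂ) w
      rw [norm_one] at this
      linarith
    rw [norm_inv]
    rw [inv_le_comm₀ (by linarith) (by norm_num)]
    linarith
  unfold Kr
  rw [norm_mul]
  have a1 := key (x₁ * z) (by rw [norm_mul, hz, mul_one]; exact h₁)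
  have a2 := key (x₂ * (starRingEnd ℂ) z) (by
    rw [norm_mul, RCLike.norm_conj, hz, mul_one]; exact h₂)
  calc ‖(1 - x₁ * z)⁻¹‖ * ‖(1 - x₂ * (starRingEnd ℂ) z)⁻¹‖ ≤ 4 * 4 :=
        mul_le_mul a1 a2 (norm_nonneg _) (by norm_num)
    _ = 16 := by norm_num

lemma continuous_Kr {x₁ x₂ : ℂ} (h₁ : ‖x₁‖ < 1) (h₂ : ‖x₂‖ < 1) :
    Continuous fun θ : ℝ => Kr x₁ x₂ (circleMap 0 1 θ) := by
  unfold Kr
  have hc : Continuous fun θ : ℝ => circleMap 0 1 θ := continuous_circleMap 0 1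
  apply Continuous.mul
  · apply Continuous.inv₀
    · fun_prop
    · intro θ
      exact one_sub_mul_ne h₁ (by simp)
  · apply Continuous.inv₀
    · fun_prop
    · intro θ
      exact one_sub_mul_ne h₂ (by simp)

lemma summable_pow_add {r : ℝ} (h0 : 0 ≤ r) (h1 : r < 1) :
    Summable fun q : ℕ × ℕ => r ^ (q.1 + q.2) := by
  have h := (summable_geometric_of_lt_one h0 h1).mul_of_nonneg
    (summable_geometric_of_lt_one h0 h1) (fun n => pow_nonneg h0 n) (fun n => pow_nonneg h0 n)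
  refine h.congr fun q => ?_
  rw [pow_add]

/-- the double series of the local factor -/
lemma LF_hasSum {u x : ℝ} {x₁ x₂ : ℂ} (hu0 : 0 ≤ u) (hu1 : u ≤ 1) (hx0 : 0 ≤ x)
    (hx1 : x < 1) (h₁ : ‖x₁‖ ≤ 3 / 4) (h₂ : ‖x₂‖ ≤ 3 / 4) :
    HasSum (tt u x x₁ x₂) ((1 - x₁ * x₂) * LF u x x₁ x₂) := by
  have h₁' : ‖x₁‖ < 1 := by linarith
  have h₂' : ‖x₂‖ < 1 := by linarith
  have hnorm : ∀ θ : ℝ, ‖circleMap 0 1 θ‖ = 1 := fun θ => by simp
  have hne : 1 - x₁ * x₂ ≠ 0 := one_sub_mul_ne h₁' h₂'.le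
  set G : ℕ × ℕ → ℝ → ℂ := fun q θ => Kr x₁ x₂ (circleMap 0 1 θ) *
    (((cf (-u) q.1 * cf (-u) q.2 * x ^ (q.1 + q.2) : ℝ) : ℂ) *
      ((circleMap 0 1 θ) ^ q.1 * ((starRingEnd ℂ) (circleMap 0 1 θ)) ^ q.2)) with hG
  have hint : HasSum (fun q => ∫ θ in (0:ℝ)..(2 * Real.pi), G q θ)
      (∫ θ in (0:ℝ)..(2 * Real.pi), Kr x₁ x₂ (circleMap 0 1 θ) *
        ((‖1 - x * circleMap 0 1 θ‖ ^ (2 * u) : ℝ) : ℂ)) := by
    apply intervalIntegral.hasSum_integral_of_dominated_convergence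
      (bound := fun q _ => 16 * x ^ (q.1 + q.2))
    · intro q
      apply Continuous.aestronglyMeasurable
      simp only [hG]
      apply (continuous_Kr h₁' h₂').mul
      unfold circleMap
      fun_prop
    · intro q
      refine Filter.Eventually.of_forall fun θ _ => ?_
      simp only [hG]
      rw [norm_mul, norm_mul, norm_mul, norm_pow, norm_pow, RCLike.norm_conj, hnorm, one_pow,
        one_pow, mul_one, mul_one, norm_real, Real.norm_eq_abs, abs_mul, abs_mul,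
        abs_of_nonneg (pow_nonneg hx0 _)]
      apply mul_le_mul (norm_Kr_le h₁ h₂ (hnorm θ)) _ (by positivity) (by norm_num)
      have b1 := cf_neg_le_one hu0 hu1 q.1
      have b2 := cf_neg_le_one hu0 hu1 q.2
      calc |cf (-u) q.1| * |cf (-u) q.2| * x ^ (q.1 + q.2) ≤ 1 * 1 * x ^ (q.1 + q.2) := by
            apply mul_le_mul_of_nonneg_right _ (pow_nonneg hx0 _)
            exact mul_le_mul b1 b2 (abs_nonneg _) (by norm_num)
        _ = x ^ (q.1 + q.2) := by ring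
    · exact Filter.Eventually.of_forall fun θ _ => (summable_pow_add hx0 hx1).mul_left 16
    · simp
    · refine Filter.Eventually.of_forall fun θ _ => ?_
      exact (cpow_norm_sq hx0 hx1 (hnorm θ)).mul_left _
  have hval : ∀ q : ℕ × ℕ, (2 * Real.pi)⁻¹ • ∫ θ in (0:ℝ)..(2 * Real.pi), G q θ =
      tt u x x₁ x₂ q / (1 - x₁ * x₂) := by
    intro q
    have h1 : ∀ θ, G q θ = ((cf (-u) q.1 * cf (-u) q.2 * x ^ (q.1 + q.2) : ℝ) : ℂ) *
        (Kr x₁ x₂ (circleMap 0 1 θ) * ((circleMap 0 1 θ) ^ q.1 *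
        ((starRingEnd ℂ) (circleMap 0 1 θ)) ^ q.2)) := by
      intro θ
      simp only [hG]
      ring
    have h2 := avg_pair h₁' h₂' q.1 q.2
    rw [Real.circleAverage] at h2
    simp_rw [h1]
    rw [intervalIntegral.integral_const_mul, ← mul_smul_comm, h2, tt]
    ring
  have h3 := hint.const_smul ((2 * Real.pi)⁻¹ : ℝ)
  have h4 := h3.mul_left (1 - x₁ * x₂)
  have e1 : (fun q => (1 - x₁ * x₂) * (((2 * Real.pi)⁻¹ : ℝ) • ∫ θ in (0:ℝ)..(2 * Real.pi), G q θ)) =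
      tt u x x₁ x₂ := by
    funext q
    rw [hval q, mul_div_cancel₀ _ hne]
  rw [e1] at h4
  exact h4

/-- the elementary inequality behind the termwise bound -/
lemma pow_key {x y : ℝ} (hx0 : 0 ≤ x) (hx1 : x ≤ 3 / 4) (hy0 : 0 ≤ y) (hy1 : y ≤ 3 / 4)
    (hy2 : y ≤ 2 * x) (b m : ℕ) (hbm : 2 ≤ b + m) :
    x ^ (2 * b + m) * y ^ m ≤ x ^ 4 * (13 * (3 / 4) ^ (2 * b + m)) := by
  have hx4 : 0 ≤ x ^ 4 := by positivity
  have hp : ∀ n : ℕ, x ^ n ≤ (3 / 4 : ℝ) ^ n := fun n => pow_le_pow_left₀ hx0 hx1 n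
  rcases m with _ | m
  · obtain ⟨c, rfl⟩ : ∃ c, b = c + 2 := ⟨b - 2, by omega⟩
    have h1 := hp (2 * c)
    have e1 : x ^ (2 * (c + 2) + 0) * y ^ 0 = x ^ 4 * x ^ (2 * c) := by ring
    have e2 : (3 / 4 : ℝ) ^ (2 * (c + 2) + 0) = (3 / 4 : ℝ) ^ (2 * c) * (81 / 256) := by
      rw [show 2 * (c + 2) + 0 = 2 * c + 4 by ring, pow_add]
      norm_num
    rw [e1, e2]
    apply mul_le_mul_of_nonneg_left _ hx4
    have h2 : (0 : ℝ) ≤ (3 / 4 : ℝ) ^ (2 * c) := by positivity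
    linarith
  rcases m with _ | m
  · obtain ⟨c, rfl⟩ : ∃ c, b = c + 1 := ⟨b - 1, by omega⟩
    have h1 := hp (2 * c)
    have e1 : x ^ (2 * (c + 1) + (0 + 1)) * y ^ (0 + 1) = x ^ 3 * x ^ (2 * c) * y := by ring
    have e2 : (3 / 4 : ℝ) ^ (2 * (c + 1) + (0 + 1)) = (3 / 4 : ℝ) ^ (2 * c) * (27 / 64) := by
      rw [show 2 * (c + 1) + (0 + 1) = 2 * c + 3 by ring, pow_add]
      norm_num
    rw [e1, e2]
    calc x ^ 3 * x ^ (2 * c) * y ≤ x ^ 3 * x ^ (2 * c) * (2 * x) :=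
          mul_le_mul_of_nonneg_left hy2 (by positivity)
      _ = x ^ 4 * (2 * x ^ (2 * c)) := by ring
      _ ≤ _ := by
          apply mul_le_mul_of_nonneg_left _ hx4
          have h2 : (0 : ℝ) ≤ (3 / 4 : ℝ) ^ (2 * c) := by positivity
          linarith
  · have h1 := hp (2 * b + m)
    have e1 : x ^ (2 * b + (m + 1 + 1)) * y ^ (m + 1 + 1) = x ^ 2 * x ^ (2 * b + m) * (y ^ 2 * y ^ m) := by
      ring
    have e2 : (3 / 4 : ℝ) ^ (2 * b + (m + 1 + 1)) = (3 / 4 : ℝ) ^ (2 * b + m) * (9 / 16) := by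
      rw [show 2 * b + (m + 1 + 1) = 2 * b + m + 2 by ring, pow_add]
      norm_num
    rw [e1, e2]
    have h3 : y ^ m ≤ 1 := pow_le_one₀ hy0 (by linarith)
    have h4 : y ^ 2 ≤ (2 * x) ^ 2 := pow_le_pow_left₀ hy0 hy2 2
    calc x ^ 2 * x ^ (2 * b + m) * (y ^ 2 * y ^ m)
        ≤ x ^ 2 * x ^ (2 * b + m) * ((2 * x) ^ 2 * 1) := by
          apply mul_le_mul_of_nonneg_left _ (by positivity)
          exact mul_le_mul h4 h3 (by positivity) (by positivity)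
      _ = x ^ 4 * (4 * x ^ (2 * b + m)) := by ring
      _ ≤ _ := by
          apply mul_le_mul_of_nonneg_left _ hx4
          have h2 : (0 : ℝ) ≤ (3 / 4 : ℝ) ^ (2 * b + m) := by positivity
          linarith

/-- termwise bound outside the four first terms -/
lemma norm_tt_le {u x : ℝ} {x₁ x₂ : ℂ} (hu0 : 0 ≤ u) (hu1 : u ≤ 1) (hx0 : 0 ≤ x)
    (hx1 : x ≤ 3 / 4) (h₁ : ‖x₁‖ ≤ 3 / 4) (h₂ : ‖x₂‖ ≤ 3 / 4) (h₁' : ‖x₁‖ ≤ 2 * x)
    (h₂' : ‖x₂‖ ≤ 2 * x) (q : ℕ × ℕ) (hq : 2 ≤ q.1 ∨ 2 ≤ q.2) :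
    ‖tt u x x₁ x₂ q‖ ≤ u * x ^ 4 * 13 * (3 / 4) ^ (q.1 + q.2) := by
  obtain ⟨a, b⟩ := q
  simp only at hq ⊢
  have hcf : |cf (-u) a| * |cf (-u) b| ≤ u := by
    rcases hq with h | h
    · obtain ⟨c, rfl⟩ : ∃ c, a = c + 1 := ⟨a - 1, by omega⟩
      calc |cf (-u) (c + 1)| * |cf (-u) b| ≤ u * 1 :=
            mul_le_mul (cf_neg_succ hu0 hu1 c) (cf_neg_le_one hu0 hu1 b) (abs_nonneg _) hu0
        _ = u := mul_one u
    · obtain ⟨c, rfl⟩ : ∃ c, b = c + 1 := ⟨b - 1, by omega⟩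
      calc |cf (-u) a| * |cf (-u) (c + 1)| ≤ 1 * u :=
            mul_le_mul (cf_neg_le_one hu0 hu1 a) (cf_neg_succ hu0 hu1 c) (abs_nonneg _) zero_le_one
        _ = u := one_mul u
  have hpow : x ^ (a + b) * (‖x₂‖ ^ (a - b) * ‖x₁‖ ^ (b - a)) ≤
      x ^ 4 * (13 * (3 / 4) ^ (a + b)) := by
    rcases le_total b a with h | h
    · obtain ⟨m, rfl⟩ := Nat.exists_eq_add_of_le h
      have := pow_key hx0 hx1 (norm_nonneg x₂) h₂ h₂' b m (by omega)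
      rw [Nat.add_sub_cancel_left, Nat.sub_eq_zero_of_le h, pow_zero, mul_one]
      have e : b + m + b = 2 * b + m := by ring
      rw [e]
      exact this
    · obtain ⟨m, rfl⟩ := Nat.exists_eq_add_of_le h
      have := pow_key hx0 hx1 (norm_nonneg x₁) h₁ h₁' a m (by omega)
      rw [Nat.add_sub_cancel_left, Nat.sub_eq_zero_of_le h, pow_zero, one_mul]
      have e : a + (a + m) = 2 * a + m := by ring
      rw [e]
      exact this
  have e1 : ‖tt u x x₁ x₂ (a, b)‖ = (|cf (-u) a| * |cf (-u) b|) *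
      (x ^ (a + b) * (‖x₂‖ ^ (a - b) * ‖x₁‖ ^ (b - a))) := by
    unfold tt
    rw [norm_mul, norm_mul, norm_pow, norm_pow, norm_real, Real.norm_eq_abs, abs_mul, abs_mul,
      abs_of_nonneg (pow_nonneg hx0 _)]
    ring
  rw [e1]
  calc (|cf (-u) a| * |cf (-u) b|) * (x ^ (a + b) * (‖x₂‖ ^ (a - b) * ‖x₁‖ ^ (b - a)))
      ≤ u * (x ^ 4 * (13 * (3 / 4) ^ (a + b))) := by
        apply mul_le_mul hcf hpow _ hu0
        positivity
    _ = _ := by ring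

end LFaux

open LFaux DDaux in
theorem stLF : StLF := by
  refine ⟨208, by norm_num, ?_⟩
  intro u x x₁ x₂ hu0 hu1 hx0 hx1 h₁ h₂ h₁' h₂'
  have hx : x < 1 := by linarith
  have hS := LF_hasSum hu0 hu1 hx0 hx h₁ h₂
  set S : Finset (ℕ × ℕ) := Finset.range 2 ×ˢ Finset.range 2 with hSdef
  have hfin : HasSum (fun q : ℕ × ℕ => if q ∈ S then tt u x x₁ x₂ q else 0)
      (∑ q ∈ S, tt u x x₁ x₂ q) := by
    have h : HasSum (fun q : ℕ × ℕ => if q ∈ S then tt u x x₁ x₂ q else 0)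
        (∑ q ∈ S, (if q ∈ S then tt u x x₁ x₂ q else 0)) :=
      hasSum_sum_of_ne_finset_zero (fun q hq => if_neg hq)
    have e : ∑ q ∈ S, (if q ∈ S then tt u x x₁ x₂ q else 0) = ∑ q ∈ S, tt u x x₁ x₂ q :=
      Finset.sum_congr rfl fun q hq => if_pos hq
    rwa [e] at h
  have hdiff := hS.sub hfin
  have hgeo : HasSum (fun q : ℕ × ℕ => (3 / 4 : ℝ) ^ (q.1 + q.2)) 16 := by
    have hg : HasSum (fun n : ℕ => (3 / 4 : ℝ) ^ n) 4 := by
      have := hasSum_geometric_of_lt_one (r := (3 / 4 : ℝ)) (by norm_num) (by norm_num)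
      norm_num at this
      exact this
    have h := hg.mul hg (hg.summable.mul_of_nonneg hg.summable (fun n => by positivity)
      (fun n => by positivity))
    have e : (fun q : ℕ × ℕ => (3 / 4 : ℝ) ^ (q.1 + q.2)) =
        fun q : ℕ × ℕ => (3 / 4 : ℝ) ^ q.1 * (3 / 4 : ℝ) ^ q.2 := by
      funext q
      rw [pow_add]
    rw [e]
    norm_num at h ⊢
    exact h
  have hbd := hgeo.mul_left (u * x ^ 4 * 13)
  have hnorm : ‖(1 - x₁ * x₂) * LF u x x₁ x₂ - ∑ q ∈ S, tt u x x₁ x₂ q‖ ≤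
      u * x ^ 4 * 13 * 16 := by
    rw [← hdiff.tsum_eq]
    apply tsum_of_norm_bounded hbd
    intro q
    by_cases hq : q ∈ S
    · rw [if_pos hq, sub_self, norm_zero]
      positivity
    · rw [if_neg hq, sub_zero]
      apply norm_tt_le hu0 hu1 hx0 hx1 h₁ h₂ h₁' h₂'
      by_contra hcon
      push Not at hcon
      apply hq
      rw [hSdef, Finset.mem_product, Finset.mem_range, Finset.mem_range]
      exact hcon
  have hsum : ∑ q ∈ S, tt u x x₁ x₂ q = ((1 + (u ^ 2 - 2 * u) * x ^ 2 : ℝ) : ℂ) -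
      ((u * x : ℝ) : ℂ) * ((x₁ - x) + (x₂ - x)) := by
    rw [hSdef, Finset.sum_product, Finset.sum_range_succ, Finset.sum_range_one,
      Finset.sum_range_succ, Finset.sum_range_one, Finset.sum_range_succ, Finset.sum_range_one]
    simp only [tt, cf_zero, cf_one]
    push_cast
    simp
    ring
  have e2 : (1 - x₁ * x₂) * LF u x x₁ x₂ - ((1 + (u ^ 2 - 2 * u) * x ^ 2 : ℝ) : ℂ) =
      ((1 - x₁ * x₂) * LF u x x₁ x₂ - ∑ q ∈ S, tt u x x₁ x₂ q) -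
      ((u * x : ℝ) : ℂ) * ((x₁ - x) + (x₂ - x)) := by
    rw [hsum]
    ring
  rw [e2]
  have hux : 0 ≤ u * x := mul_nonneg hu0 hx0
  calc ‖((1 - x₁ * x₂) * LF u x x₁ x₂ - ∑ q ∈ S, tt u x x₁ x₂ q) -
      ((u * x : ℝ) : ℂ) * ((x₁ - x) + (x₂ - x))‖
      ≤ ‖(1 - x₁ * x₂) * LF u x x₁ x₂ - ∑ q ∈ S, tt u x x₁ x₂ q‖ +
        ‖((u * x : ℝ) : ℂ) * ((x₁ - x) + (x₂ - x))‖ := norm_sub_le _ _
    _ ≤ u * x ^ 4 * 13 * 16 + (u * x) * (‖x₁ - x‖ + ‖x₂ - x‖) := by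
        apply add_le_add hnorm
        rw [norm_mul, norm_real, Real.norm_eq_abs, abs_of_nonneg hux]
        exact mul_le_mul_of_nonneg_left (norm_add_le _ _) hux
    _ ≤ 208 * u * x * (‖x₁ - x‖ + ‖x₂ - x‖ + x ^ 3) := by
        have h3 : 0 ≤ u * x * (‖x₁ - x‖ + ‖x₂ - x‖) := by positivity
        nlinarith [h3]

end K1
end Pool.Agent.Lib.MP_973905_nt
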