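import Pool.Agent.Lib.MP_973905_nt.K1.Stmts

namespace Pool.Agent.Lib.MP_973905_nt
namespace K1

open MeasureTheory ProbabilityTheory Complex Filter Topology

namespace Fourth

lemma Pb_nonneg (δ x : ℝ) : 0 ≤ Pb δ x :=
  mul_nonneg (Real.smoothTransition.nonneg _) (Real.smoothTransition.nonneg _)

lemma Pb_le_one (δ x : ℝ) : Pb δ x ≤ 1 :=
  mul_le_one₀ (Real.smoothTransition.le_one _) (Real.smoothTransition.nonneg _)
    (Real.smoothTransition.le_one _)

lemma Pb_zero {δ x : ℝ} (hδ : 0 < δ) (h : 1 / 2 - δ ≤ x) : Pb δ x = 0 := by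
  rw [Pb, Real.smoothTransition.zero_of_nonpos, zero_mul]
  apply div_nonpos_of_nonpos_of_nonneg _ hδ.le
  linarith

lemma dp_SH {δ T : ℝ} (hδ : 0 < δ) (hT : 1 < T) : DP (T ^ (1 / 2 - δ : ℝ)) T (SH δ T) := by
  have hT0 : 0 < T := by linarith
  have hL : 0 < Real.log T := Real.log_pos hT
  have h1 : ∀ n ∈ Finset.Icc 1 ⌊T⌋₊, DP (T ^ (1 / 2 - δ : ℝ)) 1
      (fun f => (Pb δ (Real.log n / Real.log T) : ℂ) * f n) := by
    intro n hn
    rw [Finset.mem_Icc] at hn
    by_cases h : (n : ℝ) ≤ T ^ (1 / 2 - δ : ℝ)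
    · refine (dp_single (Pb δ (Real.log n / Real.log T) : ℂ) n hn.1 h).mono le_rfl ?_
      rw [norm_real, Real.norm_eq_abs, abs_of_nonneg (Pb_nonneg _ _)]
      exact Pb_le_one _ _
    · push Not at h
      have h2 : Pb δ (Real.log n / Real.log T) = 0 := by
        apply Pb_zero hδ
        rw [le_div_iff₀ hL, ← Real.log_rpow hT0]
        exact Real.log_le_log (Real.rpow_pos_of_pos hT0 _) h.le
      rw [h2]
      simpa using dp_zero (N := T ^ (1 / 2 - δ : ℝ)) zero_le_one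
  have h2 := dp_sum (Finset.Icc 1 ⌊T⌋₊) (M := fun _ => 1) h1
  refine h2.mono le_rfl ?_
  simp only [Finset.sum_const, Nat.card_Icc, add_tsub_cancel_right, nsmul_eq_mul, mul_one]
  exact Nat.floor_le hT0.le

/-- evaluation of a Dirichlet polynomial along the line is continuous and bounded -/
lemma eval_fs {N B : ℝ} {G : (ℕ → ℂ) → ℂ} (h : DP N B G) :
    Continuous (fun t : ℝ => G (fs (t * I))) ∧ ∀ t : ℝ, ‖G (fs (t * I))‖ ≤ B := by
  obtain ⟨k, c, n, h1, h2, h3⟩ := h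
  have e : ∀ t : ℝ, G (fs (t * I)) = ∑ i, c i * fs (t * I) (n i) := fun t => h3 _ (cmul_fs _)
  have hn0 : ∀ i, n i ≠ 0 := fun i => Nat.one_le_iff_ne_zero.mp (h1 i).1
  constructor
  · simp only [e]
    exact continuous_finsetSum _ fun i _ => continuous_const.mul (continuous_fs_mul_I (hn0 i))
  · intro t
    rw [e]
    refine ((norm_sum_le _ _).trans (Finset.sum_le_sum fun i _ => ?_)).trans h2
    rw [norm_mul, norm_fs_mul_I t (hn0 i), mul_one]

/-- the mean over `[0, T]` is at most a constant times a Gaussian mean -/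
lemma mean_le {T T' : ℝ} (hT : 0 < T) (hV : ((VV T' : NNReal) : ℝ) = T ^ 2) {F : ℝ → ℝ}
    (hF : Continuous F) (hF0 : ∀ t, 0 ≤ F t) {B : ℝ} (hB : ∀ t, F t ≤ B) :
    T⁻¹ * ∫ t in (0 : ℝ)..T, F t ≤ 5 * EG T' 0 F := by
  have hv : VV T' ≠ 0 := by
    intro h
    rw [h] at hV
    have : (0 : ℝ) < T ^ 2 := by positivity
    simp at hV
    linarith
  have hint : Integrable F (gaussianReal 0 (VV T')) :=
    Integrable.of_bound (C := B) hF.aestronglyMeasurable
      (Filter.Eventually.of_forall fun t => by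
        rw [Real.norm_eq_abs, abs_of_nonneg (hF0 t)]; exact hB t)
  have h1 : EG T' 0 F = ∫ t, gaussianPDFReal 0 (VV T') t * F t := by
    simp only [EG]
    rw [integral_gaussianReal_eq_integral_smul hv]
    simp only [smul_eq_mul]
  have hi2 : Integrable (fun t => gaussianPDFReal 0 (VV T') t * F t) := by
    have h2 : Integrable (fun t => B * gaussianPDFReal 0 (VV T') t) :=
      (integrable_gaussianPDFReal 0 (VV T')).const_mul B
    refine h2.mono' ?_ (Filter.Eventually.of_forall fun t => ?_)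
    · exact (measurable_gaussianPDFReal 0 (VV T')).aestronglyMeasurable.mul hF.aestronglyMeasurable
    · have h3 := gaussianPDFReal_nonneg 0 (VV T') t
      rw [Real.norm_eq_abs, abs_of_nonneg (mul_nonneg h3 (hF0 t)), mul_comm]
      exact mul_le_mul_of_nonneg_right (hB t) h3
  have hpdf : ∀ t ∈ Set.Ioc (0 : ℝ) T, T⁻¹ ≤ 5 * gaussianPDFReal 0 (VV T') t := by
    intro t ht
    rw [gaussianPDFReal, hV, sub_zero]
    have hs : Real.sqrt (2 * Real.pi * T ^ 2) ≤ 2.51 * T := by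
      rw [Real.sqrt_le_left (by positivity), mul_pow]
      have := Real.pi_lt_d4
      have h5 : 2 * Real.pi ≤ 2.51 ^ 2 := by norm_num; linarith
      gcongr
    have hs0 : 0 < Real.sqrt (2 * Real.pi * T ^ 2) := Real.sqrt_pos.mpr (by positivity)
    have he : Real.exp (1 / 2) ≤ 1.65 := by
      have h6 : Real.exp (1 / 2) ^ 2 ≤ 1.65 ^ 2 := by
        rw [← Real.exp_nat_mul]
        have := Real.exp_one_lt_d9
        norm_num
        linarith
      exact le_of_sq_le_sq h6 (by norm_num)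
    have he2 : (1.65 : ℝ)⁻¹ ≤ Real.exp (-t ^ 2 / (2 * T ^ 2)) := by
      calc (1.65 : ℝ)⁻¹ ≤ (Real.exp (1 / 2))⁻¹ := inv_anti₀ (Real.exp_pos _) he
        _ = Real.exp (-(1 / 2)) := (Real.exp_neg _).symm
        _ ≤ _ := by
          apply Real.exp_le_exp.mpr
          rw [neg_div, neg_le_neg_iff, div_le_iff₀ (by positivity)]
          have h7 : t ^ 2 ≤ T ^ 2 := by
            have := ht.1
            have := ht.2
            gcongr
          linarith
    calc T⁻¹ ≤ 5 * ((2.51 * T)⁻¹ * (1.65 : ℝ)⁻¹) := by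
          rw [mul_inv]
          have : 0 < T⁻¹ := by positivity
          norm_num
          nlinarith
      _ ≤ _ := by gcongr
  rw [h1, intervalIntegral.integral_of_le hT.le, ← integral_const_mul, ← integral_const_mul]
  calc ∫ t in Set.Ioc (0 : ℝ) T, T⁻¹ * F t
      ≤ ∫ t in Set.Ioc (0 : ℝ) T, 5 * (gaussianPDFReal 0 (VV T') t * F t) := by
        refine setIntegral_mono_on ?_ (hi2.const_mul 5).integrableOn measurableSet_Ioc fun t ht => ?_
        · exact ((hF.integrableOn_Icc (a := 0) (b := T)).mono_set Set.Ioc_subset_Icc_self).const_mul _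
        · rw [← mul_assoc]
          exact mul_le_mul_of_nonneg_right (hpdf t ht) (hF0 t)
    _ ≤ ∫ t, 5 * (gaussianPDFReal 0 (VV T') t * F t) :=
        setIntegral_le_integral (hi2.const_mul 5) (Filter.Eventually.of_forall fun t =>
          mul_nonneg (by norm_num) (mul_nonneg (gaussianPDFReal_nonneg 0 (VV T') t) (hF0 t)))

lemma ev_small {δ : ℝ} (hδ : 0 < δ) : ∀ᶠ T : ℝ in atTop,
    T ^ 6 * Real.exp (-(T ^ 2 / (2 * (T ^ (1 - δ : ℝ)) ^ 2))) ≤ 1 := by
  obtain ⟨m, hm⟩ := exists_nat_gt (6 / (2 * δ))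
  have h1 : Tendsto (fun T : ℝ => T ^ (2 * δ) / 2) atTop atTop :=
    (tendsto_rpow_atTop (by positivity)).atTop_div_const (by norm_num)
  have h2 : ∀ᶠ u : ℝ in atTop, 2 ^ m * u ^ m ≤ Real.exp u := by
    have := (Real.isLittleO_pow_exp_atTop (n := m)).def (c := (2 ^ m)⁻¹) (by positivity)
    filter_upwards [this, eventually_ge_atTop 0] with u hu hu0
    rw [Real.norm_eq_abs, Real.norm_eq_abs, abs_of_nonneg (by positivity),
      abs_of_pos (Real.exp_pos _)] at hu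
    have h3 := mul_le_mul_of_nonneg_left hu (show (0 : ℝ) ≤ 2 ^ m by positivity)
    rwa [← mul_assoc, mul_inv_cancel₀ (by positivity), one_mul] at h3
  filter_upwards [h1.eventually h2, eventually_ge_atTop 1] with T hT hT1
  have hT0 : 0 < T := by linarith
  have e1 : T ^ 2 / (2 * (T ^ (1 - δ : ℝ)) ^ 2) = T ^ (2 * δ) / 2 := by
    have h4 : T ^ 2 = T ^ (2 * δ) * (T ^ (1 - δ : ℝ)) ^ 2 := by
      rw [← Real.rpow_natCast T 2, ← Real.rpow_natCast (T ^ (1 - δ : ℝ)) 2, ← Real.rpow_mul hT0.le,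
        ← Real.rpow_add hT0]
      congr 1
      push_cast
      ring
    have h5 : 0 < (T ^ (1 - δ : ℝ)) ^ 2 := by positivity
    rw [h4]
    field_simp
  rw [e1, Real.exp_neg]
  have h6 : T ^ 6 ≤ Real.exp (T ^ (2 * δ) / 2) := by
    refine le_trans ?_ hT
    rw [div_pow, mul_div_cancel₀ _ (by positivity), ← Real.rpow_natCast (T ^ (2 * δ)),
      ← Real.rpow_mul hT0.le, ← Real.rpow_natCast T 6]
    apply Real.rpow_le_rpow_of_exponent_le hT1
    rw [div_lt_iff₀ (by positivity)] at hm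
    push_cast
    linarith
  calc T ^ 6 * (Real.exp (T ^ (2 * δ) / 2))⁻¹
      ≤ Real.exp (T ^ (2 * δ) / 2) * (Real.exp (T ^ (2 * δ) / 2))⁻¹ := by gcongr
    _ = 1 := mul_inv_cancel₀ (Real.exp_pos _).ne'

end Fourth

open Fourth in
/-- The fourth moment of the short sum on `[0, T]`. -/
theorem stFourth (h19 : StFourthR) (h13 : StShort) : StFourth := by
  intro δ hδ hδ8
  obtain ⟨M₁, hM₁⟩ := h19 δ hδ hδ8
  obtain ⟨M₂, hM₂⟩ := h13 (δ / 2) (by positivity)
  refine ⟨max M₁ M₂, fun M hM => ?_⟩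
  obtain ⟨C, T₁, hC, hT₁, h1⟩ := hM₁ M ((le_max_left _ _).trans hM)
  obtain ⟨T₂, hT₂, h2⟩ := hM₂ M ((le_max_right _ _).trans hM)
  obtain ⟨T₃, h3⟩ := eventually_atTop.mp (ev_small hδ)
  refine ⟨5 * (C + 1), max (max T₁ T₂) T₃, by positivity, hT₁.trans ((le_max_left _ _).trans (le_max_left _ _)),
    fun T hT k hk0 hk1 => ?_⟩
  have hTT1 : T₁ ≤ T := (le_max_left _ _).trans ((le_max_left _ _).trans hT)
  have hTT2 : T₂ ≤ T := (le_max_right _ _).trans ((le_max_left _ _).trans hT)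
  have hTT3 : T₃ ≤ T := (le_max_right _ _).trans hT
  have hT3 : 3 ≤ T := hT₁.trans hTT1
  have hT0 : 0 < T := by linarith
  have hT1 : 1 < T := by linarith
  have hA := h2 T hTT2 (k - 1) (by rw [abs_le]; constructor <;> linarith)
    (Finset.range (JJ T + 1)) ∅
  have hB := h2 T hTT2 (-1) (by norm_num) (Finset.range (JJ T + 1)) ∅
  set G : (ℕ → ℂ) → ℂ := fun f => SH δ T f ^ 2 * (NN T M (k - 1) f * NN T M (-1) f) with hG
  have hGdp : DP (T ^ (1 - δ : ℝ)) (T ^ 3) G := by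
    have g1 := ((dp_SH hδ hT1).pow 2).mul (hA.mul hB)
    refine g1.mono (le_of_eq ?_) ?_
    · rw [← Real.rpow_natCast, ← Real.rpow_mul hT0.le, ← Real.rpow_add hT0, ← Real.rpow_add hT0]
      congr 1
      push_cast
      ring
    · have g2 : T ^ (δ / 2 : ℝ) * T ^ (δ / 2 : ℝ) ≤ T := by
        rw [← Real.rpow_add hT0]
        nth_rewrite 2 [← Real.rpow_one T]
        exact Real.rpow_le_rpow_of_exponent_le hT1.le (by linarith)
      calc T ^ 2 * (T ^ (δ / 2 : ℝ) * T ^ (δ / 2 : ℝ)) ≤ T ^ 2 * T := by gcongr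
        _ = T ^ 3 := by ring
  have hw : (0 : ℝ) ≤ (1 / 2 : ℂ).re := by norm_num
  have hG' := hGdp.twist hw
  have hT'0 : (0 : ℝ) ≤ T ^ (20 / 19 : ℝ) := Real.rpow_nonneg hT0.le _
  have hV : ((VV (T ^ (20 / 19 : ℝ)) : NNReal) : ℝ) = T ^ 2 := by
    rw [VV_coe hT'0, ← Real.rpow_mul hT0.le, ← Real.rpow_natCast T 2]
    norm_num
  obtain ⟨hcont, hbd⟩ := eval_fs hG'
  have hmean := mean_le (T' := T ^ (20 / 19 : ℝ)) hT0 hV (F := fun t => ‖G (tw (1 / 2) (fs (t * I)))‖ ^ 2)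
    (hcont.norm.pow 2) (fun t => by positivity) (B := (T ^ 3) ^ 2)
    (fun t => pow_le_pow_left₀ (norm_nonneg _) (hbd t) 2)
  have htr := transfer_sq (Sb := SB T M (JJ T)) (N0 := T ^ (1 - δ : ℝ))
    (fun n hn1 hn2 => mem_factored hT1 M (JJ T) hn1 (hn2.trans (by
      calc T ^ (1 - δ : ℝ) ≤ T ^ (1 : ℝ) := Real.rpow_le_rpow_of_exponent_le hT1.le (by linarith)
        _ = T := Real.rpow_one T))) hG' le_rfl (T ^ (20 / 19 : ℝ)) 0
  rw [hV] at htr
  have hsm := h3 T hTT3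
  have hsm' : (T ^ 3) ^ 2 * Real.exp (-(T ^ 2 / (2 * (T ^ (1 - δ : ℝ)) ^ 2))) ≤ 1 := by
    calc _ = T ^ 6 * Real.exp (-(T ^ 2 / (2 * (T ^ (1 - δ : ℝ)) ^ 2))) := by ring
      _ ≤ 1 := hsm
  have hER : ER (SB T M (JJ T)) (fun f => ‖G (tw (1 / 2) f)‖ ^ 2) ≤ C * (Real.log T) ^ (k ^ 2) := by
    refine le_trans (le_of_eq ?_) (h1 T hTT1 k hk0 hk1)
    congr 1
    funext f
    rw [hG]
    simp only [norm_mul, norm_pow]
    ring
  have hL1 : 1 ≤ Real.log T := by
    rw [← Real.log_exp 1]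
    apply Real.log_le_log (Real.exp_pos _)
    have := Real.exp_one_lt_d9
    linarith
  have hLk : 1 ≤ (Real.log T) ^ (k ^ 2) := Real.one_le_rpow hL1 (sq_nonneg k)
  have e1 : ∀ t : ℝ, ‖SH δ T (fs (1 / 2 + t * I))‖ ^ 4 *
      ‖NN T M (k - 1) (fs (1 / 2 + t * I))‖ ^ 2 * ‖NN T M (-1) (fs (1 / 2 + t * I))‖ ^ 2 =
      ‖G (tw (1 / 2) (fs (t * I)))‖ ^ 2 := by
    intro t
    rw [← hGdp.fs_add (1 / 2) (t * I), hG]
    simp only [norm_mul, norm_pow]
    ring
  simp only [e1]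
  refine hmean.trans ?_
  have h9 := (abs_le.mp htr).2
  calc 5 * EG (T ^ (20 / 19 : ℝ)) 0 (fun t => ‖G (tw (1 / 2) (fs (t * I)))‖ ^ 2)
      ≤ 5 * (C * (Real.log T) ^ (k ^ 2) + 1) := by
        gcongr
        linarith
    _ ≤ 5 * (C * (Real.log T) ^ (k ^ 2) + (Real.log T) ^ (k ^ 2)) := by gcongr
    _ = _ := by ring

end K1
end Pool.Agent.Lib.MP_973905_nt
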