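import Pool.Agent.Lib.MP_973905_nt.K1.Stmts

/-! Module (12): the arithmetic factor of our polynomials. -/

namespace Pool.Agent.Lib.MP_973905_nt
namespace K1

open MeasureTheory ProbabilityTheory Complex Filter Topology

namespace RAx

lemma prod_sub_le' {ι : Type*} (s : Finset ι) (z w : ι → ℂ) (e : ι → ℝ)
    (he : ∀ i ∈ s, 0 ≤ e i) (h : ∀ i ∈ s, ‖z i - w i‖ ≤ e i * ‖w i‖) :
    ‖∏ i ∈ s, z i - ∏ i ∈ s, w i‖ ≤ (Real.exp (∑ i ∈ s, e i) - 1) * ‖∏ i ∈ s, w i‖ := by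
  classical
  induction s using Finset.induction_on with
  | empty => simp
  | insert a s ha ih =>
    have ih' := ih (fun i hi => he i (Finset.mem_insert_of_mem hi))
      (fun i hi => h i (Finset.mem_insert_of_mem hi))
    rw [Finset.prod_insert ha, Finset.prod_insert ha, Finset.sum_insert ha]
    set Z := ∏ i ∈ s, z i
    set W := ∏ i ∈ s, w i
    set E := ∑ i ∈ s, e i
    have hE : 0 ≤ E := Finset.sum_nonneg fun i hi => he i (Finset.mem_insert_of_mem hi)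
    have h1 := h a (Finset.mem_insert_self a s)
    have h0 := he a (Finset.mem_insert_self a s)
    have hE1 : 1 ≤ Real.exp E := Real.one_le_exp hE
    have hZ : ‖Z‖ ≤ Real.exp E * ‖W‖ := by
      have : ‖Z‖ ≤ ‖Z - W‖ + ‖W‖ := by simpa using norm_add_le (Z - W) W
      linarith
    have e1 : z a * Z - w a * W = (z a - w a) * Z + w a * (Z - W) := by ring
    rw [e1, norm_mul (w a) W]
    refine (norm_add_le _ _).trans ?_
    rw [norm_mul, norm_mul, Real.exp_add]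
    have h2 : 1 + e a ≤ Real.exp (e a) := by linarith [Real.add_one_le_exp (e a)]
    have h3 : 0 ≤ ‖w a‖ * ‖W‖ := by positivity
    calc ‖z a - w a‖ * ‖Z‖ + ‖w a‖ * ‖Z - W‖
        ≤ (e a * ‖w a‖) * (Real.exp E * ‖W‖) + ‖w a‖ * ((Real.exp E - 1) * ‖W‖) := by gcongr
      _ = ((1 + e a) * Real.exp E - 1) * (‖w a‖ * ‖W‖) := by ring
      _ ≤ _ := by
        apply mul_le_mul_of_nonneg_right _ h3
        have := mul_le_mul_of_nonneg_right h2 (show 0 ≤ Real.exp E by positivity)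
        linarith

lemma prod_UU {β : Type*} [CommMonoid β] {T : ℝ} (hT : 1 < T) (M J : ℕ) (g : ℕ → β) :
    ∏ p ∈ UU (SB T M J), g p = ∏ j ∈ Finset.range (J + 2), ∏ p ∈ Sj T M J j, g p := by
  unfold UU
  rw [Finset.prod_biUnion (fun i _ j _ hij => (blk_SB hT M J).2 i j hij), Finset.prod_range]
  rfl

lemma conj_cpow_nat {p : ℕ} (w : ℂ) :
    (starRingEnd ℂ) ((p : ℂ) ^ (-(1 / 2 + (starRingEnd ℂ) w))) = (p : ℂ) ^ (-(1 / 2 + w)) := by
  have h : ((p : ℂ)).arg ≠ Real.pi := by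
    rw [natCast_arg]; exact Real.pi_ne_zero.symm
  have h1 := cpow_conj (p : ℂ) (-(1 / 2 + (starRingEnd ℂ) w)) h
  rw [map_neg, map_add, conj_conj, conj_natCast] at h1
  rw [← h1]
  congr 3
  simp only [one_div, map_inv₀]
  rw [map_ofNat]

/-- One block of the arithmetic factor, without the polynomials. -/
lemma ES_top (S : Finset ℕ) (a₁ a₂ : ℂ) :
    ES S (fun f => ZZ S (tw (1 / 2 + a₁) f) *
        (starRingEnd ℂ) (ZZ S (tw (1 / 2 + (starRingEnd ℂ) a₂) f))) =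
      ∏ p ∈ S, Real.circleAverage (fun z : ℂ => (1 - (p : ℂ) ^ (-(1 / 2 + a₁)) * z)⁻¹ *
        (1 - (p : ℂ) ^ (-(1 / 2 + a₂)) * (starRingEnd ℂ) z)⁻¹) 0 1 := by
  rw [← ES_prod S (fun p z => (1 - (p : ℂ) ^ (-(1 / 2 + a₁)) * z)⁻¹ *
        (1 - (p : ℂ) ^ (-(1 / 2 + a₂)) * (starRingEnd ℂ) z)⁻¹)]
  congr 1
  ext f
  rw [ZZ, ZZ, map_prod, ← Finset.prod_mul_distrib]
  refine Finset.prod_congr rfl fun p _ => ?_
  rw [map_inv₀, map_sub, map_one]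
  simp only [tw, map_mul]
  rw [conj_cpow_nat]

lemma LF_zero (x : ℝ) (x₁ x₂ : ℂ) :
    LF 0 x x₁ x₂ = Real.circleAverage (fun z : ℂ => (1 - x₁ * z)⁻¹ *
      (1 - x₂ * (starRingEnd ℂ) z)⁻¹) 0 1 := by
  unfold LF
  congr 1
  ext z
  simp

lemma avg_eq (h10 : StLF) {x₁ x₂ : ℂ} (h1 : ‖x₁‖ ≤ 3 / 4) (h2 : ‖x₂‖ ≤ 3 / 4) :
    (1 - x₁ * x₂) * Real.circleAverage (fun z : ℂ => (1 - x₁ * z)⁻¹ *
      (1 - x₂ * (starRingEnd ℂ) z)⁻¹) 0 1 = 1 := by
  obtain ⟨C, _, h⟩ := h10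
  have h3 := h 0 (3 / 4) x₁ x₂ le_rfl zero_le_one (by norm_num) le_rfl h1 h2 (by linarith)
    (by linarith)
  rw [LF_zero] at h3
  have h4 : ‖(1 - x₁ * x₂) * Real.circleAverage (fun z : ℂ => (1 - x₁ * z)⁻¹ *
      (1 - x₂ * (starRingEnd ℂ) z)⁻¹) 0 1 - 1‖ ≤ 0 := by simpa using h3
  exact sub_eq_zero.mp (norm_eq_zero.mp (le_antisymm h4 (norm_nonneg _)))

lemma cpow_mul_eq {p : ℕ} (hp : p ≠ 0) (a₁ a₂ : ℂ) :
    (p : ℂ) ^ (-(1 / 2 + a₁)) * (p : ℂ) ^ (-(1 / 2 + a₂)) = (p : ℂ) ^ (-(1 + a₁ + a₂)) := by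
  rw [← cpow_add _ _ (by exact_mod_cast hp)]
  congr 1
  ring

/-- One block of the arithmetic factor. -/
noncomputable def EB (T : ℝ) (M : ℕ) (k : ℝ) (a₁ a₂ : ℂ) (j : ℕ) : ℂ :=
  ES (Sj T M (JJ T) j) (fun f => ZZ (Sj T M (JJ T) j) (tw (1 / 2 + a₁) f) *
    (starRingEnd ℂ) (ZZ (Sj T M (JJ T) j) (tw (1 / 2 + (starRingEnd ℂ) a₂) f)) *
    (Ntr (ll M (JJ T) j) (k - 1) (Pj M (Sj T M (JJ T) j) (tw (1 / 2) f)) *
      (starRingEnd ℂ) (Ntr (ll M (JJ T) j) (k - 1) (Pj M (Sj T M (JJ T) j) (tw (1 / 2) f)))))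

/-- The polynomial factor of one block. -/
noncomputable def WB (T : ℝ) (M : ℕ) (a₁ a₂ : ℂ) (j : ℕ) : ℂ :=
  ∏ p ∈ Sj T M (JJ T) j, (1 - (p : ℂ) ^ (-(1 + a₁ + a₂)))

lemma RA_eq {T : ℝ} (hT : 1 < T) (M : ℕ) (k : ℝ) (a₁ a₂ : ℂ) :
    RA T M (NN T M (k - 1)) a₁ a₂ =
      (∏ j ∈ Finset.range (JJ T + 1), (EB T M k a₁ a₂ j * WB T M a₁ a₂ j)) *
        (ES (Sj T M (JJ T) (JJ T + 1)) (fun f => ZZ (Sj T M (JJ T) (JJ T + 1)) (tw (1 / 2 + a₁) f) *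
        (starRingEnd ℂ) (ZZ (Sj T M (JJ T) (JJ T + 1)) (tw (1 / 2 + (starRingEnd ℂ) a₂) f))) *
          WB T M a₁ a₂ (JJ T + 1)) := by
  set J := JJ T with hJ
  set Φ : ℕ → (ℕ → ℂ) → ℂ := fun j f => ZZ (Sj T M J j) (tw (1 / 2 + a₁) f) *
    (starRingEnd ℂ) (ZZ (Sj T M J j) (tw (1 / 2 + (starRingEnd ℂ) a₂) f)) *
      (if j < J + 1 then Ntr (ll M J j) (k - 1) (Pj M (Sj T M J j) (tw (1 / 2) f)) *
        (starRingEnd ℂ) (Ntr (ll M J j) (k - 1) (Pj M (Sj T M J j) (tw (1 / 2) f))) else 1) with hΦ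
  have e1 : ∀ f : ℕ → ℂ, ZZ (UU (SB T M J)) (tw (1 / 2 + a₁) f) *
      (starRingEnd ℂ) (ZZ (UU (SB T M J)) (tw (1 / 2 + (starRingEnd ℂ) a₂) f)) *
      (NN T M (k - 1) (tw (1 / 2) f) * (starRingEnd ℂ) (NN T M (k - 1) (tw (1 / 2) f))) =
      ∏ j ∈ Finset.range (J + 2), Φ j f := by
    intro f
    have hN : NN T M (k - 1) (tw (1 / 2) f) =
        ∏ j ∈ Finset.range (J + 1), Ntr (ll M J j) (k - 1) (Pj M (Sj T M J j) (tw (1 / 2) f)) := by
      rw [NN, AA]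
      refine Finset.prod_congr rfl fun j hj => ?_
      rw [Fc, if_pos hj, if_neg (Finset.notMem_empty _), mul_one]
    rw [ZZ_UU hT, ZZ_UU hT, hN, map_prod, map_prod, Finset.prod_range_succ _ (J + 1),
      Finset.prod_range_succ _ (J + 1), Finset.prod_range_succ _ (J + 1)]
    rw [show Φ (J + 1) f = ZZ (Sj T M J (J + 1)) (tw (1 / 2 + a₁) f) *
      (starRingEnd ℂ) (ZZ (Sj T M J (J + 1)) (tw (1 / 2 + (starRingEnd ℂ) a₂) f)) by
        simp only [hΦ]; rw [if_neg (lt_irrefl _), mul_one]]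
    have h1 : ∏ j ∈ Finset.range (J + 1), Φ j f = ∏ j ∈ Finset.range (J + 1),
        (ZZ (Sj T M J j) (tw (1 / 2 + a₁) f) *
    (starRingEnd ℂ) (ZZ (Sj T M J j) (tw (1 / 2 + (starRingEnd ℂ) a₂) f)) *
      (Ntr (ll M J j) (k - 1) (Pj M (Sj T M J j) (tw (1 / 2) f)) *
        (starRingEnd ℂ) (Ntr (ll M J j) (k - 1) (Pj M (Sj T M J j) (tw (1 / 2) f))))) := by
      refine Finset.prod_congr rfl fun j hj => ?_
      simp only [hΦ]
      rw [if_pos (Finset.mem_range.mp hj)]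
    rw [h1, Finset.prod_mul_distrib, Finset.prod_mul_distrib, Finset.prod_mul_distrib]
    ring
  rw [RA, RZ, ← UU_SB hT M J]
  simp only [e1]
  rw [ER_prod' hT M J Φ (by
    intro j f g hfg
    simp only [hΦ]
    have h1 : ZZ (Sj T M J j) (tw (1 / 2 + a₁) f) = ZZ (Sj T M J j) (tw (1 / 2 + a₁) g) := ZZ_dep hfg
    have h1' : ZZ (Sj T M J j) (tw (1 / 2 + (starRingEnd ℂ) a₂) f) =
      ZZ (Sj T M J j) (tw (1 / 2 + (starRingEnd ℂ) a₂) g) := ZZ_dep hfg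
    have h2 : Pj M (Sj T M J j) (tw (1 / 2) f) = Pj M (Sj T M J j) (tw (1 / 2) g) := by
      unfold Pj
      refine Finset.sum_congr rfl fun p hp => ?_
      simp only [tw, hfg p hp]
    rw [h1, h1', h2]), prod_UU hT, Finset.prod_range_succ _ (J + 1),
    Finset.prod_range_succ _ (J + 1), Finset.prod_mul_distrib]
  have h2 : Φ (J + 1) = fun f => ZZ (Sj T M J (J + 1)) (tw (1 / 2 + a₁) f) *
        (starRingEnd ℂ) (ZZ (Sj T M J (J + 1)) (tw (1 / 2 + (starRingEnd ℂ) a₂) f)) := by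
    ext f; simp only [hΦ]; rw [if_neg (lt_irrefl _), mul_one]
  have h3 : ∏ j ∈ Finset.range (J + 1), ES (Sj T M J j) (Φ j) =
      ∏ j ∈ Finset.range (J + 1), EB T M k a₁ a₂ j := by
    refine Finset.prod_congr rfl fun j hj => ?_
    rw [EB]
    congr 1
    ext f
    simp only [hΦ]
    rw [if_pos (Finset.mem_range.mp hj)]
  rw [h2, h3]
  simp only [WB, ← hJ]
  ring

lemma top_eq (h10 : StLF) {S : Finset ℕ} (hS : ∀ p ∈ S, p.Prime) {a₁ a₂ : ℂ}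
    (h1 : ∀ p ∈ S, ‖(p : ℂ) ^ (-(1 / 2 + a₁))‖ ≤ 3 / 4)
    (h2 : ∀ p ∈ S, ‖(p : ℂ) ^ (-(1 / 2 + a₂))‖ ≤ 3 / 4) :
    ES S (fun f => ZZ S (tw (1 / 2 + a₁) f) *
        (starRingEnd ℂ) (ZZ S (tw (1 / 2 + (starRingEnd ℂ) a₂) f))) *
      ∏ p ∈ S, (1 - (p : ℂ) ^ (-(1 + a₁ + a₂))) = 1 := by
  rw [ES_top, ← Finset.prod_mul_distrib]
  apply Finset.prod_eq_one
  intro p hp
  rw [← cpow_mul_eq (hS p hp).ne_zero, mul_comm]
  exact avg_eq h10 (h1 p hp) (h2 p hp)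

lemma log_le_of_mem {T : ℝ} (hT : 1 < T) {M j p : ℕ} (hj : j ≤ JJ T) (hp : p ∈ Sj T M (JJ T) j) :
    Real.log p ≤ Real.exp (-(M : ℝ)) * Real.log T := by
  have h1 := ((mem_Sj hT).mp hp).2.2
  have h2 : (p : ℝ) ≤ yy T M (JJ T) (JJ T + 1) := h1.trans (yy_mono hT _ _ (by omega))
  rw [yy, if_neg (by omega), if_pos le_rfl] at h2
  have hp0 : (0 : ℝ) < p := by exact_mod_cast (prime_Sj hT hp).pos
  have h3 := Real.log_le_log hp0 h2
  rw [Real.log_exp] at h3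
  refine h3.trans (le_of_eq ?_)
  rw [show JJ T + 1 - 1 = JJ T by omega, bet]
  congr 2
  ring

lemma biUnion_eq {T : ℝ} (hT : 1 < T) (M : ℕ) :
    (Finset.range (JJ T + 1)).biUnion (fun j => Sj T M (JJ T) j) =
      PS 0 (Real.exp (Real.exp (-(M : ℝ)) * Real.log T)) := by
  have hy : yy T M (JJ T) (JJ T + 1) = Real.exp (Real.exp (-(M : ℝ)) * Real.log T) := by
    rw [yy, if_neg (by omega), if_pos le_rfl, show JJ T + 1 - 1 = JJ T by omega, bet]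
    congr 3
    ring
  ext p
  rw [Finset.mem_biUnion, mem_PS le_rfl (Real.exp_pos _).le, ← hy]
  constructor
  · rintro ⟨j, hj, hp⟩
    have h1 := (mem_Sj hT).mp hp
    have hj' := Finset.mem_range.mp hj
    exact ⟨h1.1, by exact_mod_cast h1.1.pos, h1.2.2.trans (yy_mono hT _ _ (by omega))⟩
  · rintro ⟨h1, h2, h3⟩
    have h4 : (p : ℝ) ≤ T := by
      refine h3.trans ?_
      have := yy_mono hT M (JJ T) (show JJ T + 1 ≤ JJ T + 2 by omega)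
      rwa [yy_last] at this
    obtain ⟨j, hj, hp⟩ := exists_Sj hT M (JJ T) h1 h4
    refine ⟨j, ?_, hp⟩
    rw [Finset.mem_range]
    by_contra hcon
    have hj' : j = JJ T + 1 := by omega
    subst hj'
    have h5 := ((mem_Sj hT).mp hp).2.1
    linarith

lemma prod_biUnion_Sj {β : Type*} [CommMonoid β] {T : ℝ} (hT : 1 < T) (M : ℕ) (g : ℕ → β) :
    ∏ j ∈ Finset.range (JJ T + 1), ∏ p ∈ Sj T M (JJ T) j, g p =
      ∏ p ∈ PS 0 (Real.exp (Real.exp (-(M : ℝ)) * Real.log T)), g p := by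
  rw [← biUnion_eq hT, Finset.prod_biUnion (fun i _ j _ hij => disj_Sj hT hij)]

lemma sum_inv_sq_le {U : Finset ℕ} (hU : ∀ p ∈ U, p.Prime) : ∑ p ∈ U, ((p : ℝ) ^ 2)⁻¹ ≤ 1 := by
  have hsub : U ⊆ Finset.Ioc 1 (U.sup id + 2) := by
    intro p hp
    rw [Finset.mem_Ioc]
    have := Finset.le_sup (f := id) hp
    simp only [id] at this
    exact ⟨(hU p hp).one_lt, by omega⟩
  calc ∑ p ∈ U, ((p : ℝ) ^ 2)⁻¹ ≤ ∑ p ∈ Finset.Ioc 1 (U.sup id + 2), ((p : ℝ) ^ 2)⁻¹ :=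
        Finset.sum_le_sum_of_subset_of_nonneg hsub fun p _ _ => by positivity
    _ ≤ ((1 : ℕ) : ℝ)⁻¹ - ((U.sup id + 2 : ℕ) : ℝ)⁻¹ :=
        sum_Ioc_inv_sq_le_sub (by norm_num) (by omega)
    _ ≤ 1 := by
        have : (0 : ℝ) ≤ ((U.sup id + 2 : ℕ) : ℝ)⁻¹ := by positivity
        simp only [Nat.cast_one, inv_one]; linarith

/-- the shift of the size of a prime factor -/
lemma shift_le {p : ℕ} (hp : p.Prime) {a : ℂ} (ha : ‖a‖ * Real.log p ≤ 1 / 20) :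
    ‖(p : ℂ) ^ (-(1 / 2 + a)) - (((p : ℝ) ^ (-(1 / 2) : ℝ) : ℝ) : ℂ)‖ ≤
      (p : ℝ) ^ (-(1 / 2) : ℝ) * (2 * (‖a‖ * Real.log p)) := by
  have hp0 : (0 : ℝ) < p := by exact_mod_cast hp.pos
  have hpc : (p : ℂ) ≠ 0 := by exact_mod_cast hp.ne_zero
  have e1 : (p : ℂ) ^ (-(1 / 2 + a)) = (((p : ℝ) ^ (-(1 / 2) : ℝ) : ℝ) : ℂ) *
      cexp (-(a * Real.log p)) := by
    rw [ofReal_cpow hp0.le, show (-(1 / 2 + a) : ℂ) = -(1 / 2) + -a by ring, cpow_add _ _ hpc]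
    congr 1
    · push_cast; ring_nf
    · rw [cpow_def_of_ne_zero hpc]
      congr 1
      rw [← ofReal_natCast, ← ofReal_log hp0.le]
      ring
  have h1 : ‖-(a * (Real.log p : ℂ))‖ = ‖a‖ * Real.log p := by
    rw [norm_neg, norm_mul, norm_real, Real.norm_eq_abs,
      abs_of_nonneg (Real.log_nonneg (by exact_mod_cast hp.one_lt.le))]
  have h2 := Complex.norm_exp_sub_one_le (x := -(a * (Real.log p : ℂ))) (by rw [h1]; linarith)
  rw [h1] at h2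
  have e2 : (p : ℂ) ^ (-(1 / 2 + a)) - (((p : ℝ) ^ (-(1 / 2) : ℝ) : ℝ) : ℂ) =
      (((p : ℝ) ^ (-(1 / 2) : ℝ) : ℝ) : ℂ) * (cexp (-(a * Real.log p)) - 1) := by
    rw [e1]; ring
  rw [e2, norm_mul, norm_real, Real.norm_eq_abs, abs_of_nonneg (by positivity)]
  gcongr

lemma x_le {p : ℕ} (hp : p.Prime) : (p : ℝ) ^ (-(1 / 2) : ℝ) ≤ 71 / 100 := by
  have hp2 : (2 : ℝ) ≤ p := by exact_mod_cast hp.two_le
  have h1 : (p : ℝ) ^ (-(1 / 2) : ℝ) ≤ (2 : ℝ) ^ (-(1 / 2) : ℝ) :=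
    Real.rpow_le_rpow_of_nonpos (by norm_num) hp2 (by norm_num)
  have h2 : ((2 : ℝ) ^ (-(1 / 2) : ℝ)) ^ 2 = 1 / 2 := by
    rw [← Real.rpow_natCast, ← Real.rpow_mul (by norm_num)]
    norm_num
  have h3 : 0 ≤ (2 : ℝ) ^ (-(1 / 2) : ℝ) := by positivity
  nlinarith

lemma x_sq {p : ℕ} : ((p : ℝ) ^ (-(1 / 2) : ℝ)) ^ 2 = (p : ℝ)⁻¹ := by
  rw [← Real.rpow_natCast, ← Real.rpow_mul (by positivity)]
  norm_num
  exact Real.rpow_neg_one _

lemma norm_x {p : ℕ} (hp : p.Prime) (a : ℂ) :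
    ‖(p : ℂ) ^ (-(1 / 2 + a))‖ ≤ (p : ℝ) ^ (-(1 / 2) : ℝ) * Real.exp (‖a‖ * Real.log p) := by
  have hp0 : (0 : ℝ) < p := by exact_mod_cast hp.pos
  have hl : 0 ≤ Real.log p := Real.log_nonneg (by exact_mod_cast hp.one_lt.le)
  rw [norm_natCast_cpow_of_pos hp.pos]
  have e1 : (-(1 / 2 + a) : ℂ).re = -(1 / 2) + -a.re := by
    simp only [neg_re, add_re, neg_add_rev]
    norm_num
    ring
  rw [e1, Real.rpow_add hp0]
  gcongr
  rw [Real.rpow_def_of_pos hp0]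
  apply Real.exp_le_exp.mpr
  have h1 := Complex.abs_re_le_norm a
  have h2 := neg_abs_le a.re
  rw [mul_comm]
  apply mul_le_mul_of_nonneg_right _ hl
  linarith

lemma local_p {C : ℝ} (hC : 0 < C) (h : ∀ (u x : ℝ) (x₁ x₂ : ℂ), 0 ≤ u → u ≤ 1 → 0 ≤ x → x ≤ 3 / 4 →
    ‖x₁‖ ≤ 3 / 4 → ‖x₂‖ ≤ 3 / 4 → ‖x₁‖ ≤ 2 * x → ‖x₂‖ ≤ 2 * x →
    ‖(1 - x₁ * x₂) * LF u x x₁ x₂ - ((1 + (u ^ 2 - 2 * u) * x ^ 2 : ℝ) : ℂ)‖ ≤
      C * u * x * (‖x₁ - x‖ + ‖x₂ - x‖ + x ^ 3)) {p : ℕ} (hp : p.Prime) {u : ℝ} (hu0 : 0 ≤ u)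
    (hu1 : u ≤ 1) {a₁ a₂ : ℂ} (h1 : ‖a₁‖ * Real.log p ≤ 1 / 20) (h2 : ‖a₂‖ * Real.log p ≤ 1 / 20) :
    ‖(1 - (p : ℂ) ^ (-(1 + a₁ + a₂))) * LF u ((p : ℝ) ^ (-(1 / 2) : ℝ)) ((p : ℂ) ^ (-(1 / 2 + a₁)))
      ((p : ℂ) ^ (-(1 / 2 + a₂))) - ((1 + (u ^ 2 - 2 * u) * (p : ℝ)⁻¹ : ℝ) : ℂ)‖ ≤
      C * u * (2 * (‖a₁‖ + ‖a₂‖) * (Real.log p / p) + ((p : ℝ) ^ 2)⁻¹) := by
  have hp0 : (0 : ℝ) < p := by exact_mod_cast hp.pos
  set x := (p : ℝ) ^ (-(1 / 2) : ℝ) with hx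
  have hx0 : 0 ≤ x := by positivity
  have hx1 : x ≤ 71 / 100 := x_le hp
  have hx2 : x ^ 2 = (p : ℝ)⁻¹ := x_sq
  have hex : Real.exp (1 / 20) ≤ 20 / 19 := by
    have h3 := Real.one_sub_le_exp_neg (1 / 20)
    rw [Real.exp_neg] at h3
    have h4 := Real.exp_pos (1 / 20)
    have h5 : (1 - 1 / 20) * Real.exp (1 / 20) ≤ 1 := by
      calc (1 - 1 / 20) * Real.exp (1 / 20) ≤ (Real.exp (1 / 20))⁻¹ * Real.exp (1 / 20) := by gcongr
        _ = 1 := inv_mul_cancel₀ h4.ne'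
    linarith
  have hnx : ∀ a : ℂ, ‖a‖ * Real.log p ≤ 1 / 20 → ‖(p : ℂ) ^ (-(1 / 2 + a))‖ ≤ x * (20 / 19) := by
    intro a ha
    refine (norm_x hp a).trans ?_
    gcongr
    exact (Real.exp_le_exp.mpr ha).trans hex
  have n1 := hnx a₁ h1
  have n2 := hnx a₂ h2
  have s1 := shift_le hp h1
  have s2 := shift_le hp h2
  have h3 := h u x _ _ hu0 hu1 hx0 (by linarith) (n1.trans (by linarith)) (n2.trans (by linarith))
    (n1.trans (by linarith)) (n2.trans (by linarith))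
  rw [cpow_mul_eq hp.ne_zero, hx2] at h3
  refine h3.trans ?_
  rw [← hx] at s1 s2
  have e1 : C * u * (2 * (‖a₁‖ + ‖a₂‖) * (Real.log p / p) + ((p : ℝ) ^ 2)⁻¹) =
      C * u * x * (x * (2 * (‖a₁‖ * Real.log p)) + x * (2 * (‖a₂‖ * Real.log p)) + x ^ 3) := by
    have e2 : ((p : ℝ) ^ 2)⁻¹ = x ^ 4 := by
      rw [show x ^ 4 = (x ^ 2) ^ 2 by ring, hx2, inv_pow]
    rw [e2, div_eq_mul_inv, ← hx2]
    ring
  rw [e1]
  gcongr

lemma prodB {C : ℝ} (hC : 0 < C) (h : ∀ (u x : ℝ) (x₁ x₂ : ℂ), 0 ≤ u → u ≤ 1 → 0 ≤ x → x ≤ 3 / 4 →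
    ‖x₁‖ ≤ 3 / 4 → ‖x₂‖ ≤ 3 / 4 → ‖x₁‖ ≤ 2 * x → ‖x₂‖ ≤ 2 * x →
    ‖(1 - x₁ * x₂) * LF u x x₁ x₂ - ((1 + (u ^ 2 - 2 * u) * x ^ 2 : ℝ) : ℂ)‖ ≤
      C * u * x * (‖x₁ - x‖ + ‖x₂ - x‖ + x ^ 3)) {U : Finset ℕ} (hU : ∀ p ∈ U, p.Prime) {u : ℝ}
    (hu0 : 0 ≤ u) (hu1 : u ≤ 1 / 2) {a₁ a₂ : ℂ}
    (ha : ∀ p ∈ U, ‖a₁‖ * Real.log p ≤ 1 / 20 ∧ ‖a₂‖ * Real.log p ≤ 1 / 20)
    (hsum : (‖a₁‖ + ‖a₂‖) * ∑ p ∈ U, Real.log p / p ≤ 1) :
    ‖∏ p ∈ U, ((1 - (p : ℂ) ^ (-(1 + a₁ + a₂))) * LF u ((p : ℝ) ^ (-(1 / 2) : ℝ))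
      ((p : ℂ) ^ (-(1 / 2 + a₁))) ((p : ℂ) ^ (-(1 / 2 + a₂)))) -
      ((Real.exp ((u ^ 2 - 2 * u) * ∑ p ∈ U, (1 : ℝ) / p) : ℝ) : ℂ)‖ ≤
      (Real.exp ((6 * C + 8) * u) - 1) * Real.exp ((u ^ 2 - 2 * u) * ∑ p ∈ U, (1 : ℝ) / p) := by
  set w : ℕ → ℝ := fun p => (u ^ 2 - 2 * u) * (p : ℝ)⁻¹ with hw
  set e : ℕ → ℝ := fun p => 2 * (C * u * (2 * (‖a₁‖ + ‖a₂‖) * (Real.log p / p) + ((p : ℝ) ^ 2)⁻¹) +
    4 * u ^ 2 * ((p : ℝ) ^ 2)⁻¹) with he
  have hE : ((Real.exp ((u ^ 2 - 2 * u) * ∑ p ∈ U, (1 : ℝ) / p) : ℝ) : ℂ) =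
      ∏ p ∈ U, ((Real.exp (w p) : ℝ) : ℂ) := by
    rw [← ofReal_prod, ← Real.exp_sum, Finset.mul_sum]
    congr 3
    ext p
    simp only [hw, one_div]
  have hE' : ‖∏ p ∈ U, ((Real.exp (w p) : ℝ) : ℂ)‖ =
      Real.exp ((u ^ 2 - 2 * u) * ∑ p ∈ U, (1 : ℝ) / p) := by
    rw [← hE, norm_real, Real.norm_eq_abs, abs_of_pos (Real.exp_pos _)]
  rw [hE, ← hE']
  have hlog : ∀ p ∈ U, 0 ≤ Real.log p / (p : ℝ) := fun p hp =>
    div_nonneg (Real.log_nonneg (by exact_mod_cast (hU p hp).one_lt.le)) (by positivity)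
  refine (prod_sub_le' U _ _ e (fun p hp => ?_) (fun p hp => ?_)).trans ?_
  · have := hlog p hp
    simp only [he]
    positivity
  · have hp2 : (2 : ℝ) ≤ p := by exact_mod_cast (hU p hp).two_le
    have hpi : (p : ℝ)⁻¹ ≤ 1 / 2 := by
      rw [inv_le_comm₀ (by linarith) (by norm_num)]; linarith
    have hpi0 : 0 ≤ (p : ℝ)⁻¹ := by positivity
    have h1 := local_p hC h (hU p hp) hu0 (by linarith) (ha p hp).1 (ha p hp).2
    have hu2 : 0 ≤ 2 * u - u ^ 2 := by nlinarith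
    have hw1 : |w p| ≤ 2 * u * (p : ℝ)⁻¹ := by
      simp only [hw]
      rw [abs_mul, abs_of_nonneg hpi0, abs_of_nonpos (by linarith)]
      gcongr
      nlinarith
    have hw2 : |w p| ≤ 1 / 2 := by
      refine hw1.trans ?_
      nlinarith
    have h2 : |Real.exp (w p) - 1 - w p| ≤ (w p) ^ 2 :=
      Real.abs_exp_sub_one_sub_id_le (by linarith)
    have h3 : (1 : ℝ) / 2 ≤ Real.exp (w p) := by
      have := Real.add_one_le_exp (w p)
      have := neg_abs_le (w p)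
      linarith
    have h4 : (w p) ^ 2 ≤ 4 * u ^ 2 * ((p : ℝ) ^ 2)⁻¹ := by
      rw [← sq_abs]
      calc |w p| ^ 2 ≤ (2 * u * (p : ℝ)⁻¹) ^ 2 := by gcongr
        _ = _ := by rw [mul_pow, inv_pow]; ring
    rw [norm_real, Real.norm_eq_abs, abs_of_pos (Real.exp_pos _)]
    have h5 : ‖((1 + w p : ℝ) : ℂ) - ((Real.exp (w p) : ℝ) : ℂ)‖ ≤ (w p) ^ 2 := by
      rw [← ofReal_sub, norm_real, Real.norm_eq_abs, abs_sub_comm]
      refine le_trans (le_of_eq ?_) h2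
      congr 1; ring
    have h6 := norm_sub_le_norm_sub_add_norm_sub ((1 - (p : ℂ) ^ (-(1 + a₁ + a₂))) * LF u
      ((p : ℝ) ^ (-(1 / 2) : ℝ)) ((p : ℂ) ^ (-(1 / 2 + a₁))) ((p : ℂ) ^ (-(1 / 2 + a₂))))
      ((1 + w p : ℝ) : ℂ) ((Real.exp (w p) : ℝ) : ℂ)
    refine h6.trans ?_
    have h7 : C * u * (2 * (‖a₁‖ + ‖a₂‖) * (Real.log p / p) + ((p : ℝ) ^ 2)⁻¹) + (w p) ^ 2 ≤
        e p * (1 / 2) := by
      simp only [he]; linarith
    have h8 : 0 ≤ e p := by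
      have := hlog p hp
      simp only [he]
      positivity
    have h9 : e p * (1 / 2) ≤ e p * Real.exp (w p) := by gcongr
    linarith
  · gcongr
    simp only [he]
    rw [← Finset.mul_sum, Finset.sum_add_distrib, ← Finset.mul_sum, Finset.sum_add_distrib,
      ← Finset.mul_sum, ← Finset.mul_sum]
    have h1 := sum_inv_sq_le hU
    have h2 : 2 * (‖a₁‖ + ‖a₂‖) * ∑ p ∈ U, Real.log p / p ≤ 2 := by linarith
    have h3 : C * u * (2 * (‖a₁‖ + ‖a₂‖) * ∑ p ∈ U, Real.log p / p + ∑ p ∈ U, ((p : ℝ) ^ 2)⁻¹) ≤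
        C * u * 3 := by
      gcongr; linarith
    have h4 : 4 * u ^ 2 * ∑ p ∈ U, ((p : ℝ) ^ 2)⁻¹ ≤ 4 * u ^ 2 * 1 := by gcongr
    nlinarith

end RAx

open RAx in
theorem stRA (h10 : StLF) (h11 : StBlockShift) : StRA := by
  have h10' := h10
  obtain ⟨C, hC, hLF⟩ := h10'
  obtain ⟨C₁, hC₁, hB⟩ := h11
  obtain ⟨M₁, hM₁⟩ := block_cond C₁ hC₁
  obtain ⟨C₃, hC₃, hsi⟩ := sum_inv
  obtain ⟨C₄, hC₄, hsl⟩ := sum_log_div_le
  intro η hη
  have hlam : 0 < Real.log (1 + η) / 2 := by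
    have := Real.log_pos (show 1 < 1 + η by linarith)
    linarith
  set lam := Real.log (1 + η) / 2 with hlamdef
  have t1 : Tendsto (fun M : ℕ => (2 : ℝ) ^ (-(((M : ℝ) - 3) / 2))) atTop (𝓝 0) := by
    have h1 : Tendsto (fun M : ℕ => (((M : ℝ) - 3) / 2)) atTop atTop :=
      (tendsto_atTop_add_const_right _ (-3) tendsto_natCast_atTop_atTop).atTop_div_const (by norm_num)
    have h2 : Tendsto (fun x : ℝ => (2 : ℝ) ^ (-x)) atTop (𝓝 0) := by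
      have : (fun x : ℝ => (2 : ℝ) ^ (-x)) = fun x : ℝ => Real.exp (-(Real.log 2 * x)) := by
        ext x; rw [Real.rpow_def_of_pos (by norm_num)]; congr 1; ring
      rw [this]
      exact Real.tendsto_exp_neg_atTop_nhds_zero.comp
        (tendsto_id.const_mul_atTop (Real.log_pos (by norm_num)))
    exact h2.comp h1
  have hsmall : ∀ᶠ M : ℕ in atTop, C₁ * (6 * (4 * (2 : ℝ) ^ (-(((M : ℝ) - 3) / 2))) +
      2 * Real.exp (-(5 * Real.exp (3 / 4 * (M : ℝ))))) ≤ lam := by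
    have t3 : Tendsto (fun M : ℕ => Real.exp (-(5 * Real.exp (3 / 4 * (M : ℝ))))) atTop (𝓝 0) := by
      refine Real.tendsto_exp_neg_atTop_nhds_zero.comp ?_
      refine Tendsto.const_mul_atTop (by norm_num) (Real.tendsto_exp_atTop.comp ?_)
      exact Tendsto.const_mul_atTop (by norm_num) tendsto_natCast_atTop_atTop
    have t4 := (((t1.const_mul 4).const_mul 6).add (t3.const_mul 2)).const_mul C₁
    simp only [mul_zero, add_zero] at t4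
    exact t4.eventually (eventually_le_nhds hlam)
  have hsmall2 : ∀ᶠ M : ℕ in atTop, 3 * (4 * (2 : ℝ) ^ (-(((M : ℝ) - 3) / 2))) ≤ 1 := by
    have t4 := (t1.const_mul 4).const_mul 3
    simp only [mul_zero] at t4
    exact t4.eventually (eventually_le_nhds zero_lt_one)
  obtain ⟨M₂, hM₂⟩ := eventually_atTop.mp (hsmall.and hsmall2)
  refine ⟨max (max M₁ M₂) 6, fun M hM => ?_⟩
  have hMM₁ : M₁ ≤ M := (le_max_left _ _).trans ((le_max_left _ _).trans hM)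
  have hMM₂ : M₂ ≤ M := (le_max_right _ _).trans ((le_max_left _ _).trans hM)
  have hM6 : 6 ≤ M := (le_max_right _ _).trans hM
  have hM6' : (6 : ℝ) ≤ M := by exact_mod_cast hM6
  obtain ⟨hs1, hs2⟩ := hM₂ M hMM₂
  obtain ⟨T₁, hT₁3, hT₁⟩ := hM₁ M hMM₁
  set K : ℝ := 6 * C + 8 + 2 * (C₃ + M) with hK
  have hK0 : 0 < K := by positivity
  set u₁ : ℝ := min (1 / 2) (lam / K) with hu₁
  have hu₁0 : 0 < u₁ := lt_min (by norm_num) (by positivity)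
  have hu₁1 : u₁ ≤ 1 / 2 := min_le_left _ _
  have hu₁2 : u₁ ≤ lam / K := min_le_right _ _
  refine ⟨1 - u₁, by linarith, by linarith, ?_⟩
  set L₀ : ℝ := Real.exp M + 4 * C₄ * Real.exp (M / 2) + 2 * Real.exp M * (Real.exp (M / 2) + 1) with hL₀
  refine ⟨max T₁ (Real.exp L₀), hT₁3.trans (le_max_left _ _), fun T hT k hk0 hk1 a₁ a₂ ha₁ ha₂ => ?_⟩
  have hT3 : 3 ≤ T := hT₁3.trans ((le_max_left _ _).trans hT)
  have hT1 : 1 < T := by linarith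
  have hT0 : 0 < T := by linarith
  have hL : 0 < Real.log T := Real.log_pos hT1
  have hLL : L₀ ≤ Real.log T := by
    rw [Real.le_log_iff_exp_le hT0]; exact (le_max_right _ _).trans hT
  have eM : 0 < Real.exp (M : ℝ) := Real.exp_pos _
  have eM2 : 0 < Real.exp ((M : ℝ) / 2) := Real.exp_pos _
  have hLa : Real.exp M ≤ Real.log T := by
    have : 0 ≤ 4 * C₄ * Real.exp ((M : ℝ) / 2) + 2 * Real.exp M * (Real.exp (M / 2) + 1) := by positivity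
    linarith
  have hLb : 4 * C₄ * Real.exp ((M : ℝ) / 2) ≤ Real.log T := by
    have : 0 ≤ Real.exp M + 2 * Real.exp M * (Real.exp (M / 2) + 1) := by positivity
    linarith
  have hLc : 2 * Real.exp M * (Real.exp ((M : ℝ) / 2) + 1) ≤ Real.log T := by
    have : 0 ≤ Real.exp M + 4 * C₄ * Real.exp ((M : ℝ) / 2) := by positivity
    linarith
  set L := Real.log T with hLdef
  set u : ℝ := 1 - k with hu
  have hu0 : 0 ≤ u := by linarith
  have huu : u ≤ u₁ := by linarith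
  have hu1 : u ≤ 1 / 2 := by linarith
  have huK : K * u ≤ lam := by
    have : u ≤ lam / K := huu.trans hu₁2
    rwa [le_div_iff₀ hK0, mul_comm] at this
  -- the shifts
  have he3 : Real.exp (-((M : ℝ) / 2)) ≤ 1 / 20 := by
    have h1 : (20 : ℝ) ≤ Real.exp 3 := by
      have h2 : Real.exp 3 = Real.exp 1 ^ 3 := by rw [← Real.exp_nat_mul]; norm_num
      have h3 : (2.7182818283 : ℝ) < Real.exp 1 := Real.exp_one_gt_d9
      rw [h2]
      calc (20 : ℝ) ≤ (2.7182818283 : ℝ) ^ 3 := by norm_num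
        _ ≤ _ := by gcongr
    calc Real.exp (-((M : ℝ) / 2)) ≤ Real.exp (-3) := Real.exp_le_exp.mpr (by linarith)
      _ = (Real.exp 3)⁻¹ := Real.exp_neg 3
      _ ≤ (20 : ℝ)⁻¹ := by gcongr
      _ = 1 / 20 := by norm_num
  have heprod : Real.exp ((M : ℝ) / 2) * Real.exp (-(M : ℝ)) = Real.exp (-((M : ℝ) / 2)) := by
    rw [← Real.exp_add]; congr 1; ring
  have hshift : ∀ j, j ≤ JJ T → ∀ p ∈ Sj T M (JJ T) j,
      ‖a₁‖ * Real.log p ≤ 1 / 20 ∧ ‖a₂‖ * Real.log p ≤ 1 / 20 := by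
    intro j hj p hp
    have h1 := log_le_of_mem hT1 hj hp
    have h2 : 0 ≤ Real.log p := Real.log_nonneg (by exact_mod_cast (prime_Sj hT1 hp).one_lt.le)
    have h3 : ∀ a : ℂ, ‖a‖ ≤ Real.exp (M / 2) / L → ‖a‖ * Real.log p ≤ 1 / 20 := by
      intro a ha
      calc ‖a‖ * Real.log p ≤ (Real.exp (M / 2) / L) * (Real.exp (-(M : ℝ)) * L) := by gcongr
        _ = Real.exp ((M : ℝ) / 2) * Real.exp (-(M : ℝ)) := by field_simp
        _ ≤ 1 / 20 := by rw [heprod]; exact he3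
    exact ⟨h3 a₁ ha₁, h3 a₂ ha₂⟩
  set y : ℝ := Real.exp (Real.exp (-(M : ℝ)) * L) with hy
  have hey : 1 ≤ Real.exp (-(M : ℝ)) * L := by
    rw [Real.exp_neg, inv_mul_eq_div, le_div_iff₀ eM, one_mul]; exact hLa
  have hy2 : 2 ≤ y := by
    have := Real.add_one_le_exp (Real.exp (-(M : ℝ)) * L)
    linarith
  have hUp : ∀ p ∈ PS 0 y, p.Prime := fun p hp => ((mem_PS le_rfl (by linarith)).mp hp).1
  have hUmem : ∀ p ∈ PS 0 y, ∃ j, j ≤ JJ T ∧ p ∈ Sj T M (JJ T) j := by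
    intro p hp
    rw [hy, hLdef, ← biUnion_eq hT1, Finset.mem_biUnion] at hp
    obtain ⟨j, hj, hp⟩ := hp
    exact ⟨j, by have := Finset.mem_range.mp hj; omega, hp⟩
  have hUsub : ∀ j, j ≤ JJ T → Sj T M (JJ T) j ⊆ PS 0 y := by
    intro j hj
    rw [hy, hLdef, ← biUnion_eq hT1]
    exact Finset.subset_biUnion_of_mem (fun j => Sj T M (JJ T) j) (Finset.mem_range.mpr (by omega))
  have hlogU : ∀ p ∈ PS 0 y, 0 ≤ Real.log p / (p : ℝ) := fun p hp =>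
    div_nonneg (Real.log_nonneg (by exact_mod_cast (hUp p hp).one_lt.le)) (by positivity)
  have hsumU : (‖a₁‖ + ‖a₂‖) * ∑ p ∈ PS 0 y, Real.log p / p ≤ 1 := by
    have h1 := hsl y (by linarith)
    have h2 : Real.log y = Real.exp (-(M : ℝ)) * L := by rw [hy, Real.log_exp]
    rw [h2] at h1
    have h3 : 0 ≤ ∑ p ∈ PS 0 y, Real.log p / (p : ℝ) := Finset.sum_nonneg hlogU
    calc (‖a₁‖ + ‖a₂‖) * ∑ p ∈ PS 0 y, Real.log p / p
        ≤ (Real.exp (M / 2) / L + Real.exp (M / 2) / L) * (Real.exp (-(M : ℝ)) * L + C₄) := by gcongr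
      _ = 2 * (Real.exp ((M : ℝ) / 2) * Real.exp (-(M : ℝ))) + 2 * C₄ * Real.exp (M / 2) / L := by
          field_simp
          ring
      _ ≤ 2 * (1 / 20) + 1 / 2 := by
          rw [heprod]
          have h4 : 2 * C₄ * Real.exp (M / 2) / L ≤ 1 / 2 := by
            rw [div_le_iff₀ hL]; linarith
          linarith
      _ ≤ 1 := by norm_num
  have hsumj : ∀ j, j ≤ JJ T → (‖a₁‖ + ‖a₂‖) * ∑ p ∈ Sj T M (JJ T) j, Real.log p / p ≤ 1 := by
    intro j hj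
    refine le_trans ?_ hsumU
    exact mul_le_mul_of_nonneg_left
      (Finset.sum_le_sum_of_subset_of_nonneg (hUsub j hj) fun p hp _ => hlogU p hp) (by positivity)
  -- the blocks
  set ε : ℕ → ℝ := fun j => C₁ * (Real.exp (3 * rho M (Sj T M (JJ T) j)) - 1 +
    Real.exp (-((ll M (JJ T) j : ℝ) / 2))) with hε
  have hε0 : ∀ j, 0 ≤ ε j := fun j => by
    have h1 : 1 ≤ Real.exp (3 * rho M (Sj T M (JJ T) j)) :=
      Real.one_le_exp (by have := rho_nonneg M (Sj T M (JJ T) j); positivity)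
    have h2 := Real.exp_pos (-((ll M (JJ T) j : ℝ) / 2))
    simp only [hε]
    apply mul_nonneg hC₁.le
    linarith
  have hrho := sum_rho hT1 (M := M) (J := JJ T) (by omega)
  have hεsum : ∑ j ∈ Finset.range (JJ T + 1), ε j ≤ lam := by
    refine le_trans ?_ hs1
    simp only [hε]
    rw [← Finset.mul_sum, Finset.sum_add_distrib]
    have h2 : ∑ j ∈ Finset.range (JJ T + 1), Real.exp (-((ll M (JJ T) j : ℝ) / 2)) ≤
        2 * Real.exp (-(5 * Real.exp (3 / 4 * (M : ℝ)))) := by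
      refine le_trans (Finset.sum_le_sum fun j _ => ?_) (sum_exp_KK (J := JJ T) ?_ (by norm_num))
      · apply Real.exp_le_exp.mpr
        have : 10 * KK M (JJ T) j ≤ (ll M (JJ T) j : ℝ) := Nat.le_ceil _
        linarith
      · have := Real.one_le_exp (show 0 ≤ 3 / 4 * (M : ℝ) by positivity)
        linarith
    have h3 : ∑ j ∈ Finset.range (JJ T + 1), (Real.exp (3 * rho M (Sj T M (JJ T) j)) - 1) ≤
        6 * (4 * (2 : ℝ) ^ (-(((M : ℝ) - 3) / 2))) := by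
      refine le_trans (Finset.sum_le_sum (g := fun j => 6 * rho M (Sj T M (JJ T) j)) fun j hj => ?_) ?_
      · have h4 := rho_nonneg M (Sj T M (JJ T) j)
        have h5 : rho M (Sj T M (JJ T) j) ≤ 4 * (2 : ℝ) ^ (-(((M : ℝ) - 3) / 2)) :=
          (Finset.single_le_sum (f := fun j => rho M (Sj T M (JJ T) j))
            (fun i _ => rho_nonneg M _) hj).trans hrho
        have h6 : |3 * rho M (Sj T M (JJ T) j)| ≤ 1 := by
          rw [abs_of_nonneg (by positivity)]; linarith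
        have h7 := Real.abs_exp_sub_one_le h6
        rw [abs_of_nonneg (by positivity : 0 ≤ 3 * rho M (Sj T M (JJ T) j))] at h7
        have h8 := le_abs_self (Real.exp (3 * rho M (Sj T M (JJ T) j)) - 1)
        linarith
      · rw [← Finset.mul_sum]
        gcongr
    gcongr
  set z : ℕ → ℂ := fun j => EB T M k a₁ a₂ j * WB T M a₁ a₂ j with hz
  set w : ℕ → ℂ := fun j => LP u a₁ a₂ (Sj T M (JJ T) j) * WB T M a₁ a₂ j with hw
  have hzw : ∀ j ∈ Finset.range (JJ T + 1), ‖z j - w j‖ ≤ ε j * ‖w j‖ := by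
    intro j hj
    have hj' : j ≤ JJ T := by have := Finset.mem_range.mp hj; omega
    have hcond := (hT₁ T ((le_max_left _ _).trans hT) j hj' (1 / 2) le_rfl).1
    have hcond' : 16 * Real.exp (C₁ * ∑ p ∈ Sj T M (JJ T) j, 1 / (p : ℝ)) ≤
        Real.exp ((ll M (JJ T) j : ℝ) / 2) := by
      refine le_trans (le_of_eq ?_) hcond
      congr 3
      refine Finset.sum_congr rfl fun p _ => ?_
      rw [one_div, ← Real.rpow_neg_one]
      norm_num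
    have h1 := hB M (ll M (JJ T) j) (Sj T M (JJ T) j) k a₁ a₂ (by omega)
      (fun p hp => prime_Sj hT1 hp) (by linarith) hk1 (hshift j hj') (hsumj j hj') hcond'
    simp only [hz, hw]
    rw [← sub_mul, norm_mul, norm_mul, ← mul_assoc]
    exact mul_le_mul_of_nonneg_right h1 (norm_nonneg _)
  have hQ := prod_sub_le' (Finset.range (JJ T + 1)) z w ε (fun j _ => hε0 j) hzw
  -- the product of the local factors
  have hQeq : ∏ j ∈ Finset.range (JJ T + 1), w j =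
      ∏ p ∈ PS 0 y, ((1 - (p : ℂ) ^ (-(1 + a₁ + a₂))) * LF u ((p : ℝ) ^ (-(1 / 2) : ℝ))
      ((p : ℂ) ^ (-(1 / 2 + a₁))) ((p : ℂ) ^ (-(1 / 2 + a₂)))) := by
    rw [hy, hLdef, ← prod_biUnion_Sj hT1]
    refine Finset.prod_congr rfl fun j _ => ?_
    simp only [hw]
    rw [LP, WB, ← Finset.prod_mul_distrib]
    exact Finset.prod_congr rfl fun p _ => mul_comm _ _
  have hpB := prodB hC hLF hUp hu0 hu1 (fun p hp => by
    obtain ⟨j, hj, hpj⟩ := hUmem p hp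
    exact hshift j hj p hpj) hsumU
  rw [← hQeq] at hpB
  have hku : u ^ 2 - 2 * u = k ^ 2 - 1 := by rw [hu]; ring
  rw [hku] at hpB
  set Q := ∏ j ∈ Finset.range (JJ T + 1), w j with hQdef
  set sp := ∑ p ∈ PS 0 y, (1 : ℝ) / p with hsp
  set E := Real.exp ((k ^ 2 - 1) * sp) with hEdef
  set X := L ^ (k ^ 2 - 1) with hX
  have hXe : X = Real.exp ((k ^ 2 - 1) * Real.log L) := by
    rw [hX, Real.rpow_def_of_pos hL]; congr 1; ring
  have hX0 : 0 < X := by rw [hXe]; exact Real.exp_pos _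
  have hsi' := hsi y hy2
  have hlogy : Real.log (Real.log y) = -(M : ℝ) + Real.log L := by
    rw [hy, Real.log_exp, Real.log_mul (Real.exp_pos _).ne' hL.ne', Real.log_exp]
  rw [hlogy] at hsi'
  set δ : ℝ := 2 * (C₃ + M) * u with hδ
  have hδ1 : |(k ^ 2 - 1) * (sp - Real.log L)| ≤ δ := by
    rw [abs_mul]
    have h1 : |k ^ 2 - 1| ≤ 2 * u := by
      rw [← hku, abs_le]
      constructor <;> nlinarith
    have h2 : |sp - Real.log L| ≤ C₃ + M := by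
      have h3 := abs_le.mp hsi'
      rw [abs_le]
      constructor <;> linarith [h3.1, h3.2]
    calc |k ^ 2 - 1| * |sp - Real.log L| ≤ (2 * u) * (C₃ + M) := by gcongr
      _ = δ := by rw [hδ]; ring
  have hEX : E = X * Real.exp ((k ^ 2 - 1) * (sp - Real.log L)) := by
    rw [hEdef, hXe, ← Real.exp_add]; congr 1; ring
  set A := Real.exp (∑ j ∈ Finset.range (JJ T + 1), ε j) with hA
  set B := Real.exp ((6 * C + 8) * u) with hBB
  set D := Real.exp δ with hD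
  have hA1 : 1 ≤ A := Real.one_le_exp (Finset.sum_nonneg fun j _ => hε0 j)
  have hB1 : 1 ≤ B := Real.one_le_exp (by positivity)
  have hD1 : 1 ≤ D := Real.one_le_exp (by positivity)
  have hE1 : E ≤ D * X := by
    rw [hEX, mul_comm]
    gcongr
    exact Real.exp_le_exp.mpr ((le_abs_self _).trans hδ1)
  have hE2 : |E - X| ≤ (D - 1) * X := by
    have h1 : ∀ t : ℝ, |t| ≤ δ → |Real.exp t - 1| ≤ D - 1 := by
      intro t ht
      have h2 := abs_le.mp ht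
      rw [abs_le]
      constructor
      · have h3 : Real.exp (-δ) ≤ Real.exp t := Real.exp_le_exp.mpr h2.1
        have h4 : 1 - δ ≤ Real.exp (-δ) := by have := Real.add_one_le_exp (-δ); linarith
        have h5 := Real.add_one_le_exp δ
        linarith
      · have h3 : Real.exp t ≤ D := Real.exp_le_exp.mpr h2.2
        linarith
    have h2 := h1 _ hδ1
    have h3 : E - X = (Real.exp ((k ^ 2 - 1) * (sp - Real.log L)) - 1) * X := by rw [hEX]; ring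
    rw [h3, abs_mul, abs_of_pos hX0]
    gcongr
  have hQ1 : ‖Q‖ ≤ B * E := by
    have h1 : ‖Q‖ ≤ ‖Q - (E : ℂ)‖ + ‖(E : ℂ)‖ := by simpa using norm_add_le (Q - (E : ℂ)) (E : ℂ)
    have h2 : ‖(E : ℂ)‖ = E := by rw [norm_real, Real.norm_eq_abs, abs_of_pos (Real.exp_pos _)]
    rw [h2] at h1
    linarith
  -- the top block
  have htop : ES (Sj T M (JJ T) (JJ T + 1)) (fun f => ZZ (Sj T M (JJ T) (JJ T + 1))
        (tw (1 / 2 + a₁) f) * (starRingEnd ℂ) (ZZ (Sj T M (JJ T) (JJ T + 1))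
        (tw (1 / 2 + (starRingEnd ℂ) a₂) f))) * WB T M a₁ a₂ (JJ T + 1) = 1 := by
    have hbd : ∀ a : ℂ, ‖a‖ ≤ Real.exp (M / 2) / L → ∀ p ∈ Sj T M (JJ T) (JJ T + 1),
        ‖(p : ℂ) ^ (-(1 / 2 + a))‖ ≤ 3 / 4 := by
      intro a ha p hp
      have hpp := prime_Sj hT1 hp
      have h1 := (mem_Sj hT1).mp hp
      have hp0 : (0 : ℝ) < p := by exact_mod_cast hpp.pos
      have h2 : Real.exp (-(M : ℝ)) * L ≤ Real.log p := by
        have h3 := h1.2.1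
        rw [yy, if_neg (by omega), if_pos le_rfl, show JJ T + 1 - 1 = JJ T by omega, bet] at h3
        have h4 := Real.log_le_log (Real.exp_pos _) h3.le
        rw [Real.log_exp] at h4
        refine le_trans (le_of_eq ?_) h4
        congr 2
        ring
      have h5 : Real.log p ≤ L := by
        apply Real.log_le_log hp0
        have h6 := h1.2.2
        rwa [show JJ T + 1 + 1 = JJ T + 2 by ring, yy_last] at h6
      refine (norm_x hpp a).trans ?_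
      rw [Real.rpow_def_of_pos hp0, ← Real.exp_add]
      have h7 : ‖a‖ * Real.log p ≤ Real.exp (M / 2) := by
        calc ‖a‖ * Real.log p ≤ (Real.exp (M / 2) / L) * L := by
              gcongr
          _ = _ := by field_simp
      have h8 : Real.exp ((M : ℝ) / 2) + 1 ≤ Real.exp (-(M : ℝ)) * L / 2 := by
        rw [Real.exp_neg, inv_mul_eq_div, div_div, le_div_iff₀ (by positivity)]
        linarith
      have h9 : Real.log p * (-(1 / 2)) + ‖a‖ * Real.log p ≤ -1 := by linarith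
      calc Real.exp (Real.log p * (-(1 / 2)) + ‖a‖ * Real.log p) ≤ Real.exp (-1) :=
            Real.exp_le_exp.mpr h9
        _ ≤ 3 / 4 := by
            rw [Real.exp_neg]
            have : (2 : ℝ) ≤ Real.exp 1 := by linarith [Real.exp_one_gt_d9]
            calc (Real.exp 1)⁻¹ ≤ (2 : ℝ)⁻¹ := by gcongr
              _ ≤ 3 / 4 := by norm_num
    rw [WB]
    exact top_eq h10 (fun p hp => prime_Sj hT1 hp) (hbd a₁ ha₁) (hbd a₂ ha₂)
  -- conclusion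
  rw [RA_eq hT1, htop, mul_one]
  have h1 : ‖(∏ j ∈ Finset.range (JJ T + 1), z j) - (X : ℂ)‖ ≤
      ‖(∏ j ∈ Finset.range (JJ T + 1), z j) - Q‖ + (‖Q - (E : ℂ)‖ + ‖(E : ℂ) - (X : ℂ)‖) := by
    refine (norm_sub_le_norm_sub_add_norm_sub _ Q _).trans ?_
    gcongr
    exact norm_sub_le_norm_sub_add_norm_sub _ _ _
  have h2 : ‖(E : ℂ) - (X : ℂ)‖ ≤ (D - 1) * X := by
    rw [← ofReal_sub, norm_real, Real.norm_eq_abs]; exact hE2
  refine h1.trans ?_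
  have hE0 : 0 < E := Real.exp_pos _
  have h3 : (A - 1) * ‖Q‖ ≤ (A - 1) * (B * (D * X)) := by
    have : ‖Q‖ ≤ B * (D * X) := hQ1.trans (by gcongr)
    exact mul_le_mul_of_nonneg_left this (by linarith)
  have h4 : (B - 1) * E ≤ (B - 1) * (D * X) := mul_le_mul_of_nonneg_left hE1 (by linarith)
  have h5 : A * B * D ≤ 1 + η := by
    rw [hA, hBB, hD, ← Real.exp_add, ← Real.exp_add]
    have h6 : ∑ j ∈ Finset.range (JJ T + 1), ε j + (6 * C + 8) * u + δ ≤ Real.log (1 + η) := by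
      have h7 : (6 * C + 8) * u + δ = K * u := by rw [hδ, hK]; ring
      have h8 : Real.log (1 + η) = lam + lam := by rw [hlamdef]; ring
      linarith
    calc _ ≤ Real.exp (Real.log (1 + η)) := Real.exp_le_exp.mpr h6
      _ = 1 + η := Real.exp_log (by linarith)
  calc ‖(∏ j ∈ Finset.range (JJ T + 1), z j) - Q‖ + (‖Q - (E : ℂ)‖ + ‖(E : ℂ) - (X : ℂ)‖)
      ≤ (A - 1) * ‖Q‖ + ((B - 1) * E + (D - 1) * X) := by gcongr
    _ ≤ (A - 1) * (B * (D * X)) + ((B - 1) * (D * X) + (D - 1) * X) := by gcongr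
    _ = (A * B * D - 1) * X := by ring
    _ ≤ η * X := by gcongr; linarith

end K1
end Pool.Agent.Lib.MP_973905_nt
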