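import Pool.Agent.Lib.MP_973905_nt.K1.Defs

/-! Fourier representation of smoothed sums with an arbitrary smooth cutoff. -/

namespace Pool.Agent.Lib.MP_973905_nt
namespace K1

open MeasureTheory ProbabilityTheory Complex Filter Topology

namespace FourG

section

open scoped SchwartzMap FourierTransform ContDiff

/-- Smooth cutoffs. -/
structure Cut (φ : ℝ → ℝ) : Prop where
  smooth : ContDiff ℝ ∞ φ
  zero : ∀ x, 1 ≤ x → φ x = 0
  zero' : ∀ x, x ≤ -2 → φ x = 0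

/-- The function `e^x φ(x)`. -/
noncomputable def psi (φ : ℝ → ℝ) (x : ℝ) : ℂ := ((Real.exp x * φ x : ℝ) : ℂ)

variable {φ : ℝ → ℝ}

lemma psi_smooth (h : Cut φ) : ContDiff ℝ ∞ (psi φ) :=
  Complex.ofRealCLM.contDiff.comp (Real.contDiff_exp.mul h.smooth)

lemma psi_supp (h : Cut φ) : HasCompactSupport (psi φ) := by
  refine HasCompactSupport.intro (K := Set.Icc (-2) 1) isCompact_Icc fun x hx => ?_
  rw [Set.mem_Icc, not_and_or, not_le, not_le] at hx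
  rcases hx with hx | hx
  · simp [psi, h.zero' x hx.le]
  · simp [psi, h.zero x hx.le]

/-- The Fourier transform of `psi`. -/
noncomputable def gh (h : Cut φ) : 𝓢(ℝ, ℂ) := 𝓕 ((psi_supp h).toSchwartzMap (psi_smooth h))

lemma psi_eq (h : Cut φ) (x : ℝ) :
    psi φ x = ∫ ξ : ℝ, gh h ξ * cexp ((2 * Real.pi * ξ * x : ℝ) * I) := by
  have h1 : 𝓕⁻ (gh h) = (psi_supp h).toSchwartzMap (psi_smooth h) := by
    rw [gh]; exact FourierTransform.fourierInv_fourier_eq _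
  have h2 : psi φ x = (𝓕⁻ (gh h)) x := by rw [h1]; rfl
  rw [h2, SchwartzMap.fourierInv_coe, Real.fourierInv_eq']
  congr 1
  funext ξ
  rw [smul_eq_mul, mul_comm]
  congr 3
  simp
  ring

lemma gh_int (h : Cut φ) (n : ℕ) : Integrable (fun ξ : ℝ => ‖gh h ξ‖ * (1 + |ξ|) ^ n) := by
  have h' : (fun ξ : ℝ => ‖gh h ξ‖ * (1 + |ξ|) ^ n) = fun ξ : ℝ =>
      ∑ k ∈ Finset.range (n + 1), (n.choose k : ℝ) * (‖ξ‖ ^ k * ‖gh h ξ‖) := by
    funext ξ
    rw [add_comm, add_pow, Finset.mul_sum]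
    refine Finset.sum_congr rfl fun k _ => ?_
    rw [one_pow, Real.norm_eq_abs]; ring
  rw [h']
  exact integrable_finsetSum _ fun k _ => ((gh h).integrable_pow_mul volume k).const_mul _

end

variable {φ : ℝ → ℝ} {m : ℕ} {Sb : Fin m → Finset ℕ}

/-- The smoothed sum. -/
noncomputable def SG (φ : ℝ → ℝ) (T : ℝ) (f : ℕ → ℂ) : ℂ :=
  ∑ n ∈ Finset.Icc 1 ⌊T⌋₊, (φ (Real.log n / Real.log T) : ℂ) * f n

/-- The smoothed sum is an average of Euler products. -/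
lemma SG_eq (h : Cut φ) (hB : Blk Sb) {T : ℝ} (hT : 1 < T)
    (hU : ∀ n : ℕ, 1 ≤ n → (n : ℝ) ≤ T → n ∈ Nat.factoredNumbers (UU Sb)) {w : ℝ} (hw : 0 < w)
    (ω : (j : Fin m) → Sb j → ℝ) :
    SG φ T (tw w (XX Sb ω)) =
      ∫ ξ : ℝ, gh h ξ * ZZ (UU Sb) (tw (Four.wx T w ξ) (XX Sb ω)) := by
  have hT0 : 0 < T := by linarith
  have hL : 0 < Real.log T := Real.log_pos hT
  set f := XX Sb ω with hf
  have hσ : 0 < w + 1 / Real.log T := by positivity
  have hsum : Summable fun n : Nat.factoredNumbers (UU Sb) =>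
      ((n : ℕ) : ℝ) ^ (-(w + 1 / Real.log T)) := by
    have h := (ZZ_hasSum (s := UU Sb) (fun p hp => prime_of_mem_UU hB hp)
      (cmul_tw (cmul_XX Sb ω) (Four.wx T w 0)) (fun p hp => norm_tw_XX_lt (by rw [Four.wx_re]; exact hσ) ω hp)).1
    refine h.congr fun n => ?_
    rw [norm_tw_XX (Four.wx T w 0) ω (Nat.ne_zero_of_mem_factoredNumbers n.2), Four.wx_re]
  have hnorm : ∀ (n : Nat.factoredNumbers (UU Sb)) (ξ : ℝ), ‖gh h ξ * tw (Four.wx T w ξ) f n‖ =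
      ‖gh h ξ‖ * ((n : ℕ) : ℝ) ^ (-(w + 1 / Real.log T)) := by
    intro n ξ
    rw [norm_mul, norm_tw_XX _ ω (Nat.ne_zero_of_mem_factoredNumbers n.2), Four.wx_re]
  have hint : ∀ n : Nat.factoredNumbers (UU Sb),
      Integrable (fun ξ : ℝ => gh h ξ * tw (Four.wx T w ξ) f n) := by
    intro n
    refine (((gh h).integrable (μ := volume)).norm.mul_const
      (((n : ℕ) : ℝ) ^ (-(w + 1 / Real.log T)))).mono' ?_ ?_
    · refine Continuous.aestronglyMeasurable ?_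
      refine (gh h).continuous.mul ?_
      exact (Four.continuous_cpow_wx T w (Nat.ne_zero_of_mem_factoredNumbers n.2)).mul continuous_const
    · exact Filter.Eventually.of_forall fun ξ => (hnorm n ξ).le
  have key := hasSum_integral_of_summable_integral_norm
    (F := fun (n : Nat.factoredNumbers (UU Sb)) (ξ : ℝ) => gh h ξ * tw (Four.wx T w ξ) f n)
    (μ := volume) hint ?_
  · have h1 : ∀ n : Nat.factoredNumbers (UU Sb), ∫ ξ : ℝ, gh h ξ * tw (Four.wx T w ξ) f n =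
        (φ (Real.log n / Real.log T) : ℂ) * tw w f n := by
      intro n
      have hn := Nat.ne_zero_of_mem_factoredNumbers n.2
      have e1 : ∀ ξ : ℝ, gh h ξ * tw (Four.wx T w ξ) f n = ((((n : ℕ) : ℂ) ^ (-(w : ℂ))) *
          ((Real.exp (-(Real.log n / Real.log T)) : ℝ) : ℂ) * f n) *
          (gh h ξ * cexp ((2 * Real.pi * ξ * (Real.log n / Real.log T) : ℝ) * I)) := by
        intro ξ
        rw [tw, Four.cpow_wx w ξ hn]; ring
      simp only [e1]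
      rw [integral_const_mul, ← psi_eq, psi]
      have e2 : ((Real.exp (-(Real.log n / Real.log T)) : ℝ) : ℂ) *
          ((Real.exp (Real.log n / Real.log T) : ℝ) : ℂ) = 1 := by
        rw [← ofReal_mul, ← Real.exp_add]; simp
      rw [ofReal_mul, tw]
      linear_combination (((n : ℕ) : ℂ) ^ (-(w : ℂ)) * f n * (φ (Real.log n / Real.log T) : ℂ)) * e2
    simp only [h1] at key
    have h2 : ∀ ξ : ℝ, ∑' n : Nat.factoredNumbers (UU Sb), gh h ξ * tw (Four.wx T w ξ) f n =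
        gh h ξ * ZZ (UU Sb) (tw (Four.wx T w ξ) f) := by
      intro ξ
      have h' := (ZZ_hasSum (s := UU Sb) (fun p hp => prime_of_mem_UU hB hp)
        (cmul_tw (cmul_XX Sb ω) (Four.wx T w ξ))
        (fun p hp => norm_tw_XX_lt (by rw [Four.wx_re]; exact hσ) ω hp)).2
      exact (h'.mul_left (gh h ξ)).tsum_eq
    simp only [h2] at key
    rw [← key.tsum_eq]
    have e3 : ∑' n : Nat.factoredNumbers (UU Sb), (φ (Real.log (n : ℕ) / Real.log T) : ℂ) *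
        tw w f (n : ℕ) = ∑' n : ℕ, (Nat.factoredNumbers (UU Sb)).indicator
        (fun n : ℕ => (φ (Real.log n / Real.log T) : ℂ) * tw w f n) n :=
      tsum_subtype (Nat.factoredNumbers (UU Sb))
        (fun n : ℕ => (φ (Real.log n / Real.log T) : ℂ) * tw w f n)
    rw [e3, tsum_eq_sum (s := Finset.Icc 1 ⌊T⌋₊), SG]
    · refine Finset.sum_congr rfl fun n hn => ?_
      rw [Finset.mem_Icc] at hn
      have hnT : (n : ℝ) ≤ T := (Nat.le_floor_iff hT0.le).mp hn.2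
      rw [Set.indicator_of_mem (hU n hn.1 hnT)]
    · intro n hn
      by_cases hmem : n ∈ Nat.factoredNumbers (UU Sb)
      · rw [Set.indicator_of_mem hmem]
        have hn0 : n ≠ 0 := Nat.ne_zero_of_mem_factoredNumbers hmem
        rw [Finset.mem_Icc, not_and] at hn
        have h3 : ⌊T⌋₊ < n := by
          have := hn (Nat.one_le_iff_ne_zero.mpr hn0)
          omega
        have h4 : T < n := (Nat.floor_lt hT0.le).mp h3
        have h5 : φ (Real.log n / Real.log T) = 0 := by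
          apply h.zero
          rw [le_div_iff₀ hL, one_mul]
          exact Real.log_le_log hT0 h4.le
        rw [h5]; simp
      · rw [Set.indicator_of_notMem hmem]
  · simp only [hnorm, integral_mul_const]
    exact hsum.mul_left _

/-- Fourth powers of smoothed sums are bounded by averages of fourth powers of Euler products. -/
lemma fourier_bound4 (h : Cut φ) : ∃ g : ℝ → ℝ, (∀ ξ, 0 ≤ g ξ) ∧
    (∀ n : ℕ, Integrable (fun ξ => g ξ * (1 + |ξ|) ^ n)) ∧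
    ∀ (m : ℕ) (Sb : Fin m → Finset ℕ), Blk Sb → ∀ T : ℝ, 1 < T →
    (∀ n : ℕ, 1 ≤ n → (n : ℝ) ≤ T → n ∈ Nat.factoredNumbers (UU Sb)) → ∀ w : ℝ, 0 < w →
    ∀ B : (ℕ → ℂ) → ℂ, BC Sb B →
    ER Sb (fun f => ‖SG φ T (tw w f)‖ ^ 4 * ‖B f‖ ^ 2) ≤
      ∫ ξ : ℝ, g ξ * ER Sb (fun f =>
        ‖ZZ (UU Sb) (tw ((w : ℂ) + (1 - 2 * Real.pi * ξ * I) / Real.log T) f)‖ ^ 4 * ‖B f‖ ^ 2) ∧
    Integrable (fun ξ : ℝ => g ξ * ER Sb (fun f =>
        ‖ZZ (UU Sb) (tw ((w : ℂ) + (1 - 2 * Real.pi * ξ * I) / Real.log T) f)‖ ^ 4 * ‖B f‖ ^ 2)) := by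
  set a : ℝ := ∫ ξ : ℝ, ‖gh h ξ‖ with ha
  have ha0 : 0 ≤ a := integral_nonneg fun _ => norm_nonneg _
  have hgi : Integrable fun ξ : ℝ => ‖gh h ξ‖ := ((gh h).integrable (μ := volume)).norm
  refine ⟨fun ξ => a ^ 3 * ‖gh h ξ‖, fun ξ => by positivity, fun n => ?_, ?_⟩
  · simpa only [mul_assoc] using (gh_int h n).const_mul (a ^ 3)
  intro m Sb hB T hT hU w hw B hBC
  have hT0 : 0 < T := by linarith
  have hL : 0 < Real.log T := Real.log_pos hT
  have hσ : 0 < w + 1 / Real.log T := by positivity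
  obtain ⟨hBc, CB, hCB⟩ := hBC
  set Cz : ℝ := ∏ p ∈ UU Sb, (1 - (p : ℝ) ^ (-(w + 1 / Real.log T)))⁻¹ with hCz
  have hZ := fun ξ ω => Four.norm_ZZ_le (m := m) (Sb := Sb) hB (T := T) (w := w) hσ ξ ω
  have hZc := Four.continuous_ZZ (m := m) (Sb := Sb) hB (T := T) (w := w) hσ
  change _ ≤ ∫ ξ : ℝ, a ^ 3 * ‖gh h ξ‖ * ER Sb (fun f =>
        ‖ZZ (UU Sb) (tw (Four.wx T w ξ) f)‖ ^ 4 * ‖B f‖ ^ 2) ∧
    Integrable (fun ξ : ℝ => a ^ 3 * ‖gh h ξ‖ * ER Sb (fun f =>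
        ‖ZZ (UU Sb) (tw (Four.wx T w ξ) f)‖ ^ 4 * ‖B f‖ ^ 2))
  -- the joint function
  have hH : Integrable (fun x : ℝ × ((j : Fin m) → Sb j → ℝ) => a ^ 3 * ‖gh h x.1‖ *
      (‖ZZ (UU Sb) (tw (Four.wx T w x.1) (XX Sb x.2))‖ ^ 4 * ‖B (XX Sb x.2)‖ ^ 2))
      (volume.prod (PP0 Sb)) := by
    have h1 : Integrable (fun x : ℝ × ((j : Fin m) → Sb j → ℝ) =>
        a ^ 3 * ‖gh h x.1‖ * (Cz ^ 4 * CB ^ 2)) (volume.prod (PP0 Sb)) :=
      ((hgi.const_mul (a ^ 3)).mul_const _).comp_fst (PP0 Sb)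
    refine h1.mono' ?_ ?_
    · refine Continuous.aestronglyMeasurable ?_
      exact (continuous_const.mul ((gh h).continuous.comp continuous_fst).norm).mul
        ((hZc.norm.pow 4).mul ((hBc.comp continuous_snd).norm.pow 2))
    · refine Filter.Eventually.of_forall fun x => ?_
      rw [Real.norm_eq_abs, abs_of_nonneg (by positivity)]
      have h2 := hZ x.1 x.2
      have h3 := hCB x.2
      gcongr
  refine ⟨?_, ?_⟩
  · have e1 : ∫ ξ : ℝ, a ^ 3 * ‖gh h ξ‖ * ER Sb (fun f =>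
        ‖ZZ (UU Sb) (tw (Four.wx T w ξ) f)‖ ^ 4 * ‖B f‖ ^ 2) =
        ∫ ω, ∫ ξ : ℝ, a ^ 3 * ‖gh h ξ‖ * (‖ZZ (UU Sb) (tw (Four.wx T w ξ) (XX Sb ω))‖ ^ 4 *
          ‖B (XX Sb ω)‖ ^ 2) ∂volume ∂(PP0 Sb) := by
      rw [← integral_integral_swap hH]
      congr 1
      funext ξ
      rw [ER_eq, ← integral_const_mul]
    rw [e1, ER_eq]
    refine integral_mono_of_nonneg (Filter.Eventually.of_forall fun ω => by positivity)
      hH.integral_prod_right (Filter.Eventually.of_forall fun ω => ?_)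
    simp only
    have h1 : ‖SG φ T (tw w (XX Sb ω))‖ ≤
        ∫ ξ : ℝ, ‖gh h ξ‖ * ‖ZZ (UU Sb) (tw (Four.wx T w ξ) (XX Sb ω))‖ := by
      rw [SG_eq h hB hT hU hw ω]
      refine (norm_integral_le_integral_norm _).trans (le_of_eq ?_)
      congr 1
      funext ξ
      rw [norm_mul]
    have hc1 : Continuous fun ξ : ℝ => ‖ZZ (UU Sb) (tw (Four.wx T w ξ) (XX Sb ω))‖ :=
      (hZc.comp (Continuous.prodMk_left ω)).norm
    have ii : ∀ n : ℕ, Integrable fun ξ : ℝ =>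
        ‖gh h ξ‖ * ‖ZZ (UU Sb) (tw (Four.wx T w ξ) (XX Sb ω))‖ ^ n := by
      intro n
      refine (hgi.mul_const (Cz ^ n)).mono'
        ((gh h).continuous.norm.mul (hc1.pow n)).aestronglyMeasurable ?_
      refine Filter.Eventually.of_forall fun ξ => ?_
      rw [Real.norm_eq_abs, abs_of_nonneg (by positivity)]
      have h2 := hZ ξ ω
      gcongr
    have i1 : Integrable fun ξ : ℝ => ‖gh h ξ‖ * ‖ZZ (UU Sb) (tw (Four.wx T w ξ) (XX Sb ω))‖ := by
      simpa using ii 1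
    have h2 := Four.cs_int hgi i1 (ii 2) fun ξ => norm_nonneg _
    have i4 : Integrable fun ξ : ℝ =>
        ‖gh h ξ‖ * (‖ZZ (UU Sb) (tw (Four.wx T w ξ) (XX Sb ω))‖ ^ 2) ^ 2 := by
      simpa [← pow_mul] using ii 4
    have h4 := Four.cs_int hgi (ii 2) i4 fun ξ => norm_nonneg _
    set I1 := ∫ ξ : ℝ, ‖gh h ξ‖ * ‖ZZ (UU Sb) (tw (Four.wx T w ξ) (XX Sb ω))‖ with hI1
    set I2 := ∫ ξ : ℝ, ‖gh h ξ‖ * ‖ZZ (UU Sb) (tw (Four.wx T w ξ) (XX Sb ω))‖ ^ 2 with hI2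
    set I4 := ∫ ξ : ℝ, ‖gh h ξ‖ * (‖ZZ (UU Sb) (tw (Four.wx T w ξ) (XX Sb ω))‖ ^ 2) ^ 2 with hI4
    have hI20 : 0 ≤ I2 := integral_nonneg fun _ => by positivity
    have hI40 : 0 ≤ I4 := integral_nonneg fun _ => by positivity
    have h3 : ‖SG φ T (tw w (XX Sb ω))‖ ^ 4 ≤ a ^ 3 * I4 := by
      calc ‖SG φ T (tw w (XX Sb ω))‖ ^ 4 = (‖SG φ T (tw w (XX Sb ω))‖ ^ 2) ^ 2 := by ring
        _ ≤ (a * I2) ^ 2 := by
            apply pow_le_pow_left₀ (by positivity)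
            exact (pow_le_pow_left₀ (norm_nonneg _) h1 2).trans h2
        _ = a ^ 2 * I2 ^ 2 := by ring
        _ ≤ a ^ 2 * (a * I4) := by gcongr
        _ = a ^ 3 * I4 := by ring
    calc ‖SG φ T (tw w (XX Sb ω))‖ ^ 4 * ‖B (XX Sb ω)‖ ^ 2 ≤
        (a ^ 3 * I4) * ‖B (XX Sb ω)‖ ^ 2 := by
          gcongr
      _ = _ := by
        rw [hI4, ← integral_const_mul, ← integral_mul_const]
        congr 1
        funext ξ
        ring
  · refine hH.integral_prod_left.congr (Filter.Eventually.of_forall fun ξ => ?_)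
    simp only
    rw [ER_eq, ← integral_const_mul]

/-- The cutoff of the short sum. -/
lemma cut_Pb {δ : ℝ} (hδ : 0 < δ) : Cut (Pb δ) where
  smooth := by
    have h1 : ContDiff ℝ ((⊤ : ℕ∞) : WithTop ℕ∞) (fun x : ℝ => (1 / 2 - δ - x) / δ) := by fun_prop
    have h2 : ContDiff ℝ ((⊤ : ℕ∞) : WithTop ℕ∞) (fun x : ℝ => x + 2) := by fun_prop
    exact ((Real.smoothTransition.contDiff (n := ⊤)).comp h1).mul
      ((Real.smoothTransition.contDiff (n := ⊤)).comp h2)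
  zero := by
    intro x hx
    rw [Pb, Real.smoothTransition.zero_of_nonpos, zero_mul]
    apply div_nonpos_of_nonpos_of_nonneg _ hδ.le
    linarith
  zero' := by
    intro x hx
    rw [Pb, Real.smoothTransition.zero_of_nonpos (x := x + 2) (by linarith), mul_zero]

lemma SG_Pb (δ T : ℝ) (f : ℕ → ℂ) : SG (Pb δ) T f = SH δ T f := rfl

end FourG

end K1
end Pool.Agent.Lib.MP_973905_nt
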