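import Pool.Agent.Lib.MP_973905_nt.K1.Stmts
import Pool.Agent.Lib.MP_973905_nt.Chi2

/-! Module (18): the dual term is negligible. -/

namespace Pool.Agent.Lib.MP_973905_nt
namespace K1

open MeasureTheory ProbabilityTheory Complex Filter Topology

namespace Cross

lemma FF_exp : ∃ C : ℝ, 1 ≤ C ∧ ∀ s : ℂ, 1 / 8 ≤ s.re → s.re ≤ 1 →
    ‖FF s‖ ≤ C * Real.exp (Real.pi / 2 * |s.im|) := by
  have hc : ContinuousOn Real.Gamma (Set.Icc (1 / 8) 1) := by
    intro x hx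
    refine (Real.differentiableAt_Gamma fun m => ?_).continuousAt.continuousWithinAt
    have h1 : (0 : ℝ) < x := lt_of_lt_of_le (by norm_num) hx.1
    have h2 : (0 : ℝ) ≤ m := Nat.cast_nonneg m
    linarith
  obtain ⟨M, hM⟩ := isCompact_Icc.exists_bound_of_continuousOn hc
  refine ⟨max 1 (2 * M), le_max_left _ _, fun s h1 h2 => ?_⟩
  unfold FF
  rw [norm_mul, norm_mul, norm_mul, norm_two_pi_cpow]
  have e1 : ‖(2 : ℂ)‖ = 2 := by simp
  have e2 : (2 * Real.pi) ^ (-s.re) ≤ 1 :=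
    Real.rpow_le_one_of_one_le_of_nonpos (by linarith [Real.pi_gt_three]) (by linarith)
  have e3 : ‖Gamma s‖ ≤ M :=
    (norm_Gamma_le (by linarith)).trans ((le_abs_self _).trans (hM s.re ⟨h1, h2⟩))
  have e4 : ‖cos (Real.pi * s / 2)‖ ≤ Real.exp (Real.pi / 2 * |s.im|) := by
    refine (norm_cos_le _).trans (Real.exp_le_exp.2 (le_of_eq ?_))
    have : (Real.pi * s / 2 : ℂ).im = Real.pi / 2 * s.im := by
      rw [show (Real.pi * s / 2 : ℂ) = ((Real.pi / 2 : ℝ) : ℂ) * s by push_cast; ring, im_ofReal_mul]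
    rw [this, abs_mul, abs_of_pos (by positivity)]
  have hM0 : 0 ≤ M := (norm_nonneg _).trans e3
  rw [e1]
  calc 2 * (2 * Real.pi) ^ (-s.re) * ‖Gamma s‖ * ‖cos (Real.pi * s / 2)‖
      ≤ 2 * 1 * M * Real.exp (Real.pi / 2 * |s.im|) := by gcongr
    _ = 2 * M * Real.exp (Real.pi / 2 * |s.im|) := by ring
    _ ≤ max 1 (2 * M) * Real.exp (Real.pi / 2 * |s.im|) := by
        gcongr
        exact le_max_right _ _

/-- The size of `FF` on the line `Re s = 1/4`. -/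
lemma FF_quarter : ∃ B : ℝ, 1 ≤ B ∧ ∀ t : ℝ, ‖FF ((1 / 4 : ℝ) + t * I)‖ ≤ B * (1 + |t|) ^ (-(1 / 4) : ℝ) := by
  obtain ⟨B, hB1, hB⟩ := FF_bound_both
  obtain ⟨C, hC1, hC⟩ := FF_exp
  refine ⟨max B (C * Real.exp Real.pi * 2), hB1.trans (le_max_left _ _), fun t => ?_⟩
  have him : (((1 / 4 : ℝ) : ℂ) + t * I).im = t := by simp
  have hre : (((1 / 4 : ℝ) : ℂ) + t * I).re = 1 / 4 := by simp
  have hp : (0 : ℝ) < 1 + |t| := by positivity
  have hq : 0 < (1 + |t|) ^ (-(1 / 4) : ℝ) := Real.rpow_pos_of_pos hp _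
  rcases le_or_gt 1 |t| with h | h
  · have h1 := hB (((1 / 4 : ℝ) : ℂ) + t * I) (by rw [hre]) (by rw [hre]; norm_num) (by rw [him]; exact h)
    rw [him, hre, show (1 / 4 - 1 / 2 : ℝ) = -(1 / 4) by norm_num] at h1
    refine h1.trans ?_
    gcongr
    exact le_max_left _ _
  · have h1 := hC (((1 / 4 : ℝ) : ℂ) + t * I) (by rw [hre]; norm_num) (by rw [hre]; norm_num)
    rw [him] at h1
    have h2 : Real.exp (Real.pi / 2 * |t|) ≤ Real.exp Real.pi := by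
      apply Real.exp_le_exp.2
      have := Real.pi_pos
      nlinarith
    have h3 : 1 ≤ 2 * (1 + |t|) ^ (-(1 / 4) : ℝ) := by
      have h4 : (2 : ℝ) ^ (-(1 : ℝ)) ≤ (1 + |t|) ^ (-(1 / 4) : ℝ) := by
        calc (2 : ℝ) ^ (-(1 : ℝ)) ≤ (2 : ℝ) ^ (-(1 / 4) : ℝ) :=
              Real.rpow_le_rpow_of_exponent_le (by norm_num) (by norm_num)
          _ ≤ (1 + |t|) ^ (-(1 / 4) : ℝ) :=
              Real.rpow_le_rpow_of_nonpos hp (by linarith) (by norm_num)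
      rw [Real.rpow_neg_one] at h4
      linarith
    calc ‖FF ((1 / 4 : ℝ) + t * I)‖ ≤ C * Real.exp (Real.pi / 2 * |t|) := h1
      _ ≤ C * Real.exp Real.pi := by gcongr
      _ = C * Real.exp Real.pi * 1 := by ring
      _ ≤ C * Real.exp Real.pi * (2 * (1 + |t|) ^ (-(1 / 4) : ℝ)) := by gcongr
      _ = (C * Real.exp Real.pi * 2) * (1 + |t|) ^ (-(1 / 4) : ℝ) := by ring
      _ ≤ max B (C * Real.exp Real.pi * 2) * (1 + |t|) ^ (-(1 / 4) : ℝ) := by
          gcongr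
          exact le_max_right _ _

/-- The analytic functions belonging to a Dirichlet polynomial. -/
theorem dp_poly' {N M : ℝ} {G : (ℕ → ℂ) → ℂ} (h : DP N M G) :
    ∃ g g' : ℂ → ℂ, Differentiable ℂ g ∧ Differentiable ℂ g' ∧ (∀ s, G (fs s) = g s) ∧
      (∀ s, g' s = (starRingEnd ℂ) (g (1 - (starRingEnd ℂ) s))) ∧
      (∀ s : ℂ, 0 ≤ s.re → ‖g s‖ ≤ M) := by
  have hM := h.M_nonneg
  obtain ⟨k, c, n, h1, h2, h3⟩ := h
  have hn0 : ∀ i, (n i : ℂ) ≠ 0 := fun i => by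
    have := (h1 i).1
    exact_mod_cast (by omega : n i ≠ 0)
  have hd : ∀ i, Differentiable ℂ (fun s : ℂ => (n i : ℂ) ^ (-s)) := fun i s =>
    (differentiableAt_id.neg).const_cpow (Or.inl (hn0 i))
  have hd' : ∀ i, Differentiable ℂ (fun s : ℂ => (n i : ℂ) ^ (-(1 - s))) := fun i s =>
    ((differentiableAt_const 1).sub differentiableAt_id).neg.const_cpow (Or.inl (hn0 i))
  refine ⟨fun s => ∑ i, c i * (n i : ℂ) ^ (-s),
    fun s => ∑ i, (starRingEnd ℂ) (c i) * (n i : ℂ) ^ (-(1 - s)), ?_, ?_, ?_, ?_, ?_⟩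
  · exact Differentiable.fun_sum fun i _ => (hd i).const_mul _
  · exact Differentiable.fun_sum fun i _ => (hd' i).const_mul _
  · intro s
    exact h3 _ (cmul_fs s)
  · intro s
    simp only [map_sum, map_mul]
    refine Finset.sum_congr rfl fun i _ => ?_
    congr 1
    have harg : ((n i : ℕ) : ℂ).arg ≠ Real.pi := by
      rw [natCast_arg]; exact Real.pi_ne_zero.symm
    have := cpow_conj ((n i : ℕ) : ℂ) (-(1 - s)) harg
    rw [conj_natCast] at this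
    have e2 : (n i : ℂ) ^ (-(1 - s)) =
        (starRingEnd ℂ) ((starRingEnd ℂ) ((n i : ℂ) ^ (-(1 - s)))) := by rw [conj_conj]
    rw [e2, ← this]
    congr 2
    simp
  · intro s hs
    refine (norm_sum_le _ _).trans (le_trans (Finset.sum_le_sum fun i _ => ?_) h2)
    rw [norm_mul]
    exact mul_le_of_le_one_right (norm_nonneg _) (norm_natCast_cpow_neg_le_one hs (h1 i).1)

lemma Pb_nonneg (δ x : ℝ) : 0 ≤ Pb δ x :=
  mul_nonneg (Real.smoothTransition.nonneg _) (Real.smoothTransition.nonneg _)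

lemma Pb_le_one (δ x : ℝ) : Pb δ x ≤ 1 :=
  mul_le_one₀ (Real.smoothTransition.le_one _) (Real.smoothTransition.nonneg _)
    (Real.smoothTransition.le_one _)

lemma Pb_zero {δ x : ℝ} (hδ : 0 < δ) (h : 1 / 2 - δ ≤ x) : Pb δ x = 0 := by
  rw [Pb, Real.smoothTransition.zero_of_nonpos, zero_mul]
  apply div_nonpos_of_nonpos_of_nonneg <;> linarith

lemma Pb_zero_nat {δ T : ℝ} (hδ : 0 < δ) (hT : 1 < T) {n : ℕ} (h : T ^ (1 / 2 - δ) < n) :
    Pb δ (Real.log n / Real.log T) = 0 := by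
  have hT0 : 0 < T := by linarith
  apply Pb_zero hδ
  rw [le_div_iff₀ (Real.log_pos hT), ← Real.log_rpow hT0]
  exact Real.log_le_log (Real.rpow_pos_of_pos hT0 _) h.le

lemma dp_SH {δ T : ℝ} (hδ : 0 < δ) (hT : 1 < T) : DP (T ^ (1 / 2 - δ)) T (SH δ T) := by
  have hT0 : 0 < T := by linarith
  have h1 : ∀ n ∈ Finset.Icc 1 ⌊T⌋₊, DP (T ^ (1 / 2 - δ)) 1
      (fun f => (Pb δ (Real.log n / Real.log T) : ℂ) * f n) := by
    intro n hn
    rw [Finset.mem_Icc] at hn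
    by_cases h : (n : ℝ) ≤ T ^ (1 / 2 - δ)
    · refine (dp_single (Pb δ (Real.log n / Real.log T) : ℂ) n hn.1 h).mono le_rfl ?_
      rw [norm_real, Real.norm_eq_abs, abs_of_nonneg (Pb_nonneg _ _)]
      exact Pb_le_one _ _
    · push Not at h
      rw [Pb_zero_nat hδ hT h]
      simpa using dp_zero (N := T ^ (1 / 2 - δ)) zero_le_one
  have h2 := dp_sum (Finset.Icc 1 ⌊T⌋₊) (M := fun _ => 1) h1
  refine h2.mono le_rfl ?_
  simp only [Finset.sum_const, Nat.card_Icc, add_tsub_cancel_right, nsmul_eq_mul, mul_one]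
  exact Nat.floor_le hT0.le

lemma sum_inv_sqrt (N : ℕ) : ∑ n ∈ Finset.Icc 1 N, (n : ℝ) ^ (-(1 / 2) : ℝ) ≤ 2 * (N : ℝ) ^ (1 / 2 : ℝ) := by
  induction N with
  | zero => simp
  | succ N ih =>
    rw [Finset.sum_Icc_succ_top (by omega)]
    have hN : (0 : ℝ) ≤ N := Nat.cast_nonneg N
    have e1 : ((N + 1 : ℕ) : ℝ) ^ (-(1 / 2) : ℝ) = (Real.sqrt (N + 1))⁻¹ := by
      rw [Real.rpow_neg (by positivity), Real.sqrt_eq_rpow]; push_cast; rfl
    have e2 : ((N + 1 : ℕ) : ℝ) ^ (1 / 2 : ℝ) = Real.sqrt (N + 1) := by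
      rw [Real.sqrt_eq_rpow]; push_cast; rfl
    have e3 : (N : ℝ) ^ (1 / 2 : ℝ) = Real.sqrt N := by rw [Real.sqrt_eq_rpow]
    rw [e1, e2]
    rw [e3] at ih
    have h1 : Real.sqrt N ≤ Real.sqrt (N + 1) := Real.sqrt_le_sqrt (by linarith)
    have h2 : 0 < Real.sqrt (N + 1) := Real.sqrt_pos.2 (by linarith)
    have h3 : Real.sqrt N ^ 2 = N := Real.sq_sqrt hN
    have h4 : Real.sqrt (N + 1) ^ 2 = N + 1 := Real.sq_sqrt (by linarith)
    have h5 : (Real.sqrt (N + 1))⁻¹ ≤ 2 * (Real.sqrt (N + 1) - Real.sqrt N) := by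
      rw [inv_le_iff_one_le_mul₀ h2]
      nlinarith [Real.sqrt_nonneg (N : ℝ)]
    linarith

/-- Mean square of the short sum on the line `Re s = 1/4`. -/
lemma mean_SH {δ T : ℝ} (hδ : 0 < δ) (hδ1 : δ ≤ 1 / 8) (hT : 1 < T) (τ : ℝ) :
    EG T τ (fun t => ‖SH δ T (fs ((1 / 4 : ℝ) + t * I))‖ ^ 2) ≤
      2 * T ^ ((1 / 2 - δ) / 2) + T ^ 2 * Real.exp (-(VV T / (2 * (T ^ (1 / 2 : ℝ)) ^ 2))) := by
  have hT0 : 0 < T := by linarith
  have hle : T ^ (1 / 2 - δ) ≤ T ^ (1 / 2 : ℝ) :=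
    Real.rpow_le_rpow_of_exponent_le hT.le (by linarith)
  have hle' : T ^ (1 / 2 : ℝ) ≤ T := by
    calc T ^ (1 / 2 : ℝ) ≤ T ^ (1 : ℝ) := Real.rpow_le_rpow_of_exponent_le hT.le (by norm_num)
      _ = T := Real.rpow_one T
  have hdp : DP (T ^ (1 / 2 - δ)) T (fun f => SH δ T (tw (((1 / 4 : ℝ) : ℂ)) f)) :=
    (dp_SH hδ hT).twist (by simp)
  have h1 := transfer_sq (Sb := SB T 1 1) (N0 := T ^ (1 / 2 : ℝ))
    (fun n h1 h2 => mem_factored hT 1 1 h1 (h2.trans hle')) hdp hle T τ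
  have h2 : EG T τ (fun t => ‖SH δ T (fs ((1 / 4 : ℝ) + t * I))‖ ^ 2) =
      EG T τ (fun t => ‖SH δ T (tw (((1 / 4 : ℝ) : ℂ)) (fs (t * I)))‖ ^ 2) := by
    congr 1
    funext t
    rw [(dp_SH hδ hT).fs_add]
  have h3 : ER (SB T 1 1) (fun f => ‖SH δ T (tw (((1 / 4 : ℝ) : ℂ)) f)‖ ^ 2) =
      ∑ n ∈ Finset.Icc 1 ⌊T⌋₊,
        ‖(Pb δ (Real.log n / Real.log T) : ℂ) * (n : ℂ) ^ (-(((1 / 4 : ℝ) : ℂ)))‖ ^ 2 := by
    rw [← parseval (Sb := SB T 1 1) (Finset.Icc 1 ⌊T⌋₊) (fun n hn => ?_)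
      (fun n => (Pb δ (Real.log n / Real.log T) : ℂ) * (n : ℂ) ^ (-(((1 / 4 : ℝ) : ℂ))))]
    · congr 1
      funext f
      simp only [SH, tw, mul_assoc]
    · rw [Finset.mem_Icc] at hn
      exact mem_factored hT 1 1 hn.1 ((Nat.le_floor_iff hT0.le).1 hn.2)
  have h4 : ∑ n ∈ Finset.Icc 1 ⌊T⌋₊,
        ‖(Pb δ (Real.log n / Real.log T) : ℂ) * (n : ℂ) ^ (-(((1 / 4 : ℝ) : ℂ)))‖ ^ 2 ≤
      2 * T ^ ((1 / 2 - δ) / 2) := by
    have h5 : ∀ n ∈ Finset.Icc 1 ⌊T⌋₊,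
        ‖(Pb δ (Real.log n / Real.log T) : ℂ) * (n : ℂ) ^ (-(((1 / 4 : ℝ) : ℂ)))‖ ^ 2 ≤
        if n ∈ Finset.Icc 1 ⌊T ^ (1 / 2 - δ)⌋₊ then (n : ℝ) ^ (-(1 / 2) : ℝ) else 0 := by
      intro n hn
      rw [Finset.mem_Icc] at hn
      have hn0 : 0 < n := hn.1
      split_ifs with hm
      · rw [norm_mul, norm_real, Real.norm_eq_abs, abs_of_nonneg (Pb_nonneg _ _),
          norm_natCast_cpow_of_pos hn0, mul_pow, ← Real.rpow_natCast ((n : ℝ) ^ _) 2,
          ← Real.rpow_mul (Nat.cast_nonneg n)]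
        have e : (-((1 / 4 : ℝ) : ℂ)).re * ((2 : ℕ) : ℝ) = -(1 / 2) := by
          rw [neg_re, ofReal_re]; norm_num
        rw [e]
        have h6 : Pb δ (Real.log n / Real.log T) ^ 2 ≤ 1 :=
          pow_le_one₀ (Pb_nonneg _ _) (Pb_le_one _ _)
        exact mul_le_of_le_one_left (by positivity) h6
      · rw [Pb_zero_nat hδ hT]
        · simp
        · rw [Finset.mem_Icc, not_and] at hm
          have := hm hn.1
          rw [Nat.le_floor_iff (by positivity)] at this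
          exact not_le.1 this
    refine (Finset.sum_le_sum h5).trans ?_
    rw [← Finset.sum_filter]
    calc ∑ n ∈ (Finset.Icc 1 ⌊T⌋₊).filter (fun n => n ∈ Finset.Icc 1 ⌊T ^ (1 / 2 - δ)⌋₊),
          (n : ℝ) ^ (-(1 / 2) : ℝ)
        ≤ ∑ n ∈ Finset.Icc 1 ⌊T ^ (1 / 2 - δ)⌋₊, (n : ℝ) ^ (-(1 / 2) : ℝ) := by
          apply Finset.sum_le_sum_of_subset_of_nonneg
          · intro n hn
            exact (Finset.mem_filter.1 hn).2
          · intro n _ _
            positivity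
      _ ≤ 2 * ((⌊T ^ (1 / 2 - δ)⌋₊ : ℕ) : ℝ) ^ (1 / 2 : ℝ) := sum_inv_sqrt _
      _ ≤ 2 * (T ^ (1 / 2 - δ)) ^ (1 / 2 : ℝ) := by
          gcongr
          exact Nat.floor_le (by positivity)
      _ = 2 * T ^ ((1 / 2 - δ) / 2) := by
          rw [← Real.rpow_mul hT0.le]
          congr 2
          ring
  rw [h2]
  have h6 := (abs_le.1 h1).2
  rw [h3] at h6
  linarith

lemma exp_ev : ∀ᶠ T : ℝ in atTop,
    T ^ 2 * Real.exp (-(VV T / (2 * (T ^ (1 / 2 : ℝ)) ^ 2))) ≤ 1 := by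
  have h2 : ∀ᶠ u : ℝ in atTop, 2 * u ^ 20 ≤ Real.exp u := by
    have := (Real.isLittleO_pow_exp_atTop (n := 20)).def (c := (2 : ℝ)⁻¹) (by positivity)
    filter_upwards [this, eventually_ge_atTop 0] with u hu hu0
    rw [Real.norm_eq_abs, Real.norm_eq_abs, abs_of_nonneg (by positivity),
      abs_of_pos (Real.exp_pos _)] at hu
    linarith
  have h1 : Tendsto (fun T : ℝ => T ^ (1 / 10 : ℝ)) atTop atTop :=
    tendsto_rpow_atTop (by norm_num)
  filter_upwards [h1.eventually h2, h1.eventually_ge_atTop 2, eventually_ge_atTop 1] with T hT hu2 hT1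
  have hT0 : 0 < T := by linarith
  set u : ℝ := T ^ (1 / 10 : ℝ) with hu
  have hu0 : 0 < u := by linarith
  have hTu : T = u ^ 10 := by
    rw [hu, ← Real.rpow_natCast, ← Real.rpow_mul hT0.le]; norm_num
  have hV : (VV T : ℝ) = u ^ 19 := by
    rw [VV_coe hT0.le, hu, ← Real.rpow_natCast, ← Real.rpow_mul hT0.le]; norm_num
  have hH : (T ^ (1 / 2 : ℝ)) ^ 2 = u ^ 10 := by
    rw [← hTu, ← Real.rpow_natCast, ← Real.rpow_mul hT0.le]; norm_num
  rw [hV, hH]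
  have e1 : u ^ 19 / (2 * u ^ 10) = u ^ 9 / 2 := by
    field_simp
  have h3 : u ≤ u ^ 9 / 2 := by
    have h4 : 2 ≤ u ^ 8 := by
      calc (2 : ℝ) ≤ 2 ^ 8 := by norm_num
        _ ≤ u ^ 8 := by gcongr
    nlinarith
  have h5 : Real.exp (-(u ^ 19 / (2 * u ^ 10))) ≤ (Real.exp u)⁻¹ := by
    rw [e1, ← Real.exp_neg]
    apply Real.exp_le_exp.2
    linarith
  have h6 : T ^ 2 ≤ Real.exp u := by
    have e2 : T ^ 2 = u ^ 20 := by
      conv_lhs => rw [hTu]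
      ring
    rw [e2]
    have : 0 ≤ u ^ 20 := by positivity
    linarith
  calc T ^ 2 * Real.exp (-(u ^ 19 / (2 * u ^ 10))) ≤ Real.exp u * (Real.exp u)⁻¹ := by gcongr
    _ = 1 := mul_inv_cancel₀ (Real.exp_pos _).ne'

lemma log_ev {a : ℝ} (ha : 0 < a) : ∀ᶠ T : ℝ in atTop, 2 * Real.log T ≤ T ^ a := by
  have := (isLittleO_log_rpow_atTop ha).def (c := (2 : ℝ)⁻¹) (by positivity)
  filter_upwards [this, eventually_ge_atTop 1] with T hT hT1
  have hT0 : 0 < T := by linarith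
  rw [Real.norm_eq_abs, Real.norm_eq_abs, abs_of_nonneg (Real.log_nonneg hT1),
    abs_of_pos (Real.rpow_pos_of_pos hT0 _)] at hT
  linarith

/-- The indicator of the tail. -/
noncomputable def Tl (T τ t : ℝ) : ℝ :=
  Set.indicator {x : ℝ | T ^ (97 / 100 : ℝ) < |x|} (fun x => (1 + |x|) ^ 4) (t - τ)

lemma Tl_nonneg (T τ t : ℝ) : 0 ≤ Tl T τ t := by
  unfold Tl
  exact Set.indicator_nonneg (fun t _ => by positivity) _

lemma Tl_int (T τ : ℝ) (v : NNReal) : Integrable (Tl T τ) (gaussianReal τ v) := by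
  have hmeas : Measurable (Tl T τ) := by
    unfold Tl
    have h1 : Measurable (Set.indicator {x : ℝ | T ^ (97 / 100 : ℝ) < |x|}
        (fun x : ℝ => (1 + |x|) ^ 4)) :=
      Measurable.indicator (by fun_prop) (measurableSet_lt measurable_const measurable_id.abs)
    exact h1.comp (measurable_id.sub_const τ)
  refine integrable_of_poly τ v hmeas.aestronglyMeasurable (C := (1 + |τ|) ^ 4) (m := 4) fun t => ?_
  rw [Real.norm_eq_abs, abs_of_nonneg (Tl_nonneg T τ t), ← mul_pow]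
  unfold Tl
  refine (Set.indicator_le_self' (fun x _ => by positivity) (t - τ)).trans ?_
  have h3 : 1 + |t - τ| ≤ (1 + |τ|) * (1 + |t|) := by
    have := abs_sub t τ
    nlinarith [mul_nonneg (abs_nonneg τ) (abs_nonneg t)]
  simp only
  gcongr

lemma EG_Tl (T τ : ℝ) : EG T τ (Tl T τ) =
    ∫ x, Set.indicator {x : ℝ | T ^ (97 / 100 : ℝ) < |x|} (fun x => (1 + |x|) ^ 4) x
      ∂(gaussianReal 0 (VV T)) := by
  rw [Sharp.EG_shift]
  simp only [Tl, add_sub_cancel_right]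

end Cross

open K1.Cross in
/-- The dual term is negligible. -/
theorem stCross (hShift : StShift) : StCross := by
  intro δ hδ hδ1
  obtain ⟨B, hB1, hB⟩ := FF_quarter
  obtain ⟨C, hC1, hC⟩ := FF_exp
  have hev : ∀ᶠ T : ℝ in atTop, 12 ≤ T ∧ 2 * Real.log T ≤ T ^ (δ / 4) ∧
      2 * Real.log T ≤ T ^ (3 / 100 : ℝ) ∧
      4 * B * T ^ 4 * ∫ x, Set.indicator {x : ℝ | T ^ (97 / 100 : ℝ) < |x|}
        (fun x => (1 + |x|) ^ 4) x ∂(gaussianReal 0 (VV T)) ≤ 1 ∧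
      T ^ 2 * Real.exp (-(VV T / (2 * (T ^ (1 / 2 : ℝ)) ^ 2))) ≤ 1 ∧ 12 * B ≤ T ^ (δ / 16) := by
    filter_upwards [eventually_ge_atTop (12 : ℝ), log_ev (a := δ / 4) (by linarith),
      log_ev (a := 3 / 100) (by norm_num), Sharp.tail_ev (4 * B) 4, exp_ev,
      (tendsto_rpow_atTop (y := δ / 16) (by linarith)).eventually_ge_atTop (12 * B)]
      with T h1 h2 h3 h4 h5 h6
    exact ⟨h1, h2, h3, h4, h5, h6⟩
  obtain ⟨T₀, hT₀⟩ := eventually_atTop.mp hev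
  refine ⟨δ / 16, δ / 4, max 3 T₀, by linarith, by linarith, le_max_left _ _, ?_⟩
  intro T hT τ hτ1 hτ2 G hG
  obtain ⟨h12, hl1, hl2, htail, hexp, hbig⟩ := hT₀ T ((le_max_right _ _).trans hT)
  have hT1 : 1 < T := by linarith
  have hTpos : 0 < T := by linarith
  have hlog : 0 < Real.log T := Real.log_pos hT1
  obtain ⟨gS, gS', hgSd, -, hgS, -, hgSb⟩ := dp_poly' (dp_SH (δ := δ) hδ hT1)
  obtain ⟨g, g', hgd, hg'd, hg, hg', hgb⟩ := dp_poly' hG
  set θ : ℝ := δ / 16 with hθ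
  have hg'b : ∀ s : ℂ, s.re ≤ 1 → ‖g' s‖ ≤ T ^ θ := by
    intro s hs
    rw [hg', RCLike.norm_conj]
    apply hgb
    rw [sub_re, one_re, conj_re]
    linarith
  set f : ℂ → ℂ := fun s => FF s * (gS s) ^ 2 * (g s * g' s) with hf
  have hfd : DifferentiableOn ℂ f {s : ℂ | 1 / 8 < s.re ∧ s.re < 3 / 4} := by
    intro s hs
    have h1 : DifferentiableAt ℂ FF s := FF_diff (lt_trans (by norm_num) hs.1)
    exact ((h1.mul ((hgSd s).pow 2)).mul ((hgd s).mul (hg'd s))).differentiableWithinAt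
  have hV : VV T ≠ 0 := TSM.VV_ne hTpos
  have hVpos : (0 : ℝ) < VV T := by
    have : 0 < VV T := pos_iff_ne_zero.2 hV
    exact_mod_cast this
  have hgrow : ∀ s : ℂ, 1 / 8 < s.re → s.re < 3 / 4 →
      ‖f s‖ ≤ C * T ^ 2 * (T ^ θ * T ^ θ) * Real.exp (Real.pi / 2 * |s.im|) := by
    intro s h1 h2
    have e1 := hC s h1.le (by linarith)
    have e2 := hgSb s (by linarith)
    have e3 := hgb s (by linarith)
    have e4 := hg'b s (by linarith)
    simp only [hf]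
    rw [norm_mul, norm_mul, norm_mul, norm_pow]
    calc ‖FF s‖ * ‖gS s‖ ^ 2 * (‖g s‖ * ‖g' s‖)
        ≤ (C * Real.exp (Real.pi / 2 * |s.im|)) * T ^ 2 * (T ^ θ * T ^ θ) := by gcongr
      _ = _ := by ring
  have key := hShift f (1 / 8) (3 / 4) (1 / 2) (1 / 4) τ (1 / (4 * VV T)) (VV T) hV
    (by norm_num) (by norm_num) (by norm_num) (by norm_num) hfd (by positivity)
    (by
      have : (4 : ℝ) * (1 / (4 * VV T)) * VV T = 1 := by field_simp
      rw [this])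
    ⟨C * T ^ 2 * (T ^ θ * T ^ θ) * Real.exp (Real.pi / 2 * |τ| + (Real.pi / 2) ^ 2 * VV T), 0, by
      intro s h1 h2
      refine (hgrow s h1 h2).trans ?_
      rw [pow_zero, mul_one, mul_assoc _ (Real.exp _), ← Real.exp_add]
      have h3 : Real.pi / 2 * |s.im| ≤ Real.pi / 2 * |τ| + (Real.pi / 2) ^ 2 * VV T +
          1 / (4 * VV T) * (s.im - τ) ^ 2 := by
        have h4 : |s.im| ≤ |τ| + |s.im - τ| := by
          have := abs_add_le τ (s.im - τ)
          rwa [add_sub_cancel] at this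
        have h5 : Real.pi / 2 * |s.im - τ| ≤ (Real.pi / 2) ^ 2 * VV T +
            1 / (4 * VV T) * (s.im - τ) ^ 2 := by
          rw [← sq_abs (s.im - τ)]
          set y := |s.im - τ| with hy
          have h6 : 0 ≤ (y / 2 - Real.pi / 2 * VV T) ^ 2 / VV T := by positivity
          have h7 : (y / 2 - Real.pi / 2 * VV T) ^ 2 / VV T =
              1 / (4 * VV T) * y ^ 2 - Real.pi / 2 * y + (Real.pi / 2) ^ 2 * VV T := by
            field_simp
            ring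
          linarith
        have hpi := Real.pi_pos
        have h8 := mul_le_mul_of_nonneg_left h4 (show 0 ≤ Real.pi / 2 by positivity)
        linarith
      gcongr⟩
  have hconj : ∀ t : ℝ, 1 - (starRingEnd ℂ) (((1 / 2 : ℝ) : ℂ) + t * I) = ((1 / 2 : ℝ) : ℂ) + t * I := by
    intro t
    rw [TSM.one_sub_conj]
    norm_num
  have e0 : EG T τ (fun t => FF (1 / 2 + t * I) * (SH δ T (fs (1 / 2 + t * I))) ^ 2 *
      (G (fs (1 / 2 + t * I)) * (starRingEnd ℂ) (G (fs (1 / 2 + t * I))))) =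
      ∫ t : ℝ, f (((1 / 2 : ℝ) : ℂ) + t * I) ∂(gaussianReal τ (VV T)) := by
    unfold EG
    congr 1
    funext t
    simp only [hf]
    rw [hg', hconj, ← hgS, ← hg]
    norm_num
  rw [e0, key, norm_mul]
  have hfac : ‖(Real.exp ((1 / 4 - 1 / 2) ^ 2 / (2 * VV T)) : ℂ)‖ ≤ 2 := by
    rw [norm_real, Real.norm_eq_abs, abs_of_pos (Real.exp_pos _)]
    exact TSM.gfac h12 (by norm_num)
  -- pointwise bound on the line `1/4`
  have hTθ : T ^ θ * T ^ θ ≤ T := by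
    rw [← Real.rpow_add hTpos]
    calc T ^ (θ + θ) ≤ T ^ (1 : ℝ) :=
          Real.rpow_le_rpow_of_exponent_le hT1.le (by rw [hθ]; linarith)
      _ = T := Real.rpow_one T
  have hpt : ∀ t : ℝ, ‖f (((1 / 4 : ℝ) : ℂ) + t * I)‖ ≤
      (B * T ^ (-(1 / 4) + θ) * (T ^ θ * T ^ θ)) * ‖SH δ T (fs (((1 / 4 : ℝ) : ℂ) + t * I))‖ ^ 2 +
        B * T ^ 3 * Tl T τ t := by
    intro t
    have hre : (((1 / 4 : ℝ) : ℂ) + t * I).re = 1 / 4 := by simp
    have e1 := hB t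
    have e2 := hgSb (((1 / 4 : ℝ) : ℂ) + t * I) (by rw [hre]; norm_num)
    have e3 := hgb (((1 / 4 : ℝ) : ℂ) + t * I) (by rw [hre]; norm_num)
    have e4 := hg'b (((1 / 4 : ℝ) : ℂ) + t * I) (by rw [hre]; norm_num)
    rw [hgS]
    set s : ℂ := ((1 / 4 : ℝ) : ℂ) + t * I with hs
    simp only [hf]
    rw [norm_mul, norm_mul, norm_mul, norm_pow]
    have hB0 : 0 < B := by linarith
    have hp : (1 : ℝ) ≤ 1 + |t| := by linarith [abs_nonneg t]
    by_cases ht : T ^ (97 / 100 : ℝ) < |t - τ|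
    · have h1 : 1 ≤ Tl T τ t := by
        unfold Tl
        rw [Set.indicator_of_mem (by exact ht)]
        exact one_le_pow₀ (by linarith [abs_nonneg (t - τ)])
      have h2 : ‖FF s‖ ≤ B := by
        refine e1.trans ?_
        have : (1 + |t|) ^ (-(1 / 4) : ℝ) ≤ 1 :=
          Real.rpow_le_one_of_one_le_of_nonpos hp (by norm_num)
        nlinarith
      calc ‖FF s‖ * ‖gS s‖ ^ 2 * (‖g s‖ * ‖g' s‖) ≤ B * T ^ 2 * (T ^ θ * T ^ θ) := by gcongr
        _ ≤ B * T ^ 2 * T := by gcongr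
        _ = B * T ^ 3 * 1 := by ring
        _ ≤ B * T ^ 3 * Tl T τ t := by gcongr
        _ ≤ _ := by
          have : 0 ≤ (B * T ^ (-(1 / 4) + θ) * (T ^ θ * T ^ θ)) * ‖gS s‖ ^ 2 := by positivity
          linarith
    · push Not at ht
      have h1 : T ^ (1 - δ / 4) ≤ |t| := by
        have h3 : T ^ (97 / 100 : ℝ) * (2 * Real.log T) ≤ T := by
          calc T ^ (97 / 100 : ℝ) * (2 * Real.log T) ≤ T ^ (97 / 100 : ℝ) * T ^ (3 / 100 : ℝ) := by
                gcongr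
            _ = T := by rw [← Real.rpow_add hTpos]; norm_num
        have h4 : T ^ (1 - δ / 4) * (2 * Real.log T) ≤ T := by
          calc T ^ (1 - δ / 4) * (2 * Real.log T) ≤ T ^ (1 - δ / 4) * T ^ (δ / 4) := by
                gcongr
            _ = T := by rw [← Real.rpow_add hTpos]; norm_num
        have h5 : T ^ (97 / 100 : ℝ) ≤ T / (2 * Real.log T) := by
          rw [le_div_iff₀ (by positivity)]; exact h3
        have h6 : T ^ (1 - δ / 4) ≤ T / (2 * Real.log T) := by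
          rw [le_div_iff₀ (by positivity)]; exact h4
        have h7 : T / Real.log T = T / (2 * Real.log T) + T / (2 * Real.log T) := by
          field_simp
          norm_num
        have h8 : |τ| ≤ |t| + |t - τ| := by
          have := abs_sub_abs_le_abs_sub τ t
          rw [abs_sub_comm] at this
          linarith
        linarith
      have h2 : (1 + |t|) ^ (-(1 / 4) : ℝ) ≤ T ^ (-(1 / 4) + θ) := by
        calc (1 + |t|) ^ (-(1 / 4) : ℝ) ≤ (T ^ (1 - δ / 4)) ^ (-(1 / 4) : ℝ) :=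
              Real.rpow_le_rpow_of_nonpos (by positivity) (by linarith) (by norm_num)
          _ = T ^ (-(1 / 4) + θ) := by
              rw [← Real.rpow_mul hTpos.le]
              congr 1
              rw [hθ]; ring
      calc ‖FF s‖ * ‖gS s‖ ^ 2 * (‖g s‖ * ‖g' s‖)
          ≤ (B * T ^ (-(1 / 4) + θ)) * ‖gS s‖ ^ 2 * (T ^ θ * T ^ θ) := by
            gcongr
            exact e1.trans (by gcongr)
        _ = (B * T ^ (-(1 / 4) + θ) * (T ^ θ * T ^ θ)) * ‖gS s‖ ^ 2 := by ring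
        _ ≤ _ := by
          have : 0 ≤ B * T ^ 3 * Tl T τ t :=
            mul_nonneg (by positivity) (Tl_nonneg T τ t)
          linarith
  have hcont : Continuous fun t : ℝ => SH δ T (fs (((1 / 4 : ℝ) : ℂ) + t * I)) := by
    have : (fun t : ℝ => SH δ T (fs (((1 / 4 : ℝ) : ℂ) + t * I))) =
        fun t : ℝ => gS (((1 / 4 : ℝ) : ℂ) + t * I) := by
      funext t; rw [hgS]
    rw [this]
    exact hgSd.continuous.comp (by fun_prop)
  have hintS : Integrable (fun t : ℝ => ‖SH δ T (fs (((1 / 4 : ℝ) : ℂ) + t * I))‖ ^ 2)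
      (gaussianReal τ (VV T)) := by
    refine integrable_of_poly τ (VV T) (hcont.norm.pow 2).aestronglyMeasurable (C := T ^ 2)
      (m := 0) fun t => ?_
    rw [Real.norm_eq_abs, abs_of_nonneg (by positivity), pow_zero, mul_one, hgS]
    have := hgSb (((1 / 4 : ℝ) : ℂ) + t * I) (by simp)
    gcongr
  have hmean := mean_SH hδ hδ1 hT1 τ
  have hint : ∫ t : ℝ, ‖f (((1 / 4 : ℝ) : ℂ) + t * I)‖ ∂(gaussianReal τ (VV T)) ≤
      (B * T ^ (-(1 / 4) + θ) * (T ^ θ * T ^ θ)) * (3 * T ^ ((1 / 2 - δ) / 2)) +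
        B * T ^ 3 * EG T τ (Tl T τ) := by
    have h1 : ∫ t : ℝ, ‖f (((1 / 4 : ℝ) : ℂ) + t * I)‖ ∂(gaussianReal τ (VV T)) ≤
        ∫ t : ℝ, ((B * T ^ (-(1 / 4) + θ) * (T ^ θ * T ^ θ)) *
          ‖SH δ T (fs (((1 / 4 : ℝ) : ℂ) + t * I))‖ ^ 2 + B * T ^ 3 * Tl T τ t)
          ∂(gaussianReal τ (VV T)) := by
      apply integral_mono_of_nonneg
      · exact Filter.Eventually.of_forall fun t => norm_nonneg _
      · exact (hintS.const_mul _).add ((Tl_int T τ _).const_mul _)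
      · exact Filter.Eventually.of_forall hpt
    refine h1.trans ?_
    rw [integral_add (hintS.const_mul _) ((Tl_int T τ _).const_mul _), integral_const_mul,
      integral_const_mul]
    have h2 : ∫ t : ℝ, ‖SH δ T (fs (((1 / 4 : ℝ) : ℂ) + t * I))‖ ^ 2 ∂(gaussianReal τ (VV T)) ≤
        3 * T ^ ((1 / 2 - δ) / 2) := by
      have h3 : 1 ≤ T ^ ((1 / 2 - δ) / 2) := Real.one_le_rpow hT1.le (by linarith)
      have h4 : ∫ t : ℝ, ‖SH δ T (fs (((1 / 4 : ℝ) : ℂ) + t * I))‖ ^ 2 ∂(gaussianReal τ (VV T)) =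
        EG T τ (fun t => ‖SH δ T (fs (((1 / 4 : ℝ) : ℂ) + t * I))‖ ^ 2) := rfl
      rw [h4]
      linarith
    have hB0 : 0 < B := by linarith
    have : ∫ t : ℝ, Tl T τ t ∂(gaussianReal τ (VV T)) = EG T τ (Tl T τ) := rfl
    rw [this]
    gcongr
  have hfin : ‖∫ t : ℝ, f (((1 / 4 : ℝ) : ℂ) + t * I) *
      cexp ((((1 / 4 - 1 / 2) * (t - τ) / VV T : ℝ) : ℂ) * I) ∂(gaussianReal τ (VV T))‖ ≤
      ∫ t : ℝ, ‖f (((1 / 4 : ℝ) : ℂ) + t * I)‖ ∂(gaussianReal τ (VV T)) := by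
    refine (norm_integral_le_integral_norm _).trans (le_of_eq ?_)
    congr 1
    funext t
    rw [norm_mul, norm_exp_ofReal_mul_I, mul_one]
  have hmain : 2 * ((B * T ^ (-(1 / 4) + θ) * (T ^ θ * T ^ θ)) * (3 * T ^ ((1 / 2 - δ) / 2)) +
        B * T ^ 3 * EG T τ (Tl T τ)) ≤ T ^ (-(δ / 4)) := by
    rw [EG_Tl]
    set q := ∫ x, Set.indicator {x : ℝ | T ^ (97 / 100 : ℝ) < |x|} (fun x => (1 + |x|) ^ 4) x
      ∂(gaussianReal 0 (VV T)) with hq
    have hq0 : 0 ≤ q := integral_nonneg fun x => Set.indicator_nonneg (fun t _ => by positivity) x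
    have hB0 : 0 < B := by linarith
    have e1 : T ^ (-(1 / 4) + θ) * (T ^ θ * T ^ θ) * T ^ ((1 / 2 - δ) / 2) =
        T ^ (-(δ / 4)) * T ^ (-(δ / 16)) := by
      rw [← Real.rpow_add hTpos, ← Real.rpow_add hTpos, ← Real.rpow_add hTpos,
        ← Real.rpow_add hTpos]
      congr 1
      rw [hθ]; ring
    have h1 : 12 * B * T ^ (-(δ / 16)) ≤ 1 := by
      rw [Real.rpow_neg hTpos.le]
      have : 0 < T ^ (δ / 16) := Real.rpow_pos_of_pos hTpos _
      rw [← div_eq_mul_inv, div_le_one this]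
      exact hbig
    have hx : 0 < T ^ (-(δ / 4)) := Real.rpow_pos_of_pos hTpos _
    have h2 : 2 * ((B * T ^ (-(1 / 4) + θ) * (T ^ θ * T ^ θ)) * (3 * T ^ ((1 / 2 - δ) / 2))) ≤
        1 / 2 * T ^ (-(δ / 4)) := by
      calc 2 * ((B * T ^ (-(1 / 4) + θ) * (T ^ θ * T ^ θ)) * (3 * T ^ ((1 / 2 - δ) / 2)))
          = 6 * B * (T ^ (-(1 / 4) + θ) * (T ^ θ * T ^ θ) * T ^ ((1 / 2 - δ) / 2)) := by ring
        _ = 1 / 2 * (12 * B * T ^ (-(δ / 16))) * T ^ (-(δ / 4)) := by rw [e1]; ring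
        _ ≤ 1 / 2 * 1 * T ^ (-(δ / 4)) := by gcongr
        _ = _ := by ring
    have h3 : 2 * (B * T ^ 3 * q) ≤ 1 / 2 * T ^ (-(δ / 4)) := by
      have h4 : (T : ℝ)⁻¹ ≤ T ^ (-(δ / 4)) := by
        rw [← Real.rpow_neg_one]
        exact Real.rpow_le_rpow_of_exponent_le hT1.le (by linarith)
      have h5 : 4 * (B * T ^ 3 * q) ≤ T⁻¹ := by
        rw [← one_div, le_div_iff₀ hTpos]
        calc 4 * (B * T ^ 3 * q) * T = 4 * B * T ^ 4 * q := by ring
          _ ≤ 1 := htail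
      linarith
    linarith
  calc ‖(Real.exp ((1 / 4 - 1 / 2) ^ 2 / (2 * VV T)) : ℂ)‖ *
        ‖∫ t : ℝ, f (((1 / 4 : ℝ) : ℂ) + t * I) *
          cexp ((((1 / 4 - 1 / 2) * (t - τ) / VV T : ℝ) : ℂ) * I) ∂(gaussianReal τ (VV T))‖
      ≤ 2 * ((B * T ^ (-(1 / 4) + θ) * (T ^ θ * T ^ θ)) * (3 * T ^ ((1 / 2 - δ) / 2)) +
        B * T ^ 3 * EG T τ (Tl T τ)) := by
        gcongr
        exact hfin.trans hint
    _ ≤ _ := hmain

end K1
end Pool.Agent.Lib.MP_973905_nt
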