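import Pool.Agent.Lib.MP_973905_nt.K1.Stmts

/-! Module (23): the final theorem and the limit of `c_k` as `k → 1-`. -/

namespace Pool.Agent.Lib.MP_973905_nt
namespace K1.FinalK1

open MeasureTheory ProbabilityTheory Complex Filter Topology
open Pool.Agent.Lib.MP_973905_nt.CK

/-- `u = 1 - k → 0` within `Ioi 0` when `k → 1` within `Iio 1`. -/
lemma tendsto_one_sub : Tendsto (fun k : ℝ => 1 - k) (𝓝[<] 1) (𝓝[>] 0) := by
  rw [tendsto_nhdsWithin_iff]
  constructor
  · have : Tendsto (fun k : ℝ => 1 - k) (𝓝 1) (𝓝 (1 - 1)) := by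
      exact (continuous_const.sub continuous_id).tendsto 1
    rw [sub_self] at this
    exact this.mono_left nhdsWithin_le_nhds
  · filter_upwards [self_mem_nhdsWithin] with k hk
    simpa using hk

lemma contGamma {x : ℝ} (hx : 0 < x) : ContinuousAt Real.Gamma x := by
  apply DifferentiableAt.continuousAt (𝕜 := ℝ)
  apply Real.differentiableAt_Gamma
  intro m h
  have : (0 : ℝ) ≤ m := by positivity
  linarith

lemma barnes_one : Tendsto (fun k : ℝ => barnesG (k + 1)) (𝓝[<] 1) (𝓝 1) := by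
  have h1 := (barnesG_tendsto (-1)).comp tendsto_one_sub
  have h2 : Tendsto (fun k : ℝ => Real.Gamma k) (𝓝[<] 1) (𝓝 1) := by
    have h : ContinuousAt Real.Gamma 1 :=
      contGamma one_pos
    have h' := h.tendsto
    rw [Real.Gamma_one] at h'
    exact h'.mono_left nhdsWithin_le_nhds
  have h3 := h2.mul h1
  rw [one_mul] at h3
  refine h3.congr' ?_
  have hpos : ∀ᶠ k : ℝ in 𝓝[<] 1, 0 < k :=
    nhdsWithin_le_nhds (lt_mem_nhds one_pos)
  filter_upwards [hpos] with k hk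
  simp only [Function.comp]
  rw [barnesG_add_one hk]
  congr 2
  ring

lemma barnes_two : Tendsto (fun k : ℝ => barnesG (2 * k + 1)) (𝓝[<] 1) (𝓝 1) := by
  have h1 := (barnesG_tendsto (-2)).comp tendsto_one_sub
  have h2 : Tendsto (fun k : ℝ => Real.Gamma (2 * k)) (𝓝[<] 1) (𝓝 1) := by
    have h : ContinuousAt Real.Gamma 2 :=
      contGamma two_pos
    have h' := h.tendsto
    rw [Real.Gamma_two] at h'
    refine h'.comp ?_
    have : Tendsto (fun k : ℝ => 2 * k) (𝓝 1) (𝓝 (2 * 1)) :=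
      (continuous_const.mul continuous_id).tendsto 1
    rw [mul_one] at this
    exact this.mono_left nhdsWithin_le_nhds
  have h2' : Tendsto (fun k : ℝ => Real.Gamma (2 * k - 1)) (𝓝[<] 1) (𝓝 1) := by
    have h : ContinuousAt Real.Gamma 1 :=
      contGamma one_pos
    have h' := h.tendsto
    rw [Real.Gamma_one] at h'
    refine h'.comp ?_
    have : Tendsto (fun k : ℝ => 2 * k - 1) (𝓝 1) (𝓝 (2 * 1 - 1)) :=
      ((continuous_const.mul continuous_id).sub continuous_const).tendsto 1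
    have e : (2 * 1 - 1 : ℝ) = 1 := by norm_num
    rw [e] at this
    exact this.mono_left nhdsWithin_le_nhds
  have h3 := (h2.mul h2').mul h1
  rw [one_mul, one_mul] at h3
  refine h3.congr' ?_
  have hpos : ∀ᶠ k : ℝ in 𝓝[<] 1, 1 / 2 < k :=
    nhdsWithin_le_nhds (lt_mem_nhds (by norm_num))
  filter_upwards [hpos] with k hk
  simp only [Function.comp]
  have e1 : 2 * k = (2 * k - 1) + 1 := by ring
  rw [barnesG_add_one (show 0 < 2 * k by linarith)]
  conv_rhs => rw [e1, barnesG_add_one (show 0 < 2 * k - 1 by linarith)]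
  rw [mul_assoc]
  congr 3
  ring

lemma bc_one (m : ℕ) : bc 1 m = 1 := by
  rw [bc, add_comm, Real.Gamma_nat_eq_factorial, Real.Gamma_one, one_mul, div_self]
  exact_mod_cast m.factorial_ne_zero

lemma bc_tendsto (m : ℕ) : Tendsto (fun k : ℝ => bc k m) (𝓝[<] 1) (𝓝 1) := by
  have h1 : ContinuousAt (fun k : ℝ => bc k m) 1 := by
    unfold bc
    have ha : ContinuousAt (fun k : ℝ => Real.Gamma (k + m)) 1 := by
      have : ContinuousAt Real.Gamma (1 + m) :=
        contGamma (by positivity)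
      exact ContinuousAt.comp (f := fun k : ℝ => k + m) this (by fun_prop)
    have hb : ContinuousAt Real.Gamma 1 :=
      contGamma one_pos
    refine ha.div (hb.mul continuousAt_const) ?_
    rw [Real.Gamma_one, one_mul]
    exact_mod_cast m.factorial_ne_zero
  have h2 := h1.tendsto
  rw [bc_one] at h2
  exact h2.mono_left nhdsWithin_le_nhds

lemma ev_pos : ∀ᶠ k : ℝ in 𝓝[<] 1, 0 < k ∧ k ≤ 1 := by
  have hpos : ∀ᶠ k : ℝ in 𝓝[<] 1, 0 < k :=
    nhdsWithin_le_nhds (lt_mem_nhds one_pos)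
  filter_upwards [hpos, self_mem_nhdsWithin] with k h1 h2
  exact ⟨h1, le_of_lt h2⟩

lemma Fk_tendsto {x : ℝ} (hx0 : 0 ≤ x) (hx : x < 1) :
    Tendsto (fun k : ℝ => Fk k x) (𝓝[<] 1) (𝓝 (1 - x)⁻¹) := by
  have h := tendsto_tsum_of_dominated_convergence (𝓕 := 𝓝[<] (1 : ℝ))
    (f := fun (k : ℝ) (m : ℕ) => bc k m ^ 2 * x ^ m) (g := fun m : ℕ => x ^ m)
    (bound := fun m : ℕ => x ^ m) (summable_geometric_of_lt_one hx0 hx) (fun m => ?_) ?_
  · rw [tsum_geometric_of_lt_one hx0 hx] at h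
    exact h
  · have := ((bc_tendsto m).pow 2).mul_const (x ^ m)
    simpa using this
  · filter_upwards [ev_pos] with k hk m
    have h1 : bc k m ^ 2 ≤ 1 := pow_le_one₀ (bc_pos hk.1 m).le (bc_le_one hk.1 hk.2 m)
    have h2 : 0 ≤ x ^ m := by positivity
    have h3 : 0 ≤ bc k m ^ 2 * x ^ m := by positivity
    rw [Real.norm_eq_abs, abs_of_nonneg h3]
    calc bc k m ^ 2 * x ^ m ≤ 1 * x ^ m := mul_le_mul_of_nonneg_right h1 h2
      _ = x ^ m := one_mul _

lemma lf_tendsto {x : ℝ} (hx0 : 0 ≤ x) (hx : x < 1) :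
    Tendsto (fun k : ℝ => lf k x) (𝓝[<] 1) (𝓝 1) := by
  have h1 : Tendsto (fun k : ℝ => (1 - x) ^ (k ^ 2)) (𝓝[<] 1) (𝓝 (1 - x)) := by
    have hc : Continuous (fun k : ℝ => (1 - x) ^ (k ^ 2)) :=
      continuous_const.rpow (continuous_id.pow 2) fun z => Or.inl (by
        have : 0 < 1 - x := by linarith
        exact this.ne')
    have := hc.tendsto 1
    simp only [one_pow, Real.rpow_one] at this
    exact this.mono_left nhdsWithin_le_nhds
  have h2 := h1.mul (Fk_tendsto hx0 hx)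
  rw [mul_inv_cancel₀ (by linarith)] at h2
  exact h2

lemma aK_tendsto_one : Tendsto aK (𝓝[<] 1) (𝓝 1) := by
  have hlog : Tendsto (fun k : ℝ => ∑' p : Nat.Primes, Real.log (lf k (((p : ℕ) : ℝ)⁻¹)))
      (𝓝[<] 1) (𝓝 (∑' _ : Nat.Primes, (0 : ℝ))) := by
    refine tendsto_tsum_of_dominated_convergence (bound := fun p : Nat.Primes =>
      3 * (((p : ℕ) : ℝ)⁻¹) ^ 2) (summable_prime_sq.mul_left _) (fun p => ?_) ?_
    · have h1 := lf_tendsto (prime_inv p).1 (lt_of_le_of_lt (prime_inv p).2 (by norm_num))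
      have h2 := h1.log one_ne_zero
      rwa [Real.log_one] at h2
    · filter_upwards [ev_pos] with k hk p
      rw [Real.norm_eq_abs]
      refine (abs_log_lf hk.1 hk.2 (prime_inv p).1 (prime_inv p).2).trans ?_
      have hk2 : k ^ 2 ≤ 1 := pow_le_one₀ hk.1.le hk.2
      have h0 : 0 ≤ (((p : ℕ) : ℝ)⁻¹) ^ 2 := by positivity
      nlinarith
  rw [tsum_zero] at hlog
  have h3 := (Real.continuous_exp.tendsto 0).comp hlog
  rw [Real.exp_zero] at h3
  refine h3.congr' ?_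
  filter_upwards [ev_pos] with k hk
  rw [aK_exp hk.1 hk.2]
  rfl

theorem cK_tendsto_one : Tendsto cK (𝓝[<] 1) (𝓝 1) := by
  have h3 := (aK_tendsto_one.mul (barnes_one.pow 2)).div barnes_two one_ne_zero
  simp only [one_mul, one_pow, div_one] at h3
  exact h3

/-! ### Zeta on the critical line -/

lemma half_ne_one (t : ℝ) : (1 / 2 + t * I : ℂ) ≠ 1 := by
  intro h
  have h1 := congrArg Complex.re h
  have h2 : (1 / 2 + t * I : ℂ).re = 1 / 2 := by simp
  rw [h2, Complex.one_re] at h1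
  norm_num at h1

lemma continuous_zeta : Continuous fun t : ℝ => riemannZeta (1 / 2 + t * I) := by
  rw [continuous_iff_continuousAt]
  intro t
  have h1 : ContinuousAt riemannZeta (1 / 2 + t * I) :=
    (differentiableAt_riemannZeta (half_ne_one t)).continuousAt
  exact ContinuousAt.comp (f := fun t : ℝ => (1 / 2 + t * I : ℂ)) h1 (by fun_prop)

lemma zeta_bound : ∃ C : ℝ, 1 ≤ C ∧ ∀ t : ℝ, ‖riemannZeta (1 / 2 + t * I)‖ ≤ C * (1 + |t|) ^ 2 := by
  obtain ⟨C, hC, h⟩ := zeta_growth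
  refine ⟨max 1 (2 * C), le_max_left _ _, fun t => ?_⟩
  have h1 := h (1 / 2 + t * I) (by simp; norm_num) (by simp; norm_num)
  have him : (1 / 2 + t * I : ℂ).im = t := by simp
  rw [him] at h1
  rw [riemannZeta_eq_inv_sub_mul (half_ne_one t), norm_mul, norm_inv]
  have h2 : 1 / 2 ≤ ‖(1 / 2 + t * I : ℂ) - 1‖ := by
    have h3 := Complex.abs_re_le_norm ((1 / 2 + t * I : ℂ) - 1)
    have h4 : ((1 / 2 + t * I : ℂ) - 1).re = -(1 / 2) := by simp; norm_num
    rw [h4, abs_neg, abs_of_pos (by norm_num)] at h3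
    exact h3
  have h5 : ‖(1 / 2 + t * I : ℂ) - 1‖⁻¹ ≤ 2 := by
    rw [inv_le_comm₀ (by linarith) (by norm_num)]
    linarith
  have h6 : 0 ≤ (1 + |t|) ^ 2 := by positivity
  calc ‖(1 / 2 + t * I : ℂ) - 1‖⁻¹ * ‖riemannZeta₁ (1 / 2 + t * I)‖ ≤ 2 * (C * (1 + |t|) ^ 2) := by
        gcongr
    _ = (2 * C) * (1 + |t|) ^ 2 := by ring
    _ ≤ max 1 (2 * C) * (1 + |t|) ^ 2 := mul_le_mul_of_nonneg_right (le_max_right _ _) h6

lemma rpow_bound {x : ℝ} {k y : ℝ} (hx0 : 0 ≤ x) (hx : x ≤ y) (hy : 1 ≤ y) (hk0 : 0 < k) (hk : k ≤ 1) :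
    x ^ (2 * k) ≤ y ^ 2 := by
  calc x ^ (2 * k) ≤ y ^ (2 * k) := Real.rpow_le_rpow hx0 hx (by linarith)
    _ ≤ y ^ (2 : ℝ) := Real.rpow_le_rpow_of_exponent_le hy (by linarith)
    _ = y ^ 2 := by norm_cast

end K1.FinalK1

namespace K1

open FinalK1 MeasureTheory ProbabilityTheory Complex Filter Topology

/-- (23) the final theorem -/
theorem stFinal (h16 : StUpper) (h22 : StLower) (h21' : StAvgUp) : StFinal := by
  intro ε' hε'
  set e : ℝ := min ε' 1 / 8 with he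
  have hm : 0 < min ε' 1 := lt_min hε' one_pos
  have he0 : 0 < e := by rw [he]; positivity
  have he1 : e ≤ 1 / 8 := by
    have : min ε' 1 ≤ 1 := min_le_right _ _
    rw [he]; linarith
  have he2 : 4 * e ≤ ε' := by
    have : min ε' 1 ≤ ε' := min_le_left _ _
    rw [he]; linarith
  obtain ⟨hU1, C₂, T₂, hC₂, hT₂, hU2⟩ := h16
  obtain ⟨k₁, hk₁0, hk₁1, T₁, hT₁, hU⟩ := hU1 e he0
  obtain ⟨C₃, T₃, hC₃, hT₃, hA⟩ := h21'
  obtain ⟨k₂, hk₂0, hk₂1, T₄, hT₄, hLo⟩ := h22 e he0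
  obtain ⟨C₅, hC₅, hz⟩ := zeta_bound
  have hcK : ∀ᶠ k in 𝓝[<] (1 : ℝ), |cK k - 1| < e := by
    have := cK_tendsto_one.eventually (Metric.ball_mem_nhds (1 : ℝ) he0)
    filter_upwards [this] with k hk
    rwa [Real.dist_eq] at hk
  obtain ⟨k₃, hk₃, h3⟩ := mem_nhdsLT_iff_exists_Ioo_subset.mp hcK
  rw [Set.mem_Iio] at hk₃
  set C₆ : ℝ := max C₂ 1 with hC₆
  set K : ℝ := C₃ * (2 + C₆) / e with hK
  set T₀ : ℝ := max (max (max T₁ T₂) (max T₃ T₄)) (max (Real.exp (max K 1)) (2 * C₅)) with hT₀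
  refine ⟨max (max k₁ k₂) ((k₃ + 1) / 2), lt_of_lt_of_le hk₁0 ((le_max_left _ _).trans (le_max_left _ _)),
    max_lt (max_lt hk₁1 hk₂1) (by linarith), T₀, hT₁.trans (by simp [hT₀]), fun T hT k hk hk1 => ?_⟩
  simp only [hT₀, max_le_iff] at hT
  obtain ⟨⟨⟨hT1, hT2⟩, hT3, hT4⟩, hT5, hT6⟩ := hT
  simp only [max_le_iff] at hk
  obtain ⟨⟨hka, hkb⟩, hkc⟩ := hk
  have hk0 : 0 < k := by linarith
  have hT0 : 3 ≤ T := hT₁.trans hT1
  have hTpos : 0 < T := by linarith
  have hL1 : max K 1 ≤ Real.log T := by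
    rw [Real.le_log_iff_exp_le hTpos]; exact hT5
  have hLK : K ≤ Real.log T := (le_max_left _ _).trans hL1
  have hL : 1 ≤ Real.log T := (le_max_right _ _).trans hL1
  have hL0 : 0 < Real.log T := by linarith
  set Λ : ℝ := (Real.log T) ^ (k ^ 2) with hΛ
  have hΛ1 : 1 ≤ Λ := Real.one_le_rpow hL (by positivity)
  have hΛ0 : 0 < Λ := by linarith
  set F : ℝ → ℝ := fun t => ‖riemannZeta (1 / 2 + t * I)‖ ^ (2 * k) with hF
  have hFc : Continuous F := by
    apply (continuous_zeta.norm).rpow_const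
    intro t
    right
    linarith
  have hF0 : ∀ t, 0 ≤ F t := fun t => by positivity
  have hFb : ∀ t, F t ≤ T ^ 4 * (1 + |t|) ^ 4 := by
    intro t
    have h1 : (1 : ℝ) ≤ 1 + |t| := by linarith [abs_nonneg t]
    have h2 : 1 ≤ C₅ * (1 + |t|) ^ 2 := by
      have : (1 : ℝ) ≤ (1 + |t|) ^ 2 := one_le_pow₀ h1
      nlinarith
    have h3 := rpow_bound (norm_nonneg _) (hz t) h2 hk0 hk1
    refine h3.trans ?_
    rw [mul_pow, ← pow_mul]
    have h4 : C₅ ^ 2 ≤ T ^ 4 := by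
      have h5 : C₅ ≤ T := by linarith
      have h6 : C₅ ^ 2 ≤ T ^ 2 := pow_le_pow_left₀ (by linarith) h5 2
      have h7 : T ^ 2 ≤ T ^ 4 := pow_le_pow_right₀ (by linarith) (by norm_num)
      linarith
    exact mul_le_mul_of_nonneg_right h4 (by positivity)
  have hC61 : 1 ≤ C₆ := le_max_right _ _
  have hC62 : C₂ ≤ C₆ := le_max_left _ _
  have hup := hA T hT3 F hFc hF0 hFb ((1 + e) * Λ) (C₆ * Λ) (by positivity) (by nlinarith)
    (fun τ h1 h2 => hU T hT1 k hka hk1 τ h1 h2)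
    (fun τ h1 => by
      have h2 := hU2 T hT2 k hk0 hk1 τ (h1.trans (by linarith))
      exact h2.trans (mul_le_mul_of_nonneg_right hC62 hΛ0.le))
  have hlo := hLo T hT4 k hkb hk1
  set X : ℝ := T⁻¹ * ∫ t in (0 : ℝ)..T, ‖riemannZeta (1 / 2 + t * I)‖ ^ (2 * k) with hX
  have hup' : X ≤ (1 + 2 * e) * Λ := by
    have h1 : C₃ * ((1 + e) * Λ + C₆ * Λ) / Real.log T ≤ e * Λ := by
      rw [div_le_iff₀ hL0]
      have h2 : C₃ * (2 + C₆) ≤ e * Real.log T := by
        rw [hK, div_le_iff₀ he0] at hLK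
        linarith
      calc C₃ * ((1 + e) * Λ + C₆ * Λ) = C₃ * ((1 + e) + C₆) * Λ := by ring
        _ ≤ C₃ * (2 + C₆) * Λ := by
            apply mul_le_mul_of_nonneg_right _ hΛ0.le
            apply mul_le_mul_of_nonneg_left _ hC₃.le
            linarith
        _ ≤ (e * Real.log T) * Λ := mul_le_mul_of_nonneg_right h2 hΛ0.le
        _ = e * Λ * Real.log T := by ring
    have h3 : X ≤ (1 + e) * Λ + C₃ * ((1 + e) * Λ + C₆ * Λ) / Real.log T := hup
    linarith
  have hck : |cK k - 1| < e := by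
    rcases eq_or_lt_of_le hk1 with h | h
    · rw [h, cK_one, sub_self, abs_zero]; exact he0
    · exact h3 ⟨by linarith, h⟩
  have h6 := abs_lt.mp hck
  have hc0 : 0 < cK k := by linarith
  have hcΛ : 0 < cK k * Λ := mul_pos hc0 hΛ0
  have key : |X / (cK k * Λ) - 1| ≤ 4 * e := by
    rw [abs_le]
    constructor
    · rw [le_sub_iff_add_le, le_div_iff₀ hcΛ]
      have : (-(4 * e) + 1) * cK k ≤ 1 - e := by nlinarith
      calc (-(4 * e) + 1) * (cK k * Λ) = ((-(4 * e) + 1) * cK k) * Λ := by ring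
        _ ≤ (1 - e) * Λ := mul_le_mul_of_nonneg_right this hΛ0.le
        _ ≤ X := hlo
    · rw [sub_le_iff_le_add, div_le_iff₀ hcΛ]
      have : 1 + 2 * e ≤ (4 * e + 1) * cK k := by nlinarith
      calc X ≤ (1 + 2 * e) * Λ := hup'
        _ ≤ ((4 * e + 1) * cK k) * Λ := mul_le_mul_of_nonneg_right this hΛ0.le
        _ = (4 * e + 1) * (cK k * Λ) := by ring
  exact key.trans he2

end K1
end Pool.Agent.Lib.MP_973905_nt
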