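import Pool.Agent.Lib.MP_973905_nt.K1.Stmts
import Pool.Agent.Lib.MP_973905_nt.K1.FourierG
import Pool.Agent.Lib.MP_973905_nt.Fourth

/-! Module (19a): fourth power of the short sum in the random model. -/

namespace Pool.Agent.Lib.MP_973905_nt
namespace K1

open MeasureTheory ProbabilityTheory Complex Filter Topology

open FourG in
theorem stFourthR : StFourthR := by
  intro δ hδ hδ8
  obtain ⟨C, hC, core⟩ := XB.core4
  obtain ⟨q, hq0, hqint, hfb⟩ := fourier_bound4 (cut_Pb hδ)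
  set I₀ := ∫ ξ : ℝ, q ξ * (1 + |ξ|) ^ 48 with hI₀
  have hI₀0 : 0 ≤ I₀ := integral_nonneg fun ξ => mul_nonneg (hq0 ξ) (by positivity)
  obtain ⟨M₀, hM₀1, core⟩ := core 1 one_pos
  refine ⟨M₀, fun M hM => ?_⟩
  obtain ⟨T₀, hT₀3, core⟩ := core M hM
  refine ⟨Real.exp (C * M) * 8 ^ 48 * I₀ + 1, T₀, by positivity, hT₀3, ?_⟩
  intro T hT k hk0 hk1
  have hT1 : 1 < T := by linarith
  have hL : 0 < Real.log T := Real.log_pos hT1
  have hM1 : 1 ≤ M := hM₀1.trans hM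
  have hα : |k - 1| ≤ 1 := by rw [abs_le]; constructor <;> linarith
  have core := core T hT k hk0 hk1
  set L := Real.log T with hLdef
  set J := JJ T with hJ
  have hLk : 0 ≤ L ^ (k ^ 2) := Real.rpow_nonneg hL.le _
  set B : (ℕ → ℂ) → ℂ := fun f => NN T M (k - 1) (tw (1 / 2) f) * NN T M (-1) (tw (1 / 2) f) with hB
  have hBC1 : ∀ α : ℝ, |α| ≤ 1 → BC (SB T M J) (fun f => NN T M α (tw (1 / 2) f)) := by
    intro α hα
    have h1 := dp_prod (Finset.range (J + 1)) (fun j hj => Len.dp_Fc (M := M) (J := J) hT1 hM1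
      (show j ≤ J by rw [Finset.mem_range] at hj; omega) hα (Finset.range (J + 1)) ∅)
    have h2 := h1.twist (w := (1 / 2 : ℂ)) (by norm_num)
    exact h2.eval_XX
  have hBC : BC (SB T M J) B := (hBC1 _ hα).mul (hBC1 (-1) (by norm_num))
  obtain ⟨hf1, hf2⟩ := hfb (J + 2) (SB T M J) (blk_SB hT1 M J) T hT1
    (fun n h1 h2 => mem_factored hT1 M J h1 h2) (1 / 2) (by norm_num) B hBC
  have e0 : ER (SB T M J) (fun f => ‖SH δ T (tw (1 / 2) f)‖ ^ 4 * ‖NN T M (k - 1) (tw (1 / 2) f)‖ ^ 2 *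
      ‖NN T M (-1) (tw (1 / 2) f)‖ ^ 2) = ER (SB T M J) (fun f => ‖SG (Pb δ) T (tw ((1 / 2 : ℝ) : ℂ) f)‖ ^ 4 *
      ‖B f‖ ^ 2) := by
    congr 1
    funext f
    have e : ((1 / 2 : ℝ) : ℂ) = 1 / 2 := by push_cast; ring
    rw [hB, SG_Pb, norm_mul, mul_pow, mul_assoc, e]
  rw [e0]
  refine hf1.trans ?_
  have hpt : ∀ ξ : ℝ, q ξ * ER (SB T M J) (fun f =>
        ‖ZZ (UU (SB T M J)) (tw (((1 / 2 : ℝ) : ℂ) + (1 - 2 * Real.pi * ξ * I) / L) f)‖ ^ 4 *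
          ‖B f‖ ^ 2) ≤ q ξ * (1 + |ξ|) ^ 48 * (Real.exp (C * M) * 8 ^ 48 * L ^ (k ^ 2)) := by
    intro ξ
    rw [mul_assoc (q ξ) ((1 + |ξ|) ^ 48) _]
    apply mul_le_mul_of_nonneg_left _ (hq0 ξ)
    set z : ℂ := 1 - 2 * Real.pi * ξ * I with hz
    have hzre : z.re = 1 := by
      rw [hz]; simp
    have e1 : (((1 / 2 : ℝ) : ℂ) + z / L) = (1 / 2 : ℂ) + z / (L : ℂ) := by
      push_cast; ring
    have hzn : 1 + ‖z‖ ≤ 8 * (1 + |ξ|) := by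
      have h1 : ‖z‖ ≤ 1 + 2 * Real.pi * |ξ| := by
        rw [hz]
        refine (norm_sub_le _ _).trans ?_
        rw [norm_one, norm_mul, norm_I, mul_one, norm_mul, norm_real, norm_mul, norm_real]
        simp [abs_of_pos Real.pi_pos]
      have h2 := Real.pi_lt_d2
      have h3 : 0 ≤ |ξ| := abs_nonneg ξ
      have h4 : 2 * Real.pi * |ξ| ≤ 6.3 * |ξ| := by
        gcongr; linarith
      linarith
    have h5 := core z 0 0 le_rfl (by rw [hzre]; norm_num) (by norm_num) le_rfl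
    rw [e1]
    have e2 : (fun f => ‖ZZ (UU (SB T M J)) (tw ((1 / 2 : ℂ) + z / (L : ℂ)) f)‖ ^ 4 * ‖B f‖ ^ 2) =
        (fun f => ‖ZZ (UU (SB T M J)) (tw ((1 / 2 : ℂ) + z / (L : ℂ)) f)‖ ^ 4 *
          (‖AA T M J (-1) (Finset.range (J + 1)) ∅ (tw ((1 / 2 + 0 / L : ℝ) : ℂ) f)‖ ^ 2 *
          ‖AA T M J (k - 1) (Finset.range (J + 1)) ∅ (tw ((1 / 2 + 0 / L : ℝ) : ℂ) f)‖ ^ 2)) := by
      funext f
      have e : ((1 / 2 + 0 / L : ℝ) : ℂ) = 1 / 2 := by push_cast; ring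
      rw [hB, norm_mul, mul_pow, e, mul_comm (‖NN T M (k - 1) (tw (1 / 2) f)‖ ^ 2)]
      rfl
    rw [e2]
    refine h5.trans ?_
    have h6 : (1 + ‖z‖) ^ 48 ≤ 8 ^ 48 * (1 + |ξ|) ^ 48 := by
      rw [← mul_pow]
      exact pow_le_pow_left₀ (by positivity) hzn 48
    calc Real.exp (C * M) * (1 + ‖z‖) ^ 48 * (1 + 0) ^ 48 * L ^ (k ^ 2)
        ≤ Real.exp (C * M) * (8 ^ 48 * (1 + |ξ|) ^ 48) * (1 + 0) ^ 48 * L ^ (k ^ 2) := by gcongr
      _ = _ := by ring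
  have h7 : ∫ ξ : ℝ, q ξ * ER (SB T M J) (fun f =>
        ‖ZZ (UU (SB T M J)) (tw (((1 / 2 : ℝ) : ℂ) + (1 - 2 * Real.pi * ξ * I) / L) f)‖ ^ 4 *
          ‖B f‖ ^ 2) ≤ ∫ ξ : ℝ, q ξ * (1 + |ξ|) ^ 48 * (Real.exp (C * M) * 8 ^ 48 * L ^ (k ^ 2)) :=
    integral_mono hf2 ((hqint 48).mul_const _) hpt
  refine h7.trans ?_
  rw [integral_mul_const, ← hI₀]
  calc I₀ * (Real.exp (C * M) * 8 ^ 48 * L ^ (k ^ 2)) =
        (Real.exp (C * M) * 8 ^ 48 * I₀) * L ^ (k ^ 2) := by ring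
    _ ≤ _ := by
        gcongr
        linarith

end K1
end Pool.Agent.Lib.MP_973905_nt
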