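import Pool.Agent.Lib.MP_973905_nt.K1.RBound
import Pool.Agent.Lib.MP_973905_nt.Sharp

/-! Module (7): the left edge. -/

namespace Pool.Agent.Lib.MP_973905_nt
namespace K1
namespace Left

open MeasureTheory ProbabilityTheory Complex Filter Topology TSM

/-! ### Gaussian means: symmetries and tails -/

lemma EG_add (T τ y : ℝ) (F : ℝ → ℝ) : EG T τ (fun t => F (t + y)) = EG T (τ + y) F := by
  rw [Sharp.EG_shift, Sharp.EG_shift]
  refine integral_congr_ae (Filter.Eventually.of_forall fun x => ?_)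
  simp only
  congr 1
  ring

lemma EG_neg (T τ : ℝ) (F : ℝ → ℝ) : EG T τ (fun t => F (-t)) = EG T (-τ) F := by
  have h := gaussianReal_map_neg (μ := τ) (v := VV T)
  rw [EG, EG, ← h]
  have h2 : MeasurableEmbedding (fun x : ℝ => -x) := (Homeomorph.neg ℝ).measurableEmbedding
  rw [h2.integral_map]

lemma tail_le {T : ℝ} (hT : 1 ≤ T) :
    ∫ x, Set.indicator {x : ℝ | T ^ (955 / 1000 : ℝ) < |x|} (fun x => (1 + |x|) ^ 4) x
      ∂(gaussianReal 0 (VV T)) ≤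
      48 * 256 * 6 * (T ^ (1 / 1000 : ℝ)) ^ 3800 * Real.exp (-((T ^ (1 / 1000 : ℝ)) ^ 5 / 4)) := by
  have hT0 : 0 < T := by linarith
  set u : ℝ := T ^ (1 / 1000 : ℝ) with hu
  have hu1 : 1 ≤ u := Real.one_le_rpow hT (by norm_num)
  have hu0 : 0 < u := by linarith
  have hΔ : T ^ (955 / 1000 : ℝ) = u ^ 955 := by
    rw [hu, ← Real.rpow_natCast, ← Real.rpow_mul hT0.le]; norm_num
  have hV : (VV T : ℝ) = u ^ 1900 := by
    rw [VV_coe hT0.le, hu, ← Real.rpow_natCast, ← Real.rpow_mul hT0.le]; norm_num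
  rw [hΔ]
  set l : ℝ := (u ^ 950)⁻¹ / 4 with hl
  have hl0 : 0 < l := by positivity
  have hl1 : l ≤ 1 := by
    rw [hl]
    have : (u ^ 950)⁻¹ ≤ 1 := inv_le_one_of_one_le₀ (one_le_pow₀ hu1)
    linarith
  have hlΔ : l * u ^ 955 = u ^ 5 / 4 := by
    rw [hl]; field_simp
  have hlV : (VV T : ℝ) * (2 * l) ^ 2 / 2 = 1 / 8 := by
    rw [hV, hl]; field_simp; ring
  have hl4 : (l⁻¹) ^ 4 = 256 * u ^ 3800 := by
    rw [hl]; field_simp; ring
  have hpt : ∀ x : ℝ, Set.indicator {x : ℝ | u ^ 955 < |x|} (fun x => (1 + |x|) ^ 4) x ≤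
      24 * (l⁻¹) ^ 4 * Real.exp (1 - u ^ 5 / 4) * Real.exp ((2 * l) * |x|) := by
    intro x
    by_cases hx : x ∈ {x : ℝ | u ^ 955 < |x|}
    · rw [Set.indicator_of_mem hx]
      have hx' : u ^ 955 < |x| := hx
      have h2 := Real.pow_div_factorial_le_exp (l * (1 + |x|)) (by positivity) 4
      rw [div_le_iff₀ (by positivity), mul_pow] at h2
      have h3 : (1 + |x|) ^ 4 ≤ 24 * (l⁻¹) ^ 4 * Real.exp (l * (1 + |x|)) := by
        have h4 := mul_le_mul_of_nonneg_left h2 (show 0 ≤ (l⁻¹) ^ 4 by positivity)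
        rw [← mul_assoc, ← mul_pow, inv_mul_cancel₀ hl0.ne', one_pow, one_mul] at h4
        have h5 : ((Nat.factorial 4 : ℕ) : ℝ) = 24 := by norm_num [Nat.factorial]
        rw [h5] at h4
        linarith
      have h5 : Real.exp (l * (1 + |x|)) ≤ Real.exp (1 - u ^ 5 / 4) * Real.exp ((2 * l) * |x|) := by
        rw [← Real.exp_add]
        apply Real.exp_le_exp.mpr
        rw [← hlΔ]
        have := mul_le_mul_of_nonneg_left hx'.le hl0.le
        linarith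
      calc (1 + |x|) ^ 4 ≤ 24 * (l⁻¹) ^ 4 * Real.exp (l * (1 + |x|)) := h3
        _ ≤ 24 * (l⁻¹) ^ 4 * (Real.exp (1 - u ^ 5 / 4) * Real.exp ((2 * l) * |x|)) := by gcongr
        _ = _ := by ring
    · rw [Set.indicator_of_notMem hx]
      positivity
  have hint : Integrable (fun t : ℝ => Real.exp ((2 * l) * |t|)) (gaussianReal 0 (VV T)) := by
    refine ((integrable_exp_mul_gaussianReal (2 * l)).add
      (integrable_exp_mul_gaussianReal (-(2 * l)))).mono' (by fun_prop)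
      (Filter.Eventually.of_forall fun t => ?_)
    rw [Real.norm_eq_abs, abs_of_pos (Real.exp_pos _)]
    simp only [Pi.add_apply]
    rcases abs_cases t with ⟨h, _⟩ | ⟨h, _⟩ <;> rw [h]
    · linarith [Real.exp_pos (-(2 * l) * t)]
    · rw [mul_neg, neg_mul]; linarith [Real.exp_pos (2 * l * t)]
  have he : Real.exp 1 * Real.exp (1 / 8) ≤ 6 := by
    have h1 := Real.exp_one_lt_d9
    have h2 : Real.exp (1 / 8) ≤ 2 := by
      have h3 : Real.exp (1 / 8) ≤ Real.exp (Real.log 2) := by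
        apply Real.exp_le_exp.mpr
        have := Real.log_two_gt_d9
        linarith
      rwa [Real.exp_log (by norm_num)] at h3
    have h4 := Real.exp_pos 1
    have h5 := Real.exp_pos (1 / 8 : ℝ)
    nlinarith
  calc ∫ x, Set.indicator {x : ℝ | u ^ 955 < |x|} (fun x => (1 + |x|) ^ 4) x ∂(gaussianReal 0 (VV T))
      ≤ ∫ x : ℝ, 24 * (l⁻¹) ^ 4 * Real.exp (1 - u ^ 5 / 4) * Real.exp ((2 * l) * |x|)
          ∂(gaussianReal 0 (VV T)) := by
        apply integral_mono_of_nonneg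
        · exact Filter.Eventually.of_forall fun t =>
            Set.indicator_nonneg (fun t _ => by positivity) t
        · exact hint.const_mul _
        · exact Filter.Eventually.of_forall hpt
    _ = 24 * (l⁻¹) ^ 4 * Real.exp (1 - u ^ 5 / 4) *
          ∫ x : ℝ, Real.exp ((2 * l) * |x|) ∂(gaussianReal 0 (VV T)) := by
        rw [integral_const_mul]
    _ ≤ 24 * (l⁻¹) ^ 4 * Real.exp (1 - u ^ 5 / 4) *
          (2 * Real.exp ((2 * l) * |0| + VV T * (2 * l) ^ 2 / 2)) := by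
        gcongr
        exact integral_exp_abs_le 0 (VV T) (by positivity)
    _ = 48 * 256 * u ^ 3800 * (Real.exp (1 - u ^ 5 / 4) * Real.exp (1 / 8)) := by
        rw [hlV, hl4, abs_zero, mul_zero, zero_add]; ring
    _ = 48 * 256 * u ^ 3800 * ((Real.exp 1 * Real.exp (1 / 8)) * Real.exp (-(u ^ 5 / 4))) := by
        rw [← Real.exp_add, ← Real.exp_add, ← Real.exp_add]
        congr 2; ring
    _ ≤ 48 * 256 * u ^ 3800 * (6 * Real.exp (-(u ^ 5 / 4))) := by gcongr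
    _ = _ := by ring

lemma tail_ev (K : ℝ) (m : ℕ) : ∀ᶠ T : ℝ in atTop,
    K * T ^ m * ∫ x, Set.indicator {x : ℝ | T ^ (955 / 1000 : ℝ) < |x|} (fun x => (1 + |x|) ^ 4) x
      ∂(gaussianReal 0 (VV T)) ≤ 1 := by
  have h1 : Tendsto (fun T : ℝ => T ^ (1 / 1000 : ℝ)) atTop atTop :=
    tendsto_rpow_atTop (by norm_num)
  set K' : ℝ := |K| * (48 * 256 * 6) + 1 with hK'
  have hK0 : 0 < K' := by positivity
  have h2 : ∀ᶠ u : ℝ in atTop, K' * u ^ (1000 * m + 3800) ≤ Real.exp u := by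
    have := (Real.isLittleO_pow_exp_atTop (n := 1000 * m + 3800)).def (c := K'⁻¹) (by positivity)
    filter_upwards [this, eventually_ge_atTop 0] with u hu hu0
    rw [Real.norm_eq_abs, Real.norm_eq_abs, abs_of_nonneg (by positivity),
      abs_of_pos (Real.exp_pos _)] at hu
    have h3 := mul_le_mul_of_nonneg_left hu hK0.le
    rwa [← mul_assoc, mul_inv_cancel₀ hK0.ne', one_mul] at h3
  filter_upwards [h1.eventually h2, h1.eventually_ge_atTop 2, eventually_ge_atTop 1] with T hT hu2 hT1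
  have hT0 : 0 < T := by linarith
  have ht := tail_le hT1
  set q := ∫ x, Set.indicator {x : ℝ | T ^ (955 / 1000 : ℝ) < |x|} (fun x => (1 + |x|) ^ 4) x
      ∂(gaussianReal 0 (VV T)) with hq
  set u : ℝ := T ^ (1 / 1000 : ℝ) with hu
  have hu0 : 0 < u := by linarith
  have hTu : T = u ^ 1000 := by
    rw [hu, ← Real.rpow_natCast, ← Real.rpow_mul hT0.le]; norm_num
  have hq0 : 0 ≤ q := integral_nonneg fun x => Set.indicator_nonneg (fun t _ => by positivity) x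
  have h4 : Real.exp (-(u ^ 5 / 4)) ≤ (Real.exp u)⁻¹ := by
    rw [← Real.exp_neg]
    apply Real.exp_le_exp.mpr
    have : u * 4 ≤ u ^ 5 := by
      have h5 : 4 ≤ u ^ 4 := by
        calc (4 : ℝ) ≤ 2 ^ 4 := by norm_num
          _ ≤ u ^ 4 := by gcongr
      nlinarith
    linarith
  calc K * T ^ m * q ≤ |K| * T ^ m * q := by
        gcongr
        exact le_abs_self K
    _ ≤ |K| * T ^ m * (48 * 256 * 6 * u ^ 3800 * (Real.exp u)⁻¹) := by
        gcongr
        exact ht.trans (by gcongr)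
    _ = (|K| * (48 * 256 * 6)) * u ^ (1000 * m + 3800) * (Real.exp u)⁻¹ := by
        nth_rewrite 1 [hTu]
        rw [← pow_mul, pow_add]; ring
    _ ≤ K' * u ^ (1000 * m + 3800) * (Real.exp u)⁻¹ := by
        gcongr
        rw [hK']; linarith
    _ ≤ Real.exp u * (Real.exp u)⁻¹ := by gcongr
    _ = 1 := mul_inv_cancel₀ (Real.exp_pos _).ne'

/-! ### Mean squares of zeta -/

lemma zt_six : ∃ C : ℝ, 1 ≤ C ∧ ∀ t : ℝ, ‖zt ((6 : ℝ) + t * I)‖ ≤ C := by
  have hsum : Summable (fun n : ℕ => 1 / (n : ℝ) ^ (6 : ℝ)) :=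
    Real.summable_one_div_nat_rpow.2 (by norm_num)
  have h0 : 0 ≤ ∑' n : ℕ, 1 / (n : ℝ) ^ (6 : ℝ) := tsum_nonneg fun n => by positivity
  refine ⟨∑' n : ℕ, 1 / (n : ℝ) ^ (6 : ℝ) + 1, by linarith, fun t => ?_⟩
  set s : ℂ := (6 : ℝ) + t * I with hs
  have hre : s.re = 6 := line_re _ _
  have hz : riemannZeta s = ∑' n : ℕ, 1 / (n : ℂ) ^ s :=
    zeta_eq_tsum_one_div_nat_cpow (by rw [hre]; norm_num)
  have n1 : s ≠ 1 := by
    intro h; rw [h] at hre; simp at hre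
  have n2 : s ≠ -1 := by
    intro h; rw [h] at hre; simp at hre; norm_num at hre
  have hn : ∀ n : ℕ, ‖1 / (n : ℂ) ^ s‖ = 1 / (n : ℝ) ^ (6 : ℝ) := by
    intro n
    rw [norm_div, norm_one, norm_natCast_cpow_of_re_ne_zero n (by rw [hre]; norm_num), hre]
  have h1 : ‖riemannZeta s‖ ≤ ∑' n : ℕ, 1 / (n : ℝ) ^ (6 : ℝ) := by
    rw [hz]
    have h2 : Summable (fun n : ℕ => ‖1 / (n : ℂ) ^ s‖) := by simpa only [hn] using hsum
    refine (norm_tsum_le_tsum_norm h2).trans (le_of_eq ?_)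
    simp only [hn]
  rw [zeta_eq_zt n1 n2, norm_mul]
  calc ‖kp s‖ * ‖riemannZeta s‖ ≤ 1 * ∑' n : ℕ, 1 / (n : ℝ) ^ (6 : ℝ) :=
        mul_le_mul (norm_kp_le (by rw [hre]; norm_num)) h1 (norm_nonneg _) zero_le_one
    _ ≤ _ := by linarith

lemma mean_half : ∃ C : ℝ, 1 ≤ C ∧ ∃ T₀ : ℝ, 3 ≤ T₀ ∧ ∀ T, T₀ ≤ T → ∀ τ : ℝ, |τ| ≤ 2 * T →
    MM T τ (fun s => zt s * zt s) (1 / 2) ≤ C * Real.log T := by
  obtain ⟨C₁, hC₁, T₁, hT₁, h1⟩ := RBound.lineHalf
  obtain ⟨C₂, hC₂, T₂, hT₂, h2⟩ := RBound.meanS 1 one_pos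
  refine ⟨2 * C₁ + 2 * C₂ + 2, by linarith, max T₁ T₂, hT₁.trans (le_max_left _ _),
    fun T hT τ hτ => ?_⟩
  have hTT₁ : T₁ ≤ T := (le_max_left _ _).trans hT
  have hTT₂ : T₂ ≤ T := (le_max_right _ _).trans hT
  have hT1 : 1 < T := by linarith
  have hT0 : 0 < T := by linarith
  have hL1 : 1 ≤ Real.log T := by
    rw [Real.le_log_iff_exp_le hT0]
    have := Real.exp_one_lt_d9
    linarith
  have a1 := h1 T hTT₁ τ hτ
  have a2 := h2 T hTT₂ τ 0 le_rfl zero_le_one 0 le_rfl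
  have e0 : (1 / 2 + 0 / Real.log T : ℝ) = 1 / 2 := by simp
  simp only [e0, norm_one, one_pow, mul_one] at a2
  have pS : IngM.PG (fun t => SS T (fs (((1 / 2 : ℝ) : ℂ) + t * I))) :=
    IngM.DP.pg (dp_SS hT1) (Real.one_le_rpow hT1.le (by norm_num)) (by norm_num)
  have pz : IngM.PG (fun t => zt (((1 / 2 : ℝ) : ℂ) + t * I)) :=
    IngM.pg_of_nice nice_zt (by norm_num) (by norm_num)
  have pk : IngM.PG (fun t => kp (((1 / 2 : ℝ) : ℂ) + t * I)) :=
    IngM.pg_of_nice nice_kp (by norm_num) (by norm_num)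
  have i1 := (pz.sub (pk.mul pS)).integrable_sq τ (VV T)
  have i2 := pS.integrable_sq τ (VV T)
  have key : MM T τ (fun s => zt s * zt s) (1 / 2) ≤
      ∫ t : ℝ, (2 * ‖zt (((1 / 2 : ℝ) : ℂ) + t * I) - kp (((1 / 2 : ℝ) : ℂ) + t * I) *
        SS T (fs (((1 / 2 : ℝ) : ℂ) + t * I))‖ ^ 2 +
        2 * ‖SS T (fs (((1 / 2 : ℝ) : ℂ) + t * I))‖ ^ 2) ∂(gaussianReal τ (VV T)) := by
    refine integral_mono_of_nonneg (Filter.Eventually.of_forall fun t => norm_nonneg _)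
      ((i1.const_mul 2).add (i2.const_mul 2)) (Filter.Eventually.of_forall fun t => ?_)
    simp only
    rw [norm_mul, ← sq]
    refine (sq_le_sub _ (kp (((1 / 2 : ℝ) : ℂ) + t * I) *
      SS T (fs (((1 / 2 : ℝ) : ℂ) + t * I)))).trans ?_
    gcongr
    rw [norm_mul]
    have := norm_kp_le (s := ((1 / 2 : ℝ) : ℂ) + t * I) (by rw [line_re]; norm_num)
    have hn := norm_nonneg (SS T (fs (((1 / 2 : ℝ) : ℂ) + t * I)))
    nlinarith
  refine key.trans ?_
  rw [integral_add (i1.const_mul 2) (i2.const_mul 2), integral_const_mul, integral_const_mul]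
  have h3 : 1 / T ≤ 1 := by rw [div_le_one hT0]; exact hT1.le
  have a1' : ∫ t : ℝ, ‖zt (((1 / 2 : ℝ) : ℂ) + t * I) - kp (((1 / 2 : ℝ) : ℂ) + t * I) *
        SS T (fs (((1 / 2 : ℝ) : ℂ) + t * I))‖ ^ 2 ∂(gaussianReal τ (VV T)) ≤ C₁ * Real.log T := a1
  have a2' : ∫ t : ℝ, ‖SS T (fs (((1 / 2 : ℝ) : ℂ) + t * I))‖ ^ 2 ∂(gaussianReal τ (VV T)) ≤
      C₂ * Real.log T + 1 / T := a2
  nlinarith

lemma mean_zeta : ∃ C : ℝ, 1 ≤ C ∧ ∃ T₀ : ℝ, 3 ≤ T₀ ∧ ∀ T, T₀ ≤ T → ∀ τ : ℝ, |τ| ≤ 2 * T →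
    ∀ δ : ℝ, 0 ≤ δ → δ ≤ 1 / 4 →
    EG T τ (fun t => ‖riemannZeta (((1 / 2 + δ : ℝ) : ℂ) + t * I)‖ ^ 2) ≤ C * Real.log T := by
  obtain ⟨C, hC, T₀, hT₀, hA⟩ := mean_half
  obtain ⟨Z, hZ, hZ6⟩ := zt_six
  have hCZ : 1 ≤ 49 * (2 * C * Z ^ 2) := by
    have h1 : 1 ≤ Z ^ 2 := one_le_pow₀ hZ
    nlinarith
  refine ⟨49 * (2 * C * Z ^ 2), hCZ, max T₀ 12,
    hT₀.trans (le_max_left _ _), fun T hT τ hτ δ hδ0 hδ1 => ?_⟩
  have hTT₀ : T₀ ≤ T := (le_max_left _ _).trans hT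
  have hT12 : 12 ≤ T := (le_max_right _ _).trans hT
  have hT1 : 1 < T := by linarith
  have hT0 : 0 < T := by linarith
  have hL : 0 < Real.log T := Real.log_pos hT1
  have hL1 : 1 ≤ Real.log T := by
    rw [Real.le_log_iff_exp_le hT0]
    have := Real.exp_one_lt_d9
    linarith
  have hf : Nice (fun s => zt s * zt s) := nice_zt.mul nice_zt
  have h6 : MM T τ (fun s => zt s * zt s) 6 ≤ Z ^ 2 * T ^ (-(0 : ℝ)) := by
    rw [neg_zero, Real.rpow_zero, mul_one]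
    apply mm_le_const hf (by norm_num) (by norm_num)
    intro t
    rw [norm_mul, sq]
    have := hZ6 t
    exact mul_le_mul this this (norm_nonneg _) (by linarith)
  have hint := interp hf (T := T) (τ := τ) (c := δ * Real.log T) (A := C * Real.log T)
    (C := Z ^ 2) (ρ := 0) (κ := 0) hT12 (by positivity) (by nlinarith)
    (by rw [neg_zero, Real.rpow_zero]; nlinarith) (by nlinarith) (hA T hTT₀ τ hτ) h6
  have e1 : (1 / 2 + δ * Real.log T / Real.log T : ℝ) = 1 / 2 + δ := by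
    field_simp
  rw [e1] at hint
  have e2 : Real.exp (-((0 - 0) * (δ * Real.log T) / (11 / 2))) = 1 := by simp
  rw [e2, mul_one] at hint
  have hpt : ∀ t : ℝ, ‖riemannZeta (((1 / 2 + δ : ℝ) : ℂ) + t * I)‖ ^ 2 ≤
      49 * ‖zt (((1 / 2 + δ : ℝ) : ℂ) + t * I) * zt (((1 / 2 + δ : ℝ) : ℂ) + t * I)‖ := by
    intro t
    have h := IngM.pt_zeta_SS (s := ((1 / 2 + δ : ℝ) : ℂ) + t * I) (by rw [line_re]; linarith)
      (by rw [line_re]; linarith) 0
    rw [mul_zero, sub_zero, sub_zero] at h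
    rw [norm_mul, ← sq]
    exact h
  have hint2 : Integrable (fun t : ℝ => 49 * ‖zt (((1 / 2 + δ : ℝ) : ℂ) + t * I) *
      zt (((1 / 2 + δ : ℝ) : ℂ) + t * I)‖) (gaussianReal τ (VV T)) :=
    (hf.integrable τ (VV T) (by linarith) (by linarith)).const_mul 49
  calc EG T τ (fun t => ‖riemannZeta (((1 / 2 + δ : ℝ) : ℂ) + t * I)‖ ^ 2)
      ≤ 49 * MM T τ (fun s => zt s * zt s) (1 / 2 + δ) := by
        unfold MM EG
        rw [← integral_const_mul]
        exact integral_mono_of_nonneg (Filter.Eventually.of_forall fun t => by positivity) hint2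
          (Filter.Eventually.of_forall hpt)
    _ ≤ 49 * (2 * (C * Real.log T) * Z ^ 2) := by gcongr
    _ = _ := by ring

/-! ### Growth and continuity of zeta near the critical line -/

lemma zeta_quarter : ∃ C : ℝ, 1 ≤ C ∧ ∀ s : ℂ, 1 / 4 ≤ s.re → s.re ≤ 3 / 4 →
    ‖riemannZeta s‖ ≤ C * (1 + |s.im|) ^ 2 := by
  obtain ⟨C, hC, h⟩ := zeta_growth
  refine ⟨4 * C + 1, by linarith, fun s h1 h2 => ?_⟩
  have hs1 : s ≠ 1 := by
    intro h
    rw [h] at h2
    simp at h2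
    linarith
  have h3 := h s (by linarith) (by linarith)
  rw [riemannZeta_eq_inv_sub_mul hs1, norm_mul, norm_inv]
  have h4 : 1 / 4 ≤ ‖s - 1‖ := by
    have h5 := abs_re_le_norm (s - 1)
    have h6 : (s - 1).re = s.re - 1 := by simp
    rw [h6, abs_of_nonpos (by linarith)] at h5
    linarith
  have h7 : ‖s - 1‖⁻¹ ≤ 4 := by
    rw [inv_le_comm₀ (by linarith) (by norm_num)]; linarith
  have h8 : 0 ≤ (1 + |s.im|) ^ 2 := by positivity
  calc ‖s - 1‖⁻¹ * ‖riemannZeta₁ s‖ ≤ 4 * (C * (1 + |s.im|) ^ 2) := by gcongr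
    _ ≤ _ := by nlinarith

/-- growth constant on lines -/
lemma zeta_line {C : ℝ} (hC : ∀ s : ℂ, 1 / 4 ≤ s.re → s.re ≤ 3 / 4 →
    ‖riemannZeta s‖ ≤ C * (1 + |s.im|) ^ 2) (hC0 : 1 ≤ C) {a : ℂ} (ha : |a.re| ≤ 1 / 4) (σ : ℝ)
    (hσ : |σ| = 1) (t : ℝ) :
    ‖riemannZeta (1 / 2 + a + (σ * t : ℝ) * I)‖ ≤ C * (1 + |a.im|) ^ 2 * (1 + |t|) ^ 2 := by
  have hre : (1 / 2 + a + (σ * t : ℝ) * I : ℂ).re = 1 / 2 + a.re := by simp
  have him : (1 / 2 + a + (σ * t : ℝ) * I : ℂ).im = a.im + σ * t := by simp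
  obtain ⟨h1, h2⟩ := abs_le.1 ha
  refine (hC _ (by rw [hre]; linarith) (by rw [hre]; linarith)).trans ?_
  rw [him, mul_assoc, ← mul_pow]
  have h3 : |a.im + σ * t| ≤ |a.im| + |t| := by
    refine (abs_add_le _ _).trans ?_
    rw [abs_mul, hσ, one_mul]
  have h4 : 1 + |a.im + σ * t| ≤ (1 + |a.im|) * (1 + |t|) := by
    nlinarith [mul_nonneg (abs_nonneg a.im) (abs_nonneg t)]
  gcongr

lemma cont_line {a : ℂ} (ha : |a.re| ≤ 1 / 4) (σ : ℝ) :
    Continuous fun t : ℝ => riemannZeta (1 / 2 + a + (σ * t : ℝ) * I) := by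
  refine continuous_iff_continuousAt.mpr fun t => ?_
  have h1 : (1 / 2 + a + (σ * t : ℝ) * I : ℂ) ≠ 1 := by
    intro h
    have hre : (1 / 2 + a + (σ * t : ℝ) * I : ℂ).re = 1 / 2 + a.re := by simp
    rw [h, one_re] at hre
    obtain ⟨h1, h2⟩ := abs_le.1 ha
    linarith
  have h2 : ContinuousAt (fun t : ℝ => (1 / 2 + a + (σ * t : ℝ) * I : ℂ)) t := by fun_prop
  exact ContinuousAt.comp (f := fun t : ℝ => (1 / 2 + a + (σ * t : ℝ) * I : ℂ)) (g := riemannZeta)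
    (differentiableAt_riemannZeta h1).continuousAt h2

lemma pg_line {a : ℂ} (ha : |a.re| ≤ 1 / 4) (σ : ℝ) (hσ : |σ| = 1) :
    IngM.PG fun t : ℝ => riemannZeta (1 / 2 + a + (σ * t : ℝ) * I) := by
  obtain ⟨C, hC1, hC⟩ := zeta_quarter
  exact ⟨cont_line ha σ, C * (1 + |a.im|) ^ 2, 2, by positivity, fun t =>
    zeta_line hC hC1 ha σ hσ t⟩

/-! ### Powers -/

lemma log_ratio {t τ : ℝ} (hτ : 0 < |τ|) (h : |t - τ| ≤ |τ| / 2) :
    |τ| / 2 ≤ |t| ∧ |t| ≤ 3 / 2 * |τ| ∧ |Real.log (|t| / |τ|)| ≤ 2 * (|t - τ| / |τ|) := by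
  have h1 : |(|t| - |τ|)| ≤ |t - τ| := abs_abs_sub_abs_le_abs_sub t τ
  obtain ⟨h2, h3⟩ := abs_le.1 (h1.trans h)
  have ht : 0 < |t| := by linarith
  refine ⟨by linarith, by linarith, ?_⟩
  set r := |t| / |τ| with hr
  have hr1 : 1 / 2 ≤ r := by
    rw [hr, le_div_iff₀ hτ]; linarith
  have hr0 : 0 < r := by linarith
  have h4 : |r - 1| ≤ |t - τ| / |τ| := by
    have : r - 1 = (|t| - |τ|) / |τ| := by rw [hr]; field_simp
    rw [this, abs_div, abs_abs]
    gcongr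
  have h5 := Real.log_le_sub_one_of_pos hr0
  have h6 := Real.one_sub_inv_le_log_of_pos hr0
  have h7 : 1 - r⁻¹ = (r - 1) / r := by field_simp
  have h8 : -(2 * |r - 1|) ≤ (r - 1) / r := by
    rw [le_div_iff₀ hr0]
    rcases le_total (r - 1) 0 with h | h
    · rw [abs_of_nonpos h]; nlinarith
    · rw [abs_of_nonneg h]; nlinarith
  have h9 : 0 ≤ |r - 1| := abs_nonneg _
  rw [abs_le]
  constructor
  · linarith
  · have := le_abs_self (r - 1)
    linarith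

lemma cpow_diff {t τ : ℝ} {b : ℂ} (hτ : 0 < |τ|) (ht : |t - τ| ≤ |τ| / 2)
    (hb : 4 * ‖b‖ * (|t - τ| / |τ|) ≤ 1) :
    ‖((|t| / (2 * Real.pi) : ℝ) : ℂ) ^ (2 * b) - ((|τ| / (2 * Real.pi) : ℝ) : ℂ) ^ (2 * b)‖ ≤
      (|τ| / (2 * Real.pi)) ^ (2 * b.re) * (8 * ‖b‖ * (|t - τ| / |τ|)) := by
  obtain ⟨h1, h2, h3⟩ := log_ratio hτ ht
  have ht0 : 0 < |t| := by linarith
  have hr0 : 0 < |t| / |τ| := by positivity
  have h2pi : (0 : ℝ) < 2 * Real.pi := by positivity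
  have e1 : ((|t| / (2 * Real.pi) : ℝ) : ℂ) ^ (2 * b) =
      ((|τ| / (2 * Real.pi) : ℝ) : ℂ) ^ (2 * b) * exp (2 * b * (Real.log (|t| / |τ|) : ℝ)) := by
    have : (|t| / (2 * Real.pi) : ℝ) = (|τ| / (2 * Real.pi)) * (|t| / |τ|) := by field_simp
    rw [this, ofReal_mul, mul_cpow_ofReal_nonneg (by positivity) hr0.le]
    congr 1
    rw [cpow_def_of_ne_zero (by exact_mod_cast hr0.ne'), ← ofReal_log hr0.le]
    congr 1
    ring
  have e2 : ‖((|τ| / (2 * Real.pi) : ℝ) : ℂ) ^ (2 * b)‖ = (|τ| / (2 * Real.pi)) ^ (2 * b.re) := by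
    rw [norm_cpow_eq_rpow_re_of_pos (by positivity)]
    simp
  have h4 : ‖2 * b * (Real.log (|t| / |τ|) : ℝ)‖ ≤ 4 * ‖b‖ * (|t - τ| / |τ|) := by
    rw [norm_mul, norm_mul, norm_real, Real.norm_eq_abs]
    have : ‖(2 : ℂ)‖ = 2 := by simp
    rw [this]
    calc 2 * ‖b‖ * |Real.log (|t| / |τ|)| ≤ 2 * ‖b‖ * (2 * (|t - τ| / |τ|)) := by gcongr
      _ = _ := by ring
  have h5 := norm_exp_sub_one_le (h4.trans hb)
  rw [e1, ← mul_sub_one, norm_mul, e2]
  have h6 : 0 ≤ (|τ| / (2 * Real.pi)) ^ (2 * b.re) := by positivity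
  gcongr
  linarith

end Left

open Left TSM MeasureTheory ProbabilityTheory Complex Filter Topology in
theorem stLeft (h1 : StFFpair) (_ : StRBound) : StLeft := by
  obtain ⟨C, hC1, hFF⟩ := h1
  obtain ⟨C₅, hC₅, T₁, hT₁, hmean⟩ := mean_zeta
  obtain ⟨Cz, hCz1, hCz⟩ := zeta_quarter
  set K : ℝ := 4 * (2 * C + 8) * C₅ with hK
  have hK0 : 0 < K := by positivity
  have hx : Tendsto (fun T : ℝ => T ^ (1 / 1000 : ℝ)) atTop atTop :=
    tendsto_rpow_atTop (by norm_num)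
  have hlog : ∀ᶠ T : ℝ in atTop, Real.log T ≤ T ^ (1 / 1000 : ℝ) := by
    have := (isLittleO_log_rpow_atTop (r := 1 / 1000) (by norm_num)).def (c := 1) one_pos
    filter_upwards [this, eventually_ge_atTop 1] with T h hT
    rw [one_mul, Real.norm_eq_abs, Real.norm_eq_abs, abs_of_nonneg (Real.log_nonneg hT),
      abs_of_nonneg (by positivity)] at h
    exact h
  have hev : ∀ᶠ T : ℝ in atTop, Real.log T ≤ T ^ (1 / 1000 : ℝ) ∧
      max (18 * C + 9) (K + 1) ≤ T ^ (1 / 1000 : ℝ) ∧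
      (2592 * Cz ^ 2) * T ^ 10 *
        ∫ x, Set.indicator {x : ℝ | T ^ (955 / 1000 : ℝ) < |x|} (fun x => (1 + |x|) ^ 4) x
      ∂(gaussianReal 0 (VV T)) ≤ 1 := by
    filter_upwards [hlog, hx.eventually_ge_atTop _, tail_ev (2592 * Cz ^ 2) 10] with T a b c
    exact ⟨a, b, c⟩
  obtain ⟨T₂, hT₂⟩ := eventually_atTop.1 hev
  refine ⟨max T₁ T₂, hT₁.trans (le_max_left _ _), fun T hT τ hτ1 hτ2 G hG a ha hay => ?_⟩
  have hTT₁ : T₁ ≤ T := (le_max_left _ _).trans hT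
  obtain ⟨hlogx, hxx, htail⟩ := hT₂ T ((le_max_right _ _).trans hT)
  have hT3 : 3 ≤ T := hT₁.trans hTT₁
  have hT1 : 1 < T := by linarith
  have hT0 : 0 < T := by linarith
  have hL1 : 1 ≤ Real.log T := by
    rw [Real.le_log_iff_exp_le hT0]
    have := Real.exp_one_lt_d9
    linarith
  have hL0 : 0 < Real.log T := by linarith
  set x : ℝ := T ^ (1 / 1000 : ℝ) with hxdef
  have hx0 : 0 < x := by positivity
  have hx1 : 1 ≤ x := Real.one_le_rpow hT1.le (by norm_num)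
  have hxC : 18 * C + 9 ≤ x := (le_max_left _ _).trans hxx
  have hxK : K + 1 ≤ x := (le_max_right _ _).trans hxx
  have hTx : T = x ^ 1000 := by
    rw [hxdef, ← Real.rpow_natCast, ← Real.rpow_mul hT0.le]; norm_num
  have hpw : ∀ k : ℕ, T ^ ((k : ℝ) / 1000) = x ^ k := by
    intro k
    rw [hxdef, ← Real.rpow_natCast, ← Real.rpow_mul hT0.le]
    congr 1
    ring
  have p955 : T ^ (955 / 1000 : ℝ) = x ^ 955 := by have := hpw 955; exact_mod_cast this
  have p10 : T ^ (1 / 100 : ℝ) = x ^ 10 := by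
    have := hpw 10
    rw [← this]; norm_num
  have p22 : T ^ (22 / 1000 : ℝ) = x ^ 22 := by have := hpw 22; exact_mod_cast this
  have p60 : T ^ (6 / 100 : ℝ) = x ^ 60 := by
    have := hpw 60
    rw [← this]; norm_num
  rw [p10] at hay
  rw [p22]
  -- the shift
  set b : ℂ := -a with hb
  have hbre : b.re = 3 / 100 := by rw [hb, neg_re, ha]; norm_num
  have hbim : |b.im| = |a.im| := by rw [hb, neg_im, abs_neg]
  have hbn : ‖b‖ ≤ 3 / 100 + |a.im| := by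
    have := Complex.norm_le_abs_re_add_abs_im b
    rw [hbre, hbim, abs_of_pos (by norm_num)] at this
    exact this
  have hbn0 := norm_nonneg b
  have hy0 := abs_nonneg a.im
  have hare : |a.re| ≤ 1 / 4 := by rw [ha, abs_neg, abs_of_pos] <;> norm_num
  have hbre4 : |b.re| ≤ 1 / 4 := by rw [hbre, abs_of_pos] <;> norm_num
  have hx10 : 1 ≤ x ^ 10 := one_le_pow₀ hx1
  have hbn2 : 1 + ‖b‖ ≤ 3 * x ^ 10 := by linarith
  have hTL : T / Real.log T ≤ |τ| := hτ1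
  have hτ0 : 0 < |τ| := lt_of_lt_of_le (by positivity) hτ1
  -- numeric facts
  have hx2 : 2 ≤ x := by linarith
  have hTL2 : x ^ 999 ≤ T / Real.log T := by
    rw [le_div_iff₀ hL0]
    calc x ^ 999 * Real.log T ≤ x ^ 999 * x := by gcongr
      _ = T := by rw [hTx]; ring
  have hτx : x ^ 999 ≤ |τ| := hTL2.trans hTL
  have hΔ2 : x ^ 955 ≤ |τ| / 2 := by
    have : 2 * x ^ 955 ≤ x ^ 999 := by
      have h2 : (2 : ℝ) ≤ x ^ 44 := le_trans hx2 (le_self_pow₀ hx1 (by norm_num))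
      calc 2 * x ^ 955 ≤ x ^ 44 * x ^ 955 := by gcongr
        _ = x ^ 999 := by ring
    linarith
  have hCb : C * (1 + ‖b‖) ^ 2 ≤ |τ| / 2 := by
    have h2 : C * (1 + ‖b‖) ^ 2 ≤ C * (3 * x ^ 10) ^ 2 := by gcongr
    have h3 : 2 * (C * (3 * x ^ 10) ^ 2) ≤ x ^ 999 := by
      calc 2 * (C * (3 * x ^ 10) ^ 2) = (18 * C) * x ^ 20 := by ring
        _ ≤ x * x ^ 20 := by gcongr; linarith
        _ = x ^ 21 := by ring
        _ ≤ x ^ 999 := pow_le_pow_right₀ hx1 (by norm_num)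
    linarith
  -- the functions
  set g : ℝ → ℂ := fun t => G (fs (1 / 2 + t * I)) * (starRingEnd ℂ) (G (fs (1 / 2 + t * I))) with hg
  have hGn : ∀ t : ℝ, ‖G (fs (1 / 2 + t * I))‖ ≤ x := by
    intro t
    obtain ⟨g₁, _, _, _, hgs, _, hgM, _⟩ := dp_poly hG (Real.one_le_rpow hT1.le (by norm_num))
    rw [hgs]
    exact hgM _ (by simp)
  have hgn : ∀ t : ℝ, ‖g t‖ ≤ x ^ 2 := by
    intro t
    simp only [hg]
    rw [norm_mul, norm_conj, sq]
    exact mul_le_mul (hGn t) (hGn t) (norm_nonneg _) hx0.le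
  have pgG : IngM.PG g := by
    have h := IngM.DP.pg hG (Real.one_le_rpow hT1.le (by norm_num)) (σ := 1 / 2) (by norm_num)
    have h2 : IngM.PG (fun t : ℝ => G (fs (1 / 2 + t * I))) := by
      refine (congrArg IngM.PG (funext fun t => ?_)).mp h
      push_cast
      rfl
    exact h2.mul h2.conj
  have plus : ∀ (c : ℂ) (t : ℝ), (1 / 2 + c + ((1 : ℝ) * t : ℝ) * I : ℂ) = 1 / 2 + c + t * I := by
    intro c t; push_cast; ring
  have minus : ∀ (c : ℂ) (t : ℝ), (1 / 2 + c + ((-1 : ℝ) * t : ℝ) * I : ℂ) = 1 / 2 + c - t * I := by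
    intro c t; push_cast; ring
  have pgP : ∀ c : ℂ, |c.re| ≤ 1 / 4 → IngM.PG (fun t : ℝ => riemannZeta (1 / 2 + c + t * I)) := by
    intro c hc
    have := pg_line hc 1 (by simp)
    simpa only [plus] using this
  have pgM : ∀ c : ℂ, |c.re| ≤ 1 / 4 → IngM.PG (fun t : ℝ => riemannZeta (1 / 2 + c - t * I)) := by
    intro c hc
    have := pg_line hc (-1) (by simp)
    simpa only [minus] using this
  have grP : ∀ c : ℂ, |c.re| ≤ 1 / 4 → ∀ t : ℝ, ‖riemannZeta (1 / 2 + c + t * I)‖ ≤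
      Cz * (1 + |c.im|) ^ 2 * (1 + |t|) ^ 2 := by
    intro c hc t
    have := zeta_line hCz hCz1 hc 1 (by simp) t
    rwa [plus] at this
  have grM : ∀ c : ℂ, |c.re| ≤ 1 / 4 → ∀ t : ℝ, ‖riemannZeta (1 / 2 + c - t * I)‖ ≤
      Cz * (1 + |c.im|) ^ 2 * (1 + |t|) ^ 2 := by
    intro c hc t
    have := zeta_line hCz hCz1 hc (-1) (by simp) t
    rwa [minus] at this
  set Fa : ℝ → ℂ := fun t => riemannZeta (1 / 2 + a + t * I) * riemannZeta (1 / 2 + a - t * I) * g t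
    with hFa
  set Fb : ℝ → ℂ := fun t => riemannZeta (1 / 2 + b + t * I) * riemannZeta (1 / 2 + b - t * I) * g t
    with hFb
  have pgFa : IngM.PG Fa := ((pgP a hare).mul (pgM a hare)).mul pgG
  have pgFb : IngM.PG Fb := ((pgP b hbre4).mul (pgM b hbre4)).mul pgG
  set X : ℂ := ((|τ| / (2 * Real.pi) : ℝ) : ℂ) ^ (-(2 * a)) with hX
  have hX2 : X = ((|τ| / (2 * Real.pi) : ℝ) : ℂ) ^ (2 * b) := by
    rw [hX, hb]; congr 1; ring
  have eFG : FG T τ G a - X * FG T τ G b = ∫ t : ℝ, (Fa t - X * Fb t) ∂(gaussianReal τ (VV T)) := by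
    rw [integral_sub (pgFa.integrable _ _) ((pgFb.integrable _ _).const_mul X), integral_const_mul]
    rfl
  rw [eFG]
  -- functional equation
  have hfe : ∀ t : ℝ, Fa t = FF (1 / 2 + b + t * I) * FF (1 / 2 + b - t * I) * Fb t := by
    intro t
    have key : ∀ s : ℂ, 0 < s.re → s.re < 1 → riemannZeta (1 - s) = FF s * riemannZeta s := by
      intro s h1 h2
      have := riemannZeta_one_sub (s := s) (fun n hn => by
        rw [hn] at h1
        simp only [neg_re, natCast_re, Left.neg_pos_iff] at h1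
        exact absurd h1 (not_lt.2 (Nat.cast_nonneg n))) (fun hn => by
        rw [hn] at h2; simp at h2)
      rw [this]
      rfl
    have e1 : (1 / 2 + a + t * I : ℂ) = 1 - (1 / 2 + b - t * I) := by rw [hb]; ring
    have e2 : (1 / 2 + a - t * I : ℂ) = 1 - (1 / 2 + b + t * I) := by rw [hb]; ring
    have r1 : (1 / 2 + b - t * I : ℂ).re = 1 / 2 + b.re := by simp
    have r2 : (1 / 2 + b + t * I : ℂ).re = 1 / 2 + b.re := by simp
    simp only [hFa, hFb]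
    rw [e1, e2, key _ (by rw [r1, hbre]; norm_num) (by rw [r1, hbre]; norm_num),
      key _ (by rw [r2, hbre]; norm_num) (by rw [r2, hbre]; norm_num)]
    ring
  -- near part
  set W : ℝ := (1 + ‖b‖) ^ 2 * (2 * C + 8) * x ^ 15 * Real.log T with hW
  have hW0 : 0 ≤ W := by positivity
  have hnear : ∀ t : ℝ, |t - τ| ≤ x ^ 955 →
      ‖FF (1 / 2 + b + t * I) * FF (1 / 2 + b - t * I) - X‖ ≤ W := by
    intro t ht
    have ht2 : |t - τ| ≤ |τ| / 2 := ht.trans hΔ2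
    obtain ⟨l1, l2, _⟩ := log_ratio hτ0 ht2
    have ht0 : 0 < |t| := by linarith
    have q1 := hFF b t hbre4 (hCb.trans l1)
    have hratio : |t - τ| / |τ| ≤ x ^ 955 / x ^ 999 := by gcongr
    have hratio2 : x ^ 955 / x ^ 999 = 1 / x ^ 44 := by
      rw [div_eq_div_iff (by positivity) (by positivity)]; ring
    rw [hratio2] at hratio
    have hratio3 : |t - τ| / |τ| ≤ x ^ 955 * Real.log T / T := by
      have h2 : (0 : ℝ) < T / Real.log T := by positivity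
      calc |t - τ| / |τ| ≤ x ^ 955 / (T / Real.log T) := by gcongr
        _ = _ := by field_simp
    have q2 := cpow_diff (b := b) hτ0 ht2 (by
      calc 4 * ‖b‖ * (|t - τ| / |τ|) ≤ 4 * (3 * x ^ 10) * (1 / x ^ 44) := by
            gcongr
            linarith
        _ = 12 * x ^ 10 / x ^ 44 := by ring
        _ ≤ 1 := by
            rw [div_le_one (by positivity)]
            calc 12 * x ^ 10 ≤ x * x ^ 10 := by gcongr; linarith
              _ = x ^ 11 := by ring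
              _ ≤ x ^ 44 := pow_le_pow_right₀ hx1 (by norm_num))
    have hpow : ∀ r : ℝ, 0 ≤ r → r ≤ 9 / 4 * T → (r / (2 * Real.pi)) ^ (2 * b.re) ≤ x ^ 60 := by
      intro r hr0 hr
      rw [hbre, ← p60, show (2 * (3 / 100) : ℝ) = 6 / 100 by norm_num]
      refine Real.rpow_le_rpow (by positivity) ?_ (by norm_num)
      rw [div_le_iff₀ (by positivity)]
      have := Real.pi_gt_three
      nlinarith only [this, hr, hT0, mul_pos hT0 (sub_pos.2 this)]
    have w1 : (|t| / (2 * Real.pi)) ^ (2 * b.re) ≤ x ^ 60 := hpow _ (abs_nonneg _) (by linarith)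
    have w2 : (|τ| / (2 * Real.pi)) ^ (2 * b.re) ≤ x ^ 60 := hpow _ (abs_nonneg _) (by linarith)
    have hb1 : ‖b‖ ≤ (1 + ‖b‖) ^ 2 := by nlinarith only [norm_nonneg b, sq_nonneg ‖b‖]
    have q1' : ‖FF (1 / 2 + b + t * I) * FF (1 / 2 + b - t * I) -
        ((|t| / (2 * Real.pi) : ℝ) : ℂ) ^ (2 * b)‖ ≤
        (1 + ‖b‖) ^ 2 * (2 * C) * x ^ 15 * Real.log T := by
      refine q1.trans ?_
      have h3 : 1 / |t| ≤ 2 * Real.log T / T := by
        have h4 : T / (2 * Real.log T) ≤ |t| := by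
          have : T / (2 * Real.log T) = T / Real.log T / 2 := by field_simp
          rw [this]; linarith
        calc 1 / |t| ≤ 1 / (T / (2 * Real.log T)) := by gcongr
          _ = _ := by field_simp
      calc C * (1 + ‖b‖) ^ 2 / |t| * (|t| / (2 * Real.pi)) ^ (2 * b.re)
          = C * (1 + ‖b‖) ^ 2 * (1 / |t|) * (|t| / (2 * Real.pi)) ^ (2 * b.re) := by ring
        _ ≤ C * (1 + ‖b‖) ^ 2 * (2 * Real.log T / T) * x ^ 60 := by gcongr
        _ = (1 + ‖b‖) ^ 2 * (2 * C) * (x ^ 60 / T) * Real.log T := by ring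
        _ ≤ (1 + ‖b‖) ^ 2 * (2 * C) * x ^ 15 * Real.log T := by
            gcongr
            rw [div_le_iff₀ hT0]
            calc x ^ 60 ≤ x ^ 1015 := pow_le_pow_right₀ hx1 (by norm_num)
              _ = x ^ 15 * T := by rw [hTx]; ring
    have q2' : ‖((|t| / (2 * Real.pi) : ℝ) : ℂ) ^ (2 * b) - X‖ ≤
        (1 + ‖b‖) ^ 2 * 8 * x ^ 15 * Real.log T := by
      rw [hX2]
      refine q2.trans ?_
      calc (|τ| / (2 * Real.pi)) ^ (2 * b.re) * (8 * ‖b‖ * (|t - τ| / |τ|))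
          ≤ x ^ 60 * (8 * (1 + ‖b‖) ^ 2 * (x ^ 955 * Real.log T / T)) := by gcongr
        _ = (1 + ‖b‖) ^ 2 * 8 * (x ^ 1015 / T) * Real.log T := by ring
        _ = (1 + ‖b‖) ^ 2 * 8 * x ^ 15 * Real.log T := by
            have : x ^ 1015 / T = x ^ 15 := by
              rw [div_eq_iff hT0.ne', hTx]; ring
            rw [this]
    calc ‖FF (1 / 2 + b + t * I) * FF (1 / 2 + b - t * I) - X‖
        ≤ ‖FF (1 / 2 + b + t * I) * FF (1 / 2 + b - t * I) -
          ((|t| / (2 * Real.pi) : ℝ) : ℂ) ^ (2 * b)‖ +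
          ‖((|t| / (2 * Real.pi) : ℝ) : ℂ) ^ (2 * b) - X‖ := norm_sub_le_norm_sub_add_norm_sub _ _ _
      _ ≤ (1 + ‖b‖) ^ 2 * (2 * C) * x ^ 15 * Real.log T +
          (1 + ‖b‖) ^ 2 * 8 * x ^ 15 * Real.log T := add_le_add q1' q2'
      _ = W := by rw [hW]; ring
  -- far part
  have hXn : ‖X‖ ≤ T := by
    rw [hX2, norm_cpow_eq_rpow_re_of_pos (by positivity)]
    have e : (2 * b).re = 6 / 100 := by
      have : (2 * b).re = 2 * b.re := by simp
      rw [this, hbre]; norm_num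
    rw [e]
    have h2 : |τ| / (2 * Real.pi) ≤ T := by
      rw [div_le_iff₀ (by positivity)]
      have := Real.pi_gt_three
      nlinarith only [this, hT0, hτ2, mul_pos hT0 (sub_pos.2 this)]
    calc (|τ| / (2 * Real.pi)) ^ (6 / 100 : ℝ) ≤ T ^ (6 / 100 : ℝ) :=
          Real.rpow_le_rpow (by positivity) h2 (by norm_num)
      _ ≤ T ^ (1 : ℝ) := Real.rpow_le_rpow_of_exponent_le hT1.le (by norm_num)
      _ = T := Real.rpow_one T
  have hfar : ∀ t : ℝ, ‖Fa t - X * Fb t‖ ≤ 2592 * Cz ^ 2 * T ^ 10 * (1 + |t - τ|) ^ 4 := by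
    intro t
    have hyT : 1 + |a.im| ≤ 2 * T := by
      have : x ^ 10 ≤ T := by rw [hTx]; exact pow_le_pow_right₀ hx1 (by norm_num)
      linarith
    have hx2T : x ^ 2 ≤ T := by rw [hTx]; exact pow_le_pow_right₀ hx1 (by norm_num)
    have f1 : ‖Fa t‖ ≤ (Cz * (2 * T) ^ 2 * (1 + |t|) ^ 2) * (Cz * (2 * T) ^ 2 * (1 + |t|) ^ 2) * T := by
      simp only [hFa]
      rw [norm_mul, norm_mul]
      have g1 := grP a hare t
      have g2 := grM a hare t
      have g1' : ‖riemannZeta (1 / 2 + a + t * I)‖ ≤ Cz * (2 * T) ^ 2 * (1 + |t|) ^ 2 :=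
        g1.trans (by gcongr)
      have g2' : ‖riemannZeta (1 / 2 + a - t * I)‖ ≤ Cz * (2 * T) ^ 2 * (1 + |t|) ^ 2 :=
        g2.trans (by gcongr)
      have g3 := (hgn t).trans hx2T
      gcongr
    have f2 : ‖Fb t‖ ≤ (Cz * (2 * T) ^ 2 * (1 + |t|) ^ 2) * (Cz * (2 * T) ^ 2 * (1 + |t|) ^ 2) * T := by
      simp only [hFb]
      rw [norm_mul, norm_mul]
      have g1 := grP b hbre4 t
      have g2 := grM b hbre4 t
      rw [hbim] at g1 g2
      have g1' : ‖riemannZeta (1 / 2 + b + t * I)‖ ≤ Cz * (2 * T) ^ 2 * (1 + |t|) ^ 2 :=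
        g1.trans (by gcongr)
      have g2' : ‖riemannZeta (1 / 2 + b - t * I)‖ ≤ Cz * (2 * T) ^ 2 * (1 + |t|) ^ 2 :=
        g2.trans (by gcongr)
      have g3 := (hgn t).trans hx2T
      gcongr
    have f3 : 1 + |t| ≤ (3 * T) * (1 + |t - τ|) := by
      have h2 : |t| ≤ |t - τ| + |τ| := by
        have := abs_add_le (t - τ) τ
        rwa [sub_add_cancel] at this
      have h3 := abs_nonneg (t - τ)
      nlinarith only [h2, h3, hτ2, hT1, mul_nonneg (sub_pos.2 hT1).le h3]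
    calc ‖Fa t - X * Fb t‖ ≤ ‖Fa t‖ + ‖X‖ * ‖Fb t‖ := by
          refine (norm_sub_le _ _).trans ?_
          rw [norm_mul X (Fb t)]
      _ ≤ (Cz * (2 * T) ^ 2 * (1 + |t|) ^ 2) * (Cz * (2 * T) ^ 2 * (1 + |t|) ^ 2) * T +
          T * ((Cz * (2 * T) ^ 2 * (1 + |t|) ^ 2) * (Cz * (2 * T) ^ 2 * (1 + |t|) ^ 2) * T) := by
          gcongr
      _ = 16 * Cz ^ 2 * T ^ 5 * (1 + T) * (1 + |t|) ^ 4 := by ring
      _ ≤ 16 * Cz ^ 2 * T ^ 5 * (2 * T) * ((3 * T) * (1 + |t - τ|)) ^ 4 := by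
          gcongr
          linarith
      _ = _ := by ring
  -- pointwise bound
  have hpt : ∀ t : ℝ, ‖Fa t - X * Fb t‖ ≤
      W * x ^ 2 * (‖riemannZeta (1 / 2 + b + t * I)‖ ^ 2 + ‖riemannZeta (1 / 2 + b - t * I)‖ ^ 2) +
      2592 * Cz ^ 2 * T ^ 10 * Set.indicator {x : ℝ | T ^ (955 / 1000 : ℝ) < |x|}
        (fun x => (1 + |x|) ^ 4) (t - τ) := by
    intro t
    by_cases ht : T ^ (955 / 1000 : ℝ) < |t - τ|
    · rw [Set.indicator_of_mem (show t - τ ∈ {x : ℝ | T ^ (955 / 1000 : ℝ) < |x|} from ht)]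
      refine (hfar t).trans ?_
      have : 0 ≤ W * x ^ 2 * (‖riemannZeta (1 / 2 + b + t * I)‖ ^ 2 +
        ‖riemannZeta (1 / 2 + b - t * I)‖ ^ 2) := by positivity
      linarith
    · rw [Set.indicator_of_notMem (show t - τ ∉ {x : ℝ | T ^ (955 / 1000 : ℝ) < |x|} from ht),
        mul_zero, add_zero]
      rw [p955, not_lt] at ht
      have h2 := hnear t ht
      have h3 : Fa t - X * Fb t = (FF (1 / 2 + b + t * I) * FF (1 / 2 + b - t * I) - X) *
          (riemannZeta (1 / 2 + b + t * I) * riemannZeta (1 / 2 + b - t * I) * g t) := by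
        rw [hfe t]
        simp only [hFb]
        ring
      rw [h3, norm_mul, norm_mul, norm_mul]
      have h4 := hgn t
      set z₁ := ‖riemannZeta (1 / 2 + b + t * I)‖
      set z₂ := ‖riemannZeta (1 / 2 + b - t * I)‖
      have h5 : 0 ≤ z₁ := norm_nonneg _
      have h6 : 0 ≤ z₂ := norm_nonneg _
      have h7 : z₁ * z₂ ≤ z₁ ^ 2 + z₂ ^ 2 := by nlinarith only [sq_nonneg (z₁ - z₂), mul_nonneg h5 h6]
      calc ‖FF (1 / 2 + b + t * I) * FF (1 / 2 + b - t * I) - X‖ * (z₁ * z₂ * ‖g t‖)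
          ≤ W * ((z₁ ^ 2 + z₂ ^ 2) * x ^ 2) := by gcongr
        _ = _ := by ring
  -- mean squares
  have hbT : |τ| + |b.im| ≤ 2 * T := by
    have h2 : |b.im| ≤ x ^ 10 := by rw [hbim]; exact hay
    have h3 : 2 * x ^ 10 ≤ T := by
      calc 2 * x ^ 10 ≤ x * x ^ 10 := by gcongr
        _ = x ^ 11 := by ring
        _ ≤ x ^ 1000 := pow_le_pow_right₀ hx1 (by norm_num)
        _ = T := hTx.symm
    linarith
  have hline : ∀ t : ℝ, (1 / 2 + b + t * I : ℂ) = ((1 / 2 + 3 / 100 : ℝ) : ℂ) +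
      ((t + b.im : ℝ) : ℂ) * I := by
    intro t
    apply Complex.ext
    · have : (1 / 2 + b + t * I : ℂ).re = 1 / 2 + b.re := by simp
      rw [this, hbre, line_re]
    · have : (1 / 2 + b + t * I : ℂ).im = b.im + t := by simp
      rw [this, line_im]
      ring
  have m1 : EG T τ (fun t => ‖riemannZeta (1 / 2 + b + t * I)‖ ^ 2) ≤ C₅ * Real.log T := by
    have e := EG_add T τ b.im (fun t => ‖riemannZeta (((1 / 2 + 3 / 100 : ℝ) : ℂ) + t * I)‖ ^ 2)
    have h2 := hmean T hTT₁ (τ + b.im) ((abs_add_le _ _).trans hbT) (3 / 100) (by norm_num)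
      (by norm_num)
    rw [← e] at h2
    refine le_trans (le_of_eq ?_) h2
    congr 1
    funext t
    rw [hline t]
  have m2 : EG T τ (fun t => ‖riemannZeta (1 / 2 + b - t * I)‖ ^ 2) ≤ C₅ * Real.log T := by
    have e := EG_neg T τ (fun t => ‖riemannZeta (1 / 2 + b + t * I)‖ ^ 2)
    have e2 := EG_add T (-τ) b.im (fun t => ‖riemannZeta (((1 / 2 + 3 / 100 : ℝ) : ℂ) + t * I)‖ ^ 2)
    have h2 := hmean T hTT₁ (-τ + b.im) ((abs_add_le _ _).trans (by rwa [abs_neg])) (3 / 100)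
      (by norm_num) (by norm_num)
    rw [← e2] at h2
    refine le_trans (le_of_eq ?_) h2
    have e3 : (fun t : ℝ => ‖riemannZeta (1 / 2 + b - t * I)‖ ^ 2) =
        fun t : ℝ => (fun t : ℝ => ‖riemannZeta (1 / 2 + b + t * I)‖ ^ 2) (-t) := by
      funext t
      simp only
      congr 3
      push_cast
      ring
    rw [e3, e]
    congr 1
    funext t
    rw [hline t]
  have i1 := (pgP b hbre4).integrable_sq τ (VV T)
  have i2 := (pgM b hbre4).integrable_sq τ (VV T)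
  have hmeas : MeasurableSet {x : ℝ | T ^ (955 / 1000 : ℝ) < |x|} :=
    measurableSet_lt measurable_const measurable_id.abs
  have i3 : Integrable (fun t : ℝ => Set.indicator {x : ℝ | T ^ (955 / 1000 : ℝ) < |x|}
        (fun x => (1 + |x|) ^ 4) (t - τ)) (gaussianReal τ (VV T)) := by
    refine integrable_of_poly τ (VV T) (C := (1 + |τ|) ^ 4) (m := 4) ?_ fun t => ?_
    · refine Measurable.aestronglyMeasurable ?_
      have : Measurable (Set.indicator {x : ℝ | T ^ (955 / 1000 : ℝ) < |x|}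
        (fun x : ℝ => (1 + |x|) ^ 4)) := Measurable.indicator (by fun_prop) hmeas
      exact this.comp (measurable_id.sub_const τ)
    · rw [Real.norm_eq_abs, abs_of_nonneg (Set.indicator_nonneg (fun t _ => by positivity) _)]
      refine (Set.indicator_le_self' (fun _ _ => by positivity) _).trans ?_
      rw [← mul_pow]
      have h2 : |t - τ| ≤ |t| + |τ| := abs_sub _ _
      have h3 := abs_nonneg t
      have h4 := abs_nonneg τ
      have : 1 + |t - τ| ≤ (1 + |τ|) * (1 + |t|) := by nlinarith only [h2, h3, h4, mul_nonneg h3 h4]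
      gcongr
  have i12 : Integrable (fun t : ℝ => W * x ^ 2 * (‖riemannZeta (1 / 2 + b + t * I)‖ ^ 2 +
          ‖riemannZeta (1 / 2 + b - t * I)‖ ^ 2)) (gaussianReal τ (VV T)) :=
    (i1.add i2).const_mul _
  have i33 : Integrable (fun t : ℝ => 2592 * Cz ^ 2 * T ^ 10 *
      Set.indicator {x : ℝ | T ^ (955 / 1000 : ℝ) < |x|}
        (fun x => (1 + |x|) ^ 4) (t - τ)) (gaussianReal τ (VV T)) := i3.const_mul _
  have hfin1 : ‖∫ t : ℝ, (Fa t - X * Fb t) ∂(gaussianReal τ (VV T))‖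
      ≤ ∫ t : ℝ, (W * x ^ 2 * (‖riemannZeta (1 / 2 + b + t * I)‖ ^ 2 +
          ‖riemannZeta (1 / 2 + b - t * I)‖ ^ 2) +
        2592 * Cz ^ 2 * T ^ 10 * Set.indicator {x : ℝ | T ^ (955 / 1000 : ℝ) < |x|}
        (fun x => (1 + |x|) ^ 4) (t - τ)) ∂(gaussianReal τ (VV T)) :=
        norm_integral_le_of_norm_le (i12.add i33) (Filter.Eventually.of_forall hpt)
  have hfin : ‖∫ t : ℝ, (Fa t - X * Fb t) ∂(gaussianReal τ (VV T))‖ ≤
      W * x ^ 2 * (EG T τ (fun t => ‖riemannZeta (1 / 2 + b + t * I)‖ ^ 2) +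
          EG T τ (fun t => ‖riemannZeta (1 / 2 + b - t * I)‖ ^ 2)) +
        2592 * Cz ^ 2 * T ^ 10 * ∫ t : ℝ, Set.indicator {x : ℝ | T ^ (955 / 1000 : ℝ) < |x|}
        (fun x => (1 + |x|) ^ 4) (t - τ) ∂(gaussianReal τ (VV T)) := by
    refine hfin1.trans (le_of_eq ?_)
    rw [integral_add i12 i33, integral_const_mul, integral_const_mul, integral_add i1 i2]
    rfl
  have htail2 : ∫ t : ℝ, Set.indicator {x : ℝ | T ^ (955 / 1000 : ℝ) < |x|}
        (fun x => (1 + |x|) ^ 4) (t - τ) ∂(gaussianReal τ (VV T)) =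
      ∫ x, Set.indicator {x : ℝ | T ^ (955 / 1000 : ℝ) < |x|} (fun x => (1 + |x|) ^ 4) x
      ∂(gaussianReal 0 (VV T)) := by
    have := Sharp.EG_shift T τ (F := fun t => Set.indicator {x : ℝ | T ^ (955 / 1000 : ℝ) < |x|}
        (fun x => (1 + |x|) ^ 4) (t - τ))
    unfold EG at this
    rw [this]
    simp only [add_sub_cancel_right]
  rw [htail2] at hfin
  refine hfin.trans ?_
  have hlast : W * x ^ 2 * (EG T τ (fun t => ‖riemannZeta (1 / 2 + b + t * I)‖ ^ 2) +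
          EG T τ (fun t => ‖riemannZeta (1 / 2 + b - t * I)‖ ^ 2)) ≤
      (1 + |a.im|) ^ 2 * (K * x ^ 19) := by
    have h2 : (1 + ‖b‖) ^ 2 ≤ 2 * (1 + |a.im|) ^ 2 := by
      have h3 : 1 + ‖b‖ ≤ 103 / 100 * (1 + |a.im|) := by linarith
      calc (1 + ‖b‖) ^ 2 ≤ (103 / 100 * (1 + |a.im|)) ^ 2 := by gcongr
        _ ≤ _ := by nlinarith only [sq_nonneg (1 + |a.im|)]
    calc W * x ^ 2 * (EG T τ (fun t => ‖riemannZeta (1 / 2 + b + t * I)‖ ^ 2) +
          EG T τ (fun t => ‖riemannZeta (1 / 2 + b - t * I)‖ ^ 2))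
        ≤ W * x ^ 2 * (C₅ * Real.log T + C₅ * Real.log T) := by gcongr
      _ = (1 + ‖b‖) ^ 2 * (2 * C + 8) * x ^ 17 * (2 * C₅) * (Real.log T * Real.log T) := by
          rw [hW]; ring
      _ ≤ (2 * (1 + |a.im|) ^ 2) * (2 * C + 8) * x ^ 17 * (2 * C₅) * (x * x) := by gcongr
      _ = _ := by rw [hK]; ring
  have hy1 : 1 ≤ (1 + |a.im|) ^ 2 := by nlinarith only [hy0, sq_nonneg |a.im|]
  have h19 : 1 ≤ x ^ 19 := one_le_pow₀ hx1
  calc W * x ^ 2 * (EG T τ (fun t => ‖riemannZeta (1 / 2 + b + t * I)‖ ^ 2) +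
          EG T τ (fun t => ‖riemannZeta (1 / 2 + b - t * I)‖ ^ 2)) +
        2592 * Cz ^ 2 * T ^ 10 * ∫ x, Set.indicator {x : ℝ | T ^ (955 / 1000 : ℝ) < |x|}
          (fun x => (1 + |x|) ^ 4) x ∂(gaussianReal 0 (VV T))
      ≤ (1 + |a.im|) ^ 2 * (K * x ^ 19) + 1 := add_le_add hlast htail
    _ ≤ (1 + |a.im|) ^ 2 * (K * x ^ 19) + (1 + |a.im|) ^ 2 * x ^ 19 := by linarith only [one_le_mul_of_one_le_of_one_le hy1 h19]
    _ = (1 + |a.im|) ^ 2 * ((K + 1) * x ^ 19) := by ring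
    _ ≤ (1 + |a.im|) ^ 2 * (x * x ^ 19) := by gcongr
    _ ≤ (1 + |a.im|) ^ 2 * x ^ 22 := by
        gcongr
        calc x * x ^ 19 = x ^ 20 := by ring
          _ ≤ x ^ 22 := pow_le_pow_right₀ hx1 (by norm_num)

end K1
end Pool.Agent.Lib.MP_973905_nt
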