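import Pool.Agent.Lib.MP_973905_nt.K1.Stmts

/-! Module (4): the mean square of `ζ - S` to the right of the critical line. -/

namespace Pool.Agent.Lib.MP_973905_nt
namespace K1

open MeasureTheory ProbabilityTheory Complex Filter Topology

namespace RBound

lemma Ntr_zero (l : ℕ) (z : ℂ) : Ntr l 0 z = 1 := by
  unfold Ntr
  rw [Finset.sum_range_succ']
  simp

lemma AA_zero (T : ℝ) (M J : ℕ) (g : Finset ℕ) (f : ℕ → ℂ) : AA T M J 0 g ∅ f = 1 := by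
  unfold AA Fc
  apply Finset.prod_eq_one
  intro j _
  simp [Ntr_zero]

/-- The mean square of the smoothed sum. -/
lemma meanS (c₁ : ℝ) (hc₁ : 0 < c₁) : ∃ C : ℝ, 0 < C ∧ ∃ T₀ : ℝ, 3 ≤ T₀ ∧ ∀ T, T₀ ≤ T → ∀ τ : ℝ,
    ∀ a : ℝ, 0 ≤ a → a ≤ c₁ → ∀ w₂ : ℝ, 0 ≤ w₂ →
    EG T τ (fun t => ‖SS T (fs ((1 / 2 + a / Real.log T : ℝ) + t * I))‖ ^ 2 *
      ‖(fun _ : ℕ → ℂ => (1 : ℂ)) (fs (w₂ + t * I))‖ ^ 2) ≤ C * Real.log T + 1 / T := by
  obtain ⟨C₀, hC₀, hX⟩ := xbound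
  obtain ⟨M₀, hX⟩ := hX c₁ hc₁
  obtain ⟨T₀, hT₀3, hX⟩ := hX M₀ le_rfl c₁ hc₁.le
  obtain ⟨T₁, hT₁⟩ := eventually_atTop.mp IngM.err_le
  refine ⟨Real.exp (C₀ * M₀) * (1 + c₁) ^ C₀, by positivity, max T₀ T₁,
    hT₀3.trans (le_max_left _ _), fun T hT τ a ha0 ha1 w₂ hw₂ => ?_⟩
  have hTT₀ : T₀ ≤ T := (le_max_left _ _).trans hT
  have hT1 : 1 < T := by linarith
  have hL : 0 < Real.log T := Real.log_pos hT1
  have herr := hT₁ T ((le_max_right _ _).trans hT)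
  have h1 := hX T hTT₀ 1 zero_le_one le_rfl (Finset.range (JJ T + 1)) ∅ (by simp) a 0 ha0 ha1
    (by linarith) hc₁.le
  have hA : DP (T ^ (1 / 25 : ℝ)) (T ^ (1 / 20 : ℝ)) (fun _ : ℕ → ℂ => (1 : ℂ)) :=
    (dp_const 1).mono (Real.one_le_rpow hT1.le (by norm_num))
      (by rw [norm_one]; exact Real.one_le_rpow hT1.le (by norm_num))
  have h2 := IngM.tr_SA hT1 herr M₀ (JJ T) τ hA (w₁ := 1 / 2 + a / Real.log T) (w₂ := w₂)
    (by positivity) hw₂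
  refine h2.trans ?_
  have h3 : ER (SB T M₀ (JJ T)) (fun f => ‖SS T (tw ((1 / 2 + a / Real.log T : ℝ) : ℂ) f)‖ ^ 2 *
      ‖(fun _ : ℕ → ℂ => (1 : ℂ)) (tw (w₂ : ℂ) f)‖ ^ 2) ≤
      Real.exp (C₀ * M₀) * (1 + c₁) ^ C₀ * Real.log T := by
    have e : (Real.log T) ^ ((1 : ℝ) ^ 2) = Real.log T := by
      rw [one_pow, Real.rpow_one]
    rw [e, Finset.prod_empty, mul_one] at h1
    refine le_trans (le_of_eq ?_) h1
    congr 1
    funext f
    rw [sub_self, AA_zero]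
  linarith

open TSM in
lemma lineHalf : ∃ C : ℝ, 0 < C ∧ ∃ T₀ : ℝ, 3 ≤ T₀ ∧ ∀ T, T₀ ≤ T → ∀ τ : ℝ, |τ| ≤ 2 * T →
    EG T τ (fun t => ‖zt ((1 / 2 : ℝ) + t * I) - kp ((1 / 2 : ℝ) + t * I) *
      SS T (fs ((1 / 2 : ℝ) + t * I))‖ ^ 2) ≤ C * Real.log T := by
  obtain ⟨c₁, C, κ, hc₁, hC, hκ, htsm⟩ := tsm
  obtain ⟨T₀, hT₀3, htsm⟩ := htsm 0 le_rfl
  obtain ⟨CS, hCS, T₁, hT₁3, hS⟩ := meanS c₁ hc₁
  obtain ⟨T₂, hT₂⟩ := eventually_atTop.mp (Real.tendsto_log_atTop.eventually_ge_atTop (2 * c₁))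
  refine ⟨C * (CS + 2), by positivity, max (max T₀ T₁) T₂,
    hT₀3.trans ((le_max_left _ _).trans (le_max_left _ _)), fun T hT τ hτ => ?_⟩
  have hTT₀ : T₀ ≤ T := (le_max_left _ _).trans ((le_max_left _ _).trans hT)
  have hTT₁ : T₁ ≤ T := (le_max_right _ _).trans ((le_max_left _ _).trans hT)
  have hL2 := hT₂ T ((le_max_right _ _).trans hT)
  have hT1 : 1 < T := by linarith
  have hT0 : 0 < T := by linarith
  have hL : 0 < Real.log T := Real.log_pos hT1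
  have hL1 : 1 ≤ Real.log T := by
    rw [Real.le_log_iff_exp_le hT0]
    have := Real.exp_one_lt_d9
    linarith
  have hA : DP (T ^ (1 / 25 : ℝ)) (T ^ (1 / 20 : ℝ)) (fun _ : ℕ → ℂ => (1 : ℂ)) :=
    (dp_const 1).mono (Real.one_le_rpow hT1.le (by norm_num))
      (by rw [norm_one]; exact Real.one_le_rpow hT1.le (by norm_num))
  have key := htsm T hTT₀ τ hτ (fun _ => 1) hA (CS * Real.log T + 1 / T) ?_
  · have e0 : (1 / 2 + 0 / Real.log T : ℝ) = 1 / 2 := by simp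
    simp only [e0, norm_one, one_pow, mul_one] at key
    refine key.trans ?_
    have h1 : Real.exp (-(13 / 10 * (0 : ℝ))) = 1 := by simp
    rw [h1, mul_one]
    have h2 : 1 / T ≤ 1 := by rw [div_le_one hT0]; exact hT1.le
    have h3 : T ^ (-κ) ≤ 1 := Real.rpow_le_one_of_one_le_of_nonpos hT1.le (by linarith)
    have h4 : CS * Real.log T + 1 / T + T ^ (-κ) ≤ (CS + 2) * Real.log T := by nlinarith
    calc C * (CS * Real.log T + 1 / T + T ^ (-κ)) ≤ C * ((CS + 2) * Real.log T) := by gcongr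
      _ = _ := by ring
  · intro w₁ w₂ h1 h2 h3
    have hδ : c₁ / Real.log T ≤ 1 / 2 := by
      rw [div_le_iff₀ hL]; linarith
    have hw₂ : 0 ≤ w₂ := by
      rw [abs_le] at h3
      linarith [h3.1]
    have h4 := hS T hTT₁ τ ((w₁ - 1 / 2) * Real.log T) (by
      have : 0 ≤ w₁ - 1 / 2 := by linarith
      positivity) (by
      have : w₁ - 1 / 2 ≤ c₁ / Real.log T := by linarith
      rwa [le_div_iff₀ hL] at this) w₂ hw₂
    have e : (1 / 2 + (w₁ - 1 / 2) * Real.log T / Real.log T : ℝ) = w₁ := by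
      field_simp
      ring
    rw [e] at h4
    exact h4

end RBound

open RBound TSM in
theorem stRBound : StRBound := by
  obtain ⟨C, hC, T₀, hT₀3, hhalf⟩ := lineHalf
  obtain ⟨Z, hZ, hZ6⟩ := zeta_sub_SS
  set C₃ : ℝ := Z ^ 2 + 1 with hC₃
  have hC₃1 : 1 ≤ C₃ := by nlinarith [sq_nonneg Z]
  refine ⟨49 * (2 * (C + 1) * C₃), by positivity, max T₀ 12, hT₀3.trans (le_max_left _ _),
    fun T hT τ hτ δ hδ0 hδ1 => ?_⟩
  have hTT₀ : T₀ ≤ T := (le_max_left _ _).trans hT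
  have hT12 : 12 ≤ T := (le_max_right _ _).trans hT
  have hT1 : 1 < T := by linarith
  have hT0 : 0 < T := by linarith
  have hL : 0 < Real.log T := Real.log_pos hT1
  have hL1 : 1 ≤ Real.log T := by
    rw [Real.le_log_iff_exp_le hT0]
    have := Real.exp_one_lt_d9
    linarith
  obtain ⟨S, S', hSd, _, hSS, _, hSM, _⟩ := dp_poly (dp_SS hT1)
    (Real.one_le_rpow hT1.le (by norm_num))
  have hS : Nice S := nice_of_bdd hSd hT0.le (fun s h1 _ => hSM s (by linarith))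
  have hf : Nice (fun s => TSM.DD S s * TSM.DD S s) := (nice_DD hS).mul (nice_DD hS)
  have hZt : ∀ t : ℝ, ‖riemannZeta ((6 : ℝ) + t * I) - S ((6 : ℝ) + t * I)‖ ≤
      Z * T ^ (-(96 / 25) : ℝ) := by
    intro t
    have := hZ6 T (by linarith) t
    rwa [hSS] at this
  have hD6 := DD_six hZt
  have k6 : MM T τ (fun s => TSM.DD S s * TSM.DD S s) 6 ≤ C₃ * T ^ (-(192 / 25) : ℝ) := by
    apply mm_le_const hf (by norm_num) (by norm_num)
    intro t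
    have h1 := hD6 t
    rw [norm_mul]
    calc ‖TSM.DD S (((6 : ℝ) : ℂ) + t * I)‖ * ‖TSM.DD S (((6 : ℝ) : ℂ) + t * I)‖
        ≤ (Z * T ^ (-(96 / 25) : ℝ)) * (Z * T ^ (-(96 / 25) : ℝ)) := by gcongr
      _ = Z ^ 2 * (T ^ (-(96 / 25) : ℝ) * T ^ (-(96 / 25) : ℝ)) := by ring
      _ = Z ^ 2 * T ^ (-(192 / 25) : ℝ) := by
          rw [← Real.rpow_add hT0]
          norm_num
      _ ≤ C₃ * T ^ (-(192 / 25) : ℝ) := by
          have : 0 < T ^ (-(192 / 25) : ℝ) := Real.rpow_pos_of_pos hT0 _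
          nlinarith
  have hA : MM T τ (fun s => TSM.DD S s * TSM.DD S s) (1 / 2) ≤ (C + 1) * Real.log T := by
    have h1 := hhalf T hTT₀ τ hτ
    have h2 : MM T τ (fun s => TSM.DD S s * TSM.DD S s) (1 / 2) =
        EG T τ (fun t => ‖zt ((1 / 2 : ℝ) + t * I) - kp ((1 / 2 : ℝ) + t * I) *
          SS T (fs ((1 / 2 : ℝ) + t * I))‖ ^ 2) := by
      unfold MM
      congr 1
      funext t
      rw [hSS, norm_mul, ← sq, TSM.DD]
    rw [h2]
    linarith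
  have hint := interp hf (T := T) (τ := τ) (c := δ * Real.log T) (A := (C + 1) * Real.log T)
    (C := C₃) (ρ := 192 / 25) (κ := 0) hT12 (by positivity) (by nlinarith)
    (by rw [neg_zero, Real.rpow_zero]; nlinarith) hC₃1 hA k6
  have e1 : (1 / 2 + δ * Real.log T / Real.log T : ℝ) = 1 / 2 + δ := by
    field_simp
  rw [e1] at hint
  have hexp : Real.exp (-((192 / 25 - 0) * (δ * Real.log T) / (11 / 2))) ≤ T ^ (-(13 / 10 * δ)) := by
    rw [Real.rpow_def_of_pos hT0]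
    apply Real.exp_le_exp.2
    have : 0 ≤ δ * Real.log T := by positivity
    nlinarith
  have hpt : ∀ t : ℝ, ‖riemannZeta (((1 / 2 + δ : ℝ) : ℂ) + t * I) -
      SS T (fs (((1 / 2 + δ : ℝ) : ℂ) + t * I))‖ ^ 2 ≤
      49 * ‖TSM.DD S (((1 / 2 + δ : ℝ) : ℂ) + t * I) * TSM.DD S (((1 / 2 + δ : ℝ) : ℂ) + t * I)‖ := by
    intro t
    have h := IngM.pt_zeta_SS (s := ((1 / 2 + δ : ℝ) : ℂ) + t * I) (by rw [line_re]; linarith)
      (by rw [line_re]; linarith) (SS T (fs (((1 / 2 + δ : ℝ) : ℂ) + t * I)))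
    rw [norm_mul, ← sq, TSM.DD, ← hSS]
    exact h
  have hint2 : Integrable (fun t : ℝ => 49 * ‖TSM.DD S (((1 / 2 + δ : ℝ) : ℂ) + t * I) *
      TSM.DD S (((1 / 2 + δ : ℝ) : ℂ) + t * I)‖) (gaussianReal τ (VV T)) :=
    (hf.integrable τ (VV T) (by linarith) (by linarith)).const_mul 49
  have hmain : EG T τ (fun t => ‖riemannZeta (((1 / 2 + δ : ℝ) : ℂ) + t * I) -
      SS T (fs (((1 / 2 + δ : ℝ) : ℂ) + t * I))‖ ^ 2) ≤
      49 * MM T τ (fun s => TSM.DD S s * TSM.DD S s) (1 / 2 + δ) := by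
    unfold MM EG
    rw [← integral_const_mul]
    exact integral_mono_of_nonneg (Filter.Eventually.of_forall fun t => by positivity) hint2
      (Filter.Eventually.of_forall hpt)
  refine hmain.trans ?_
  have h5 : MM T τ (fun s => TSM.DD S s * TSM.DD S s) (1 / 2 + δ) ≤
      2 * ((C + 1) * Real.log T) * C₃ * T ^ (-(13 / 10 * δ)) :=
    hint.trans (mul_le_mul_of_nonneg_left hexp (by positivity))
  calc 49 * MM T τ (fun s => TSM.DD S s * TSM.DD S s) (1 / 2 + δ)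
      ≤ 49 * (2 * ((C + 1) * Real.log T) * C₃ * T ^ (-(13 / 10 * δ))) := by gcongr
    _ = _ := by ring

end K1
end Pool.Agent.Lib.MP_973905_nt
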