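import Pool.Agent.Lib.MP_973905_nt.K1.Stmts
import Pool.Agent.Lib.MP_973905_nt.Ing

/-! Module (6): the right edge of the strip. -/

namespace Pool.Agent.Lib.MP_973905_nt
namespace K1

open MeasureTheory ProbabilityTheory Complex Filter Topology

namespace RightM

/-! ### Gaussian means: translation, reflection, conjugation, finite sums -/

lemma eg_shift {E : Type*} [NormedAddCommGroup E] [NormedSpace ℝ E] (T τ y : ℝ) (F : ℝ → E) :
    EG T τ (fun t => F (t + y)) = EG T (τ + y) F := by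
  unfold EG
  rw [← gaussianReal_map_add_const y]
  exact ((measurableEmbedding_addRight y).integral_map _).symm

lemma eg_neg {E : Type*} [NormedAddCommGroup E] [NormedSpace ℝ E] (T τ : ℝ) (F : ℝ → E) :
    EG T τ (fun t => F (-t)) = EG T (-τ) F := by
  unfold EG
  rw [← gaussianReal_map_neg]
  exact ((MeasurableEquiv.neg ℝ).measurableEmbedding.integral_map _).symm

lemma eg_conj (T τ : ℝ) (F : ℝ → ℂ) :
    EG T τ (fun t => (starRingEnd ℂ) (F t)) = (starRingEnd ℂ) (EG T τ F) := by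
  unfold EG
  exact integral_conj

lemma eg_sum_approx {ι : Type*} (s : Finset ι) (T τ : ℝ) (w : ι → ℂ) (f : ι → ℝ → ℂ) (p : ι → ℂ)
    (ε : ℝ) (hint : ∀ i ∈ s, Integrable (f i) (gaussianReal τ (VV T)))
    (h : ∀ i ∈ s, w i ≠ 0 → ‖EG T τ (f i) - p i‖ ≤ ε) :
    ‖EG T τ (fun t => ∑ i ∈ s, w i * f i t) - ∑ i ∈ s, w i * p i‖ ≤ (∑ i ∈ s, ‖w i‖) * ε := by
  have h1 : EG T τ (fun t => ∑ i ∈ s, w i * f i t) = ∑ i ∈ s, w i * EG T τ (f i) := by
    unfold EG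
    rw [integral_finsetSum _ fun i hi => (hint i hi).const_mul (w i)]
    exact Finset.sum_congr rfl fun i _ => integral_const_mul _ _
  rw [h1, ← Finset.sum_sub_distrib, Finset.sum_mul]
  refine (norm_sum_le _ _).trans (Finset.sum_le_sum fun i hi => ?_)
  rw [← mul_sub, norm_mul]
  by_cases hw : w i = 0
  · simp [hw]
  · exact mul_le_mul_of_nonneg_left (h i hi hw) (norm_nonneg _)

/-! ### The arithmetic identity -/

lemma sum_conv (K m n : ℕ) (hm : 1 ≤ m) (F : ℕ → ℕ → ℂ) (hF : ∀ l k, K < l → F l k = 0) :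
    ∑ l ∈ Finset.Icc 1 K, (if m ∣ n * l then F l (n * l / m) else 0) =
      ∑ r ∈ Finset.Icc 1 K, F (m / m.gcd n * r) (n / m.gcd n * r) := by
  have hg : 0 < m.gcd n := Nat.gcd_pos_of_pos_left n hm
  obtain ⟨m', hm'⟩ := Nat.gcd_dvd_left m n
  obtain ⟨n', hn'⟩ := Nat.gcd_dvd_right m n
  set g := m.gcd n with hgdef
  have hmg : m / g = m' := by rw [hm']; exact Nat.mul_div_cancel_left _ hg
  have hng : n / g = n' := by
    conv_lhs => rw [hn']
    exact Nat.mul_div_cancel_left _ hg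
  have hcop : Nat.Coprime m' n' := by
    have := Nat.coprime_div_gcd_div_gcd (m := m) (n := n) hg
    rwa [← hgdef, hmg, hng] at this
  have hm'0 : 0 < m' := by
    rcases Nat.eq_zero_or_pos m' with h | h
    · rw [h, mul_zero] at hm'; omega
    · exact h
  rw [hmg, hng]
  have hdvd : ∀ l, m ∣ n * l ↔ m' ∣ l := by
    intro l
    rw [hm', hn', mul_assoc, Nat.mul_dvd_mul_iff_left hg]
    exact hcop.dvd_mul_left
  have hdiv : ∀ r, n * (m' * r) / m = n' * r := by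
    intro r
    rw [hm', show n * (m' * r) = g * m' * (n' * r) by
      conv_lhs => rw [hn']
      ring]
    exact Nat.mul_div_cancel_left _ (Nat.mul_pos hg hm'0)
  rw [← Finset.sum_filter]
  have hR : ∑ r ∈ Finset.Icc 1 K, F (m' * r) (n' * r) =
      ∑ r ∈ (Finset.Icc 1 K).filter (fun r => m' * r ≤ K), F (m' * r) (n' * r) := by
    symm
    apply Finset.sum_filter_of_ne
    intro r _ hne
    by_contra hcon
    exact hne (hF _ _ (not_le.mp hcon))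
  rw [hR]
  symm
  refine Finset.sum_bij' (fun r _ => m' * r) (fun l _ => l / m') ?_ ?_ ?_ ?_ ?_
  · intro r hr
    rw [Finset.mem_filter, Finset.mem_Icc] at hr ⊢
    refine ⟨⟨Nat.mul_pos hm'0 hr.1.1, hr.2⟩, ?_⟩
    rw [hdvd]
    exact dvd_mul_right _ _
  · intro l hl
    rw [Finset.mem_filter, Finset.mem_Icc, hdvd] at hl
    obtain ⟨⟨h1, h2⟩, r, rfl⟩ := hl
    rw [Nat.mul_div_cancel_left _ hm'0, Finset.mem_filter, Finset.mem_Icc]
    refine ⟨⟨?_, ?_⟩, h2⟩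
    · rcases Nat.eq_zero_or_pos r with h | h
      · rw [h, mul_zero] at h1; omega
      · exact h
    · exact (Nat.le_mul_of_pos_left r hm'0).trans h2
  · intro r _
    exact Nat.mul_div_cancel_left _ hm'0
  · intro l hl
    rw [Finset.mem_filter, hdvd] at hl
    exact Nat.mul_div_cancel' hl.2
  · intro r _
    rw [hdiv]


/-- the smooth weight of the integer `l` -/
noncomputable def ph (T : ℝ) (l : ℕ) : ℂ := (Phi (Real.log l / Real.log T) : ℂ)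

lemma ph_norm (T : ℝ) (l : ℕ) : ‖ph T l‖ ≤ 1 := by
  unfold ph
  rw [norm_real, Real.norm_eq_abs, abs_of_nonneg (Phi_nonneg _)]
  exact Phi_le_one _

lemma one_sub_ph_norm (T : ℝ) (l : ℕ) : ‖1 - ph T l‖ ≤ 1 := by
  unfold ph
  rw [show (1 : ℂ) - (Phi (Real.log l / Real.log T) : ℂ) =
    ((1 - Phi (Real.log l / Real.log T) : ℝ) : ℂ) by push_cast; ring, norm_real, Real.norm_eq_abs,
    abs_of_nonneg (by linarith [Phi_le_one (Real.log l / Real.log T)])]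
  linarith [Phi_nonneg (Real.log l / Real.log T)]

lemma ph_zero {T : ℝ} (hT : 1 < T) {l : ℕ} (h : T ^ (85 / 100 : ℝ) ≤ l) : ph T l = 0 := by
  have hT0 : 0 < T := by linarith
  have hL : 0 < Real.log T := Real.log_pos hT
  unfold ph
  rw [Phi_zero, ofReal_zero]
  rw [le_div_iff₀ hL, ← Real.log_rpow hT0]
  exact Real.log_le_log (Real.rpow_pos_of_pos hT0 _) h

lemma ph_zero_floor {T : ℝ} (hT : 1 < T) {l : ℕ} (h : ⌊T⌋₊ < l) : ph T l = 0 := by
  have hT0 : 0 < T := by linarith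
  apply ph_zero hT
  have h1 : T < l := (Nat.floor_lt hT0.le).mp h
  refine le_trans ?_ h1.le
  calc T ^ (85 / 100 : ℝ) ≤ T ^ (1 : ℝ) := Real.rpow_le_rpow_of_exponent_le hT.le (by norm_num)
    _ = T := Real.rpow_one T

lemma ph_one {T : ℝ} (hT : 1 < T) {l : ℕ} (h1 : 1 ≤ l) (h : (l : ℝ) ≤ T ^ (8 / 10 : ℝ)) :
    ph T l = 1 := by
  have hT0 : 0 < T := by linarith
  have hL : 0 < Real.log T := Real.log_pos hT
  have hl0 : (1 : ℝ) ≤ l := by exact_mod_cast h1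
  unfold ph
  rw [Phi_one, ofReal_one]
  · have : 0 ≤ Real.log l / Real.log T := div_nonneg (Real.log_nonneg hl0) hL.le
    linarith
  · rw [div_le_iff₀ hL, ← Real.log_rpow hT0]
    exact Real.log_le_log (by linarith) h

lemma norm_cpow_le_one {s : ℂ} (hs : 0 ≤ s.re) (n : ℕ) : ‖(n : ℂ) ^ (-s)‖ ≤ 1 ∨ n = 0 := by
  rcases Nat.eq_zero_or_pos n with h | h
  · exact Or.inr h
  · exact Or.inl (norm_natCast_cpow_neg_le_one hs h)

/-- the constant of the tail estimate -/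
noncomputable def Z1 : ℝ := ∑' n : ℕ, (n : ℝ) ^ (-(101 / 100) : ℝ)

lemma summ_Z1 : Summable fun n : ℕ => (n : ℝ) ^ (-(101 / 100) : ℝ) :=
  Real.summable_nat_rpow.mpr (by norm_num)

lemma Z1_nonneg : 0 ≤ Z1 := tsum_nonneg fun n => Real.rpow_nonneg (Nat.cast_nonneg n) _

lemma tail {T : ℝ} (hT : 1 < T) {s : ℂ} (hs : s.re = 53 / 100) {m n : ℕ} (hm : 1 ≤ m)
    (hn : 1 ≤ n) (hmN : (m : ℝ) ≤ T ^ (1 / 1000 : ℝ)) :
    ‖(∑ r ∈ Finset.Icc 1 ⌊T⌋₊, (ph T (m * r) + ph T (n * r) - ph T (m * r) * ph T (n * r)) *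
        (((n * r : ℕ) : ℂ) ^ (-s) * ((m * r : ℕ) : ℂ) ^ (-s))) -
      riemannZeta (2 * s) * ((n : ℂ) ^ (-s) * (m : ℂ) ^ (-s))‖ ≤ Z1 * T ^ (-(3995 / 100000) : ℝ) := by
  have hT0 : 0 < T := by linarith
  have h2s : 1 < (2 * s).re := by
    rw [show (2 * s).re = 2 * s.re by simp, hs]; norm_num
  have h2s0 : (2 * s) ≠ 0 := by
    intro h; rw [h] at h2s; simp at h2s; linarith
  set c : ℂ := (n : ℂ) ^ (-s) * (m : ℂ) ^ (-s) with hc
  have hc1 : ‖c‖ ≤ 1 := by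
    rw [hc, norm_mul]
    exact mul_le_one₀ (norm_natCast_cpow_neg_le_one (by rw [hs]; norm_num) hn) (norm_nonneg _)
      (norm_natCast_cpow_neg_le_one (by rw [hs]; norm_num) hm)
  -- the general term
  have e1 : ∀ r : ℕ, ((n * r : ℕ) : ℂ) ^ (-s) * ((m * r : ℕ) : ℂ) ^ (-s) =
      c * (1 / (r : ℂ) ^ (2 * s)) := by
    intro r
    push_cast
    rw [natCast_mul_natCast_cpow, natCast_mul_natCast_cpow]
    rcases Nat.eq_zero_or_pos r with h | h
    · subst h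
      have hs0 : -s ≠ 0 := by
        intro h
        have := congrArg Complex.re h
        simp [hs] at this
      simp [zero_cpow hs0, zero_cpow h2s0]
    · have hr0 : (r : ℂ) ≠ 0 := by exact_mod_cast h.ne'
      have h3 : (1 : ℂ) / (r : ℂ) ^ (2 * s) = (r : ℂ) ^ (-s) * (r : ℂ) ^ (-s) := by
        rw [← cpow_add _ _ hr0, one_div, ← cpow_neg]
        congr 1; ring
      rw [h3, hc]; ring
  have hz : riemannZeta (2 * s) = ∑' r : ℕ, 1 / (r : ℂ) ^ (2 * s) :=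
    zeta_eq_tsum_one_div_nat_cpow h2s
  have hzs : Summable fun r : ℕ => 1 / (r : ℂ) ^ (2 * s) :=
    Complex.summable_one_div_nat_cpow.mpr h2s
  -- the finite sum as a series
  have h4 : (∑ r ∈ Finset.Icc 1 ⌊T⌋₊, (ph T (m * r) + ph T (n * r) - ph T (m * r) * ph T (n * r)) *
        (((n * r : ℕ) : ℂ) ^ (-s) * ((m * r : ℕ) : ℂ) ^ (-s))) =
      ∑' r : ℕ, (1 - (1 - ph T (m * r)) * (1 - ph T (n * r))) * (c * (1 / (r : ℂ) ^ (2 * s))) := by
    rw [tsum_eq_sum (s := Finset.Icc 1 ⌊T⌋₊)]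
    · refine Finset.sum_congr rfl fun r _ => ?_
      rw [e1 r]; ring
    · intro r hr
      rcases Nat.eq_zero_or_pos r with h | h
      · subst h
        simp [zero_cpow h2s0]
      · rw [Finset.mem_Icc, not_and] at hr
        have h5 : ⌊T⌋₊ < r := by
          have := hr h
          omega
        have h6 : ph T (m * r) = 0 :=
          ph_zero_floor hT (lt_of_lt_of_le h5 (Nat.le_mul_of_pos_left r hm))
        have h7 : ph T (n * r) = 0 :=
          ph_zero_floor hT (lt_of_lt_of_le h5 (Nat.le_mul_of_pos_left r hn))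
        rw [h6, h7]; ring
  have hsum1 : Summable fun r : ℕ =>
      (1 - (1 - ph T (m * r)) * (1 - ph T (n * r))) * (c * (1 / (r : ℂ) ^ (2 * s))) := by
    refine summable_of_ne_finset_zero (s := Finset.Icc 1 ⌊T⌋₊) ?_
    intro r hr
    rcases Nat.eq_zero_or_pos r with h | h
    · subst h
      simp [zero_cpow h2s0]
    · rw [Finset.mem_Icc, not_and] at hr
      have h5 : ⌊T⌋₊ < r := by
        have := hr h
        omega
      have h6 : ph T (m * r) = 0 :=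
        ph_zero_floor hT (lt_of_lt_of_le h5 (Nat.le_mul_of_pos_left r hm))
      have h7 : ph T (n * r) = 0 :=
        ph_zero_floor hT (lt_of_lt_of_le h5 (Nat.le_mul_of_pos_left r hn))
      rw [h6, h7]; ring
  have h8 : (∑' r : ℕ, (1 - (1 - ph T (m * r)) * (1 - ph T (n * r))) * (c * (1 / (r : ℂ) ^ (2 * s)))) -
      riemannZeta (2 * s) * c =
      ∑' r : ℕ, -((1 - ph T (m * r)) * (1 - ph T (n * r)) * (c * (1 / (r : ℂ) ^ (2 * s)))) := by
    rw [hz, ← tsum_mul_right, ← hsum1.tsum_sub (hzs.mul_right c)]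
    congr 1
    funext r
    ring
  rw [h4, h8, Z1, ← tsum_mul_right]
  have hbd : ∀ r : ℕ, ‖-((1 - ph T (m * r)) * (1 - ph T (n * r)) * (c * (1 / (r : ℂ) ^ (2 * s))))‖ ≤
      (r : ℝ) ^ (-(101 / 100) : ℝ) * T ^ (-(3995 / 100000) : ℝ) := by
    intro r
    rcases Nat.eq_zero_or_pos r with h | h
    · subst h
      simp only [Nat.cast_zero, zero_cpow h2s0, div_zero, mul_zero, neg_zero, norm_zero]
      positivity
    · have hr0 : (0 : ℝ) < r := by exact_mod_cast h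
      rw [norm_neg, norm_mul, norm_mul, norm_mul, norm_div, norm_one,
        norm_natCast_cpow_of_pos h]
      have hre : (2 * s).re = 106 / 100 := by
        rw [show (2 * s).re = 2 * s.re by simp, hs]; norm_num
      rw [hre]
      rcases le_or_gt (r : ℝ) (T ^ (799 / 1000 : ℝ)) with h9 | h9
      · have h10 : ph T (m * r) = 1 := by
          apply ph_one hT (Nat.mul_pos hm h)
          push_cast
          calc (m : ℝ) * r ≤ T ^ (1 / 1000 : ℝ) * T ^ (799 / 1000 : ℝ) := by gcongr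
            _ = T ^ (8 / 10 : ℝ) := by rw [← Real.rpow_add hT0]; norm_num
        rw [h10, sub_self, norm_zero, zero_mul, zero_mul]
        positivity
      · have h11 : (1 : ℝ) / (r : ℝ) ^ (106 / 100 : ℝ) =
            (r : ℝ) ^ (-(101 / 100) : ℝ) * (r : ℝ) ^ (-(5 / 100) : ℝ) := by
          rw [one_div, ← Real.rpow_neg hr0.le, ← Real.rpow_add hr0]
          norm_num
        have h12 : (r : ℝ) ^ (-(5 / 100) : ℝ) ≤ T ^ (-(3995 / 100000) : ℝ) := by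
          have h13 : T ^ (-(3995 / 100000) : ℝ) = (T ^ (799 / 1000 : ℝ)) ^ (-(5 / 100) : ℝ) := by
            rw [← Real.rpow_mul hT0.le]; norm_num
          rw [h13]
          exact Real.rpow_le_rpow_of_nonpos (Real.rpow_pos_of_pos hT0 _) h9.le (by norm_num)
        rw [h11]
        have a1 := one_sub_ph_norm T (m * r)
        have a2 := one_sub_ph_norm T (n * r)
        have a3 : 0 ≤ (r : ℝ) ^ (-(101 / 100) : ℝ) := Real.rpow_nonneg hr0.le _
        have a4 : 0 ≤ (r : ℝ) ^ (-(5 / 100) : ℝ) := Real.rpow_nonneg hr0.le _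
        calc ‖1 - ph T (m * r)‖ * ‖1 - ph T (n * r)‖ *
              (‖c‖ * ((r : ℝ) ^ (-(101 / 100) : ℝ) * (r : ℝ) ^ (-(5 / 100) : ℝ)))
            ≤ 1 * 1 * (1 * ((r : ℝ) ^ (-(101 / 100) : ℝ) * T ^ (-(3995 / 100000) : ℝ))) := by
              gcongr
          _ = _ := by ring
  exact tsum_of_norm_bounded (summ_Z1.mul_right _).hasSum hbd


open IngM

/-! ### Functions of polynomial growth -/

lemma pg_shift {F : ℝ → ℂ} (hF : PG F) (y : ℝ) : PG (fun t => F (t + y)) := by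
  obtain ⟨h1, C, m, hC, h2⟩ := hF
  refine ⟨h1.comp (by fun_prop), C * (1 + |y|) ^ m, m, by positivity, fun t => ?_⟩
  have h3 : 1 + |t + y| ≤ (1 + |y|) * (1 + |t|) := by
    have := abs_add_le t y
    nlinarith [abs_nonneg t, abs_nonneg y, mul_nonneg (abs_nonneg y) (abs_nonneg t)]
  calc ‖F (t + y)‖ ≤ C * (1 + |t + y|) ^ m := h2 _
    _ ≤ C * ((1 + |y|) * (1 + |t|)) ^ m := by
        have : 0 ≤ 1 + |t + y| := by positivity
        gcongr
    _ = _ := by rw [mul_pow]; ring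

lemma pg_neg {F : ℝ → ℂ} (hF : PG F) : PG (fun t => F (-t)) := by
  obtain ⟨h1, C, m, hC, h2⟩ := hF
  refine ⟨h1.comp (by fun_prop), C, m, hC, fun t => ?_⟩
  have := h2 (-t)
  rwa [abs_neg] at this

lemma pg_fs {n : ℕ} (hn : n ≠ 0) : PG (fun t => fs (t * I) n) := by
  have e : (fun t : ℝ => fs (t * I) n) = fun t : ℝ => cexp (((-Real.log n) * t : ℝ) * I) := by
    funext t; exact fs_mul_I t hn
  rw [e]
  refine ⟨by fun_prop, 1, 0, zero_le_one, fun t => ?_⟩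
  rw [norm_exp_ofReal_mul_I]
  simp

lemma conj_fs (s : ℂ) (n : ℕ) : (starRingEnd ℂ) (fs s n) = fs ((starRingEnd ℂ) s) n := by
  simp only [fs]
  have harg : ((n : ℕ) : ℂ).arg ≠ Real.pi := by
    rw [natCast_arg]; exact Real.pi_ne_zero.symm
  have := cpow_conj ((n : ℕ) : ℂ) (-s) harg
  rw [conj_natCast, map_neg] at this
  rw [this]

lemma fs_add' (s w : ℂ) {n : ℕ} (hn : n ≠ 0) : fs (s + w) n = (n : ℂ) ^ (-s) * fs w n := by
  rw [← tw_fs s w n hn]; rfl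

lemma conj_mul_I (t : ℝ) : (starRingEnd ℂ) ((t : ℂ) * I) = -((t : ℂ) * I) := by
  simp

lemma fs_sub' (s : ℂ) (t : ℝ) {n : ℕ} (hn : n ≠ 0) :
    fs (s - t * I) n = (n : ℂ) ^ (-s) * (starRingEnd ℂ) (fs (t * I) n) := by
  rw [conj_fs, conj_mul_I, sub_eq_add_neg, fs_add' s _ hn]

lemma conj_half : (starRingEnd ℂ) (1 / 2 : ℂ) = 1 / 2 := by
  rw [map_div₀, map_one, conj_ofNat]

lemma conj_fs_half (t : ℝ) {n : ℕ} (hn : n ≠ 0) :
    (starRingEnd ℂ) (fs (1 / 2 + t * I) n) = (n : ℂ) ^ (-(1 / 2 : ℂ)) * (starRingEnd ℂ) (fs (t * I) n) := by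
  rw [conj_fs, map_add, conj_mul_I, ← sub_eq_add_neg]
  rw [conj_half, fs_sub' _ _ hn]


lemma exp3 (X : ℂ) (P : Finset (ℕ × ℕ)) (J : Finset ℕ) (k : ℕ × ℕ → ℂ) (b : ℕ → ℂ)
    (u : ℕ × ℕ → ℂ) (v : ℕ → ℂ) :
    X * (∑ l ∈ J, b l * v l) * (∑ x ∈ P, k x * u x) =
      ∑ i ∈ P ×ˢ J, (k i.1 * b i.2) * (X * (u i.1 * v i.2)) := by
  rw [Finset.sum_product, mul_assoc, Finset.sum_mul_sum, Finset.sum_comm, Finset.mul_sum]
  refine Finset.sum_congr rfl fun x _ => ?_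
  rw [Finset.mul_sum]
  refine Finset.sum_congr rfl fun l _ => ?_
  ring

lemma exp4 (P : Finset (ℕ × ℕ)) (J : Finset ℕ) (k : ℕ × ℕ → ℂ) (b : ℕ → ℂ)
    (u : ℕ × ℕ → ℂ) (v v' : ℕ → ℂ) :
    (∑ l ∈ J, b l * v l) * (∑ l ∈ J, b l * v' l) * (∑ x ∈ P, k x * u x) =
      ∑ i ∈ P ×ˢ (J ×ˢ J), (k i.1 * (b i.2.1 * b i.2.2)) * (u i.1 * (v i.2.1 * v' i.2.2)) := by
  rw [Finset.sum_product, Finset.sum_mul_sum, mul_comm, Finset.sum_mul]
  refine Finset.sum_congr rfl fun x _ => ?_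
  rw [Finset.sum_product, Finset.mul_sum]
  refine Finset.sum_congr rfl fun l _ => ?_
  rw [Finset.mul_sum]
  refine Finset.sum_congr rfl fun l' _ => ?_
  ring

/-- the coefficient of the pair `(m, n)` -/
noncomputable def kk (c : ℕ → ℂ) (x : ℕ × ℕ) : ℂ :=
  c x.1 * (starRingEnd ℂ) (c x.2) * (x.1 : ℂ) ^ (-(1 / 2 : ℂ)) * (x.2 : ℂ) ^ (-(1 / 2 : ℂ))

/-- the coefficients of the smoothed sum -/
noncomputable def bb (T : ℝ) (s : ℂ) (l : ℕ) : ℂ := ph T l * (l : ℂ) ^ (-s)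

lemma half_norm {m : ℕ} (hm : 1 ≤ m) : ‖(m : ℂ) ^ (-(1 / 2 : ℂ))‖ ≤ 1 :=
  norm_natCast_cpow_neg_le_one (by norm_num) hm

lemma kk_norm (c : ℕ → ℂ) {x : ℕ × ℕ} (h1 : 1 ≤ x.1) (h2 : 1 ≤ x.2) :
    ‖kk c x‖ ≤ ‖c x.1‖ * ‖c x.2‖ := by
  unfold kk
  rw [norm_mul, norm_mul, norm_mul, RCLike.norm_conj]
  have a1 := half_norm h1
  have a2 := half_norm h2
  calc ‖c x.1‖ * ‖c x.2‖ * ‖(x.1 : ℂ) ^ (-(1 / 2 : ℂ))‖ * ‖(x.2 : ℂ) ^ (-(1 / 2 : ℂ))‖
      ≤ ‖c x.1‖ * ‖c x.2‖ * 1 * 1 := by gcongr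
    _ = _ := by ring

lemma kk_sum (c : ℕ → ℂ) (K : ℕ) {B : ℝ} (hB : ∑ n ∈ Finset.Icc 1 K, ‖c n‖ ≤ B) :
    ∑ x ∈ Finset.Icc 1 K ×ˢ Finset.Icc 1 K, ‖kk c x‖ ≤ B ^ 2 := by
  have h0 : 0 ≤ ∑ n ∈ Finset.Icc 1 K, ‖c n‖ := Finset.sum_nonneg fun _ _ => norm_nonneg _
  calc ∑ x ∈ Finset.Icc 1 K ×ˢ Finset.Icc 1 K, ‖kk c x‖
      ≤ ∑ x ∈ Finset.Icc 1 K ×ˢ Finset.Icc 1 K, ‖c x.1‖ * ‖c x.2‖ := by
        refine Finset.sum_le_sum fun x hx => ?_
        rw [Finset.mem_product, Finset.mem_Icc, Finset.mem_Icc] at hx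
        exact kk_norm c hx.1.1 hx.2.1
    _ = (∑ n ∈ Finset.Icc 1 K, ‖c n‖) * (∑ n ∈ Finset.Icc 1 K, ‖c n‖) := by
        rw [Finset.sum_product, Finset.sum_mul_sum]
    _ ≤ B ^ 2 := by
        rw [sq]
        exact mul_le_mul hB hB h0 (h0.trans hB)

lemma bb_norm (T : ℝ) {s : ℂ} (hs : 0 ≤ s.re) {l : ℕ} (hl : 1 ≤ l) : ‖bb T s l‖ ≤ 1 := by
  unfold bb
  rw [norm_mul]
  exact mul_le_one₀ (ph_norm T l) (norm_nonneg _) (norm_natCast_cpow_neg_le_one hs hl)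

lemma bb_sum {T : ℝ} (hT : 1 < T) {s : ℂ} (hs : 0 ≤ s.re) :
    ∑ l ∈ Finset.Icc 1 ⌊T⌋₊, ‖bb T s l‖ ≤ T := by
  calc ∑ l ∈ Finset.Icc 1 ⌊T⌋₊, ‖bb T s l‖ ≤ ∑ _l ∈ Finset.Icc 1 ⌊T⌋₊, (1 : ℝ) := by
        refine Finset.sum_le_sum fun l hl => ?_
        rw [Finset.mem_Icc] at hl
        exact bb_norm T hs hl.1
    _ = (⌊T⌋₊ : ℝ) := by simp
    _ ≤ T := Nat.floor_le (by linarith)

lemma bb_ne {T : ℝ} (hT : 1 < T) {s : ℂ} {l : ℕ} (h : bb T s l ≠ 0) :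
    (l : ℝ) ≤ T ^ (85 / 100 : ℝ) := by
  by_contra hcon
  push Not at hcon
  exact h (by rw [bb, ph_zero hT hcon.le, zero_mul])

/-- The sum of the three main terms for one pair `(m, n)`. -/
lemma three_terms {T : ℝ} (hT : 1 < T) (s : ℂ) {m n : ℕ} (hm : 1 ≤ m) (hn : 1 ≤ n) :
    (∑ l ∈ Finset.Icc 1 ⌊T⌋₊, bb T s l * (if m ∣ n * l then ((n * l / m : ℕ) : ℂ) ^ (-s) else 0)) +
    (∑ l ∈ Finset.Icc 1 ⌊T⌋₊, bb T s l * (if n ∣ m * l then ((m * l / n : ℕ) : ℂ) ^ (-s) else 0)) -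
    (∑ y ∈ Finset.Icc 1 ⌊T⌋₊ ×ˢ Finset.Icc 1 ⌊T⌋₊, (bb T s y.1 * bb T s y.2) *
      (if m * y.1 = n * y.2 then 1 else 0)) =
    ∑ r ∈ Finset.Icc 1 ⌊T⌋₊, (ph T (m / m.gcd n * r) + ph T (n / m.gcd n * r) -
        ph T (m / m.gcd n * r) * ph T (n / m.gcd n * r)) *
      (((n / m.gcd n * r : ℕ) : ℂ) ^ (-s) * ((m / m.gcd n * r : ℕ) : ℂ) ^ (-s)) := by
  set K := ⌊T⌋₊ with hK
  have hz : ∀ l, K < l → ph T l = 0 := fun l hl => ph_zero_floor hT hl
  -- first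
  have hA : ∑ l ∈ Finset.Icc 1 K, bb T s l * (if m ∣ n * l then ((n * l / m : ℕ) : ℂ) ^ (-s) else 0) =
      ∑ r ∈ Finset.Icc 1 K, ph T (m / m.gcd n * r) * ((m / m.gcd n * r : ℕ) : ℂ) ^ (-s) *
        ((n / m.gcd n * r : ℕ) : ℂ) ^ (-s) := by
    rw [← sum_conv K m n hm (fun l k => ph T l * (l : ℂ) ^ (-s) * (k : ℂ) ^ (-s))
      (fun l k hl => by rw [hz l hl]; ring)]
    refine Finset.sum_congr rfl fun l _ => ?_
    split_ifs with h
    · rw [bb]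
    · rw [mul_zero]
  -- second
  have hB : ∑ l ∈ Finset.Icc 1 K, bb T s l * (if n ∣ m * l then ((m * l / n : ℕ) : ℂ) ^ (-s) else 0) =
      ∑ r ∈ Finset.Icc 1 K, ph T (n / m.gcd n * r) * ((n / m.gcd n * r : ℕ) : ℂ) ^ (-s) *
        ((m / m.gcd n * r : ℕ) : ℂ) ^ (-s) := by
    rw [Nat.gcd_comm m n, ← sum_conv K n m hn (fun l k => ph T l * (l : ℂ) ^ (-s) * (k : ℂ) ^ (-s))
      (fun l k hl => by rw [hz l hl]; ring)]
    refine Finset.sum_congr rfl fun l _ => ?_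
    split_ifs with h
    · rw [bb]
    · rw [mul_zero]
  -- third
  have hC : ∑ y ∈ Finset.Icc 1 K ×ˢ Finset.Icc 1 K, (bb T s y.1 * bb T s y.2) *
      (if m * y.1 = n * y.2 then 1 else 0) =
      ∑ r ∈ Finset.Icc 1 K, ph T (n / m.gcd n * r) * ((n / m.gcd n * r : ℕ) : ℂ) ^ (-s) *
        (ph T (m / m.gcd n * r) * ((m / m.gcd n * r : ℕ) : ℂ) ^ (-s)) := by
    rw [Nat.gcd_comm m n, ← sum_conv K n m hn
      (fun l k => ph T l * (l : ℂ) ^ (-s) * (ph T k * (k : ℂ) ^ (-s)))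
      (fun l k hl => by rw [hz l hl]; ring), Finset.sum_product]
    refine Finset.sum_congr rfl fun l hl => ?_
    rw [Finset.mem_Icc] at hl
    simp only
    split_ifs with h
    · obtain ⟨q, hq⟩ := h
      have hn0 : 0 < n := hn
      have hq1 : m * l / n = q := by rw [hq]; exact Nat.mul_div_cancel_left _ hn0
      have hq0 : 1 ≤ q := by
        rcases Nat.eq_zero_or_pos q with h0 | h0
        · rw [h0, mul_zero] at hq
          have : 0 < m * l := Nat.mul_pos hm hl.1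
          omega
        · exact h0
      rw [hq1]
      have hiff : ∀ y : ℕ, m * l = n * y ↔ y = q := by
        intro y
        rw [hq]
        constructor
        · intro h1; exact (Nat.eq_of_mul_eq_mul_left hn0 h1).symm
        · intro h1; rw [h1]
      simp only [hiff, mul_ite, mul_one, mul_zero]
      rw [Finset.sum_ite_eq']
      split_ifs with h2
      · rw [bb, bb]
      · rw [Finset.mem_Icc, not_and] at h2
        have h3 : K < q := by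
          have := h2 hq0
          omega
        rw [hz q h3]; ring
    · refine Finset.sum_eq_zero fun y _ => ?_
      rw [if_neg, mul_zero]
      intro h1
      exact h ⟨y, h1⟩
  rw [hA, hB, hC, ← Finset.sum_add_distrib, ← Finset.sum_sub_distrib]
  refine Finset.sum_congr rfl fun r _ => ?_
  ring


open IngM

/-- the remainder `ζ - S` on the line `Re s = 53/100` -/
noncomputable def rem (T : ℝ) (t : ℝ) : ℂ :=
  riemannZeta (((53 / 100 : ℝ) : ℂ) + t * I) - SS T (fs (((53 / 100 : ℝ) : ℂ) + t * I))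

lemma pg_SS {T : ℝ} (hT : 1 < T) : PG (fun t => SS T (fs (((53 / 100 : ℝ) : ℂ) + t * I))) :=
  DP.pg (dp_SS hT) (Real.one_le_rpow hT.le (by norm_num)) (by norm_num)

lemma pg_rem {T : ℝ} (hT : 1 < T) : PG (rem T) :=
  (pg_zeta (by norm_num) (by norm_num)).sub (pg_SS hT)

/-- conjugate pairing -/
lemma pair_conj {T τ : ℝ} {a : ℂ} {ε : ℝ} {u v : ℕ}
    (h : ‖EG T τ (fun t => riemannZeta (1 / 2 + (starRingEnd ℂ) a + t * I) *
      (fs (t * I) u * (starRingEnd ℂ) (fs (t * I) v))) -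
      (if u ∣ v then ((v / u : ℕ) : ℂ) ^ (-(1 / 2 + (starRingEnd ℂ) a)) else 0)‖ ≤ ε) :
    ‖EG T τ (fun t => riemannZeta (1 / 2 + a - t * I) *
      (fs (t * I) v * (starRingEnd ℂ) (fs (t * I) u))) -
      (if u ∣ v then ((v / u : ℕ) : ℂ) ^ (-(1 / 2 + a)) else 0)‖ ≤ ε := by
  refine le_trans (le_of_eq ?_) h
  rw [← RCLike.norm_conj (EG T τ (fun t => riemannZeta (1 / 2 + (starRingEnd ℂ) a + t * I) *
      (fs (t * I) u * (starRingEnd ℂ) (fs (t * I) v))) -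
      (if u ∣ v then ((v / u : ℕ) : ℂ) ^ (-(1 / 2 + (starRingEnd ℂ) a)) else 0))]
  congr 1
  rw [map_sub, ← eg_conj]
  congr 1
  · congr 1
    funext t
    rw [map_mul, map_mul, conj_conj, ← riemannZeta_conj]
    have e : (starRingEnd ℂ) (1 / 2 + (starRingEnd ℂ) a + t * I) = 1 / 2 + a - t * I := by
      rw [map_add, map_add, conj_half, conj_conj, conj_mul_I, sub_eq_add_neg]
    rw [e]; ring
  · split_ifs with h1
    · have := conj_fs (1 / 2 + (starRingEnd ℂ) a) (v / u)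
      simp only [fs] at this
      rw [this, map_add, conj_half, conj_conj]
    · rw [map_zero]

/-- the remainder term -/
lemma rem_bound {T τ y B : ℝ} (hT : 1 < T) {W : ℝ → ℂ}
    (hWB : ∀ t, ‖W t‖ ≤ B ^ 2) {E : ℝ}
    (h1 : EG T (τ + y) (fun t => ‖rem T t‖ ^ 2) ≤ E)
    (h2 : EG T (-τ + y) (fun t => ‖rem T t‖ ^ 2) ≤ E) :
    ‖EG T τ (fun t => rem T (t + y) * rem T (-t + y) * W t)‖ ≤ B ^ 2 * E := by
  have hp := pg_rem hT
  have hp1 : PG (fun t => rem T (t + y)) := pg_shift hp y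
  have hp2 : PG (fun t => rem T (-t + y)) := pg_neg (pg_shift hp y)
  have i1 := hp1.integrable_sq τ (VV T)
  have i2 := hp2.integrable_sq τ (VV T)
  have e1 : EG T τ (fun t => ‖rem T (t + y)‖ ^ 2) = EG T (τ + y) (fun t => ‖rem T t‖ ^ 2) :=
    eg_shift T τ y (fun t => ‖rem T t‖ ^ 2)
  have e2 : EG T τ (fun t => ‖rem T (-t + y)‖ ^ 2) = EG T (-τ + y) (fun t => ‖rem T t‖ ^ 2) := by
    rw [eg_neg T τ (fun t => ‖rem T (t + y)‖ ^ 2)]
    exact eg_shift T (-τ) y (fun t => ‖rem T t‖ ^ 2)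
  have hB0 : 0 ≤ B ^ 2 := sq_nonneg B
  calc ‖EG T τ (fun t => rem T (t + y) * rem T (-t + y) * W t)‖
      ≤ EG T τ (fun t => ‖rem T (t + y) * rem T (-t + y) * W t‖) := norm_integral_le_integral_norm _
    _ ≤ EG T τ (fun t => B ^ 2 / 2 * (‖rem T (t + y)‖ ^ 2 + ‖rem T (-t + y)‖ ^ 2)) := by
        unfold EG
        refine integral_mono_of_nonneg (Filter.Eventually.of_forall fun t => norm_nonneg _)
          ((i1.add i2).const_mul _) (Filter.Eventually.of_forall fun t => ?_)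
        simp only [norm_mul]
        have h3 := hWB t
        have h4 : ‖rem T (t + y)‖ * ‖rem T (-t + y)‖ ≤
            (‖rem T (t + y)‖ ^ 2 + ‖rem T (-t + y)‖ ^ 2) / 2 := by
          nlinarith [sq_nonneg (‖rem T (t + y)‖ - ‖rem T (-t + y)‖)]
        calc ‖rem T (t + y)‖ * ‖rem T (-t + y)‖ * ‖W t‖
            ≤ (‖rem T (t + y)‖ ^ 2 + ‖rem T (-t + y)‖ ^ 2) / 2 * B ^ 2 := by gcongr
          _ = _ := by ring
    _ = B ^ 2 / 2 * (EG T τ (fun t => ‖rem T (t + y)‖ ^ 2) +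
          EG T τ (fun t => ‖rem T (-t + y)‖ ^ 2)) := by
        unfold EG
        rw [integral_const_mul, integral_add i1 i2]
    _ ≤ B ^ 2 / 2 * (E + E) := by
        rw [e1, e2]; gcongr
    _ = B ^ 2 * E := by ring


open IngM

lemma pg_add {F G : ℝ → ℂ} (hF : PG F) (hG : PG G) : PG (fun t => F t + G t) := by
  have h0 : PG (fun _ : ℝ => (0 : ℂ)) := ⟨continuous_const, 0, 0, le_rfl, fun t => by simp⟩
  have h := hF.sub (h0.sub hG)
  simpa using h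

lemma pg_sum {ι : Type*} (s : Finset ι) {F : ι → ℝ → ℂ} (h : ∀ i ∈ s, PG (F i)) :
    PG (fun t => ∑ i ∈ s, F i t) := by
  classical
  induction s using Finset.induction_on with
  | empty => exact ⟨by simpa using continuous_const, 0, 0, le_rfl, fun t => by simp⟩
  | insert a s ha ih =>
    simp only [Finset.sum_insert ha]
    exact pg_add (h a (Finset.mem_insert_self _ _))
      (ih fun i hi => h i (Finset.mem_insert_of_mem hi))

lemma pg_cst (c : ℂ) : PG (fun _ : ℝ => c) := ⟨continuous_const, ‖c‖, 0, norm_nonneg _, fun t => by simp⟩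

lemma fs_mul (t : ℝ) {m n : ℕ} (hm : m ≠ 0) (hn : n ≠ 0) :
    fs (t * I) (m * n) = fs (t * I) m * fs (t * I) n := (cmul_fs _).2 m n hm hn

/-- The whole computation for fixed data. -/
lemma core {T τ y E B ε₁ ε₂ : ℝ} (hT : 1 < T) {M : ℕ} {G : (ℕ → ℂ) → ℂ} {a : ℂ}
    (ha : a.re = 3 / 100) (hy : a.im = y) (c : ℕ → ℂ) (K : ℕ) (hK : (K : ℝ) ≤ T ^ (1 / 1000 : ℝ))
    (hcB : ∑ n ∈ Finset.Icc 1 K, ‖c n‖ ≤ B)
    (hG : ∀ f, CMul f → G f = ∑ n ∈ Finset.Icc 1 K, c n * f n)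
    (hRA : RA T M G a a = ∑ m ∈ Finset.Icc 1 K, ∑ n ∈ Finset.Icc 1 K, c m * (starRingEnd ℂ) (c n) *
          (m : ℂ) ^ (-(1 / 2 : ℂ)) * (n : ℂ) ^ (-(1 / 2 : ℂ)) *
          ((n / m.gcd n : ℕ) : ℂ) ^ (-(1 / 2 + a)) * ((m / m.gcd n : ℕ) : ℂ) ^ (-(1 / 2 + a)))
    (hp1 : ∀ u v : ℕ, 1 ≤ u → 1 ≤ v → (u : ℝ) ≤ T ^ (9 / 10 : ℝ) → (v : ℝ) ≤ T ^ (9 / 10 : ℝ) →
      ‖EG T τ (fun t => riemannZeta (1 / 2 + a + t * I) * (fs (t * I) u *
        (starRingEnd ℂ) (fs (t * I) v))) - (if u ∣ v then ((v / u : ℕ) : ℂ) ^ (-(1 / 2 + a)) else 0)‖ ≤ ε₁)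
    (hp2 : ∀ u v : ℕ, 1 ≤ u → 1 ≤ v → (u : ℝ) ≤ T ^ (9 / 10 : ℝ) → (v : ℝ) ≤ T ^ (9 / 10 : ℝ) →
      ‖EG T τ (fun t => riemannZeta (1 / 2 + a - t * I) * (fs (t * I) v *
        (starRingEnd ℂ) (fs (t * I) u))) - (if u ∣ v then ((v / u : ℕ) : ℂ) ^ (-(1 / 2 + a)) else 0)‖ ≤ ε₁)
    (hp3 : ∀ u v : ℕ, 1 ≤ u → 1 ≤ v → (u : ℝ) ≤ T ^ (9 / 10 : ℝ) → (v : ℝ) ≤ T ^ (9 / 10 : ℝ) →
      ‖EG T τ (fun t => fs (t * I) u * (starRingEnd ℂ) (fs (t * I) v)) -
        (if u = v then 1 else 0)‖ ≤ ε₂)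
    (hr1 : EG T (τ + y) (fun t => ‖rem T t‖ ^ 2) ≤ E)
    (hr2 : EG T (-τ + y) (fun t => ‖rem T t‖ ^ 2) ≤ E) :
    ‖FG T τ G a - riemannZeta (1 + 2 * a) * RA T M G a a‖ ≤
      B ^ 2 * E + (B ^ 2 * T * ε₁ + B ^ 2 * T * ε₁ + B ^ 2 * T ^ 2 * ε₂) +
        B ^ 2 * (Z1 * T ^ (-(3995 / 100000) : ℝ)) := by
  have hT0 : 0 < T := by linarith
  set s : ℂ := 1 / 2 + a with hs
  have hsre : s.re = 53 / 100 := by rw [hs, add_re, ha]; norm_num
  have hsre0 : 0 ≤ s.re := by rw [hsre]; norm_num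
  have ha' : a = (3 / 100 : ℂ) + y * I := by
    apply Complex.ext
    · simp [ha]
    · simp [hy]
  have hB0 : 0 ≤ B := (Finset.sum_nonneg fun _ _ => norm_nonneg _).trans hcB
  set P := Finset.Icc 1 K ×ˢ Finset.Icc 1 K with hP
  set J := Finset.Icc 1 ⌊T⌋₊ with hJ
  set Z : ℝ → ℂ := fun t => riemannZeta (1 / 2 + a + t * I) with hZdef
  set Z' : ℝ → ℂ := fun t => riemannZeta (1 / 2 + a - t * I) with hZdef'
  set S : ℝ → ℂ := fun t => ∑ l ∈ J, bb T s l * fs (t * I) l with hSdef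
  set S' : ℝ → ℂ := fun t => ∑ l ∈ J, bb T s l * (starRingEnd ℂ) (fs (t * I) l) with hSdef'
  set W : ℝ → ℂ := fun t => ∑ x ∈ P, kk c x * (fs (t * I) x.1 * (starRingEnd ℂ) (fs (t * I) x.2))
    with hWdef
  have memP : ∀ x ∈ P, (1 ≤ x.1 ∧ x.1 ≤ K) ∧ (1 ≤ x.2 ∧ x.2 ≤ K) := by
    intro x hx
    rwa [hP, Finset.mem_product, Finset.mem_Icc, Finset.mem_Icc] at hx
  have memJ : ∀ l ∈ J, 1 ≤ l := fun l hl => (Finset.mem_Icc.mp hl).1
  -- the sums
  have hS : ∀ t : ℝ, SS T (fs (1 / 2 + a + t * I)) = S t := by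
    intro t
    rw [SS, hSdef]
    refine Finset.sum_congr rfl fun l hl => ?_
    rw [← hs, fs_add' s _ (Nat.one_le_iff_ne_zero.mp (memJ l hl)), bb, ph]
    ring
  have hS' : ∀ t : ℝ, SS T (fs (1 / 2 + a - t * I)) = S' t := by
    intro t
    rw [SS, hSdef']
    refine Finset.sum_congr rfl fun l hl => ?_
    rw [← hs, fs_sub' s _ (Nat.one_le_iff_ne_zero.mp (memJ l hl)), bb, ph]
    ring
  have e1 : ∀ t : ℝ, (((53 / 100 : ℝ) : ℂ) + ((t + y : ℝ) : ℂ) * I) = 1 / 2 + a + t * I := by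
    intro t
    rw [ha']; push_cast; ring
  have e2 : ∀ t : ℝ, (((53 / 100 : ℝ) : ℂ) + ((-t + y : ℝ) : ℂ) * I) = 1 / 2 + a - t * I := by
    intro t
    rw [ha']; push_cast; ring
  have hr : ∀ t : ℝ, rem T (t + y) = Z t - S t := by
    intro t
    rw [rem, e1 t, hS t]
  have hr' : ∀ t : ℝ, rem T (-t + y) = Z' t - S' t := by
    intro t
    rw [rem, e2 t, hS' t]
  have hGs : ∀ t : ℝ, G (fs (1 / 2 + t * I)) =
      ∑ n ∈ Finset.Icc 1 K, c n * ((n : ℂ) ^ (-(1 / 2 : ℂ)) * fs (t * I) n) := by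
    intro t
    rw [hG _ (cmul_fs _)]
    refine Finset.sum_congr rfl fun n hn => ?_
    rw [fs_add' (1 / 2) _ (Nat.one_le_iff_ne_zero.mp (Finset.mem_Icc.mp hn).1)]
  have hW : ∀ t : ℝ, G (fs (1 / 2 + t * I)) * (starRingEnd ℂ) (G (fs (1 / 2 + t * I))) = W t := by
    intro t
    have h1 : (starRingEnd ℂ) (G (fs (1 / 2 + t * I))) = ∑ n ∈ Finset.Icc 1 K,
        (starRingEnd ℂ) (c n) * ((n : ℂ) ^ (-(1 / 2 : ℂ)) * (starRingEnd ℂ) (fs (t * I) n)) := by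
      rw [hG _ (cmul_fs _), map_sum]
      refine Finset.sum_congr rfl fun n hn => ?_
      rw [map_mul, conj_fs_half t (Nat.one_le_iff_ne_zero.mp (Finset.mem_Icc.mp hn).1)]
    rw [h1, hGs t, Finset.sum_mul_sum, hWdef]
    simp only
    rw [hP, Finset.sum_product]
    refine Finset.sum_congr rfl fun m _ => Finset.sum_congr rfl fun n _ => ?_
    rw [kk]
    ring
  -- growth
  have pZ : PG Z := by
    have h := pg_shift (pg_zeta (σ := 53 / 100) (by norm_num) (by norm_num)) y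
    have e : (fun t : ℝ => riemannZeta (((53 / 100 : ℝ) : ℂ) + ((t + y : ℝ) : ℂ) * I)) = Z := by
      funext t; rw [e1 t]
    rwa [e] at h
  have pZ' : PG Z' := by
    have h := pg_neg (pg_shift (pg_zeta (σ := 53 / 100) (by norm_num) (by norm_num)) y)
    have e : (fun t : ℝ => riemannZeta (((53 / 100 : ℝ) : ℂ) + ((-t + y : ℝ) : ℂ) * I)) = Z' := by
      funext t; rw [e2 t]
    rwa [e] at h
  have pfs : ∀ {n : ℕ}, 1 ≤ n → PG (fun t => fs (t * I) n) := fun hn =>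
    pg_fs (Nat.one_le_iff_ne_zero.mp hn)
  have pS : PG S := pg_sum J fun l hl => (pg_cst _).mul (pfs (memJ l hl))
  have pS' : PG S' := pg_sum J fun l hl => (pg_cst _).mul (pfs (memJ l hl)).conj
  have pW : PG W := pg_sum P fun x hx =>
    (pg_cst _).mul ((pfs (memP x hx).1.1).mul (pfs (memP x hx).2.1).conj)
  -- bound of W
  have hfs1 : ∀ (t : ℝ) {n : ℕ}, 1 ≤ n → ‖fs (t * I) n‖ ≤ 1 := by
    intro t n hn
    rw [norm_fs _ (Nat.one_le_iff_ne_zero.mp hn)]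
    simp
  have hWB : ∀ t, ‖W t‖ ≤ B ^ 2 := by
    intro t
    refine le_trans ?_ (kk_sum c K hcB)
    refine (norm_sum_le _ _).trans (Finset.sum_le_sum fun x hx => ?_)
    rw [norm_mul, norm_mul, RCLike.norm_conj]
    exact mul_le_of_le_one_right (norm_nonneg _)
      (mul_le_one₀ (hfs1 t (memP x hx).1.1) (norm_nonneg _) (hfs1 t (memP x hx).2.1))
  -- splitting
  have hFG : FG T τ G a = EG T τ (fun t => rem T (t + y) * rem T (-t + y) * W t) +
      (EG T τ (fun t => Z t * S' t * W t) + EG T τ (fun t => Z' t * S t * W t) -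
        EG T τ (fun t => S t * S' t * W t)) := by
    have i0 : Integrable (fun t => rem T (t + y) * rem T (-t + y) * W t) (gaussianReal τ (VV T)) :=
      (((pg_shift (pg_rem hT) y).mul (pg_neg (pg_shift (pg_rem hT) y))).mul pW).integrable _ _
    have i1 : Integrable (fun t => Z t * S' t * W t) (gaussianReal τ (VV T)) :=
      ((pZ.mul pS').mul pW).integrable _ _
    have i2 : Integrable (fun t => Z' t * S t * W t) (gaussianReal τ (VV T)) :=
      ((pZ'.mul pS).mul pW).integrable _ _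
    have i3 : Integrable (fun t => S t * S' t * W t) (gaussianReal τ (VV T)) :=
      ((pS.mul pS').mul pW).integrable _ _
    have i12 : Integrable (fun t => Z t * S' t * W t + Z' t * S t * W t) (gaussianReal τ (VV T)) :=
      i1.add i2
    have i123 : Integrable (fun t => Z t * S' t * W t + Z' t * S t * W t - S t * S' t * W t)
      (gaussianReal τ (VV T)) := i12.sub i3
    unfold FG EG
    rw [← integral_add i1 i2, ← integral_sub i12 i3, ← integral_add i0 i123]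
    congr 1
    funext t
    beta_reduce
    rw [hW t, hr t, hr' t]
    simp only [hZdef, hZdef']
    ring
  -- sizes
  have hsz : ∀ {m l : ℕ}, m ≤ K → (l : ℝ) ≤ T ^ (85 / 100 : ℝ) → ((m * l : ℕ) : ℝ) ≤ T ^ (9 / 10 : ℝ) := by
    intro m l h1 h2
    push_cast
    have h3 : (m : ℝ) ≤ T ^ (1 / 1000 : ℝ) := le_trans (by exact_mod_cast h1) hK
    calc (m : ℝ) * l ≤ T ^ (1 / 1000 : ℝ) * T ^ (85 / 100 : ℝ) := by gcongr
      _ = T ^ (851 / 1000 : ℝ) := by rw [← Real.rpow_add hT0]; norm_num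
      _ ≤ T ^ (9 / 10 : ℝ) := Real.rpow_le_rpow_of_exponent_le hT.le (by norm_num)
  have hsz1 : ∀ {m : ℕ}, m ≤ K → (m : ℝ) ≤ T ^ (9 / 10 : ℝ) := by
    intro m h1
    have h3 : (m : ℝ) ≤ T ^ (1 / 1000 : ℝ) := le_trans (by exact_mod_cast h1) hK
    exact h3.trans (Real.rpow_le_rpow_of_exponent_le hT.le (by norm_num))
  have hε₁ : 0 ≤ ε₁ := by
    refine (norm_nonneg _).trans (hp1 1 1 le_rfl le_rfl ?_ ?_) <;>
    · rw [Nat.cast_one]; exact Real.one_le_rpow hT.le (by norm_num)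
  have hε₂ : 0 ≤ ε₂ := by
    refine (norm_nonneg _).trans (hp3 1 1 le_rfl le_rfl ?_ ?_) <;>
    · rw [Nat.cast_one]; exact Real.one_le_rpow hT.le (by norm_num)
  have hw3 : ∑ i ∈ P ×ˢ J, ‖kk c i.1 * bb T s i.2‖ ≤ B ^ 2 * T := by
    rw [Finset.sum_product]
    simp only [norm_mul]
    rw [← Finset.sum_mul_sum]
    exact mul_le_mul (kk_sum c K hcB) (bb_sum hT hsre0) (Finset.sum_nonneg fun _ _ => norm_nonneg _)
      (sq_nonneg _)
  have hw4 : ∑ i ∈ P ×ˢ (J ×ˢ J), ‖kk c i.1 * (bb T s i.2.1 * bb T s i.2.2)‖ ≤ B ^ 2 * T ^ 2 := by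
    rw [Finset.sum_product]
    simp only [norm_mul]
    rw [← Finset.sum_mul_sum P (J ×ˢ J) (fun x => ‖kk c x‖) (fun z => ‖bb T s z.1‖ * ‖bb T s z.2‖)]
    refine mul_le_mul (kk_sum c K hcB) ?_ (Finset.sum_nonneg fun _ _ => by positivity) (sq_nonneg _)
    rw [Finset.sum_product]
    simp only
    rw [← Finset.sum_mul_sum, sq]
    exact mul_le_mul (bb_sum hT hsre0) (bb_sum hT hsre0)
      (Finset.sum_nonneg fun _ _ => norm_nonneg _) hT0.le
  -- the three main terms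
  have hA : ‖EG T τ (fun t => Z t * S' t * W t) - ∑ i ∈ P ×ˢ J, (kk c i.1 * bb T s i.2) *
      (if i.1.1 ∣ i.1.2 * i.2 then ((i.1.2 * i.2 / i.1.1 : ℕ) : ℂ) ^ (-s) else 0)‖ ≤
      B ^ 2 * T * ε₁ := by
    have e : (fun t : ℝ => Z t * S' t * W t) = fun t : ℝ => ∑ i ∈ P ×ˢ J, (kk c i.1 * bb T s i.2) *
        (Z t * ((fs (t * I) i.1.1 * (starRingEnd ℂ) (fs (t * I) i.1.2)) *
          (starRingEnd ℂ) (fs (t * I) i.2))) := by
      funext t
      exact exp3 (Z t) P J (kk c) (bb T s)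
        (fun x => fs (t * I) x.1 * (starRingEnd ℂ) (fs (t * I) x.2))
        (fun l => (starRingEnd ℂ) (fs (t * I) l))
    rw [e]
    refine (eg_sum_approx (P ×ˢ J) T τ (fun i => kk c i.1 * bb T s i.2)
      (fun i t => Z t * ((fs (t * I) i.1.1 * (starRingEnd ℂ) (fs (t * I) i.1.2)) *
          (starRingEnd ℂ) (fs (t * I) i.2)))
      (fun i => if i.1.1 ∣ i.1.2 * i.2 then ((i.1.2 * i.2 / i.1.1 : ℕ) : ℂ) ^ (-s) else 0) ε₁
      ?_ ?_).trans (mul_le_mul_of_nonneg_right hw3 hε₁)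
    · intro i hi
      rw [Finset.mem_product] at hi
      obtain ⟨h1, h2⟩ := memP _ hi.1
      exact (pZ.mul (((pfs h1.1).mul (pfs h2.1).conj).mul (pfs (memJ _ hi.2)).conj)).integrable _ _
    · intro i hi hw
      rw [Finset.mem_product] at hi
      obtain ⟨h1, h2⟩ := memP _ hi.1
      have h3 := memJ _ hi.2
      have h4 := bb_ne hT (right_ne_zero_of_mul hw)
      have e3 : (fun t : ℝ => Z t * ((fs (t * I) i.1.1 * (starRingEnd ℂ) (fs (t * I) i.1.2)) *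
          (starRingEnd ℂ) (fs (t * I) i.2))) = fun t : ℝ => riemannZeta (1 / 2 + a + t * I) *
          (fs (t * I) i.1.1 * (starRingEnd ℂ) (fs (t * I) (i.1.2 * i.2))) := by
        funext t
        rw [fs_mul t (Nat.one_le_iff_ne_zero.mp h2.1) (Nat.one_le_iff_ne_zero.mp h3), map_mul]
        simp only [hZdef]
        ring
      simp only [e3]
      exact hp1 _ _ h1.1 (Nat.mul_pos h2.1 h3) (hsz1 h1.2) (hsz h2.2 h4)
  have hB' : ‖EG T τ (fun t => Z' t * S t * W t) - ∑ i ∈ P ×ˢ J, (kk c i.1 * bb T s i.2) *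
      (if i.1.2 ∣ i.1.1 * i.2 then ((i.1.1 * i.2 / i.1.2 : ℕ) : ℂ) ^ (-s) else 0)‖ ≤
      B ^ 2 * T * ε₁ := by
    have e : (fun t : ℝ => Z' t * S t * W t) = fun t : ℝ => ∑ i ∈ P ×ˢ J, (kk c i.1 * bb T s i.2) *
        (Z' t * ((fs (t * I) i.1.1 * (starRingEnd ℂ) (fs (t * I) i.1.2)) * fs (t * I) i.2)) := by
      funext t
      exact exp3 (Z' t) P J (kk c) (bb T s)
        (fun x => fs (t * I) x.1 * (starRingEnd ℂ) (fs (t * I) x.2))
        (fun l => fs (t * I) l)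
    rw [e]
    refine (eg_sum_approx (P ×ˢ J) T τ (fun i => kk c i.1 * bb T s i.2)
      (fun i t => Z' t * ((fs (t * I) i.1.1 * (starRingEnd ℂ) (fs (t * I) i.1.2)) *
          fs (t * I) i.2))
      (fun i => if i.1.2 ∣ i.1.1 * i.2 then ((i.1.1 * i.2 / i.1.2 : ℕ) : ℂ) ^ (-s) else 0) ε₁
      ?_ ?_).trans (mul_le_mul_of_nonneg_right hw3 hε₁)
    · intro i hi
      rw [Finset.mem_product] at hi
      obtain ⟨h1, h2⟩ := memP _ hi.1
      exact (pZ'.mul (((pfs h1.1).mul (pfs h2.1).conj).mul (pfs (memJ _ hi.2)))).integrable _ _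
    · intro i hi hw
      rw [Finset.mem_product] at hi
      obtain ⟨h1, h2⟩ := memP _ hi.1
      have h3 := memJ _ hi.2
      have h4 := bb_ne hT (right_ne_zero_of_mul hw)
      have e3 : (fun t : ℝ => Z' t * ((fs (t * I) i.1.1 * (starRingEnd ℂ) (fs (t * I) i.1.2)) *
          fs (t * I) i.2)) = fun t : ℝ => riemannZeta (1 / 2 + a - t * I) *
          (fs (t * I) (i.1.1 * i.2) * (starRingEnd ℂ) (fs (t * I) i.1.2)) := by
        funext t
        rw [fs_mul t (Nat.one_le_iff_ne_zero.mp h1.1) (Nat.one_le_iff_ne_zero.mp h3)]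
        simp only [hZdef']
        ring
      simp only [e3]
      exact hp2 _ _ h2.1 (Nat.mul_pos h1.1 h3) (hsz1 h2.2) (hsz h1.2 h4)
  have hC' : ‖EG T τ (fun t => S t * S' t * W t) - ∑ i ∈ P ×ˢ (J ×ˢ J),
      (kk c i.1 * (bb T s i.2.1 * bb T s i.2.2)) *
      (if i.1.1 * i.2.1 = i.1.2 * i.2.2 then 1 else 0)‖ ≤ B ^ 2 * T ^ 2 * ε₂ := by
    have e : (fun t : ℝ => S t * S' t * W t) = fun t : ℝ => ∑ i ∈ P ×ˢ (J ×ˢ J),
        (kk c i.1 * (bb T s i.2.1 * bb T s i.2.2)) *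
        ((fs (t * I) i.1.1 * (starRingEnd ℂ) (fs (t * I) i.1.2)) *
          (fs (t * I) i.2.1 * (starRingEnd ℂ) (fs (t * I) i.2.2))) := by
      funext t
      exact exp4 P J (kk c) (bb T s)
        (fun x => fs (t * I) x.1 * (starRingEnd ℂ) (fs (t * I) x.2))
        (fun l => fs (t * I) l) (fun l => (starRingEnd ℂ) (fs (t * I) l))
    rw [e]
    refine (eg_sum_approx (P ×ˢ (J ×ˢ J)) T τ (fun i => kk c i.1 * (bb T s i.2.1 * bb T s i.2.2))
      (fun i t => (fs (t * I) i.1.1 * (starRingEnd ℂ) (fs (t * I) i.1.2)) *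
          (fs (t * I) i.2.1 * (starRingEnd ℂ) (fs (t * I) i.2.2)))
      (fun i => if i.1.1 * i.2.1 = i.1.2 * i.2.2 then 1 else 0) ε₂
      ?_ ?_).trans (mul_le_mul_of_nonneg_right hw4 hε₂)
    · intro i hi
      obtain ⟨hi1, hi2⟩ := Finset.mem_product.mp hi
      obtain ⟨hi3, hi4⟩ := Finset.mem_product.mp hi2
      obtain ⟨h1, h2⟩ := memP _ hi1
      exact (((pfs h1.1).mul (pfs h2.1).conj).mul
        ((pfs (memJ _ hi3)).mul (pfs (memJ _ hi4)).conj)).integrable _ _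
    · intro i hi hw
      obtain ⟨hi1, hi2⟩ := Finset.mem_product.mp hi
      obtain ⟨hi3, hi4⟩ := Finset.mem_product.mp hi2
      obtain ⟨h1, h2⟩ := memP _ hi1
      have h3 := memJ _ hi3
      have h3' := memJ _ hi4
      have h5 := right_ne_zero_of_mul hw
      have h4 := bb_ne hT (left_ne_zero_of_mul h5)
      have h4' := bb_ne hT (right_ne_zero_of_mul h5)
      have e3 : (fun t : ℝ => (fs (t * I) i.1.1 * (starRingEnd ℂ) (fs (t * I) i.1.2)) *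
          (fs (t * I) i.2.1 * (starRingEnd ℂ) (fs (t * I) i.2.2))) = fun t : ℝ =>
          fs (t * I) (i.1.1 * i.2.1) * (starRingEnd ℂ) (fs (t * I) (i.1.2 * i.2.2)) := by
        funext t
        rw [fs_mul t (Nat.one_le_iff_ne_zero.mp h1.1) (Nat.one_le_iff_ne_zero.mp h3),
          fs_mul t (Nat.one_le_iff_ne_zero.mp h2.1) (Nat.one_le_iff_ne_zero.mp h3'), map_mul]
        ring
      simp only [e3]
      exact hp3 _ _ (Nat.mul_pos h1.1 h3) (Nat.mul_pos h2.1 h3') (hsz h1.2 h4) (hsz h2.2 h4')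
  -- the identity
  set MA := ∑ i ∈ P ×ˢ J, (kk c i.1 * bb T s i.2) *
      (if i.1.1 ∣ i.1.2 * i.2 then ((i.1.2 * i.2 / i.1.1 : ℕ) : ℂ) ^ (-s) else 0) with hMA
  set MB := ∑ i ∈ P ×ˢ J, (kk c i.1 * bb T s i.2) *
      (if i.1.2 ∣ i.1.1 * i.2 then ((i.1.1 * i.2 / i.1.2 : ℕ) : ℂ) ^ (-s) else 0) with hMB
  set MC := ∑ i ∈ P ×ˢ (J ×ˢ J), (kk c i.1 * (bb T s i.2.1 * bb T s i.2.2)) *
      (if i.1.1 * i.2.1 = i.1.2 * i.2.2 then (1 : ℂ) else 0) with hMC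
  have hmain : ‖MA + MB - MC - riemannZeta (1 + 2 * a) * RA T M G a a‖ ≤
      B ^ 2 * (Z1 * T ^ (-(3995 / 100000) : ℝ)) := by
    have h1 : MA + MB - MC = ∑ x ∈ P, kk c x *
        (∑ r ∈ Finset.Icc 1 ⌊T⌋₊, (ph T (x.1 / x.1.gcd x.2 * r) + ph T (x.2 / x.1.gcd x.2 * r) -
        ph T (x.1 / x.1.gcd x.2 * r) * ph T (x.2 / x.1.gcd x.2 * r)) *
      (((x.2 / x.1.gcd x.2 * r : ℕ) : ℂ) ^ (-s) * ((x.1 / x.1.gcd x.2 * r : ℕ) : ℂ) ^ (-s))) := by
      have hMA' : MA = ∑ x ∈ P, kk c x * ∑ l ∈ J, bb T s l *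
          (if x.1 ∣ x.2 * l then ((x.2 * l / x.1 : ℕ) : ℂ) ^ (-s) else 0) := by
        rw [hMA, Finset.sum_product]
        refine Finset.sum_congr rfl fun x _ => ?_
        rw [Finset.mul_sum]
        exact Finset.sum_congr rfl fun l _ => by ring
      have hMB' : MB = ∑ x ∈ P, kk c x * ∑ l ∈ J, bb T s l *
          (if x.2 ∣ x.1 * l then ((x.1 * l / x.2 : ℕ) : ℂ) ^ (-s) else 0) := by
        rw [hMB, Finset.sum_product]
        refine Finset.sum_congr rfl fun x _ => ?_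
        rw [Finset.mul_sum]
        exact Finset.sum_congr rfl fun l _ => by ring
      have hMC' : MC = ∑ x ∈ P, kk c x * ∑ z ∈ J ×ˢ J, (bb T s z.1 * bb T s z.2) *
          (if x.1 * z.1 = x.2 * z.2 then (1 : ℂ) else 0) := by
        rw [hMC, Finset.sum_product]
        refine Finset.sum_congr rfl fun x _ => ?_
        rw [Finset.mul_sum]
        exact Finset.sum_congr rfl fun l _ => by ring
      rw [hMA', hMB', hMC', ← Finset.sum_add_distrib, ← Finset.sum_sub_distrib]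
      refine Finset.sum_congr rfl fun x hx => ?_
      obtain ⟨h1, h2⟩ := memP _ hx
      rw [← three_terms hT s h1.1 h2.1]
      ring
    have h2 : riemannZeta (1 + 2 * a) * RA T M G a a = ∑ x ∈ P, kk c x *
        (riemannZeta (2 * s) * (((x.2 / x.1.gcd x.2 : ℕ) : ℂ) ^ (-s) *
          ((x.1 / x.1.gcd x.2 : ℕ) : ℂ) ^ (-s))) := by
      rw [hRA, hP, Finset.sum_product, Finset.mul_sum]
      refine Finset.sum_congr rfl fun m _ => ?_
      rw [Finset.mul_sum]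
      refine Finset.sum_congr rfl fun n _ => ?_
      have e4 : 2 * s = 1 + 2 * a := by rw [hs]; ring
      rw [e4, kk]
      ring
    rw [h1, h2, ← Finset.sum_sub_distrib]
    refine (norm_sum_le _ _).trans ?_
    calc ∑ x ∈ P, ‖kk c x * (∑ r ∈ Finset.Icc 1 ⌊T⌋₊, (ph T (x.1 / x.1.gcd x.2 * r) +
          ph T (x.2 / x.1.gcd x.2 * r) -
        ph T (x.1 / x.1.gcd x.2 * r) * ph T (x.2 / x.1.gcd x.2 * r)) *
      (((x.2 / x.1.gcd x.2 * r : ℕ) : ℂ) ^ (-s) * ((x.1 / x.1.gcd x.2 * r : ℕ) : ℂ) ^ (-s))) -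
        kk c x * (riemannZeta (2 * s) * (((x.2 / x.1.gcd x.2 : ℕ) : ℂ) ^ (-s) *
          ((x.1 / x.1.gcd x.2 : ℕ) : ℂ) ^ (-s)))‖
        ≤ ∑ x ∈ P, ‖kk c x‖ * (Z1 * T ^ (-(3995 / 100000) : ℝ)) := by
          refine Finset.sum_le_sum fun x hx => ?_
          rw [← mul_sub, norm_mul]
          obtain ⟨h1, h2⟩ := memP _ hx
          have hg : 0 < x.1.gcd x.2 := Nat.gcd_pos_of_pos_left _ h1.1
          have g1 : 1 ≤ x.1 / x.1.gcd x.2 :=
            Nat.div_pos (Nat.le_of_dvd h1.1 (Nat.gcd_dvd_left _ _)) hg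
          have g2 : 1 ≤ x.2 / x.1.gcd x.2 :=
            Nat.div_pos (Nat.le_of_dvd h2.1 (Nat.gcd_dvd_right _ _)) hg
          have g3 : ((x.1 / x.1.gcd x.2 : ℕ) : ℝ) ≤ T ^ (1 / 1000 : ℝ) := by
            refine le_trans ?_ hK
            exact_mod_cast (Nat.div_le_self _ _).trans h1.2
          exact mul_le_mul_of_nonneg_left (tail hT hsre g1 g2 g3) (norm_nonneg _)
      _ ≤ B ^ 2 * (Z1 * T ^ (-(3995 / 100000) : ℝ)) := by
          rw [← Finset.sum_mul]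
          exact mul_le_mul_of_nonneg_right (kk_sum c K hcB)
            (mul_nonneg Z1_nonneg (Real.rpow_nonneg hT0.le _))
  -- end
  have hrem := rem_bound hT hWB hr1 hr2
  rw [hFG]
  set X0 := EG T τ (fun t => rem T (t + y) * rem T (-t + y) * W t)
  set X1 := EG T τ (fun t => Z t * S' t * W t)
  set X2 := EG T τ (fun t => Z' t * S t * W t)
  set X3 := EG T τ (fun t => S t * S' t * W t)
  set X4 := riemannZeta (1 + 2 * a) * RA T M G a a
  have e5 : X0 + (X1 + X2 - X3) - X4 = X0 + ((X1 - MA) + (X2 - MB) + -(X3 - MC)) +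
      (MA + MB - MC - X4) := by ring
  rw [e5]
  refine (norm_add_le _ _).trans (add_le_add ((norm_add_le _ _).trans (add_le_add hrem
    ((norm_add_le _ _).trans (add_le_add ((norm_add_le _ _).trans (add_le_add hA hB')) ?_)))) hmain)
  rw [norm_neg]
  exact hC'


open IngM

lemma num (C : ℝ) : ∀ᶠ T : ℝ in atTop,
    (T ^ (1 / 1000 : ℝ)) ^ 2 * (C * Real.log T * T ^ (-(13 / 10 * (3 / 100)) : ℝ)) +
      ((T ^ (1 / 1000 : ℝ)) ^ 2 * T * T ^ (-20 : ℝ) + (T ^ (1 / 1000 : ℝ)) ^ 2 * T * T ^ (-20 : ℝ) +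
        (T ^ (1 / 1000 : ℝ)) ^ 2 * T ^ 2 * T ^ (-4 : ℝ)) +
      (T ^ (1 / 1000 : ℝ)) ^ 2 * (Z1 * T ^ (-(3995 / 100000) : ℝ)) ≤ T ^ (-(36 / 1000) : ℝ) := by
  have h1 : Tendsto (fun T : ℝ => C * (Real.log T * T ^ (-(1 / 1000) : ℝ))) atTop (𝓝 0) := by
    have := (isLittleO_log_rpow_atTop (show (0 : ℝ) < 1 / 1000 by norm_num)).tendsto_div_nhds_zero
    have h2 := this.const_mul C
    rw [mul_zero] at h2
    refine h2.congr' ?_
    filter_upwards [eventually_gt_atTop 0] with T hT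
    rw [Real.rpow_neg hT.le, div_eq_mul_inv]
  have h2 : Tendsto (fun T : ℝ => T ^ (-(18962 / 1000) : ℝ)) atTop (𝓝 0) :=
    tendsto_rpow_neg_atTop (by norm_num)
  have h3 : Tendsto (fun T : ℝ => T ^ (-(1962 / 1000) : ℝ)) atTop (𝓝 0) :=
    tendsto_rpow_neg_atTop (by norm_num)
  have h4 : Tendsto (fun T : ℝ => Z1 * T ^ (-(195 / 100000) : ℝ)) atTop (𝓝 0) := by
    have := (tendsto_rpow_neg_atTop (show (0 : ℝ) < 195 / 100000 by norm_num)).const_mul Z1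
    rwa [mul_zero] at this
  have h5 := ((h1.add ((h2.add h2).add h3)).add h4)
  rw [show (0 : ℝ) + (0 + 0 + 0) + 0 = 0 by norm_num] at h5
  filter_upwards [h5.eventually (eventually_le_nhds (show (0 : ℝ) < 1 by norm_num)),
    eventually_gt_atTop 0] with T hT hT0
  have hx : 0 ≤ T ^ (-(36 / 1000) : ℝ) := Real.rpow_nonneg hT0.le _
  have sq' : (T ^ (1 / 1000 : ℝ)) ^ 2 = T ^ (2 / 1000 : ℝ) := by
    rw [← Real.rpow_natCast (T ^ (1 / 1000 : ℝ)) 2, ← Real.rpow_mul hT0.le]; norm_num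
  have q1 : T ^ (2 / 1000 : ℝ) * T ^ (-(13 / 10 * (3 / 100)) : ℝ) =
      T ^ (-(1 / 1000) : ℝ) * T ^ (-(36 / 1000) : ℝ) := by
    rw [← Real.rpow_add hT0, ← Real.rpow_add hT0]; norm_num
  have q2 : T ^ (2 / 1000 : ℝ) * T * T ^ (-20 : ℝ) =
      T ^ (-(18962 / 1000) : ℝ) * T ^ (-(36 / 1000) : ℝ) := by
    have : T ^ (2 / 1000 : ℝ) * T * T ^ (-20 : ℝ) = T ^ (2 / 1000 : ℝ) * T ^ (1 : ℝ) * T ^ (-20 : ℝ) := by
      rw [Real.rpow_one]
    rw [this, ← Real.rpow_add hT0, ← Real.rpow_add hT0, ← Real.rpow_add hT0]; norm_num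
  have q3 : T ^ (2 / 1000 : ℝ) * T ^ 2 * T ^ (-4 : ℝ) =
      T ^ (-(1962 / 1000) : ℝ) * T ^ (-(36 / 1000) : ℝ) := by
    have : T ^ (2 / 1000 : ℝ) * T ^ 2 * T ^ (-4 : ℝ) =
        T ^ (2 / 1000 : ℝ) * T ^ (2 : ℝ) * T ^ (-4 : ℝ) := by
      rw [← Real.rpow_natCast T 2]; norm_num
    rw [this, ← Real.rpow_add hT0, ← Real.rpow_add hT0, ← Real.rpow_add hT0]; norm_num
  have q4 : T ^ (2 / 1000 : ℝ) * T ^ (-(3995 / 100000) : ℝ) =
      T ^ (-(195 / 100000) : ℝ) * T ^ (-(36 / 1000) : ℝ) := by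
    rw [← Real.rpow_add hT0, ← Real.rpow_add hT0]; norm_num
  rw [sq']
  calc T ^ (2 / 1000 : ℝ) * (C * Real.log T * T ^ (-(13 / 10 * (3 / 100)) : ℝ)) +
      (T ^ (2 / 1000 : ℝ) * T * T ^ (-20 : ℝ) + T ^ (2 / 1000 : ℝ) * T * T ^ (-20 : ℝ) +
        T ^ (2 / 1000 : ℝ) * T ^ 2 * T ^ (-4 : ℝ)) +
      T ^ (2 / 1000 : ℝ) * (Z1 * T ^ (-(3995 / 100000) : ℝ))
      = C * Real.log T * (T ^ (2 / 1000 : ℝ) * T ^ (-(13 / 10 * (3 / 100)) : ℝ)) +
      (T ^ (2 / 1000 : ℝ) * T * T ^ (-20 : ℝ) + T ^ (2 / 1000 : ℝ) * T * T ^ (-20 : ℝ) +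
        T ^ (2 / 1000 : ℝ) * T ^ 2 * T ^ (-4 : ℝ)) +
      Z1 * (T ^ (2 / 1000 : ℝ) * T ^ (-(3995 / 100000) : ℝ)) := by ring
    _ = (C * (Real.log T * T ^ (-(1 / 1000) : ℝ)) + (T ^ (-(18962 / 1000) : ℝ) +
        T ^ (-(18962 / 1000) : ℝ) + T ^ (-(1962 / 1000) : ℝ)) + Z1 * T ^ (-(195 / 100000) : ℝ)) *
        T ^ (-(36 / 1000) : ℝ) := by rw [q1, q2, q3, q4]; ring
    _ ≤ 1 * T ^ (-(36 / 1000) : ℝ) := mul_le_mul_of_nonneg_right hT hx
    _ = _ := one_mul _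

end RightM

open RightM IngM in
theorem stRight (h3 : StZetaPair) (h4 : StRBound) (h5 : StFin) : StRight := by
  obtain ⟨T₁, hT₁3, hpair⟩ := h3
  obtain ⟨C, hC, T₂, hT₂3, hR⟩ := h4
  obtain ⟨T₃, hT₃⟩ := eventually_atTop.mp (num C)
  obtain ⟨T₄, hT₄⟩ := eventually_atTop.mp err_le
  refine ⟨max (max T₁ T₂) (max T₃ T₄), hT₁3.trans ((le_max_left _ _).trans (le_max_left _ _)),
    fun T hT M τ hτ1 hτ2 G hG a ha hy => ?_⟩
  have hTT₁ : T₁ ≤ T := (le_max_left _ _).trans ((le_max_left _ _).trans hT)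
  have hTT₂ : T₂ ≤ T := (le_max_right _ _).trans ((le_max_left _ _).trans hT)
  have hnum := hT₃ T ((le_max_left _ _).trans ((le_max_right _ _).trans hT))
  have herr := hT₄ T ((le_max_right _ _).trans ((le_max_right _ _).trans hT))
  have hT3 : 3 ≤ T := hT₁3.trans hTT₁
  have hT1 : 1 < T := by linarith
  have hT0 : 0 < T := by linarith
  have hTB : T ^ (1 / 1000 : ℝ) ≤ T := by
    calc T ^ (1 / 1000 : ℝ) ≤ T ^ (1 : ℝ) := Real.rpow_le_rpow_of_exponent_le hT1.le (by norm_num)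
      _ = T := Real.rpow_one T
  -- the shift is small
  have hsmall : |a.im| ≤ T / 2 := by
    refine hy.trans ?_
    have h1 : T ^ (1 / 100 : ℝ) ≤ T ^ (1 / 4 : ℝ) :=
      Real.rpow_le_rpow_of_exponent_le hT1.le (by norm_num)
    have h2 : T ^ (1 / 4 : ℝ) ≤ T / 2 := by
      have h3 : T ^ (1 / 4 : ℝ) = (T ^ (1 / 4 : ℝ)) ^ 4 / (T ^ (1 / 4 : ℝ)) ^ 3 := by
        have : T ^ (1 / 4 : ℝ) ≠ 0 := (Real.rpow_pos_of_pos hT0 _).ne'
        field_simp
      have h4 : (T ^ (1 / 4 : ℝ)) ^ 4 = T := by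
        rw [← Real.rpow_natCast, ← Real.rpow_mul hT0.le]; norm_num
      have h5 : 2 ≤ (T ^ (1 / 4 : ℝ)) ^ 3 := by
        have h6 : (T ^ (1 / 4 : ℝ)) ^ 3 = T ^ (3 / 4 : ℝ) := by
          rw [← Real.rpow_natCast, ← Real.rpow_mul hT0.le]; norm_num
        rw [h6]
        have h7 : (3 : ℝ) ^ (3 / 4 : ℝ) ≤ T ^ (3 / 4 : ℝ) :=
          Real.rpow_le_rpow (by norm_num) hT3 (by norm_num)
        refine le_trans ?_ h7
        have h8 : (2 : ℝ) = (2 ^ (4 : ℝ)) ^ (1 / 4 : ℝ) := by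
          rw [← Real.rpow_mul (by norm_num)]; norm_num
        have h9 : (3 : ℝ) ^ (3 / 4 : ℝ) = (3 ^ (3 : ℝ)) ^ (1 / 4 : ℝ) := by
          rw [← Real.rpow_mul (by norm_num)]; norm_num
        rw [h8, h9]
        apply Real.rpow_le_rpow (by positivity) _ (by norm_num)
        norm_num
      rw [h3, h4]
      exact div_le_div_of_nonneg_left hT0.le (by norm_num) h5
    exact h1.trans h2
  obtain ⟨c, hcB, hcG, hcRA⟩ := h5 T hT1 (T ^ (1 / 1000 : ℝ)) (T ^ (1 / 1000 : ℝ)) G hTB hG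
  refine (core (T := T) (τ := τ) (y := a.im) (M := M) (G := G) (a := a)
    (E := C * Real.log T * T ^ (-(13 / 10 * (3 / 100)) : ℝ)) (B := T ^ (1 / 1000 : ℝ))
    (ε₁ := T ^ (-20 : ℝ)) (ε₂ := T ^ (-4 : ℝ)) hT1 ha rfl c ⌊T ^ (1 / 1000 : ℝ)⌋₊
    (Nat.floor_le (Real.rpow_nonneg hT0.le _)) hcB hcG
    (hcRA M a a (by rw [ha]; norm_num) (by rw [ha]; norm_num)) ?_ ?_ ?_ ?_ ?_).trans hnum
  · intro u v hu hv huN hvN
    exact hpair T hTT₁ τ hτ1 hτ2 a (by rw [ha]; norm_num) (by rw [ha]; norm_num) hy u v hu hv huN hvN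
  · intro u v hu hv huN hvN
    apply pair_conj
    exact hpair T hTT₁ τ hτ1 hτ2 ((starRingEnd ℂ) a) (by rw [conj_re, ha]; norm_num)
      (by rw [conj_re, ha]; norm_num) (by rw [conj_im, abs_neg]; exact hy) u v hu hv huN hvN
  · intro u v hu hv huN hvN
    refine (eg_pair T τ hu hv huN hvN).trans ?_
    have h1 : T ^ (-4 : ℝ) = (T ^ 4)⁻¹ := by
      rw [Real.rpow_neg hT0.le]
      norm_num
    rw [h1, ← one_div, le_div_iff₀ (by positivity)]
    rw [le_div_iff₀ hT0] at herr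
    calc Real.exp (-(VV T / (2 * (T ^ (9 / 10 : ℝ)) ^ 2))) * T ^ 4 =
        T ^ 3 * Real.exp (-(VV T / (2 * (T ^ (9 / 10 : ℝ)) ^ 2))) * T := by ring
      _ ≤ 1 := herr
  · have h1 := hR T hTT₂ (τ + a.im) (by
      rw [abs_le] at hτ2 hsmall ⊢
      constructor <;> linarith [hτ2.1, hτ2.2, hsmall.1, hsmall.2]) (3 / 100) (by norm_num) (by norm_num)
    have e : (1 / 2 + 3 / 100 : ℝ) = 53 / 100 := by norm_num
    rw [e] at h1
    exact h1
  · have h1 := hR T hTT₂ (-τ + a.im) (by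
      rw [abs_le] at hτ2 hsmall ⊢
      constructor <;> linarith [hτ2.1, hτ2.2, hsmall.1, hsmall.2]) (3 / 100) (by norm_num) (by norm_num)
    have e : (1 / 2 + 3 / 100 : ℝ) = 53 / 100 := by norm_num
    rw [e] at h1
    exact h1

end K1
end Pool.Agent.Lib.MP_973905_nt
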