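import Pool.Agent.Lib.MP_973905_nt.K1.SHFour

/-! The correlation of the Euler product with the short sum, and the mean square of the short sum. -/

namespace Pool.Agent.Lib.MP_973905_nt
namespace K1

open MeasureTheory ProbabilityTheory Complex Filter Topology

namespace SHF

lemma XX_zero {m : ℕ} (Sb : Fin m → Finset ℕ) (n : ℕ) : XX Sb (fun _ _ => 0) n = 1 := by
  simp [XX, circleMap]

/-- The Euler product at `1 + a`. -/
noncomputable def EE (T : ℝ) (a : ℂ) : ℂ := ∏ p ∈ PS 0 T, (1 - (p : ℂ) ^ (-(1 + a)))⁻¹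

lemma EE_eq_ZZ {T : ℝ} (hT : 1 < T) (M J : ℕ) (a : ℂ) :
    ZZ (UU (SB T M J)) (tw (1 + a) (XX (SB T M J) fun _ _ => 0)) = EE T a := by
  rw [UU_SB hT, ZZ, EE]
  refine Finset.prod_congr rfl fun p _ => ?_
  rw [tw, XX_zero, mul_one]

lemma one_sub_inv_le {x : ℝ} (h1 : x ≤ 1 / 2) :
    (1 - x)⁻¹ ≤ Real.exp (x + 2 * x ^ 2) := by
  have h2 : 0 < 1 - x := by linarith
  rw [inv_le_iff_one_le_mul₀ h2]
  have h3 := Real.add_one_le_exp (x + 2 * x ^ 2)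
  calc (1 : ℝ) ≤ (x + 2 * x ^ 2 + 1) * (1 - x) := by
        have : (x + 2 * x ^ 2 + 1) * (1 - x) = 1 + x ^ 2 * (1 - 2 * x) := by ring
        rw [this]
        have : 0 ≤ x ^ 2 * (1 - 2 * x) := mul_nonneg (sq_nonneg _) (by linarith)
        linarith
    _ ≤ _ := by gcongr

lemma norm_cpow_one_add {p : ℕ} (hp : p.Prime) {a : ℂ} (ha : 0 ≤ a.re) :
    ‖(p : ℂ) ^ (-(1 + a))‖ ≤ 1 / p := by
  have hp0 : (0 : ℝ) < p := by exact_mod_cast hp.pos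
  have hp1 : (1 : ℝ) ≤ p := by exact_mod_cast hp.one_lt.le
  rw [norm_natCast_cpow_of_pos hp.pos, one_div, ← Real.rpow_neg_one]
  apply Real.rpow_le_rpow_of_exponent_le hp1
  simp
  linarith

lemma EE_le : ∃ C : ℝ, 0 < C ∧ ∀ T : ℝ, 3 ≤ T → ∀ a : ℂ, 0 ≤ a.re →
    ‖EE T a‖ ≤ C * Real.log T := by
  obtain ⟨C₁, hC₁, h1⟩ := sum_inv
  refine ⟨Real.exp (C₁ + 4), Real.exp_pos _, fun T hT a ha => ?_⟩
  have hL : 0 < Real.log T := Real.log_pos (by linarith)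
  have hS : ∀ p ∈ PS 0 T, p.Prime := fun p hp => XB.prime_PS hp
  have h2 := (abs_le.1 (h1 T (by linarith))).2
  have h3 := XB.sum_inv_sq hS
  calc ‖EE T a‖ = ∏ p ∈ PS 0 T, ‖(1 - (p : ℂ) ^ (-(1 + a)))⁻¹‖ := by rw [EE, norm_prod]
    _ ≤ ∏ p ∈ PS 0 T, Real.exp (1 / (p : ℝ) + 2 * ((p : ℝ) ^ 2)⁻¹) := by
        refine Finset.prod_le_prod (fun p _ => norm_nonneg _) fun p hp => ?_
        have hpp := hS p hp
        have hp2 : (2 : ℝ) ≤ p := by exact_mod_cast hpp.two_le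
        have hx : (1 : ℝ) / p ≤ 1 / 2 := by gcongr
        have h4 := norm_cpow_one_add hpp ha
        have h5 : (2 : ℝ) * ((p : ℝ) ^ 2)⁻¹ = 2 * (1 / (p : ℝ)) ^ 2 := by
          rw [one_div, inv_pow]
        rw [h5, norm_inv]
        refine le_trans ?_ (one_sub_inv_le hx)
        apply inv_anti₀ (by linarith)
        have := norm_sub_norm_le 1 ((p : ℂ) ^ (-(1 + a)))
        rw [norm_one] at this
        linarith
    _ = Real.exp (∑ p ∈ PS 0 T, (1 / (p : ℝ) + 2 * ((p : ℝ) ^ 2)⁻¹)) := by rw [Real.exp_sum]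
    _ ≤ Real.exp (Real.log (Real.log T) + (C₁ + 4)) := by
        apply Real.exp_le_exp.2
        rw [Finset.sum_add_distrib, ← Finset.mul_sum]
        linarith
    _ = _ := by rw [Real.exp_add, Real.exp_log hL]; ring

lemma RZ_eq (T : ℝ) (M : ℕ) (G : (ℕ → ℂ) → ℂ) {a₁ a₂ : ℂ} (h : 0 ≤ (a₁ + a₂).re) :
    RZ T M G a₁ a₂ = RA T M G a₁ a₂ * EE T (a₁ + a₂) := by
  rw [RA, EE, mul_assoc, ← Finset.prod_mul_distrib]
  rw [Finset.prod_eq_one, mul_one]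
  intro p hp
  rw [← add_assoc]
  apply mul_inv_cancel₀
  intro h0
  have hpp := XB.prime_PS hp
  have h1 := norm_cpow_one_add hpp h
  rw [← add_assoc, ← sub_eq_zero.1 h0, norm_one] at h1
  have hp2 : (2 : ℝ) ≤ p := by exact_mod_cast hpp.two_le
  have hx : (1 : ℝ) / p ≤ 1 / 2 := by gcongr
  linarith

lemma bc_NN {T : ℝ} (hT : 1 < T) {M : ℕ} (hM : 1 ≤ M) {α : ℝ} (hα : |α| ≤ 1) {w : ℂ}
    (hw : 0 ≤ w.re) : BC (SB T M (JJ T)) (fun f => NN T M α (tw w f)) := by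
  have h1 := dp_prod (Finset.range (JJ T + 1)) (fun j hj => Len.dp_Fc (M := M) (J := JJ T) hT hM
    (show j ≤ JJ T by rw [Finset.mem_range] at hj; omega) hα (Finset.range (JJ T + 1)) ∅)
  exact (h1.twist hw).eval_XX

/-- Crude bound for one Euler product. -/
lemma crude1 : ∃ C : ℝ, 0 < C ∧ ∃ M₀ : ℕ, 1 ≤ M₀ ∧ ∀ M : ℕ, M₀ ≤ M →
    ∃ T₀ : ℝ, 3 ≤ T₀ ∧ ∀ T, T₀ ≤ T → ∀ k : ℝ, 0 ≤ k → k ≤ 1 → ∀ z : ℂ, 0 ≤ z.re →
    ER (SB T M (JJ T)) (fun f =>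
        ‖ZZ (PS 0 T) (tw ((1 / 2 : ℂ) + z / Real.log T) f)‖ ^ 2 *
        ‖NN T M (k - 1) (tw (1 / 2) f)‖ ^ 2) ≤
      Real.exp (C * M) * (1 + ‖z‖) ^ 14 * (Real.log T) ^ (k ^ 2) := by
  obtain ⟨C, hC, core⟩ := XB.core
  obtain ⟨M₀, hM₀, core⟩ := core 1 one_pos
  refine ⟨C, hC, M₀, hM₀, fun M hM => ?_⟩
  obtain ⟨T₀, hT₀, core⟩ := core M hM
  refine ⟨T₀, hT₀, fun T hT k hk0 hk1 z hz => ?_⟩
  have h := core T hT k hk0 hk1 (Finset.range (JJ T + 1)) ∅ (by simp) z 0 0 le_rfl hz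
    (by norm_num) le_rfl
  rw [UU_SB (by linarith)] at h
  have e : ((1 / 2 + 0 / Real.log T : ℝ) : ℂ) = 1 / 2 := by push_cast; simp
  rw [e] at h
  simp only [add_zero, one_pow, mul_one, Finset.prod_empty] at h
  exact h

/-- Crude bound for the shifted moment. -/
lemma crude2 : ∃ C : ℝ, 0 < C ∧ ∃ M₀ : ℕ, 1 ≤ M₀ ∧ ∀ M : ℕ, M₀ ≤ M →
    ∃ T₀ : ℝ, 3 ≤ T₀ ∧ ∀ T, T₀ ≤ T → ∀ k : ℝ, 0 ≤ k → k ≤ 1 → ∀ z₁ z₂ : ℂ, 0 ≤ z₁.re →
    0 ≤ z₂.re → ‖RZ T M (NN T M (k - 1)) (z₁ / Real.log T) (z₂ / Real.log T)‖ ≤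
      Real.exp (C * M) * (2 * ((1 + ‖z₁‖) * (1 + ‖z₂‖)) ^ 14) * (Real.log T) ^ (k ^ 2) := by
  obtain ⟨C, hC, M₀, hM₀, cr⟩ := crude1
  refine ⟨C, hC, M₀, hM₀, fun M hM => ?_⟩
  obtain ⟨T₀, hT₀, cr⟩ := cr M hM
  refine ⟨T₀, hT₀, fun T hT k hk0 hk1 z₁ z₂ hz₁ hz₂ => ?_⟩
  have hT3 : 3 ≤ T := hT₀.trans hT
  have hT1 : 1 < T := by linarith
  have hL : 0 < Real.log T := Real.log_pos hT1
  have c1 := cr T hT k hk0 hk1 z₁ hz₁
  have c2 := cr T hT k hk0 hk1 ((starRingEnd ℂ) z₂) (by simpa using hz₂)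
  rw [RCLike.norm_conj] at c2
  set L := Real.log T with hLd
  set Sb := SB T M (JJ T) with hSb
  set N : (ℕ → ℂ) → ℂ := fun f => NN T M (k - 1) (tw (1 / 2) f) with hN
  set Z₁ : (ℕ → ℂ) → ℂ := fun f => ZZ (PS 0 T) (tw ((1 / 2 : ℂ) + z₁ / L) f) with hZ₁
  set Z₂ : (ℕ → ℂ) → ℂ := fun f => ZZ (PS 0 T) (tw ((1 / 2 : ℂ) + (starRingEnd ℂ) z₂ / L) f) with hZ₂
  have hα : |k - 1| ≤ 1 := by rw [abs_le]; constructor <;> linarith
  have bN : BC Sb N := bc_NN hT1 (hM₀.trans hM) hα (by norm_num)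
  have b1 : BC Sb Z₁ := bc_ZZ (fun p hp => XB.prime_PS hp) (by
    rw [add_re, div_ofReal_re]
    have : 0 ≤ z₁.re / L := by positivity
    norm_num
    linarith)
  have b2 : BC Sb Z₂ := bc_ZZ (fun p hp => XB.prime_PS hp) (by
    rw [add_re, div_ofReal_re, conj_re]
    have : 0 ≤ z₂.re / L := by positivity
    norm_num
    linarith)
  have hconj : (starRingEnd ℂ) (z₂ / (L : ℂ)) = (starRingEnd ℂ) z₂ / (L : ℂ) := by
    rw [map_div₀, conj_ofReal]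
  have e1 : RZ T M (NN T M (k - 1)) (z₁ / L) (z₂ / L) =
      ER Sb (fun f => Z₁ f * (starRingEnd ℂ) (Z₂ f) * (N f * (starRingEnd ℂ) (N f))) := by
    rw [RZ, hconj]
  have i1 : Integrable (fun ω => ‖Z₁ (XX Sb ω)‖ ^ 2 * ‖N (XX Sb ω)‖ ^ 2) (PP0 Sb) := by
    refine ((b1.mul bN).norm_sq.integrable).congr (Filter.Eventually.of_forall fun ω => ?_)
    simp only [norm_mul, mul_pow]
  have i2 : Integrable (fun ω => ‖Z₂ (XX Sb ω)‖ ^ 2 * ‖N (XX Sb ω)‖ ^ 2) (PP0 Sb) := by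
    refine ((b2.mul bN).norm_sq.integrable).congr (Filter.Eventually.of_forall fun ω => ?_)
    simp only [norm_mul, mul_pow]
  have h1 : ‖RZ T M (NN T M (k - 1)) (z₁ / L) (z₂ / L)‖ ≤
      ER Sb (fun f => ‖Z₁ f‖ ^ 2 * ‖N f‖ ^ 2) + ER Sb (fun f => ‖Z₂ f‖ ^ 2 * ‖N f‖ ^ 2) := by
    rw [e1, ER_eq, ER_eq, ER_eq, ← integral_add i1 i2]
    refine (norm_integral_le_integral_norm _).trans ?_
    refine integral_mono_of_nonneg (Filter.Eventually.of_forall fun ω => norm_nonneg _)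
      (i1.add i2) (Filter.Eventually.of_forall fun ω => ?_)
    simp only [norm_mul, RCLike.norm_conj]
    nlinarith [sq_nonneg (‖Z₁ (XX Sb ω)‖ - ‖Z₂ (XX Sb ω)‖), sq_nonneg ‖N (XX Sb ω)‖,
      mul_nonneg (sq_nonneg (‖Z₁ (XX Sb ω)‖ - ‖Z₂ (XX Sb ω)‖)) (sq_nonneg ‖N (XX Sb ω)‖),
      mul_nonneg (mul_nonneg (norm_nonneg (Z₁ (XX Sb ω))) (norm_nonneg (Z₂ (XX Sb ω))))
        (sq_nonneg ‖N (XX Sb ω)‖)]
  refine h1.trans ((add_le_add c1 c2).trans ?_)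
  have hp1 : 1 ≤ (1 + ‖z₁‖) ^ 14 := one_le_pow₀ (by linarith [norm_nonneg z₁])
  have hp2 : 1 ≤ (1 + ‖z₂‖) ^ 14 := one_le_pow₀ (by linarith [norm_nonneg z₂])
  have hE : 0 ≤ Real.exp (C * M) * L ^ (k ^ 2) := by positivity
  have h3 : (1 + ‖z₁‖) ^ 14 + (1 + ‖z₂‖) ^ 14 ≤ 2 * ((1 + ‖z₁‖) * (1 + ‖z₂‖)) ^ 14 := by
    rw [mul_pow]
    nlinarith
  calc Real.exp (C * M) * (1 + ‖z₁‖) ^ 14 * L ^ (k ^ 2) + Real.exp (C * M) * (1 + ‖z₂‖) ^ 14 *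
        L ^ (k ^ 2) = (Real.exp (C * M) * L ^ (k ^ 2)) * ((1 + ‖z₁‖) ^ 14 + (1 + ‖z₂‖) ^ 14) := by ring
    _ ≤ (Real.exp (C * M) * L ^ (k ^ 2)) * (2 * ((1 + ‖z₁‖) * (1 + ‖z₂‖)) ^ 14) := by gcongr
    _ = _ := by ring

/-- Comparison of the shifted moment with the pure Euler product, all shifts. -/
lemma keyD (h12 : StRA) : ∃ A : ℕ, ∀ η : ℝ, 0 < η → ∃ M₀ : ℕ, 1 ≤ M₀ ∧ ∀ M : ℕ, M₀ ≤ M →
    ∃ k₁ : ℝ, 0 < k₁ ∧ k₁ < 1 ∧ ∃ T₀ : ℝ, 3 ≤ T₀ ∧ ∀ T, T₀ ≤ T → ∀ k : ℝ, k₁ ≤ k → k ≤ 1 →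
    ∀ z₁ z₂ : ℂ, 0 ≤ z₁.re → 0 ≤ z₂.re →
    ‖RZ T M (NN T M (k - 1)) (z₁ / Real.log T) (z₂ / Real.log T) -
      (((Real.log T) ^ (k ^ 2 - 1) : ℝ) : ℂ) * EE T (z₁ / Real.log T + z₂ / Real.log T)‖ ≤
      η * (Real.log T) ^ (k ^ 2) * ((1 + ‖z₁‖) ^ A * (1 + ‖z₂‖) ^ A) := by
  obtain ⟨C, hC, Mc, hMc, cr⟩ := crude2
  obtain ⟨C₀, hC₀, hEE⟩ := EE_le
  set q := ⌈C⌉₊ with hq
  have hqC : C ≤ q := Nat.le_ceil C
  refine ⟨14 + (2 * q + 2), fun η hη => ?_⟩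
  obtain ⟨Mr, ra⟩ := h12 (η / C₀) (by positivity)
  obtain ⟨Me, hMe⟩ := exists_nat_ge (Real.log ((2 + C₀) / η))
  refine ⟨max Mc (max Mr Me), hMc.trans (le_max_left _ _), fun M hM => ?_⟩
  have hM1 : Mc ≤ M := (le_max_left _ _).trans hM
  have hM2 : Mr ≤ M := ((le_max_left _ _).trans (le_max_right _ _)).trans hM
  have hM3 : Me ≤ M := ((le_max_right _ _).trans (le_max_right _ _)).trans hM
  obtain ⟨k₁, hk₁, hk₁1, Tr, hTr, ra⟩ := ra M hM2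
  obtain ⟨Tc, hTc, cr⟩ := cr M hM1
  refine ⟨k₁, hk₁, hk₁1, max Tr Tc, hTr.trans (le_max_left _ _), fun T hT k hk hk1 z₁ z₂ hz₁ hz₂ => ?_⟩
  have hTTr : Tr ≤ T := (le_max_left _ _).trans hT
  have hTTc : Tc ≤ T := (le_max_right _ _).trans hT
  have hT3 : 3 ≤ T := hTr.trans hTTr
  have hL : 0 < Real.log T := Real.log_pos (by linarith)
  have hk0 : 0 ≤ k := hk₁.le.trans hk
  have ra := ra T hTTr k hk hk1 (z₁ / Real.log T) (z₂ / Real.log T)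
  have cr := cr T hTTc k hk0 hk1 z₁ z₂ hz₁ hz₂
  set L := Real.log T with hLd
  have hre : 0 ≤ (z₁ / (L : ℂ) + z₂ / (L : ℂ)).re := by
    rw [add_re, div_ofReal_re, div_ofReal_re]
    positivity
  have hEE := hEE T hT3 (z₁ / L + z₂ / L) hre
  have hLk : L ^ (k ^ 2 - 1) * L = L ^ (k ^ 2) := by
    rw [← Real.rpow_add_one hL.ne']
    congr 1; ring
  have hLk0 : 0 < L ^ (k ^ 2 - 1) := Real.rpow_pos_of_pos hL _
  have hLk2 : 0 < L ^ (k ^ 2) := Real.rpow_pos_of_pos hL _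
  have hu1 : 1 ≤ 1 + ‖z₁‖ := by linarith [norm_nonneg z₁]
  have hu2 : 1 ≤ 1 + ‖z₂‖ := by linarith [norm_nonneg z₂]
  set A := 14 + (2 * q + 2) with hA
  set P := (1 + ‖z₁‖) * (1 + ‖z₂‖) with hP
  have hP1 : 1 ≤ P := one_le_mul_of_one_le_of_one_le hu1 hu2
  have hPA : (1 + ‖z₁‖) ^ A * (1 + ‖z₂‖) ^ A = P ^ A := by rw [hP, mul_pow]
  rw [hPA]
  by_cases hcase : ‖z₁‖ ≤ Real.exp (M / 2) ∧ ‖z₂‖ ≤ Real.exp (M / 2)
  · have n1 : ‖z₁ / (L : ℂ)‖ ≤ Real.exp (M / 2) / L := by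
      rw [norm_div, norm_real, Real.norm_eq_abs, abs_of_pos hL]
      gcongr
      exact hcase.1
    have n2 : ‖z₂ / (L : ℂ)‖ ≤ Real.exp (M / 2) / L := by
      rw [norm_div, norm_real, Real.norm_eq_abs, abs_of_pos hL]
      gcongr
      exact hcase.2
    have ra := ra n1 n2
    rw [RZ_eq T M _ hre, ← sub_mul, norm_mul]
    calc ‖RA T M (NN T M (k - 1)) (z₁ / L) (z₂ / L) - ((L ^ (k ^ 2 - 1) : ℝ) : ℂ)‖ *
          ‖EE T (z₁ / L + z₂ / L)‖ ≤ (η / C₀ * L ^ (k ^ 2 - 1)) * (C₀ * L) := by gcongr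
      _ = η * L ^ (k ^ 2) := by rw [← hLk]; field_simp
      _ ≤ _ := le_mul_of_one_le_right (by positivity) (one_le_pow₀ hP1)
  · have hbig : Real.exp (M / 2) ≤ P := by
      rw [not_and_or, not_le, not_le] at hcase
      rcases hcase with h | h
      · calc Real.exp (M / 2) ≤ ‖z₁‖ := h.le
          _ ≤ (1 + ‖z₁‖) * 1 := by linarith
          _ ≤ P := by rw [hP]; gcongr
      · calc Real.exp (M / 2) ≤ ‖z₂‖ := h.le
          _ ≤ 1 * (1 + ‖z₂‖) := by linarith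
          _ ≤ P := by rw [hP]; gcongr
    have h1 : Real.exp (C * M) * Real.exp M ≤ P ^ (2 * q + 2) := by
      calc Real.exp (C * M) * Real.exp M = Real.exp ((C + 1) * M) := by
            rw [← Real.exp_add]; congr 1; ring
        _ ≤ Real.exp (((2 * q + 2 : ℕ) : ℝ) * (M / 2)) := by
            apply Real.exp_le_exp.2
            push_cast
            have : (C + 1) * M ≤ (q + 1) * M := by gcongr
            linarith
        _ = Real.exp (M / 2) ^ (2 * q + 2) := by rw [Real.exp_nat_mul]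
        _ ≤ _ := pow_le_pow_left₀ (Real.exp_pos _).le hbig _
    have h2 : (2 + C₀) ≤ η * Real.exp M := by
      have h3 : Real.log ((2 + C₀) / η) ≤ M := hMe.trans (by exact_mod_cast hM3)
      have h4 : (2 + C₀) / η ≤ Real.exp M := by
        rw [← Real.exp_log (show 0 < (2 + C₀) / η by positivity)]
        exact Real.exp_le_exp.2 h3
      rw [div_le_iff₀ hη] at h4
      linarith
    have h5 : ‖((L ^ (k ^ 2 - 1) : ℝ) : ℂ) * EE T (z₁ / L + z₂ / L)‖ ≤ C₀ * L ^ (k ^ 2) := by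
      rw [norm_mul, norm_real, Real.norm_eq_abs, abs_of_pos hLk0]
      calc L ^ (k ^ 2 - 1) * ‖EE T (z₁ / L + z₂ / L)‖ ≤ L ^ (k ^ 2 - 1) * (C₀ * L) := by gcongr
        _ = _ := by rw [← hLk]; ring
    have hEM : 1 ≤ Real.exp (C * M) := Real.one_le_exp (by positivity)
    have hP14 : 1 ≤ P ^ 14 := one_le_pow₀ hP1
    refine (norm_sub_le _ _).trans ((add_le_add cr h5).trans ?_)
    have h6 : C₀ * L ^ (k ^ 2) ≤ C₀ * L ^ (k ^ 2) * (Real.exp (C * M) * P ^ 14) :=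
      le_mul_of_one_le_right (by positivity) (one_le_mul_of_one_le_of_one_le hEM hP14)
    calc Real.exp (C * M) * (2 * P ^ 14) * L ^ (k ^ 2) + C₀ * L ^ (k ^ 2)
        ≤ Real.exp (C * M) * (2 * P ^ 14) * L ^ (k ^ 2) +
          C₀ * L ^ (k ^ 2) * (Real.exp (C * M) * P ^ 14) := add_le_add le_rfl h6
      _ = (2 + C₀) * Real.exp (C * M) * P ^ 14 * L ^ (k ^ 2) := by ring
      _ ≤ (η * Real.exp M) * Real.exp (C * M) * P ^ 14 * L ^ (k ^ 2) := by gcongr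
      _ = η * L ^ (k ^ 2) * (P ^ 14 * (Real.exp (C * M) * Real.exp M)) := by ring
      _ ≤ η * L ^ (k ^ 2) * (P ^ 14 * P ^ (2 * q + 2)) := by gcongr
      _ = _ := by rw [hA, pow_add P 14]

lemma SH_int {δ : ℝ} {g : ℝ → ℂ} (hg : GF δ g) {m : ℕ} {Sb : Fin m → Finset ℕ} (hB : Blk Sb)
    {L : ℝ} {w : ℂ} (hσ : 0 < w.re + 1 / L) (ω : (j : Fin m) → Sb j → ℝ) :
    Integrable fun ξ : ℝ => g ξ * ZZ (UU Sb) (tw (w + zz ξ / L) (XX Sb ω)) := by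
  refine (hg.integrable.norm.mul_const
    (∏ p ∈ UU Sb, (1 - (p : ℝ) ^ (-(w.re + 1 / L)))⁻¹)).mono' ?_ ?_
  · have h := (continuous_ZZ (L := L) hB hσ).comp (Continuous.prodMk_left ω)
    exact (hg.cont.mul h).aestronglyMeasurable
  · refine Filter.Eventually.of_forall fun ξ => ?_
    rw [norm_mul]
    have := norm_ZZ_le (L := L) hB hσ ξ ω
    gcongr

lemma bc_SH (δ T : ℝ) (w : ℂ) {m : ℕ} (Sb : Fin m → Finset ℕ) :
    BC Sb (fun f => SH δ T (tw w f)) := by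
  unfold SH
  refine bc_sum _ fun n _ => ?_
  exact ((bc_apply n).const_mul _).const_mul _

lemma ER_conj {m : ℕ} {Sb : Fin m → Finset ℕ} (F : (ℕ → ℂ) → ℂ) :
    ER Sb (fun f => (starRingEnd ℂ) (F f)) = (starRingEnd ℂ) (ER Sb F) := by
  rw [ER_eq, ER_eq, ← integral_conj]

/-- The deterministic identity, one Euler product. -/
lemma det1 {δ : ℝ} (hδ : 0 < δ) {g : ℝ → ℂ} (hg : GF δ g) {T : ℝ} (hT : 1 < T) {b : ℂ}
    (hb : 0 ≤ b.re) :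
    Integrable (fun ξ : ℝ => g ξ * EE T (b + zz ξ / Real.log T)) ∧
    ∑ n ∈ Finset.Icc 1 ⌊T⌋₊, (Pb δ (Real.log n / Real.log T) : ℂ) * (n : ℂ) ^ (-(1 + b)) =
      ∫ ξ : ℝ, g ξ * EE T (b + zz ξ / Real.log T) := by
  have hL : 0 < Real.log T := Real.log_pos hT
  have hw : 0 < (1 + b).re := by rw [add_re, one_re]; linarith
  have h1 := SH_eq hδ hg (blk_SB hT 0 0) hT (fun n h1 h2 => mem_factored hT 0 0 h1 h2) hw
    (fun _ _ => 0)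
  have h2 := SH_int hg (blk_SB hT 0 0) (L := Real.log T) (w := 1 + b)
    (by positivity) (fun _ _ => 0)
  have e : ∀ ξ : ℝ, ZZ (UU (SB T 0 0)) (tw (1 + b + zz ξ / Real.log T)
      (XX (SB T 0 0) fun _ _ => 0)) = EE T (b + zz ξ / Real.log T) := by
    intro ξ
    rw [add_assoc, EE_eq_ZZ hT]
  simp only [e] at h1 h2
  refine ⟨h2, ?_⟩
  rw [← h1, SH]
  refine Finset.sum_congr rfl fun n _ => ?_
  rw [tw, XX_zero, mul_one]

end SHF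

open SHF in
theorem stSHZeta (h12 : StRA) : StSHZeta := by
  intro δ η hδ _ hη
  obtain ⟨g, hg⟩ := exists_g hδ
  obtain ⟨A, key⟩ := keyD h12
  set K : ℝ := ∫ ξ : ℝ, ‖g ξ‖ * (1 + |ξ|) ^ A with hK
  have hK0 : 0 ≤ K := integral_nonneg fun ξ => by positivity
  obtain ⟨M₀, hM₀, key⟩ := key (η / (7 ^ A * (K + 1))) (by positivity)
  refine ⟨M₀, fun M hM => ?_⟩
  obtain ⟨k₁, hk₁, hk₁1, T₀, hT₀, key⟩ := key M hM
  refine ⟨k₁, hk₁, hk₁1, T₀, hT₀, fun T hT k hk hk1 => ?_⟩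
  have hT3 : 3 ≤ T := hT₀.trans hT
  have hT1 : 1 < T := by linarith
  have hL : 0 < Real.log T := Real.log_pos hT1
  have key := key T hT k hk hk1
  have hα : |k - 1| ≤ 1 := by rw [abs_le]; constructor <;> linarith
  set N : (ℕ → ℂ) → ℂ := fun f => NN T M (k - 1) (tw (1 / 2) f) with hN
  have bN : BC (SB T M (JJ T)) N := bc_NN hT1 (hM₀.trans hM) hα (by norm_num)
  set Z : (ℕ → ℂ) → ℂ := fun f => ZZ (PS 0 T) (tw (1 / 2) f) with hZ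
  have bZ : BC (SB T M (JJ T)) Z := bc_ZZ (fun p hp => XB.prime_PS hp) (by norm_num)
  set B : (ℕ → ℂ) → ℂ := fun f => (starRingEnd ℂ) (Z f) * (N f * (starRingEnd ℂ) (N f)) with hB
  have bB : BC (SB T M (JJ T)) B := bZ.conj.mul (bN.mul bN.conj)
  obtain ⟨i1, r1⟩ := ER_SH hδ hg (blk_SB hT1 M (JJ T)) hT1
    (fun n h1 h2 => mem_factored hT1 M (JJ T) h1 h2) (w := 1 / 2) (by norm_num) bB
  obtain ⟨i2, r2⟩ := det1 hδ hg hT1 (b := 0) le_rfl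
  set L := Real.log T with hLd
  have e1 : ∀ ξ : ℝ, ER (SB T M (JJ T)) (fun f => ZZ (UU (SB T M (JJ T)))
      (tw (1 / 2 + zz ξ / L) f) * B f) = RZ T M (NN T M (k - 1)) (zz ξ / L) ((0 : ℂ) / L) := by
    intro ξ
    rw [RZ, UU_SB hT1]
    congr 1
    funext f
    simp only [hB, hZ, hN, zero_div, map_zero, add_zero]
    ring
  simp only [e1] at i1 r1
  set c : ℝ := L ^ (k ^ 2 - 1) with hc
  set X := ER (SB T M (JJ T)) (fun f => ZZ (PS 0 T) (tw (1 / 2) f) *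
    (starRingEnd ℂ) (SH δ T (tw (1 / 2) f)) *
        (NN T M (k - 1) (tw (1 / 2) f) * (starRingEnd ℂ) (NN T M (k - 1) (tw (1 / 2) f)))) with hX
  have hXc : (starRingEnd ℂ) X = ∫ ξ : ℝ, g ξ * RZ T M (NN T M (k - 1)) (zz ξ / L) ((0 : ℂ) / L) := by
    rw [← r1, hX, ← ER_conj]
    congr 1
    funext f
    simp only [hB, hZ, hN, map_mul, conj_conj]
    ring
  have hsum : ((c * ∑ n ∈ Finset.Icc 1 ⌊T⌋₊, Pb δ (Real.log n / L) / n : ℝ) : ℂ) =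
      (c : ℂ) * ∫ ξ : ℝ, g ξ * EE T (0 + zz ξ / L) := by
    rw [← r2]
    push_cast
    congr 1
    refine Finset.sum_congr rfl fun n _ => ?_
    rw [add_zero, cpow_neg_one, div_eq_mul_inv]
  have hd : (starRingEnd ℂ) X - ((c * ∑ n ∈ Finset.Icc 1 ⌊T⌋₊, Pb δ (Real.log n / L) / n : ℝ) : ℂ) =
      ∫ ξ : ℝ, g ξ * (RZ T M (NN T M (k - 1)) (zz ξ / L) ((0 : ℂ) / L) -
        (c : ℂ) * EE T (zz ξ / L + (0 : ℂ) / L)) := by
    rw [hXc, hsum, ← integral_const_mul, ← integral_sub i1 (i2.const_mul _)]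
    congr 1
    funext ξ
    rw [zero_div, zero_add, add_zero]
    ring
  have hn : ‖X - ((c * ∑ n ∈ Finset.Icc 1 ⌊T⌋₊, Pb δ (Real.log n / L) / n : ℝ) : ℂ)‖ =
      ‖(starRingEnd ℂ) X - ((c * ∑ n ∈ Finset.Icc 1 ⌊T⌋₊, Pb δ (Real.log n / L) / n : ℝ) : ℂ)‖ := by
    rw [← RCLike.norm_conj (X - _), map_sub, conj_ofReal]
  rw [hn, hd]
  have hb : ∀ ξ : ℝ, ‖g ξ * (RZ T M (NN T M (k - 1)) (zz ξ / L) ((0 : ℂ) / L) -
        (c : ℂ) * EE T (zz ξ / L + (0 : ℂ) / L))‖ ≤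
      ‖g ξ‖ * (1 + |ξ|) ^ A * (η / (K + 1) * L ^ (k ^ 2)) := by
    intro ξ
    have h1 := key (zz ξ) 0 (by rw [zz_re]; norm_num) le_rfl
    rw [norm_mul]
    have h2 : (1 + ‖zz ξ‖) ^ A ≤ 7 ^ A * (1 + |ξ|) ^ A := by
      rw [← mul_pow]
      exact pow_le_pow_left₀ (by positivity) (norm_zz_le ξ) A
    rw [norm_zero, add_zero, one_pow, mul_one] at h1
    calc ‖g ξ‖ * ‖RZ T M (NN T M (k - 1)) (zz ξ / L) ((0 : ℂ) / L) -
          (c : ℂ) * EE T (zz ξ / L + (0 : ℂ) / L)‖ ≤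
          ‖g ξ‖ * (η / (7 ^ A * (K + 1)) * L ^ (k ^ 2) * (7 ^ A * (1 + |ξ|) ^ A)) := by
          gcongr
          exact h1.trans (by gcongr)
      _ = _ := by
          field_simp
  refine (norm_integral_le_of_norm_le ((hg.int A).mul_const _)
    (Filter.Eventually.of_forall hb)).trans ?_
  rw [integral_mul_const, ← hK]
  calc K * (η / (K + 1) * L ^ (k ^ 2)) ≤ (K + 1) * (η / (K + 1) * L ^ (k ^ 2)) := by
        gcongr
        linarith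
    _ = _ := by field_simp

open SHF in
theorem stSHSq (h12 : StRA) : StSHSq := by
  intro δ η hδ _ hη
  obtain ⟨g, hg⟩ := exists_g hδ
  obtain ⟨A, key⟩ := keyD h12
  set K : ℝ := ∫ ξ : ℝ, ‖g ξ‖ * (1 + |ξ|) ^ A with hK
  have hK0 : 0 ≤ K := integral_nonneg fun ξ => by positivity
  obtain ⟨M₀, hM₀, key⟩ := key (η / (7 ^ A * (K + 1)) ^ 2) (by positivity)
  refine ⟨M₀, fun M hM => ?_⟩
  obtain ⟨k₁, hk₁, hk₁1, T₀, hT₀, key⟩ := key M hM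
  refine ⟨k₁, hk₁, hk₁1, T₀, hT₀, fun T hT k hk hk1 => ?_⟩
  have hT3 : 3 ≤ T := hT₀.trans hT
  have hT1 : 1 < T := by linarith
  have hL : 0 < Real.log T := Real.log_pos hT1
  have key := key T hT k hk hk1
  have hα : |k - 1| ≤ 1 := by rw [abs_le]; constructor <;> linarith
  set N : (ℕ → ℂ) → ℂ := fun f => NN T M (k - 1) (tw (1 / 2) f) with hN
  have bN : BC (SB T M (JJ T)) N := bc_NN hT1 (hM₀.trans hM) hα (by norm_num)
  set S : (ℕ → ℂ) → ℂ := fun f => SH δ T (tw (1 / 2) f) with hS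
  have bS : BC (SB T M (JJ T)) S := bc_SH δ T (1 / 2) _
  set B : (ℕ → ℂ) → ℂ := fun f => (starRingEnd ℂ) (S f) * (N f * (starRingEnd ℂ) (N f)) with hB
  have bB : BC (SB T M (JJ T)) B := bS.conj.mul (bN.mul bN.conj)
  obtain ⟨i1, r1⟩ := ER_SH hδ hg (blk_SB hT1 M (JJ T)) hT1
    (fun n h1 h2 => mem_factored hT1 M (JJ T) h1 h2) (w := 1 / 2) (by norm_num) bB
  set L := Real.log T with hLd
  set c : ℝ := L ^ (k ^ 2 - 1) with hc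
  -- the inner expectation
  have inner : ∀ ξ : ℝ, Integrable (fun ξ₂ : ℝ => g ξ₂ * RZ T M (NN T M (k - 1)) (zz ξ₂ / L)
        ((starRingEnd ℂ) (zz ξ) / L)) ∧ ER (SB T M (JJ T)) (fun f => ZZ (UU (SB T M (JJ T)))
      (tw (1 / 2 + zz ξ / L) f) * B f) = (starRingEnd ℂ) (∫ ξ₂ : ℝ, g ξ₂ *
        RZ T M (NN T M (k - 1)) (zz ξ₂ / L) ((starRingEnd ℂ) (zz ξ) / L)) := by
    intro ξ
    set B' : (ℕ → ℂ) → ℂ := fun f => (starRingEnd ℂ) (ZZ (PS 0 T) (tw (1 / 2 + zz ξ / L) f)) *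
      (N f * (starRingEnd ℂ) (N f)) with hB'
    have bZ : BC (SB T M (JJ T)) (fun f => ZZ (PS 0 T) (tw (1 / 2 + zz ξ / L) f)) :=
      bc_ZZ (fun p hp => XB.prime_PS hp) (by
        rw [sh_re]
        have h2 : ((1 / 2 : ℂ)).re = 1 / 2 := by norm_num
        rw [h2]
        positivity)
    obtain ⟨i3, r3⟩ := ER_SH hδ hg (blk_SB hT1 M (JJ T)) hT1
      (fun n h1 h2 => mem_factored hT1 M (JJ T) h1 h2) (w := 1 / 2) (by norm_num)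
      (B := B') (bZ.conj.mul (bN.mul bN.conj))
    rw [← hLd] at i3 r3
    have e3 : ∀ ξ₂ : ℝ, ER (SB T M (JJ T)) (fun f => ZZ (UU (SB T M (JJ T)))
        (tw (1 / 2 + zz ξ₂ / L) f) * B' f) = RZ T M (NN T M (k - 1)) (zz ξ₂ / L)
          ((starRingEnd ℂ) (zz ξ) / L) := by
      intro ξ₂
      rw [RZ, UU_SB hT1]
      congr 1
      funext f
      simp only [hB', hN, map_div₀, conj_conj, conj_ofReal]
      ring
    simp only [e3] at i3 r3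
    refine ⟨i3, ?_⟩
    rw [← r3, ← ER_conj, UU_SB hT1]
    congr 1
    funext f
    simp only [hB, hB', hS, hN, map_mul, conj_conj]
    ring
  have e1 := fun ξ => (inner ξ).2
  simp only [e1] at i1 r1
  -- the deterministic side
  have dd := fun ξ : ℝ => det1 hδ hg hT1 (b := (starRingEnd ℂ) (zz ξ) / L) (by
    rw [div_ofReal_re, conj_re, zz_re]; positivity)
  rw [← hLd] at dd
  have hdet : ∀ ξ : ℝ, (starRingEnd ℂ) (∫ ξ₂ : ℝ, g ξ₂ * EE T ((starRingEnd ℂ) (zz ξ) / L +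
      zz ξ₂ / L)) = ∑ n ∈ Finset.Icc 1 ⌊T⌋₊, (Pb δ (Real.log n / L) : ℂ) *
        ((n : ℂ) ^ (-(1 + zz ξ / L)) * 1) := by
    intro ξ
    rw [← (dd ξ).2, map_sum]
    refine Finset.sum_congr rfl fun n _ => ?_
    rw [map_mul, conj_ofReal, mul_one]
    congr 1
    have h : (n : ℂ).arg ≠ Real.pi := by
      rw [natCast_arg]
      exact Real.pi_pos.ne
    have h2 := cpow_conj (n : ℂ) (-(1 + (starRingEnd ℂ) (zz ξ) / L)) h
    rw [map_natCast] at h2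
    rw [← h2]
    simp only [map_neg, map_add, map_one, map_div₀, conj_conj, conj_ofReal]
  have hsum : ((c * ∑ n ∈ Finset.Icc 1 ⌊T⌋₊, Pb δ (Real.log n / L) ^ 2 / n : ℝ) : ℂ) =
      (c : ℂ) * ∫ ξ : ℝ, g ξ * (starRingEnd ℂ) (∫ ξ₂ : ℝ, g ξ₂ *
        EE T ((starRingEnd ℂ) (zz ξ) / L + zz ξ₂ / L)) := by
    have e4 : ∀ (n : ℕ) (ξ : ℝ), g ξ * ((Pb δ (Real.log n / L) : ℂ) *
        ((n : ℂ) ^ (-(1 + zz ξ / L)) * 1)) = (Pb δ (Real.log n / L) : ℂ) *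
        (g ξ * ((n : ℂ) ^ (-(1 + zz ξ / L)) * 1)) := fun n ξ => by ring
    simp only [hdet, Finset.mul_sum, e4]
    have hn0 : ∀ n ∈ Finset.Icc 1 ⌊T⌋₊, n ≠ 0 := by
      intro n hn
      rw [Finset.mem_Icc] at hn
      omega
    rw [integral_finsetSum _ (fun n hn => (one_freq_int hg 1 1 (hn0 n hn)).const_mul _)]
    push_cast
    rw [Finset.mul_sum]
    refine Finset.sum_congr rfl fun n hn => ?_
    rw [integral_const_mul, one_freq hg 1 1 (hn0 n hn), cpow_neg_one]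
    ring
  have hreal : ((ER (SB T M (JJ T)) (fun f => ‖SH δ T (tw (1 / 2) f)‖ ^ 2 *
      ‖NN T M (k - 1) (tw (1 / 2) f)‖ ^ 2) : ℝ) : ℂ) = ∫ ξ : ℝ, g ξ * (starRingEnd ℂ)
        (∫ ξ₂ : ℝ, g ξ₂ * RZ T M (NN T M (k - 1)) (zz ξ₂ / L) ((starRingEnd ℂ) (zz ξ) / L)) := by
    rw [← r1, ER_eq, ER_eq, ← integral_complex_ofReal]
    congr 1
    funext ω
    simp only [hB, hS, hN]
    rw [← mul_assoc, mul_conj, mul_conj, normSq_eq_norm_sq, normSq_eq_norm_sq]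
    push_cast
    rfl
  have i2 : Integrable fun ξ : ℝ => g ξ * (starRingEnd ℂ) (∫ ξ₂ : ℝ, g ξ₂ *
        EE T ((starRingEnd ℂ) (zz ξ) / L + zz ξ₂ / L)) := by
    simp only [hdet, Finset.mul_sum]
    refine integrable_finsetSum _ fun n hn => ?_
    have hn0 : n ≠ 0 := by
      rw [Finset.mem_Icc] at hn
      omega
    have h := (one_freq_int hg (L := L) 1 1 hn0).const_mul (Pb δ (Real.log n / L) : ℂ)
    have e5 : (fun ξ : ℝ => g ξ * ((Pb δ (Real.log n / L) : ℂ) *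
        ((n : ℂ) ^ (-(1 + zz ξ / L)) * 1))) = fun ξ : ℝ => (Pb δ (Real.log n / L) : ℂ) *
        (g ξ * ((n : ℂ) ^ (-(1 + zz ξ / L)) * 1)) := by
      funext ξ
      ring
    rw [e5]
    exact h
  have hd : ((ER (SB T M (JJ T)) (fun f => ‖SH δ T (tw (1 / 2) f)‖ ^ 2 *
      ‖NN T M (k - 1) (tw (1 / 2) f)‖ ^ 2) - c * ∑ n ∈ Finset.Icc 1 ⌊T⌋₊,
        Pb δ (Real.log n / L) ^ 2 / n : ℝ) : ℂ) =
      ∫ ξ : ℝ, g ξ * (starRingEnd ℂ) (∫ ξ₂ : ℝ, g ξ₂ * (RZ T M (NN T M (k - 1)) (zz ξ₂ / L)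
        ((starRingEnd ℂ) (zz ξ) / L) - (c : ℂ) * EE T (zz ξ₂ / L + (starRingEnd ℂ) (zz ξ) / L))) := by
    rw [ofReal_sub, hreal, hsum, ← integral_const_mul, ← integral_sub i1 (i2.const_mul _)]
    congr 1
    funext ξ
    have h1 : ∫ ξ₂ : ℝ, g ξ₂ * (RZ T M (NN T M (k - 1)) (zz ξ₂ / L)
        ((starRingEnd ℂ) (zz ξ) / L) - (c : ℂ) * EE T (zz ξ₂ / L + (starRingEnd ℂ) (zz ξ) / L)) =
        (∫ ξ₂ : ℝ, g ξ₂ * RZ T M (NN T M (k - 1)) (zz ξ₂ / L) ((starRingEnd ℂ) (zz ξ) / L)) -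
        (c : ℂ) * ∫ ξ₂ : ℝ, g ξ₂ * EE T ((starRingEnd ℂ) (zz ξ) / L + zz ξ₂ / L) := by
      rw [← integral_const_mul, ← integral_sub (inner ξ).1 ((dd ξ).1.const_mul _)]
      congr 1
      funext ξ₂
      rw [add_comm (zz ξ₂ / (L : ℂ))]
      ring
    rw [h1, map_sub, map_mul, conj_ofReal]
    ring
  have hb2 : ∀ ξ : ℝ, ‖∫ ξ₂ : ℝ, g ξ₂ * (RZ T M (NN T M (k - 1)) (zz ξ₂ / L)
        ((starRingEnd ℂ) (zz ξ) / L) - (c : ℂ) * EE T (zz ξ₂ / L + (starRingEnd ℂ) (zz ξ) / L))‖ ≤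
      K * ((1 + |ξ|) ^ A * (η / (K + 1) ^ 2 * L ^ (k ^ 2))) := by
    intro ξ
    have hb : ∀ ξ₂ : ℝ, ‖g ξ₂ * (RZ T M (NN T M (k - 1)) (zz ξ₂ / L)
        ((starRingEnd ℂ) (zz ξ) / L) - (c : ℂ) * EE T (zz ξ₂ / L + (starRingEnd ℂ) (zz ξ) / L))‖ ≤
        ‖g ξ₂‖ * (1 + |ξ₂|) ^ A * ((1 + |ξ|) ^ A * (η / (K + 1) ^ 2 * L ^ (k ^ 2))) := by
      intro ξ₂
      have h1 := key (zz ξ₂) ((starRingEnd ℂ) (zz ξ)) (by rw [zz_re]; norm_num)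
        (by rw [conj_re, zz_re]; norm_num)
      rw [norm_mul]
      rw [RCLike.norm_conj] at h1
      have h2 : ∀ x : ℝ, (1 + ‖zz x‖) ^ A ≤ 7 ^ A * (1 + |x|) ^ A := by
        intro x
        rw [← mul_pow]
        exact pow_le_pow_left₀ (by positivity) (norm_zz_le x) A
      have h3 := h2 ξ
      have h4 := h2 ξ₂
      calc ‖g ξ₂‖ * ‖RZ T M (NN T M (k - 1)) (zz ξ₂ / L) ((starRingEnd ℂ) (zz ξ) / L) -
            (c : ℂ) * EE T (zz ξ₂ / L + (starRingEnd ℂ) (zz ξ) / L)‖ ≤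
            ‖g ξ₂‖ * (η / (7 ^ A * (K + 1)) ^ 2 * L ^ (k ^ 2) *
              ((7 ^ A * (1 + |ξ₂|) ^ A) * (7 ^ A * (1 + |ξ|) ^ A))) := by
            gcongr
            exact h1.trans (by gcongr)
        _ = _ := by
            field_simp
    refine (norm_integral_le_of_norm_le ((hg.int A).mul_const _)
      (Filter.Eventually.of_forall hb)).trans ?_
    rw [integral_mul_const, ← hK]
  rw [← Real.norm_eq_abs, ← norm_real, hd]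
  have hb3 : ∀ ξ : ℝ, ‖g ξ * (starRingEnd ℂ) (∫ ξ₂ : ℝ, g ξ₂ * (RZ T M (NN T M (k - 1)) (zz ξ₂ / L)
        ((starRingEnd ℂ) (zz ξ) / L) - (c : ℂ) * EE T (zz ξ₂ / L + (starRingEnd ℂ) (zz ξ) / L)))‖ ≤
      ‖g ξ‖ * (1 + |ξ|) ^ A * (K * (η / (K + 1) ^ 2 * L ^ (k ^ 2))) := by
    intro ξ
    rw [norm_mul, RCLike.norm_conj]
    calc ‖g ξ‖ * ‖∫ ξ₂ : ℝ, g ξ₂ * (RZ T M (NN T M (k - 1)) (zz ξ₂ / L)
        ((starRingEnd ℂ) (zz ξ) / L) - (c : ℂ) * EE T (zz ξ₂ / L + (starRingEnd ℂ) (zz ξ) / L))‖ ≤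
        ‖g ξ‖ * (K * ((1 + |ξ|) ^ A * (η / (K + 1) ^ 2 * L ^ (k ^ 2)))) := by
          gcongr
          exact hb2 ξ
      _ = _ := by ring
  refine (norm_integral_le_of_norm_le ((hg.int A).mul_const _)
    (Filter.Eventually.of_forall hb3)).trans ?_
  rw [integral_mul_const, ← hK]
  have hKK : K * K ≤ (K + 1) ^ 2 := by nlinarith
  calc K * (K * (η / (K + 1) ^ 2 * L ^ (k ^ 2))) = (K * K) * (η / (K + 1) ^ 2 * L ^ (k ^ 2)) := by ring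
    _ ≤ (K + 1) ^ 2 * (η / (K + 1) ^ 2 * L ^ (k ^ 2)) := by gcongr
    _ = _ := by field_simp

end K1
end Pool.Agent.Lib.MP_973905_nt
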