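import Pool.Agent.Lib.MP_973905_nt.K1.Stmts
import Pool.Agent.Lib.MP_973905_nt.Len2

/-! Module (13): our polynomials are as short as we like. -/

namespace Pool.Agent.Lib.MP_973905_nt
namespace K1

theorem stShort : StShort := by
  intro θ hθ
  obtain ⟨M₀, hM₀⟩ := dp_AA2 hθ
  refine ⟨M₀, fun M hM => ?_⟩
  obtain ⟨T₀, hT₀⟩ := hM₀ M hM
  refine ⟨max T₀ 3, le_max_right _ _, fun T hT α hα g h => ?_⟩
  exact hT₀ T ((le_max_left _ _).trans hT) α (by linarith) g h

end K1
end Pool.Agent.Lib.MP_973905_nt
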