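import Pool.Agent.Lib.MP_973905_nt.K1.Stmts

/-! K1 module (8): analyticity and growth of the shifted second moment. -/

namespace Pool.Agent.Lib.MP_973905_nt
namespace K1
namespace Strip

open MeasureTheory ProbabilityTheory Complex Filter Topology

lemma ne_one_of_re {s : ℂ} (h : s.re < 1) : s ≠ 1 := by
  rintro rfl
  simp at h

/-- linear growth of zeta to the left of `7/8` -/
lemma zeta_lin : ∃ C : ℝ, 0 < C ∧ ∀ s : ℂ, 1 / 8 ≤ s.re → s.re ≤ 7 / 8 →
    ‖riemannZeta s‖ ≤ C * (1 + |s.im|) := by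
  obtain ⟨C, hC, h⟩ := zeta_growth
  refine ⟨9 * C, by positivity, fun s h1 h2 => ?_⟩
  have hs1 : s ≠ 1 := ne_one_of_re (by linarith)
  rw [riemannZeta_eq_inv_sub_mul hs1, norm_mul, norm_inv]
  have h3 := h s h1 (by linarith)
  have h5 := abs_re_le_norm (s - 1)
  have h6 := abs_im_le_norm (s - 1)
  rw [sub_re, one_re, abs_of_nonpos (by linarith)] at h5
  rw [sub_im, one_im, sub_zero] at h6
  have h7 : 0 < ‖s - 1‖ := by linarith
  have hy := abs_nonneg s.im
  rw [inv_mul_le_iff₀ h7]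
  calc ‖riemannZeta₁ s‖ ≤ C * (1 + |s.im|) ^ 2 := h3
    _ = C * (1 + |s.im|) * (1 + |s.im|) := by ring
    _ ≤ C * (1 + |s.im|) * (9 * ‖s - 1‖) := by
        gcongr
        linarith
    _ = _ := by ring

lemma diffAt_zeta {s : ℂ} (h : s.re < 1) : DifferentiableAt ℂ riemannZeta s :=
  differentiableAt_riemannZeta (ne_one_of_re h)

/-- linear growth of the derivative -/
lemma deriv_zeta_lin : ∃ C : ℝ, 0 < C ∧ ∀ s : ℂ, 1 / 4 ≤ s.re → s.re ≤ 3 / 4 →
    ‖deriv riemannZeta s‖ ≤ C * (1 + |s.im|) := by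
  obtain ⟨C, hC, h⟩ := zeta_lin
  refine ⟨9 * C, by positivity, fun s h1 h2 => ?_⟩
  have hball : ∀ z ∈ Metric.closedBall s (1 / 8 : ℝ), 1 / 8 ≤ z.re ∧ z.re ≤ 7 / 8 ∧
      |z.im| ≤ |s.im| + 1 / 8 := by
    intro z hz
    rw [Metric.mem_closedBall, dist_eq_norm] at hz
    have h5 := (abs_re_le_norm (z - s)).trans hz
    have h6 := (abs_im_le_norm (z - s)).trans hz
    rw [sub_re, abs_le] at h5
    rw [sub_im] at h6
    have h7 := abs_sub_abs_le_abs_sub z.im s.im
    exact ⟨by linarith [h5.1], by linarith [h5.2], by linarith⟩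
  have hd : DiffContOnCl ℂ riemannZeta (Metric.ball s (1 / 8)) := by
    apply DifferentiableOn.diffContOnCl
    rw [closure_ball s (by norm_num)]
    intro z hz
    exact (diffAt_zeta (by linarith [(hball z hz).2.1])).differentiableWithinAt
  have h3 := norm_deriv_le_of_forall_mem_sphere_norm_le (C := C * (1 + |s.im| + 1 / 8))
    (by norm_num) hd (fun z hz => by
      have h4 := hball z (Metric.sphere_subset_closedBall hz)
      refine (h z h4.1 h4.2.1).trans ?_
      refine mul_le_mul_of_nonneg_left ?_ hC.le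
      linarith [h4.2.2])
  refine h3.trans ?_
  have hy := abs_nonneg s.im
  rw [div_le_iff₀ (by norm_num)]
  nlinarith

/-- the two points -/
lemma re_add (a : ℂ) (t : ℝ) : (1 / 2 + a + t * I).re = 1 / 2 + a.re := by simp
lemma re_sub (a : ℂ) (t : ℝ) : (1 / 2 + a - t * I).re = 1 / 2 + a.re := by simp
lemma im_add (a : ℂ) (t : ℝ) : (1 / 2 + a + t * I).im = a.im + t := by simp
lemma im_sub (a : ℂ) (t : ℝ) : (1 / 2 + a - t * I).im = a.im - t := by simp

lemma one_add_abs_add (x y : ℝ) : 1 + |x + y| ≤ (1 + |x|) * (1 + |y|) := by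
  have := abs_add_le x y
  nlinarith [abs_nonneg x, abs_nonneg y]

lemma one_add_abs_sub (x y : ℝ) : 1 + |x - y| ≤ (1 + |x|) * (1 + |y|) := by
  have := one_add_abs_add x (-y)
  rwa [abs_neg, ← sub_eq_add_neg] at this

/-- the weight -/
lemma weight {N B : ℝ} {G : (ℕ → ℂ) → ℂ} (hG : DP N B G) :
    Continuous (fun t : ℝ => G (fs (1 / 2 + t * I)) * (starRingEnd ℂ) (G (fs (1 / 2 + t * I)))) ∧
    ∀ t : ℝ, ‖G (fs (1 / 2 + t * I)) * (starRingEnd ℂ) (G (fs (1 / 2 + t * I)))‖ ≤ B ^ 2 := by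
  have hB := hG.M_nonneg
  obtain ⟨k, c, n, h1, h2, h3⟩ := hG
  have e : ∀ t : ℝ, G (fs (1 / 2 + t * I)) = ∑ i, c i * fs (1 / 2 + t * I) (n i) :=
    fun t => h3 _ (cmul_fs _)
  have hc : Continuous fun t : ℝ => G (fs (1 / 2 + t * I)) := by
    simp only [e]
    refine continuous_finsetSum _ fun i _ => continuous_const.mul ?_
    have h0 : (n i : ℂ) ≠ 0 := by
      have := (h1 i).1
      exact_mod_cast (by omega : n i ≠ 0)
    simp only [fs]
    exact Continuous.const_cpow (by fun_prop) (Or.inl h0)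
  have hb : ∀ t : ℝ, ‖G (fs (1 / 2 + t * I))‖ ≤ B := by
    intro t
    rw [e]
    refine (norm_sum_le _ _).trans (le_trans (Finset.sum_le_sum fun i _ => ?_) h2)
    rw [norm_mul]
    refine mul_le_of_le_one_right (norm_nonneg _) ?_
    simp only [fs]
    exact norm_natCast_cpow_neg_le_one (by simp) (h1 i).1
  refine ⟨hc.mul (Complex.continuous_conj.comp hc), fun t => ?_⟩
  rw [norm_mul, RCLike.norm_conj, sq]
  exact mul_le_mul (hb t) (hb t) (norm_nonneg _) hB

lemma isOpen_strip : IsOpen {a : ℂ | |a.re| < 1 / 4} :=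
  isOpen_lt (continuous_abs.comp continuous_re) continuous_const

lemma cont_zeta_comp {g : ℝ → ℂ} (hg : Continuous g) (h : ∀ t, (g t).re < 1) :
    Continuous fun t => riemannZeta (g t) := by
  refine continuous_iff_continuousAt.mpr fun t => ?_
  exact ContinuousAt.comp (f := g) (g := riemannZeta) (diffAt_zeta (h t)).continuousAt
    hg.continuousAt

lemma cont_deriv_zeta_comp {g : ℝ → ℂ} (hg : Continuous g) (h : ∀ t, (g t).re < 1) :
    Continuous fun t => deriv riemannZeta (g t) := by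
  have hd : DifferentiableOn ℂ (deriv riemannZeta) {s : ℂ | s.re < 1} := by
    apply DifferentiableOn.deriv
    · intro s hs
      exact (diffAt_zeta hs).differentiableWithinAt
    · exact isOpen_lt continuous_re continuous_const
  refine continuous_iff_continuousAt.mpr fun t => ?_
  refine ContinuousAt.comp (f := g) (g := deriv riemannZeta) ?_ hg.continuousAt
  exact (hd.differentiableAt ((isOpen_lt continuous_re continuous_const).mem_nhds (h t))).continuousAt

/-- the derivative of the product of the two zeta values -/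
lemma hasDerivAt_pair {a : ℂ} (ha : a ∈ {a : ℂ | |a.re| < 1 / 4}) (t : ℝ) (w : ℂ) :
    HasDerivAt (fun a : ℂ => riemannZeta (1 / 2 + a + t * I) * riemannZeta (1 / 2 + a - t * I) * w)
      ((deriv riemannZeta (1 / 2 + a + t * I) * riemannZeta (1 / 2 + a - t * I) +
        riemannZeta (1 / 2 + a + t * I) * deriv riemannZeta (1 / 2 + a - t * I)) * w) a := by
  have ha' : |a.re| < 1 / 4 := ha
  rw [abs_lt] at ha'
  have h1 : HasDerivAt riemannZeta (deriv riemannZeta (1 / 2 + a + t * I)) (1 / 2 + a + t * I) :=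
    (diffAt_zeta (by rw [re_add]; linarith)).hasDerivAt
  have h2 : HasDerivAt riemannZeta (deriv riemannZeta (1 / 2 + a - t * I)) (1 / 2 + a - t * I) :=
    (diffAt_zeta (by rw [re_sub]; linarith)).hasDerivAt
  have e1 : HasDerivAt (fun a : ℂ => 1 / 2 + a + t * I) 1 a :=
    ((hasDerivAt_id a).const_add (1 / 2)).add_const _
  have e2 : HasDerivAt (fun a : ℂ => 1 / 2 + a - t * I) 1 a :=
    ((hasDerivAt_id a).const_add (1 / 2)).sub_const _
  have h3 := HasDerivAt.comp a h1 e1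
  have h4 := HasDerivAt.comp a h2 e2
  have h5 := (h3.mul h4).mul_const w
  simp only [mul_one] at h5
  exact h5

lemma part1 (T τ N B : ℝ) (G : (ℕ → ℂ) → ℂ) (hG : DP N B G) :
    DifferentiableOn ℂ (FG T τ G) {a : ℂ | |a.re| < 1 / 4} := by
  obtain ⟨C, hC, hz⟩ := zeta_lin
  obtain ⟨D, hD, hd⟩ := deriv_zeta_lin
  obtain ⟨hWc, hWb⟩ := weight hG
  set W : ℝ → ℂ := fun t => G (fs (1 / 2 + t * I)) * (starRingEnd ℂ) (G (fs (1 / 2 + t * I)))
    with hW
  intro a₀ ha₀
  have hre : ∀ a ∈ {a : ℂ | |a.re| < 1 / 4}, -(1 / 4) < a.re ∧ a.re < 1 / 4 := by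
    intro a ha
    exact abs_lt.mp ha
  have hcz : ∀ a ∈ {a : ℂ | |a.re| < 1 / 4}, Continuous fun t : ℝ =>
      riemannZeta (1 / 2 + a + t * I) * riemannZeta (1 / 2 + a - t * I) * W t := by
    intro a ha
    have h1 := hre a ha
    exact ((cont_zeta_comp (by fun_prop) fun t => by rw [re_add]; linarith).mul
      (cont_zeta_comp (by fun_prop) fun t => by rw [re_sub]; linarith)).mul hWc
  have hcd : ∀ a ∈ {a : ℂ | |a.re| < 1 / 4}, Continuous fun t : ℝ =>
      (deriv riemannZeta (1 / 2 + a + t * I) * riemannZeta (1 / 2 + a - t * I) +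
        riemannZeta (1 / 2 + a + t * I) * deriv riemannZeta (1 / 2 + a - t * I)) * W t := by
    intro a ha
    have h1 := hre a ha
    exact (((cont_deriv_zeta_comp (by fun_prop) fun t => by rw [re_add]; linarith).mul
      (cont_zeta_comp (by fun_prop) fun t => by rw [re_sub]; linarith)).add
      ((cont_zeta_comp (by fun_prop) fun t => by rw [re_add]; linarith).mul
      (cont_deriv_zeta_comp (by fun_prop) fun t => by rw [re_sub]; linarith))).mul hWc
  have hball : Metric.ball a₀ 1 ∩ {a : ℂ | |a.re| < 1 / 4} ∈ 𝓝 a₀ :=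
    Filter.inter_mem (Metric.ball_mem_nhds a₀ one_pos) (isOpen_strip.mem_nhds ha₀)
  have him : ∀ a ∈ Metric.ball a₀ 1, 1 + |a.im| ≤ 2 + |a₀.im| := by
    intro a ha
    rw [Metric.mem_ball, dist_eq_norm] at ha
    have h6 := (abs_im_le_norm (a - a₀)).trans ha.le
    rw [sub_im] at h6
    have h7 := abs_sub_abs_le_abs_sub a.im a₀.im
    linarith
  have hza : ∀ a ∈ {a : ℂ | |a.re| < 1 / 4}, ∀ t : ℝ, ‖riemannZeta (1 / 2 + a + t * I)‖ ≤
      C * ((1 + |a.im|) * (1 + |t|)) := by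
    intro a ha t
    have h1 := hre a ha
    refine (hz _ (by rw [re_add]; linarith) (by rw [re_add]; linarith)).trans ?_
    rw [im_add]
    exact mul_le_mul_of_nonneg_left (one_add_abs_add _ _) hC.le
  have hzs : ∀ a ∈ {a : ℂ | |a.re| < 1 / 4}, ∀ t : ℝ, ‖riemannZeta (1 / 2 + a - t * I)‖ ≤
      C * ((1 + |a.im|) * (1 + |t|)) := by
    intro a ha t
    have h1 := hre a ha
    refine (hz _ (by rw [re_sub]; linarith) (by rw [re_sub]; linarith)).trans ?_
    rw [im_sub]
    exact mul_le_mul_of_nonneg_left (one_add_abs_sub _ _) hC.le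
  have hda : ∀ a ∈ {a : ℂ | |a.re| < 1 / 4}, ∀ t : ℝ, ‖deriv riemannZeta (1 / 2 + a + t * I)‖ ≤
      D * ((1 + |a.im|) * (1 + |t|)) := by
    intro a ha t
    have h1 := hre a ha
    refine (hd _ (by rw [re_add]; linarith) (by rw [re_add]; linarith)).trans ?_
    rw [im_add]
    exact mul_le_mul_of_nonneg_left (one_add_abs_add _ _) hD.le
  have hds : ∀ a ∈ {a : ℂ | |a.re| < 1 / 4}, ∀ t : ℝ, ‖deriv riemannZeta (1 / 2 + a - t * I)‖ ≤
      D * ((1 + |a.im|) * (1 + |t|)) := by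
    intro a ha t
    have h1 := hre a ha
    refine (hd _ (by rw [re_sub]; linarith) (by rw [re_sub]; linarith)).trans ?_
    rw [im_sub]
    exact mul_le_mul_of_nonneg_left (one_add_abs_sub _ _) hD.le
  have hB := hG.M_nonneg
  have key := hasDerivAt_integral_of_dominated_loc_of_deriv_le (μ := gaussianReal τ (VV T))
    (F := fun a t => riemannZeta (1 / 2 + a + (t : ℝ) * I) * riemannZeta (1 / 2 + a - t * I) * W t)
    (F' := fun a t => (deriv riemannZeta (1 / 2 + a + t * I) * riemannZeta (1 / 2 + a - t * I) +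
        riemannZeta (1 / 2 + a + t * I) * deriv riemannZeta (1 / 2 + a - t * I)) * W t)
    (bound := fun t => (2 * C * D * (2 + |a₀.im|) ^ 2 * B ^ 2) * (1 + |t|) ^ 2)
    (x₀ := a₀) hball ?_ ?_ ?_ ?_ ?_ ?_
  · have h1 : FG T τ G = fun a => ∫ t : ℝ, riemannZeta (1 / 2 + a + (t : ℝ) * I) *
        riemannZeta (1 / 2 + a - t * I) * W t ∂(gaussianReal τ (VV T)) := rfl
    rw [h1]
    exact key.2.differentiableAt.differentiableWithinAt
  · filter_upwards [isOpen_strip.mem_nhds ha₀] with a ha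
    exact (hcz a ha).aestronglyMeasurable
  · refine integrable_of_poly τ (VV T) (hcz a₀ ha₀).aestronglyMeasurable
      (C := C ^ 2 * (1 + |a₀.im|) ^ 2 * B ^ 2) (m := 2) fun t => ?_
    rw [norm_mul, norm_mul]
    calc ‖riemannZeta (1 / 2 + a₀ + t * I)‖ * ‖riemannZeta (1 / 2 + a₀ - t * I)‖ * ‖W t‖
        ≤ (C * ((1 + |a₀.im|) * (1 + |t|))) * (C * ((1 + |a₀.im|) * (1 + |t|))) * B ^ 2 := by
          gcongr
          · exact hza a₀ ha₀ t
          · exact hzs a₀ ha₀ t
          · exact hWb t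
      _ = _ := by ring
  · exact (hcd a₀ ha₀).aestronglyMeasurable
  · refine Filter.Eventually.of_forall fun t a ha => ?_
    have h1 := him a ha.1
    have h2 := hza a ha.2 t
    have h3 := hzs a ha.2 t
    have h4 := hda a ha.2 t
    have h5 := hds a ha.2 t
    have h6 : (1 + |a.im|) * (1 + |t|) ≤ (2 + |a₀.im|) * (1 + |t|) :=
      mul_le_mul_of_nonneg_right h1 (by positivity)
    rw [norm_mul]
    have h7 : ‖deriv riemannZeta (1 / 2 + a + t * I) * riemannZeta (1 / 2 + a - t * I) +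
        riemannZeta (1 / 2 + a + t * I) * deriv riemannZeta (1 / 2 + a - t * I)‖ ≤
        D * ((2 + |a₀.im|) * (1 + |t|)) * (C * ((2 + |a₀.im|) * (1 + |t|))) +
        C * ((2 + |a₀.im|) * (1 + |t|)) * (D * ((2 + |a₀.im|) * (1 + |t|))) := by
      refine (norm_add_le _ _).trans ?_
      rw [norm_mul, norm_mul]
      have h8 := mul_le_mul_of_nonneg_left h6 hC.le
      have h9 := mul_le_mul_of_nonneg_left h6 hD.le
      gcongr
      · exact h4.trans h9
      · exact h3.trans h8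
      · exact h2.trans h8
      · exact h5.trans h9
    calc _ ≤ (D * ((2 + |a₀.im|) * (1 + |t|)) * (C * ((2 + |a₀.im|) * (1 + |t|))) +
        C * ((2 + |a₀.im|) * (1 + |t|)) * (D * ((2 + |a₀.im|) * (1 + |t|)))) * B ^ 2 := by
          gcongr
          exact hWb t
      _ = _ := by ring
  · exact (integrable_one_add_abs_pow τ (VV T) 2).const_mul _
  · refine Filter.Eventually.of_forall fun t a ha => ?_
    exact hasDerivAt_pair ha.2 t (W t)

lemma second_moment (τ : ℝ) (v : NNReal) : ∫ t : ℝ, t ^ 2 ∂(gaussianReal τ v) = τ ^ 2 + v := by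
  have h := variance_eq_sub (μ := gaussianReal τ v) (X := fun x => x)
    (memLp_id_gaussianReal (μ := τ) (v := v) 2)
  rw [variance_fun_id_gaussianReal] at h
  have e : (gaussianReal τ v)[(fun x : ℝ => x) ^ 2] = ∫ t : ℝ, t ^ 2 ∂(gaussianReal τ v) := by
    rfl
  rw [e, integral_id_gaussianReal] at h
  linarith

lemma integrable_sq (τ : ℝ) (v : NNReal) : Integrable (fun t : ℝ => t ^ 2) (gaussianReal τ v) := by
  refine integrable_of_poly τ v (by fun_prop) (C := 1) (m := 2) fun t => ?_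
  rw [norm_pow, one_mul, Real.norm_eq_abs]
  gcongr
  linarith

lemma mom2 {T τ : ℝ} (hT : 3 ≤ T) (hτ : |τ| ≤ 2 * T) :
    ∫ t : ℝ, (1 + |t|) ^ 2 ∂(gaussianReal τ (VV T)) ≤ 12 * T ^ 2 := by
  have h1 : ∫ t : ℝ, (1 + |t|) ^ 2 ∂(gaussianReal τ (VV T)) ≤
      ∫ t : ℝ, (2 + 2 * t ^ 2) ∂(gaussianReal τ (VV T)) := by
    refine integral_mono (integrable_one_add_abs_pow τ (VV T) 2)
      ((integrable_const _).add ((integrable_sq τ (VV T)).const_mul 2)) fun t => ?_
    show (1 + |t|) ^ 2 ≤ 2 + 2 * t ^ 2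
    have := sq_abs t
    nlinarith [sq_nonneg (1 - |t|)]
  rw [integral_add (integrable_const _) ((integrable_sq τ (VV T)).const_mul 2),
    integral_const_mul, second_moment] at h1
  have h2 : τ ^ 2 ≤ 4 * T ^ 2 := by
    rw [← sq_abs]
    nlinarith [abs_nonneg τ]
  have h3 : ((VV T : NNReal) : ℝ) ≤ T ^ 2 := by
    rw [VV_coe (by linarith), ← Real.rpow_natCast T 2]
    apply Real.rpow_le_rpow_of_exponent_le (by linarith)
    norm_num
  simp only [integral_const, probReal_univ, one_smul] at h1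
  nlinarith

lemma part2 : ∃ C : ℝ, 0 < C ∧ ∀ T : ℝ, 3 ≤ T → ∀ τ : ℝ, |τ| ≤ 2 * T → ∀ (N B : ℝ)
    (G : (ℕ → ℂ) → ℂ), DP N B G →
      ∀ a : ℂ, |a.re| ≤ 1 / 8 → ‖FG T τ G a‖ ≤ C * B ^ 2 * T ^ 4 * (1 + |a.im|) ^ 4 := by
  obtain ⟨C, hC, hz⟩ := zeta_lin
  refine ⟨12 * C ^ 2, by positivity, fun T hT τ hτ N B G hG a ha => ?_⟩
  obtain ⟨hWc, hWb⟩ := weight hG
  have hB := hG.M_nonneg
  have h0 := abs_le.mp ha
  have h1 : ‖FG T τ G a‖ ≤ ∫ t : ℝ, (C ^ 2 * (1 + |a.im|) ^ 2 * B ^ 2) * (1 + |t|) ^ 2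
      ∂(gaussianReal τ (VV T)) := by
    refine norm_integral_le_of_norm_le ((integrable_one_add_abs_pow τ (VV T) 2).const_mul _)
      (Filter.Eventually.of_forall fun t => ?_)
    rw [norm_mul, norm_mul]
    have h2 : ‖riemannZeta (1 / 2 + a + t * I)‖ ≤ C * ((1 + |a.im|) * (1 + |t|)) := by
      refine (hz _ (by rw [re_add]; linarith) (by rw [re_add]; linarith)).trans ?_
      rw [im_add]
      exact mul_le_mul_of_nonneg_left (one_add_abs_add _ _) hC.le
    have h3 : ‖riemannZeta (1 / 2 + a - t * I)‖ ≤ C * ((1 + |a.im|) * (1 + |t|)) := by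
      refine (hz _ (by rw [re_sub]; linarith) (by rw [re_sub]; linarith)).trans ?_
      rw [im_sub]
      exact mul_le_mul_of_nonneg_left (one_add_abs_sub _ _) hC.le
    calc ‖riemannZeta (1 / 2 + a + t * I)‖ * ‖riemannZeta (1 / 2 + a - t * I)‖ *
          ‖G (fs (1 / 2 + t * I)) * (starRingEnd ℂ) (G (fs (1 / 2 + t * I)))‖
        ≤ (C * ((1 + |a.im|) * (1 + |t|))) * (C * ((1 + |a.im|) * (1 + |t|))) * B ^ 2 := by
          gcongr
          exact hWb t
      _ = _ := by ring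
  rw [integral_const_mul] at h1
  have h4 := mom2 hT hτ
  have hy : 1 ≤ 1 + |a.im| := by linarith [abs_nonneg a.im]
  calc ‖FG T τ G a‖ ≤ (C ^ 2 * (1 + |a.im|) ^ 2 * B ^ 2) *
        ∫ t : ℝ, (1 + |t|) ^ 2 ∂(gaussianReal τ (VV T)) := h1
    _ ≤ (C ^ 2 * (1 + |a.im|) ^ 4 * B ^ 2) * (12 * T ^ 4) := by
        gcongr ?_ * ?_
        · gcongr
          norm_num
        · refine h4.trans ?_
          gcongr
          · linarith
          · norm_num
    _ = _ := by ring

end Strip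

theorem stStrip : StStrip :=
  ⟨fun T τ N B G _ hG => Strip.part1 T τ N B G hG, Strip.part2⟩

end K1
end Pool.Agent.Lib.MP_973905_nt
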