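import Pool.Agent.Lib.MP_973905_nt.K1.Stmts

namespace Pool.Agent.Lib.MP_973905_nt
namespace K1

open MeasureTheory ProbabilityTheory Complex Filter Topology

namespace ThreeLines

/-- `a` times the main term, as an entire function. -/
noncomputable def HM (X : ℝ) (R : ℂ → ℂ) (a : ℂ) : ℂ :=
  (1 / 2 : ℂ) * (riemannZeta₁ (1 + 2 * a) * R a -
    (X : ℂ) ^ (-(2 * a)) * (riemannZeta₁ (1 - 2 * a) * R (-a)))

lemma HM_diff {X : ℝ} (hX : 0 < X) {R : ℂ → ℂ} (hR : Differentiable ℂ R) :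
    Differentiable ℂ (HM X R) := by
  have hX0 : (X : ℂ) ≠ 0 := by exact_mod_cast hX.ne'
  unfold HM
  have h1 := differentiable_riemannZeta₁
  have e1 : Differentiable ℂ (fun a : ℂ => riemannZeta₁ (1 + 2 * a)) := h1.comp (by fun_prop)
  have e2 : Differentiable ℂ (fun a : ℂ => riemannZeta₁ (1 - 2 * a)) := h1.comp (by fun_prop)
  have e3 : Differentiable ℂ (fun a : ℂ => R (-a)) := hR.comp (by fun_prop)
  have e4 : Differentiable ℂ (fun a : ℂ => (X : ℂ) ^ (-(2 * a))) := by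
    intro a
    exact DifferentiableAt.const_cpow (by fun_prop) (Or.inl hX0)
  exact ((e1.mul hR).sub (e4.mul (e2.mul e3))).const_mul _

lemma mul_zeta_plus {a : ℂ} (ha : a ≠ 0) :
    a * riemannZeta (1 + 2 * a) = 1 / 2 * riemannZeta₁ (1 + 2 * a) := by
  have h : (1 + 2 * a) ≠ 1 := by
    intro h; apply ha; linear_combination h / 2
  rw [riemannZeta_eq_inv_sub_mul h]
  have : 1 + 2 * a - 1 = 2 * a := by ring
  rw [this]
  field_simp

lemma mul_zeta_minus {a : ℂ} (ha : a ≠ 0) :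
    a * riemannZeta (1 - 2 * a) = -(1 / 2) * riemannZeta₁ (1 - 2 * a) := by
  have h : (1 - 2 * a) ≠ 1 := by
    intro h; apply ha; linear_combination -h / 2
  rw [riemannZeta_eq_inv_sub_mul h]
  have : 1 - 2 * a - 1 = -(2 * a) := by ring
  rw [this]
  field_simp

lemma HM_eq (X : ℝ) (R : ℂ → ℂ) {a : ℂ} (ha : a ≠ 0) :
    HM X R a = a * (riemannZeta (1 + 2 * a) * R a +
      (X : ℂ) ^ (-(2 * a)) * (riemannZeta (1 - 2 * a) * R (-a))) := by
  rw [HM]
  linear_combination (-R a) * mul_zeta_plus ha - ((X : ℂ) ^ (-(2 * a)) * R (-a)) * mul_zeta_minus ha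

lemma norm_X_cpow {X : ℝ} (hX : 0 < X) (a : ℂ) : ‖(X : ℂ) ^ (-(2 * a))‖ = X ^ (-(2 * a.re)) := by
  rw [norm_cpow_eq_rpow_re_of_pos hX]
  simp

/-- the bound for the `riemannZeta₁` factors -/
lemma zeta1_le {C : ℝ} (hC : ∀ s : ℂ, 1 / 8 ≤ s.re → s.re ≤ 10 →
    ‖riemannZeta₁ s‖ ≤ C * (1 + |s.im|) ^ 2) (hC0 : 0 < C) {a : ℂ} (ha : |a.re| ≤ 1 / 8) :
    ‖riemannZeta₁ (1 + 2 * a)‖ ≤ 4 * C * (1 + |a.im|) ^ 2 ∧
    ‖riemannZeta₁ (1 - 2 * a)‖ ≤ 4 * C * (1 + |a.im|) ^ 2 := by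
  have h := abs_le.mp ha
  have him : 0 ≤ |a.im| := abs_nonneg _
  constructor
  · have h1 := hC (1 + 2 * a) (by simp; linarith) (by simp; linarith)
    have e : |(1 + 2 * a).im| = 2 * |a.im| := by simp [abs_mul]
    rw [e] at h1
    refine h1.trans ?_
    rw [show 4 * C * (1 + |a.im|) ^ 2 = C * (2 * (1 + |a.im|)) ^ 2 by ring]
    gcongr
    linarith
  · have h1 := hC (1 - 2 * a) (by simp; linarith) (by simp; linarith)
    have e : |(1 - 2 * a).im| = 2 * |a.im| := by simp [abs_mul]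
    rw [e] at h1
    refine h1.trans ?_
    rw [show 4 * C * (1 + |a.im|) ^ 2 = C * (2 * (1 + |a.im|)) ^ 2 by ring]
    gcongr
    linarith

lemma poly_exp (y : ℝ) : (1 + |y|) ^ 5 * Real.exp (-(y ^ 2 / 2)) ≤ 120 * Real.exp 2 := by
  have h := Real.pow_div_factorial_le_exp (1 + |y|) (by positivity) 5
  rw [div_le_iff₀ (by positivity)] at h
  have h5 : ((Nat.factorial 5 : ℕ) : ℝ) = 120 := by norm_num [Nat.factorial]
  rw [h5] at h
  calc (1 + |y|) ^ 5 * Real.exp (-(y ^ 2 / 2))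
      ≤ (Real.exp (1 + |y|) * 120) * Real.exp (-(y ^ 2 / 2)) := by gcongr
    _ = 120 * Real.exp (1 + |y| + -(y ^ 2 / 2)) := by rw [Real.exp_add (1 + |y|)]; ring
    _ ≤ 120 * Real.exp 2 := by
        gcongr
        nlinarith [sq_nonneg (|y| - 1), sq_abs y]

lemma norm_exp_sq (a : ℂ) : ‖cexp (a ^ 2)‖ = Real.exp (a.re ^ 2 - a.im ^ 2) := by
  rw [norm_exp]
  congr 1
  simp [sq]

/-- data of the three lines argument -/
structure Data (C T X : ℝ) (F R : ℂ → ℂ) : Prop where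
  C0 : 0 < C
  T1 : 3 ≤ T
  X1 : 1 ≤ X
  XT : X ≤ T
  Xlow : X ^ (-(6 / 100) : ℝ) ≤ T ^ (-(56 / 1000) : ℝ)
  tail : T ^ 6 ≤ Real.exp (T ^ (1 / 50 : ℝ) / 2)
  zeta : ∀ s : ℂ, 1 / 8 ≤ s.re → s.re ≤ 10 → ‖riemannZeta₁ s‖ ≤ C * (1 + |s.im|) ^ 2
  Fd : DifferentiableOn ℂ F {a : ℂ | |a.re| < 1 / 4}
  Rd : Differentiable ℂ R
  Rb : ∀ a : ℂ, |a.re| ≤ 1 / 8 → ‖R a‖ ≤ T ^ (2 / 1000 : ℝ)
  Fb : ∀ a : ℂ, |a.re| ≤ 1 / 8 → ‖F a‖ ≤ C * T ^ (2 / 1000 : ℝ) * T ^ 4 * (1 + |a.im|) ^ 4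
  right : ∀ a : ℂ, a.re = 3 / 100 → |a.im| ≤ T ^ (1 / 100 : ℝ) →
    ‖F a - riemannZeta (1 + 2 * a) * R a‖ ≤ T ^ (-(36 / 1000) : ℝ)
  left : ∀ a : ℂ, a.re = -(3 / 100) → |a.im| ≤ T ^ (1 / 100 : ℝ) →
    ‖F a - (X : ℂ) ^ (-(2 * a)) * F (-a)‖ ≤ (1 + |a.im|) ^ 2 * T ^ (22 / 1000 : ℝ)

variable {C T X : ℝ} {F R : ℂ → ℂ}

lemma norm_le_one_add {a : ℂ} (ha : |a.re| ≤ 1 / 8) : ‖a‖ ≤ 1 + |a.im| := by
  have := Complex.norm_le_abs_re_add_abs_im a
  linarith

lemma Data.growth (D : Data C T X F R) {a : ℂ} (ha : |a.re| ≤ 1 / 8) :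
    ‖a * F a - HM X R a‖ ≤ 5 * C * T ^ 5 * (1 + |a.im|) ^ 5 := by
  have hT0 : 0 < T := by linarith [D.T1]
  have hT1 : 1 ≤ T := by linarith [D.T1]
  have hX0 : 0 < X := by linarith [D.X1]
  have hC0 := D.C0
  have him : 0 ≤ |a.im| := abs_nonneg _
  have h1 := norm_le_one_add ha
  have h2 := D.Fb a ha
  obtain ⟨h3, h4⟩ := zeta1_le D.zeta D.C0 ha
  have h5 := D.Rb a ha
  have h6 := D.Rb (-a) (by simpa using ha)
  have e1 : T ^ (2 / 1000 : ℝ) ≤ T := by
    nth_rewrite 2 [← Real.rpow_one T]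
    exact Real.rpow_le_rpow_of_exponent_le hT1 (by norm_num)
  have e1' : 0 < T ^ (2 / 1000 : ℝ) := Real.rpow_pos_of_pos hT0 _
  have hab := abs_le.mp ha
  have e2 : X ^ (-(2 * a.re)) ≤ T := by
    calc X ^ (-(2 * a.re)) ≤ X ^ (1 : ℝ) :=
          Real.rpow_le_rpow_of_exponent_le D.X1 (by linarith)
      _ = X := Real.rpow_one X
      _ ≤ T := D.XT
  have e2' : 0 < X ^ (-(2 * a.re)) := Real.rpow_pos_of_pos hX0 _
  have f1 : ‖a * F a‖ ≤ C * T ^ 5 * (1 + |a.im|) ^ 5 := by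
    rw [norm_mul]
    calc ‖a‖ * ‖F a‖ ≤ (1 + |a.im|) * (C * T * T ^ 4 * (1 + |a.im|) ^ 4) := by
          gcongr
          exact h2.trans (by gcongr)
      _ = _ := by ring
  have f2 : ‖HM X R a‖ ≤ 4 * C * T ^ 5 * (1 + |a.im|) ^ 5 := by
    rw [HM, norm_mul]
    have g1 : ‖riemannZeta₁ (1 + 2 * a) * R a‖ ≤ 4 * C * (1 + |a.im|) ^ 2 * T := by
      rw [norm_mul]
      gcongr
      exact h5.trans e1
    have g2 : ‖(X : ℂ) ^ (-(2 * a)) * (riemannZeta₁ (1 - 2 * a) * R (-a))‖ ≤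
        T * (4 * C * (1 + |a.im|) ^ 2 * T) := by
      rw [norm_mul, norm_mul, norm_X_cpow hX0]
      gcongr
      exact h6.trans e1
    have g3 := norm_sub_le (riemannZeta₁ (1 + 2 * a) * R a)
      ((X : ℂ) ^ (-(2 * a)) * (riemannZeta₁ (1 - 2 * a) * R (-a)))
    have g4 : ‖(1 / 2 : ℂ)‖ = 1 / 2 := by norm_num
    rw [g4]
    have g5 : 1 ≤ 1 + |a.im| := by linarith
    calc 1 / 2 * ‖riemannZeta₁ (1 + 2 * a) * R a -
          (X : ℂ) ^ (-(2 * a)) * (riemannZeta₁ (1 - 2 * a) * R (-a))‖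
        ≤ 1 / 2 * (4 * C * (1 + |a.im|) ^ 2 * T + T * (4 * C * (1 + |a.im|) ^ 2 * T)) := by
          gcongr
          exact g3.trans (by gcongr)
      _ = 2 * C * (T + T * T) * (1 + |a.im|) ^ 2 := by ring
      _ ≤ 2 * C * (T ^ 5 + T ^ 5) * (1 + |a.im|) ^ 5 := by
          have k1 : T ≤ T ^ 5 := by
            calc T = T ^ 1 := (pow_one T).symm
              _ ≤ T ^ 5 := pow_le_pow_right₀ hT1 (by norm_num)
          have k2 : T * T ≤ T ^ 5 := by
            calc T * T = T ^ 2 := by ring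
              _ ≤ T ^ 5 := pow_le_pow_right₀ hT1 (by norm_num)
          gcongr
          norm_num
      _ = _ := by ring
  calc ‖a * F a - HM X R a‖ ≤ ‖a * F a‖ + ‖HM X R a‖ := norm_sub_le _ _
    _ ≤ C * T ^ 5 * (1 + |a.im|) ^ 5 + 4 * C * T ^ 5 * (1 + |a.im|) ^ 5 := by gcongr
    _ = _ := by ring

lemma exp_split {a : ℂ} (ha : |a.re| ≤ 1 / 8) :
    ‖cexp (a ^ 2)‖ ≤ Real.exp 1 * Real.exp (-(a.im ^ 2 / 2)) * Real.exp (-(a.im ^ 2 / 2)) := by
  rw [norm_exp_sq, ← Real.exp_add, ← Real.exp_add]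
  apply Real.exp_le_exp.mpr
  have h1 : a.re ^ 2 ≤ (1 / 8) ^ 2 := by
    rw [← sq_abs]; gcongr
  linarith

/-- the constant -/
noncomputable def KK (C : ℝ) : ℝ := (2 + 5 * C) * (Real.exp 1 * (120 * Real.exp 2))

lemma KK_pos (hC : 0 < C) : 0 < KK C := by unfold KK; positivity

/-- polynomial bound times Gaussian -/
lemma poly_gauss {a : ℂ} (ha : |a.re| ≤ 1 / 8) {W : ℂ} {B : ℝ} (hB : 0 ≤ B)
    (hW : ‖W‖ ≤ B * (1 + |a.im|) ^ 5) :
    ‖W * cexp (a ^ 2)‖ ≤ B * (Real.exp 1 * (120 * Real.exp 2)) * Real.exp (-(a.im ^ 2 / 2)) := by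
  rw [norm_mul]
  calc ‖W‖ * ‖cexp (a ^ 2)‖ ≤ (B * (1 + |a.im|) ^ 5) *
        (Real.exp 1 * Real.exp (-(a.im ^ 2 / 2)) * Real.exp (-(a.im ^ 2 / 2))) := by
        gcongr
        exact exp_split ha
    _ = B * (Real.exp 1 * ((1 + |a.im|) ^ 5 * Real.exp (-(a.im ^ 2 / 2)))) *
        Real.exp (-(a.im ^ 2 / 2)) := by ring
    _ ≤ B * (Real.exp 1 * (120 * Real.exp 2)) * Real.exp (-(a.im ^ 2 / 2)) := by
        have := poly_exp a.im
        exact mul_le_mul_of_nonneg_right (mul_le_mul_of_nonneg_left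
          (mul_le_mul_of_nonneg_left this (Real.exp_nonneg _)) hB) (Real.exp_nonneg _)

lemma poly_gauss' {a : ℂ} (ha : |a.re| ≤ 1 / 8) {W : ℂ} {B : ℝ} (hB : 0 ≤ B)
    (hW : ‖W‖ ≤ B * (1 + |a.im|) ^ 5) :
    ‖W * cexp (a ^ 2)‖ ≤ B * (Real.exp 1 * (120 * Real.exp 2)) := by
  refine (poly_gauss ha hB hW).trans ?_
  apply mul_le_of_le_one_right (by positivity)
  apply Real.exp_le_one_iff.mpr
  have := sq_nonneg a.im
  linarith

lemma Data.far (D : Data C T X F R) {a : ℂ} (ha : |a.re| ≤ 1 / 8) (h : T ^ (1 / 100 : ℝ) ≤ |a.im|) :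
    ‖(a * F a - HM X R a) * cexp (a ^ 2)‖ ≤ KK C * T ^ (-1 : ℝ) := by
  have hT0 : 0 < T := by linarith [D.T1]
  have hC0 := D.C0
  refine (poly_gauss ha (B := 5 * C * T ^ 5) (by positivity) (D.growth ha)).trans ?_
  have h1 : T ^ (1 / 50 : ℝ) ≤ a.im ^ 2 := by
    rw [← sq_abs]
    calc T ^ (1 / 50 : ℝ) = (T ^ (1 / 100 : ℝ)) ^ 2 := by
          rw [← Real.rpow_natCast, ← Real.rpow_mul hT0.le]; norm_num
      _ ≤ |a.im| ^ 2 := by gcongr
  have h2 : Real.exp (-(a.im ^ 2 / 2)) ≤ (T ^ 6)⁻¹ := by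
    rw [Real.exp_neg]
    apply inv_anti₀ (by positivity)
    exact D.tail.trans (Real.exp_le_exp.mpr (by linarith))
  calc 5 * C * T ^ 5 * (Real.exp 1 * (120 * Real.exp 2)) * Real.exp (-(a.im ^ 2 / 2))
      ≤ 5 * C * T ^ 5 * (Real.exp 1 * (120 * Real.exp 2)) * (T ^ 6)⁻¹ := by gcongr
    _ = 5 * C * (Real.exp 1 * (120 * Real.exp 2)) * T ^ (-1 : ℝ) := by
        rw [Real.rpow_neg_one]; field_simp
    _ ≤ _ := by
        unfold KK
        gcongr
        linarith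

lemma Data.edge_right (D : Data C T X F R) {a : ℂ} (ha : a.re = 3 / 100) :
    ‖(a * F a - HM X R a) * cexp (a ^ 2)‖ ≤ KK C * T ^ (-(36 / 1000) : ℝ) := by
  have hT0 : 0 < T := by linarith [D.T1]
  have hT1 : 1 ≤ T := by linarith [D.T1]
  have hX0 : 0 < X := by linarith [D.X1]
  have hC0 := D.C0
  have ha8 : |a.re| ≤ 1 / 8 := by rw [ha, abs_of_pos] <;> norm_num
  have hK := KK_pos D.C0
  by_cases hy : |a.im| ≤ T ^ (1 / 100 : ℝ)
  swap
  · refine (D.far ha8 (not_le.mp hy).le).trans ?_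
    exact mul_le_mul_of_nonneg_left
      (Real.rpow_le_rpow_of_exponent_le hT1 (by norm_num)) hK.le
  have ha0 : a ≠ 0 := by
    rintro rfl; norm_num at ha
  have him : 0 ≤ |a.im| := abs_nonneg _
  obtain ⟨h3, h4⟩ := zeta1_le D.zeta D.C0 ha8
  have h6 := D.Rb (-a) (by simpa using ha8)
  have h1 := norm_le_one_add ha8
  have h2 := D.right a ha hy
  have e : a * F a - HM X R a = a * (F a - riemannZeta (1 + 2 * a) * R a) +
      1 / 2 * ((X : ℂ) ^ (-(2 * a)) * (riemannZeta₁ (1 - 2 * a) * R (-a))) := by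
    rw [HM]
    linear_combination (R a) * mul_zeta_plus ha0
  have hP : 0 < T ^ (-(36 / 1000) : ℝ) := Real.rpow_pos_of_pos hT0 _
  have f1 : ‖a * F a - HM X R a‖ ≤ ((1 + 2 * C) * T ^ (-(36 / 1000) : ℝ)) * (1 + |a.im|) ^ 5 := by
    rw [e]
    have g1 : ‖a * (F a - riemannZeta (1 + 2 * a) * R a)‖ ≤
        (1 + |a.im|) ^ 5 * T ^ (-(36 / 1000) : ℝ) := by
      rw [norm_mul]
      gcongr
      calc ‖a‖ ≤ (1 + |a.im|) ^ 1 := by rw [pow_one]; exact h1
        _ ≤ (1 + |a.im|) ^ 5 := pow_le_pow_right₀ (by linarith) (by norm_num)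
    have g2 : ‖1 / 2 * ((X : ℂ) ^ (-(2 * a)) * (riemannZeta₁ (1 - 2 * a) * R (-a)))‖ ≤
        2 * C * T ^ (-(36 / 1000) : ℝ) * (1 + |a.im|) ^ 5 := by
      rw [norm_mul, norm_mul, norm_mul, norm_X_cpow hX0, ha]
      have g4 : ‖(1 / 2 : ℂ)‖ = 1 / 2 := by norm_num
      rw [g4]
      have g5 : X ^ (-(2 * (3 / 100)) : ℝ) ≤ T ^ (-(56 / 1000) : ℝ) := by
        have := D.Xlow
        norm_num at this ⊢
        exact this
      have g6 : T ^ (-(56 / 1000) : ℝ) * T ^ (2 / 1000 : ℝ) ≤ T ^ (-(36 / 1000) : ℝ) := by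
        rw [← Real.rpow_add hT0]
        exact Real.rpow_le_rpow_of_exponent_le hT1 (by norm_num)
      calc 1 / 2 * (X ^ (-(2 * (3 / 100)) : ℝ) * (‖riemannZeta₁ (1 - 2 * a)‖ * ‖R (-a)‖))
          ≤ 1 / 2 * (T ^ (-(56 / 1000) : ℝ) * ((4 * C * (1 + |a.im|) ^ 2) * T ^ (2 / 1000 : ℝ))) := by
            gcongr
        _ = 2 * C * (T ^ (-(56 / 1000) : ℝ) * T ^ (2 / 1000 : ℝ)) * (1 + |a.im|) ^ 2 := by ring
        _ ≤ 2 * C * T ^ (-(36 / 1000) : ℝ) * (1 + |a.im|) ^ 5 := by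
            gcongr
            · linarith
            · norm_num
    calc _ ≤ _ := norm_add_le _ _
      _ ≤ _ := add_le_add g1 g2
      _ = _ := by ring
  refine (poly_gauss' ha8 (by positivity) f1).trans ?_
  unfold KK
  calc (1 + 2 * C) * T ^ (-(36 / 1000) : ℝ) * (Real.exp 1 * (120 * Real.exp 2))
      = (1 + 2 * C) * (Real.exp 1 * (120 * Real.exp 2)) * T ^ (-(36 / 1000) : ℝ) := by ring
    _ ≤ _ := by
        gcongr
        · norm_num
        · norm_num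

lemma Data.edge_left (D : Data C T X F R) {a : ℂ} (ha : a.re = -(3 / 100)) :
    ‖(a * F a - HM X R a) * cexp (a ^ 2)‖ ≤ KK C * T ^ (24 / 1000 : ℝ) := by
  have hT0 : 0 < T := by linarith [D.T1]
  have hT1 : 1 ≤ T := by linarith [D.T1]
  have hX0 : 0 < X := by linarith [D.X1]
  have hC0 := D.C0
  have ha8 : |a.re| ≤ 1 / 8 := by rw [ha, abs_neg, abs_of_pos] <;> norm_num
  have hK := KK_pos D.C0
  by_cases hy : |a.im| ≤ T ^ (1 / 100 : ℝ)
  swap
  · refine (D.far ha8 (not_le.mp hy).le).trans ?_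
    exact mul_le_mul_of_nonneg_left
      (Real.rpow_le_rpow_of_exponent_le hT1 (by norm_num)) hK.le
  have ha0 : a ≠ 0 := by
    rintro rfl; norm_num at ha
  have him : 0 ≤ |a.im| := abs_nonneg _
  obtain ⟨h3, h4⟩ := zeta1_le D.zeta D.C0 ha8
  have h6 := D.Rb a ha8
  have h1 := norm_le_one_add ha8
  have h2 := D.left a ha hy
  have h7 := D.right (-a) (by simp [ha]) (by simpa using hy)
  have e : a * F a - HM X R a = a * (F a - (X : ℂ) ^ (-(2 * a)) * F (-a)) +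
      a * ((X : ℂ) ^ (-(2 * a)) * (F (-a) - riemannZeta (1 + 2 * -a) * R (-a))) -
      1 / 2 * (riemannZeta₁ (1 + 2 * a) * R a) := by
    have k : (1 + 2 * -a) = 1 - 2 * a := by ring
    rw [HM, k]
    linear_combination ((X : ℂ) ^ (-(2 * a)) * R (-a)) * mul_zeta_minus ha0
  have hP : 0 < T ^ (24 / 1000 : ℝ) := Real.rpow_pos_of_pos hT0 _
  have hone : ‖a‖ ≤ (1 + |a.im|) ^ 5 := by
    calc ‖a‖ ≤ (1 + |a.im|) ^ 1 := by rw [pow_one]; exact h1
        _ ≤ (1 + |a.im|) ^ 5 := pow_le_pow_right₀ (by linarith) (by norm_num)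
  have f1 : ‖a * F a - HM X R a‖ ≤ ((2 + 2 * C) * T ^ (24 / 1000 : ℝ)) * (1 + |a.im|) ^ 5 := by
    rw [e]
    have g1 : ‖a * (F a - (X : ℂ) ^ (-(2 * a)) * F (-a))‖ ≤
        (1 + |a.im|) ^ 5 * T ^ (24 / 1000 : ℝ) := by
      rw [norm_mul]
      calc ‖a‖ * ‖F a - (X : ℂ) ^ (-(2 * a)) * F (-a)‖
          ≤ (1 + |a.im|) * ((1 + |a.im|) ^ 2 * T ^ (22 / 1000 : ℝ)) := by gcongr
        _ = (1 + |a.im|) ^ 3 * T ^ (22 / 1000 : ℝ) := by ring
        _ ≤ _ := by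
          have k1 : T ^ (22 / 1000 : ℝ) ≤ T ^ (24 / 1000 : ℝ) :=
            Real.rpow_le_rpow_of_exponent_le hT1 (by norm_num)
          gcongr
          · linarith
          · norm_num
    have g3 : ‖a * ((X : ℂ) ^ (-(2 * a)) * (F (-a) - riemannZeta (1 + 2 * -a) * R (-a)))‖ ≤
        (1 + |a.im|) ^ 5 * T ^ (24 / 1000 : ℝ) := by
      rw [norm_mul, norm_mul, norm_X_cpow hX0, ha]
      have g5 : X ^ (-(2 * -(3 / 100)) : ℝ) ≤ T ^ (6 / 100 : ℝ) := by
        have k : (-(2 * -(3 / 100)) : ℝ) = 6 / 100 := by norm_num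
        rw [k]
        exact Real.rpow_le_rpow hX0.le D.XT (by norm_num)
      have g6 : T ^ (6 / 100 : ℝ) * T ^ (-(36 / 1000) : ℝ) = T ^ (24 / 1000 : ℝ) := by
        rw [← Real.rpow_add hT0]; norm_num
      rw [← g6]
      gcongr
    have g2 : ‖1 / 2 * (riemannZeta₁ (1 + 2 * a) * R a)‖ ≤
        2 * C * T ^ (24 / 1000 : ℝ) * (1 + |a.im|) ^ 5 := by
      rw [norm_mul, norm_mul]
      have g4 : ‖(1 / 2 : ℂ)‖ = 1 / 2 := by norm_num
      rw [g4]
      have g6 : T ^ (2 / 1000 : ℝ) ≤ T ^ (24 / 1000 : ℝ) :=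
        Real.rpow_le_rpow_of_exponent_le hT1 (by norm_num)
      calc 1 / 2 * (‖riemannZeta₁ (1 + 2 * a)‖ * ‖R a‖)
          ≤ 1 / 2 * ((4 * C * (1 + |a.im|) ^ 2) * T ^ (24 / 1000 : ℝ)) := by
            gcongr
            exact h6.trans g6
        _ = 2 * C * T ^ (24 / 1000 : ℝ) * (1 + |a.im|) ^ 2 := by ring
        _ ≤ _ := by
            gcongr
            · linarith
            · norm_num
    calc _ ≤ _ := norm_sub_le _ _
      _ ≤ _ := add_le_add ((norm_add_le _ _).trans (add_le_add g1 g3)) g2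
      _ = _ := by ring
  refine (poly_gauss' ha8 (by positivity) f1).trans ?_
  unfold KK
  calc (2 + 2 * C) * T ^ (24 / 1000 : ℝ) * (Real.exp 1 * (120 * Real.exp 2))
      = (2 + 2 * C) * (Real.exp 1 * (120 * Real.exp 2)) * T ^ (24 / 1000 : ℝ) := by ring
    _ ≤ _ := by
        gcongr
        norm_num

lemma Data.strip (D : Data C T X F R) {a : ℂ} (h1 : -(3 / 100) ≤ a.re) (h2 : a.re ≤ 3 / 100) :
    ‖(a * F a - HM X R a) * cexp (a ^ 2)‖ * T ^ (a.re + 6 / 1000 : ℝ) ≤ KK C := by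
  have hT0 : 0 < T := by linarith [D.T1]
  have hT1 : 1 ≤ T := by linarith [D.T1]
  have hX0 : 0 < X := by linarith [D.X1]
  have hC0 := D.C0
  have hK := KK_pos D.C0
  have hTc : (T : ℂ) ≠ 0 := by exact_mod_cast hT0.ne'
  have key : ∀ z : ℂ, ‖(T : ℂ) ^ (z + 6 / 1000)‖ = T ^ (z.re + 6 / 1000 : ℝ) := by
    intro z
    rw [norm_cpow_eq_rpow_re_of_pos hT0]
    congr 1
    have : ((6 : ℂ) / 1000) = ((6 / 1000 : ℝ) : ℂ) := by push_cast; rfl
    rw [this, add_re, ofReal_re]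
  have g : ‖(fun a : ℂ => (a * F a - HM X R a) * cexp (a ^ 2) * (T : ℂ) ^ (a + 6 / 1000)) a‖ ≤
      KK C := by
    refine PhragmenLindelof.vertical_strip (a := -(3 / 100)) (b := 3 / 100) (z := a)
      (f := fun a : ℂ => (a * F a - HM X R a) * cexp (a ^ 2) * (T : ℂ) ^ (a + 6 / 1000))
      ?_ ?_ ?_ ?_ h1 h2
    · apply DifferentiableOn.diffContOnCl
      have hsub : closure (re ⁻¹' Set.Ioo (-(3 / 100) : ℝ) (3 / 100)) ⊆ {a : ℂ | |a.re| < 1 / 4} := by
        refine (closure_minimal (Set.preimage_mono Set.Ioo_subset_Icc_self)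
          (isClosed_Icc.preimage continuous_re)).trans ?_
        intro z hz
        have hz' : -(3 / 100) ≤ z.re ∧ z.re ≤ 3 / 100 := hz
        show |z.re| < 1 / 4
        rw [abs_lt]
        constructor <;> linarith [hz'.1, hz'.2]
      have d1 : DifferentiableOn ℂ (fun a : ℂ => a * F a - HM X R a)
          (closure (re ⁻¹' Set.Ioo (-(3 / 100) : ℝ) (3 / 100))) :=
        (differentiableOn_id.mul (D.Fd.mono hsub)).sub (HM_diff hX0 D.Rd).differentiableOn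
      have d2 : Differentiable ℂ (fun a : ℂ => cexp (a ^ 2)) := by fun_prop
      have d3 : Differentiable ℂ (fun a : ℂ => (T : ℂ) ^ (a + 6 / 1000)) := by
        intro z
        exact DifferentiableAt.const_cpow (by fun_prop) (Or.inl hTc)
      exact (d1.mul d2.differentiableOn).mul d3.differentiableOn
    · refine ⟨0, by positivity, 0, ?_⟩
      apply Asymptotics.IsBigO.of_bound (5 * C * T ^ 5 * (Real.exp 1 * (120 * Real.exp 2)) * T)
      rw [eventually_inf_principal]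
      refine Filter.Eventually.of_forall fun z hz => ?_
      have hz' : -(3 / 100) < z.re ∧ z.re < 3 / 100 := hz
      have hz8 : |z.re| ≤ 1 / 8 := by
        rw [abs_le]
        constructor <;> linarith [hz'.1, hz'.2]
      simp only [zero_mul, Real.exp_zero, norm_one, mul_one]
      rw [norm_mul _ ((T : ℂ) ^ (z + 6 / 1000)), key]
      have k1 := poly_gauss' hz8 (B := 5 * C * T ^ 5) (by positivity) (D.growth hz8)
      have k2 : T ^ (z.re + 6 / 1000 : ℝ) ≤ T := by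
        nth_rewrite 2 [← Real.rpow_one T]
        exact Real.rpow_le_rpow_of_exponent_le hT1 (by linarith [hz'.2])
      exact mul_le_mul k1 k2 (Real.rpow_nonneg hT0.le _) (by positivity)
    · intro z hz
      rw [norm_mul _ ((T : ℂ) ^ (z + 6 / 1000)), key, hz]
      calc _ ≤ KK C * T ^ (24 / 1000 : ℝ) * T ^ (-(3 / 100) + 6 / 1000 : ℝ) := by
            gcongr
            exact D.edge_left hz
        _ = KK C := by
            rw [mul_assoc, ← Real.rpow_add hT0]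
            norm_num
    · intro z hz
      rw [norm_mul _ ((T : ℂ) ^ (z + 6 / 1000)), key, hz]
      calc _ ≤ KK C * T ^ (-(36 / 1000) : ℝ) * T ^ (3 / 100 + 6 / 1000 : ℝ) := by
            gcongr
            exact D.edge_right hz
        _ = KK C := by
            rw [mul_assoc, ← Real.rpow_add hT0]
            norm_num
  simp only at g
  rwa [norm_mul _ ((T : ℂ) ^ (a + 6 / 1000)), key] at g

lemma norm_circleAverage_le {f : ℂ → ℂ} {r B : ℝ} (hr : 0 < r)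
    (h : ∀ z : ℂ, ‖z‖ = r → ‖f z‖ ≤ B) : ‖Real.circleAverage f 0 r‖ ≤ B := by
  rw [Real.circleAverage_def, norm_smul]
  have h1 := intervalIntegral.norm_integral_le_of_norm_le_const (a := 0) (b := 2 * Real.pi)
    (f := fun θ => f (circleMap 0 r θ)) (C := B) (fun θ _ => h _ (by simp [abs_of_pos hr]))
  have hpi := Real.pi_pos
  rw [sub_zero, abs_of_pos (by positivity)] at h1
  rw [norm_inv, Real.norm_eq_abs, abs_of_pos (by positivity)]
  calc (2 * Real.pi)⁻¹ * ‖∫ θ in (0 : ℝ)..2 * Real.pi, f (circleMap 0 r θ)‖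
      ≤ (2 * Real.pi)⁻¹ * (B * (2 * Real.pi)) := by gcongr
    _ = B := by field_simp

/-- the main term -/
noncomputable def MT (X : ℝ) (R : ℂ → ℂ) (a : ℂ) : ℂ :=
  riemannZeta (1 + 2 * a) * R a + (X : ℂ) ^ (-(2 * a)) * (riemannZeta (1 - 2 * a) * R (-a))

lemma Data.final (D : Data C T X F R) (hL : 34 ≤ Real.log T)
    (hfin : KK C * Real.exp 2 * Real.log T ≤ T ^ (5 / 1000 : ℝ)) :
    ‖F 0 - Real.circleAverage (MT X R) 0 (1 / Real.log T)‖ ≤ T ^ (-(1 / 1000) : ℝ) := by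
  have hT0 : 0 < T := by linarith [D.T1]
  have hT1 : 1 ≤ T := by linarith [D.T1]
  have hX0 : 0 < X := by linarith [D.X1]
  have hC0 := D.C0
  have hK := KK_pos D.C0
  have hL0 : 0 < Real.log T := by linarith
  set r : ℝ := 1 / Real.log T with hr
  have hr0 : 0 < r := by positivity
  have hr1 : r ≤ 3 / 100 := by
    rw [hr, div_le_iff₀ hL0]; linarith
  have hTr : T ^ r = Real.exp 1 := by
    rw [Real.rpow_def_of_pos hT0, hr]
    congr 1
    field_simp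
  have hsub : Metric.closedBall (0 : ℂ) r ⊆ {a : ℂ | |a.re| < 1 / 4} := by
    intro z hz
    rw [mem_closedBall_zero_iff] at hz
    show |z.re| < 1 / 4
    have := Complex.abs_re_le_norm z
    linarith
  have hFc : ContinuousOn F (Metric.sphere (0 : ℂ) |r|) := by
    rw [abs_of_pos hr0]
    exact (D.Fd.mono (Metric.sphere_subset_closedBall.trans hsub)).continuousOn
  have hFi : CircleIntegrable F 0 r := hFc.circleIntegrable'
  have hmean : Real.circleAverage F 0 r = F 0 := by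
    apply DiffContOnCl.circleAverage
    rw [abs_of_pos hr0]
    apply DifferentiableOn.diffContOnCl
    exact D.Fd.mono (Metric.closure_ball_subset_closedBall.trans hsub)
  have hsph : ∀ z : ℂ, z ∈ Metric.sphere (0 : ℂ) |r| → z ≠ 0 := by
    intro z hz h0
    rw [h0, abs_of_pos hr0] at hz
    simp at hz
    linarith
  have heq : Set.EqOn (MT X R) (fun a => HM X R a / a) (Metric.sphere (0 : ℂ) |r|) := by
    intro z hz
    have hz0 := hsph z hz
    simp only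
    rw [HM_eq X R hz0, MT]
    field_simp
  have hMi : CircleIntegrable (fun a => HM X R a / a) 0 r := by
    apply ContinuousOn.circleIntegrable'
    refine ContinuousOn.div (HM_diff hX0 D.Rd).continuous.continuousOn continuousOn_id ?_
    intro z hz
    exact hsph z hz
  rw [Real.circleAverage_congr_sphere heq, ← hmean, ← Real.circleAverage_fun_sub hFi hMi]
  refine norm_circleAverage_le hr0 fun z hz => ?_
  have hz0 : z ≠ 0 := by
    rintro rfl; simp at hz; linarith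
  have hzre : |z.re| ≤ r := (Complex.abs_re_le_norm z).trans hz.le
  have hab := abs_le.mp hzre
  have h1 := D.strip (a := z) (by linarith) (by linarith)
  have h2 : Real.exp (-1) ≤ ‖cexp (z ^ 2)‖ := by
    rw [norm_exp_sq]
    apply Real.exp_le_exp.mpr
    have e1 : z.re ^ 2 + z.im ^ 2 = r ^ 2 := by
      rw [← hz, ← Complex.normSq_eq_norm_sq, Complex.normSq_apply]; ring
    nlinarith [sq_nonneg z.re]
  have h3 : T ^ (6 / 1000 : ℝ) * Real.exp (-1) ≤ T ^ (z.re + 6 / 1000 : ℝ) := by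
    rw [Real.rpow_add hT0, mul_comm]
    have : Real.exp (-1) ≤ T ^ z.re := by
      rw [Real.exp_neg, ← hTr, ← Real.rpow_neg hT0.le]
      exact Real.rpow_le_rpow_of_exponent_le hT1 hab.1
    gcongr
  have h4 : ‖F z - HM X R z / z‖ = Real.log T * ‖z * F z - HM X R z‖ := by
    have : F z - HM X R z / z = (z * F z - HM X R z) / z := by field_simp
    rw [this, norm_div, hz, hr]
    field_simp
  rw [h4]
  have h5 : ‖z * F z - HM X R z‖ * (Real.exp (-1) * (T ^ (6 / 1000 : ℝ) * Real.exp (-1))) ≤ KK C := by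
    refine le_trans ?_ h1
    rw [norm_mul, mul_assoc]
    gcongr
  have h6 : 0 < T ^ (6 / 1000 : ℝ) := Real.rpow_pos_of_pos hT0 _
  have h7 : ‖z * F z - HM X R z‖ ≤ KK C * Real.exp 2 * T ^ (-(6 / 1000) : ℝ) := by
    have e3 : Real.exp (-1) * Real.exp (-1) * Real.exp 2 = 1 := by
      rw [← Real.exp_add, ← Real.exp_add]; norm_num
    have e4 : T ^ (6 / 1000 : ℝ) * T ^ (-(6 / 1000) : ℝ) = 1 := by
      rw [← Real.rpow_add hT0]; norm_num
    have h8 : 0 ≤ Real.exp 2 * T ^ (-(6 / 1000) : ℝ) :=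
      mul_nonneg (Real.exp_nonneg _) (Real.rpow_nonneg hT0.le _)
    calc ‖z * F z - HM X R z‖
        = ‖z * F z - HM X R z‖ * (Real.exp (-1) * (T ^ (6 / 1000 : ℝ) * Real.exp (-1))) *
          (Real.exp 2 * T ^ (-(6 / 1000) : ℝ)) := by
          linear_combination (-‖z * F z - HM X R z‖ * (T ^ (6 / 1000 : ℝ) * T ^ (-(6 / 1000) : ℝ))) * e3 -
            ‖z * F z - HM X R z‖ * e4
      _ ≤ KK C * (Real.exp 2 * T ^ (-(6 / 1000) : ℝ)) := by gcongr
      _ = _ := by ring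
  calc Real.log T * ‖z * F z - HM X R z‖
      ≤ Real.log T * (KK C * Real.exp 2 * T ^ (-(6 / 1000) : ℝ)) := by gcongr
    _ = (KK C * Real.exp 2 * Real.log T) * T ^ (-(6 / 1000) : ℝ) := by ring
    _ ≤ T ^ (5 / 1000 : ℝ) * T ^ (-(6 / 1000) : ℝ) := by
        gcongr
    _ = T ^ (-(1 / 1000) : ℝ) := by
        rw [← Real.rpow_add hT0]; norm_num

/-- the arithmetic factor as an entire function -/
noncomputable def RF (N : ℕ) (c : ℕ → ℂ) (a : ℂ) : ℂ :=
  ∑ m ∈ Finset.Icc 1 N, ∑ n ∈ Finset.Icc 1 N, c m * (starRingEnd ℂ) (c n) *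
    (m : ℂ) ^ (-(1 / 2 : ℂ)) * (n : ℂ) ^ (-(1 / 2 : ℂ)) *
    ((n / m.gcd n : ℕ) : ℂ) ^ (-(1 / 2 + a)) * ((m / m.gcd n : ℕ) : ℂ) ^ (-(1 / 2 + a))

lemma RF_diff (N : ℕ) (c : ℕ → ℂ) : Differentiable ℂ (RF N c) := by
  unfold RF
  refine Differentiable.fun_sum fun m hm => Differentiable.fun_sum fun n hn => ?_
  rw [Finset.mem_Icc] at hm hn
  have h1 : (((n / m.gcd n : ℕ) : ℕ) : ℂ) ≠ 0 := by
    have := Nat.div_pos (Nat.gcd_le_right m (by omega : 0 < n)) (Nat.gcd_pos_of_pos_left n (by omega : 0 < m))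
    exact_mod_cast this.ne'
  have h2 : (((m / m.gcd n : ℕ) : ℕ) : ℂ) ≠ 0 := by
    have := Nat.div_pos (Nat.gcd_le_left n (by omega : 0 < m)) (Nat.gcd_pos_of_pos_left n (by omega : 0 < m))
    exact_mod_cast this.ne'
  intro a
  refine DifferentiableAt.mul (DifferentiableAt.mul (by fun_prop) ?_) ?_
  · exact DifferentiableAt.const_cpow (by fun_prop) (Or.inl h1)
  · exact DifferentiableAt.const_cpow (by fun_prop) (Or.inl h2)

lemma RF_bound (N : ℕ) (c : ℕ → ℂ) {B : ℝ} (hc : ∑ n ∈ Finset.Icc 1 N, ‖c n‖ ≤ B) {a : ℂ}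
    (ha : |a.re| ≤ 1 / 8) : ‖RF N c a‖ ≤ B ^ 2 := by
  have hab := abs_le.mp ha
  have h0 : 0 ≤ ∑ n ∈ Finset.Icc 1 N, ‖c n‖ := Finset.sum_nonneg fun _ _ => norm_nonneg _
  calc ‖RF N c a‖ ≤ ∑ m ∈ Finset.Icc 1 N, ∑ n ∈ Finset.Icc 1 N, ‖c m‖ * ‖c n‖ := by
        unfold RF
        refine (norm_sum_le _ _).trans (Finset.sum_le_sum fun m hm => ?_)
        refine (norm_sum_le _ _).trans (Finset.sum_le_sum fun n hn => ?_)
        rw [Finset.mem_Icc] at hm hn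
        have h1 : 1 ≤ n / m.gcd n :=
          Nat.div_pos (Nat.gcd_le_right m (by omega : 0 < n)) (Nat.gcd_pos_of_pos_left n (by omega : 0 < m))
        have h2 : 1 ≤ m / m.gcd n :=
          Nat.div_pos (Nat.gcd_le_left n (by omega : 0 < m)) (Nat.gcd_pos_of_pos_left n (by omega : 0 < m))
        have hw : (0 : ℝ) ≤ (1 / 2 + a : ℂ).re := by
          simp; linarith
        have hw2 : (0 : ℝ) ≤ (1 / 2 : ℂ).re := by norm_num
        have e1 := norm_natCast_cpow_neg_le_one hw h1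
        have e2 := norm_natCast_cpow_neg_le_one hw h2
        have e3 := norm_natCast_cpow_neg_le_one hw2 hm.1
        have e4 := norm_natCast_cpow_neg_le_one hw2 hn.1
        rw [norm_mul, norm_mul, norm_mul, norm_mul, norm_mul, RCLike.norm_conj]
        calc ‖c m‖ * ‖c n‖ * ‖(m : ℂ) ^ (-(1 / 2 : ℂ))‖ * ‖(n : ℂ) ^ (-(1 / 2 : ℂ))‖ *
            ‖((n / m.gcd n : ℕ) : ℂ) ^ (-(1 / 2 + a))‖ * ‖((m / m.gcd n : ℕ) : ℂ) ^ (-(1 / 2 + a))‖
            ≤ ‖c m‖ * ‖c n‖ * 1 * 1 * 1 * 1 := by gcongr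
          _ = _ := by ring
    _ = (∑ n ∈ Finset.Icc 1 N, ‖c n‖) * (∑ n ∈ Finset.Icc 1 N, ‖c n‖) := by
        rw [Finset.sum_mul_sum]
    _ ≤ B ^ 2 := by rw [sq]; exact mul_le_mul hc hc h0 (h0.trans hc)

lemma ev_tail : ∀ᶠ T : ℝ in atTop, T ^ 6 ≤ Real.exp (T ^ (1 / 50 : ℝ) / 2) := by
  have h1 : Tendsto (fun T : ℝ => T ^ (1 / 50 : ℝ) / 2) atTop atTop :=
    (tendsto_rpow_atTop (by norm_num)).atTop_div_const (by norm_num)
  have h2 : ∀ᶠ u : ℝ in atTop, 2 ^ 300 * u ^ 300 ≤ Real.exp u := by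
    have := (Real.isLittleO_pow_exp_atTop (n := 300)).def (c := (2 ^ 300)⁻¹) (by positivity)
    filter_upwards [this, eventually_ge_atTop 0] with u hu hu0
    rw [Real.norm_eq_abs, Real.norm_eq_abs, abs_of_nonneg (by positivity),
      abs_of_pos (Real.exp_pos _)] at hu
    have h3 := mul_le_mul_of_nonneg_left hu (show (0 : ℝ) ≤ 2 ^ 300 by positivity)
    rwa [← mul_assoc, mul_inv_cancel₀ (by positivity), one_mul] at h3
  filter_upwards [h1.eventually h2, eventually_ge_atTop 0] with T hT hT0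
  refine le_trans (le_of_eq ?_) hT
  rw [div_pow, mul_div_cancel₀ _ (by positivity), ← Real.rpow_natCast (T ^ (1 / 50 : ℝ)),
    ← Real.rpow_mul hT0, ← Real.rpow_natCast T]
  norm_num

lemma ev_log (K : ℝ) {e : ℝ} (he : 0 < e) : ∀ᶠ T : ℝ in atTop, K * Real.log T ≤ T ^ e := by
  have h := (isLittleO_log_rpow_atTop he).def (c := (|K| + 1)⁻¹) (by positivity)
  filter_upwards [h, eventually_ge_atTop 1] with T hT hT1
  have hT0 : 0 < T := by linarith
  rw [Real.norm_eq_abs, Real.norm_eq_abs, abs_of_nonneg (Real.log_nonneg hT1),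
    abs_of_pos (Real.rpow_pos_of_pos hT0 _)] at hT
  have h3 := mul_le_mul_of_nonneg_left hT (show (0 : ℝ) ≤ |K| + 1 by positivity)
  rw [← mul_assoc, mul_inv_cancel₀ (by positivity), one_mul] at h3
  refine le_trans ?_ h3
  have := Real.log_nonneg hT1
  gcongr
  linarith [le_abs_self K]

end ThreeLines

open ThreeLines in
/-- The twisted second moment on the critical line. -/
theorem stExact (h5 : StFin) (h6 : StRight) (h7 : StLeft) (h8 : StStrip) : StExact := by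
  obtain ⟨C₁, hC₁, hz⟩ := zeta_growth
  obtain ⟨h8a, C₂, hC₂, h8b⟩ := h8
  obtain ⟨T₆, hT₆, h6⟩ := h6
  obtain ⟨T₇, hT₇, h7⟩ := h7
  set C : ℝ := C₁ + C₂ with hC
  have hC0 : 0 < C := by positivity
  obtain ⟨T₁, hT₁⟩ := eventually_atTop.mp (ev_tail.and ((ev_log (2 * Real.pi) (e := 1 / 15) (by norm_num)).and
    ((ev_log (ThreeLines.KK C * Real.exp 2) (e := 5 / 1000) (by norm_num)).and
    (Real.tendsto_log_atTop.eventually_ge_atTop 34))))
  refine ⟨max (max T₆ T₇) (max T₁ 3), le_max_of_le_right (le_max_right _ _),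
    fun T hT M τ hτ1 hτ2 G hG => ?_⟩
  have hTT6 : T₆ ≤ T := (le_max_left _ _).trans ((le_max_left _ _).trans hT)
  have hTT7 : T₇ ≤ T := (le_max_right _ _).trans ((le_max_left _ _).trans hT)
  have hTT1 : T₁ ≤ T := (le_max_left _ _).trans ((le_max_right _ _).trans hT)
  have hT3 : 3 ≤ T := (le_max_right _ _).trans ((le_max_right _ _).trans hT)
  obtain ⟨e1, e2, e3, e4⟩ := hT₁ T hTT1
  have hT0 : 0 < T := by linarith
  have hT1 : 1 ≤ T := by linarith
  have hL0 : 0 < Real.log T := by linarith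
  have hpi := Real.pi_pos
  have hpi3 := Real.pi_gt_three
  obtain ⟨c, hc1, -, hc3⟩ := h5 T (by linarith) _ _ G
    (by
      calc T ^ (1 / 1000 : ℝ) ≤ T ^ (1 : ℝ) := Real.rpow_le_rpow_of_exponent_le hT1 (by norm_num)
        _ = T := Real.rpow_one T) hG
  set N : ℕ := ⌊T ^ (1 / 1000 : ℝ)⌋₊ with hN
  have hRA : ∀ a : ℂ, -(1 / 2) < a.re → RA T M G a a = RF N c a := by
    intro a ha
    rw [hc3 M a a ha ha, RF]
  set X : ℝ := |τ| / (2 * Real.pi) with hX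
  have hXl : T ^ (14 / 15 : ℝ) ≤ X := by
    have k1 : T ^ (14 / 15 : ℝ) * T ^ (1 / 15 : ℝ) = T := by
      rw [← Real.rpow_add hT0]; norm_num
    have k2 : 0 < T ^ (14 / 15 : ℝ) := Real.rpow_pos_of_pos hT0 _
    have k3 : T ^ (14 / 15 : ℝ) * (2 * Real.pi * Real.log T) ≤ T := by
      calc _ ≤ T ^ (14 / 15 : ℝ) * T ^ (1 / 15 : ℝ) := by gcongr
        _ = T := k1
    rw [hX, le_div_iff₀ (by positivity)]
    refine le_trans ?_ hτ1
    rw [le_div_iff₀ hL0]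
    linarith
  have hX1 : 1 ≤ X := (Real.one_le_rpow hT1 (by norm_num)).trans hXl
  have hX0 : 0 < X := by linarith
  have hXT : X ≤ T := by
    rw [hX, div_le_iff₀ (by positivity)]
    nlinarith
  have hB2 : (T ^ (1 / 1000 : ℝ)) ^ 2 = T ^ (2 / 1000 : ℝ) := by
    rw [← Real.rpow_natCast, ← Real.rpow_mul hT0.le]; norm_num
  have hτ2T : |τ| ≤ 2 * T := by linarith
  have D : Data C T X (FG T τ G) (RF N c) := by
    refine ⟨hC0, hT3, hX1, hXT, ?_, e1, ?_, ?_, RF_diff N c, ?_, ?_, ?_, ?_⟩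
    · calc X ^ (-(6 / 100) : ℝ) ≤ (T ^ (14 / 15 : ℝ)) ^ (-(6 / 100) : ℝ) :=
            Real.rpow_le_rpow_of_nonpos (Real.rpow_pos_of_pos hT0 _) hXl (by norm_num)
        _ = T ^ (-(56 / 1000) : ℝ) := by
            rw [← Real.rpow_mul hT0.le]; norm_num
    · intro s hs1 hs2
      refine (hz s hs1 hs2).trans ?_
      gcongr
      linarith
    · exact h8a T τ _ _ G (by linarith) hG
    · intro a ha
      rw [← hB2]
      exact RF_bound N c hc1 ha
    · intro a ha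
      refine (h8b T hT3 τ hτ2T _ _ G hG a ha).trans ?_
      rw [hB2]
      gcongr
      linarith
    · intro a ha1 ha2
      have := h6 T hTT6 M τ hτ1 hτ2 G hG a ha1 ha2
      rwa [hRA a (by rw [ha1]; norm_num)] at this
    · intro a ha1 ha2
      exact h7 T hTT7 τ hτ1 hτ2 G hG a ha1 ha2
  have hfin := D.final e4 e3
  have heq : Set.EqOn (Mn T τ M G) (MT X (RF N c)) (Metric.sphere (0 : ℂ) |1 / Real.log T|) := by
    intro z hz
    have hz1 : ‖z‖ = 1 / Real.log T := by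
      have : ‖z‖ = |1 / Real.log T| := by simpa using hz
      rw [this, abs_of_pos (by positivity)]
    have hz2 : |z.re| ≤ 1 / 34 := by
      refine (Complex.abs_re_le_norm z).trans ?_
      rw [hz1]
      exact one_div_le_one_div_of_le (by norm_num) e4
    have hab := abs_le.mp hz2
    rw [Mn, MT, hRA z (by linarith), hRA (-z) (by rw [neg_re]; linarith)]
  rw [Real.circleAverage_congr_sphere heq]
  exact hfin

end K1
end Pool.Agent.Lib.MP_973905_nt
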