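import Pool.Agent.Lib.MP_973905_nt.K1.FinalK1

/-! Module (20): means of zeta times Dirichlet polynomials. -/

namespace Pool.Agent.Lib.MP_973905_nt
namespace K1.TransferZeta

open MeasureTheory ProbabilityTheory Complex Filter Topology

/-- Pairing of the Euler product with one frequency in the random model. -/
lemma er_pair {T : ℝ} (hT : 1 < T) (M J : ℕ) {u v : ℕ} (hu1 : 1 ≤ u) (huT : (u : ℝ) ≤ T)
    (hv1 : 1 ≤ v) (hvT : (v : ℝ) ≤ T) :
    ER (SB T M J) (fun f => ZZ (PS 0 T) (tw (1 / 2) f) * (f u * (starRingEnd ℂ) (f v))) =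
      if u ∣ v then ((v / u : ℕ) : ℂ) ^ (-(1 / 2 : ℂ)) else 0 := by
  have hB := blk_SB hT M J
  have hmu := mem_factored hT M J hu1 huT
  have hmv := mem_factored hT M J hv1 hvT
  have hBC : BC (SB T M J) (fun f : ℕ → ℂ => f u * (starRingEnd ℂ) (f v)) :=
    (bc_apply u).mul (bc_apply v).conj
  rw [← UU_SB hT M J, ER_ZZ hB (w := 1 / 2) (by norm_num) hBC]
  have h1 : ∀ n : Nat.factoredNumbers (UU (SB T M J)),
      ER (SB T M J) (fun f => f n * (f u * (starRingEnd ℂ) (f v))) =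
        if (n : ℕ) * u = v then 1 else 0 := by
    intro n
    have hn0 : (n : ℕ) ≠ 0 := Nat.ne_zero_of_mem_factoredNumbers n.2
    rw [← ER_pair (Nat.mul_mem_factoredNumbers n.2 hmu) hmv]
    simp only [ER_eq]
    refine integral_congr_ae (Filter.Eventually.of_forall fun ω => ?_)
    simp only
    rw [(cmul_XX (SB T M J) ω).2 _ _ hn0 (by omega), mul_assoc]
  simp only [h1]
  by_cases huv : u ∣ v
  · rw [if_pos huv]
    obtain ⟨w, hw⟩ := huv
    have hu0 : 0 < u := hu1
    have hw0 : 1 ≤ w := by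
      rcases Nat.eq_zero_or_pos w with h | h
      · rw [h, mul_zero] at hw; omega
      · exact h
    have hvu : v / u = w := by rw [hw]; exact Nat.mul_div_cancel_left w hu0
    have hwT : (w : ℝ) ≤ T := by
      have : w ≤ v := by rw [hw]; exact Nat.le_mul_of_pos_left w hu0
      have : (w : ℝ) ≤ v := by exact_mod_cast this
      linarith
    have hmw := mem_factored hT M J hw0 hwT
    rw [tsum_eq_single (⟨w, hmw⟩ : Nat.factoredNumbers (UU (SB T M J)))]
    · rw [hvu]
      simp only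
      rw [if_pos (by rw [hw, mul_comm]), mul_one]
    · intro n hn
      rw [if_neg, mul_zero]
      intro h
      apply hn
      apply Subtype.ext
      simp only
      rw [hw, mul_comm] at h
      exact Nat.eq_of_mul_eq_mul_left hu0 h
  · rw [if_neg huv]
    have : ∀ n : Nat.factoredNumbers (UU (SB T M J)),
        ((n : ℕ) : ℂ) ^ (-(1 / 2 : ℂ)) * (if (n : ℕ) * u = v then (1 : ℂ) else 0) = 0 := by
      intro n
      rw [if_neg, mul_zero]
      intro h
      exact huv ⟨n, by rw [← h, mul_comm]⟩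
    simp only [this, tsum_zero]

lemma integrable_pair (T τ : ℝ) {u v : ℕ} (hu : u ≠ 0) (hv : v ≠ 0) :
    Integrable (fun t : ℝ => riemannZeta (1 / 2 + t * I) *
      (fs (t * I) u * (starRingEnd ℂ) (fs (t * I) v))) (gaussianReal τ (VV T)) := by
  obtain ⟨C, hC, hz⟩ := FinalK1.zeta_bound
  refine integrable_of_poly τ (VV T) (C := C) (m := 2) ?_ fun t => ?_
  · exact (FinalK1.continuous_zeta.mul ((continuous_fs_mul_I hu).mul
      (continuous_conj.comp (continuous_fs_mul_I hv)))).aestronglyMeasurable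
  · rw [norm_mul, norm_mul, RCLike.norm_conj, norm_fs_mul_I t hu, norm_fs_mul_I t hv, mul_one,
      mul_one]
    exact hz t

end K1.TransferZeta

namespace K1

open TransferZeta MeasureTheory ProbabilityTheory Complex Filter Topology

/-- (20) means of zeta times Dirichlet polynomials -/
theorem stTransferZeta (h3 : StZetaPair) : StTransferZeta := by
  obtain ⟨T₁, hT₁, h3⟩ := h3
  refine ⟨T₁, hT₁, fun T hT τ hτ1 hτ2 M G H hG hH => ?_⟩
  have hT3 : 3 ≤ T := hT₁.trans hT
  have hT1 : 1 < T := by linarith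
  have hT0 : 0 < T := by linarith
  have hpow : T ^ (9 / 10 : ℝ) ≤ T := by
    calc T ^ (9 / 10 : ℝ) ≤ T ^ (1 : ℝ) := Real.rpow_le_rpow_of_exponent_le hT1.le (by norm_num)
      _ = T := Real.rpow_one T
  have hMG := hG.M_nonneg
  obtain ⟨k, c, n, h1, h2, h4⟩ := hG
  obtain ⟨k', c', n', h1', h2', h4'⟩ := hH
  have hn0 : ∀ i, n i ≠ 0 := fun i => Nat.one_le_iff_ne_zero.mp (h1 i).1
  have hn0' : ∀ i, n' i ≠ 0 := fun i => Nat.one_le_iff_ne_zero.mp (h1' i).1
  have e1 : ∀ f, CMul f → G f * (starRingEnd ℂ) (H f) =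
      ∑ i, ∑ j, (c i * (starRingEnd ℂ) (c' j)) * (f (n i) * (starRingEnd ℂ) (f (n' j))) := by
    intro f hf
    rw [h4 f hf, h4' f hf, map_sum, Finset.sum_mul_sum]
    refine Finset.sum_congr rfl fun i _ => Finset.sum_congr rfl fun j _ => ?_
    rw [map_mul]; ring
  have e1' : ∀ (z : ℂ) (f : ℕ → ℂ), CMul f → z * (G f * (starRingEnd ℂ) (H f)) =
      ∑ i, ∑ j, (c i * (starRingEnd ℂ) (c' j)) *
        (z * (f (n i) * (starRingEnd ℂ) (f (n' j)))) := by
    intro z f hf
    rw [e1 f hf, Finset.mul_sum]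
    refine Finset.sum_congr rfl fun i _ => ?_
    rw [Finset.mul_sum]
    refine Finset.sum_congr rfl fun j _ => ?_
    ring
  have eR : ER (SB T M (JJ T)) (fun f => ZZ (PS 0 T) (tw (1 / 2) f) *
      (G f * (starRingEnd ℂ) (H f))) =
      ∑ i, ∑ j, (c i * (starRingEnd ℂ) (c' j)) *
        (if n i ∣ n' j then ((n' j / n i : ℕ) : ℂ) ^ (-(1 / 2 : ℂ)) else 0) := by
    have e2 : ER (SB T M (JJ T)) (fun f => ZZ (PS 0 T) (tw (1 / 2) f) *
        (G f * (starRingEnd ℂ) (H f))) = ER (SB T M (JJ T)) (fun f =>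
        ∑ i, ∑ j, (c i * (starRingEnd ℂ) (c' j)) *
          (ZZ (PS 0 T) (tw (1 / 2) f) * (f (n i) * (starRingEnd ℂ) (f (n' j))))) := by
      simp only [ER_eq]
      exact integral_congr_ae (Filter.Eventually.of_forall fun ω => e1' _ _ (cmul_XX _ ω))
    have hZ : BC (SB T M (JJ T)) (fun f => ZZ (PS 0 T) (tw (1 / 2) f)) :=
      bc_ZZ (fun p hp => by
        rw [← UU_SB hT1 M (JJ T)] at hp
        exact prime_of_mem_UU (blk_SB hT1 M (JJ T)) hp) (by norm_num)
    have hbc : ∀ i j, BC (SB T M (JJ T)) (fun f => (c i * (starRingEnd ℂ) (c' j)) *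
        (ZZ (PS 0 T) (tw (1 / 2) f) * (f (n i) * (starRingEnd ℂ) (f (n' j))))) := fun i j =>
      BC.const_mul (hZ.mul ((bc_apply _).mul (bc_apply _).conj)) _
    rw [e2, ER_sum _ fun i _ => bc_sum _ fun j _ => hbc i j]
    refine Finset.sum_congr rfl fun i _ => ?_
    rw [ER_sum _ fun j _ => hbc i j]
    refine Finset.sum_congr rfl fun j _ => ?_
    rw [ER_const_mul, er_pair hT1 M (JJ T) (h1 i).1 ((h1 i).2.trans hpow) (h1' j).1
      ((h1' j).2.trans hpow)]
  have eG : EG T τ (fun t => riemannZeta (1 / 2 + t * I) *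
      (G (fs (t * I)) * (starRingEnd ℂ) (H (fs (t * I))))) =
      ∑ i, ∑ j, (c i * (starRingEnd ℂ) (c' j)) *
        EG T τ (fun t => riemannZeta (1 / 2 + t * I) *
          (fs (t * I) (n i) * (starRingEnd ℂ) (fs (t * I) (n' j)))) := by
    have hint : ∀ i j, Integrable (fun t : ℝ => (c i * (starRingEnd ℂ) (c' j)) *
        (riemannZeta (1 / 2 + t * I) *
          (fs (t * I) (n i) * (starRingEnd ℂ) (fs (t * I) (n' j))))) (gaussianReal τ (VV T)) :=
      fun i j => (integrable_pair T τ (hn0 i) (hn0' j)).const_mul _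
    simp only [EG]
    rw [integral_congr_ae (Filter.Eventually.of_forall fun t : ℝ => e1' _ _ (cmul_fs (t * I)))]
    rw [integral_finsetSum _ fun i _ => integrable_finsetSum _ fun j _ => hint i j]
    refine Finset.sum_congr rfl fun i _ => ?_
    rw [integral_finsetSum _ fun j _ => hint i j]
    refine Finset.sum_congr rfl fun j _ => ?_
    exact integral_const_mul _ _
  have hpair : ∀ i j, ‖EG T τ (fun t => riemannZeta (1 / 2 + t * I) *
      (fs (t * I) (n i) * (starRingEnd ℂ) (fs (t * I) (n' j)))) -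
      (if n i ∣ n' j then ((n' j / n i : ℕ) : ℂ) ^ (-(1 / 2 : ℂ)) else 0)‖ ≤ T ^ (-20 : ℝ) := by
    intro i j
    have h := h3 T hT τ hτ1 hτ2 0 (by simp) (by simp) (by simp; positivity) (n i) (n' j) (h1 i).1
      (h1' j).1 (h1 i).2 (h1' j).2
    simpa only [add_zero] using h
  rw [eR, eG, ← Finset.sum_sub_distrib]
  calc ‖∑ i, (∑ j, (c i * (starRingEnd ℂ) (c' j)) *
        EG T τ (fun t => riemannZeta (1 / 2 + t * I) *
          (fs (t * I) (n i) * (starRingEnd ℂ) (fs (t * I) (n' j)))) -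
        ∑ j, (c i * (starRingEnd ℂ) (c' j)) *
          (if n i ∣ n' j then ((n' j / n i : ℕ) : ℂ) ^ (-(1 / 2 : ℂ)) else 0))‖
      ≤ ∑ i, ∑ j, ‖c i‖ * ‖c' j‖ * T ^ (-20 : ℝ) := by
        refine (norm_sum_le _ _).trans (Finset.sum_le_sum fun i _ => ?_)
        rw [← Finset.sum_sub_distrib]
        refine (norm_sum_le _ _).trans (Finset.sum_le_sum fun j _ => ?_)
        rw [← mul_sub, norm_mul, norm_mul, RCLike.norm_conj]
        exact mul_le_mul_of_nonneg_left (hpair i j) (by positivity)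
    _ = (∑ i, ‖c i‖) * (∑ j, ‖c' j‖) * T ^ (-20 : ℝ) := by
        rw [Finset.sum_mul_sum, Finset.sum_mul]
        refine Finset.sum_congr rfl fun i _ => ?_
        rw [Finset.sum_mul]
    _ ≤ T ^ 3 * T ^ 3 * T ^ (-20 : ℝ) := by gcongr
    _ ≤ T ^ (-2 : ℝ) := by
        rw [← Real.rpow_natCast T 3, ← Real.rpow_add hT0, ← Real.rpow_add hT0]
        apply Real.rpow_le_rpow_of_exponent_le hT1.le
        norm_num

end K1
end Pool.Agent.Lib.MP_973905_nt
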