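import Pool.Agent.Lib.MP_973905_nt.K1.Stmts
import Pool.Agent.Lib.MP_973905_nt.Assemble

/-! Module (16): upper bounds for the Gaussian means. -/

namespace Pool.Agent.Lib.MP_973905_nt
namespace K1

open MeasureTheory ProbabilityTheory Complex Filter Topology

namespace UpH

open Asm

lemma upper_core {C κ δ B₁ : ℝ} {M : ℕ} {T τ k D : ℝ} (hδ0 : 0 < δ) (hδ : δ ≤ 1 / 16) (hM : 4 ≤ M)
    (hk0 : 0 < k) (hk1 : k ≤ 1) (hT : 3 ≤ T) (hB₁ : 0 ≤ B₁) (hD1 : 1 ≤ D)
    (hC : 0 < C) (hw : 8 * Real.exp (C * M - 1 / 4 * Real.exp (3 / 4 * M)) ≤ δ) (hκ : 0 < κ)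
    (hE : 2 ^ (JJ T + 1) * T ^ (-(κ / 2)) ≤ δ / 4)
    (I1 : EG T τ (fun t => ‖riemannZeta (pt 0 T t)‖ ^ 2 *
      ‖AA T M (JJ T) (k - 1) (Finset.range (JJ T + 1)) ∅ (fs (pt 0 T t))‖ ^ 2) ≤ B₁ * D)
    (I4 : ∀ g h : Finset ℕ, g ∪ h = Finset.range (JJ T + 1) →
      EG T τ (fun t => ‖riemannZeta (pt 0 T t)‖ ^ 2 *
        ‖AA T M (JJ T) (k - 1) g h (fs (pt 0 T t))‖ ^ 2) ≤
        Real.exp (C * M) * D * ∏ j ∈ h, ss M (JJ T) j + T ^ (-κ) ∧
      EG T τ (fun t => ‖AA T M (JJ T) k g h (fs (pt 0 T t))‖ ^ 2) ≤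
        Real.exp (C * M) * D * ∏ j ∈ h, ss M (JJ T) j + T ^ (-κ)) :
    (1 - δ) * EG T τ (fun t => ‖riemannZeta (pt 0 T t)‖ ^ (2 * k)) ≤
      ((B₁ + δ) * D) ^ k * (2 * Real.exp (C * M) * D) ^ (1 - k) := by
  have hT1 : 1 < T := by linarith
  have hT0 : 0 < T := by linarith
  have hL : 0 < Real.log T := Real.log_pos hT1
  have hM4 : (4 : ℝ) ≤ M := by exact_mod_cast hM
  set J := JJ T with hJ
  set σ := 1 / 2 + 0 / Real.log T with hσd
  have hσe : σ = 1 / 2 := by rw [hσd]; simp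
  have hσ1 : 1 / 2 ≤ σ := by linarith
  have hσ2 : σ ≤ 3 / 4 := by linarith
  have hD0 : 0 < D := by linarith
  have hδD : δ / 4 ≤ δ * D / 4 := by
    have : δ * 1 ≤ δ * D := mul_le_mul_of_nonneg_left hD1 hδ0.le
    linarith
  set R := Finset.range (J + 1) with hR
  have hα1 : |k - 1| ≤ 1 := by rw [abs_le]; constructor <;> linarith
  have hα2 : |k| ≤ 1 := by rw [abs_le]; constructor <;> linarith
  have hcardR : R.card = J + 1 := Finset.card_range _
  -- sums over the blocks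
  set E := Real.exp (3 / 4 * (M : ℝ)) with hEd
  set w := Real.exp (C * M - 1 / 4 * E) with hwd
  have hw0 : 0 < w := Real.exp_pos _
  have hwD : 8 * w * D ≤ δ * D := mul_le_mul_of_nonneg_right hw hD0.le
  have hwD0 : 0 < w * D := mul_pos hw0 hD0
  have hE4 : 4 ≤ E := by
    have := Real.add_one_le_exp (3 / 4 * (M : ℝ))
    linarith
  have hCM : 0 < C * M := by positivity
  have hCM1 : 1 ≤ Real.exp (C * M) := Real.one_le_exp hCM.le
  have hss0 : ∀ j, 0 ≤ ss M J j := fun j => (Real.exp_pos _).le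
  have s1 : ∑ j ∈ R, Real.exp (-KK M J j) ≤ 2 * w := by
    have h1 := sum_exp_KK (M := M) (J := J) (a := 1) (by rw [one_mul]; linarith) one_pos
    simp only [one_mul] at h1
    refine h1.trans ?_
    gcongr
    rw [hwd]
    apply Real.exp_le_exp.2
    linarith
  have s2 : ∑ j ∈ R, ss M J j ≤ 2 * Real.exp (-(1 / 2 * E)) := by
    have h1 := sum_exp_KK (M := M) (J := J) (a := 1 / 2) (by linarith) (by norm_num)
    refine le_trans (le_of_eq ?_) h1
    refine Finset.sum_congr rfl fun j _ => ?_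
    rw [ss]; congr 1; ring
  have w2 : Real.exp (C * M) * Real.exp (-(1 / 2 * E)) ≤ w := by
    rw [← Real.exp_add, hwd]
    apply Real.exp_le_exp.2
    linarith
  have w4 : Real.exp (-(1 / 2 * E)) ≤ w := by
    have := mul_le_mul_of_nonneg_right hCM1 (Real.exp_pos (-(1 / 2 * E))).le
    linarith
  have hprodss : ∏ j ∈ R, (1 + ss M J j) - 1 ≤ 4 * Real.exp (-(1 / 2 * E)) := by
    have h1 := prod_one_add_le (R := R) hss0 (by linarith)
    linarith
  have hprodss0 : 0 ≤ ∏ j ∈ R, (1 + ss M J j) - 1 := by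
    have : 1 ≤ ∏ j ∈ R, (1 + ss M J j) := Finset.one_le_prod fun j _ => by linarith [hss0 j]
    linarith
  -- powers of T
  have hTk : T ^ (-κ) ≤ T ^ (-(κ / 2)) := Real.rpow_le_rpow_of_exponent_le hT1.le (by linarith)
  have hTk0 : 0 < T ^ (-κ) := Real.rpow_pos_of_pos hT0 _
  have hEk : 2 ^ (J + 1) * T ^ (-κ) ≤ δ / 4 := le_trans (by gcongr) hE
  have h2J : (2 : ℝ) ≤ 2 ^ (J + 1) := by
    rw [pow_succ]
    have : (1 : ℝ) ≤ 2 ^ J := one_le_pow₀ (by norm_num)
    linarith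
  have hTk8 : T ^ (-κ) ≤ δ / 8 := by
    have := mul_le_mul_of_nonneg_right h2J hTk0.le
    linarith
  -- zeta on the line
  set Z : ℝ → ℝ := fun t => ‖riemannZeta (pt 0 T t)‖ with hZ
  have hZ0 : ∀ t, 0 ≤ Z t := fun t => norm_nonneg _
  have hZc : Continuous Z := (continuous_zeta_line (σ := σ) (by linarith)).norm
  obtain ⟨Cz, hCz, hzp⟩ := zeta_poly
  have hZb : ∀ t, Z t ≤ Cz * (1 + |t|) ^ 2 := fun t => hzp σ t hσ1 hσ2
  -- the Dirichlet polynomials on the line
  have hAA : ∀ α : ℝ, |α| ≤ 1 → ∀ g h : Finset ℕ,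
      Continuous (fun t => AA T M J α g h (fs (pt 0 T t))) ∧
        ∃ B : ℝ, 0 ≤ B ∧ ∀ t, ‖AA T M J α g h (fs (pt 0 T t))‖ ≤ B := by
    intro α hα g h
    obtain ⟨N, B, hdp⟩ := dp_AA' hT1 (show 1 ≤ M by omega) J hα g h
    obtain ⟨h1, h2⟩ := dp_line hdp (c := 0) (T := T) (by linarith)
    exact ⟨h1, B, hdp.M_nonneg, h2⟩
  have hint2 : ∀ α : ℝ, |α| ≤ 1 → ∀ g h : Finset ℕ,
      Integrable (fun t => ‖AA T M J α g h (fs (pt 0 T t))‖ ^ 2) (gaussianReal τ (VV T)) := by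
    intro α hα g h
    obtain ⟨h1, B, hB0, h2⟩ := hAA α hα g h
    refine Integrable.of_bound (h1.norm.pow 2).aestronglyMeasurable (B ^ 2)
      (Filter.Eventually.of_forall fun t => ?_)
    rw [Real.norm_eq_abs, abs_of_nonneg (by positivity)]
    exact pow_le_pow_left₀ (norm_nonneg _) (h2 t) 2
  have hint1 : ∀ α : ℝ, |α| ≤ 1 → ∀ g h : Finset ℕ,
      Integrable (fun t => Z t ^ 2 * ‖AA T M J α g h (fs (pt 0 T t))‖ ^ 2)
        (gaussianReal τ (VV T)) := by
    intro α hα g h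
    obtain ⟨h1, B, hB0, h2⟩ := hAA α hα g h
    refine integrable_of_poly τ (VV T) ((hZc.pow 2).mul (h1.norm.pow 2)).aestronglyMeasurable
      (C := Cz ^ 2 * B ^ 2) (m := 4) fun t => ?_
    rw [Real.norm_eq_abs, abs_of_nonneg (by positivity)]
    calc Z t ^ 2 * ‖AA T M J α g h (fs (pt 0 T t))‖ ^ 2
        ≤ (Cz * (1 + |t|) ^ 2) ^ 2 * B ^ 2 := by
          have := hZ0 t
          have := hZb t
          have := h2 t
          gcongr
      _ = _ := by ring
  have hfint : Integrable (fun t => Z t ^ (2 * k)) (gaussianReal τ (VV T)) := by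
    refine integrable_of_poly τ (VV T)
      (hZc.rpow_const fun _ => Or.inr (by linarith)).aestronglyMeasurable
      (C := (max Cz 1) ^ 2) (m := 4) fun t => ?_
    rw [Real.norm_eq_abs, abs_of_nonneg (Real.rpow_nonneg (hZ0 t) _)]
    have h1 : 1 ≤ max Cz 1 * (1 + |t|) ^ 2 := by
      have h3 : 1 ≤ max Cz 1 := le_max_right _ _
      have h4 : 1 ≤ (1 + |t|) ^ 2 := one_le_pow₀ (by linarith [abs_nonneg t])
      nlinarith
    calc Z t ^ (2 * k) ≤ (max Cz 1 * (1 + |t|) ^ 2) ^ (2 * k) := by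
          apply Real.rpow_le_rpow (hZ0 t) _ (by linarith)
          refine (hZb t).trans ?_
          gcongr
          exact le_max_left _ _
      _ ≤ (max Cz 1 * (1 + |t|) ^ 2) ^ (2 : ℝ) :=
          Real.rpow_le_rpow_of_exponent_le h1 (by linarith)
      _ = _ := by
          rw [Real.rpow_two]; ring
  set X := EG T τ (fun t => Z t ^ (2 * k)) with hX
  set F1 : ℝ → ℝ := fun t => ∑ g ∈ R.powerset,
    Z t ^ 2 * ‖AA T M J (k - 1) g (R \ g) (fs (pt 0 T t))‖ ^ 2 with hF1d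
  set F2 : ℝ → ℝ := fun t => ∑ g ∈ R.powerset,
    ‖AA T M J k g (R \ g) (fs (pt 0 T t))‖ ^ 2 with hF2d
  have hF1i : Integrable F1 (gaussianReal τ (VV T)) :=
    integrable_finsetSum _ fun g _ => hint1 (k - 1) hα1 g (R \ g)
  have hF2i : Integrable F2 (gaussianReal τ (VV T)) :=
    integrable_finsetSum _ fun g _ => hint2 k hα2 g (R \ g)
  have hss4 : Real.exp (C * M) * D * (∏ j ∈ R, (1 + ss M J j) - 1) ≤ 4 * w * D := by
    calc Real.exp (C * M) * D * (∏ j ∈ R, (1 + ss M J j) - 1)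
        ≤ Real.exp (C * M) * D * (4 * Real.exp (-(1 / 2 * E))) := by gcongr
      _ = 4 * (Real.exp (C * M) * Real.exp (-(1 / 2 * E))) * D := by ring
      _ ≤ 4 * w * D := by gcongr
  have hF1 : EG T τ F1 ≤ (B₁ + δ) * D := by
    rw [hF1d, EG_sum _ fun g _ => hint1 (k - 1) hα1 g (R \ g)]
    have h1 := sum_bound (R := R) (u := fun g => EG T τ (fun t =>
      Z t ^ 2 * ‖AA T M J (k - 1) g (R \ g) (fs (pt 0 T t))‖ ^ 2)) (s := ss M J)
      (A := Real.exp (C * M) * D) (B := B₁ * D) (e := T ^ (-κ)) hTk0.le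
      (by
        simp only [Finset.sdiff_self]
        exact I1)
      (fun g hg => (I4 g (R \ g) (Finset.union_sdiff_of_subset (Finset.mem_powerset.1 hg))).1)
    refine h1.trans ?_
    rw [hcardR]
    linarith
  have hF2 : EG T τ F2 ≤ 2 * Real.exp (C * M) * D := by
    rw [hF2d, EG_sum _ fun g _ => hint2 k hα2 g (R \ g)]
    have h1 := sum_bound (R := R) (u := fun g => EG T τ (fun t =>
      ‖AA T M J k g (R \ g) (fs (pt 0 T t))‖ ^ 2)) (s := ss M J)
      (A := Real.exp (C * M) * D) (B := Real.exp (C * M) * D + T ^ (-κ)) (e := T ^ (-κ)) hTk0.le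
      (by
        have h3 := (I4 R ∅ (Finset.union_empty _)).2
        rw [Finset.prod_empty, mul_one] at h3
        simp only [Finset.sdiff_self]
        exact h3)
      (fun g hg => (I4 g (R \ g) (Finset.union_sdiff_of_subset (Finset.mem_powerset.1 hg))).2)
    refine h1.trans ?_
    rw [hcardR]
    have h4 : δ * D ≤ Real.exp (C * M) * D := by
      gcongr
      linarith
    have h5 : δ / 8 ≤ δ * D / 4 := by linarith
    linarith
  have hpt : ∀ t, (1 - δ) * Z t ^ (2 * k) ≤ F1 t ^ k * F2 t ^ (1 - k) := by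
    intro t
    set f := fs (pt 0 T t) with hf
    set x : ℕ → ℝ := fun j => ‖Ntr (ll M J j) (k - 1) (Pj M (Sj T M J j) f)‖ ^ 2 +
      ‖(Pj M (Sj T M J j) f / (KK M J j : ℂ)) ^ (rr M J j)‖ ^ 2 with hx
    set y : ℕ → ℝ := fun j => ‖Ntr (ll M J j) k (Pj M (Sj T M J j) f)‖ ^ 2 +
      ‖(Pj M (Sj T M J j) f / (KK M J j : ℂ)) ^ (rr M J j)‖ ^ 2 with hy
    have hx0 : ∀ j, 0 ≤ x j := fun j => by simp only [hx]; positivity
    have hy0 : ∀ j, 0 ≤ y j := fun j => by simp only [hy]; positivity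
    have e1 : F1 t = Z t ^ 2 * ∏ j ∈ R, x j := by
      simp only [hF1d]
      rw [← Finset.mul_sum, expand]
    have e2 : F2 t = ∏ j ∈ R, y j := by
      simp only [hF2d]
      rw [expand]
    have hPx : 0 ≤ ∏ j ∈ R, x j := Finset.prod_nonneg fun j _ => hx0 j
    have e3 : F1 t ^ k * F2 t ^ (1 - k) = Z t ^ (2 * k) * ∏ j ∈ R, (x j ^ k * y j ^ (1 - k)) := by
      rw [e1, e2, Real.mul_rpow (by positivity) hPx, Finset.prod_mul_distrib,
        Real.finsetProd_rpow _ _ (fun j _ => hx0 j), Real.finsetProd_rpow _ _ (fun j _ => hy0 j),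
        ← Real.rpow_natCast, ← Real.rpow_mul (hZ0 t)]
      push_cast
      ring
    rw [e3, mul_comm]
    apply mul_le_mul_of_nonneg_left _ (Real.rpow_nonneg (hZ0 t) _)
    have h1 : ∏ j ∈ R, (1 - Real.exp (-KK M J j)) ^ 2 ≤ ∏ j ∈ R, (x j ^ k * y j ^ (1 - k)) := by
      refine Finset.prod_le_prod (fun j _ => by positivity) fun j hj => ?_
      have hjJ : j ≤ J := by
        have := Finset.mem_range.1 hj
        omega
      exact always_ratio (ll M J j) (rr M J j) hk0.le hk1 (Len.KK_ge_one hjJ) (Nat.le_ceil _) _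
    have h2 : 1 - ∑ j ∈ R, Real.exp (-KK M J j) ≤ ∏ j ∈ R, (1 - Real.exp (-KK M J j)) := by
      apply one_sub_sum_le (fun j => (Real.exp_pos _).le)
      intro j
      rw [Real.exp_le_one_iff]
      have : 0 < KK M J j := Real.exp_pos _
      linarith
    rw [Finset.prod_pow] at h1
    refine le_trans ?_ h1
    have h3 : 1 - 2 * w ≤ ∏ j ∈ R, (1 - Real.exp (-KK M J j)) := by linarith
    have h4 : (1 - 2 * w) ^ 2 ≤ (∏ j ∈ R, (1 - Real.exp (-KK M J j))) ^ 2 :=
      pow_le_pow_left₀ (by linarith) h3 2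
    have h5 : (1 - 2 * w) ^ 2 = 1 - 4 * w + 4 * w ^ 2 := by ring
    have h6 : 0 ≤ w ^ 2 := sq_nonneg w
    linarith
  have hB : 0 < (B₁ + δ) * D := by positivity
  have hB2 : 0 < 2 * Real.exp (C * M) * D := by positivity
  have hF10 : ∀ t, 0 ≤ F1 t := fun t => Finset.sum_nonneg fun g _ => by positivity
  have hF20 : ∀ t, 0 ≤ F2 t := fun t => Finset.sum_nonneg fun g _ => by positivity
  have h1 := holder2 hF1i hF2i hF10 hF20 hk0.le hk1 hB hB2 hF1 hF2
  refine le_trans ?_ h1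
  rw [hX, EG, ← integral_const_mul]
  exact integral_mono (hfint.const_mul _)
    (holder2_integrable hF1i hF2i hF10 hF20 hk0.le hk1) hpt

lemma pt_zero (T t : ℝ) : pt 0 T t = 1 / 2 + t * I := by
  rw [pt, zero_div, add_zero]; push_cast; ring

/-- largeness of `M` -/
lemma exists_M (C δ : ℝ) (hC : 0 < C) (hδ : 0 < δ) : ∃ M₁ : ℕ, 4 ≤ M₁ ∧ ∀ M : ℕ, M₁ ≤ M →
    8 * Real.exp (C * M - 1 / 4 * Real.exp (3 / 4 * M)) ≤ δ := by
  obtain ⟨M₁, hM₁⟩ := exists_nat_ge (15 * (C + 1) + 8 / δ + 4)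
  have hq1 : 0 < 8 / δ := by positivity
  refine ⟨M₁, ?_, fun M hM => ?_⟩
  · have : (4 : ℝ) ≤ M₁ := by linarith
    exact_mod_cast this
  have hMbig : 15 * (C + 1) + 8 / δ + 4 ≤ M := hM₁.trans (by exact_mod_cast hM)
  have hMpos : (0 : ℝ) < M := by linarith
  have hsmall : Real.exp (C * M - 1 / 4 * Real.exp (3 / 4 * M)) ≤ Real.exp (-(M : ℝ)) := by
    apply Real.exp_le_exp.2
    have h1 := Real.quadratic_le_exp_of_nonneg (x := 3 / 4 * (M : ℝ)) (by positivity)
    have h2 : 15 * (C + 1) * M ≤ M * M := by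
      apply mul_le_mul_of_nonneg_right _ hMpos.le
      linarith
    have h3 : (3 / 4 * (M : ℝ)) ^ 2 = 9 / 16 * (M * M) := by ring
    have h4 : 0 < (C + 1) * M := by positivity
    rw [h3] at h1
    linarith
  have hexpM : Real.exp (-(M : ℝ)) ≤ 1 / M := by
    rw [Real.exp_neg, ← one_div]
    apply one_div_le_one_div_of_le hMpos
    have := Real.add_one_le_exp (M : ℝ)
    linarith
  have h1 : 8 / δ ≤ M := by linarith
  rw [div_le_iff₀ hδ] at h1
  have h2 : 1 / (M : ℝ) ≤ δ / 8 := by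
    rw [div_le_iff₀ hMpos]; linarith
  linarith

end UpH

open Asm UpH in
theorem stUpper (h14 : StCrude) (h15 : StSecond) : StUpper := by
  obtain ⟨C, κ, hC, hκ, M₀, h14⟩ := h14
  constructor
  · intro ε hε
    set δ := min ε 1 / 16 with hδd
    have hδ0 : 0 < δ := by positivity
    have hδ1 : δ ≤ 1 / 16 := by
      have := min_le_right ε 1
      rw [hδd]; linarith
    have hδε : 16 * δ ≤ ε := by
      have := min_le_left ε 1
      rw [hδd]; linarith
    obtain ⟨M₂, hM₂⟩ := h15 δ hδ0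
    obtain ⟨M₁, hM₁4, hM₁⟩ := exists_M C δ hC hδ0
    set M := max M₀ (max M₁ M₂) with hM
    have hMM₀ : M₀ ≤ M := le_max_left _ _
    have hMM₁ : M₁ ≤ M := (le_max_left _ _).trans (le_max_right _ _)
    have hMM₂ : M₂ ≤ M := (le_max_right _ _).trans (le_max_right _ _)
    obtain ⟨k₁, hk₁0, hk₁1, T₂, hT₂3, hT₂⟩ := hM₂ M hMM₂
    obtain ⟨T₁, hT₁3, hT₁⟩ := h14 M hMM₀
    have hw := hM₁ M hMM₁
    have hM4 : 4 ≤ M := hM₁4.trans hMM₁
    set B := Real.log (2 * Real.exp (C * M)) with hBd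
    have hCM : 0 < C * M := by
      have : (0 : ℝ) < M := by exact_mod_cast (show 0 < M by omega)
      positivity
    have hB0 : 0 < B := by
      apply Real.log_pos
      have := Real.one_le_exp hCM.le
      linarith
    have hlog : 0 < Real.log (1 + δ) := Real.log_pos (by linarith)
    set k₂ := 1 - min (1 / 2) (Real.log (1 + δ) / B) with hk₂
    have hmin0 : 0 < min (1 / 2) (Real.log (1 + δ) / B) := lt_min (by norm_num) (by positivity)
    have hmin1 : min (1 / 2) (Real.log (1 + δ) / B) ≤ 1 / 2 := min_le_left _ _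
    have hmin2 : min (1 / 2) (Real.log (1 + δ) / B) ≤ Real.log (1 + δ) / B := min_le_right _ _
    obtain ⟨T₃, hT₃⟩ := eventually_atTop.1 (eventually_pow κ δ hκ hδ0)
    refine ⟨max k₁ k₂, lt_of_lt_of_le hk₁0 (le_max_left _ _), max_lt hk₁1 (by linarith),
      max T₁ (max T₂ T₃), hT₁3.trans (le_max_left _ _), fun T hT k hk hk1 τ hτ1 hτ2 => ?_⟩
    have hTT₁ : T₁ ≤ T := (le_max_left _ _).trans hT
    have hTT₂ : T₂ ≤ T := (le_max_left _ _).trans ((le_max_right _ _).trans hT)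
    have hTT₃ : T₃ ≤ T := (le_max_right _ _).trans ((le_max_right _ _).trans hT)
    have hT3 : 3 ≤ T := hT₁3.trans hTT₁
    have hkk₁ : k₁ ≤ k := (le_max_left _ _).trans hk
    have hkk₂ : k₂ ≤ k := (le_max_right _ _).trans hk
    have hk0 : 0 < k := lt_of_lt_of_le hk₁0 hkk₁
    have hT0 : 0 < T := by linarith
    have hL1 : 1 ≤ Real.log T := by
      rw [Real.le_log_iff_exp_le hT0]
      linarith [Real.exp_one_lt_d9]
    set D := Real.log T ^ (k ^ 2) with hD
    have hD1 : 1 ≤ D := Real.one_le_rpow hL1 (by positivity)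
    have hD0 : 0 < D := by linarith
    have hτ : |τ| ≤ 2 * T := by linarith
    have hI4 := fun g h hgh => hT₁ T hTT₁ τ hτ k hk0 hk1 g h hgh
    have hI1 := hT₂ T hTT₂ k hkk₁ hk1 τ hτ1 hτ2
    have hI1' : EG T τ (fun t => ‖riemannZeta (1 / 2 + t * I)‖ ^ 2 *
        ‖NN T M (k - 1) (fs (1 / 2 + t * I))‖ ^ 2) ≤ (1 + δ) * D := by
      have := (abs_le.1 hI1).2
      linarith
    have key := upper_core (τ := τ) (D := D) (B₁ := 1 + δ) (C := C) (κ := κ) hδ0 hδ1 hM4 hk0 hk1 hT3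
      (by linarith) hD1 hC hw hκ (hT₃ T hTT₃)
      (by simp only [pt_zero]; exact hI1')
      (by simp only [pt_zero]; exact hI4)
    simp only [pt_zero] at key
    set X := EG T τ (fun t => ‖riemannZeta (1 / 2 + t * I)‖ ^ (2 * k)) with hX
    have h2 : ((1 + δ + δ) * D) ^ k * (2 * Real.exp (C * M) * D) ^ (1 - k) ≤
        (1 + 2 * δ) * (1 + δ) * D := by
      rw [Real.mul_rpow (by linarith) hD0.le, Real.mul_rpow (by positivity) hD0.le]
      have h3 : (1 + δ + δ) ^ k ≤ 1 + 2 * δ := by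
        calc (1 + δ + δ) ^ k ≤ (1 + δ + δ) ^ (1 : ℝ) :=
              Real.rpow_le_rpow_of_exponent_le (by linarith) hk1
          _ = 1 + 2 * δ := by rw [Real.rpow_one]; ring
      have h4 : (2 * Real.exp (C * M)) ^ (1 - k) ≤ 1 + δ := by
        rw [Real.rpow_def_of_pos (by positivity), ← hBd, ← Real.le_log_iff_exp_le (by linarith)]
        have h5 : 1 - k ≤ Real.log (1 + δ) / B := by linarith
        calc B * (1 - k) ≤ B * (Real.log (1 + δ) / B) := by gcongr
          _ = _ := by field_simp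
      have h5 : D ^ k * D ^ (1 - k) = D := by
        rw [← Real.rpow_add hD0, show k + (1 - k) = 1 by ring, Real.rpow_one]
      have h6 : 0 < D ^ k := Real.rpow_pos_of_pos hD0 _
      have h7 : 0 < D ^ (1 - k) := Real.rpow_pos_of_pos hD0 _
      calc (1 + δ + δ) ^ k * D ^ k * ((2 * Real.exp (C * M)) ^ (1 - k) * D ^ (1 - k))
          ≤ (1 + 2 * δ) * D ^ k * ((1 + δ) * D ^ (1 - k)) := by gcongr
        _ = (1 + 2 * δ) * (1 + δ) * (D ^ k * D ^ (1 - k)) := by ring
        _ = _ := by rw [h5]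
    have h8 := key.trans h2
    have h9 : (1 + 2 * δ) * (1 + δ) ≤ (1 - δ) * (1 + 16 * δ) := by
      have : δ * δ ≤ δ * (1 / 16) := mul_le_mul_of_nonneg_left hδ1 hδ0.le
      linarith
    have h10 : (1 - δ) * X ≤ (1 - δ) * ((1 + 16 * δ) * D) := by
      refine h8.trans ?_
      rw [← mul_assoc]
      exact mul_le_mul_of_nonneg_right h9 hD0.le
    have h11 : X ≤ (1 + 16 * δ) * D := le_of_mul_le_mul_left h10 (by linarith)
    refine h11.trans ?_
    gcongr
  · set δ : ℝ := 1 / 16 with hδd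
    have hδ0 : 0 < δ := by norm_num [hδd]
    obtain ⟨M₁, hM₁4, hM₁⟩ := exists_M C δ hC hδ0
    set M := max M₀ M₁ with hM
    have hMM₀ : M₀ ≤ M := le_max_left _ _
    have hMM₁ : M₁ ≤ M := le_max_right _ _
    obtain ⟨T₁, hT₁3, hT₁⟩ := h14 M hMM₀
    have hw := hM₁ M hMM₁
    have hM4 : 4 ≤ M := hM₁4.trans hMM₁
    have hCM : 0 < C * M := by
      have : (0 : ℝ) < M := by exact_mod_cast (show 0 < M by omega)
      positivity
    have hCM1 : 1 ≤ Real.exp (C * M) := Real.one_le_exp hCM.le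
    obtain ⟨T₃, hT₃⟩ := eventually_atTop.1 (eventually_pow κ δ hκ hδ0)
    set K := 2 * Real.exp (C * M) + 2 with hK
    refine ⟨2 * K, max T₁ T₃, by positivity, hT₁3.trans (le_max_left _ _),
      fun T hT k hk0 hk1 τ hτ => ?_⟩
    have hTT₁ : T₁ ≤ T := (le_max_left _ _).trans hT
    have hTT₃ : T₃ ≤ T := (le_max_right _ _).trans hT
    have hT3 : 3 ≤ T := hT₁3.trans hTT₁
    have hT0 : 0 < T := by linarith
    have hT1 : 1 < T := by linarith
    have hL1 : 1 ≤ Real.log T := by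
      rw [Real.le_log_iff_exp_le hT0]
      linarith [Real.exp_one_lt_d9]
    set D := Real.log T ^ (k ^ 2) with hD
    have hD1 : 1 ≤ D := Real.one_le_rpow hL1 (by positivity)
    have hD0 : 0 < D := by linarith
    have hI4 := fun g h hgh => hT₁ T hTT₁ τ hτ k hk0 hk1 g h hgh
    have hTκ : T ^ (-κ) ≤ 1 := Real.rpow_le_one_of_one_le_of_nonpos hT1.le (by linarith)
    have hI1' : EG T τ (fun t => ‖riemannZeta (1 / 2 + t * I)‖ ^ 2 *
        ‖AA T M (JJ T) (k - 1) (Finset.range (JJ T + 1)) ∅ (fs (1 / 2 + t * I))‖ ^ 2) ≤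
        (Real.exp (C * M) + 1) * D := by
      have h3 := (hI4 (Finset.range (JJ T + 1)) ∅ (Finset.union_empty _)).1
      rw [Finset.prod_empty, mul_one] at h3
      refine h3.trans ?_
      rw [add_mul, one_mul]
      linarith
    have key := upper_core (τ := τ) (D := D) (B₁ := Real.exp (C * M) + 1) (C := C) (κ := κ) hδ0 le_rfl
      hM4 hk0 hk1 hT3 (by linarith) hD1 hC hw hκ (hT₃ T hTT₃)
      (by simp only [pt_zero]; exact hI1')
      (by simp only [pt_zero]; exact hI4)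
    simp only [pt_zero] at key
    set X := EG T τ (fun t => ‖riemannZeta (1 / 2 + t * I)‖ ^ (2 * k)) with hX
    have hK0 : 0 < K := by positivity
    have h2 : ((Real.exp (C * M) + 1 + δ) * D) ^ k * (2 * Real.exp (C * M) * D) ^ (1 - k) ≤
        K * D := by
      have h3 : ((Real.exp (C * M) + 1 + δ) * D) ^ k ≤ (K * D) ^ k := by
        apply Real.rpow_le_rpow (by positivity) _ hk0.le
        gcongr
        rw [hK, hδd]
        linarith
      have h4 : (2 * Real.exp (C * M) * D) ^ (1 - k) ≤ (K * D) ^ (1 - k) := by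
        apply Real.rpow_le_rpow (by positivity) _ (by linarith)
        gcongr
        rw [hK]
        linarith
      have hKD : 0 < K * D := by positivity
      calc _ ≤ (K * D) ^ k * (K * D) ^ (1 - k) := by
            gcongr
        _ = K * D := by rw [← Real.rpow_add hKD, show k + (1 - k) = 1 by ring, Real.rpow_one]
    have h8 := key.trans h2
    have h9 : K * D ≤ (1 - δ) * (2 * K * D) := by
      rw [hδd]
      have : 0 < K * D := by positivity
      linarith
    exact le_of_mul_le_mul_left (h8.trans h9) (by norm_num [hδd])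

end K1
end Pool.Agent.Lib.MP_973905_nt
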