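import Pool.Agent.Lib.MP_973905_nt.K1.Stmts

/-! Exact pairing of zeta with one frequency. -/

namespace Pool.Agent.Lib.MP_973905_nt
namespace K1

open MeasureTheory ProbabilityTheory Complex Filter Topology

namespace ZetaPair

/-- a Gaussian factor which is `1` at the pole -/
noncomputable def q (V τ y : ℝ) (s : ℂ) : ℂ :=
  cexp (((1 - y * I - τ * I) ^ 2 - (s - τ * I) ^ 2) / (4 * V))

lemma q_diff (V τ y : ℝ) : Differentiable ℂ (q V τ y) := by
  unfold q
  fun_prop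

lemma q_pole (V τ y : ℝ) : q V τ y (1 - y * I) = 1 := by simp [q]

lemma norm_q {V τ y : ℝ} (hV : 0 < V) (σ t : ℝ) : ‖q V τ y (σ + t * I)‖ =
    Real.exp ((1 - (τ + y) ^ 2 - σ ^ 2 + (t - τ) ^ 2) / (4 * V)) := by
  rw [q, norm_exp]
  congr 1
  have e : ((1 - y * I - τ * I : ℂ) ^ 2 - (σ + t * I - τ * I) ^ 2) / (4 * V) =
      (((1 - (τ + y) ^ 2 - σ ^ 2 + (t - τ) ^ 2) / (4 * V) : ℝ) : ℂ) +
        (((-2 * (τ + y) - 2 * σ * (t - τ)) / (4 * V) : ℝ) : ℂ) * I := by
    have hI : I ^ 2 = -1 := I_sq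
    have hVc : (V : ℂ) ≠ 0 := by exact_mod_cast hV.ne'
    push_cast
    field_simp
    linear_combination ((τ + y) ^ 2 - (t - τ) ^ 2 : ℂ) * hI
  rw [e, add_re, ofReal_re, re_ofReal_mul, I_re, mul_zero, add_zero]

/-- the entire function to be shifted -/
noncomputable def g (V τ y σ₁ ω : ℝ) (s : ℂ) : ℂ :=
  -(riemannZeta₁ (s + y * I) * dslope (q V τ y) (1 - y * I) s * cexp ((s - σ₁) * ω))

lemma g_eq {V τ y σ₁ ω : ℝ} {s : ℂ} (hs : s ≠ 1 - y * I) : g V τ y σ₁ ω s =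
    riemannZeta (s + y * I) * (1 - q V τ y s) * cexp ((s - σ₁) * ω) := by
  have h1 : s + y * I ≠ 1 := by
    intro h
    apply hs
    linear_combination h
  have h2 : s + y * I - 1 ≠ 0 := sub_ne_zero.mpr h1
  have h3 : s - (1 - y * I) = s + y * I - 1 := by ring
  rw [g, dslope_of_ne _ hs, slope_def_field, q_pole, h3, riemannZeta_eq_inv_sub_mul h1]
  field_simp
  ring

lemma dslope_diff (V τ y : ℝ) : Differentiable ℂ (dslope (q V τ y) (1 - y * I)) := by
  rw [← differentiableOn_univ]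
  exact (differentiableOn_dslope Filter.univ_mem).mpr (q_diff V τ y).differentiableOn

lemma g_diff (V τ y σ₁ ω : ℝ) : Differentiable ℂ (g V τ y σ₁ ω) := by
  unfold g
  have h1 : Differentiable ℂ fun s : ℂ => riemannZeta₁ (s + y * I) :=
    differentiable_riemannZeta₁.comp (by fun_prop)
  exact ((h1.mul (dslope_diff V τ y)).mul (by fun_prop)).neg

lemma one_add_abs_add_le (t y : ℝ) : 1 + |t + y| ≤ (1 + |y|) * (1 + |t|) := by
  have := abs_add_le t y
  nlinarith [abs_nonneg t, abs_nonneg y, mul_nonneg (abs_nonneg t) (abs_nonneg y)]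

lemma g_bound {V : ℝ} (τ y σ₁ ω : ℝ) (hV : 1 ≤ V) (hσ₁ : |σ₁| ≤ 1) : ∃ (C : ℝ) (m : ℕ), ∀ s : ℂ,
    1 / 8 < s.re → s.re < 10 →
    ‖g V τ y σ₁ ω s‖ ≤ C * (1 + |s.im|) ^ m * Real.exp (1 / (4 * V) * (s.im - τ) ^ 2) := by
  obtain ⟨Cz, hCz, hz⟩ := zeta_growth
  obtain ⟨Kb, hKb⟩ := (isCompact_closedBall (1 - y * I : ℂ) 1).exists_bound_of_continuousOn
    (f := dslope (q V τ y) (1 - y * I)) (dslope_diff V τ y).continuous.continuousOn
  have hV0 : 0 < V := by linarith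
  refine ⟨Cz * (1 + |y|) ^ 2 * (|Kb| + 4) * Real.exp (11 * |ω|), 2, fun s h1 h2 => ?_⟩
  set t := s.im with ht
  have hs : s = (s.re : ℂ) + t * I := by rw [ht]; exact (re_add_im s).symm
  have hE : 1 ≤ Real.exp (1 / (4 * V) * (t - τ) ^ 2) := Real.one_le_exp (by positivity)
  have b1 : ‖riemannZeta₁ (s + y * I)‖ ≤ Cz * ((1 + |y|) ^ 2 * (1 + |t|) ^ 2) := by
    have h3 := hz (s + y * I) (by simpa using h1.le) (by simpa using h2.le)
    have h4 : (s + y * I).im = t + y := by simp [ht]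
    rw [h4] at h3
    refine h3.trans ?_
    rw [← mul_pow]
    gcongr
    exact one_add_abs_add_le t y
  have b2 : ‖dslope (q V τ y) (1 - y * I) s‖ ≤
      (|Kb| + 4) * Real.exp (1 / (4 * V) * (t - τ) ^ 2) := by
    by_cases hc : s ∈ Metric.closedBall (1 - y * I : ℂ) 1
    · calc ‖dslope (q V τ y) (1 - y * I) s‖ ≤ Kb := hKb s hc
        _ ≤ |Kb| + 4 := by linarith [le_abs_self Kb]
        _ = (|Kb| + 4) * 1 := by ring
        _ ≤ _ := by gcongr
    · rw [Metric.mem_closedBall, not_le, dist_eq_norm] at hc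
      have hne : s ≠ 1 - y * I := by
        rintro rfl
        simp at hc
        linarith
      rw [dslope_of_ne _ hne, slope_def_field, q_pole, norm_div]
      have h5 : ‖q V τ y s‖ ≤ 3 * Real.exp (1 / (4 * V) * (t - τ) ^ 2) := by
        rw [hs, norm_q hV0]
        have h6 : (1 - (τ + y) ^ 2 - s.re ^ 2 + (t - τ) ^ 2) / (4 * V) ≤
            1 + 1 / (4 * V) * (t - τ) ^ 2 := by
          rw [div_le_iff₀ (by positivity)]
          have e : (1 + 1 / (4 * V) * (t - τ) ^ 2) * (4 * V) = 4 * V + (t - τ) ^ 2 := by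
            field_simp
          rw [e]
          nlinarith [sq_nonneg (τ + y), sq_nonneg s.re]
        calc Real.exp ((1 - (τ + y) ^ 2 - s.re ^ 2 + (t - τ) ^ 2) / (4 * V))
            ≤ Real.exp (1 + 1 / (4 * V) * (t - τ) ^ 2) := Real.exp_le_exp.mpr h6
          _ = Real.exp 1 * Real.exp (1 / (4 * V) * (t - τ) ^ 2) := Real.exp_add _ _
          _ ≤ _ := by
            gcongr
            linarith [Real.exp_one_lt_d9]
      calc ‖q V τ y s - 1‖ / ‖s - (1 - y * I)‖ ≤ ‖q V τ y s - 1‖ := by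
            apply div_le_self (norm_nonneg _) hc.le
        _ ≤ ‖q V τ y s‖ + ‖(1 : ℂ)‖ := norm_sub_le _ _
        _ ≤ 3 * Real.exp (1 / (4 * V) * (t - τ) ^ 2) + Real.exp (1 / (4 * V) * (t - τ) ^ 2) := by
            rw [norm_one]; gcongr
        _ ≤ _ := by nlinarith [abs_nonneg Kb]
  have b3 : ‖cexp ((s - σ₁) * ω)‖ ≤ Real.exp (11 * |ω|) := by
    rw [norm_exp]
    apply Real.exp_le_exp.mpr
    have e : ((s - σ₁) * ω).re = (s.re - σ₁) * ω := by simp
    rw [e]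
    calc (s.re - σ₁) * ω ≤ |(s.re - σ₁) * ω| := le_abs_self _
      _ = |s.re - σ₁| * |ω| := abs_mul _ _
      _ ≤ 11 * |ω| := by
        gcongr
        rw [abs_le] at hσ₁ ⊢
        constructor <;> linarith [hσ₁.1, hσ₁.2]
  rw [g, norm_neg, norm_mul, norm_mul]
  calc ‖riemannZeta₁ (s + y * I)‖ * ‖dslope (q V τ y) (1 - y * I) s‖ * ‖cexp ((s - σ₁) * ω)‖
      ≤ (Cz * ((1 + |y|) ^ 2 * (1 + |t|) ^ 2)) *
        ((|Kb| + 4) * Real.exp (1 / (4 * V) * (t - τ) ^ 2)) * Real.exp (11 * |ω|) := by gcongr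
    _ = _ := by ring

/-! ### the error terms -/

lemma pdf_mul {τ t : ℝ} {v : NNReal} (hv : v ≠ 0) :
    gaussianPDFReal τ v t * Real.exp ((t - τ) ^ 2 / (4 * v)) =
      √2 * gaussianPDFReal τ (2 * v) t := by
  have hv' : (0 : ℝ) < v := by positivity
  rw [gaussianPDFReal, gaussianPDFReal, mul_assoc, ← Real.exp_add]
  have e1 : -(t - τ) ^ 2 / (2 * (v : ℝ)) + (t - τ) ^ 2 / (4 * v) =
      -(t - τ) ^ 2 / (2 * ((2 * v : NNReal) : ℝ)) := by
    push_cast
    field_simp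
    ring
  rw [e1, ← mul_assoc]
  congr 1
  have e2 : √(2 * Real.pi * ((2 * v : NNReal) : ℝ)) = √2 * √(2 * Real.pi * v) := by
    rw [← Real.sqrt_mul (by norm_num)]
    congr 1
    push_cast
    ring
  rw [e2]
  have h1 : √2 ≠ 0 := by positivity
  have h2 : √(2 * Real.pi * v) ≠ 0 := by positivity
  field_simp

lemma integrable_quad (τ : ℝ) {v : NNReal} (hv : v ≠ 0) :
    Integrable (fun t : ℝ => (1 + |t|) ^ 2 * Real.exp ((t - τ) ^ 2 / (4 * v)))
      (gaussianReal τ v) := by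
  rw [gaussianReal_of_var_ne_zero _ hv]
  rw [integrable_withDensity_iff (measurable_gaussianPDF τ v)
    (ae_of_all _ fun x => gaussianPDF_lt_top)]
  simp_rw [toReal_gaussianPDF]
  have h2v : (2 * v : NNReal) ≠ 0 := by positivity
  have h1 := integrable_one_add_abs_pow τ (2 * v) 2
  rw [gaussianReal_of_var_ne_zero _ h2v] at h1
  rw [integrable_withDensity_iff (measurable_gaussianPDF τ (2 * v))
    (ae_of_all _ fun x => gaussianPDF_lt_top)] at h1
  simp_rw [toReal_gaussianPDF] at h1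
  refine (h1.const_mul √2).congr (ae_of_all _ fun t => ?_)
  have := pdf_mul (τ := τ) (t := t) hv
  simp only
  linear_combination -(1 + |t|) ^ 2 * this

lemma integral_quad (τ : ℝ) {v : NNReal} (hv : v ≠ 0) :
    ∫ t : ℝ, (1 + |t|) ^ 2 * Real.exp ((t - τ) ^ 2 / (4 * v)) ∂(gaussianReal τ v) =
      √2 * ∫ t : ℝ, (1 + |t|) ^ 2 ∂(gaussianReal τ (2 * v)) := by
  have h2v : (2 * v : NNReal) ≠ 0 := by positivity
  rw [integral_gaussianReal_eq_integral_smul hv, integral_gaussianReal_eq_integral_smul h2v,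
    ← integral_const_mul]
  congr 1
  ext t
  have := pdf_mul (τ := τ) (t := t) hv
  simp only [smul_eq_mul]
  linear_combination (1 + |t|) ^ 2 * this

lemma poly_mean {T τ : ℝ} (hT : 1 ≤ T) (hτ : |τ| ≤ 3 / 2 * T) :
    ∫ t : ℝ, (1 + |t|) ^ 2 ∂(gaussianReal τ (2 * VV T)) ≤ 300 * T ^ 2 := by
  have hT0 : 0 < T := by linarith
  have h1 : ∀ t : ℝ, (1 + |t|) ^ 2 ≤ 2 * Real.exp 1 * T ^ 2 * Real.exp (T⁻¹ * |t|) := by
    intro t
    have h2 := Real.pow_div_factorial_le_exp (T⁻¹ * (1 + |t|)) (by positivity) 2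
    rw [div_le_iff₀ (by positivity), mul_pow] at h2
    have h3 : Real.exp (T⁻¹ * (1 + |t|)) ≤ Real.exp 1 * Real.exp (T⁻¹ * |t|) := by
      rw [← Real.exp_add]
      apply Real.exp_le_exp.mpr
      have : T⁻¹ ≤ 1 := inv_le_one_of_one_le₀ hT
      nlinarith [abs_nonneg t]
    have h4 := mul_le_mul_of_nonneg_left h2 (show 0 ≤ T ^ 2 by positivity)
    rw [← mul_assoc, ← mul_pow, mul_inv_cancel₀ hT0.ne', one_pow, one_mul] at h4
    have h5 : (Nat.factorial 2 : ℝ) = 2 := by norm_num [Nat.factorial]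
    rw [h5] at h4
    nlinarith [mul_le_mul_of_nonneg_left h3 (show 0 ≤ T ^ 2 * 2 by positivity)]
  have hint : Integrable (fun t : ℝ => Real.exp (T⁻¹ * |t|)) (gaussianReal τ (2 * VV T)) := by
    refine ((integrable_exp_mul_gaussianReal T⁻¹).add
      (integrable_exp_mul_gaussianReal (-T⁻¹))).mono' (by fun_prop)
      (Filter.Eventually.of_forall fun t => ?_)
    rw [Real.norm_eq_abs, abs_of_pos (Real.exp_pos _)]
    simp only [Pi.add_apply]
    rcases abs_cases t with ⟨h, _⟩ | ⟨h, _⟩ <;> rw [h]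
    · linarith [Real.exp_pos (-T⁻¹ * t)]
    · rw [mul_neg, neg_mul]; linarith [Real.exp_pos (T⁻¹ * t)]
  have h6 := integral_exp_abs_le τ (2 * VV T) (l := T⁻¹) (by positivity)
  have h7 : T⁻¹ * |τ| + ((2 * VV T : NNReal) : ℝ) * T⁻¹ ^ 2 / 2 ≤ 5 / 2 := by
    have h8 : T⁻¹ * |τ| ≤ 3 / 2 := by
      rw [inv_mul_le_iff₀ hT0]; linarith
    have h9 : ((2 * VV T : NNReal) : ℝ) * T⁻¹ ^ 2 / 2 ≤ 1 := by
      push_cast
      rw [VV_coe hT0.le]
      have h10 : T ^ (19 / 10 : ℝ) ≤ T ^ 2 := by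
        rw [← Real.rpow_natCast]
        exact Real.rpow_le_rpow_of_exponent_le hT (by norm_num)
      calc 2 * T ^ (19 / 10 : ℝ) * T⁻¹ ^ 2 / 2 ≤ 2 * T ^ 2 * T⁻¹ ^ 2 / 2 := by gcongr
        _ = 1 := by field_simp
    linarith
  have h8 : Real.exp (5 / 2) ≤ 16 := by
    have e : Real.exp (5 / 2) = Real.exp 1 ^ 2 * Real.exp (1 / 2) := by
      rw [← Real.exp_nat_mul, ← Real.exp_add]; norm_num
    have h9 : Real.exp (1 / 2) ^ 2 = Real.exp 1 := by
      rw [← Real.exp_nat_mul]; norm_num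
    have h10 := Real.exp_one_lt_d9
    have h11 := Real.exp_pos (1 / 2)
    have h12 := Real.exp_pos 1
    have h13 : Real.exp (1 / 2) ≤ 2 := by nlinarith
    rw [e]
    calc Real.exp 1 ^ 2 * Real.exp (1 / 2) ≤ 2.7182818286 ^ 2 * 2 := by gcongr
      _ ≤ 16 := by norm_num
  calc ∫ t : ℝ, (1 + |t|) ^ 2 ∂(gaussianReal τ (2 * VV T))
      ≤ ∫ t : ℝ, 2 * Real.exp 1 * T ^ 2 * Real.exp (T⁻¹ * |t|) ∂(gaussianReal τ (2 * VV T)) := by
        apply integral_mono (integrable_one_add_abs_pow _ _ _) (hint.const_mul _)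
        exact h1
    _ = 2 * Real.exp 1 * T ^ 2 * ∫ t : ℝ, Real.exp (T⁻¹ * |t|) ∂(gaussianReal τ (2 * VV T)) := by
        rw [integral_const_mul]
    _ ≤ 2 * 2.7182818286 * T ^ 2 * (2 * 16) := by
        gcongr
        · exact Real.exp_one_lt_d9.le
        · refine h6.trans ?_
          gcongr
          exact (Real.exp_le_exp.mpr h7).trans h8
    _ ≤ _ := by nlinarith [sq_nonneg T]

lemma err {T τ E K : ℝ} (hT : 1 ≤ T) (hτ : |τ| ≤ 3 / 2 * T) (hK : 0 ≤ K) {F : ℝ → ℂ}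
    (h : ∀ t, ‖F t‖ ≤ K * (1 + |t|) ^ 2 * Real.exp (-E + (t - τ) ^ 2 / (4 * (VV T : ℝ)))) :
    ‖EG T τ F‖ ≤ K * Real.exp (-E) * (600 * T ^ 2) := by
  have hT0 : 0 < T := by linarith
  have hV : VV T ≠ 0 := by
    intro h0
    have h1 := VV_coe hT0.le
    rw [h0] at h1
    have := Real.rpow_pos_of_pos hT0 (19 / 10)
    simp at h1
    linarith
  have h1 : ∀ t, ‖F t‖ ≤ (K * Real.exp (-E)) *
      ((1 + |t|) ^ 2 * Real.exp ((t - τ) ^ 2 / (4 * (VV T : ℝ)))) := by
    intro t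
    refine (h t).trans (le_of_eq ?_)
    rw [Real.exp_add]
    ring
  unfold EG
  refine (norm_integral_le_of_norm_le ((integrable_quad τ hV).const_mul _)
    (Eventually.of_forall h1)).trans ?_
  rw [integral_const_mul, integral_quad τ hV]
  have h2 := poly_mean hT hτ
  have h3 : √2 ≤ 2 := by
    rw [Real.sqrt_le_left (by norm_num)]; norm_num
  have h4 : 0 ≤ ∫ t : ℝ, (1 + |t|) ^ 2 ∂(gaussianReal τ (2 * VV T)) :=
    integral_nonneg fun t => by positivity
  calc K * Real.exp (-E) * (√2 * ∫ t : ℝ, (1 + |t|) ^ 2 ∂(gaussianReal τ (2 * VV T)))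
      ≤ K * Real.exp (-E) * (2 * (300 * T ^ 2)) := by gcongr
    _ = _ := by ring

/-- zeta away from the pole -/
lemma zeta_le {C : ℝ} (hC0 : 0 < C) (hC : ∀ s : ℂ, 1 / 8 ≤ s.re → s.re ≤ 10 →
    ‖riemannZeta₁ s‖ ≤ C * (1 + |s.im|) ^ 2) {σ y t : ℝ} (h1 : 1 / 8 ≤ σ) (h2 : σ ≤ 10)
    (h3 : 1 / 4 ≤ |σ - 1|) :
    ‖riemannZeta (σ + t * I + y * I)‖ ≤ 4 * C * (1 + |y|) ^ 2 * (1 + |t|) ^ 2 := by
  set w : ℂ := σ + t * I + y * I with hw
  have e1 : w.re = σ := by simp [hw]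
  have e2 : w.im = t + y := by simp [hw]
  have h4 : 1 / 4 ≤ ‖w - 1‖ := by
    have := abs_re_le_norm (w - 1)
    rw [sub_re, e1, one_re] at this
    linarith
  have h5 : w ≠ 1 := by
    intro h
    rw [h, sub_self, norm_zero] at h4
    linarith
  rw [riemannZeta_eq_inv_sub_mul h5, norm_mul, norm_inv]
  have h6 := hC w (by rw [e1]; exact h1) (by rw [e1]; exact h2)
  rw [e2] at h6
  have h7 : ‖w - 1‖⁻¹ ≤ 4 := by
    rw [inv_le_comm₀ (by linarith) (by norm_num)]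
    linarith
  have h8 := one_add_abs_add_le t y
  calc ‖w - 1‖⁻¹ * ‖riemannZeta₁ w‖ ≤ 4 * (C * (1 + |t + y|) ^ 2) := by gcongr
    _ ≤ 4 * (C * ((1 + |y|) * (1 + |t|)) ^ 2) := by gcongr
    _ = _ := by ring

lemma freq_gap {v b : ℕ} {X : ℝ} (hv : 1 ≤ v) (hb : 1 ≤ b) (hvX : (v : ℝ) ≤ X) (h : v ≠ b) :
    1 / (2 * X) ≤ |Real.log v - Real.log b| := by
  have hv0 : (0 : ℝ) < v := by exact_mod_cast hv
  have hb0 : (0 : ℝ) < b := by exact_mod_cast hb
  have hv1 : (1 : ℝ) ≤ v := by exact_mod_cast hv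
  have hX : 1 ≤ X := hv1.trans hvX
  by_cases hb2 : (b : ℝ) ≤ 2 * X
  · exact abs_log_sub_log_ge hv hb (by linarith) hb2 h
  · push Not at hb2
    rw [abs_sub_comm]
    refine le_trans ?_ (le_abs_self _)
    rw [← Real.log_div hb0.ne' hv0.ne']
    have h1 : 2 ≤ (b : ℝ) / v := by
      rw [le_div_iff₀ hv0]; linarith
    have h2 : Real.log 2 ≤ Real.log (b / v) := Real.log_le_log (by norm_num) h1
    have h3 := Real.log_two_gt_d9
    have h4 : 1 / (2 * X) ≤ 1 / 2 := by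
      apply one_div_le_one_div_of_le <;> linarith
    linarith

/-- the `n`-th term on the line `Re s = 9` -/
noncomputable def term (τ y σ₁ ω l : ℝ) (N : ℕ) (t : ℝ) : ℂ :=
  1 / (N : ℂ) ^ ((9 : ℂ) + t * I + y * I) * cexp (((9 : ℂ) + t * I - σ₁) * ω) *
    cexp ((l * (t - τ) : ℝ) * I)

lemma term_eq (τ y σ₁ ω l : ℝ) {N : ℕ} (hN : 1 ≤ N) (t : ℝ) : term τ y σ₁ ω l N t =
    cexp (-(Real.log N) * (9 + y * I) + (9 - σ₁) * ω - l * τ * I) *
      cexp ((ω - Real.log N + l : ℝ) * t * I) := by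
  have hN0 : (N : ℂ) ≠ 0 := by
    have : N ≠ 0 := by omega
    exact_mod_cast this
  rw [term, cpow_def_of_ne_zero hN0, one_div, ← Complex.exp_neg, ← Complex.exp_add,
    ← Complex.exp_add, ← Complex.exp_add, ← natCast_log]
  congr 1
  push_cast
  ring

lemma integral_term (τ y σ₁ ω l : ℝ) (v : NNReal) {N : ℕ} (hN : 1 ≤ N) :
    ∫ t, term τ y σ₁ ω l N t ∂(gaussianReal τ v) =
      cexp (-(Real.log N) * (9 + y * I) + (9 - σ₁) * ω - l * τ * I) *
        cexp ((ω - Real.log N + l : ℝ) * τ * I - v * (ω - Real.log N + l : ℝ) ^ 2 / 2) := by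
  simp_rw [term_eq τ y σ₁ ω l hN]
  rw [integral_const_mul]
  congr 1
  have h := charFun_gaussianReal (μ := τ) (v := v) (ω - Real.log N + l)
  rw [charFun_apply_real] at h
  exact h

lemma norm_term (τ y σ₁ ω l : ℝ) {N : ℕ} (hN : 1 ≤ N) (t : ℝ) :
    ‖term τ y σ₁ ω l N t‖ = Real.exp ((9 - σ₁) * ω) * (1 / (N : ℝ) ^ 9) := by
  have hN0 : (0 : ℝ) < N := by exact_mod_cast hN
  rw [term_eq τ y σ₁ ω l hN, norm_mul, norm_exp, norm_exp]
  have e1 : (-(Real.log N : ℂ) * (9 + y * I) + (9 - σ₁) * ω - l * τ * I).re =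
      -9 * Real.log N + (9 - σ₁) * ω := by
    rw [show (-(Real.log N : ℂ) * (9 + y * I) + (9 - σ₁) * ω - l * τ * I) =
      ((-9 * Real.log N + (9 - σ₁) * ω : ℝ) : ℂ) + ((-(Real.log N) * y - l * τ : ℝ) : ℂ) * I by
        push_cast; ring]
    rw [add_re, ofReal_re, re_ofReal_mul, I_re, mul_zero, add_zero]
  have e2 : (((ω - Real.log N + l : ℝ) : ℂ) * t * I).re = 0 := by
    rw [show (((ω - Real.log N + l : ℝ) : ℂ) * t * I) = (((ω - Real.log N + l) * t : ℝ) : ℂ) * I by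
      push_cast; ring]
    rw [re_ofReal_mul, I_re, mul_zero]
  rw [e1, e2, Real.exp_zero, mul_one, add_comm, Real.exp_add]
  congr 1
  rw [neg_mul, Real.exp_neg, one_div]
  congr 1
  rw [show (9 : ℝ) * Real.log N = ((9 : ℕ) : ℝ) * Real.log N by norm_num, Real.exp_nat_mul,
    Real.exp_log hN0]

lemma norm_integral_term (τ y σ₁ ω l : ℝ) (v : NNReal) {N : ℕ} (hN : 1 ≤ N) :
    ‖∫ t, term τ y σ₁ ω l N t ∂(gaussianReal τ v)‖ =
      Real.exp ((9 - σ₁) * ω) * (1 / (N : ℝ) ^ 9) *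
        Real.exp (-(v * (ω - Real.log N + l) ^ 2 / 2)) := by
  have hN0 : (0 : ℝ) < N := by exact_mod_cast hN
  rw [integral_term τ y σ₁ ω l v hN, norm_mul, norm_exp, norm_exp]
  have e1 : (-(Real.log N : ℂ) * (9 + y * I) + (9 - σ₁) * ω - l * τ * I).re =
      -9 * Real.log N + (9 - σ₁) * ω := by
    rw [show (-(Real.log N : ℂ) * (9 + y * I) + (9 - σ₁) * ω - l * τ * I) =
      ((-9 * Real.log N + (9 - σ₁) * ω : ℝ) : ℂ) + ((-(Real.log N) * y - l * τ : ℝ) : ℂ) * I by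
        push_cast; ring]
    rw [add_re, ofReal_re, re_ofReal_mul, I_re, mul_zero, add_zero]
  have e2 : (((ω - Real.log N + l : ℝ) : ℂ) * τ * I - v * ((ω - Real.log N + l : ℝ) : ℂ) ^ 2 / 2).re =
      -(v * (ω - Real.log N + l) ^ 2 / 2) := by
    rw [show (((ω - Real.log N + l : ℝ) : ℂ) * τ * I - v * ((ω - Real.log N + l : ℝ) : ℂ) ^ 2 / 2) =
      ((-(v * (ω - Real.log N + l) ^ 2 / 2) : ℝ) : ℂ) + (((ω - Real.log N + l) * τ : ℝ) : ℂ) * I by
        push_cast; ring]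
    rw [add_re, ofReal_re, re_ofReal_mul, I_re, mul_zero, add_zero]
  rw [e1, e2]
  congr 1
  rw [add_comm, Real.exp_add]
  congr 1
  rw [neg_mul, Real.exp_neg, one_div]
  congr 1
  rw [show (9 : ℝ) * Real.log N = ((9 : ℕ) : ℝ) * Real.log N by norm_num, Real.exp_nat_mul,
    Real.exp_log hN0]

lemma continuous_term (τ y σ₁ ω l : ℝ) {N : ℕ} (hN : 1 ≤ N) :
    Continuous (term τ y σ₁ ω l N) := by
  rw [show term τ y σ₁ ω l N = fun t : ℝ =>
    cexp (-(Real.log N) * (9 + y * I) + (9 - σ₁) * ω - l * τ * I) *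
      cexp ((ω - Real.log N + l : ℝ) * t * I) from funext (term_eq τ y σ₁ ω l hN)]
  fun_prop

lemma hasSum_term (τ y σ₁ ω l : ℝ) (v : NNReal) :
    HasSum (fun n : ℕ => ∫ t, term τ y σ₁ ω l (n + 1) t ∂(gaussianReal τ v))
      (∫ t : ℝ, riemannZeta ((9 : ℂ) + t * I + y * I) * cexp (((9 : ℂ) + t * I - σ₁) * ω) *
        cexp ((l * (t - τ) : ℝ) * I) ∂(gaussianReal τ v)) := by
  have h1 : ∀ t : ℝ, ∑' n : ℕ, term τ y σ₁ ω l (n + 1) t =
      riemannZeta ((9 : ℂ) + t * I + y * I) * cexp (((9 : ℂ) + t * I - σ₁) * ω) *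
        cexp ((l * (t - τ) : ℝ) * I) := by
    intro t
    rw [zeta_eq_tsum_one_div_nat_add_one_cpow (by simp)]
    rw [← tsum_mul_right, ← tsum_mul_right]
    congr 1
    ext n
    simp only [term]
    push_cast
    rfl
  have hs : Summable fun n : ℕ => Real.exp ((9 - σ₁) * ω) * (1 / ((n + 1 : ℕ) : ℝ) ^ 9) := by
    apply Summable.mul_left
    exact (summable_nat_add_iff 1).mpr (Real.summable_one_div_nat_pow.mpr (by norm_num))
  have h2 : ∀ n : ℕ, Integrable (term τ y σ₁ ω l (n + 1)) (gaussianReal τ v) := by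
    intro n
    refine Integrable.of_bound (continuous_term τ y σ₁ ω l (by omega)).aestronglyMeasurable
      (Real.exp ((9 - σ₁) * ω) * (1 / ((n + 1 : ℕ) : ℝ) ^ 9)) (Eventually.of_forall fun t => ?_)
    rw [norm_term τ y σ₁ ω l (by omega)]
  have h3 : Summable fun n : ℕ => ∫ t, ‖term τ y σ₁ ω l (n + 1) t‖ ∂(gaussianReal τ v) := by
    refine hs.congr fun n => ?_
    simp_rw [norm_term τ y σ₁ ω l (show 1 ≤ n + 1 by omega)]
    simp
  have h4 := hasSum_integral_of_summable_integral_norm h2 h3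
  simp_rw [h1] at h4
  exact h4

/-- the diagonal term -/
noncomputable def dl (y σ₁ : ℝ) (u v n : ℕ) : ℂ :=
  if u * (n + 1) = v then ((n + 1 : ℕ) : ℂ) ^ (-((σ₁ : ℂ) + y * I)) else 0

lemma hasSum_dl (y σ₁ : ℝ) {u v : ℕ} (hu : 1 ≤ u) (hv : 1 ≤ v) :
    HasSum (dl y σ₁ u v) (if u ∣ v then ((v / u : ℕ) : ℂ) ^ (-((σ₁ : ℂ) + y * I)) else 0) := by
  by_cases h : u ∣ v
  · rw [if_pos h]
    obtain ⟨k, hk⟩ := h
    have hk1 : 1 ≤ k := by
      rcases Nat.eq_zero_or_pos k with h0 | h0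
      · subst h0; omega
      · exact h0
    have hvk : v / u = k := by rw [hk, Nat.mul_div_cancel_left _ (by omega)]
    have e : dl y σ₁ u v (k - 1) = ((v / u : ℕ) : ℂ) ^ (-((σ₁ : ℂ) + y * I)) := by
      rw [dl, Nat.sub_add_cancel hk1, if_pos hk.symm, hvk]
    rw [← e]
    apply hasSum_single
    intro n hn
    rw [dl, if_neg]
    intro h2
    apply hn
    rw [hk] at h2
    have := Nat.eq_of_mul_eq_mul_left (by omega) h2
    omega
  · rw [if_neg h]
    have e : dl y σ₁ u v = fun _ => 0 := by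
      ext n
      rw [dl, if_neg]
      intro h2
      exact h ⟨n + 1, h2.symm⟩
    rw [e]
    exact hasSum_zero

lemma term_bound {τ y σ₁ T : ℝ} (hT : 36 ≤ T) (h1 : 1 / 2 ≤ σ₁) (h2 : σ₁ ≤ 3 / 4) {u v : ℕ}
    (hu : 1 ≤ u) (hv : 1 ≤ v) (hvX : (v : ℝ) ≤ T ^ (9 / 10 : ℝ)) (n : ℕ) :
    ‖(Real.exp ((9 - σ₁) ^ 2 / (2 * (VV T : ℝ))) : ℂ) *
      (∫ t, term τ y σ₁ (Real.log v - Real.log u) ((9 - σ₁) / (VV T : ℝ)) (n + 1) t
        ∂(gaussianReal τ (VV T))) - dl y σ₁ u v n‖ ≤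
      3 * T ^ 9 * Real.exp (-(T ^ (1 / 10 : ℝ) / 32)) * (1 / ((n + 1 : ℕ) : ℝ) ^ 9) := by
  have hT0 : 0 < T := by linarith
  have hVe := VV_coe hT0.le
  set V : ℝ := (VV T : ℝ) with hVdef
  set X : ℝ := T ^ (9 / 10 : ℝ) with hX
  have hX1 : 1 ≤ X := Real.one_le_rpow (by linarith) (by norm_num)
  have hVX : V = T * X := by
    rw [hVe, hX]
    nth_rewrite 2 [← Real.rpow_one T]
    rw [← Real.rpow_add hT0]
    norm_num
  have hV0 : 0 < V := by rw [hVX]; positivity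
  have hXT : X ≤ T := by
    calc X ≤ T ^ (1 : ℝ) := Real.rpow_le_rpow_of_exponent_le (by linarith) (by norm_num)
      _ = T := Real.rpow_one T
  have hN1 : 1 ≤ n + 1 := by omega
  by_cases hd : u * (n + 1) = v
  · -- diagonal
    have hlog : Real.log v - Real.log u = Real.log ((n + 1 : ℕ) : ℝ) := by
      rw [← hd]
      push_cast
      rw [Real.log_mul (by positivity) (by positivity)]
      ring
    have hz : (Real.exp ((9 - σ₁) ^ 2 / (2 * V)) : ℂ) *
        (∫ t, term τ y σ₁ (Real.log v - Real.log u) ((9 - σ₁) / V) (n + 1) t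
        ∂(gaussianReal τ (VV T))) - dl y σ₁ u v n = 0 := by
      rw [integral_term τ y σ₁ _ _ _ hN1, dl, if_pos hd, hlog, sub_eq_zero]
      have hne : ((n + 1 : ℕ) : ℂ) ≠ 0 := by exact_mod_cast Nat.succ_ne_zero n
      rw [cpow_def_of_ne_zero hne, ofReal_exp, ← Complex.exp_add, ← Complex.exp_add,
        ← natCast_log]
      congr 1
      rw [← hVdef]
      have hVc : (V : ℂ) ≠ 0 := by exact_mod_cast hV0.ne'
      have e3 : ((VV T : NNReal) : ℂ) = (V : ℂ) := by rw [hVdef]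
      rw [sub_self, zero_add]
      set L := Real.log ((n + 1 : ℕ) : ℝ)
      push_cast
      rw [e3]
      field_simp
      ring
    rw [hz, norm_zero]
    positivity
  · rw [dl, if_neg hd, sub_zero, norm_mul, norm_integral_term τ y σ₁ _ _ _ hN1, norm_real,
      Real.norm_eq_abs, abs_of_pos (Real.exp_pos _)]
    have hu0 : (0 : ℝ) < u := by exact_mod_cast hu
    have hv0 : (0 : ℝ) < v := by exact_mod_cast hv
    have hlu : 0 ≤ Real.log u := Real.log_nonneg (by exact_mod_cast hu)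
    have hlv : 0 ≤ Real.log v := Real.log_nonneg (by exact_mod_cast hv)
    have e1 : Real.exp ((9 - σ₁) ^ 2 / (2 * V)) ≤ 3 := by
      have h5 : (9 - σ₁) ^ 2 / (2 * V) ≤ 1 := by
        rw [div_le_one (by positivity)]
        have h6 : (9 - σ₁) ^ 2 ≤ 72.25 := by nlinarith
        have h7 : 36 * 1 ≤ T * X := by gcongr
        have h8 : 6 ≤ X := by
          have h9 : X = (T ^ (1 / 2 : ℝ)) * T ^ (2 / 5 : ℝ) := by
            rw [hX, ← Real.rpow_add hT0]; norm_num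
          have h10 : (6 : ℝ) ≤ T ^ (1 / 2 : ℝ) := by
            rw [← Real.sqrt_eq_rpow]
            apply Real.le_sqrt_of_sq_le
            linarith
          have h11 : 1 ≤ T ^ (2 / 5 : ℝ) := Real.one_le_rpow (by linarith) (by norm_num)
          rw [h9]
          nlinarith
        rw [hVX]
        nlinarith
      calc Real.exp ((9 - σ₁) ^ 2 / (2 * V)) ≤ Real.exp 1 := Real.exp_le_exp.mpr h5
        _ ≤ 3 := by linarith [Real.exp_one_lt_d9]
    have e2 : Real.exp ((9 - σ₁) * (Real.log v - Real.log u)) ≤ T ^ 9 := by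
      have h5 : (9 - σ₁) * (Real.log v - Real.log u) ≤ ((9 : ℕ) : ℝ) * Real.log v := by
        have h6 : (9 - σ₁) * (Real.log v - Real.log u) ≤ (9 - σ₁) * Real.log v := by
          apply mul_le_mul_of_nonneg_left _ (by linarith)
          linarith
        have h7 : (9 - σ₁) * Real.log v ≤ ((9 : ℕ) : ℝ) * Real.log v := by
          apply mul_le_mul_of_nonneg_right _ hlv
          push_cast
          linarith
        linarith
      calc Real.exp ((9 - σ₁) * (Real.log v - Real.log u)) ≤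
            Real.exp (((9 : ℕ) : ℝ) * Real.log v) := Real.exp_le_exp.mpr h5
        _ = (v : ℝ) ^ 9 := by rw [Real.exp_nat_mul, Real.exp_log hv0]
        _ ≤ T ^ 9 := by
          gcongr
          linarith
    have e3 : Real.exp (-(V * (Real.log v - Real.log u - Real.log ((n + 1 : ℕ) : ℝ) +
        (9 - σ₁) / V) ^ 2 / 2)) ≤ Real.exp (-(T ^ (1 / 10 : ℝ) / 32)) := by
      apply Real.exp_le_exp.mpr
      rw [neg_le_neg_iff]
      have hb : 1 ≤ u * (n + 1) := Nat.mul_pos hu hN1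
      have h5 := freq_gap hv hb hvX (Ne.symm hd)
      have h6 : Real.log v - Real.log u - Real.log ((n + 1 : ℕ) : ℝ) =
          Real.log v - Real.log ((u * (n + 1) : ℕ) : ℝ) := by
        push_cast
        rw [Real.log_mul (by positivity) (by positivity)]
        ring
      rw [h6]
      set ν := Real.log v - Real.log ((u * (n + 1) : ℕ) : ℝ) with hν
      have h7 : (9 - σ₁) / V ≤ 1 / (4 * X) := by
        rw [hVX, div_le_div_iff₀ (by positivity) (by positivity)]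
        nlinarith
      have h7' : 0 ≤ (9 - σ₁) / V := div_nonneg (by linarith) hV0.le
      have h8 : 1 / (4 * X) ≤ |ν + (9 - σ₁) / V| := by
        have h9 : |ν| ≤ |ν + (9 - σ₁) / V| + |(9 - σ₁) / V| := by
          have := abs_sub (ν + (9 - σ₁) / V) ((9 - σ₁) / V)
          simpa using this
        rw [abs_of_nonneg h7'] at h9
        have h10 : 1 / (2 * X) = 1 / (4 * X) + 1 / (4 * X) := by ring
        linarith
      have h9 : (1 / (4 * X)) ^ 2 ≤ (ν + (9 - σ₁) / V) ^ 2 := by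
        rw [← sq_abs (ν + (9 - σ₁) / V)]
        exact pow_le_pow_left₀ (by positivity) h8 2
      have h10 : T ^ (1 / 10 : ℝ) = T / X := by
        rw [hX, eq_div_iff (by positivity), ← Real.rpow_add hT0]
        norm_num
      calc T ^ (1 / 10 : ℝ) / 32 = V * (1 / (4 * X)) ^ 2 / 2 := by
            rw [h10, hVX]
            field_simp
            norm_num
        _ ≤ V * (ν + (9 - σ₁) / V) ^ 2 / 2 := by gcongr
    calc Real.exp ((9 - σ₁) ^ 2 / (2 * V)) * (Real.exp ((9 - σ₁) * (Real.log v - Real.log u)) *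
          (1 / ((n + 1 : ℕ) : ℝ) ^ 9) *
          Real.exp (-(V * (Real.log v - Real.log u - Real.log ((n + 1 : ℕ) : ℝ) +
            (9 - σ₁) / V) ^ 2 / 2)))
        ≤ 3 * (T ^ 9 * (1 / ((n + 1 : ℕ) : ℝ) ^ 9) * Real.exp (-(T ^ (1 / 10 : ℝ) / 32))) := by
          gcongr
      _ = _ := by ring

lemma sum_part {τ y σ₁ T : ℝ} (hT : 36 ≤ T) (h1 : 1 / 2 ≤ σ₁) (h2 : σ₁ ≤ 3 / 4) {u v : ℕ}
    (hu : 1 ≤ u) (hv : 1 ≤ v) (hvX : (v : ℝ) ≤ T ^ (9 / 10 : ℝ)) :
    ‖(Real.exp ((9 - σ₁) ^ 2 / (2 * (VV T : ℝ))) : ℂ) *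
      (∫ t : ℝ, riemannZeta ((9 : ℂ) + t * I + y * I) *
        cexp (((9 : ℂ) + t * I - σ₁) * (Real.log v - Real.log u : ℝ)) *
        cexp (((9 - σ₁) / (VV T : ℝ) * (t - τ) : ℝ) * I) ∂(gaussianReal τ (VV T))) -
        (if u ∣ v then ((v / u : ℕ) : ℂ) ^ (-((σ₁ : ℂ) + y * I)) else 0)‖ ≤
      3 * T ^ 9 * Real.exp (-(T ^ (1 / 10 : ℝ) / 32)) * ∑' n : ℕ, (1 / ((n + 1 : ℕ) : ℝ) ^ 9) := by
  have hs : Summable fun n : ℕ => (1 / ((n + 1 : ℕ) : ℝ) ^ 9) :=
    (summable_nat_add_iff 1).mpr (Real.summable_one_div_nat_pow.mpr (by norm_num))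
  have h3 := ((hasSum_term τ y σ₁ (Real.log v - Real.log u) ((9 - σ₁) / (VV T : ℝ)) (VV T)).mul_left
    (Real.exp ((9 - σ₁) ^ 2 / (2 * (VV T : ℝ))) : ℂ)).sub (hasSum_dl y σ₁ hu hv)
  exact h3.norm_le_of_bounded (hs.hasSum.mul_left _) fun n => term_bound hT h1 h2 hu hv hvX n

lemma cont_zeta_line {σ : ℝ} (y : ℝ) (hσ : σ ≠ 1) :
    Continuous fun t : ℝ => riemannZeta (σ + t * I + y * I) := by
  rw [continuous_iff_continuousAt]
  intro t
  have hne : (σ + t * I + y * I : ℂ) ≠ 1 := by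
    intro h
    have := congrArg Complex.re h
    simp at this
    exact hσ this
  have h1 : ContinuousAt (fun t : ℝ => (σ + t * I + y * I : ℂ)) t := by fun_prop
  exact ContinuousAt.comp (f := fun t : ℝ => (σ + t * I + y * I : ℂ)) (g := riemannZeta)
    (differentiableAt_riemannZeta hne).continuousAt h1

/-! ### the final estimate -/

lemma ev (K : ℝ) (m : ℕ) : ∀ᶠ T : ℝ in atTop,
    K * T ^ m * Real.exp (-(T ^ (1 / 10 : ℝ) / (32 * (Real.log T) ^ 2))) ≤ T ^ (-20 : ℝ) := by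
  have h1 : Tendsto (fun T : ℝ => T ^ (1 / 100 : ℝ)) atTop atTop :=
    tendsto_rpow_atTop (by norm_num)
  have h2 : ∀ᶠ w : ℝ in atTop, (|K| + 1) * w ^ (100 * m + 2000) ≤ Real.exp w := by
    have := (Real.isLittleO_pow_exp_atTop (n := 100 * m + 2000)).def
      (c := (|K| + 1)⁻¹) (by positivity)
    filter_upwards [this, eventually_ge_atTop 0] with w hw hw0
    rw [Real.norm_eq_abs, Real.norm_eq_abs, abs_of_nonneg (by positivity),
      abs_of_pos (Real.exp_pos _)] at hw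
    have h3 := mul_le_mul_of_nonneg_left hw (show 0 ≤ |K| + 1 by positivity)
    rwa [← mul_assoc, mul_inv_cancel₀ (by positivity), one_mul] at h3
  have h3 : ∀ᶠ T : ℝ in atTop, Real.log T ≤ T ^ (1 / 50 : ℝ) := by
    have := (isLittleO_log_rpow_atTop (r := 1 / 50) (by norm_num)).def (c := 1) one_pos
    filter_upwards [this, eventually_ge_atTop 1] with T hT hT1
    rw [Real.norm_eq_abs, Real.norm_eq_abs, abs_of_nonneg (Real.log_nonneg hT1),
      abs_of_nonneg (by positivity), one_mul] at hT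
    exact hT
  filter_upwards [h1.eventually h2, h1.eventually_ge_atTop 2, h3, eventually_ge_atTop 3] with
    T hT hw2 hlog hT3
  have hT0 : 0 < T := by linarith
  set w : ℝ := T ^ (1 / 100 : ℝ) with hw
  have hw0 : 0 < w := by linarith
  have hTw : T = w ^ 100 := by
    rw [hw, ← Real.rpow_natCast, ← Real.rpow_mul hT0.le]; norm_num
  have h4 : T ^ (1 / 10 : ℝ) = w ^ 10 := by
    rw [hw, ← Real.rpow_natCast, ← Real.rpow_mul hT0.le]; norm_num
  have h5 : T ^ (1 / 50 : ℝ) = w ^ 2 := by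
    rw [hw, ← Real.rpow_natCast, ← Real.rpow_mul hT0.le]; norm_num
  have hlog0 : 0 < Real.log T := Real.log_pos (by linarith)
  have h6 : w ≤ T ^ (1 / 10 : ℝ) / (32 * (Real.log T) ^ 2) := by
    rw [le_div_iff₀ (by positivity), h4]
    rw [h5] at hlog
    have h7 : (Real.log T) ^ 2 ≤ (w ^ 2) ^ 2 := by gcongr
    have h8 : (32 : ℝ) ≤ w ^ 5 := by
      calc (32 : ℝ) = 2 ^ 5 := by norm_num
        _ ≤ w ^ 5 := by gcongr
    calc w * (32 * (Real.log T) ^ 2) ≤ w * (w ^ 5 * (w ^ 2) ^ 2) := by gcongr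
      _ = w ^ 10 := by ring
  have h7 : Real.exp (-(T ^ (1 / 10 : ℝ) / (32 * (Real.log T) ^ 2))) ≤ (Real.exp w)⁻¹ := by
    rw [← Real.exp_neg]
    exact Real.exp_le_exp.mpr (neg_le_neg h6)
  have h8 : T ^ (-20 : ℝ) = (w ^ 2000)⁻¹ := by
    rw [Real.rpow_neg hT0.le]
    congr 1
    rw [show (20 : ℝ) = ((20 : ℕ) : ℝ) by norm_num, Real.rpow_natCast]
    nth_rewrite 1 [hTw]
    rw [← pow_mul]
  rw [h8]
  calc K * T ^ m * Real.exp (-(T ^ (1 / 10 : ℝ) / (32 * (Real.log T) ^ 2)))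
      ≤ |K| * T ^ m * (Real.exp w)⁻¹ := by
        gcongr
        exact le_abs_self K
    _ ≤ (|K| + 1) * T ^ m * (Real.exp w)⁻¹ := by
        gcongr
        linarith
    _ = ((|K| + 1) * w ^ (100 * m + 2000)) * (w ^ 2000)⁻¹ * (Real.exp w)⁻¹ := by
        nth_rewrite 1 [hTw]
        rw [← pow_mul, pow_add]
        field_simp
    _ ≤ Real.exp w * (w ^ 2000)⁻¹ * (Real.exp w)⁻¹ := by gcongr
    _ = (w ^ 2000)⁻¹ := by
        have := (Real.exp_pos w).ne'
        field_simp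

end ZetaPair

open ZetaPair in
theorem stZetaPair (hShift : StShift) : StZetaPair := by
  obtain ⟨Cz, hCz, hz⟩ := zeta_growth
  set Z9 : ℝ := ∑' n : ℕ, (1 / ((n + 1 : ℕ) : ℝ) ^ 9) with hZ9
  have hZ9nn : 0 ≤ Z9 := tsum_nonneg fun n => by positivity
  set Kt : ℝ := 12 * Cz * 4 * 600 + 4 * (12 * Cz * 4 * 600) + 3 * Z9 with hKt
  obtain ⟨T₁, hT₁⟩ := eventually_atTop.mp (ev Kt 13)
  have hlogev : ∀ᶠ T : ℝ in atTop, 2 * (T ^ (1 / 100 : ℝ) * Real.log T) ≤ T := by
    have h1 := (isLittleO_log_rpow_atTop (r := 1 / 2) (by norm_num)).def (c := 1 / 2) (by norm_num)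
    filter_upwards [h1, eventually_ge_atTop 1] with T hT hT1
    rw [Real.norm_eq_abs, Real.norm_eq_abs, abs_of_nonneg (Real.log_nonneg hT1),
      abs_of_nonneg (by positivity)] at hT
    have hT0 : 0 < T := by linarith
    have h2 : T ^ (1 / 100 : ℝ) ≤ T ^ (1 / 2 : ℝ) :=
      Real.rpow_le_rpow_of_exponent_le hT1 (by norm_num)
    have h3 : T ^ (1 / 2 : ℝ) * T ^ (1 / 2 : ℝ) = T := by
      rw [← Real.rpow_add hT0]; norm_num
    have h4 : 0 ≤ Real.log T := Real.log_nonneg hT1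
    have h5 : 0 < T ^ (1 / 2 : ℝ) := Real.rpow_pos_of_pos hT0 _
    nlinarith [mul_le_mul h2 hT h4 h5.le]
  obtain ⟨T₂, hT₂⟩ := eventually_atTop.mp hlogev
  refine ⟨max (max T₁ T₂) 36, le_trans (by norm_num) (le_max_right _ _), ?_⟩
  intro T hT τ hτ1 hτ2 a ha1 ha2 ha3 u v hu hv huX hvX
  have hTT1 : T₁ ≤ T := (le_max_left _ _).trans ((le_max_left _ _).trans hT)
  have hTT2 : T₂ ≤ T := (le_max_right _ _).trans ((le_max_left _ _).trans hT)
  have hT36 : 36 ≤ T := (le_max_right _ _).trans hT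
  have hT0 : 0 < T := by linarith
  have hT1 : 1 ≤ T := by linarith
  have hlogT : 1 ≤ Real.log T := by
    rw [Real.le_log_iff_exp_le hT0]
    linarith [Real.exp_one_lt_d9]
  have hVe := VV_coe hT0.le
  set V : ℝ := (VV T : ℝ) with hVdef
  have hV1 : 36 ≤ V := by
    rw [hVe]
    calc (36 : ℝ) ≤ T := hT36
      _ = T ^ (1 : ℝ) := (Real.rpow_one T).symm
      _ ≤ _ := Real.rpow_le_rpow_of_exponent_le hT1 (by norm_num)
  have hV0 : 0 < V := by linarith
  have hVne : VV T ≠ 0 := by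
    intro h
    rw [hVdef, h] at hV0
    simp at hV0
  set σ₁ : ℝ := 1 / 2 + a.re with hσ₁
  set y : ℝ := a.im with hy
  set ω : ℝ := Real.log v - Real.log u with hω
  set l : ℝ := (9 - σ₁) / V with hl
  have hσa : (1 / 2 + a : ℂ) = (σ₁ : ℂ) + y * I := by
    rw [hσ₁, hy]
    push_cast
    linear_combination -(re_add_im a)
  have hσ1 : 1 / 2 ≤ σ₁ := by linarith
  have hσ2 : σ₁ ≤ 3 / 4 := by linarith
  have hyT : |y| ≤ T := by
    refine ha3.trans ?_
    calc T ^ (1 / 100 : ℝ) ≤ T ^ (1 : ℝ) := Real.rpow_le_rpow_of_exponent_le hT1 (by norm_num)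
      _ = T := Real.rpow_one T
  -- the distance from the pole
  set E : ℝ := (τ + y) ^ 2 / (4 * V) with hE
  set r : ℝ := T ^ (1 / 10 : ℝ) / (32 * (Real.log T) ^ 2) with hr
  have hrE : r ≤ E := by
    have h1 := hT₂ T hTT2
    have h2 : T / (2 * Real.log T) ≤ |τ + y| := by
      have h3 : |τ| ≤ |τ + y| + |y| := by
        have := abs_sub (τ + y) y
        simpa using this
      have h4 : T ^ (1 / 100 : ℝ) ≤ T / (2 * Real.log T) := by
        rw [le_div_iff₀ (by positivity)]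
        linarith
      have h5 : T / Real.log T = T / (2 * Real.log T) + T / (2 * Real.log T) := by
        field_simp
        ring
      linarith
    have h6 : (T / (2 * Real.log T)) ^ 2 ≤ (τ + y) ^ 2 := by
      rw [← sq_abs (τ + y)]
      exact pow_le_pow_left₀ (by positivity) h2 2
    have h7 : T ^ 2 = T ^ (1 / 10 : ℝ) * V := by
      rw [hVe, ← Real.rpow_add hT0, ← Real.rpow_natCast]
      norm_num
    have h8 : 0 < T ^ (1 / 10 : ℝ) := Real.rpow_pos_of_pos hT0 _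
    calc r ≤ T ^ (1 / 10 : ℝ) / (16 * (Real.log T) ^ 2) := by
          rw [hr]
          apply div_le_div_of_nonneg_left h8.le (by positivity)
          nlinarith [sq_nonneg (Real.log T)]
      _ = (T / (2 * Real.log T)) ^ 2 / (4 * V) := by
          rw [div_pow, h7]
          field_simp
          ring
      _ ≤ E := by
          rw [hE]
          gcongr
  have hr2 : r ≤ T ^ (1 / 10 : ℝ) / 32 := by
    rw [hr]
    apply div_le_div_of_nonneg_left (by positivity) (by norm_num)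
    nlinarith
  -- the functions
  have hshift := hShift (g V τ y σ₁ ω) (1 / 8) 10 σ₁ 9 τ (1 / (4 * V)) (VV T) hVne (by linarith)
    (by linarith) (by norm_num) (by norm_num) (g_diff V τ y σ₁ ω).differentiableOn (by positivity)
    (by rw [← hVdef]; field_simp; norm_num)
    (g_bound τ y σ₁ ω (by linarith) (by rw [abs_of_nonneg] <;> linarith))
  rw [← hVdef] at hshift
  set A : ℝ → ℂ := fun t => riemannZeta (1 / 2 + a + t * I) *
    (fs (t * I) u * (starRingEnd ℂ) (fs (t * I) v)) with hA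
  set F₁ : ℝ → ℂ := fun t => riemannZeta (σ₁ + t * I + y * I) * q V τ y (σ₁ + t * I) *
    cexp ((t * I) * ω) with hF₁
  set Z : ℝ → ℂ := fun t => riemannZeta ((9 : ℂ) + t * I + y * I) *
        cexp (((9 : ℂ) + t * I - σ₁) * (Real.log v - Real.log u : ℝ)) *
        cexp ((l * (t - τ) : ℝ) * I) with hZ
  set F₂ : ℝ → ℂ := fun t => Z t * q V τ y (9 + t * I) with hF₂
  have hAeq : ∀ t : ℝ, A t = riemannZeta (σ₁ + t * I + y * I) * cexp ((t * I) * ω) := by
    intro t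
    rw [hA]
    simp only
    rw [fs_mul_I t (by omega), fs_mul_I t (by omega), ← exp_conj, ← Complex.exp_add]
    congr 1
    · congr 1
      rw [hσa]; ring
    · congr 1
      simp only [map_mul, conj_I, conj_ofReal]
      rw [hω]
      push_cast
      ring
  have hg1 : ∀ t : ℝ, g V τ y σ₁ ω (σ₁ + t * I) = A t - F₁ t := by
    intro t
    have hne : (σ₁ + t * I : ℂ) ≠ 1 - y * I := by
      intro h
      have := congrArg Complex.re h
      simp at this
      linarith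
    rw [g_eq hne, hAeq, hF₁]
    simp only [add_sub_cancel_left]
    ring
  have hg2 : ∀ t : ℝ, g V τ y σ₁ ω ((9 : ℝ) + t * I) * cexp (((9 - σ₁) * (t - τ) / V : ℝ) * I) =
      Z t - F₂ t := by
    intro t
    have hne : (((9 : ℝ) : ℂ) + t * I : ℂ) ≠ 1 - y * I := by
      intro h
      have := congrArg Complex.re h
      simp at this
    rw [g_eq hne, hF₂, hZ]
    simp only
    have e : ((9 - σ₁) * (t - τ) / V : ℝ) = l * (t - τ) := by
      rw [hl]; ring
    rw [e, hω]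
    push_cast
    ring
  -- pointwise bounds
  have hq : ∀ σ t : ℝ, ‖q V τ y (σ + t * I)‖ ≤ 3 * Real.exp (-E + (t - τ) ^ 2 / (4 * V)) := by
    intro σ t
    rw [norm_q hV0]
    have h1 : (1 - (τ + y) ^ 2 - σ ^ 2 + (t - τ) ^ 2) / (4 * V) ≤
        1 + (-E + (t - τ) ^ 2 / (4 * V)) := by
      rw [hE, div_le_iff₀ (by positivity)]
      have e : (1 + (-((τ + y) ^ 2 / (4 * V)) + (t - τ) ^ 2 / (4 * V))) * (4 * V) =
          4 * V - (τ + y) ^ 2 + (t - τ) ^ 2 := by
        field_simp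
        ring
      rw [e]
      nlinarith [sq_nonneg σ]
    calc Real.exp ((1 - (τ + y) ^ 2 - σ ^ 2 + (t - τ) ^ 2) / (4 * V))
        ≤ Real.exp (1 + (-E + (t - τ) ^ 2 / (4 * V))) := Real.exp_le_exp.mpr h1
      _ = Real.exp 1 * Real.exp (-E + (t - τ) ^ 2 / (4 * V)) := Real.exp_add _ _
      _ ≤ _ := by
        gcongr
        linarith [Real.exp_one_lt_d9]
  have hyy : (1 + |y|) ^ 2 ≤ 4 * T ^ 2 := by
    have h1 : 1 + |y| ≤ 2 * T := by linarith
    calc (1 + |y|) ^ 2 ≤ (2 * T) ^ 2 := by gcongr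
      _ = _ := by ring
  have hF₁b : ∀ t, ‖F₁ t‖ ≤ (12 * Cz * (4 * T ^ 2)) * (1 + |t|) ^ 2 *
      Real.exp (-E + (t - τ) ^ 2 / (4 * V)) := by
    intro t
    rw [hF₁]
    simp only
    have e1 : ‖cexp ((t * I) * ω)‖ = 1 := by
      rw [show (t * I : ℂ) * ω = ((t * ω : ℝ) : ℂ) * I by push_cast; ring]
      exact norm_exp_ofReal_mul_I _
    rw [norm_mul, norm_mul, e1, mul_one]
    have h1 := zeta_le hCz hz (σ := σ₁) (y := y) (t := t) (by linarith) (by linarith)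
      (by rw [abs_of_nonpos] <;> linarith)
    calc ‖riemannZeta (σ₁ + t * I + y * I)‖ * ‖q V τ y (σ₁ + t * I)‖
        ≤ (4 * Cz * (1 + |y|) ^ 2 * (1 + |t|) ^ 2) *
          (3 * Real.exp (-E + (t - τ) ^ 2 / (4 * V))) := by
          gcongr
          exact hq σ₁ t
      _ ≤ (4 * Cz * (4 * T ^ 2) * (1 + |t|) ^ 2) *
          (3 * Real.exp (-E + (t - τ) ^ 2 / (4 * V))) := by gcongr
      _ = _ := by ring
  have hvT : (v : ℝ) ≤ T := by
    refine hvX.trans ?_
    calc T ^ (9 / 10 : ℝ) ≤ T ^ (1 : ℝ) := Real.rpow_le_rpow_of_exponent_le hT1 (by norm_num)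
      _ = T := Real.rpow_one T
  have hwt : Real.exp ((9 - σ₁) * ω) ≤ T ^ 9 := by
    have hv0 : (0 : ℝ) < v := by exact_mod_cast hv
    have hlu : 0 ≤ Real.log u := Real.log_nonneg (by exact_mod_cast hu)
    have hlv : 0 ≤ Real.log v := Real.log_nonneg (by exact_mod_cast hv)
    have h5 : (9 - σ₁) * ω ≤ ((9 : ℕ) : ℝ) * Real.log v := by
      have h6 : (9 - σ₁) * ω ≤ (9 - σ₁) * Real.log v := by
        apply mul_le_mul_of_nonneg_left _ (by linarith)
        rw [hω]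
        linarith
      have h7 : (9 - σ₁) * Real.log v ≤ ((9 : ℕ) : ℝ) * Real.log v := by
        apply mul_le_mul_of_nonneg_right _ hlv
        push_cast
        linarith
      linarith
    calc Real.exp ((9 - σ₁) * ω) ≤ Real.exp (((9 : ℕ) : ℝ) * Real.log v) :=
          Real.exp_le_exp.mpr h5
      _ = (v : ℝ) ^ 9 := by rw [Real.exp_nat_mul, Real.exp_log hv0]
      _ ≤ T ^ 9 := by gcongr
  have hF₂b : ∀ t, ‖F₂ t‖ ≤ (12 * Cz * (4 * T ^ 2) * T ^ 9) * (1 + |t|) ^ 2 *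
      Real.exp (-E + (t - τ) ^ 2 / (4 * V)) := by
    intro t
    rw [hF₂, hZ]
    simp only
    have e1 : ‖cexp ((l * (t - τ) : ℝ) * I)‖ = 1 := norm_exp_ofReal_mul_I _
    have e2 : ‖cexp (((9 : ℂ) + t * I - σ₁) * (Real.log v - Real.log u : ℝ))‖ ≤ T ^ 9 := by
      rw [norm_exp]
      have e3 : (((9 : ℂ) + t * I - σ₁) * (Real.log v - Real.log u : ℝ)).re = (9 - σ₁) * ω := by
        rw [← hω, mul_comm, re_ofReal_mul, mul_comm]
        simp
      rw [e3]
      exact hwt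
    rw [norm_mul, norm_mul, norm_mul, e1, mul_one]
    have h1 := zeta_le hCz hz (σ := 9) (y := y) (t := t) (by norm_num) (by norm_num)
      (by norm_num)
    have h2 := hq 9 t
    push_cast at h1 h2
    calc ‖riemannZeta (9 + t * I + y * I)‖ *
          ‖cexp (((9 : ℂ) + t * I - σ₁) * (Real.log v - Real.log u : ℝ))‖ * ‖q V τ y (9 + t * I)‖
        ≤ (4 * Cz * (1 + |y|) ^ 2 * (1 + |t|) ^ 2) * T ^ 9 *
          (3 * Real.exp (-E + (t - τ) ^ 2 / (4 * V))) := by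
          gcongr
      _ ≤ (4 * Cz * (4 * T ^ 2) * (1 + |t|) ^ 2) * T ^ 9 *
          (3 * Real.exp (-E + (t - τ) ^ 2 / (4 * V))) := by gcongr
      _ = _ := by ring
  have hT9 : 0 ≤ T ^ 9 := by positivity
  -- integrability
  have hAi : Integrable A (gaussianReal τ (VV T)) := by
    refine integrable_of_poly τ (VV T) (C := 4 * Cz * (1 + |y|) ^ 2) (m := 2) ?_ fun t => ?_
    · rw [show A = fun t : ℝ => riemannZeta (σ₁ + t * I + y * I) * cexp ((t * I) * ω) from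
        funext hAeq]
      exact ((cont_zeta_line y (by linarith)).mul (by fun_prop)).aestronglyMeasurable
    · rw [hAeq, norm_mul]
      have e1 : ‖cexp ((t * I) * ω)‖ = 1 := by
        rw [show (t * I : ℂ) * ω = ((t * ω : ℝ) : ℂ) * I by push_cast; ring]
        exact norm_exp_ofReal_mul_I _
      rw [e1, mul_one]
      exact zeta_le hCz hz (σ := σ₁) (y := y) (t := t) (by linarith) (by linarith)
        (by rw [abs_of_nonpos] <;> linarith)
  have hquad : ∀ K : ℝ, Integrable (fun t : ℝ => K * (1 + |t|) ^ 2 *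
      Real.exp (-E + (t - τ) ^ 2 / (4 * V))) (gaussianReal τ (VV T)) := by
    intro K
    refine ((integrable_quad τ hVne).const_mul (K * Real.exp (-E))).congr
      (Eventually.of_forall fun t => ?_)
    simp only
    rw [Real.exp_add, ← hVdef]
    ring
  have hqc : ∀ σ : ℝ, Continuous fun t : ℝ => q V τ y (σ + t * I) := by
    intro σ
    exact (q_diff V τ y).continuous.comp (by fun_prop)
  have hF₁i : Integrable F₁ (gaussianReal τ (VV T)) := by
    refine (hquad _).mono' ?_ (Eventually.of_forall hF₁b)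
    exact (((cont_zeta_line y (by linarith)).mul (hqc σ₁)).mul
      (by fun_prop)).aestronglyMeasurable
  have hZc : Continuous Z := by
    rw [hZ]
    have h1 := cont_zeta_line (σ := 9) y (by norm_num)
    push_cast at h1
    exact (h1.mul (by fun_prop)).mul (by fun_prop)
  have hF₂i : Integrable F₂ (gaussianReal τ (VV T)) := by
    refine (hquad _).mono' ?_ (Eventually.of_forall hF₂b)
    have h1 := hqc 9
    push_cast at h1
    exact (hZc.mul h1).aestronglyMeasurable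
  have hZb : ∀ t, ‖Z t‖ ≤ (4 * Cz * (1 + |y|) ^ 2 * T ^ 9) * (1 + |t|) ^ 2 := by
    intro t
    rw [hZ]
    simp only
    have e1 : ‖cexp ((l * (t - τ) : ℝ) * I)‖ = 1 := norm_exp_ofReal_mul_I _
    have e2 : ‖cexp (((9 : ℂ) + t * I - σ₁) * (Real.log v - Real.log u : ℝ))‖ ≤ T ^ 9 := by
      rw [norm_exp]
      have e3 : (((9 : ℂ) + t * I - σ₁) * (Real.log v - Real.log u : ℝ)).re = (9 - σ₁) * ω := by
        rw [← hω, mul_comm, re_ofReal_mul, mul_comm]
        simp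
      rw [e3]
      exact hwt
    rw [norm_mul, norm_mul, e1, mul_one]
    have h1 := zeta_le hCz hz (σ := 9) (y := y) (t := t) (by norm_num) (by norm_num)
      (by norm_num)
    push_cast at h1
    calc ‖riemannZeta (9 + t * I + y * I)‖ *
          ‖cexp (((9 : ℂ) + t * I - σ₁) * (Real.log v - Real.log u : ℝ))‖
        ≤ (4 * Cz * (1 + |y|) ^ 2 * (1 + |t|) ^ 2) * T ^ 9 := by gcongr
      _ = _ := by ring
  have hZi : Integrable Z (gaussianReal τ (VV T)) :=
    integrable_of_poly τ (VV T) hZc.aestronglyMeasurable hZb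
  -- assembling
  simp only [hg1, hg2] at hshift
  rw [integral_sub hAi hF₁i, integral_sub hZi hF₂i] at hshift
  have hM : (if u ∣ v then ((v / u : ℕ) : ℂ) ^ (-(1 / 2 + a)) else 0) =
      (if u ∣ v then ((v / u : ℕ) : ℂ) ^ (-((σ₁ : ℂ) + y * I)) else 0) := by
    rw [hσa]
  show ‖EG T τ A - _‖ ≤ _
  rw [hM]
  set M : ℂ := (if u ∣ v then ((v / u : ℕ) : ℂ) ^ (-((σ₁ : ℂ) + y * I)) else 0) with hMdef
  set P : ℂ := (Real.exp ((9 - σ₁) ^ 2 / (2 * V)) : ℂ) with hP
  have hsum := sum_part (τ := τ) (y := y) hT36 hσ1 hσ2 hu hv hvX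
  rw [← hVdef, ← hP, ← hMdef, ← hZ9, ← hl] at hsum
  have hPn : ‖P‖ ≤ 4 := by
    rw [hP, norm_real, Real.norm_eq_abs, abs_of_pos (Real.exp_pos _)]
    have h5 : (9 - σ₁) ^ 2 / (2 * V) ≤ 1.02 := by
      rw [div_le_iff₀ (by positivity)]
      have h6 : (9 - σ₁) ^ 2 ≤ 72.25 := by nlinarith
      linarith
    have h7 : Real.exp 1.02 ≤ 4 := by
      have e : Real.exp 1.02 = Real.exp 1 * Real.exp 0.02 := by
        rw [← Real.exp_add]; norm_num
      have h8 : Real.exp 0.02 ≤ 1.1 := by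
        have := Real.exp_bound_div_one_sub_of_interval (x := 0.02) (by norm_num) (by norm_num)
        refine this.trans ?_
        norm_num
      rw [e]
      have h9 := Real.exp_one_lt_d9
      have h10 := Real.exp_pos 1
      nlinarith [Real.exp_pos 0.02]
    exact (Real.exp_le_exp.mpr h5).trans h7
  have eF₁ := err hT1 hτ2 (by positivity) hF₁b
  have eF₂ := err hT1 hτ2 (by positivity) hF₂b
  unfold EG at eF₁ eF₂ ⊢
  have key : (∫ t, A t ∂(gaussianReal τ (VV T))) - M = (∫ t, F₁ t ∂(gaussianReal τ (VV T))) -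
      P * (∫ t, F₂ t ∂(gaussianReal τ (VV T))) +
      (P * (∫ t, Z t ∂(gaussianReal τ (VV T))) - M) := by
    linear_combination hshift
  rw [key]
  have hexpE : Real.exp (-E) ≤ Real.exp (-r) := Real.exp_le_exp.mpr (neg_le_neg hrE)
  have hexp2 : Real.exp (-(T ^ (1 / 10 : ℝ) / 32)) ≤ Real.exp (-r) :=
    Real.exp_le_exp.mpr (neg_le_neg hr2)
  have hfin := hT₁ T hTT1
  rw [← hr] at hfin
  have hTp : ∀ m n : ℕ, m ≤ n → T ^ m ≤ T ^ n := fun m n h => pow_le_pow_right₀ hT1 h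
  calc ‖(∫ t, F₁ t ∂(gaussianReal τ (VV T))) - P * (∫ t, F₂ t ∂(gaussianReal τ (VV T))) +
      (P * (∫ t, Z t ∂(gaussianReal τ (VV T))) - M)‖
      ≤ ‖∫ t, F₁ t ∂(gaussianReal τ (VV T))‖ + ‖P‖ * ‖∫ t, F₂ t ∂(gaussianReal τ (VV T))‖ +
        ‖P * (∫ t, Z t ∂(gaussianReal τ (VV T))) - M‖ := by
        refine (norm_add_le _ _).trans ?_
        gcongr
        refine (norm_sub_le _ _).trans ?_
        rw [norm_mul]
    _ ≤ 12 * Cz * (4 * T ^ 2) * Real.exp (-r) * (600 * T ^ 2) +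
        4 * (12 * Cz * (4 * T ^ 2) * T ^ 9 * Real.exp (-r) * (600 * T ^ 2)) +
        3 * T ^ 9 * Real.exp (-r) * Z9 := by
        gcongr ?_ + ?_ * ?_ + ?_
        · exact eF₁.trans (by gcongr)
        · exact eF₂.trans (by gcongr)
        · exact hsum.trans (by gcongr)
    _ = (12 * Cz * 4 * 600 * T ^ 4 + 4 * (12 * Cz * 4 * 600) * T ^ 13 + 3 * Z9 * T ^ 9) *
        Real.exp (-r) := by ring
    _ ≤ (12 * Cz * 4 * 600 * T ^ 13 + 4 * (12 * Cz * 4 * 600) * T ^ 13 + 3 * Z9 * T ^ 13) *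
        Real.exp (-r) := by
        gcongr ?_ * _
        gcongr ?_ + _ + ?_
        · exact mul_le_mul_of_nonneg_left (hTp 4 13 (by norm_num)) (by positivity)
        · exact mul_le_mul_of_nonneg_left (hTp 9 13 (by norm_num)) (by positivity)
    _ = (12 * Cz * 4 * 600 + 4 * (12 * Cz * 4 * 600) + 3 * Z9) * T ^ 13 * Real.exp (-r) := by ring
    _ ≤ _ := by
        rw [hKt] at hfin
        exact hfin

end K1
end Pool.Agent.Lib.MP_973905_nt
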