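import Pool.Agent.Lib.MP_973905_nt.K1.FFpair
import Pool.Agent.Lib.MP_973905_nt.K1.Shift
import Pool.Agent.Lib.MP_973905_nt.K1.Fin
import Pool.Agent.Lib.MP_973905_nt.K1.RBound
import Pool.Agent.Lib.MP_973905_nt.K1.ZetaPair
import Pool.Agent.Lib.MP_973905_nt.K1.Left
import Pool.Agent.Lib.MP_973905_nt.K1.Right
import Pool.Agent.Lib.MP_973905_nt.K1.Strip
import Pool.Agent.Lib.MP_973905_nt.K1.ThreeLines
import Pool.Agent.Lib.MP_973905_nt.K1.LF
import Pool.Agent.Lib.MP_973905_nt.K1.BlockShift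
import Pool.Agent.Lib.MP_973905_nt.K1.RAapprox
import Pool.Agent.Lib.MP_973905_nt.K1.Small
import Pool.Agent.Lib.MP_973905_nt.K1.Crude
import Pool.Agent.Lib.MP_973905_nt.K1.Second
import Pool.Agent.Lib.MP_973905_nt.K1.UpperHolder
import Pool.Agent.Lib.MP_973905_nt.K1.SHFourier
import Pool.Agent.Lib.MP_973905_nt.K1.Cross
import Pool.Agent.Lib.MP_973905_nt.K1.FourthR
import Pool.Agent.Lib.MP_973905_nt.K1.Fourth
import Pool.Agent.Lib.MP_973905_nt.K1.TransferZeta
import Pool.Agent.Lib.MP_973905_nt.K1.Averages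
import Pool.Agent.Lib.MP_973905_nt.K1.Lower
import Pool.Agent.Lib.MP_973905_nt.K1.FinalK1

/-! Assembly of the joint limit theorem `k → 1-`. -/

namespace Pool.Agent.Lib.MP_973905_nt.K1

theorem final : StFinal := by
  have h3 := stZetaPair stShift
  have h6 := stRight h3 stRBound stFin
  have h7 := stLeft stFFpair stRBound
  have h9 := stExact stFin h6 h7 stStrip
  have h12 := stRA stLF (stBlockShift stLF)
  have h15 := stSecond stFin h9 h12 stShort
  have h16 := stUpper stCrude h15
  have h22 := stLower stShort stCrude (stSHZeta h12) (stSHSq h12) (stCross stShift)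
    (stFourth stFourthR stShort) (stTransferZeta h3) stAvg stAvgUp
  exact stFinal h16 h22 stAvgUp

end Pool.Agent.Lib.MP_973905_nt.K1
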