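import Pool.Agent.Lib.MP_973905_nt.K1.Stmts

/-! From Gaussian means to the mean over `[0, T]`. -/

namespace Pool.Agent.Lib.MP_973905_nt
namespace K1

open MeasureTheory ProbabilityTheory Complex Filter Topology

namespace Averages

lemma EG_shiftE {E : Type*} [NormedAddCommGroup E] [NormedSpace ℝ E] (T τ : ℝ) {F : ℝ → E} :
    EG T τ F = ∫ x, F (x + τ) ∂(gaussianReal 0 (VV T)) := by
  have h := gaussianReal_map_add_const (μ := 0) (v := VV T) τ
  rw [zero_add] at h
  rw [EG, ← h]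
  have h2 : MeasurableEmbedding (fun x : ℝ => x + τ) := (Homeomorph.addRight τ).measurableEmbedding
  rw [h2.integral_map]

/-- Averages of Gaussian means. -/
lemma averageE (T : ℝ) {F : ℝ → ℂ} (hF : Continuous F) {Cp : ℝ}
    (hFb : ∀ t, ‖F t‖ ≤ Cp * (1 + |t|) ^ 4) {a b : ℝ} (hab : a ≤ b) :
    ∫ τ in a..b, EG T τ F =
      ∫ x, (∫ t in (x + a)..(x + b), F t) ∂(gaussianReal 0 (VV T)) ∧
    Integrable (fun x => ∫ t in (x + a)..(x + b), F t) (gaussianReal 0 (VV T)) ∧
    IntervalIntegrable (fun τ => EG T τ F) volume a b := by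
  have hCp : 0 ≤ Cp := by
    have := (norm_nonneg _).trans (hFb 0)
    simpa using this
  have hint : Integrable (fun z : ℝ × ℝ => F (z.2 + z.1))
      ((volume.restrict (Set.Ioc a b)).prod (gaussianReal 0 (VV T))) := by
    have h1 : Integrable (fun τ : ℝ => Cp * (1 + |τ|) ^ 4) (volume.restrict (Set.Ioc a b)) :=
      ((by fun_prop : Continuous fun τ : ℝ => Cp * (1 + |τ|) ^ 4).integrableOn_Icc).mono_set
        Set.Ioc_subset_Icc_self
    have h2 := h1.mul_prod (integrable_one_add_abs_pow 0 (VV T) 4)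
    refine h2.mono' (hF.comp (by fun_prop)).aestronglyMeasurable
      (Filter.Eventually.of_forall fun z => ?_)
    refine (hFb _).trans ?_
    have h3 : 1 + |z.2 + z.1| ≤ (1 + |z.1|) * (1 + |z.2|) := by
      have := abs_add_le z.2 z.1
      nlinarith [mul_nonneg (abs_nonneg z.1) (abs_nonneg z.2)]
    calc Cp * (1 + |z.2 + z.1|) ^ 4 ≤ Cp * ((1 + |z.1|) * (1 + |z.2|)) ^ 4 := by gcongr
      _ = _ := by ring
  have e : ∀ x : ℝ, ∫ t in (x + a)..(x + b), F t = ∫ τ in Set.Ioc a b, F (x + τ) := by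
    intro x
    rw [← intervalIntegral.integral_of_le hab, intervalIntegral.integral_comp_add_left]
  simp only [e]
  refine ⟨?_, hint.integral_prod_right, ?_⟩
  · rw [← integral_integral_swap hint, intervalIntegral.integral_of_le hab]
    congr 1
    funext τ
    rw [EG_shiftE]
  · rw [intervalIntegrable_iff_integrableOn_Ioc_of_le hab]
    refine hint.integral_prod_left.congr (Filter.Eventually.of_forall fun τ => ?_)
    simp only
    rw [EG_shiftE]

/-- The error term `q`. -/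
noncomputable def qq (T : ℝ) : ℝ :=
  ∫ x, Set.indicator {x : ℝ | T ^ (97 / 100 : ℝ) < |x|} (fun x => (1 + |x|) ^ 4) x
      ∂(gaussianReal 0 (VV T))

lemma qq_nonneg (T : ℝ) : 0 ≤ qq T :=
  integral_nonneg fun x => Set.indicator_nonneg (fun t _ => by positivity) x

lemma ind_int (T : ℝ) : Integrable (Set.indicator {x : ℝ | T ^ (97 / 100 : ℝ) < |x|}
    (fun x => (1 + |x|) ^ 4)) (gaussianReal 0 (VV T)) :=
  (integrable_one_add_abs_pow 0 (VV T) 4).indicator
      (measurableSet_lt measurable_const measurable_id.abs)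

/-- integrals over intervals are bounded by Gaussian means. -/
lemma interval_bound {T : ℝ} (hq : qq T ≤ 1 / 2) {F : ℝ → ℝ} (hF : Continuous F)
    (hF0 : ∀ t, 0 ≤ F t) {Cp : ℝ} (hFb : ∀ t, F t ≤ Cp * (1 + |t|) ^ 4) {B : ℝ}
    (hB : ∀ τ : ℝ, |τ| ≤ 3 / 2 * T → EG T τ F ≤ B) {c d : ℝ} (hcd : c ≤ d)
    (hT : 0 ≤ T)
    (hc : -(3 / 2 * T) ≤ c - T ^ (97 / 100 : ℝ)) (hd : d + T ^ (97 / 100 : ℝ) ≤ 3 / 2 * T) :
    ∫ t in c..d, F t ≤ 2 * (d - c + 2 * T ^ (97 / 100 : ℝ)) * B := by
  set Δ : ℝ := T ^ (97 / 100 : ℝ) with hΔ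
  have hΔ0 : 0 ≤ Δ := Real.rpow_nonneg hT _
  have hFb' : ∀ t, |F t| ≤ Cp * (1 + |t|) ^ 4 := fun t => by
    rw [abs_of_nonneg (hF0 t)]; exact hFb t
  obtain ⟨e1, i1, -⟩ := Sharp.average T hF hFb' (a := c - Δ) (b := d + Δ) (by linarith)
  have l1 : ∫ τ in (c - Δ)..(d + Δ), EG T τ F ≤ (d - c + 2 * Δ) * B := by
    have : ∀ τ ∈ Set.Icc (c - Δ) (d + Δ), ‖EG T τ F‖ ≤ B := by
      intro τ hτ'
      have h5 : |τ| ≤ 3 / 2 * T := by
        rw [abs_le]; constructor <;> linarith [hτ'.1, hτ'.2]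
      have h7 : 0 ≤ EG T τ F := integral_nonneg hF0
      rw [Real.norm_eq_abs, abs_of_nonneg h7]
      exact hB τ h5
    have h8 := intervalIntegral.norm_integral_le_of_norm_le_const (a := c - Δ) (b := d + Δ)
      (f := fun τ => EG T τ F) (C := B) (fun τ hτ' => this τ (by
        rw [Set.uIoc_of_le (by linarith)] at hτ'
        exact ⟨hτ'.1.le, hτ'.2⟩))
    rw [abs_of_nonneg (by linarith : 0 ≤ d + Δ - (c - Δ))] at h8
    calc _ ≤ _ := (le_abs_self _).trans h8
      _ = _ := by ring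
  set A : ℝ := ∫ t in c..d, F t with hA
  have hA0 : 0 ≤ A := intervalIntegral.integral_nonneg hcd fun t _ => hF0 t
  have hFi : ∀ u v : ℝ, IntervalIntegrable F volume u v := fun u v => hF.intervalIntegrable u v
  have l2 : (1 - qq T) * A ≤ ∫ x, (∫ t in (x + (c - Δ))..(x + (d + Δ)), F t)
      ∂(gaussianReal 0 (VV T)) := by
    have e2 : (1 - qq T) * A = ∫ x, (A - A * Set.indicator {x : ℝ | Δ < |x|}
        (fun x => (1 + |x|) ^ 4) x) ∂(gaussianReal 0 (VV T)) := by
      rw [integral_sub (integrable_const _) ((ind_int T).const_mul A), integral_const_mul]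
      simp only [integral_const, probReal_univ, one_smul]
      change (1 - qq T) * A = A - A * qq T
      ring
    rw [e2]
    refine integral_mono ((integrable_const _).sub ((ind_int T).const_mul A)) i1 fun x => ?_
    simp only
    have hI0 : 0 ≤ ∫ t in (x + (c - Δ))..(x + (d + Δ)), F t :=
      intervalIntegral.integral_nonneg (by linarith) fun t _ => hF0 t
    by_cases hx : Δ < |x|
    · rw [Set.indicator_of_mem (show x ∈ {x : ℝ | Δ < |x|} from hx) _]
      have h9 : 1 ≤ (1 + |x|) ^ 4 := one_le_pow₀ (by linarith [abs_nonneg x])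
      nlinarith
    · rw [Set.indicator_of_notMem (show x ∉ {x : ℝ | Δ < |x|} from hx) _, mul_zero, sub_zero]
      push Not at hx
      have h9 := abs_le.mp hx
      apply intervalIntegral.integral_mono_interval (by linarith) hcd (by linarith)
        (Filter.Eventually.of_forall fun t => hF0 t) (hFi _ _)
  have h3 : (1 - qq T) * A ≤ (d - c + 2 * Δ) * B := by linarith
  have h4 : 1 / 2 * A ≤ (1 - qq T) * A := by
    apply mul_le_mul_of_nonneg_right _ hA0; linarith
  linarith

lemma core : ∃ T₀ : ℝ, 3 ≤ T₀ ∧ ∀ T, T₀ ≤ T → 1 ≤ Real.log T ∧ T / Real.log T ≤ T ∧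
    ∀ F : ℝ → ℂ, Continuous F →
    (∀ t, ‖F t‖ ≤ T ^ 4 * (1 + |t|) ^ 4) → ∀ (B : ℝ), 1 ≤ B →
    (∀ τ : ℝ, |τ| ≤ 3 / 2 * T → EG T τ (fun t => ‖F t‖) ≤ B) →
    ‖(∫ t in (0 : ℝ)..T, F t) - ∫ τ in (T / Real.log T)..T, EG T τ F‖ ≤
      23 * B * (T / Real.log T) := by
  have ev1 : ∀ᶠ T : ℝ in atTop, Real.log T ≤ T ^ (3 / 100 : ℝ) := by
    have h := (isLittleO_log_rpow_atTop (r := 3 / 100) (by norm_num)).def (c := 1) one_pos
    filter_upwards [h, eventually_ge_atTop 1] with T hT hT1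
    rw [one_mul, Real.norm_eq_abs, Real.norm_eq_abs, abs_of_nonneg (Real.log_nonneg hT1),
      abs_of_nonneg (by positivity)] at hT
    exact hT
  have ev2 := Sharp.tail_ev 32 9
  have ev3 : ∀ᶠ T : ℝ in atTop, 4 ≤ Real.log T := Real.tendsto_log_atTop.eventually_ge_atTop 4
  obtain ⟨T₀, hT₀⟩ := eventually_atTop.mp (ev1.and (ev2.and ev3))
  refine ⟨max 3 T₀, le_max_left _ _, fun T hT => ?_⟩
  have hT3 : 3 ≤ T := (le_max_left _ _).trans hT
  obtain ⟨h1, h2, h3⟩ := hT₀ T ((le_max_right _ _).trans hT)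
  have hT0 : 0 < T := by linarith
  have hL : 0 < Real.log T := by linarith
  refine ⟨by linarith, div_le_self hT0.le (by linarith), fun F hF hFb B hB1 hB => ?_⟩
  change 32 * T ^ 9 * qq T ≤ 1 at h2
  have hq0 := qq_nonneg T
  set Δ : ℝ := T ^ (97 / 100 : ℝ) with hΔ
  have hΔ0 : 0 < Δ := Real.rpow_pos_of_pos hT0 _
  set a : ℝ := T / Real.log T with ha
  have ha0 : 0 < a := by positivity
  have haT : a ≤ T / 4 := by
    rw [ha]
    exact div_le_div_of_nonneg_left hT0.le (by norm_num) h3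
  have hΔa : Δ ≤ a := by
    rw [ha, le_div_iff₀ hL]
    calc Δ * Real.log T ≤ Δ * T ^ (3 / 100 : ℝ) := by gcongr
      _ = T := by rw [hΔ, ← Real.rpow_add hT0]; norm_num
  have ha1 : 1 ≤ a := by
    refine le_trans ?_ hΔa
    exact Real.one_le_rpow (by linarith) (by norm_num)
  have hT9 : 1 ≤ T ^ 9 := one_le_pow₀ (by linarith)
  have hqs : qq T ≤ 1 / 2 := by nlinarith
  set γ := gaussianReal 0 (VV T) with hγ
  have hNc : Continuous fun t => ‖F t‖ := hF.norm
  have hN0 : ∀ t, 0 ≤ ‖F t‖ := fun t => norm_nonneg _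
  have ib : ∀ {c d : ℝ}, c ≤ d → -(3 / 2 * T) ≤ c - Δ → d + Δ ≤ 3 / 2 * T →
      ∫ t in c..d, ‖F t‖ ≤ 2 * (d - c + 2 * Δ) * B := fun {c d} h1 h2 h3 =>
    interval_bound hqs hNc hN0 hFb hB h1 hT0.le h2 h3
  have i1 := ib (c := 0) (d := a) ha0.le (by linarith) (by linarith)
  have i2 := ib (c := a - Δ) (d := a + Δ) (by linarith) (by linarith) (by linarith)
  have i3 := ib (c := T - Δ) (d := T + Δ) (by linarith) (by linarith) (by linarith)
  have hFi : ∀ u v : ℝ, IntervalIntegrable F volume u v := fun u v => hF.intervalIntegrable u v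
  have hNi : ∀ u v : ℝ, IntervalIntegrable (fun t => ‖F t‖) volume u v :=
    fun u v => hNc.intervalIntegrable u v
  obtain ⟨e1, j1, -⟩ := averageE T hF hFb (a := a) (b := T) (by linarith)
  set K : ℝ := (∫ t in (a - Δ)..(a + Δ), ‖F t‖) + ∫ t in (T - Δ)..(T + Δ), ‖F t‖ with hK
  have hK0 : 0 ≤ K := add_nonneg
    (intervalIntegral.integral_nonneg (by linarith) fun t _ => hN0 t)
    (intervalIntegral.integral_nonneg (by linarith) fun t _ => hN0 t)
  -- the comparison for a single `x`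
  have cmp : ∀ x : ℝ, ‖(∫ t in (x + a)..(x + T), F t) - ∫ t in a..T, F t‖ ≤
      K + 32 * T ^ 9 * Set.indicator {x : ℝ | Δ < |x|} (fun x => (1 + |x|) ^ 4) x := by
    intro x
    by_cases hx : Δ < |x|
    · rw [Set.indicator_of_mem (show x ∈ {x : ℝ | Δ < |x|} from hx) _]
      have h9 : 1 ≤ (1 + |x|) ^ 4 := one_le_pow₀ (by linarith [abs_nonneg x])
      have h4T : (1 + T) ^ 4 ≤ 16 * T ^ 4 := by
        calc (1 + T) ^ 4 ≤ (2 * T) ^ 4 := by gcongr; linarith
          _ = _ := by ring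
      have h8 := intervalIntegral.norm_integral_le_of_norm_le_const (a := x + a)
        (b := x + T) (f := F) (C := 16 * T ^ 8 * (1 + |x|) ^ 4) (fun t ht => by
          rw [Set.uIoc_of_le (by linarith)] at ht
          refine (hFb t).trans ?_
          have h10 : |t| ≤ |x| + T := by
            rw [abs_le]
            constructor
            · linarith [ht.1, neg_abs_le x]
            · linarith [ht.2, le_abs_self x]
          have h11 : 1 + |t| ≤ (1 + T) * (1 + |x|) := by
            nlinarith [mul_nonneg hT0.le (abs_nonneg x)]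
          calc T ^ 4 * (1 + |t|) ^ 4 ≤ T ^ 4 * ((1 + T) * (1 + |x|)) ^ 4 := by gcongr
            _ = T ^ 4 * (1 + T) ^ 4 * (1 + |x|) ^ 4 := by ring
            _ ≤ T ^ 4 * (16 * T ^ 4) * (1 + |x|) ^ 4 := by gcongr
            _ = _ := by ring)
      have h8' := intervalIntegral.norm_integral_le_of_norm_le_const (a := a)
        (b := T) (f := F) (C := 16 * T ^ 8) (fun t ht => by
          rw [Set.uIoc_of_le (by linarith)] at ht
          refine (hFb t).trans ?_
          have h10 : |t| ≤ T := by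
            rw [abs_of_nonneg (by linarith [ht.1])]; exact ht.2
          calc T ^ 4 * (1 + |t|) ^ 4 ≤ T ^ 4 * (1 + T) ^ 4 := by gcongr
            _ ≤ T ^ 4 * (16 * T ^ 4) := by gcongr
            _ = _ := by ring)
      rw [abs_of_nonneg (by linarith : 0 ≤ x + T - (x + a))] at h8
      rw [abs_of_nonneg (by linarith : 0 ≤ T - a)] at h8'
      have hT8 : 0 ≤ 16 * T ^ 8 := by positivity
      calc ‖(∫ t in (x + a)..(x + T), F t) - ∫ t in a..T, F t‖
          ≤ ‖∫ t in (x + a)..(x + T), F t‖ + ‖∫ t in a..T, F t‖ := norm_sub_le _ _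
        _ ≤ 16 * T ^ 8 * (1 + |x|) ^ 4 * (x + T - (x + a)) + 16 * T ^ 8 * (T - a) := add_le_add h8 h8'
        _ ≤ 16 * T ^ 8 * (1 + |x|) ^ 4 * T + 16 * T ^ 8 * T := by
            gcongr <;> linarith
        _ ≤ 16 * T ^ 8 * (1 + |x|) ^ 4 * T + 16 * T ^ 8 * T * (1 + |x|) ^ 4 := by
            have : 16 * T ^ 8 * T * 1 ≤ 16 * T ^ 8 * T * (1 + |x|) ^ 4 := by gcongr
            linarith
        _ = 32 * T ^ 9 * (1 + |x|) ^ 4 := by ring
        _ ≤ _ := by linarith
    · rw [Set.indicator_of_notMem (show x ∉ {x : ℝ | Δ < |x|} from hx) _, mul_zero, add_zero]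
      push Not at hx
      have h9 := abs_le.mp hx
      have e3 : (∫ t in (x + a)..(x + T), F t) - ∫ t in a..T, F t =
          (∫ t in T..(x + T), F t) - ∫ t in a..(x + a), F t := by
        have q1 := intervalIntegral.integral_add_adjacent_intervals (hFi a (x + a)) (hFi (x + a) (x + T))
        have q2 := intervalIntegral.integral_add_adjacent_intervals (hFi a T) (hFi T (x + T))
        rw [← q2] at q1
        linear_combination q1
      rw [e3]
      have small : ∀ b : ℝ, ‖∫ t in b..(x + b), F t‖ ≤ ∫ t in (b - Δ)..(b + Δ), ‖F t‖ := by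
        intro b
        refine (intervalIntegral.norm_integral_le_abs_integral_norm).trans ?_
        rcases le_total 0 x with h0 | h0
        · rw [abs_of_nonneg (intervalIntegral.integral_nonneg (by linarith) fun t _ => hN0 t)]
          exact intervalIntegral.integral_mono_interval (by linarith) (by linarith) (by linarith)
            (Filter.Eventually.of_forall fun t => hN0 t) (hNi _ _)
        · rw [intervalIntegral.integral_symm, abs_neg,
            abs_of_nonneg (intervalIntegral.integral_nonneg (by linarith) fun t _ => hN0 t)]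
          exact intervalIntegral.integral_mono_interval (by linarith) (by linarith) (by linarith)
            (Filter.Eventually.of_forall fun t => hN0 t) (hNi _ _)
      calc ‖(∫ t in T..(x + T), F t) - ∫ t in a..(x + a), F t‖
          ≤ ‖∫ t in T..(x + T), F t‖ + ‖∫ t in a..(x + a), F t‖ := norm_sub_le _ _
        _ ≤ (∫ t in (T - Δ)..(T + Δ), ‖F t‖) + ∫ t in (a - Δ)..(a + Δ), ‖F t‖ :=
            add_le_add (small T) (small a)
        _ = K := by rw [hK]; ring
  have e4 : (∫ τ in a..T, EG T τ F) - ∫ t in a..T, F t =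
      ∫ x, ((∫ t in (x + a)..(x + T), F t) - ∫ t in a..T, F t) ∂γ := by
    rw [e1, integral_sub j1 (integrable_const _)]
    simp
  have h5 : ‖(∫ τ in a..T, EG T τ F) - ∫ t in a..T, F t‖ ≤ K + 1 := by
    rw [e4]
    refine (norm_integral_le_integral_norm _).trans ?_
    calc ∫ x, ‖(∫ t in (x + a)..(x + T), F t) - ∫ t in a..T, F t‖ ∂γ
        ≤ ∫ x, (K + 32 * T ^ 9 * Set.indicator {x : ℝ | Δ < |x|} (fun x => (1 + |x|) ^ 4) x) ∂γ := by
          refine integral_mono_of_nonneg (Filter.Eventually.of_forall fun x => norm_nonneg _)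
            ((integrable_const _).add ((ind_int T).const_mul _))
            (Filter.Eventually.of_forall cmp)
      _ = K + 32 * T ^ 9 * qq T := by
          rw [integral_add (integrable_const _) ((ind_int T).const_mul _), integral_const_mul]
          simp only [integral_const, probReal_univ, smul_eq_mul, one_mul]
          rfl
      _ ≤ K + 1 := by linarith
  have h6 : ‖∫ t in (0 : ℝ)..a, F t‖ ≤ ∫ t in (0 : ℝ)..a, ‖F t‖ :=
    intervalIntegral.norm_integral_le_integral_norm ha0.le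
  have h7 : (∫ t in (0 : ℝ)..T, F t) - ∫ τ in a..T, EG T τ F =
      (∫ t in (0 : ℝ)..a, F t) - ((∫ τ in a..T, EG T τ F) - ∫ t in a..T, F t) := by
    rw [← intervalIntegral.integral_add_adjacent_intervals (hFi 0 a) (hFi a T)]
    ring
  rw [h7]
  refine (norm_sub_le _ _).trans ?_
  have hBa : 1 ≤ B * a := by nlinarith
  have hBΔ : B * Δ ≤ B * a := by
    apply mul_le_mul_of_nonneg_left hΔa (by linarith)
  have h10 : K ≤ 16 * (B * Δ) := by rw [hK]; linarith
  have h11 : ∫ t in (0 : ℝ)..a, ‖F t‖ ≤ 2 * (B * a) + 4 * (B * Δ) := by linarith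
  linarith

end Averages

open Averages

/-- (21) -/
theorem stAvg : StAvg := by
  obtain ⟨T₀, hT₀3, hT₀⟩ := core
  refine ⟨23, T₀, by norm_num, hT₀3, fun T hT F hF hFb D E B hE hB1 hD hB => ?_⟩
  have hT0 : 0 < T := by linarith
  obtain ⟨hL, haT, h⟩ := hT₀ T hT
  have h1 := h F hF hFb B hB1 hB
  obtain ⟨-, -, j1⟩ := averageE T hF hFb (a := T / Real.log T) (b := T) haT
  set a : ℝ := T / Real.log T with ha
  have ha0 : 0 ≤ a := by positivity
  have h2 : ‖(∫ τ in a..T, EG T τ F) - (T - a : ℝ) • D‖ ≤ T * E := by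
    have e : (∫ τ in a..T, EG T τ F) - (T - a : ℝ) • D = ∫ τ in a..T, (EG T τ F - D) := by
      rw [intervalIntegral.integral_sub j1 (by simp), intervalIntegral.integral_const]
    rw [e]
    have h8 := intervalIntegral.norm_integral_le_of_norm_le_const (a := a) (b := T)
      (f := fun τ => EG T τ F - D) (C := E) (fun τ hτ => by
        rw [Set.uIoc_of_le haT] at hτ
        have h0 : 0 ≤ τ := by linarith [hτ.1]
        apply hD τ
        · rw [abs_of_nonneg h0]; exact hτ.1.le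
        · rw [abs_of_nonneg h0]; linarith [hτ.2])
    refine h8.trans ?_
    rw [abs_of_nonneg (by linarith), mul_comm]
    apply mul_le_mul_of_nonneg_right _ hE
    linarith
  have h3 : ‖(∫ t in (0 : ℝ)..T, F t) - T • D‖ ≤ T * E + 23 * B * a + a * ‖D‖ := by
    have e : (∫ t in (0 : ℝ)..T, F t) - T • D =
        ((∫ t in (0 : ℝ)..T, F t) - ∫ τ in a..T, EG T τ F) +
        ((∫ τ in a..T, EG T τ F) - (T - a : ℝ) • D) + (-(a • D)) := by
      rw [sub_smul]; abel
    rw [e]
    refine (norm_add_le _ _).trans ?_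
    have h5 : ‖-(a • D)‖ = a * ‖D‖ := by
      rw [norm_neg, norm_smul, Real.norm_eq_abs, abs_of_nonneg ha0]
    have h6 := norm_add_le ((∫ t in (0 : ℝ)..T, F t) - ∫ τ in a..T, EG T τ F)
      ((∫ τ in a..T, EG T τ F) - (T - a : ℝ) • D)
    rw [h5]
    linarith
  have h4 : (T : ℂ)⁻¹ * (∫ t in (0 : ℝ)..T, F t) - D =
      (T : ℂ)⁻¹ * ((∫ t in (0 : ℝ)..T, F t) - T • D) := by
    have : (T : ℂ) ≠ 0 := by exact_mod_cast hT0.ne'
    rw [real_smul]
    field_simp
  rw [h4, norm_mul, norm_inv, norm_real, Real.norm_eq_abs, abs_of_pos hT0]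
  calc T⁻¹ * ‖(∫ t in (0 : ℝ)..T, F t) - T • D‖
      ≤ T⁻¹ * (T * E + 23 * B * a + a * ‖D‖) := by gcongr
    _ = E + (23 * B + ‖D‖) / Real.log T := by rw [ha]; field_simp; ring
    _ ≤ E + 23 * (‖D‖ + B) / Real.log T := by
        gcongr
        linarith [norm_nonneg D]

/-- (21') -/
theorem stAvgUp : StAvgUp := by
  obtain ⟨T₀, hT₀3, hT₀⟩ := core
  refine ⟨23, T₀, by norm_num, hT₀3, fun T hT F hF hF0 hFb D B hD0 hB1 hD hB => ?_⟩
  have hT0 : 0 < T := by linarith
  obtain ⟨hL, haT, h⟩ := hT₀ T hT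
  have hN : ∀ t, ‖((F t : ℝ) : ℂ)‖ = F t := fun t => by
    rw [norm_real, Real.norm_eq_abs, abs_of_nonneg (hF0 t)]
  have h1 := h (fun t => ((F t : ℝ) : ℂ)) (continuous_ofReal.comp hF)
    (fun t => by rw [hN]; exact hFb t) B hB1 (fun τ hτ => by simp only [hN]; exact hB τ hτ)
  have hFa : ∀ t, |F t| ≤ T ^ 4 * (1 + |t|) ^ 4 := fun t => by
    rw [abs_of_nonneg (hF0 t)]; exact hFb t
  obtain ⟨-, -, j1⟩ := Sharp.average T hF hFa (a := T / Real.log T) (b := T) haT
  set a : ℝ := T / Real.log T with ha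
  have ha0 : 0 ≤ a := by positivity
  have e1 : ∀ τ, EG T τ (fun t => ((F t : ℝ) : ℂ)) = ((EG T τ F : ℝ) : ℂ) := fun τ => by
    simp only [EG]
    exact integral_ofReal
  have e2 : (∫ t in (0 : ℝ)..T, ((F t : ℝ) : ℂ)) - ∫ τ in a..T, EG T τ (fun t => ((F t : ℝ) : ℂ)) =
      (((∫ t in (0 : ℝ)..T, F t) - ∫ τ in a..T, EG T τ F : ℝ) : ℂ) := by
    simp only [e1]
    rw [intervalIntegral.integral_ofReal, intervalIntegral.integral_ofReal]
    push_cast
    rfl
  rw [e2, norm_real, Real.norm_eq_abs] at h1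
  have h2 : ∫ τ in a..T, EG T τ F ≤ T * D := by
    have h3 : ∫ τ in a..T, EG T τ F ≤ ∫ _ in a..T, D := by
      refine intervalIntegral.integral_mono_on haT j1 (by simp) fun τ hτ => ?_
      have h0 : 0 ≤ τ := by linarith [hτ.1]
      apply hD τ
      · rw [abs_of_nonneg h0]; exact hτ.1
      · rw [abs_of_nonneg h0]; linarith [hτ.2]
    rw [intervalIntegral.integral_const, smul_eq_mul] at h3
    refine h3.trans ?_
    apply mul_le_mul_of_nonneg_right _ hD0
    linarith
  have h3 : ∫ t in (0 : ℝ)..T, F t ≤ T * D + 23 * B * a := by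
    have := (abs_le.mp h1).2
    linarith
  calc T⁻¹ * (∫ t in (0 : ℝ)..T, F t) ≤ T⁻¹ * (T * D + 23 * B * a) := by gcongr
    _ = D + 23 * B / Real.log T := by rw [ha]; field_simp
    _ ≤ D + 23 * (D + B) / Real.log T := by
        gcongr
        linarith

end K1
end Pool.Agent.Lib.MP_973905_nt
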