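import Pool.Agent.Lib.MP_973905_nt.Final

/-! Definitions for the joint limit `T → ∞`, `k → 1-` (folder K1). -/

namespace Pool.Agent.Lib.MP_973905_nt
namespace K1

open MeasureTheory ProbabilityTheory Complex Filter Topology

/-- Shifted second moment of the Euler product over `p ≤ T` times `|G|²` in the random model. -/
noncomputable def RZ (T : ℝ) (M : ℕ) (G : (ℕ → ℂ) → ℂ) (a₁ a₂ : ℂ) : ℂ :=
  ER (SB T M (JJ T)) (fun f => ZZ (PS 0 T) (tw (1 / 2 + a₁) f) *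
    (starRingEnd ℂ) (ZZ (PS 0 T) (tw (1 / 2 + (starRingEnd ℂ) a₂) f)) *
    (G (tw (1 / 2) f) * (starRingEnd ℂ) (G (tw (1 / 2) f))))

/-- The arithmetic factor of the twisted second moment. -/
noncomputable def RA (T : ℝ) (M : ℕ) (G : (ℕ → ℂ) → ℂ) (a₁ a₂ : ℂ) : ℂ :=
  RZ T M G a₁ a₂ * ∏ p ∈ PS 0 T, (1 - (p : ℂ) ^ (-(1 + a₁ + a₂)))

/-- The product of all truncated exponentials, `≈ exp (α ∑_{p ≤ T^{β_J}} f(p))`. -/
noncomputable def NN (T : ℝ) (M : ℕ) (α : ℝ) : (ℕ → ℂ) → ℂ :=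
  AA T M (JJ T) α (Finset.range (JJ T + 1)) ∅

/-- Shifted twisted second moment of the zeta function. -/
noncomputable def FG (T τ : ℝ) (G : (ℕ → ℂ) → ℂ) (a : ℂ) : ℂ :=
  EG T τ (fun t => riemannZeta (1 / 2 + a + t * I) * riemannZeta (1 / 2 + a - t * I) *
    (G (fs (1 / 2 + t * I)) * (starRingEnd ℂ) (G (fs (1 / 2 + t * I)))))

/-- Main term of the twisted second moment. -/
noncomputable def Mn (T τ : ℝ) (M : ℕ) (G : (ℕ → ℂ) → ℂ) (a : ℂ) : ℂ :=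
  riemannZeta (1 + 2 * a) * RA T M G a a +
    ((|τ| / (2 * Real.pi) : ℝ) : ℂ) ^ (-(2 * a)) * (riemannZeta (1 - 2 * a) * RA T M G (-a) (-a))

/-- Cutoff: `1` on `[-1, 1/2 - 2δ]`, `0` outside `[-2, 1/2 - δ]`. -/
noncomputable def Pb (δ x : ℝ) : ℝ :=
  Real.smoothTransition ((1 / 2 - δ - x) / δ) * Real.smoothTransition (x + 2)

/-- Smoothed partial sum of length `T^{1/2 - δ}`. -/
noncomputable def SH (δ T : ℝ) (f : ℕ → ℂ) : ℂ :=
  ∑ n ∈ Finset.Icc 1 ⌊T⌋₊, (Pb δ (Real.log n / Real.log T) : ℂ) * f n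

/-- The local factor with shifts. -/
noncomputable def LF (u x : ℝ) (x₁ x₂ : ℂ) : ℂ :=
  Real.circleAverage (fun z : ℂ => (1 - x₁ * z)⁻¹ * (1 - x₂ * (starRingEnd ℂ) z)⁻¹ *
    ((‖1 - x * z‖ ^ (2 * u) : ℝ) : ℂ)) 0 1

/-- The shifted Euler product of local factors over a set of primes. -/
noncomputable def LP (u : ℝ) (a₁ a₂ : ℂ) (S : Finset ℕ) : ℂ :=
  ∏ p ∈ S, LF u ((p : ℝ) ^ (-(1 / 2) : ℝ)) ((p : ℂ) ^ (-(1 / 2 + a₁))) ((p : ℂ) ^ (-(1 / 2 + a₂)))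

end K1
end Pool.Agent.Lib.MP_973905_nt
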