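import Pool.Agent.Lib.MP_973905_nt.K1.Stmts

/-! Fourier representation of the short smoothed sum `SH`. -/

namespace Pool.Agent.Lib.MP_973905_nt
namespace K1

open MeasureTheory ProbabilityTheory Complex Filter Topology

namespace SHF

lemma Pb_zero {δ x : ℝ} (hδ : 0 < δ) (h : 1 / 2 - δ ≤ x) : Pb δ x = 0 := by
  rw [Pb, Real.smoothTransition.zero_of_nonpos
    (div_nonpos_of_nonpos_of_nonneg (by linarith) hδ.le), zero_mul]

lemma Pb_zero' {δ x : ℝ} (h : x ≤ -2) : Pb δ x = 0 := by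
  rw [Pb, Real.smoothTransition.zero_of_nonpos (x := x + 2) (by linarith), mul_zero]

lemma Pb_nonneg (δ x : ℝ) : 0 ≤ Pb δ x :=
  mul_nonneg (Real.smoothTransition.nonneg _) (Real.smoothTransition.nonneg _)

lemma Pb_le_one (δ x : ℝ) : Pb δ x ≤ 1 :=
  mul_le_one₀ (Real.smoothTransition.le_one _) (Real.smoothTransition.nonneg _)
    (Real.smoothTransition.le_one _)

/-- The function `e^x Pb(x)`. -/
noncomputable def psi (δ x : ℝ) : ℂ := ((Real.exp x * Pb δ x : ℝ) : ℂ)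

section

open scoped SchwartzMap FourierTransform ContDiff

lemma contDiff_Pb (δ : ℝ) : ContDiff ℝ ((⊤ : ℕ∞) : WithTop ℕ∞) (Pb δ) := by
  have h1 : ContDiff ℝ ((⊤ : ℕ∞) : WithTop ℕ∞) (fun x : ℝ => (1 / 2 - δ - x) / δ) := by fun_prop
  have h2 : ContDiff ℝ ((⊤ : ℕ∞) : WithTop ℕ∞) (fun x : ℝ => x + 2) := by fun_prop
  exact ((Real.smoothTransition.contDiff (n := ⊤)).comp h1).mul
    ((Real.smoothTransition.contDiff (n := ⊤)).comp h2)

lemma psi_smooth (δ : ℝ) : ContDiff ℝ ∞ (psi δ) :=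
  Complex.ofRealCLM.contDiff.comp (Real.contDiff_exp.mul (contDiff_Pb δ))

lemma psi_supp {δ : ℝ} (hδ : 0 < δ) : HasCompactSupport (psi δ) := by
  refine HasCompactSupport.intro (K := Set.Icc (-2) (1 / 2 - δ)) isCompact_Icc fun x hx => ?_
  rw [Set.mem_Icc, not_and_or, not_le, not_le] at hx
  rcases hx with hx | hx
  · simp [psi, Pb_zero' hx.le]
  · simp [psi, Pb_zero hδ hx.le]

/-- A weight whose Fourier integral is `psi`. -/
structure GF (δ : ℝ) (g : ℝ → ℂ) : Prop where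
  cont : Continuous g
  int : ∀ n : ℕ, Integrable (fun ξ : ℝ => ‖g ξ‖ * (1 + |ξ|) ^ n)
  eq : ∀ x : ℝ, psi δ x = ∫ ξ : ℝ, g ξ * cexp ((2 * Real.pi * ξ * x : ℝ) * I)

lemma exists_g {δ : ℝ} (hδ : 0 < δ) : ∃ g : ℝ → ℂ, GF δ g := by
  set gh : 𝓢(ℝ, ℂ) := 𝓕 ((psi_supp hδ).toSchwartzMap (psi_smooth δ)) with hgh
  refine ⟨gh, gh.continuous, fun n => ?_, fun x => ?_⟩
  · have h : (fun ξ : ℝ => ‖gh ξ‖ * (1 + |ξ|) ^ n) = fun ξ : ℝ =>
        ∑ k ∈ Finset.range (n + 1), (n.choose k : ℝ) * (‖ξ‖ ^ k * ‖gh ξ‖) := by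
      funext ξ
      rw [add_comm, add_pow, Finset.mul_sum]
      refine Finset.sum_congr rfl fun k _ => ?_
      rw [one_pow, Real.norm_eq_abs]; ring
    rw [h]
    exact integrable_finsetSum _ fun k _ => (gh.integrable_pow_mul volume k).const_mul _
  · have h1 : 𝓕⁻ gh = (psi_supp hδ).toSchwartzMap (psi_smooth δ) := by
      rw [hgh]; exact FourierTransform.fourierInv_fourier_eq _
    have h2 : psi δ x = (𝓕⁻ gh) x := by rw [h1]; rfl
    rw [h2, SchwartzMap.fourierInv_coe, Real.fourierInv_eq']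
    congr 1
    funext ξ
    rw [smul_eq_mul, mul_comm]
    congr 3
    simp
    ring

end

lemma GF.integrable {δ : ℝ} {g : ℝ → ℂ} (hg : GF δ g) : Integrable g := by
  have h := hg.int 0
  simp only [pow_zero, mul_one] at h
  exact (integrable_norm_iff hg.cont.aestronglyMeasurable).1 h

/-- The shift `1 - 2 π i ξ`. -/
noncomputable def zz (ξ : ℝ) : ℂ := 1 - 2 * Real.pi * ξ * I

lemma zz_re (ξ : ℝ) : (zz ξ).re = 1 := by
  have : zz ξ = ((1 : ℝ) : ℂ) + ((-(2 * Real.pi * ξ) : ℝ) : ℂ) * I := by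
    rw [zz]; push_cast; ring
  rw [this]
  simp

lemma norm_zz_le (ξ : ℝ) : 1 + ‖zz ξ‖ ≤ 7 * (1 + |ξ|) := by
  have h1 : ‖zz ξ‖ ≤ 1 + 2 * Real.pi * |ξ| := by
    rw [zz]
    refine (norm_sub_le _ _).trans ?_
    rw [norm_one, norm_mul, norm_I, mul_one, norm_mul, norm_real, norm_mul, norm_real]
    simp [abs_of_pos Real.pi_pos]
  have h2 := Real.pi_lt_d2
  have h3 : 0 ≤ |ξ| := abs_nonneg ξ
  have h4 : 2 * Real.pi * |ξ| ≤ 6.3 * |ξ| := by
    gcongr; linarith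
  linarith

lemma continuous_zz : Continuous zz := by
  unfold zz; fun_prop

lemma sh_re {L : ℝ} (w : ℂ) (ξ : ℝ) : (w + zz ξ / L).re = w.re + 1 / L := by
  rw [add_re, div_ofReal_re, zz_re]

lemma cpow_sh {L : ℝ} (w : ℂ) (ξ : ℝ) {n : ℕ} (hn : n ≠ 0) :
    (n : ℂ) ^ (-(w + zz ξ / L)) = (n : ℂ) ^ (-w) * ((Real.exp (-(Real.log n / L)) : ℝ) : ℂ) *
      cexp ((2 * Real.pi * ξ * (Real.log n / L) : ℝ) * I) := by
  have h0 : (n : ℂ) ≠ 0 := by exact_mod_cast hn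
  rw [cpow_def_of_ne_zero h0, cpow_def_of_ne_zero h0, ofReal_exp, ← exp_add, ← exp_add]
  congr 1
  rw [zz, ← natCast_log]
  push_cast
  ring

lemma norm_cpow_sh {L : ℝ} (w : ℂ) (ξ : ℝ) {n : ℕ} (hn : n ≠ 0) :
    ‖(n : ℂ) ^ (-(w + zz ξ / L))‖ = (n : ℝ) ^ (-(w.re + 1 / L)) := by
  rw [norm_natCast_cpow_of_pos (Nat.pos_of_ne_zero hn), neg_re, sh_re]

lemma continuous_sh (w : ℂ) (L : ℝ) : Continuous fun ξ : ℝ => w + zz ξ / L :=
  continuous_const.add (continuous_zz.div_const _)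

lemma continuous_cpow_sh (w : ℂ) (L : ℝ) {n : ℕ} (hn : n ≠ 0) :
    Continuous fun ξ : ℝ => (n : ℂ) ^ (-(w + zz ξ / L)) := by
  have h0 : (n : ℂ) ≠ 0 := by exact_mod_cast hn
  exact (continuous_sh w L).neg.const_cpow (Or.inl h0)

/-- The Fourier identity for one frequency. -/
lemma one_freq {δ : ℝ} {g : ℝ → ℂ} (hg : GF δ g) {L : ℝ} (w c : ℂ) {n : ℕ} (hn : n ≠ 0) :
    ∫ ξ : ℝ, g ξ * ((n : ℂ) ^ (-(w + zz ξ / L)) * c) =
      (Pb δ (Real.log n / L) : ℂ) * ((n : ℂ) ^ (-w) * c) := by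
  have e1 : ∀ ξ : ℝ, g ξ * ((n : ℂ) ^ (-(w + zz ξ / L)) * c) = ((((n : ℕ) : ℂ) ^ (-w)) *
      ((Real.exp (-(Real.log n / L)) : ℝ) : ℂ) * c) *
      (g ξ * cexp ((2 * Real.pi * ξ * (Real.log n / L) : ℝ) * I)) := by
    intro ξ
    rw [cpow_sh w ξ hn]; ring
  simp only [e1]
  rw [integral_const_mul, ← hg.eq, psi]
  have e2 : ((Real.exp (-(Real.log n / L)) : ℝ) : ℂ) *
      ((Real.exp (Real.log n / L) : ℝ) : ℂ) = 1 := by
    rw [← ofReal_mul, ← Real.exp_add]; simp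
  rw [ofReal_mul]
  linear_combination (((n : ℕ) : ℂ) ^ (-w) * c * (Pb δ (Real.log n / L) : ℂ)) * e2

lemma one_freq_int {δ : ℝ} {g : ℝ → ℂ} (hg : GF δ g) {L : ℝ} (w c : ℂ) {n : ℕ} (hn : n ≠ 0) :
    Integrable fun ξ : ℝ => g ξ * ((n : ℂ) ^ (-(w + zz ξ / L)) * c) := by
  refine (hg.integrable.norm.mul_const ((n : ℝ) ^ (-(w.re + 1 / L)) * ‖c‖)).mono' ?_ ?_
  · exact (hg.cont.mul ((continuous_cpow_sh w L hn).mul continuous_const)).aestronglyMeasurable
  · refine Filter.Eventually.of_forall fun ξ => ?_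
    rw [norm_mul, norm_mul, norm_cpow_sh w ξ hn]

variable {m : ℕ} {Sb : Fin m → Finset ℕ}

/-- Uniform bound for the Euler product. -/
lemma norm_ZZ_le (hB : Blk Sb) {L : ℝ} {w : ℂ} (hσ : 0 < w.re + 1 / L) (ξ : ℝ)
    (ω : (j : Fin m) → Sb j → ℝ) :
    ‖ZZ (UU Sb) (tw (w + zz ξ / L) (XX Sb ω))‖ ≤
      ∏ p ∈ UU Sb, (1 - (p : ℝ) ^ (-(w.re + 1 / L)))⁻¹ := by
  rw [ZZ, norm_prod]
  refine Finset.prod_le_prod (fun p _ => norm_nonneg _) fun p hp => ?_
  have hpp := prime_of_mem_UU hB hp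
  have h2 := norm_tw_XX_lt (w := w + zz ξ / L) (by rw [sh_re]; exact hσ) ω hpp
  have h3 := norm_tw_XX (w + zz ξ / L) ω hpp.ne_zero
  rw [sh_re] at h3
  rw [h3] at h2
  rw [norm_inv]
  apply inv_anti₀ (by linarith)
  have := norm_sub_norm_le 1 (tw (w + zz ξ / L) (XX Sb ω) p)
  rw [norm_one, h3] at this
  exact this

lemma continuous_ZZ (hB : Blk Sb) {L : ℝ} {w : ℂ} (hσ : 0 < w.re + 1 / L) :
    Continuous fun x : ℝ × ((j : Fin m) → Sb j → ℝ) =>
      ZZ (UU Sb) (tw (w + zz x.1 / L) (XX Sb x.2)) := by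
  refine continuous_finsetProd _ fun p hp => ?_
  have hpp := prime_of_mem_UU hB hp
  refine Continuous.inv₀ ?_ ?_
  · refine continuous_const.sub ?_
    exact ((continuous_cpow_sh w L hpp.ne_zero).comp continuous_fst).mul
      ((continuous_XX p).comp continuous_snd)
  · intro x h
    have := norm_tw_XX_lt (w := w + zz x.1 / L) (by rw [sh_re]; exact hσ) x.2 hpp
    rw [← sub_eq_zero.mp h] at this
    simp at this

/-- The smoothed sum is an average of Euler products. -/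
lemma SH_eq {δ : ℝ} (hδ : 0 < δ) {g : ℝ → ℂ} (hg : GF δ g) (hB : Blk Sb) {T : ℝ} (hT : 1 < T)
    (hU : ∀ n : ℕ, 1 ≤ n → (n : ℝ) ≤ T → n ∈ Nat.factoredNumbers (UU Sb)) {w : ℂ} (hw : 0 < w.re)
    (ω : (j : Fin m) → Sb j → ℝ) :
    SH δ T (tw w (XX Sb ω)) =
      ∫ ξ : ℝ, g ξ * ZZ (UU Sb) (tw (w + zz ξ / Real.log T) (XX Sb ω)) := by
  have hT0 : 0 < T := by linarith
  have hL : 0 < Real.log T := Real.log_pos hT
  set f := XX Sb ω with hf
  set L := Real.log T with hLd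
  have hσ : 0 < w.re + 1 / L := by positivity
  have hsum : Summable fun n : Nat.factoredNumbers (UU Sb) =>
      ((n : ℕ) : ℝ) ^ (-(w.re + 1 / L)) := by
    have h := (ZZ_hasSum (s := UU Sb) (fun p hp => prime_of_mem_UU hB hp)
      (cmul_tw (cmul_XX Sb ω) (w + zz 0 / L))
      (fun p hp => norm_tw_XX_lt (by rw [sh_re]; exact hσ) ω hp)).1
    refine h.congr fun n => ?_
    rw [norm_tw_XX (w + zz 0 / L) ω (Nat.ne_zero_of_mem_factoredNumbers n.2), sh_re]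
  have hnorm : ∀ (n : Nat.factoredNumbers (UU Sb)) (ξ : ℝ), ‖g ξ * tw (w + zz ξ / L) f n‖ =
      ‖g ξ‖ * ((n : ℕ) : ℝ) ^ (-(w.re + 1 / L)) := by
    intro n ξ
    rw [norm_mul, norm_tw_XX _ ω (Nat.ne_zero_of_mem_factoredNumbers n.2), sh_re]
  have hint : ∀ n : Nat.factoredNumbers (UU Sb),
      Integrable (fun ξ : ℝ => g ξ * tw (w + zz ξ / L) f n) := fun n =>
    one_freq_int hg w (f n) (Nat.ne_zero_of_mem_factoredNumbers n.2)
  have key := hasSum_integral_of_summable_integral_norm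
    (F := fun (n : Nat.factoredNumbers (UU Sb)) (ξ : ℝ) => g ξ * tw (w + zz ξ / L) f n)
    (μ := volume) hint ?_
  · have h1 : ∀ n : Nat.factoredNumbers (UU Sb), ∫ ξ : ℝ, g ξ * tw (w + zz ξ / L) f n =
        (Pb δ (Real.log n / L) : ℂ) * tw w f n := fun n =>
      one_freq hg w (f n) (Nat.ne_zero_of_mem_factoredNumbers n.2)
    simp only [h1] at key
    have h2 : ∀ ξ : ℝ, ∑' n : Nat.factoredNumbers (UU Sb), g ξ * tw (w + zz ξ / L) f n =
        g ξ * ZZ (UU Sb) (tw (w + zz ξ / L) f) := by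
      intro ξ
      have h := (ZZ_hasSum (s := UU Sb) (fun p hp => prime_of_mem_UU hB hp)
        (cmul_tw (cmul_XX Sb ω) (w + zz ξ / L))
        (fun p hp => norm_tw_XX_lt (by rw [sh_re]; exact hσ) ω hp)).2
      exact (h.mul_left (g ξ)).tsum_eq
    simp only [h2] at key
    rw [← key.tsum_eq]
    have e3 : ∑' n : Nat.factoredNumbers (UU Sb), (Pb δ (Real.log (n : ℕ) / L) : ℂ) *
        tw w f (n : ℕ) = ∑' n : ℕ, (Nat.factoredNumbers (UU Sb)).indicator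
        (fun n : ℕ => (Pb δ (Real.log n / L) : ℂ) * tw w f n) n :=
      tsum_subtype (Nat.factoredNumbers (UU Sb))
        (fun n : ℕ => (Pb δ (Real.log n / L) : ℂ) * tw w f n)
    rw [e3, tsum_eq_sum (s := Finset.Icc 1 ⌊T⌋₊), SH]
    · refine Finset.sum_congr rfl fun n hn => ?_
      rw [Finset.mem_Icc] at hn
      have hnT : (n : ℝ) ≤ T := (Nat.le_floor_iff hT0.le).mp hn.2
      rw [Set.indicator_of_mem (hU n hn.1 hnT)]
    · intro n hn
      by_cases hmem : n ∈ Nat.factoredNumbers (UU Sb)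
      · rw [Set.indicator_of_mem hmem]
        have hn0 : n ≠ 0 := Nat.ne_zero_of_mem_factoredNumbers hmem
        rw [Finset.mem_Icc, not_and] at hn
        have h3 : ⌊T⌋₊ < n := by
          have := hn (Nat.one_le_iff_ne_zero.mpr hn0)
          omega
        have h4 : T < n := (Nat.floor_lt hT0.le).mp h3
        have h5 : Pb δ (Real.log n / L) = 0 := by
          apply Pb_zero hδ
          rw [le_div_iff₀ hL]
          have h6 := Real.log_le_log hT0 h4.le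
          rw [← hLd] at h6
          nlinarith
        rw [h5]; simp
      · rw [Set.indicator_of_notMem hmem]
  · simp only [hnorm, integral_mul_const]
    exact hsum.mul_left _

/-- The representation under the expectation. -/
lemma ER_SH {δ : ℝ} (hδ : 0 < δ) {g : ℝ → ℂ} (hg : GF δ g) (hB : Blk Sb) {T : ℝ} (hT : 1 < T)
    (hU : ∀ n : ℕ, 1 ≤ n → (n : ℝ) ≤ T → n ∈ Nat.factoredNumbers (UU Sb)) {w : ℂ} (hw : 0 < w.re)
    {B : (ℕ → ℂ) → ℂ} (hBC : BC Sb B) :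
    Integrable (fun ξ : ℝ => g ξ *
      ER Sb (fun f => ZZ (UU Sb) (tw (w + zz ξ / Real.log T) f) * B f)) ∧
    ER Sb (fun f => SH δ T (tw w f) * B f) = ∫ ξ : ℝ, g ξ *
      ER Sb (fun f => ZZ (UU Sb) (tw (w + zz ξ / Real.log T) f) * B f) := by
  have hT0 : 0 < T := by linarith
  have hL : 0 < Real.log T := Real.log_pos hT
  set L := Real.log T with hLd
  have hσ : 0 < w.re + 1 / L := by positivity
  obtain ⟨hBc, CB, hCB⟩ := hBC
  set Cz : ℝ := ∏ p ∈ UU Sb, (1 - (p : ℝ) ^ (-(w.re + 1 / L)))⁻¹ with hCz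
  have hZ := fun ξ ω => norm_ZZ_le (m := m) (Sb := Sb) hB (L := L) (w := w) hσ ξ ω
  have hZc := continuous_ZZ (m := m) (Sb := Sb) hB (L := L) (w := w) hσ
  have hH : Integrable (fun x : ℝ × ((j : Fin m) → Sb j → ℝ) => g x.1 *
      (ZZ (UU Sb) (tw (w + zz x.1 / L) (XX Sb x.2)) * B (XX Sb x.2)))
      (volume.prod (PP0 Sb)) := by
    have h1 : Integrable (fun x : ℝ × ((j : Fin m) → Sb j → ℝ) => ‖g x.1‖ * (Cz * CB))
        (volume.prod (PP0 Sb)) :=
      (hg.integrable.norm.mul_const _).comp_fst (PP0 Sb)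
    refine h1.mono' ?_ ?_
    · refine Continuous.aestronglyMeasurable ?_
      exact (hg.cont.comp continuous_fst).mul (hZc.mul (hBc.comp continuous_snd))
    · refine Filter.Eventually.of_forall fun x => ?_
      rw [norm_mul, norm_mul]
      have h2 := hZ x.1 x.2
      have h3 := hCB x.2
      have h4 : 0 ≤ Cz := (norm_nonneg _).trans h2
      gcongr
  refine ⟨?_, ?_⟩
  · refine hH.integral_prod_left.congr (Filter.Eventually.of_forall fun ξ => ?_)
    simp only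
    rw [ER_eq, ← integral_const_mul]
  · have e1 : ∫ ξ : ℝ, g ξ * ER Sb (fun f => ZZ (UU Sb) (tw (w + zz ξ / L) f) * B f) =
        ∫ ω, ∫ ξ : ℝ, g ξ * (ZZ (UU Sb) (tw (w + zz ξ / L) (XX Sb ω)) *
          B (XX Sb ω)) ∂volume ∂(PP0 Sb) := by
      rw [← integral_integral_swap hH]
      congr 1
      funext ξ
      rw [ER_eq, ← integral_const_mul]
    rw [e1, ER_eq]
    congr 1
    funext ω
    rw [SH_eq hδ hg hB hT hU hw ω, ← integral_mul_const]
    congr 1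
    funext ξ
    ring

end SHF

end K1
end Pool.Agent.Lib.MP_973905_nt
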