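import Pool.Agent.Lib.MP_973905_nt.K1.Defs

/-! Statements (as propositions) of the modules. -/

namespace Pool.Agent.Lib.MP_973905_nt
namespace K1

open MeasureTheory ProbabilityTheory Complex Filter Topology

/-- (1) pair of functional equation factors -/
def StFFpair : Prop := ∃ C : ℝ, 1 ≤ C ∧ ∀ (b : ℂ) (t : ℝ), |b.re| ≤ 1 / 4 → C * (1 + ‖b‖) ^ 2 ≤ |t| →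
    ‖FF (1 / 2 + b + t * I) * FF (1 / 2 + b - t * I) - ((|t| / (2 * Real.pi) : ℝ) : ℂ) ^ (2 * b)‖ ≤
      C * (1 + ‖b‖) ^ 2 / |t| * (|t| / (2 * Real.pi)) ^ (2 * b.re)

/-- (2) contour shift for Gaussian means -/
def StShift : Prop := ∀ (f : ℂ → ℂ) (α β σ₁ σ₂ τ κ : ℝ) (v : NNReal), v ≠ 0 → α < σ₁ → σ₁ < β → α < σ₂ →
    σ₂ < β → DifferentiableOn ℂ f {s : ℂ | α < s.re ∧ s.re < β} → 0 ≤ κ → 4 * κ * v ≤ 1 →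
    (∃ (C : ℝ) (m : ℕ), ∀ s : ℂ, α < s.re → s.re < β →
      ‖f s‖ ≤ C * (1 + |s.im|) ^ m * Real.exp (κ * (s.im - τ) ^ 2)) →
    ∫ t : ℝ, f (σ₁ + t * I) ∂(gaussianReal τ v) =
      (Real.exp ((σ₂ - σ₁) ^ 2 / (2 * v)) : ℂ) *
        ∫ t : ℝ, f (σ₂ + t * I) * cexp (((σ₂ - σ₁) * (t - τ) / v : ℝ) * I) ∂(gaussianReal τ v)

/-- (3) exact pairing of zeta with one frequency -/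
def StZetaPair : Prop := ∃ T₀ : ℝ, 3 ≤ T₀ ∧ ∀ T, T₀ ≤ T → ∀ τ : ℝ, T / Real.log T ≤ |τ| → |τ| ≤ 3 / 2 * T →
    ∀ a : ℂ, 0 ≤ a.re → a.re ≤ 1 / 4 → |a.im| ≤ T ^ (1 / 100 : ℝ) → ∀ u v : ℕ, 1 ≤ u → 1 ≤ v →
    (u : ℝ) ≤ T ^ (9 / 10 : ℝ) → (v : ℝ) ≤ T ^ (9 / 10 : ℝ) →
    ‖EG T τ (fun t => riemannZeta (1 / 2 + a + t * I) * (fs (t * I) u * (starRingEnd ℂ) (fs (t * I) v))) -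
      (if u ∣ v then ((v / u : ℕ) : ℂ) ^ (-(1 / 2 + a)) else 0)‖ ≤ T ^ (-20 : ℝ)

/-- (4) mean square of `ζ - S` to the right of the critical line -/
def StRBound : Prop := ∃ C : ℝ, 0 < C ∧ ∃ T₀ : ℝ, 3 ≤ T₀ ∧ ∀ T, T₀ ≤ T → ∀ τ : ℝ, |τ| ≤ 2 * T →
    ∀ δ : ℝ, 0 ≤ δ → δ ≤ 1 / 4 →
    EG T τ (fun t => ‖riemannZeta (((1 / 2 + δ : ℝ) : ℂ) + t * I) -
      SS T (fs (((1 / 2 + δ : ℝ) : ℂ) + t * I))‖ ^ 2) ≤ C * Real.log T * T ^ (-(13 / 10 * δ))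

/-- (5) finite formula for the arithmetic factor -/
def StFin : Prop := ∀ T : ℝ, 1 < T → ∀ (N B : ℝ) (G : (ℕ → ℂ) → ℂ), N ≤ T → DP N B G →
    ∃ c : ℕ → ℂ, (∑ n ∈ Finset.Icc 1 ⌊N⌋₊, ‖c n‖ ≤ B) ∧
      (∀ f, CMul f → G f = ∑ n ∈ Finset.Icc 1 ⌊N⌋₊, c n * f n) ∧
      ∀ (M : ℕ) (a₁ a₂ : ℂ), -(1 / 2) < a₁.re → -(1 / 2) < a₂.re → RA T M G a₁ a₂ =
        ∑ m ∈ Finset.Icc 1 ⌊N⌋₊, ∑ n ∈ Finset.Icc 1 ⌊N⌋₊, c m * (starRingEnd ℂ) (c n) *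
          (m : ℂ) ^ (-(1 / 2 : ℂ)) * (n : ℂ) ^ (-(1 / 2 : ℂ)) *
          ((n / m.gcd n : ℕ) : ℂ) ^ (-(1 / 2 + a₁)) * ((m / m.gcd n : ℕ) : ℂ) ^ (-(1 / 2 + a₂))

/-- (6) right edge `Re a = 3/100` -/
def StRight : Prop := ∃ T₀ : ℝ, 3 ≤ T₀ ∧ ∀ T, T₀ ≤ T → ∀ (M : ℕ) (τ : ℝ), T / Real.log T ≤ |τ| →
    |τ| ≤ 3 / 2 * T → ∀ G : (ℕ → ℂ) → ℂ, DP (T ^ (1 / 1000 : ℝ)) (T ^ (1 / 1000 : ℝ)) G → ∀ a : ℂ,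
    a.re = 3 / 100 → |a.im| ≤ T ^ (1 / 100 : ℝ) →
    ‖FG T τ G a - riemannZeta (1 + 2 * a) * RA T M G a a‖ ≤ T ^ (-(36 / 1000) : ℝ)

/-- (7) left edge `Re a = -3/100` -/
def StLeft : Prop := ∃ T₀ : ℝ, 3 ≤ T₀ ∧ ∀ T, T₀ ≤ T → ∀ τ : ℝ, T / Real.log T ≤ |τ| →
    |τ| ≤ 3 / 2 * T → ∀ G : (ℕ → ℂ) → ℂ, DP (T ^ (1 / 1000 : ℝ)) (T ^ (1 / 1000 : ℝ)) G → ∀ a : ℂ,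
    a.re = -(3 / 100) → |a.im| ≤ T ^ (1 / 100 : ℝ) →
    ‖FG T τ G a - ((|τ| / (2 * Real.pi) : ℝ) : ℂ) ^ (-(2 * a)) * FG T τ G (-a)‖ ≤
      (1 + |a.im|) ^ 2 * T ^ (22 / 1000 : ℝ)

/-- (8) analyticity and growth of the shifted moment -/
def StStrip : Prop := (∀ (T τ N B : ℝ) (G : (ℕ → ℂ) → ℂ), 1 < T → DP N B G →
      DifferentiableOn ℂ (FG T τ G) {a : ℂ | |a.re| < 1 / 4}) ∧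
    ∃ C : ℝ, 0 < C ∧ ∀ T : ℝ, 3 ≤ T → ∀ τ : ℝ, |τ| ≤ 2 * T → ∀ (N B : ℝ) (G : (ℕ → ℂ) → ℂ), DP N B G →
      ∀ a : ℂ, |a.re| ≤ 1 / 8 → ‖FG T τ G a‖ ≤ C * B ^ 2 * T ^ 4 * (1 + |a.im|) ^ 4

/-- (9) the twisted second moment on the critical line -/
def StExact : Prop := ∃ T₀ : ℝ, 3 ≤ T₀ ∧ ∀ T, T₀ ≤ T → ∀ (M : ℕ) (τ : ℝ), T / Real.log T ≤ |τ| →
    |τ| ≤ 3 / 2 * T → ∀ G : (ℕ → ℂ) → ℂ, DP (T ^ (1 / 1000 : ℝ)) (T ^ (1 / 1000 : ℝ)) G →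
    ‖FG T τ G 0 - Real.circleAverage (Mn T τ M G) 0 (1 / Real.log T)‖ ≤ T ^ (-(1 / 1000) : ℝ)

/-- (10) local factor -/
def StLF : Prop := ∃ C : ℝ, 0 < C ∧ ∀ (u x : ℝ) (x₁ x₂ : ℂ), 0 ≤ u → u ≤ 1 → 0 ≤ x → x ≤ 3 / 4 →
    ‖x₁‖ ≤ 3 / 4 → ‖x₂‖ ≤ 3 / 4 → ‖x₁‖ ≤ 2 * x → ‖x₂‖ ≤ 2 * x →
    ‖(1 - x₁ * x₂) * LF u x x₁ x₂ - ((1 + (u ^ 2 - 2 * u) * x ^ 2 : ℝ) : ℂ)‖ ≤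
      C * u * x * (‖x₁ - x‖ + ‖x₂ - x‖ + x ^ 3)

/-- (11) one block with shifts -/
def StBlockShift : Prop := ∃ C₁ : ℝ, 0 < C₁ ∧ ∀ (A l : ℕ) (S : Finset ℕ) (k : ℝ) (a₁ a₂ : ℂ), 1 ≤ A →
    (∀ p ∈ S, p.Prime) → 0 ≤ k → k ≤ 1 →
    (∀ p ∈ S, ‖a₁‖ * Real.log p ≤ 1 / 20 ∧ ‖a₂‖ * Real.log p ≤ 1 / 20) →
    (‖a₁‖ + ‖a₂‖) * ∑ p ∈ S, Real.log p / p ≤ 1 →
    16 * Real.exp (C₁ * ∑ p ∈ S, 1 / (p : ℝ)) ≤ Real.exp (l / 2) →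
    ‖ES S (fun f => ZZ S (tw (1 / 2 + a₁) f) *
        (starRingEnd ℂ) (ZZ S (tw (1 / 2 + (starRingEnd ℂ) a₂) f)) *
        (Ntr l (k - 1) (Pj A S (tw (1 / 2) f)) *
          (starRingEnd ℂ) (Ntr l (k - 1) (Pj A S (tw (1 / 2) f))))) - LP (1 - k) a₁ a₂ S‖ ≤
      C₁ * (Real.exp (3 * rho A S) - 1 + Real.exp (-(l / 2))) * ‖LP (1 - k) a₁ a₂ S‖

/-- (12) the arithmetic factor of our polynomials -/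
def StRA : Prop := ∀ η : ℝ, 0 < η → ∃ M₀ : ℕ, ∀ M : ℕ, M₀ ≤ M → ∃ k₁ : ℝ, 0 < k₁ ∧ k₁ < 1 ∧ ∃ T₀ : ℝ,
    3 ≤ T₀ ∧ ∀ T, T₀ ≤ T → ∀ k : ℝ, k₁ ≤ k → k ≤ 1 → ∀ a₁ a₂ : ℂ,
    ‖a₁‖ ≤ Real.exp (M / 2) / Real.log T → ‖a₂‖ ≤ Real.exp (M / 2) / Real.log T →
    ‖RA T M (NN T M (k - 1)) a₁ a₂ - (((Real.log T) ^ (k ^ 2 - 1) : ℝ) : ℂ)‖ ≤
      η * (Real.log T) ^ (k ^ 2 - 1)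

/-- (13) our polynomials are as short as we like -/
def StShort : Prop := ∀ θ : ℝ, 0 < θ → ∃ M₀ : ℕ, ∀ M : ℕ, M₀ ≤ M → ∃ T₀ : ℝ, 3 ≤ T₀ ∧ ∀ T, T₀ ≤ T →
    ∀ α : ℝ, |α| ≤ 1 → ∀ g h : Finset ℕ, DP (T ^ θ) (T ^ θ) (AA T M (JJ T) α g h)

/-- (14) crude bounds on the critical line -/
def StCrude : Prop := ∃ C κ : ℝ, 0 < C ∧ 0 < κ ∧ ∃ M₀ : ℕ, ∀ M : ℕ, M₀ ≤ M → ∃ T₀ : ℝ, 3 ≤ T₀ ∧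
    ∀ T, T₀ ≤ T → ∀ τ : ℝ, |τ| ≤ 2 * T → ∀ k : ℝ, 0 < k → k ≤ 1 → ∀ g h : Finset ℕ,
    g ∪ h = Finset.range (JJ T + 1) →
    EG T τ (fun t => ‖riemannZeta (1 / 2 + t * I)‖ ^ 2 *
      ‖AA T M (JJ T) (k - 1) g h (fs (1 / 2 + t * I))‖ ^ 2) ≤
      Real.exp (C * M) * (Real.log T) ^ (k ^ 2) * ∏ j ∈ h, ss M (JJ T) j + T ^ (-κ) ∧
    EG T τ (fun t => ‖AA T M (JJ T) k g h (fs (1 / 2 + t * I))‖ ^ 2) ≤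
      Real.exp (C * M) * (Real.log T) ^ (k ^ 2) * ∏ j ∈ h, ss M (JJ T) j + T ^ (-κ)

/-- (15) sharp twisted second moment -/
def StSecond : Prop := ∀ η : ℝ, 0 < η → ∃ M₀ : ℕ, ∀ M : ℕ, M₀ ≤ M → ∃ k₁ : ℝ, 0 < k₁ ∧ k₁ < 1 ∧ ∃ T₀ : ℝ,
    3 ≤ T₀ ∧ ∀ T, T₀ ≤ T → ∀ k : ℝ, k₁ ≤ k → k ≤ 1 → ∀ τ : ℝ, T / Real.log T ≤ |τ| →
    |τ| ≤ 3 / 2 * T →
    |EG T τ (fun t => ‖riemannZeta (1 / 2 + t * I)‖ ^ 2 * ‖NN T M (k - 1) (fs (1 / 2 + t * I))‖ ^ 2) -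
      (Real.log T) ^ (k ^ 2)| ≤ η * (Real.log T) ^ (k ^ 2)

/-- (16) upper bounds for Gaussian means -/
def StUpper : Prop := (∀ ε : ℝ, 0 < ε → ∃ k₁ : ℝ, 0 < k₁ ∧ k₁ < 1 ∧ ∃ T₀ : ℝ, 3 ≤ T₀ ∧ ∀ T, T₀ ≤ T →
      ∀ k : ℝ, k₁ ≤ k → k ≤ 1 → ∀ τ : ℝ, T / Real.log T ≤ |τ| → |τ| ≤ 3 / 2 * T →
      EG T τ (fun t => ‖riemannZeta (1 / 2 + t * I)‖ ^ (2 * k)) ≤ (1 + ε) * (Real.log T) ^ (k ^ 2)) ∧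
    ∃ C T₀ : ℝ, 0 < C ∧ 3 ≤ T₀ ∧ ∀ T, T₀ ≤ T → ∀ k : ℝ, 0 < k → k ≤ 1 → ∀ τ : ℝ, |τ| ≤ 2 * T →
      EG T τ (fun t => ‖riemannZeta (1 / 2 + t * I)‖ ^ (2 * k)) ≤ C * (Real.log T) ^ (k ^ 2)

/-- (17a) the correlation with the short sum -/
def StSHZeta : Prop := ∀ δ η : ℝ, 0 < δ → δ ≤ 1 / 8 → 0 < η → ∃ M₀ : ℕ, ∀ M : ℕ, M₀ ≤ M →
    ∃ k₁ : ℝ, 0 < k₁ ∧ k₁ < 1 ∧ ∃ T₀ : ℝ, 3 ≤ T₀ ∧ ∀ T, T₀ ≤ T → ∀ k : ℝ, k₁ ≤ k → k ≤ 1 →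
    ‖ER (SB T M (JJ T)) (fun f => ZZ (PS 0 T) (tw (1 / 2) f) * (starRingEnd ℂ) (SH δ T (tw (1 / 2) f)) *
        (NN T M (k - 1) (tw (1 / 2) f) * (starRingEnd ℂ) (NN T M (k - 1) (tw (1 / 2) f)))) -
      (((Real.log T) ^ (k ^ 2 - 1) *
        ∑ n ∈ Finset.Icc 1 ⌊T⌋₊, Pb δ (Real.log n / Real.log T) / n : ℝ) : ℂ)‖ ≤
      η * (Real.log T) ^ (k ^ 2)

/-- (17b) the mean square of the short sum -/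
def StSHSq : Prop := ∀ δ η : ℝ, 0 < δ → δ ≤ 1 / 8 → 0 < η → ∃ M₀ : ℕ, ∀ M : ℕ, M₀ ≤ M →
    ∃ k₁ : ℝ, 0 < k₁ ∧ k₁ < 1 ∧ ∃ T₀ : ℝ, 3 ≤ T₀ ∧ ∀ T, T₀ ≤ T → ∀ k : ℝ, k₁ ≤ k → k ≤ 1 →
    |ER (SB T M (JJ T)) (fun f => ‖SH δ T (tw (1 / 2) f)‖ ^ 2 * ‖NN T M (k - 1) (tw (1 / 2) f)‖ ^ 2) -
      (Real.log T) ^ (k ^ 2 - 1) *
        ∑ n ∈ Finset.Icc 1 ⌊T⌋₊, Pb δ (Real.log n / Real.log T) ^ 2 / n| ≤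
      η * (Real.log T) ^ (k ^ 2)

/-- (18) the dual term is negligible -/
def StCross : Prop := ∀ δ : ℝ, 0 < δ → δ ≤ 1 / 8 → ∃ θ κ T₀ : ℝ, 0 < θ ∧ 0 < κ ∧ 3 ≤ T₀ ∧
    ∀ T, T₀ ≤ T → ∀ τ : ℝ, T / Real.log T ≤ |τ| → |τ| ≤ 3 / 2 * T → ∀ G : (ℕ → ℂ) → ℂ,
    DP (T ^ θ) (T ^ θ) G →
    ‖EG T τ (fun t => FF (1 / 2 + t * I) * (SH δ T (fs (1 / 2 + t * I))) ^ 2 *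
      (G (fs (1 / 2 + t * I)) * (starRingEnd ℂ) (G (fs (1 / 2 + t * I)))))‖ ≤ T ^ (-κ)

/-- (19a) fourth power of the short sum in the random model -/
def StFourthR : Prop := ∀ δ : ℝ, 0 < δ → δ ≤ 1 / 8 → ∃ M₀ : ℕ, ∀ M : ℕ, M₀ ≤ M → ∃ C T₀ : ℝ, 0 < C ∧
    3 ≤ T₀ ∧ ∀ T, T₀ ≤ T → ∀ k : ℝ, 0 ≤ k → k ≤ 1 →
    ER (SB T M (JJ T)) (fun f => ‖SH δ T (tw (1 / 2) f)‖ ^ 4 * ‖NN T M (k - 1) (tw (1 / 2) f)‖ ^ 2 *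
      ‖NN T M (-1) (tw (1 / 2) f)‖ ^ 2) ≤ C * (Real.log T) ^ (k ^ 2)

/-- (19b) ... and on `[0, T]` -/
def StFourth : Prop := ∀ δ : ℝ, 0 < δ → δ ≤ 1 / 8 → ∃ M₀ : ℕ, ∀ M : ℕ, M₀ ≤ M → ∃ C T₀ : ℝ, 0 < C ∧
    3 ≤ T₀ ∧ ∀ T, T₀ ≤ T → ∀ k : ℝ, 0 ≤ k → k ≤ 1 →
    T⁻¹ * ∫ t in (0 : ℝ)..T, ‖SH δ T (fs (1 / 2 + t * I))‖ ^ 4 *
      ‖NN T M (k - 1) (fs (1 / 2 + t * I))‖ ^ 2 * ‖NN T M (-1) (fs (1 / 2 + t * I))‖ ^ 2 ≤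
      C * (Real.log T) ^ (k ^ 2)

/-- (20) means of zeta times Dirichlet polynomials -/
def StTransferZeta : Prop := ∃ T₀ : ℝ, 3 ≤ T₀ ∧ ∀ T, T₀ ≤ T → ∀ τ : ℝ, T / Real.log T ≤ |τ| →
    |τ| ≤ 3 / 2 * T → ∀ (M : ℕ) (G H : (ℕ → ℂ) → ℂ), DP (T ^ (9 / 10 : ℝ)) (T ^ 3) G →
    DP (T ^ (9 / 10 : ℝ)) (T ^ 3) H →
    ‖EG T τ (fun t => riemannZeta (1 / 2 + t * I) *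
        (G (fs (t * I)) * (starRingEnd ℂ) (H (fs (t * I))))) -
      ER (SB T M (JJ T)) (fun f => ZZ (PS 0 T) (tw (1 / 2) f) * (G f * (starRingEnd ℂ) (H f)))‖ ≤
      T ^ (-2 : ℝ)

/-- (21) from Gaussian means to the mean over `[0, T]` -/
def StAvg : Prop := ∃ C T₀ : ℝ, 0 < C ∧ 3 ≤ T₀ ∧ ∀ T, T₀ ≤ T → ∀ F : ℝ → ℂ, Continuous F →
    (∀ t, ‖F t‖ ≤ T ^ 4 * (1 + |t|) ^ 4) → ∀ (D : ℂ) (E B : ℝ), 0 ≤ E → 1 ≤ B →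
    (∀ τ : ℝ, T / Real.log T ≤ |τ| → |τ| ≤ 3 / 2 * T → ‖EG T τ F - D‖ ≤ E) →
    (∀ τ : ℝ, |τ| ≤ 3 / 2 * T → EG T τ (fun t => ‖F t‖) ≤ B) →
    ‖(T : ℂ)⁻¹ * (∫ t in (0 : ℝ)..T, F t) - D‖ ≤ E + C * (‖D‖ + B) / Real.log T

/-- (21') upper bounds -/
def StAvgUp : Prop := ∃ C T₀ : ℝ, 0 < C ∧ 3 ≤ T₀ ∧ ∀ T, T₀ ≤ T → ∀ F : ℝ → ℝ, Continuous F →
    (∀ t, 0 ≤ F t) → (∀ t, F t ≤ T ^ 4 * (1 + |t|) ^ 4) → ∀ D B : ℝ, 0 ≤ D → 1 ≤ B →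
    (∀ τ : ℝ, T / Real.log T ≤ |τ| → |τ| ≤ 3 / 2 * T → EG T τ F ≤ D) →
    (∀ τ : ℝ, |τ| ≤ 3 / 2 * T → EG T τ F ≤ B) →
    T⁻¹ * (∫ t in (0 : ℝ)..T, F t) ≤ D + C * (D + B) / Real.log T

/-- (22) lower bound on `[0, T]` -/
def StLower : Prop := ∀ ε : ℝ, 0 < ε → ∃ k₁ : ℝ, 0 < k₁ ∧ k₁ < 1 ∧ ∃ T₀ : ℝ, 3 ≤ T₀ ∧ ∀ T, T₀ ≤ T →
    ∀ k : ℝ, k₁ ≤ k → k ≤ 1 →
    (1 - ε) * (Real.log T) ^ (k ^ 2) ≤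
      T⁻¹ * ∫ t in (0 : ℝ)..T, ‖riemannZeta (1 / 2 + t * I)‖ ^ (2 * k)

/-- (23) the final theorem -/
def StFinal : Prop := ∀ ε : ℝ, 0 < ε → ∃ k₁ : ℝ, 0 < k₁ ∧ k₁ < 1 ∧ ∃ T₀ : ℝ, 3 ≤ T₀ ∧ ∀ T, T₀ ≤ T →
    ∀ k : ℝ, k₁ ≤ k → k ≤ 1 →
    |(T⁻¹ * ∫ t in (0 : ℝ)..T, ‖riemannZeta (1 / 2 + t * I)‖ ^ (2 * k)) /
      (cK k * (Real.log T) ^ (k ^ 2)) - 1| ≤ ε

end K1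
end Pool.Agent.Lib.MP_973905_nt
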